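import Pool.Agent.P.MP_1a0ecf_al.T1
import Pool.Agent.P.MP_1a0ecf_al.F.G3

/-! The weighted sum of the reflections. -/

namespace Pool.Agent.P.MP_1a0ecf_al.F

open scoped Classical

noncomputable section

namespace Cox

variable (X : Cox)

/-- the sign character as a homomorphism -/
def sgnHom : X.W →* ℂ where
  toFun := X.sgn
  map_one' := by simp [Cox0.sgn]
  map_mul' := X.sgn_mul

theorem sum_refls_conj {α : Type} [AddCommMonoid α] (f : X.W → α) (w : X.W) :
    ∑ t ∈ X.refls, f (w * t * w⁻¹) = ∑ t ∈ X.refls, f t := by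
  refine Finset.sum_nbij' (fun t => w * t * w⁻¹) (fun t => w⁻¹ * t * w⁻¹⁻¹) ?_ ?_ ?_ ?_ ?_
  · intro t ht
    exact X.mem_refls.2 ((X.mem_refls.1 ht).conj w)
  · intro t ht
    exact X.mem_refls.2 ((X.mem_refls.1 ht).conj w⁻¹)
  · intro t _
    group
  · intro t _
    group
  · intro t _
    rfl

theorem omA_center (κ : Wt X) : X.omA κ ∈ Subalgebra.center ℂ (MonoidAlgebra ℂ X.W) := by
  refine t1_center fun g => ?_
  rw [omA, Finset.mul_sum, Finset.sum_mul,
    ← X.sum_refls_conj (fun t => κ t • MonoidAlgebra.of ℂ X.W t * MonoidAlgebra.of ℂ X.W g) g]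
  refine Finset.sum_congr rfl fun t ht => ?_
  rw [κ.cl t g (X.mem_refls.1 ht), mul_smul_comm, smul_mul_assoc, ← map_mul, ← map_mul,
    inv_mul_cancel_right]

theorem chx_omA (κ χ : X.W → ℂ) : chx χ (X.omA κ) = ∑ t ∈ X.refls, κ t * χ t := by
  rw [omA, map_sum]
  simp only [map_smul, chx_of, smul_eq_mul]

variable {X}

theorem om_eigen (κ : Wt X) {χ : X.W → ℂ} (h : IsIrr χ) (w : X.W) :
    ∑ t ∈ X.refls, κ t * χ (w * t) = X.om κ χ * χ w := by
  have e := h.chx_mul (X.omA_center κ) (MonoidAlgebra.of ℂ X.W w)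
  rw [chx_omA, chx_of, omA, Finset.sum_mul, map_sum] at e
  rw [Cox.om, ← e]
  refine Finset.sum_congr rfl fun t _ => ?_
  rw [smul_mul_assoc, map_smul, ← map_mul, chx_of, h.isCh.isCl.t1_comm, smul_eq_mul]

end Cox

end

end Pool.Agent.P.MP_1a0ecf_al.F
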