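import Pool.Agent.P.MP_1a0ecf_al.F.CA
import Pool.Agent.P.MP_1a0ecf_al.F.T1

/-! Package C1: first properties of Cherednik algebras. -/

namespace Pool.Agent.P.MP_1a0ecf_al.F

open Matrix MvPolynomial
open scoped Classical TensorProduct

noncomputable section

namespace Cox

variable (X : Cox)

theorem c1_unit : IsUnit (X.K.map (algebraMap ℝ ℂ)).det := by
  have h : (X.K.map (algebraMap ℝ ℂ)).det = algebraMap ℝ ℂ X.K.det :=
    ((algebraMap ℝ ℂ).map_det X.K).symm
  rw [h, isUnit_iff_ne_zero]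
  simpa using X.K_det_ne

theorem c1_BK_du (v : X.Vc) (j : Fin X.n) : X.BK ℂ v (X.du j) = v j := by
  unfold BK du
  rw [mulVec_mulVec, mul_nonsing_inv _ X.c1_unit, one_mulVec]
  simp

theorem c1_sum_single (v : X.Vc) : ∑ i, v i • X.eb i = v := by
  ext j
  simp [Finset.sum_apply, Pi.single_apply]

theorem c1_mul (w u : X.W) (v : X.Vc) : X.σK ℂ (w * u) *ᵥ v = X.σK ℂ w *ᵥ X.σK ℂ u *ᵥ v := by
  rw [map_mul, mulVec_mulVec]

theorem c1_inv (w : X.W) (v : X.Vc) : X.σK ℂ w *ᵥ X.σK ℂ w⁻¹ *ᵥ v = v := by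
  rw [← X.c1_mul, mul_inv_cancel, map_one, one_mulVec]

theorem BK_eb_du (i j : Fin X.n) : X.BK ℂ (X.eb i) (X.du j) = if i = j then 1 else 0 := by
  rw [X.c1_BK_du]
  simp [Pi.single_apply, eq_comm]

theorem sum_du (v : X.Vc) : ∑ i, X.BK ℂ v (X.eb i) • X.du i = v := by
  have h1 : ∀ i, X.BK ℂ v (X.eb i) = (X.K.map (algebraMap ℝ ℂ) *ᵥ v) i := by
    intro i
    rw [X.BK_symm ℂ]
    unfold BK
    simp
  have h2 : ∑ i, X.BK ℂ v (X.eb i) • X.du i = (X.K.map (algebraMap ℝ ℂ))⁻¹ *ᵥ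
      ∑ i, (X.K.map (algebraMap ℝ ℂ) *ᵥ v) i • X.eb i := by
    rw [mulVec_sum]
    refine Finset.sum_congr rfl fun i _ => ?_
    rw [mulVec_smul, h1]
    rfl
  rw [h2, X.c1_sum_single, mulVec_mulVec, nonsing_inv_mul _ X.c1_unit, one_mulVec]

theorem sum_eb (v : X.Vc) : ∑ i, X.BK ℂ v (X.du i) • X.eb i = v := by
  simp only [X.c1_BK_du]
  exact X.c1_sum_single v

theorem sum_du_eb {N : Type} [AddCommGroup N] [Module ℂ N] (f : X.Vc →ₗ[ℂ] X.Vc →ₗ[ℂ] N) :
    ∑ i, f (X.du i) (X.eb i) = ∑ i, f (X.eb i) (X.du i) := by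
  have h1 : ∀ i, f (X.du i) (X.eb i) =
      ∑ j, X.BK ℂ (X.du i) (X.du j) • f (X.eb j) (X.eb i) := by
    intro i
    conv_lhs => rw [← X.sum_eb (X.du i)]
    simp only [map_sum, map_smul, LinearMap.sum_apply, LinearMap.smul_apply]
  have h2 : ∀ i, f (X.eb i) (X.du i) =
      ∑ j, X.BK ℂ (X.du i) (X.du j) • f (X.eb i) (X.eb j) := by
    intro i
    conv_lhs => rw [← X.sum_eb (X.du i)]
    simp only [map_sum, map_smul]
  simp only [h1, h2]
  rw [Finset.sum_comm]
  refine Finset.sum_congr rfl fun i _ => Finset.sum_congr rfl fun j _ => ?_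
  rw [X.BK_symm ℂ]

theorem sum_eb_du_inv {N : Type} [AddCommGroup N] [Module ℂ N] (f : X.Vc →ₗ[ℂ] X.Vc →ₗ[ℂ] N)
    (w : X.W) : ∑ i, f (X.σK ℂ w *ᵥ X.eb i) (X.σK ℂ w *ᵥ X.du i) =
      ∑ i, f (X.eb i) (X.du i) := by
  have h1 : ∀ i, f (X.σK ℂ w *ᵥ X.eb i) (X.σK ℂ w *ᵥ X.du i) =
      ∑ j, f (X.eb j) (X.BK ℂ (X.σK ℂ w⁻¹ *ᵥ X.du j) (X.eb i) • (X.σK ℂ w *ᵥ X.du i)) := by
    intro i
    conv_lhs => rw [← X.sum_eb (X.σK ℂ w *ᵥ X.eb i)]
    simp only [map_sum, map_smul, LinearMap.sum_apply, LinearMap.smul_apply]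
    refine Finset.sum_congr rfl fun j _ => ?_
    rw [← X.BK_inv ℂ w (X.σK ℂ w⁻¹ *ᵥ X.du j), X.c1_inv, X.BK_symm ℂ]
  simp only [h1]
  rw [Finset.sum_comm]
  refine Finset.sum_congr rfl fun j _ => ?_
  rw [← map_sum]
  congr 1
  have h2 : ∑ i, X.BK ℂ (X.σK ℂ w⁻¹ *ᵥ X.du j) (X.eb i) • (X.σK ℂ w *ᵥ X.du i) =
      X.σK ℂ w *ᵥ ∑ i, X.BK ℂ (X.σK ℂ w⁻¹ *ᵥ X.du j) (X.eb i) • X.du i := by
    rw [mulVec_sum]
    simp only [mulVec_smul]
  rw [h2, X.sum_du, X.c1_inv]

theorem σK_rc {t : X.W} (h : X.cs.IsReflection t) : X.σK ℂ t *ᵥ X.rc t = -X.rc t := by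
  rw [X.σK_refl ℂ h, X.BK_vK ℂ, X.B_rt_rt h]
  ext i
  simp
  ring

theorem rc_conj {t : X.W} (h : X.cs.IsReflection t) (w : X.W) :
    X.rc (w * t * w⁻¹) = X.σK ℂ w *ᵥ X.rc t ∨ X.rc (w * t * w⁻¹) = -(X.σK ℂ w *ᵥ X.rc t) := by
  rw [X.σK_vK ℂ]
  rcases X.rt_conj h w with e | e
  · left
    exact congrArg (X.vK ℂ) e
  · right
    unfold rc
    rw [e]
    ext i
    simp [vK]

theorem exists_sep : ∃ (p : X.Sc) (φ : X.Sc →ₐ[ℂ] ℂ), ∀ w,
    φ (X.act ℂ w p) = if w = 1 then 1 else 0 := by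
  let r : X.Vc := X.vK ℂ X.rho
  let φ : X.Sc →ₐ[ℂ] ℂ := aeval fun i => X.BK ℂ r (X.eb i)
  have hφ : ∀ a, φ (lin ℂ a) = X.BK ℂ r a := by
    intro a
    rw [lin_apply, X.BK_expand ℂ, map_sum]
    refine Finset.sum_congr rfl fun i _ => ?_
    simp [φ, mul_comm]
  let b : X.W → ℂ := fun u => X.BK ℂ r (X.σK ℂ u *ᵥ r)
  have hb : ∀ u, u ≠ 1 → b 1 - b u ≠ 0 := by
    intro u hu
    have h1 : ∀ u, b u = algebraMap ℝ ℂ (-X.ht u) := by
      intro u
      simp only [b, r]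
      rw [X.σK_vK ℂ, X.BK_vK ℂ]
      simp [ht]
    rw [h1, h1, ← map_sub]
    have := X.ht_one_lt hu
    have h2 : -X.ht 1 - -X.ht u ≠ 0 := by linarith
    exact (map_ne_zero_iff _ (algebraMap ℝ ℂ).injective).2 h2
  refine ⟨∏ u ∈ Finset.univ.erase (1 : X.W), C (b 1 - b u)⁻¹ * (lin ℂ r - C (b u)), φ, ?_⟩
  intro w
  have h3 : φ (X.act ℂ w (∏ u ∈ Finset.univ.erase (1 : X.W),
      C (b 1 - b u)⁻¹ * (lin ℂ r - C (b u)))) =
      ∏ u ∈ Finset.univ.erase (1 : X.W), (b 1 - b u)⁻¹ * (b w - b u) := by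
    rw [map_prod, map_prod]
    refine Finset.prod_congr rfl fun u _ => ?_
    rw [map_mul, map_mul, map_sub, map_sub, X.act_lin ℂ, hφ, algHom_C, algHom_C]
    simp [b]
  rw [h3]
  split_ifs with hw
  · subst hw
    refine Finset.prod_eq_one fun u hu => ?_
    exact inv_mul_cancel₀ (hb u (Finset.ne_of_mem_erase hu))
  · exact Finset.prod_eq_zero (i := w) (by simp [hw]) (by simp)

end Cox

open scoped IsMulCommutative in
theorem exists_ext {n : ℕ} {A : Type} [Ring A] [Algebra ℂ A] (f : (Fin n → ℂ) →ₗ[ℂ] A)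
    (h : ∀ a b, f a * f b = f b * f a) :
    ∃ φ : MvPolynomial (Fin n) ℂ →ₐ[ℂ] A, ∀ a, φ (lin ℂ a) = f a := by
  have : IsMulCommutative (Algebra.adjoin ℂ (Set.range f)) :=
    Algebra.isMulCommutative_adjoin ℂ (by
      rintro _ ⟨a, rfl⟩ _ ⟨b, rfl⟩
      exact h a b)
  let ψ : MvPolynomial (Fin n) ℂ →ₐ[ℂ] Algebra.adjoin ℂ (Set.range f) :=
    aeval fun i => ⟨f (Pi.single i 1), Algebra.subset_adjoin ⟨_, rfl⟩⟩
  refine ⟨(Algebra.adjoin ℂ (Set.range f)).val.comp ψ, fun a => ?_⟩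
  have e : a = ∑ i, a i • (Pi.single i 1 : Fin n → ℂ) := by
    ext j
    simp [Finset.sum_apply, Pi.single_apply]
  rw [lin_apply]
  conv_rhs => rw [e]
  rw [map_sum, map_sum]
  refine Finset.sum_congr rfl fun i _ => ?_
  rw [map_smul, map_smul]
  simp [ψ]

namespace CA

variable {X : Cox} {κ : Wt X} (A : CA X κ)

/-- polynomials in the `x a` -/
def ex : X.Sc →ₐ[ℂ] A.H := (exists_ext A.x A.rels.xx).choose

/-- polynomials in the `y a` -/
def ey : X.Sc →ₐ[ℂ] A.H := (exists_ext A.y A.rels.yy).choose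

theorem ex_lin (a : X.Vc) : A.ex (lin ℂ a) = A.x a := (exists_ext A.x A.rels.xx).choose_spec a

theorem ey_lin (a : X.Vc) : A.ey (lin ℂ a) = A.y a := (exists_ext A.y A.rels.yy).choose_spec a

theorem gl_of (w : X.W) : A.gl (MonoidAlgebra.of ℂ X.W w) = A.g w := by
  exact MonoidAlgebra.lift_of _ _

theorem c1_g (e : X.Sc →ₐ[ℂ] A.H) (f : X.Vc →ₗ[ℂ] A.H) (he : ∀ a, e (lin ℂ a) = f a)
    (hg : ∀ w a, A.g w * f a = f (X.σK ℂ w *ᵥ a) * A.g w) (w : X.W) (p : X.Sc) :
    A.g w * e p = e (X.act ℂ w p) * A.g w := by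
  induction p using MvPolynomial.induction_on with
  | C a => rw [algHom_C, algHom_C, AlgHom.commutes, Algebra.commutes]
  | add p q hp hq => rw [map_add, map_add, map_add, mul_add, add_mul, hp, hq]
  | mul_X p i hp =>
    rw [← lin_single ℂ i, map_mul, map_mul, map_mul, X.act_lin ℂ, he, he, ← mul_assoc, hp,
      mul_assoc, hg, mul_assoc]

theorem c1_y_g (a : X.Vc) (w : X.W) : A.y a * A.g w = A.g w * A.y (X.σK ℂ w⁻¹ *ᵥ a) := by
  rw [A.rels.gy, X.c1_inv]

theorem g_ex (w : X.W) (p : X.Sc) : A.g w * A.ex p = A.ex (X.act ℂ w p) * A.g w := by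
  exact A.c1_g A.ex A.x A.ex_lin A.rels.gx w p

theorem g_ey (w : X.W) (p : X.Sc) : A.g w * A.ey p = A.ey (X.act ℂ w p) * A.g w := by
  exact A.c1_g A.ey A.y A.ey_lin A.rels.gy w p

theorem y_ex (a : X.Vc) (p : X.Sc) : A.y a * A.ex p = A.ex p * A.y a +
    ∑ t ∈ X.refls, (κ t * X.BK ℂ (X.rc t) a) • (A.ex (X.dd ℂ t p) * A.g t) := by
  induction p using MvPolynomial.induction_on with
  | C c =>
    rw [algHom_C, Algebra.commutes, Finset.sum_eq_zero, add_zero]
    intro t ht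
    rw [Cox.dd_C ℂ (X.mem_refls.1 ht)]
    simp
  | add p q hp hq =>
    simp only [map_add, mul_add, add_mul, hp, hq, smul_add, Finset.sum_add_distrib]
    abel
  | mul_X p i hp =>
    have e := A.rels.yx a (Pi.single i 1)
    rw [sub_eq_iff_eq_add'] at e
    rw [← lin_single ℂ i, map_mul, ex_lin, ← mul_assoc, hp, add_mul, mul_assoc, e, mul_add,
      ← mul_assoc, add_assoc, Finset.mul_sum, Finset.sum_mul, ← Finset.sum_add_distrib]
    congr 1
    refine Finset.sum_congr rfl fun t ht => ?_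
    have h := X.mem_refls.1 ht
    rw [Cox.dd_mul' ℂ h, Cox.dd_lin ℂ h, X.act_lin ℂ, map_add, map_mul, map_mul, ex_lin, algHom_C,
      smul_mul_assoc, mul_assoc (A.ex _) (A.g t), A.rels.gx, add_mul, smul_add, add_comm,
      mul_assoc (A.ex _) (A.x _), mul_assoc (A.ex p), mul_smul_comm, ← Algebra.smul_def,
      mul_smul_comm, smul_smul]

theorem span_top (h : A.H) :
    h ∈ Submodule.span ℂ {h | ∃ p w p', h = A.ex p * A.g w * A.ey p'} := by
  let S := Submodule.span ℂ {h | ∃ p w p', h = A.ex p * A.g w * A.ey p'}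
  have hS : ∀ p w p', A.ex p * A.g w * A.ey p' ∈ S := fun p w p' =>
    Submodule.subset_span ⟨p, w, p', rfl⟩
  have key : ∀ h : A.H, (∀ p w p', h * (A.ex p * A.g w * A.ey p') ∈ S) → ∀ s ∈ S, h * s ∈ S := by
    intro h hh s hs
    induction hs using Submodule.span_induction with
    | mem s hs =>
      obtain ⟨p, w, p', rfl⟩ := hs
      exact hh p w p'
    | zero => simp
    | add s s' _ _ h1 h2 => rw [mul_add]; exact S.add_mem h1 h2
    | smul c s _ h1 => rw [mul_smul_comm]; exact S.smul_mem c h1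
  let T : Subalgebra ℂ A.H :=
    { carrier := {h | ∀ s ∈ S, h * s ∈ S}
      mul_mem' := fun {a b} ha hb s hs => by rw [mul_assoc]; exact ha _ (hb s hs)
      add_mem' := fun {a b} ha hb s hs => by rw [add_mul]; exact S.add_mem (ha s hs) (hb s hs)
      algebraMap_mem' := fun c s hs => by rw [← Algebra.smul_def]; exact S.smul_mem c hs }
  have h1 : (1 : A.H) ∈ S := by simpa using hS 1 1 1
  have := A.gen T ?_ ?_ ?_ h 1 h1
  · simpa using this
  · intro a
    refine key _ fun p w p' => ?_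
    rw [← mul_assoc, ← mul_assoc, ← ex_lin, ← map_mul]
    exact hS _ _ _
  · intro a
    refine key _ fun p w p' => ?_
    rw [← mul_assoc, ← mul_assoc, y_ex, add_mul, add_mul, Finset.sum_mul, Finset.sum_mul]
    refine S.add_mem ?_ (S.sum_mem fun t _ => ?_)
    · rw [mul_assoc (A.ex p), c1_y_g, ← mul_assoc, mul_assoc, ← ey_lin, ← map_mul]
      exact hS _ _ _
    · rw [smul_mul_assoc, smul_mul_assoc, mul_assoc (A.ex _), ← map_mul]
      exact S.smul_mem _ (hS _ _ _)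
  · intro u
    refine key _ fun p w p' => ?_
    rw [← mul_assoc, ← mul_assoc, g_ex, mul_assoc (A.ex _), ← map_mul]
    exact hS _ _ _

theorem span_top_hom (h : A.H) : h ∈ Submodule.span ℂ {h | ∃ p w p' k k',
    IsHomogeneous p k ∧ IsHomogeneous p' k' ∧ h = A.ex p * A.g w * A.ey p'} := by
  refine Submodule.span_le.2 ?_ (A.span_top h)
  rintro _ ⟨p, w, p', rfl⟩
  rw [← sum_homogeneousComponent p, ← sum_homogeneousComponent p', map_sum, map_sum,
    Finset.sum_mul, Finset.sum_mul]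
  refine Submodule.sum_mem _ fun k _ => ?_
  rw [Finset.mul_sum]
  refine Submodule.sum_mem _ fun k' _ => ?_
  exact Submodule.subset_span ⟨_, w, _, k, k', homogeneousComponent_isHomogeneous k p,
    homogeneousComponent_isHomogeneous k' p', rfl⟩

theorem mem_center_of {z : A.H} (hx : ∀ a, A.x a * z = z * A.x a) (hy : ∀ a, A.y a * z = z * A.y a)
    (hg : ∀ w, A.g w * z = z * A.g w) : z ∈ Subalgebra.center ℂ A.H := by
  rw [Subalgebra.mem_center_iff]
  intro b
  have := A.gen (Subalgebra.centralizer ℂ {z}) ?_ ?_ ?_ b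
  · exact ((Subalgebra.mem_centralizer_iff ℂ).1 this z rfl).symm
  · intro a
    rw [Subalgebra.mem_centralizer_iff]
    rintro _ rfl
    exact (hx a).symm
  · intro a
    rw [Subalgebra.mem_centralizer_iff]
    rintro _ rfl
    exact (hy a).symm
  · intro a
    rw [Subalgebra.mem_centralizer_iff]
    rintro _ rfl
    exact (hg a).symm

theorem map_center {φ : A.H →ₐ[ℂ] A.H} (hx : ∀ a, A.x a ∈ φ.range) (hy : ∀ a, A.y a ∈ φ.range)
    (hg : ∀ w, A.g w ∈ φ.range) {z : A.H} (hz : z ∈ Subalgebra.center ℂ A.H) :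
    φ z ∈ Subalgebra.center ℂ A.H := by
  rw [Subalgebra.mem_center_iff] at hz ⊢
  intro b
  obtain ⟨b', rfl⟩ := A.gen φ.range hx hy hg b
  have : φ.toRingHom b' = φ b' := rfl
  rw [this, ← map_mul, ← map_mul, hz]

theorem ex_center {r : X.Sc} (h : ∀ w, X.act ℂ w r = r) : A.ex r ∈ Subalgebra.center ℂ A.H := by
  refine A.mem_center_of (fun a => ?_) (fun a => ?_) fun w => ?_
  · rw [← ex_lin, ← map_mul, ← map_mul, mul_comm]
  · rw [y_ex, Finset.sum_eq_zero, add_zero]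
    intro t ht
    rw [(Cox.dd_eq_zero_iff ℂ (X.mem_refls.1 ht) r).2 (h t)]
    simp
  · rw [g_ex, h]

theorem ex_mem_adjoin {r : X.Sc} (h : constantCoeff r = 0) :
    A.ex r ∈ NonUnitalAlgebra.adjoin ℂ (Set.range A.x) := by
  have key : ∀ r : X.Sc, A.ex r - algebraMap ℂ A.H (constantCoeff r) ∈
      NonUnitalAlgebra.adjoin ℂ (Set.range A.x) := by
    intro r
    induction r using MvPolynomial.induction_on with
    | C c => simp
    | add p q hp hq =>
      rw [map_add, map_add, map_add, add_sub_add_comm]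
      exact add_mem hp hq
    | mul_X p i hp =>
      have hx : A.x (Pi.single i 1) ∈ NonUnitalAlgebra.adjoin ℂ (Set.range A.x) :=
        NonUnitalAlgebra.subset_adjoin ℂ ⟨_, rfl⟩
      have e : A.ex (p * MvPolynomial.X i) -
          algebraMap ℂ A.H (constantCoeff (p * MvPolynomial.X i)) =
          (A.ex p - algebraMap ℂ A.H (constantCoeff p)) * A.x (Pi.single i 1) +
            constantCoeff p • A.x (Pi.single i 1) := by
        rw [map_mul constantCoeff, constantCoeff_X, mul_zero, map_zero, sub_zero,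
          ← lin_single ℂ i, map_mul, ex_lin, sub_mul, ← Algebra.smul_def, sub_add_cancel]
      rw [e]
      exact add_mem (mul_mem hp hx) (SMulMemClass.smul_mem _ hx)
  simpa [h] using key r

theorem mul_y_mem (h : A.H) (a : X.Vc) : h * A.y a ∈ A.LY := by
  exact A.LY.smul_mem h (Submodule.subset_span ⟨a, rfl⟩)

theorem ey_mem {r : X.Sc} (h : constantCoeff r = 0) : A.ey r ∈ A.LY := by
  have key : ∀ r : X.Sc, A.ey r - algebraMap ℂ A.H (constantCoeff r) ∈ A.LY := by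
    intro r
    induction r using MvPolynomial.induction_on with
    | C c => simp
    | add p q hp hq =>
      rw [map_add, map_add, map_add, add_sub_add_comm]
      exact add_mem hp hq
    | mul_X p i hp =>
      rw [map_mul constantCoeff, constantCoeff_X, mul_zero, map_zero, sub_zero,
        ← lin_single ℂ i, map_mul, ey_lin]
      exact A.mul_y_mem _ _
  simpa [h] using key r

theorem LY_mul_g {h : A.H} (hh : h ∈ A.LY) (w : X.W) : h * A.g w ∈ A.LY := by
  induction hh using Submodule.span_induction with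
  | mem s hs =>
    obtain ⟨a, rfl⟩ := hs
    rw [c1_y_g]
    exact A.mul_y_mem _ _
  | zero => simp
  | add s s' _ _ h1 h2 => rw [add_mul]; exact A.LY.add_mem h1 h2
  | smul c s _ h1 =>
    rw [smul_eq_mul, mul_assoc]
    exact A.LY.smul_mem c h1

theorem mem_LY_iff {h : A.H} : h ∈ A.LY ↔ ∃ c : Fin X.n → A.H, h = ∑ i, c i * A.y (X.eb i) := by
  constructor
  · intro hh
    induction hh using Submodule.span_induction with
    | mem s hs =>
      obtain ⟨a, rfl⟩ := hs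
      refine ⟨fun i => algebraMap ℂ A.H (a i), ?_⟩
      conv_lhs => rw [← X.c1_sum_single a]
      simp only [map_sum, map_smul]
      simp only [Algebra.smul_def]
    | zero => exact ⟨0, by simp⟩
    | add s s' _ _ h1 h2 =>
      obtain ⟨c, rfl⟩ := h1
      obtain ⟨c', rfl⟩ := h2
      exact ⟨c + c', by simp [add_mul, Finset.sum_add_distrib]⟩
    | smul c s _ h1 =>
      obtain ⟨c', rfl⟩ := h1
      exact ⟨fun i => c * c' i, by simp [Finset.mul_sum, mul_assoc]⟩
  · rintro ⟨c, rfl⟩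
    exact A.LY.sum_mem fun i _ => A.mul_y_mem _ _

theorem eu_center : A.eu ∈ Subalgebra.center ℂ A.H := by
  refine A.mem_center_of (fun b => ?_) (fun b => ?_) fun w => ?_
  · have h1 : ∀ i, A.x (X.du i) * A.y (X.eb i) * A.x b = A.x b * (A.x (X.du i) * A.y (X.eb i)) +
        ∑ t ∈ X.refls, (κ t * X.BK ℂ (X.rc t) b) •
          (A.x (X.BK ℂ (X.rc t) (X.eb i) • X.du i) * A.g t) := by
      intro i
      have e := A.rels.yx (X.eb i) b
      rw [sub_eq_iff_eq_add'] at e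
      rw [mul_assoc, e, mul_add, ← mul_assoc, A.rels.xx, mul_assoc, Finset.mul_sum]
      congr 1
      refine Finset.sum_congr rfl fun t _ => ?_
      rw [map_smul, smul_mul_assoc, smul_smul, mul_smul_comm, mul_right_comm]
    have h2 : ∑ i, ∑ t ∈ X.refls, (κ t * X.BK ℂ (X.rc t) b) •
          (A.x (X.BK ℂ (X.rc t) (X.eb i) • X.du i) * A.g t) =
        ∑ t ∈ X.refls, (κ t * X.BK ℂ (X.rc t) b) • (A.x (X.rc t) * A.g t) := by
      rw [Finset.sum_comm]
      refine Finset.sum_congr rfl fun t _ => ?_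
      rw [← Finset.smul_sum, ← Finset.sum_mul, ← map_sum, X.sum_du]
    have h3 : ∑ t ∈ X.refls, κ t • (A.g t * A.x b) = ∑ t ∈ X.refls, κ t • (A.x b * A.g t) -
        ∑ t ∈ X.refls, (κ t * X.BK ℂ (X.rc t) b) • (A.x (X.rc t) * A.g t) := by
      rw [← Finset.sum_sub_distrib]
      refine Finset.sum_congr rfl fun t ht => ?_
      rw [A.rels.gx, X.σK_refl ℂ (X.mem_refls.1 ht), map_sub, map_smul, sub_mul, smul_sub,
        smul_mul_assoc, smul_smul]
    unfold eu
    rw [add_mul, mul_add, Finset.sum_mul, Finset.mul_sum, Finset.sum_mul, Finset.mul_sum]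
    simp only [smul_mul_assoc, mul_smul_comm]
    rw [h3]
    simp only [h1]
    rw [Finset.sum_add_distrib, h2]
    abel
  · have h1 : ∀ i, A.y b * (A.x (X.du i) * A.y (X.eb i)) = A.x (X.du i) * A.y (X.eb i) * A.y b +
        ∑ t ∈ X.refls, (κ t * X.BK ℂ (X.rc t) b) •
          (A.g t * A.y (X.BK ℂ (X.rc t) (X.du i) • X.eb i)) := by
      intro i
      have e := A.rels.yx b (X.du i)
      rw [sub_eq_iff_eq_add'] at e
      rw [← mul_assoc, e, add_mul, mul_assoc, A.rels.yy, ← mul_assoc, Finset.sum_mul]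
      congr 1
      refine Finset.sum_congr rfl fun t _ => ?_
      rw [map_smul, smul_mul_assoc, mul_smul_comm, smul_smul]
    have h2 : ∑ i, ∑ t ∈ X.refls, (κ t * X.BK ℂ (X.rc t) b) •
          (A.g t * A.y (X.BK ℂ (X.rc t) (X.du i) • X.eb i)) =
        ∑ t ∈ X.refls, (κ t * X.BK ℂ (X.rc t) b) • (A.g t * A.y (X.rc t)) := by
      rw [Finset.sum_comm]
      refine Finset.sum_congr rfl fun t _ => ?_
      rw [← Finset.smul_sum, ← Finset.mul_sum, ← map_sum, X.sum_eb]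
    have h3 : ∑ t ∈ X.refls, κ t • (A.g t * A.y b) = ∑ t ∈ X.refls, κ t • (A.y b * A.g t) +
        ∑ t ∈ X.refls, (κ t * X.BK ℂ (X.rc t) b) • (A.g t * A.y (X.rc t)) := by
      rw [← Finset.sum_add_distrib]
      refine Finset.sum_congr rfl fun t ht => ?_
      have h := X.mem_refls.1 ht
      rw [A.rels.gy, A.rels.gy, X.σK_rc h, X.σK_refl ℂ h, map_sub, map_smul, sub_mul, smul_sub,
        smul_mul_assoc, smul_smul, map_neg, neg_mul, smul_neg, sub_eq_add_neg]
    unfold eu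
    rw [add_mul, mul_add, Finset.sum_mul, Finset.mul_sum, Finset.sum_mul, Finset.mul_sum]
    simp only [smul_mul_assoc, mul_smul_comm]
    rw [h3]
    simp only [h1]
    rw [Finset.sum_add_distrib, h2]
    abel
  · have h1 := X.sum_eb_du_inv ((LinearMap.mul ℂ A.H).compl₁₂ A.x A.y).flip w
    simp only [LinearMap.flip_apply, LinearMap.compl₁₂_apply, LinearMap.mul_apply'] at h1
    unfold eu
    rw [add_mul, mul_add]
    congr 1
    · conv_rhs => rw [← h1]
      rw [Finset.sum_mul, Finset.mul_sum]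
      refine Finset.sum_congr rfl fun i _ => ?_
      rw [← mul_assoc, A.rels.gx, mul_assoc, A.rels.gy, mul_assoc]
    · conv_rhs => rw [← X.sum_refls_conj (fun t => κ t • A.g t) w]
      rw [Finset.sum_mul, Finset.mul_sum]
      refine Finset.sum_congr rfl fun t ht => ?_
      rw [κ.cl t w (X.mem_refls.1 ht), mul_smul_comm, smul_mul_assoc, ← map_mul, ← map_mul,
        inv_mul_cancel_right]

theorem eu_sub_mem : A.eu - A.gl (X.omA κ) ∈ A.LY := by
  have e : A.gl (X.omA κ) = ∑ t ∈ X.refls, κ t • A.g t := by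
    unfold Cox.omA
    simp only [map_smul, map_sum, gl_of]
  unfold eu
  rw [e, add_sub_cancel_right]
  exact A.LY.sum_mem fun i _ => A.mul_y_mem _ _

end CA

end

end Pool.Agent.P.MP_1a0ecf_al.F
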