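import Pool.Agent.P.MP_1a0ecf_al.F.C4a

/-! Package C4: Calogero-Moser families and central characters. -/

namespace Pool.Agent.P.MP_1a0ecf_al.F

open Matrix MvPolynomial
open scoped Classical TensorProduct

noncomputable section

namespace CA

variable {X : Cox} {κ : Wt X} (A : CA X κ)

theorem c4_P_one : A.P 1 = 1 := by
  have e := A.P_g 1
  rwa [map_one A.g, map_one (MonoidAlgebra.of ℂ X.W)] at e

theorem c4_chx_one (χ : X.W → ℂ) : chx χ (1 : X.GA) = χ 1 := by
  have e := chx_of χ 1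
  rwa [map_one] at e

/-- the central character of an irreducible character -/
def c4lam {χ : X.W → ℂ} (hχ : IsIrr χ) : Subalgebra.center ℂ A.H →ₐ[ℂ] ℂ where
  toFun z := chx χ (A.P z) / χ 1
  map_one' := by
    rw [OneMemClass.coe_one, c4_P_one, c4_chx_one, div_self hχ.one_ne]
  map_mul' z z' := by
    rw [MulMemClass.coe_mul, A.P_center_mul z.2, hχ.chx_mul (A.P_center z.2), mul_div_assoc]
  map_zero' := by simp
  map_add' z z' := by
    rw [AddMemClass.coe_add, map_add, map_add, add_div]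
  commutes' c := by
    rw [Subalgebra.coe_algebraMap, Algebra.algebraMap_eq_smul_one, map_smul, map_smul, c4_P_one,
      c4_chx_one, smul_eq_mul, mul_div_assoc, div_self hχ.one_ne, mul_one]
    rfl

theorem c4lam_apply {χ : X.W → ℂ} (hχ : IsIrr χ) (z : Subalgebra.center ℂ A.H) :
    A.c4lam hχ z = chx χ (A.P z) / χ 1 := rfl

/-- the kernel of the central character -/
def c4ker {χ : X.W → ℂ} (hχ : IsIrr χ) : Ideal (Subalgebra.center ℂ A.H) :=
  RingHom.ker (A.c4lam hχ)

theorem c4_mem_ker {χ : X.W → ℂ} (hχ : IsIrr χ) (z : Subalgebra.center ℂ A.H) :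
    z ∈ A.c4ker hχ ↔ chx χ (A.P z) = 0 := by
  rw [c4ker, RingHom.mem_ker, c4lam_apply, div_eq_zero_iff, or_iff_left hχ.one_ne]

theorem c4ker_max {χ : X.W → ℂ} (hχ : IsIrr χ) : (A.c4ker hχ).IsMaximal :=
  RingHom.ker_isMaximal_of_surjective _ fun c => ⟨algebraMap ℂ _ c, (A.c4lam hχ).commutes c⟩

theorem c4_over_x {χ : X.W → ℂ} (hχ : IsIrr χ) : Over (Set.range A.x) (A.c4ker hχ) := by
  intro z hz
  have key : ∀ a ∈ NonUnitalAlgebra.adjoin ℂ (Set.range A.x), ∀ h, A.P (a * h) = 0 := by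
    intro a ha
    induction ha using NonUnitalAlgebra.adjoin_induction with
    | mem a ha =>
      obtain ⟨b, rfl⟩ := ha
      exact A.P_x_mul b
    | add a b _ _ ha hb => intro h; rw [add_mul, map_add, ha, hb, add_zero]
    | zero => intro h; rw [zero_mul, map_zero]
    | mul a b _ _ ha _ => intro h; rw [mul_assoc, ha]
    | smul c a _ ha => intro h; rw [smul_mul_assoc, map_smul, ha, smul_zero]
  have e := key z hz 1
  rw [mul_one] at e
  rw [c4_mem_ker, e, map_zero]

theorem c4_over_y {χ : X.W → ℂ} (hχ : IsIrr χ) : Over (Set.range A.y) (A.c4ker hχ) := by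
  intro z hz
  have key : ∀ a ∈ NonUnitalAlgebra.adjoin ℂ (Set.range A.y), a ∈ A.LY := by
    intro a ha
    induction ha using NonUnitalAlgebra.adjoin_induction with
    | mem a ha => exact Submodule.subset_span ha
    | add a b _ _ ha hb => exact add_mem ha hb
    | zero => exact zero_mem _
    | mul a b _ _ _ hb => exact A.LY.smul_mem a hb
    | smul c a _ ha =>
      rw [Algebra.smul_def]
      exact A.LY.smul_mem _ ha
  rw [c4_mem_ker, A.P_LY (key z hz), map_zero]

theorem c4_supp_iff {E : Type} [AddCommGroup E] [Module ℂ E] (π : Representation ℂ X.W E)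
    (q : Ideal (Subalgebra.center ℂ A.H)) :
    Supp A.y A.g π q ↔ ¬ ∀ m ∈ Delta A.y A.g π, m ∈ q • Delta A.y A.g π := by
  rw [Supp, (TensorProduct.quotTensorEquivQuotSMul (Delta A.y A.g π) q).toEquiv.nontrivial_congr]
  refine Submodule.Quotient.nontrivial_iff.trans ?_
  rw [Ne, Submodule.eq_top_iff']
  refine not_congr ⟨fun h m hm => ?_, fun h m => ?_⟩
  · exact (Submodule.mem_smul_top_iff q _ ⟨m, hm⟩).1 (h _)
  · exact (Submodule.mem_smul_top_iff q _ m).2 (h _ m.2)

theorem c4_e_mul : ((Fintype.card X.W : ℂ)⁻¹ • ∑ w, A.g w) * ((Fintype.card X.W : ℂ)⁻¹ • ∑ w, A.g w)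
    = (Fintype.card X.W : ℂ)⁻¹ • ∑ w, A.g w := by
  have h0 : (Fintype.card X.W : ℂ) ≠ 0 := Nat.cast_ne_zero.2 Fintype.card_ne_zero
  have e : ∀ u, A.g u * ∑ w, A.g w = ∑ w, A.g w := by
    intro u
    rw [Finset.mul_sum]
    exact Fintype.sum_equiv (Equiv.mulLeft u) _ _ fun w => (map_mul A.g u w).symm
  rw [smul_mul_assoc, mul_smul_comm, Finset.sum_mul, Finset.sum_congr rfl fun u _ => e u,
    Finset.sum_const, Finset.card_univ, ← Nat.cast_smul_eq_nsmul ℂ, smul_smul, smul_smul,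
    mul_assoc, inv_mul_cancel₀ h0, mul_one]

theorem c4_center_smul {E : Type} [AddCommGroup E] [Module ℂ E] (π : Representation ℂ X.W E)
    (z : Subalgebra.center ℂ A.H) (m : (A.H ⊗[ℂ] E) ⧸ IndRel A.y A.g π) :
    z • m = (z : A.H) • m := by
  obtain ⟨m, rfl⟩ := Submodule.Quotient.mk_surjective _ m
  rfl

theorem c4_e_smul {E : Type} [AddCommGroup E] [Module ℂ E] (π : Representation ℂ X.W E)
    {m : (A.H ⊗[ℂ] E) ⧸ IndRel A.y A.g π} (hm : m ∈ Delta A.y A.g π) :
    ((Fintype.card X.W : ℂ)⁻¹ • ∑ w, A.g w) • m = m := by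
  induction hm using Submodule.span_induction with
  | mem r hr =>
    obtain ⟨a, rfl⟩ := hr
    rw [smul_smul, c4_e_mul]
  | zero => exact smul_zero _
  | add p q _ _ hp hq => rw [smul_add, hp, hq]
  | smul z p _ hp =>
    rw [c4_center_smul, smul_smul, Subalgebra.mem_center_iff.1 z.2, ← smul_smul, hp]

theorem c4_supp_ker {d : ℕ} {π : Representation ℂ X.W (Fin d → ℂ)} (hπ : π.IsIrreducible) :
    Supp A.y A.g π (A.c4ker (isIrr_rep π hπ)) := by
  rw [c4_supp_iff]
  intro h
  obtain ⟨Fl, h0, h1, h2, -, m, hm⟩ := A.exists_filt hπ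
  have key : ∀ k, ∀ m ∈ Delta A.y A.g π, m ∈ Fl k := by
    intro k
    induction k with
    | zero => exact fun m _ => h0 m
    | succ k ih =>
      intro m hm
      refine Submodule.smul_induction_on (p := fun m => m ∈ Fl (k + 1)) (h m hm)
        (fun z hz n hn => ?_) fun a b ha hb => add_mem ha hb
      rw [c4_center_smul]
      exact h2 z z.2 ((A.c4_mem_ker _ z).1 hz) k n (ih n hn)
  exact hm (h1 _ fun k => key k _ (Submodule.subset_span ⟨m, rfl⟩))

theorem c4_eq_of_supp {d : ℕ} {π : Representation ℂ X.W (Fin d → ℂ)} (hπ : π.IsIrreducible)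
    {q : Ideal (Subalgebra.center ℂ A.H)} (hq : q.IsMaximal) (hx : Over (Set.range A.x) q)
    (hs : Supp A.y A.g π q) : q = A.c4ker (isIrr_rep π hπ) := by
  by_contra hne
  rw [c4_supp_iff] at hs
  refine hs fun m hm => ?_
  obtain ⟨Fl, h0, -, h2, ⟨N, hN⟩, -⟩ := A.exists_filt hπ
  have hsup := hq.coprime_of_ne (A.c4ker_max (isIrr_rep π hπ)) hne
  have h1 : (1 : Subalgebra.center ℂ A.H) ∈ q ⊔ A.c4ker (isIrr_rep π hπ) := by
    rw [hsup]; trivial
  obtain ⟨a, ha, b, hb, hab⟩ := Submodule.mem_sup.1 h1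
  have hp : ∀ k, b ^ k • m ∈ Fl k := by
    intro k
    induction k with
    | zero => exact h0 _
    | succ k ih =>
      rw [pow_succ', mul_smul, c4_center_smul]
      exact h2 b b.2 ((A.c4_mem_ker _ b).1 hb) k _ ih
  have hc : ∀ n ∈ AddSubgroup.closure {m : (A.H ⊗[ℂ] (Fin d → ℂ)) ⧸ IndRel A.y A.g π |
      ∃ (r : X.Sc) (m' : _), constantCoeff r = 0 ∧ (∀ w, X.act ℂ w r = r) ∧ m = A.ex r • m'},
      ((Fintype.card X.W : ℂ)⁻¹ • ∑ w, A.g w) • n ∈ q • Delta A.y A.g π := by
    intro n hn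
    induction hn using AddSubgroup.closure_induction with
    | mem n hn =>
      obtain ⟨r, m', hr, hi, rfl⟩ := hn
      have hz := A.ex_center hi
      rw [smul_smul, Subalgebra.mem_center_iff.1 hz, ← smul_smul]
      have e := A.c4_center_smul π ⟨A.ex r, hz⟩ (((Fintype.card X.W : ℂ)⁻¹ • ∑ w, A.g w) • m')
      rw [← e]
      exact Submodule.smul_mem_smul (hx _ (A.ex_mem_adjoin hr)) (Submodule.subset_span ⟨m', rfl⟩)
    | zero => rw [smul_zero]; exact zero_mem _
    | add p q _ _ hp hq => rw [smul_add]; exact add_mem hp hq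
    | neg p _ hp => rw [smul_neg]; exact neg_mem hp
  have e1 := hc _ (hN _ (hp N))
  rw [A.c4_e_smul π (Submodule.smul_mem _ _ hm)] at e1
  have e2 : 1 - b ^ N ∈ q := by
    have e3 : (1 : Subalgebra.center ℂ A.H) - b = a := by rw [← hab, add_sub_cancel_right]
    obtain ⟨c, hc⟩ := one_sub_dvd_one_sub_pow b N
    rw [hc, e3]
    exact q.mul_mem_right _ ha
  have e4 := add_mem (Submodule.smul_mem_smul e2 hm) e1
  rwa [← add_smul, sub_add_cancel, one_smul] at e4

end CA

theorem CA.same_iff {X : Cox} {κ : Wt X} (A : CA X κ) {d d' : ℕ}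
    {π : Representation ℂ X.W (Fin d → ℂ)} {π' : Representation ℂ X.W (Fin d' → ℂ)}
    (hπ : π.IsIrreducible) (hπ' : π'.IsIrreducible) :
    A.Same π π' ↔ A.rel π.character π'.character := by
  have hχ := isIrr_rep π hπ
  have hχ' := isIrr_rep π' hπ'
  constructor
  · rintro ⟨q, hq, hx, -, hs, hs'⟩ z hz
    have e : A.c4ker hχ = A.c4ker hχ' :=
      (A.c4_eq_of_supp hπ hq hx hs).symm.trans (A.c4_eq_of_supp hπ' hq hx hs')
    have h1 : (⟨z, hz⟩ : Subalgebra.center ℂ A.H) - algebraMap ℂ _ (A.c4lam hχ ⟨z, hz⟩) ∈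
        A.c4ker hχ := by
      rw [CA.c4ker, RingHom.mem_ker, map_sub, AlgHom.commutes]
      exact sub_self _
    rw [e, CA.c4ker, RingHom.mem_ker, map_sub, AlgHom.commutes, sub_eq_zero] at h1
    have h2 : chx π'.character (A.P z) / π'.character 1 =
        chx π.character (A.P z) / π.character 1 := h1
    exact ((div_eq_div_iff hχ'.one_ne hχ.one_ne).1 h2).symm
  · intro h
    have e : A.c4ker hχ = A.c4ker hχ' := by
      ext z
      rw [A.c4_mem_ker, A.c4_mem_ker]
      have e1 := h z z.2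
      constructor
      · intro h0
        rw [h0, zero_mul] at e1
        exact (mul_eq_zero.1 e1.symm).resolve_right hχ.one_ne
      · intro h0
        rw [h0, zero_mul] at e1
        exact (mul_eq_zero.1 e1).resolve_right hχ'.one_ne
    refine ⟨A.c4ker hχ, A.c4ker_max hχ, A.c4_over_x hχ, A.c4_over_y hχ, A.c4_supp_ker hπ, ?_⟩
    rw [e]
    exact A.c4_supp_ker hπ'

end

end Pool.Agent.P.MP_1a0ecf_al.F
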