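import Pool.Agent.P.MP_1a0ecf_al.F.C5
import Pool.Agent.P.MP_1a0ecf_al.F.C1

/-! Package C6: the exterior algebra. -/

namespace Pool.Agent.P.MP_1a0ecf_al.F

open Matrix MvPolynomial
open scoped Classical TensorProduct

noncomputable section

section Ext

variable {n : ℕ}

private abbrev Lam (n : ℕ) : Type := ExteriorAlgebra ℂ (Fin n → ℂ)

private def lb (n : ℕ) : Module.Basis (Finset (Fin n)) ℂ (Lam n) :=
  (Pi.basisFun ℂ (Fin n)).ExteriorAlgebra

private theorem lb_apply (I : Finset (Fin n)) : lb n I = ExteriorAlgebra.ιMulti ℂ I.card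
    fun k => Pi.single (I.orderEmbOfFin rfl k) 1 := by
  rw [lb, ExteriorAlgebra.basis_apply, ExteriorAlgebra.ιMulti_family]
  congr 1
  funext k
  simp only [Function.comp_apply, Pi.basisFun_apply]
  rfl

private def crE (n : ℕ) : (Fin n → ℂ) →ₗ[ℂ] Module.End ℂ (Lam n) :=
  LinearMap.mul ℂ (Lam n) ∘ₗ ExteriorAlgebra.ι ℂ

private theorem crE_apply (a : Fin n → ℂ) (x : Lam n) :
    crE n a x = ExteriorAlgebra.ι ℂ a * x := rfl

private def anE (d : Module.Dual ℂ (Fin n → ℂ)) : Module.End ℂ (Lam n) :=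
  CliffordAlgebra.contractLeft (Q := 0) d

private theorem anE_mul (d : Module.Dual ℂ (Fin n → ℂ)) (a : Fin n → ℂ) (x : Lam n) :
    anE d (ExteriorAlgebra.ι ℂ a * x) = d a • x - ExteriorAlgebra.ι ℂ a * anE d x :=
  CliffordAlgebra.contractLeft_ι_mul d a x

private theorem anE_one (d : Module.Dual ℂ (Fin n → ℂ)) : anE d 1 = 0 :=
  CliffordAlgebra.contractLeft_one _ d

private def laE (n : ℕ) : Matrix (Fin n) (Fin n) ℂ →* Module.End ℂ (Lam n) where
  toFun A := (ExteriorAlgebra.map (Matrix.toLin' A)).toLinearMap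
  map_one' := by
    rw [Matrix.toLin'_one, ExteriorAlgebra.map_id]
    rfl
  map_mul' A A' := by
    rw [Matrix.toLin'_mul, ← ExteriorAlgebra.map_comp_map]
    rfl

private theorem laE_mul (A : Matrix (Fin n) (Fin n) ℂ) (a : Fin n → ℂ) (x : Lam n) :
    laE n A (ExteriorAlgebra.ι ℂ a * x) = ExteriorAlgebra.ι ℂ (A *ᵥ a) * laE n A x := by
  change ExteriorAlgebra.map _ _ = _ * ExteriorAlgebra.map _ _
  rw [map_mul, ExteriorAlgebra.map_apply_ι, Matrix.toLin'_apply]

private theorem laE_one (A : Matrix (Fin n) (Fin n) ℂ) : laE n A 1 = 1 :=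
  map_one (ExteriorAlgebra.map (Matrix.toLin' A))

private theorem end_ext {f g : Module.End ℂ (Lam n)} (h1 : f 1 = g 1)
    (h : ∀ a x, f x = g x → f (ExteriorAlgebra.ι ℂ a * x) = g (ExteriorAlgebra.ι ℂ a * x)) :
    f = g := by
  refine LinearMap.ext fun x => ?_
  induction x using CliffordAlgebra.left_induction with
  | algebraMap r => rw [Algebra.algebraMap_eq_smul_one, map_smul, map_smul, h1]
  | add x y hx hy => rw [map_add, map_add, hx, hy]
  | ι_mul x m hx => exact h m x hx

private theorem cr_cr (a b : Fin n → ℂ) : crE n a * crE n b + crE n b * crE n a = 0 := by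
  refine LinearMap.ext fun x => ?_
  simp only [LinearMap.add_apply, Module.End.mul_apply, crE_apply, LinearMap.zero_apply]
  rw [← mul_assoc, ← mul_assoc, ← add_mul, ExteriorAlgebra.ι_add_mul_swap, zero_mul]

private theorem an_an (d d' : Module.Dual ℂ (Fin n → ℂ)) : anE d * anE d' + anE d' * anE d = 0 := by
  refine LinearMap.ext fun x => ?_
  have := CliffordAlgebra.contractLeft_comm (Q := 0) d d' x
  exact add_eq_zero_iff_eq_neg.2 this

private theorem an_cr (d : Module.Dual ℂ (Fin n → ℂ)) (a : Fin n → ℂ) :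
    anE d * crE n a + crE n a * anE d = d a • (1 : Module.End ℂ (Lam n)) := by
  refine LinearMap.ext fun x => ?_
  simp only [LinearMap.add_apply, Module.End.mul_apply, crE_apply, anE_mul, LinearMap.smul_apply,
    Module.End.one_apply, sub_add_cancel]

private theorem la_cr (A : Matrix (Fin n) (Fin n) ℂ) (a : Fin n → ℂ) :
    laE n A * crE n a = crE n (A *ᵥ a) * laE n A :=
  LinearMap.ext fun x => laE_mul A a x

private theorem la_an (A : Matrix (Fin n) (Fin n) ℂ) (d d' : Module.Dual ℂ (Fin n → ℂ))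
    (h : ∀ a, d' (A *ᵥ a) = d a) : laE n A * anE d = anE d' * laE n A := by
  refine end_ext ?_ fun a x hx => ?_
  · simp only [Module.End.mul_apply, anE_one, laE_one, map_zero]
  · simp only [Module.End.mul_apply] at hx ⊢
    rw [anE_mul, laE_mul, anE_mul, map_sub, map_smul, laE_mul, hx, h]

private theorem num_multi {N : Module.End ℂ (Lam n)} (h1 : N 1 = 0)
    (h : ∀ a, N * crE n a = crE n a * N + crE n a) (k : ℕ) (v : Fin k → Fin n → ℂ) :
    N (ExteriorAlgebra.ιMulti ℂ k v) = (k : ℂ) • ExteriorAlgebra.ιMulti ℂ k v := by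
  induction k with
  | zero => simp [h1]
  | succ k ih =>
    have := LinearMap.congr_fun (h (v 0)) (ExteriorAlgebra.ιMulti ℂ k (Matrix.vecTail v))
    simp only [LinearMap.add_apply, Module.End.mul_apply, crE_apply, ih] at this
    rw [ExteriorAlgebra.ιMulti_succ_apply, this, mul_smul_comm, Nat.cast_succ, add_smul, one_smul]

private def toM (n : ℕ) : Module.End ℂ (Lam n) ≃ₐ[ℂ] Matrix (Finset (Fin n)) (Finset (Fin n)) ℂ :=
  LinearMap.toMatrixAlgEquiv (lb n)

private theorem toM_diag {f : Module.End ℂ (Lam n)} {c : Finset (Fin n) → ℂ}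
    (h : ∀ I, f (lb n I) = c I • lb n I) : toM n f = diagonal c := by
  ext I J
  rw [toM, LinearMap.toMatrixAlgEquiv_apply, h, map_smul, Module.Basis.repr_self, diagonal_apply]
  by_cases e : I = J
  · subst e
    simp
  · simp [e, Finsupp.single_eq_of_ne e]

private theorem la_diag (a : Fin n → ℂ) :
    toM n (laE n (diagonal a)) = diagonal fun I => ∏ i ∈ I, a i := by
  refine toM_diag fun I => ?_
  rw [lb_apply]
  change ExteriorAlgebra.map _ _ = _
  rw [ExteriorAlgebra.map_apply_ιMulti]
  have e : (Matrix.toLin' (diagonal a)) ∘ (fun k => (Pi.single (I.orderEmbOfFin rfl k) 1 :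
      Fin n → ℂ)) = fun k => a (I.orderEmbOfFin rfl k) • (Pi.single (I.orderEmbOfFin rfl k) 1 :
      Fin n → ℂ) := by
    funext k
    simp only [Function.comp_apply, Matrix.toLin'_apply, diagonal_mulVec_single, mul_one]
    rw [← Pi.single_smul, smul_eq_mul, mul_one]
  rw [e, AlternatingMap.map_smul_univ]
  congr 1
  rw [← Finset.prod_coe_sort I]
  exact Fintype.prod_equiv (I.orderIsoOfFin rfl).toEquiv _ _ fun k => rfl

private theorem la_tr {A Q : Matrix (Fin n) (Fin n) ℂ} {a : Fin n → ℂ} (hQ : IsUnit Q)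
    (h : A * Q = Q * diagonal a) : (toM n (laE n A)).trace = (1 + A).det := by
  obtain ⟨u, rfl⟩ := hQ
  have e : A = u * diagonal a * (u⁻¹ : _ˣ) := by
    rw [← h, mul_assoc, Units.mul_inv, mul_one]
  have e1 : (1 + A).det = (1 + diagonal a).det := by
    rw [← det_units_conj u (1 + diagonal a), mul_add, add_mul, mul_one, Units.mul_inv, ← e]
  rw [e1, e, map_mul, map_mul, map_mul, map_mul, trace_mul_cycle, ← map_mul (toM n) (laE n _),
    ← map_mul (laE n), Units.inv_mul, map_one, map_one, one_mul, la_diag, trace_diagonal, ← diagonal_one,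
    diagonal_add, det_diagonal, Finset.prod_one_add, Finset.powerset_univ]

private theorem deg_of {m : Type} [Fintype m] [DecidableEq m] {c : m → ℂ} {f : Matrix m m ℂ}
    {e : ℂ} (h : diagonal c * f = f * diagonal c + e • f) {I J : m} (hf : f I J ≠ 0) :
    c I = c J + e := by
  have := congrFun (congrFun h I) J
  rw [diagonal_mul, Matrix.add_apply, mul_diagonal, Matrix.smul_apply, smul_eq_mul] at this
  apply mul_right_cancel₀ hf
  rw [this]
  ring

private theorem ring1 {R : Type} [Ring R] [Algebra ℂ R] {c c' d : R} {b : ℂ}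
    (h : c * c' + c' * c = 0) (h' : d * c' = b • 1 - c' * d) :
    c * d * c' = b • c + c' * (c * d) := by
  rw [mul_assoc, h', mul_sub, mul_smul_comm, mul_one, ← mul_assoc, ← mul_assoc,
    eq_neg_of_add_eq_zero_left h, neg_mul, sub_neg_eq_add]

private theorem ring2 {R : Type} [Ring R] [Algebra ℂ R] {c d d' : R} {b : ℂ}
    (h : d * d' + d' * d = 0) (h' : d' * c = b • 1 - c * d') :
    c * d * d' = (-1 : ℂ) • b • d + d' * (c * d) := by
  rw [mul_assoc, eq_neg_of_add_eq_zero_left h, ← mul_assoc d', h', sub_mul, smul_mul_assoc,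
    one_mul, neg_smul, one_smul, mul_neg, mul_assoc]
  abel

end Ext

namespace Cox

variable (X : Cox)

private def Bl : X.Vc →ₗ[ℂ] Module.Dual ℂ X.Vc := Matrix.toBilin' (X.K.map (algebraMap ℝ ℂ))

private theorem Bl_apply (a b : X.Vc) : X.Bl a b = X.BK ℂ a b := Matrix.toBilin'_apply' _ _ _

private def anX : X.Vc →ₗ[ℂ] Module.End ℂ (Lam X.n) :=
  CliffordAlgebra.contractLeft (Q := 0) ∘ₗ X.Bl

private theorem anX_apply (a : X.Vc) : X.anX a = anE (X.Bl a) := rfl

private theorem anX_cr (a b : X.Vc) :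
    X.anX a * crE X.n b = X.BK ℂ a b • 1 - crE X.n b * X.anX a := by
  rw [← Bl_apply, ← an_cr, anX_apply, add_sub_cancel_right]

private theorem la_anX (w : X.W) (a : X.Vc) :
    laE X.n (X.σK ℂ w) * X.anX a = X.anX (X.σK ℂ w *ᵥ a) * laE X.n (X.σK ℂ w) :=
  la_an _ _ _ fun b => by rw [Bl_apply, Bl_apply, BK_inv]

private def numX : Module.End ℂ (Lam X.n) := ∑ i, crE X.n (X.eb i) * X.anX (X.du i)

private theorem num_cr (a : X.Vc) : X.numX * crE X.n a = crE X.n a * X.numX + crE X.n a := by
  have e : crE X.n a = ∑ i, X.BK ℂ (X.du i) a • crE X.n (X.eb i) := by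
    conv_lhs => rw [← X.sum_eb a]
    simp only [map_sum, map_smul, X.BK_symm ℂ a]
  rw [numX, Finset.sum_mul, Finset.mul_sum]
  conv_rhs => rw [add_comm]; lhs; rw [e]
  rw [← Finset.sum_add_distrib]
  exact Finset.sum_congr rfl fun i _ => ring1 (cr_cr _ _) (X.anX_cr _ _)

private theorem num_an (a : X.Vc) :
    X.numX * X.anX a = X.anX a * X.numX + (-1 : ℂ) • X.anX a := by
  have e : X.anX a = ∑ i, X.BK ℂ a (X.eb i) • X.anX (X.du i) := by
    conv_lhs => rw [← X.sum_du a]
    simp only [map_sum, map_smul]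
  rw [numX, Finset.sum_mul, Finset.mul_sum]
  conv_rhs => rw [add_comm]; lhs; rw [e, Finset.smul_sum]
  rw [← Finset.sum_add_distrib]
  exact Finset.sum_congr rfl fun i _ => ring2 (an_an _ _) (X.anX_cr _ _)

private theorem num_la (w : X.W) :
    X.numX * laE X.n (X.σK ℂ w) = laE X.n (X.σK ℂ w) * X.numX := by
  have e := X.sum_eb_du_inv
    ((LinearMap.mul ℂ (Module.End ℂ (Lam X.n))).compl₁₂ (crE X.n) X.anX) w
  simp only [LinearMap.compl₁₂_apply, LinearMap.mul_apply'] at e
  rw [numX, Finset.mul_sum, ← e, Finset.sum_mul]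
  refine Finset.sum_congr rfl fun i _ => ?_
  rw [← mul_assoc, la_cr, mul_assoc, mul_assoc, la_anX]

private theorem num_eq : toM X.n X.numX = diagonal fun I => (I.card : ℂ) := by
  refine toM_diag fun I => ?_
  rw [lb_apply]
  refine num_multi ?_ X.num_cr _ _
  simp [numX, anX_apply, anE_one]

private theorem la_refl {t : X.W} (h : X.cs.IsReflection t) :
    laE X.n (X.σK ℂ t) = 1 - crE X.n (X.rc t) * X.anX (X.rc t) := by
  refine end_ext ?_ fun a x hx => ?_
  · simp [laE_one, anX_apply, anE_one]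
  · rw [laE_mul, hx, X.σK_refl ℂ h]
    simp only [LinearMap.sub_apply, Module.End.one_apply, Module.End.mul_apply, anX_apply,
      crE_apply, anE_mul, Bl_apply, map_sub, map_smul, mul_sub, sub_mul, smul_mul_assoc,
      ← mul_assoc, ExteriorAlgebra.ι_sq_zero, zero_mul, smul_zero]
    rw [eq_neg_of_add_eq_zero_left (ExteriorAlgebra.ι_add_mul_swap (X.rc t) a), neg_mul]
    abel

end Cox

theorem exists_fock (X : Cox) : Nonempty (Fock X) := by
  let M := toM X.n
  refine ⟨{ ι := Finset (Fin X.n)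
            deg := Finset.card
            vac := ∅
            cr := M.toLinearMap ∘ₗ crE X.n
            an := M.toLinearMap ∘ₗ X.anX
            lam := (M : Module.End ℂ (Lam X.n) →* _).comp ((laE X.n).comp (X.σK ℂ))
            cr_cr := fun a b => ?_, an_an := fun a b => ?_, an_cr := fun a b => ?_
            lam_cr := fun w a => ?_, lam_an := fun w a => ?_, cr_deg := fun a I J h => ?_
            an_deg := fun a I J h => ?_, lam_deg := fun w I J h => ?_
            deg_zero := fun I => Finset.card_eq_zero, lam_vac := fun w => ?_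
            num := ?_, num' := ?_, lam_refl := fun t h => ?_, tr := fun w T => ?_ }⟩
  · simpa using congrArg M (cr_cr a b)
  · simpa [Cox.anX_apply] using congrArg M (an_an (X.Bl a) (X.Bl b))
  · simpa using congrArg M (eq_sub_iff_add_eq.1 (X.anX_cr a b))
  · simpa using congrArg M (la_cr (X.σK ℂ w) a)
  · simpa using congrArg M (X.la_anX w a)
  · have e := congrArg M (X.num_cr a)
    rw [map_add, map_mul, map_mul, X.num_eq] at e
    have e1 := deg_of (e := 1) (e.trans (by rw [one_smul])) h
    exact_mod_cast e1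
  · have e := congrArg M (X.num_an a)
    rw [map_add, map_mul, map_mul, map_smul, X.num_eq] at e
    have e1 := deg_of e h
    have e2 : (I.card : ℂ) + 1 = J.card := by rw [e1, neg_add_cancel_right]
    exact_mod_cast e2
  · have e := congrArg M (X.num_la w)
    rw [map_mul, map_mul, X.num_eq] at e
    have e1 := deg_of (e := 0) (e.trans (by rw [zero_smul, add_zero])) h
    rw [add_zero] at e1
    exact_mod_cast e1
  · have e : lb X.n ∅ = 1 := by
      rw [lb_apply]
      exact ExteriorAlgebra.ιMulti_zero_apply _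
    change LinearMap.toMatrixAlgEquiv (lb X.n) (laE X.n (X.σK ℂ w)) ∅ ∅ = 1
    rw [LinearMap.toMatrixAlgEquiv_apply, e, laE_one, ← e, Module.Basis.repr_self,
      Finsupp.single_eq_same]
  · rw [← X.num_eq, Cox.numX, map_sum]
    simp [M]
  · have e := X.sum_du_eb ((LinearMap.mul ℂ (Module.End ℂ (Lam X.n))).compl₁₂ (crE X.n) X.anX)
    simp only [LinearMap.compl₁₂_apply, LinearMap.mul_apply'] at e
    rw [← X.num_eq, Cox.numX, ← e, map_sum]
    simp [M]
  · simpa using congrArg M (X.la_refl h)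
  · obtain ⟨Q, a, hQ, h⟩ := X.exists_diag w
    have e : T • X.σK ℂ w = X.σK ℂ w * diagonal fun _ => T := by
      rw [← smul_one_eq_diagonal, mul_smul_comm, mul_one]
    rw [← la_tr (a := T • a) hQ (by rw [smul_mul_assoc, h, diagonal_smul, mul_smul_comm]), e,
      map_mul, map_mul, la_diag, trace]
    refine Finset.sum_congr rfl fun I _ => ?_
    rw [diag_apply, mul_diagonal, Finset.prod_const]
    rfl

end

end Pool.Agent.P.MP_1a0ecf_al.F
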