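import Pool.Agent.P.MP_1a0ecf_al.F.C3

/-! Package C8: standard modules. -/

namespace Pool.Agent.P.MP_1a0ecf_al.F

open Matrix MvPolynomial
open scoped Classical TensorProduct

noncomputable section

namespace C8

variable {n : ℕ} {E : Type} [AddCommGroup E] [Module ℂ E]

/-- the homogeneous part of the induced module -/
def Mp (n : ℕ) (E : Type) [AddCommGroup E] [Module ℂ E] (p : ℕ) :
    Submodule ℂ (MvPolynomial (Fin n) ℂ ⊗[ℂ] E) :=
  LinearMap.range ((homogeneousSubmodule (Fin n) ℂ p).subtype.rTensor E)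

theorem tmul_mem {p : ℕ} {q : MvPolynomial (Fin n) ℂ} (h : q.IsHomogeneous p) (v : E) :
    q ⊗ₜ[ℂ] v ∈ Mp n E p :=
  ⟨(⟨q, h⟩ : homogeneousSubmodule (Fin n) ℂ p) ⊗ₜ[ℂ] v, rfl⟩

theorem ind_mem {N : Type} [AddCommGroup N] [Module ℂ N] {p : ℕ} (S : Submodule ℂ N)
    (f : MvPolynomial (Fin n) ℂ ⊗[ℂ] E →ₗ[ℂ] N)
    (h : ∀ q v, q.IsHomogeneous p → f (q ⊗ₜ[ℂ] v) ∈ S) : ∀ m ∈ Mp n E p, f m ∈ S := by
  rintro _ ⟨t, rfl⟩
  induction t using TensorProduct.induction_on with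
  | zero => rw [map_zero, map_zero]; exact S.zero_mem
  | tmul q v => exact h q.1 v q.2
  | add a b ha hb => rw [map_add, map_add]; exact S.add_mem ha hb

theorem ind_eq {N : Type} [AddCommGroup N] [Module ℂ N] {p : ℕ}
    (f g : MvPolynomial (Fin n) ℂ ⊗[ℂ] E →ₗ[ℂ] N)
    (h : ∀ q v, q.IsHomogeneous p → f (q ⊗ₜ[ℂ] v) = g (q ⊗ₜ[ℂ] v)) :
    ∀ m ∈ Mp n E p, f m = g m := fun m hm =>
  sub_eq_zero.1 ((Submodule.mem_bot ℂ).1 (ind_mem ⊥ (f - g)
    (fun q v hq => (Submodule.mem_bot ℂ).2 (sub_eq_zero.2 (h q v hq))) m hm))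

theorem all_eq {N : Type} [AddCommGroup N] [Module ℂ N]
    (f g : MvPolynomial (Fin n) ℂ ⊗[ℂ] E →ₗ[ℂ] N)
    (h : ∀ q v, f (q ⊗ₜ[ℂ] v) = g (q ⊗ₜ[ℂ] v)) (m : MvPolynomial (Fin n) ℂ ⊗[ℂ] E) :
    f m = g m := LinearMap.congr_fun (TensorProduct.ext' h) m

theorem eq_C {q : MvPolynomial (Fin n) ℂ} (h : q.IsHomogeneous 0) : q = C (coeff 0 q) := by
  rwa [← totalDegree_zero_iff_isHomogeneous, totalDegree_eq_zero_iff_eq_C] at h

theorem fin_hom (p : ℕ) : Module.Finite ℂ (homogeneousSubmodule (Fin n) ℂ p) :=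
  Module.Finite.iff_fg.2 (homogeneousSubmodule_fg _ _ p)

theorem fin_Mp [FiniteDimensional ℂ E] (p : ℕ) : FiniteDimensional ℂ (Mp n E p) := by
  have := fin_hom (n := n) p
  exact Module.Finite.range _

theorem trace_aux {H S : Type} [AddCommGroup H] [Module ℂ H] [AddCommGroup S] [Module ℂ S]
    [FiniteDimensional ℂ H] [FiniteDimensional ℂ E] (j : H →ₗ[ℂ] S) (hj : Function.Injective j)
    (f : H →ₗ[ℂ] H) (g : E →ₗ[ℂ] E) (F : Module.End ℂ (S ⊗[ℂ] E))
    (hF : ∀ q v, F (j q ⊗ₜ[ℂ] v) = j (f q) ⊗ₜ[ℂ] g v)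
    (hm : ∀ m ∈ LinearMap.range (j.rTensor E), F m ∈ LinearMap.range (j.rTensor E)) :
    LinearMap.trace ℂ (LinearMap.range (j.rTensor E)) (F.restrict hm) =
      LinearMap.trace ℂ H f * LinearMap.trace ℂ E g := by
  let e : (H ⊗[ℂ] E) ≃ₗ[ℂ] LinearMap.range (j.rTensor E) :=
    LinearEquiv.ofInjective _ (Module.Flat.rTensor_preserves_injective_linearMap _ hj)
  have he : ∀ t, (e t : S ⊗[ℂ] E) = j.rTensor E t := fun _ => rfl
  rw [← LinearMap.trace_tensorProduct']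
  refine Eq.trans ?_ (LinearMap.trace_conj' (TensorProduct.map f g) e)
  congr 1
  refine LinearMap.ext fun m => ?_
  obtain ⟨t, rfl⟩ := e.surjective m
  rw [LinearEquiv.conj_apply_apply, e.symm_apply_apply]
  refine Subtype.ext ?_
  rw [LinearMap.coe_restrict_apply, he, he]
  induction t using TensorProduct.induction_on with
  | zero => simp
  | tmul q v => exact hF q v
  | add a b ha hb => simp only [map_add, ha, hb]

theorem trace_Mp [FiniteDimensional ℂ E] (p : ℕ)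
    (f : MvPolynomial (Fin n) ℂ →ₗ[ℂ] MvPolynomial (Fin n) ℂ)
    (hf : ∀ q ∈ homogeneousSubmodule (Fin n) ℂ p, f q ∈ homogeneousSubmodule (Fin n) ℂ p)
    (g : E →ₗ[ℂ] E) (F : Module.End ℂ (MvPolynomial (Fin n) ℂ ⊗[ℂ] E))
    (hF : ∀ q v, F (q ⊗ₜ[ℂ] v) = f q ⊗ₜ[ℂ] g v) (hm : ∀ m ∈ Mp n E p, F m ∈ Mp n E p) :
    LinearMap.trace ℂ (Mp n E p) (F.restrict hm) =
      LinearMap.trace ℂ _ (f.restrict hf) * LinearMap.trace ℂ E g := by
  have := fin_hom (n := n) p
  exact trace_aux (homogeneousSubmodule (Fin n) ℂ p).subtype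
    (homogeneousSubmodule (Fin n) ℂ p).injective_subtype (f.restrict hf) g F
    (fun q v => hF q.1 v) hm

theorem hc_dd {X : Cox} {t : X.W} (ht : X.cs.IsReflection t) (p : ℕ) (q : X.Sc) :
    homogeneousComponent p (X.dd ℂ t q) = X.dd ℂ t (homogeneousComponent (p + 1) q) := by
  have key : ∀ (k : ℕ) (r : X.Sc), r.IsHomogeneous k →
      homogeneousComponent p (X.dd ℂ t r) = X.dd ℂ t (homogeneousComponent (p + 1) r) := by
    intro k r hr
    rw [homogeneousComponent_of_mem (p := r) hr]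
    cases k with
    | zero => rw [if_neg (Nat.succ_ne_zero p), eq_C hr, Cox.dd_C ℂ ht, map_zero, map_zero]
    | succ j =>
      rw [homogeneousComponent_of_mem (Cox.dd_hom ℂ ht hr)]
      by_cases e : p = j
      · rw [if_pos e, if_pos (congrArg (· + 1) e)]
      · rw [if_neg e, if_neg fun e' => e (Nat.succ_injective e'), map_zero]
  conv_lhs => rw [← sum_homogeneousComponent q]
  conv_rhs => rw [← sum_homogeneousComponent q]
  simp only [map_sum]
  exact Finset.sum_congr rfl fun k _ => key k _ (homogeneousComponent_isHomogeneous k q)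

end C8

open C8 in
theorem CA.exists_std {X : Cox} {κ : Wt X} (A : CA X κ) {χ : X.W → ℂ} (h : IsIrr χ) :
    Nonempty (Std A χ) := by
  obtain ⟨d, π, hπ, rfl⟩ := h
  obtain ⟨ρ, hρ⟩ := A.exists_act π 0 (fun w a => by simp) (fun a b => rfl)
  have hx : ∀ a q v, ρ (A.x a) (q ⊗ₜ[ℂ] v) = (lin ℂ a * q) ⊗ₜ[ℂ] v := fun a q v => by
    rw [← A.ex_lin, hρ.ex]
  have hy : ∀ a q v, ρ (A.y a) (q ⊗ₜ[ℂ] v) =
      ∑ t ∈ X.refls, (κ t * X.BK ℂ (X.rc t) a) • (X.dd ℂ t q ⊗ₜ[ℂ] π t v) := fun a q v => by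
    rw [hρ.y, LinearMap.zero_apply, LinearMap.zero_apply, TensorProduct.tmul_zero, zero_add]
  have hy0 : ∀ a (c : ℂ) v, ρ (A.y a) ((C c : X.Sc) ⊗ₜ[ℂ] v) = 0 := fun a c v => by
    rw [hy]
    refine Finset.sum_eq_zero fun t ht => ?_
    rw [Cox.dd_C ℂ (X.mem_refls.1 ht), TensorProduct.zero_tmul, smul_zero]
  have hg : ∀ p w, ∀ m ∈ Mp X.n (Fin d → ℂ) p, ρ (A.g w) m ∈ Mp X.n (Fin d → ℂ) p :=
    fun p w => ind_mem _ _ fun q v hq => by
      rw [hρ.g]
      exact tmul_mem (X.act_hom ℂ w hq) _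
  refine ⟨{
    M := X.Sc ⊗[ℂ] (Fin d → ℂ)
    ρ := ρ
    Mp := Mp X.n (Fin d → ℂ)
    fin := fin_Mp
    pj := fun p => (homogeneousComponent p).rTensor _
    pj_mem := fun p m => ?_
    pj_self := fun p => ind_eq _ LinearMap.id fun q v hq => ?_
    pj_y := fun p a => all_eq ((homogeneousComponent p).rTensor _ ∘ₗ ρ (A.y a))
      (ρ (A.y a) ∘ₗ (homogeneousComponent (p + 1)).rTensor _) fun q v => ?_
    x_mem := fun p a => ind_mem _ _ fun q v hq => ?_
    y_mem := fun p a => ind_mem _ _ fun q v hq => ?_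
    y_zero := fun a => ind_eq _ 0 fun q v hq => ?_
    g_mem := hg
    dl := fun i => (pderiv i : Derivation ℂ X.Sc X.Sc).toLinearMap.rTensor _
    dl_x := fun i j m => ?_
    dl_mem := fun p i => ind_mem _ _ fun q v hq => ?_
    dl_zero := fun i => ind_eq _ 0 fun q v hq => ?_
    euler := fun p m hm => ?_
    tr := fun p w => trace_Mp p _ _ (π w) _ (hρ.g w) _
    cent := fun z hz ζ hζ hL m => ?_ }⟩
  · induction m using TensorProduct.induction_on with
    | zero => rw [map_zero]; exact Submodule.zero_mem _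
    | tmul q v => exact tmul_mem (homogeneousComponent_isHomogeneous p q) v
    | add a b ha hb => rw [map_add]; exact Submodule.add_mem _ ha hb
  · rw [LinearMap.rTensor_tmul, homogeneousComponent_eq_self hq, LinearMap.id_apply]
  · rw [LinearMap.comp_apply, LinearMap.comp_apply, LinearMap.rTensor_tmul, hy, hy, map_sum]
    refine Finset.sum_congr rfl fun t ht => ?_
    rw [map_smul, LinearMap.rTensor_tmul, hc_dd (X.mem_refls.1 ht)]
  · rw [hx, add_comm]
    exact tmul_mem ((lin_hom ℂ a).mul hq) v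
  · rw [hy]
    exact Submodule.sum_mem _ fun t ht => Submodule.smul_mem _ _
      (tmul_mem (Cox.dd_hom ℂ (X.mem_refls.1 ht) hq) _)
  · rw [eq_C hq, hy0, LinearMap.zero_apply]
  · have e := all_eq ((pderiv i : Derivation ℂ X.Sc X.Sc).toLinearMap.rTensor _ ∘ₗ
        ρ (A.x (X.eb j))) (ρ (A.x (X.eb j)) ∘ₗ
        (pderiv i : Derivation ℂ X.Sc X.Sc).toLinearMap.rTensor _ +
        if i = j then LinearMap.id else 0) (fun q v => by
      rw [LinearMap.add_apply, LinearMap.comp_apply, LinearMap.comp_apply, LinearMap.rTensor_tmul,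
        hx, hx, LinearMap.rTensor_tmul, lin_single, Derivation.coeFn_coe, Derivation.leibniz,
        TensorProduct.add_tmul, smul_eq_mul, smul_eq_mul]
      congr 1
      by_cases e : i = j
      · subst e
        rw [if_pos rfl, pderiv_X_self, mul_one, LinearMap.id_apply]
      · rw [if_neg e, pderiv_X_of_ne (Ne.symm e), mul_zero, TensorProduct.zero_tmul,
          LinearMap.zero_apply]) m
    rw [LinearMap.add_apply, LinearMap.comp_apply, LinearMap.comp_apply] at e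
    rw [e]
    split_ifs <;> rfl
  · exact tmul_mem (hq.pderiv (i := i)) v
  · rw [LinearMap.rTensor_tmul, eq_C hq, Derivation.coeFn_coe, pderiv_C, TensorProduct.zero_tmul,
      LinearMap.zero_apply]
  · have e := ind_eq (∑ i, ρ (A.x (X.eb i)) ∘ₗ
        (pderiv i : Derivation ℂ X.Sc X.Sc).toLinearMap.rTensor _) ((p : ℂ) • LinearMap.id)
        (fun q v hq => by
      simp only [LinearMap.sum_apply, LinearMap.comp_apply, LinearMap.rTensor_tmul, hx, lin_single,
        Derivation.coeFn_coe, LinearMap.smul_apply, LinearMap.id_apply]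
      rw [← TensorProduct.sum_tmul, hq.sum_X_mul_pderiv, TensorProduct.smul_tmul',
        Nat.cast_smul_eq_nsmul]) m hm
    rwa [LinearMap.sum_apply] at e
  · have h1 : ∀ u ∈ A.LY, ∀ v, ρ u ((1 : X.Sc) ⊗ₜ[ℂ] v) = 0 := fun u hu v => by
      obtain ⟨c, rfl⟩ := A.mem_LY_iff.1 hu
      rw [map_sum, LinearMap.sum_apply]
      refine Finset.sum_eq_zero fun i _ => ?_
      rw [map_mul, Module.End.mul_apply, ← C_1, hy0, map_zero]
    have h2 : ∀ v, ρ (A.gl ζ) ((1 : X.Sc) ⊗ₜ[ℂ] v) = 1 ⊗ₜ[ℂ] π.asAlgebraHom ζ v := fun v => by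
      rw [t1_asAlg]
      conv_lhs => rw [t1_eq_sum ζ]
      simp only [map_sum, map_smul, A.gl_of, LinearMap.sum_apply, LinearMap.smul_apply, hρ.g,
        map_one, TensorProduct.tmul_sum, TensorProduct.tmul_smul]
    refine all_eq (ρ z) ((chx π.character ζ / π.character 1) • LinearMap.id) (fun q v => ?_) m
    have h3 : ρ z ((1 : X.Sc) ⊗ₜ[ℂ] v) = (chx π.character ζ / π.character 1) • (1 ⊗ₜ[ℂ] v) := by
      have e := h1 _ hL v
      rw [map_sub, LinearMap.sub_apply, sub_eq_zero, h2, schur π hπ hζ] at e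
      rw [e, LinearMap.smul_apply, Module.End.one_apply, TensorProduct.tmul_smul]
    have h4 : q ⊗ₜ[ℂ] v = ρ (A.ex q) ((1 : X.Sc) ⊗ₜ[ℂ] v) := by rw [hρ.ex, mul_one]
    rw [LinearMap.smul_apply, LinearMap.id_apply, h4, ← Module.End.mul_apply, ← map_mul,
      ← Subalgebra.mem_center_iff.1 hz, map_mul, Module.End.mul_apply, h3, map_smul]

end

end Pool.Agent.P.MP_1a0ecf_al.F
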