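import Pool.Agent.P.MP_1a0ecf_al.F.C9a
import Pool.Agent.P.MP_1a0ecf_al.F.C8
import Pool.Agent.P.MP_1a0ecf_al.F.C6

/-! Package C9: the linkage criterion. -/

namespace Pool.Agent.P.MP_1a0ecf_al.F

open Matrix MvPolynomial
open scoped Classical TensorProduct

noncomputable section

section Aux

variable {X : Cox} {κ : Wt X} {A : CA X κ} {χ μ : X.W → ℂ} (S : Std A χ) (F : Fock X)

private theorem c9_mul (m m' : Matrix F.ι F.ι A.H) (u : F.ι → S.M) :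
    S.R F m (S.R F m' u) = S.R F (m * m') u := by
  rw [map_mul, Module.End.mul_apply]

/-- the `μ`-isotypic part -/
private def c9C (μ : X.W → ℂ) (k q : ℕ) : Submodule ℂ (F.ι → S.M) :=
  S.U F k q ⊓ LinearMap.ker (S.R F (F.Dla A (idem μ)) - 1)

private theorem c9_mem {k q : ℕ} {u : F.ι → S.M} :
    u ∈ c9C S F μ k q ↔ u ∈ S.U F k q ∧ S.R F (F.Dla A (idem μ)) u = u := by
  rw [c9C, Submodule.mem_inf, LinearMap.mem_ker, LinearMap.sub_apply, Module.End.one_apply,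
    sub_eq_zero]

private theorem c9_proj (hμ : IsIrr μ) {k q : ℕ} {u : F.ι → S.M} (hu : u ∈ S.U F k q) :
    S.R F (F.Dla A (idem μ)) u ∈ c9C S F μ k q := by
  refine (c9_mem S F).2 ⟨S.Dla_mem F _ u hu, ?_⟩
  rw [c9_mul, ← map_mul, hμ.idem_mul_idem]

private theorem c9_Dx (ζ : X.GA) (u : F.ι → S.M) :
    S.R F (F.Dla A ζ) (S.R F (F.Dx A) u) = S.R F (F.Dx A) (S.R F (F.Dla A ζ) u) := by
  rw [c9_mul, c9_mul, F.Dla_Dx]

private theorem c9_Dy (ζ : X.GA) (u : F.ι → S.M) :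
    S.R F (F.Dla A ζ) (S.R F (F.Dy A) u) = S.R F (F.Dy A) (S.R F (F.Dla A ζ) u) := by
  rw [c9_mul, c9_mul, F.Dla_Dy]

private theorem c9_act (hμ : IsIrr μ) {z : A.H} (hz : z ∈ Subalgebra.center ℂ A.H) {ζ : X.GA}
    (hζ : ζ ∈ Subalgebra.center ℂ X.GA) (h : z - A.gl ζ ∈ A.LY) {u : F.ι → S.M}
    (hu : S.R F (F.Dla A (idem μ)) u = u) :
    S.R F (F.tn A z 1 - F.Dla A ζ) u = (chx χ ζ / χ 1 - chx μ ζ / μ 1) • u := by
  rw [map_sub, LinearMap.sub_apply, sub_smul]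
  congr 1
  · funext I
    rw [S.R_tn_one, S.cent z hz ζ hζ h, Pi.smul_apply]
  · conv_lhs => rw [← hu]
    rw [c9_mul, ← map_mul, hμ.center_mul_idem hζ, map_smul, map_smul, LinearMap.smul_apply, hu]

private theorem c9_sum (hμ : IsIrr μ) (ho : X.om κ χ = X.om κ μ) {k : ℕ} (hk : 0 < k)
    (hn : ¬ A.rel χ μ) (h1 : χ 1 ≠ 0) :
    ∑ q ∈ Finset.range (k + 1), (-1 : ℤ) ^ q * q * Module.finrank ℂ (c9C S F μ k q) = 0 := by
  simp only [CA.rel, not_forall] at hn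
  obtain ⟨z, hz, hne⟩ := hn
  obtain ⟨z0, hz0, hL⟩ := A.exists_z0 hz
  obtain ⟨S0, hS⟩ := F.exists_homotopy A hz0 hL
  have hc : chx χ (A.P z) / χ 1 - chx μ (A.P z) / μ 1 ≠ 0 := by
    intro e
    apply hne
    rwa [sub_eq_zero, div_eq_div_iff h1 hμ.one_ne] at e
  have key : ∀ u, S.R F (F.Dla A (idem μ)) u = u → S.R F (F.Dy A) u = 0 →
      ∃ v, u = S.R F (F.Dy A) v := by
    intro u hu h0
    have e := c9_act S F hμ hz0 (A.P_center hz) hL hu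
    rw [← hS, map_add, LinearMap.add_apply, ← c9_mul, ← c9_mul, h0, map_zero, add_zero] at e
    refine ⟨(chx χ (A.P z) / χ 1 - chx μ (A.P z) / μ 1)⁻¹ • S.R F S0 u, ?_⟩
    rw [map_smul, e, smul_smul, inv_mul_cancel₀ hc, one_smul]
  refine two_diff (c9C S F μ k) (fun q => ?_) (fun q hq => ?_) (S.R F (F.Dx A)) (S.R F (F.Dy A))
    (fun u => ?_) (fun u => ?_) (fun q u hu => ?_) (fun u hu => ?_) (fun q u hu => ?_)
    (fun q u hu => ?_) (fun q u hu h0 => ?_) (fun u hu h0 => ?_) (fun q u hu h0 => ?_)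
  · have := S.U_fin F k q
    exact Submodule.finiteDimensional_inf_left _ _
  · rw [c9C, S.U_bot F hq, bot_inf_eq]
  · rw [c9_mul, F.Dx_sq, map_zero, LinearMap.zero_apply]
  · rw [c9_mul, F.Dy_sq, map_zero, LinearMap.zero_apply]
  · rw [c9_mem] at hu ⊢
    exact ⟨S.Dx_mem F u hu.1, by rw [c9_Dx, hu.2]⟩
  · exact S.Dx_zero F u ((c9_mem S F).1 hu).1
  · rw [c9_mem] at hu ⊢
    exact ⟨S.Dy_mem F u hu.1, by rw [c9_Dy, hu.2]⟩
  · rw [c9_mem] at hu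
    rw [c9_mul, c9_mul, ← LinearMap.add_apply, ← map_add, F.Dx_Dy,
      c9_act S F hμ A.eu_center (X.omA_center κ) A.eu_sub_mem hu.2,
      X.chx_omA, X.chx_omA]
    change (X.om κ χ - X.om κ μ) • u = 0
    rw [ho, sub_self, zero_smul]
  · rw [c9_mem] at hu
    obtain ⟨u', h2, h3⟩ := S.Dx_exact F hk u hu.1 h0
    exact ⟨_, c9_proj S F hμ h2, by rw [← c9_Dx, ← h3, hu.2]⟩
  · rw [c9_mem] at hu
    obtain ⟨v, hv⟩ := key u hu.2 h0
    rw [hv]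
    exact S.Dy_proj_zero F v (hv ▸ hu.1)
  · rw [c9_mem] at hu
    obtain ⟨v, hv⟩ := key u hu.2 h0
    obtain ⟨v', h2, h3⟩ := S.Dy_proj F v (hv ▸ hu.1)
    exact ⟨_, c9_proj S F hμ h2, by rw [← c9_Dy, ← h3, ← hv, hu.2]⟩

end Aux

theorem CA.link {X : Cox} {κ : Wt X} (A : CA X κ) {χ μ : X.W → ℂ} (hχ : IsIrr χ) (hμ : IsIrr μ)
    (ho : X.om κ χ = X.om κ μ) {k : ℕ} (hk : 0 < k)
    (h : ip (fun w => (X.σK ℂ (w ^ k)).trace * χ w) μ ≠ 0) : A.rel χ μ := by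
  by_contra hn
  obtain ⟨S⟩ := A.exists_std hχ
  obtain ⟨F⟩ := exists_fock X
  have e := congrArg (Int.cast : ℤ → ℂ) (c9_sum S F hμ ho hk hn hχ.one_ne)
  push_cast at e
  have e2 : ∑ q ∈ Finset.range (k + 1), (-1 : ℂ) ^ q * q * (Module.finrank ℂ (c9C S F μ k q) : ℂ) =
      μ 1 * ip (∑ q ∈ Finset.range (k + 1), ((-1 : ℂ) ^ q * q) •
        fun w => F.ek q w * X.hk (k - q) w * χ w) μ := by
    rw [ip_sum, Finset.mul_sum]
    refine Finset.sum_congr rfl fun q hq => ?_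
    rw [ip_smul, c9C, S.finrank_iso F (Nat.lt_succ_iff.1 (Finset.mem_range.1 hq)) hμ]
    ring
  have e3 : (∑ q ∈ Finset.range (k + 1), ((-1 : ℂ) ^ q * q) •
      fun w => F.ek q w * X.hk (k - q) w * χ w) =
      (-1 : ℂ) • fun w => (X.σK ℂ (w ^ k)).trace * χ w := by
    funext w
    rw [Finset.sum_apply, Pi.smul_apply, smul_eq_mul, neg_one_mul, ← neg_mul, ← F.newton hk w,
      Finset.sum_mul]
    refine Finset.sum_congr rfl fun q _ => ?_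
    rw [Pi.smul_apply, smul_eq_mul]
    ring
  rw [e2, e3, ip_smul] at e
  exact mul_ne_zero hμ.one_ne (mul_ne_zero (neg_ne_zero.2 one_ne_zero) h) e

end

end Pool.Agent.P.MP_1a0ecf_al.F
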