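import Mathlib

/-! Package CL1, first file: chains in a positive definite Coxeter graph. -/

namespace Pool.Agent.P.MP_1a0ecf_al.F.CL1

open Matrix Finset

variable {n : ℕ} {M : CoxeterMatrix (Fin n)} {G : Matrix (Fin n) (Fin n) ℝ}

/-- what is used of the Gram matrix -/
structure Ok (M : CoxeterMatrix (Fin n)) (G : Matrix (Fin n) (Fin n) ℝ) : Prop where
  pd : G.PosDef
  h0 : ∀ i j, M i j ≠ 0
  sy : ∀ i j, G i j = G j i
  g1 : ∀ i, G i i = 2
  g2 : ∀ i j, i ≠ j → G i j ≤ 0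
  g3 : ∀ i j, 3 ≤ M i j → G i j ≤ -1
  g4 : ∀ i j, 4 ≤ M i j → 2 ≤ G i j ^ 2 ∧ G i j < 0

/-- a chain of distinct nodes -/
structure Ch (M : CoxeterMatrix (Fin n)) (s : ℕ) (σ : ℕ → Fin n) : Prop where
  inj : ∀ i ≤ s, ∀ j ≤ s, σ i = σ j → i = j
  adj : ∀ i < s, 3 ≤ M (σ i) (σ (i + 1))

/-- one node with a big bond, or two nodes, attached to `w` -/
def Cap (M : CoxeterMatrix (Fin n)) (w u u' : Fin n) : Prop :=
  (u = u' ∧ 4 ≤ M w u) ∨ (u ≠ u' ∧ 3 ≤ M w u ∧ 3 ≤ M w u')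

theorem ne_of_adj {u v : Fin n} (h : 3 ≤ M u v) : u ≠ v := by
  rintro rfl
  rw [M.diagonal] at h
  omega

theorem Ok.two (h : Ok M G) {u v : Fin n} (h1 : u ≠ v) (h2 : ¬ 3 ≤ M u v) : M u v = 2 := by
  have := h.h0 u v
  have := M.off_diagonal u v h1
  omega

variable {s : ℕ} {σ : ℕ → Fin n}

theorem Ch.sub (h : Ch M s σ) (a t : ℕ) (ht : a + t ≤ s) : Ch M t fun i => σ (a + i) :=
  ⟨fun i hi j hj e => by have := h.inj _ (by omega) _ (by omega) e; omega,
    fun i hi => h.adj (a + i) (by omega)⟩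

theorem Ch.cut (h : Ch M s σ) {t : ℕ} (ht : t ≤ s) : Ch M t σ :=
  ⟨fun i hi j hj e => h.inj _ (by omega) _ (by omega) e, fun i hi => h.adj i (by omega)⟩

theorem Ch.rev (h : Ch M s σ) : Ch M s fun i => σ (s - i) :=
  ⟨fun i hi j hj e => by have := h.inj _ (by omega) _ (by omega) e; omega, fun i hi => by
    have := h.adj (s - (i + 1)) (by omega)
    rw [M.symmetric, show s - (i + 1) + 1 = s - i by omega] at this
    exact this⟩

theorem Ch.ext (h : Ch M s σ) {v : Fin n} (hv : ∀ j ≤ s, σ j ≠ v) (ha : 3 ≤ M (σ s) v) :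
    Ch M (s + 1) fun i => if i ≤ s then σ i else v := by
  refine ⟨fun i hi j hj e => ?_, fun i hi => ?_⟩
  · split_ifs at e with h1 h2 h2
    · exact h.inj i h1 j h2 e
    · exact absurd e (hv i h1)
    · exact absurd e.symm (hv j h2)
    · omega
  · rw [if_pos (by omega)]
    split_ifs with h1
    · exact h.adj i (by omega)
    · obtain rfl : i = s := by omega
      exact ha

/-- two chains with the same first node -/
theorem Ch.join (h : Ch M s σ) {t : ℕ} {τ : ℕ → Fin n} (h' : Ch M t τ) (e0 : σ 0 = τ 0)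
    (hd : ∀ i ≤ s, ∀ j ≤ t, σ i = τ j → j = 0) :
    Ch M (s + t) fun i => if i ≤ s then σ (s - i) else τ (i - s) := by
  refine ⟨fun i hi j hj e => ?_, fun i hi => ?_⟩
  · split_ifs at e with h1 h2 h2
    · have := h.inj _ (by omega) _ (by omega) e
      omega
    · have := hd _ (by omega) _ (by omega) e
      omega
    · have := hd _ (by omega) _ (by omega) e.symm
      omega
    · have := h'.inj _ (by omega) _ (by omega) e
      omega
  · split_ifs with h1 h2 h2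
    · exact h.rev.adj i (by omega)
    · obtain rfl : i = s := by omega
      rw [Nat.sub_self, e0, show i + 1 - i = 0 + 1 by omega]
      exact h'.adj 0 (by omega)
    · omega
    · rw [show i + 1 - s = i - s + 1 by omega]
      exact h'.adj _ (by omega)

/-- basis vectors -/
abbrev ev (v : Fin n) : Fin n → ℝ := Pi.single v 1

/-- the sum of the basis vectors along a chain -/
def xs (s : ℕ) (σ : ℕ → Fin n) : Fin n → ℝ := ∑ i ∈ range (s + 1), ev (σ i)

theorem ev_nonneg (v : Fin n) : 0 ≤ ev v := Pi.single_nonneg.2 zero_le_one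

theorem xs_pos (s : ℕ) (σ : ℕ → Fin n) : 0 < xs s σ (σ 0) := by
  rw [xs, sum_range_succ', Pi.add_apply, Finset.sum_apply]
  have : 0 ≤ ∑ i ∈ range s, ev (σ (i + 1)) (σ 0) := sum_nonneg fun i _ => ev_nonneg _ _
  have e : ev (σ 0) (σ 0) = 1 := Pi.single_eq_same _ _
  linarith

theorem Ok.pos (h : Ok M G) {x : Fin n → ℝ} {v : Fin n} (hx : 0 < x v) : 0 < toBilin' G x x := by
  have := h.pd.dotProduct_mulVec_pos (x := x) fun e => by simp [e] at hx
  rwa [toBilin'_apply', ← star_trivial x, star_star] at *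

theorem Ok.symm (h : Ok M G) (x y : Fin n → ℝ) : toBilin' G x y = toBilin' G y x := by
  rw [toBilin'_apply, toBilin'_apply, sum_comm]
  exact sum_congr rfl fun i _ => sum_congr rfl fun j _ => by rw [h.sy j i]; ring

theorem xs_ev (s : ℕ) (σ : ℕ → Fin n) (u : Fin n) :
    toBilin' G (xs s σ) (ev u) = ∑ i ∈ range (s + 1), G (σ i) u := by
  rw [xs, map_sum, LinearMap.sum_apply]
  exact sum_congr rfl fun i _ => toBilin'_single _ _ _

theorem Ok.off (h : Ok M G) {u : Fin n} (hu : ∀ i ≤ s, σ i ≠ u) {T : Finset ℕ}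
    (hT : T ⊆ range (s + 1)) : toBilin' G (xs s σ) (ev u) ≤ ∑ i ∈ T, G (σ i) u := by
  rw [xs_ev, ← sum_sdiff hT]
  have : ∑ i ∈ range (s + 1) \ T, G (σ i) u ≤ 0 := sum_nonpos fun i hi =>
    h.g2 _ _ (hu i (by have := mem_range.1 (mem_sdiff.1 hi).1; omega))
  linarith

theorem Ok.off1 (h : Ok M G) {u : Fin n} (hu : ∀ i ≤ s, σ i ≠ u) {k : ℕ} (hk : k ≤ s) :
    toBilin' G (xs s σ) (ev u) ≤ G (σ k) u := by
  have := h.off hu (T := {k}) (by rw [singleton_subset_iff, mem_range]; omega)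
  rwa [sum_singleton] at this

theorem Ok.step (h : Ok M G) (s : ℕ) (σ : ℕ → Fin n) :
    toBilin' G (xs (s + 1) σ) (xs (s + 1) σ) =
      toBilin' G (xs s σ) (xs s σ) + 2 * toBilin' G (xs s σ) (ev (σ (s + 1))) + 2 := by
  have e : xs (s + 1) σ = xs s σ + ev (σ (s + 1)) := sum_range_succ _ _
  rw [e]
  simp only [map_add, LinearMap.add_apply]
  rw [h.symm (ev _) (xs s σ), toBilin'_single, h.g1]
  ring

theorem Ok.chain (h : Ok M G) (c : Ch M s σ) : toBilin' G (xs s σ) (xs s σ) ≤ 2 := by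
  induction s with
  | zero =>
    have e : xs 0 σ = ev (σ 0) := by simp [xs]
    rw [e, toBilin'_single, h.g1]
  | succ s ih =>
    have h1 := ih (c.cut s.le_succ)
    have h2 := h.off1 (σ := σ) (u := σ (s + 1))
      (fun i hi e => by have := c.inj _ (by omega) _ le_rfl e; omega) (le_refl s)
    have h3 := h.g3 _ _ (c.adj s s.lt_succ_self)
    rw [h.step]
    linarith

/-- no cycles -/
theorem Ok.cyc (h : Ok M G) (c : Ch M s σ) (hs : 2 ≤ s) : M (σ 0) (σ s) = 2 := by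
  refine h.two (fun e => by have := c.inj _ (by omega) _ le_rfl e; omega) fun ha => ?_
  obtain ⟨s, rfl⟩ : ∃ t, s = t + 1 := ⟨s - 1, by omega⟩
  have h1 := h.chain (c.cut s.le_succ)
  have h2 := h.off (σ := σ) (s := s) (u := σ (s + 1))
    (fun i hi e => by have := c.inj _ (by omega) _ le_rfl e; omega) (T := {0, s})
    (by intro i; simp only [mem_insert, mem_singleton, mem_range]; omega)
  rw [sum_pair (by omega)] at h2
  have h3 := h.g3 _ _ (c.adj s s.lt_succ_self)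
  have h4 := h.g3 _ _ ha
  have h5 := h.pos (xs_pos (s + 1) σ)
  rw [h.step] at h5
  linarith

theorem Ok.cap (h : Ok M G) {w u u' : Fin n} (c : Cap M w u u') : ∃ t : ℝ, 0 < t ∧
    t ^ 2 * (4 + 2 * G u u') ≤ 1 ∧ t * (G w u + G w u') ≤ -1 := by
  rcases c with ⟨rfl, h4⟩ | ⟨hne, h1, h2⟩
  · obtain ⟨k1, k2⟩ := h.g4 _ _ h4
    refine ⟨1 / (-2 * G w u), one_div_pos.2 (by linarith), ?_, le_of_eq ?_⟩
    · rw [h.g1, div_pow, div_mul_eq_mul_div, div_le_one (by nlinarith)]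
      nlinarith
    · have := k2.ne
      field_simp
      ring
  · have := h.g2 _ _ hne
    have := h.g3 _ _ h1
    have := h.g3 _ _ h2
    exact ⟨1 / 2, by norm_num, by nlinarith, by linarith⟩

/-- no chain with two caps -/
theorem Ok.caps (h : Ok M G) (c : Ch M s σ) {u u' v v' : Fin n} (c1 : Cap M (σ 0) u u')
    (c2 : Cap M (σ s) v v') (a1 : ∀ i ≤ s, σ i ≠ u) (a2 : ∀ i ≤ s, σ i ≠ u')
    (a3 : ∀ i ≤ s, σ i ≠ v) (a4 : ∀ i ≤ s, σ i ≠ v') (b1 : u ≠ v) (b2 : u ≠ v') (b3 : u' ≠ v)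
    (b4 : u' ≠ v') : False := by
  obtain ⟨t, t0, t1, t2⟩ := h.cap c1
  obtain ⟨r, r0, r1, r2⟩ := h.cap c2
  have h0 : 0 < (xs s σ + t • (ev u + ev u') + r • (ev v + ev v')) (σ 0) := by
    have := xs_pos s σ
    have := mul_nonneg t0.le (add_nonneg (ev_nonneg u (σ 0)) (ev_nonneg u' (σ 0)))
    have := mul_nonneg r0.le (add_nonneg (ev_nonneg v (σ 0)) (ev_nonneg v' (σ 0)))
    simp only [Pi.add_apply, Pi.smul_apply, smul_eq_mul] at *
    linarith
  have h1 := h.pos h0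
  simp only [map_add, map_smul, LinearMap.add_apply, LinearMap.smul_apply, smul_eq_mul,
    toBilin'_single, h.g1, h.symm (ev _) (xs s σ), h.sy u' u, h.sy v' v, h.sy v u, h.sy v u',
    h.sy v' u, h.sy v' u'] at h1
  have h2 := h.chain c
  have h3 := mul_le_mul_of_nonneg_left
    (add_le_add (h.off1 a1 s.zero_le) (h.off1 a2 s.zero_le)) t0.le
  have h4 := mul_le_mul_of_nonneg_left (add_le_add (h.off1 a3 le_rfl) (h.off1 a4 le_rfl)) r0.le
  have h5 := mul_nonpos_of_nonneg_of_nonpos (mul_pos t0 r0).le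
    (add_nonpos (add_nonpos (h.g2 _ _ b1) (h.g2 _ _ b2)) (add_nonpos (h.g2 _ _ b3) (h.g2 _ _ b4)))
  nlinarith

/-- the bonds along a chain -/
theorem Ok.val (h : Ok M G) (c : Ch M s σ) {b : ℕ → ℕ} (hb : ∀ i < s, M (σ i) (σ (i + 1)) = b i) :
    ∀ i ≤ s, ∀ j ≤ s, M (σ i) (σ j) =
      if i = j then 1 else if i + 1 = j ∨ j + 1 = i then b (min i j) else 2 := by
  have far : ∀ i j, i + 2 ≤ j → j ≤ s → M (σ i) (σ j) = 2 := fun i j h1 h2 => by
    have := h.cyc (c.sub i (j - i) (by omega)) (by omega)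
    rwa [add_zero, show i + (j - i) = j by omega] at this
  intro i hi j hj
  split_ifs with h1 h2
  · rw [h1, M.diagonal]
  · rcases h2 with rfl | rfl
    · rw [hb i (by omega), min_eq_left (by omega)]
    · rw [M.symmetric, hb j (by omega), min_eq_right (by omega)]
  · rcases lt_or_gt_of_ne h1 with k | k
    · exact far i j (by omega) hj
    · rw [M.symmetric]
      exact far j i (by omega) hi

/-- at most one big bond on a chain -/
theorem Ok.one (h : Ok M G) (c : Ch M s σ) :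
    ∃ k m, 3 ≤ m ∧ ∀ i < s, M (σ i) (σ (i + 1)) = if i = k then m else 3 := by
  have key : ∀ k k', k < k' → k' < s → 4 ≤ M (σ k) (σ (k + 1)) → 4 ≤ M (σ k') (σ (k' + 1)) →
      False := fun k k' h1 h2 h3 h4 => by
    have ne : ∀ i ≤ s, ∀ j ≤ s, i ≠ j → σ i ≠ σ j := fun i hi j hj e e' => e (c.inj i hi j hj e')
    refine h.caps (c.sub (k + 1) (k' - (k + 1)) (by omega)) (u := σ k) (u' := σ k)
      (v := σ (k' + 1)) (v' := σ (k' + 1)) (Or.inl ⟨rfl, ?_⟩) (Or.inl ⟨rfl, ?_⟩)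
      ?_ ?_ ?_ ?_ ?_ ?_ ?_ ?_
    · rwa [M.symmetric]
    · rwa [show k + 1 + (k' - (k + 1)) = k' by omega]
    any_goals exact fun i hi => ne _ (by omega) _ (by omega) (by omega)
    all_goals exact ne _ (by omega) _ (by omega) (by omega)
  by_cases h1 : ∃ k < s, 4 ≤ M (σ k) (σ (k + 1))
  · obtain ⟨k, hk, h4⟩ := h1
    refine ⟨k, M (σ k) (σ (k + 1)), by omega, fun i hi => ?_⟩
    split_ifs with e
    · rw [e]
    · have := c.adj i hi
      by_contra h5
      rcases lt_or_gt_of_ne e with k1 | k1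
      · exact key i k k1 hk (by omega) h4
      · exact key k i k1 hi h4 (by omega)
  · refine ⟨0, 3, le_rfl, fun i hi => ?_⟩
    have := c.adj i hi
    have : ¬ 4 ≤ M (σ i) (σ (i + 1)) := fun e => h1 ⟨i, hi, e⟩
    rw [ite_self]
    omega

/-- three chains with a common first node -/
structure St (M : CoxeterMatrix (Fin n)) (l : Fin 3 → ℕ) (ρ : Fin 3 → ℕ → Fin n) : Prop where
  pos : ∀ a, 1 ≤ l a
  ctr : ∀ a b, ρ a 0 = ρ b 0
  ch : ∀ a, Ch M (l a) (ρ a)
  dj : ∀ a b, a ≠ b → ∀ i ≤ l a, ∀ j ≤ l b, ρ a i = ρ b j → j = 0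

variable {l : Fin 3 → ℕ} {ρ : Fin 3 → ℕ → Fin n}

/-- no cap along an arm -/
theorem Ok.no (h : Ok M G) (t : St M l ρ) {a : Fin 3} {i : ℕ} (hi : i < l a) {v : Fin n}
    (c : Cap M (ρ a i) v (ρ a (i + 1))) (hv : v = ρ a (i + 1) ∨ ∀ b, ∀ j ≤ l b, ρ b j ≠ v) :
    False := by
  obtain ⟨b, b', n1, n2, n3⟩ : ∃ b b', a ≠ b ∧ a ≠ b' ∧ b ≠ b' :=
    (by decide : ∀ a : Fin 3, ∃ b b', a ≠ b ∧ a ≠ b' ∧ b ≠ b') a
  have k1 : ∀ b, a ≠ b → ∀ j ≤ l a, ρ a j ≠ ρ b 1 := fun b hb j hj e =>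
    one_ne_zero (t.dj a b hb j hj 1 (t.pos b) e)
  have k2 : ∀ b, 3 ≤ M (ρ a 0) (ρ b 1) := fun b => by
    rw [t.ctr a b]
    exact (t.ch b).adj 0 (t.pos b)
  have k3 : ∀ j ≤ i, ρ a j ≠ ρ a (i + 1) := fun j hj e => by
    have := (t.ch a).inj _ (by omega) _ (by omega) e
    omega
  refine h.caps ((t.ch a).cut hi.le) (u := ρ b 1) (u' := ρ b' 1) (Or.inr ⟨fun e =>
    one_ne_zero (t.dj b b' n3 1 (t.pos b) 1 (t.pos b') e), k2 b, k2 b'⟩) c
    (fun j hj => k1 b n1 j (by omega)) (fun j hj => k1 b' n2 j (by omega)) ?_ k3 ?_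
    (k1 b n1 _ hi).symm ?_ (k1 b' n2 _ hi).symm
  · rcases hv with rfl | hv
    · exact k3
    · exact fun j hj => hv a j (by omega)
  · rcases hv with rfl | hv
    · exact (k1 b n1 _ hi).symm
    · exact hv b 1 (t.pos b)
  · rcases hv with rfl | hv
    · exact (k1 b' n2 _ hi).symm
    · exact hv b' 1 (t.pos b')

theorem Ok.arm (h : Ok M G) (t : St M l ρ) (a : Fin 3) : ∀ i ≤ l a, ∀ j ≤ l a,
    M (ρ a i) (ρ a j) = if i = j then 1 else if i + 1 = j ∨ j + 1 = i then 3 else 2 := by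
  refine h.val (t.ch a) (b := fun _ => 3) fun i hi => ?_
  have := (t.ch a).adj i hi
  by_contra h1
  exact h.no t hi (Or.inl ⟨rfl, by omega⟩) (Or.inl rfl)

theorem Ok.arms (h : Ok M G) (t : St M l ρ) {a b : Fin 3} (hab : a ≠ b) : ∀ i ≤ l a, ∀ j ≤ l b,
    M (ρ a i) (ρ b j) = if i + j = 0 then 1 else if i + j = 1 then 3 else 2 := by
  intro i hi j hj
  rcases Nat.eq_zero_or_pos i with rfl | h1
  · rw [t.ctr a b, h.arm t b 0 (by omega) j hj]
    exact if_congr (by omega) rfl (if_congr (by omega) rfl rfl)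
  rcases Nat.eq_zero_or_pos j with rfl | h2
  · rw [t.ctr b a, h.arm t a i hi 0 (by omega)]
    exact if_congr (by omega) rfl (if_congr (by omega) rfl rfl)
  have := h.cyc (((t.ch a).cut hi).join ((t.ch b).cut hj) (t.ctr a b) fun i' hi' j' hj' =>
    t.dj a b hab i' (by omega) j' (by omega)) (by omega)
  rw [if_pos (by omega), if_neg (by omega), Nat.sub_zero, Nat.add_sub_cancel_left] at this
  rw [this, if_neg (by omega), if_neg (by omega)]

/-- a new node prolongs an arm -/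
theorem Ok.ext (h : Ok M G) (t : St M l ρ) {a : Fin 3} {i : ℕ} (hi : i ≤ l a) {v : Fin n}
    (hv : ∀ b, ∀ j ≤ l b, ρ b j ≠ v) (ha : 3 ≤ M (ρ a i) v) :
    ∃ l' ρ', St M l' ρ' ∧ ∑ b, l b < ∑ b, l' b := by
  obtain rfl : i = l a := by
    by_contra h1
    have h2 : i < l a := by omega
    exact h.no t h2 (Or.inr ⟨(hv a _ h2).symm, ha, (t.ch a).adj i h2⟩) (Or.inr hv)
  refine ⟨fun b => if b = a then l b + 1 else l b, fun b j => if j ≤ l b then ρ b j else v,
    ⟨fun b => ?_, fun b c => ?_, fun b => ?_, fun b c hbc i hi j hj e => ?_⟩, ?_⟩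
  · have := t.pos b
    split_ifs <;> omega
  · rw [if_pos (Nat.zero_le _), if_pos (Nat.zero_le _), t.ctr b c]
  · split_ifs with e
    · subst e
      exact (t.ch b).ext (hv b) ha
    · refine ⟨fun i hi j hj e => ?_, fun i hi => ?_⟩
      · rw [if_pos hi, if_pos hj] at e
        exact (t.ch b).inj i hi j hj e
      · rw [if_pos hi.le, if_pos (by omega)]
        exact (t.ch b).adj i hi
  · split_ifs at e with h1 h2 h2
    · exact t.dj b c hbc i h1 j h2 e
    · exact absurd e (hv b i h1)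
    · exact absurd e.symm (hv c j h2)
    · split_ifs at hi hj with h3 h4 h4
      · exact absurd (h3.trans h4.symm) hbc
      all_goals omega
  · refine sum_lt_sum (fun b _ => ?_) ⟨a, mem_univ a, ?_⟩
    · split_ifs <;> omega
    · rw [if_pos rfl]
      omega

/-- the numbering of a star -/
def num (l : Fin 3 → ℕ) (ρ : Fin 3 → ℕ → Fin n) (i : ℕ) : Fin n :=
  if i ≤ l 0 then ρ 0 (l 0 - i) else if i ≤ l 0 + l 1 then ρ 1 (i - l 0) else ρ 2 (i - l 0 - l 1)

theorem num_mem {i : ℕ} (hi : i ≤ l 0 + l 1 + l 2) : ∃ a, ∃ k ≤ l a, num l ρ i = ρ a k := by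
  unfold num
  split_ifs
  · exact ⟨0, _, by omega, rfl⟩
  · exact ⟨1, _, by omega, rfl⟩
  · exact ⟨2, _, by omega, rfl⟩

theorem St.num_onto (t : St M l ρ) (a : Fin 3) {k : ℕ} (hk : k ≤ l a) :
    ∃ i ≤ l 0 + l 1 + l 2, num l ρ i = ρ a k := by
  rcases Nat.eq_zero_or_pos k with rfl | h0
  · exact ⟨l 0, by omega, by rw [num, if_pos le_rfl, Nat.sub_self, t.ctr 0 a]⟩
  obtain rfl | rfl | rfl : a = 0 ∨ a = 1 ∨ a = 2 :=
    (by decide : ∀ a : Fin 3, a = 0 ∨ a = 1 ∨ a = 2) a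
  · exact ⟨l 0 - k, by omega, by rw [num, if_pos (by omega)]; congr 1; omega⟩
  · exact ⟨l 0 + k, by omega, by rw [num, if_neg (by omega), if_pos (by omega)]; congr 1; omega⟩
  · exact ⟨l 0 + l 1 + k, by omega, by
      rw [num, if_neg (by omega), if_neg (by omega)]; congr 1; omega⟩

theorem grow {α : Type} (P : α → Prop) (sz : α → ℕ) (n : ℕ) (h0 : ∃ x, P x)
    (hs : ∀ x, P x → sz x < n → ∃ y, P y ∧ sz x < sz y) : ∃ x, P x ∧ n ≤ sz x := by
  have : ∀ k ≤ n, ∃ x, P x ∧ k ≤ sz x := by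
    intro k
    induction k with
    | zero => exact fun _ => h0.imp fun x hx => ⟨hx, Nat.zero_le _⟩
    | succ k ih =>
      intro hk
      obtain ⟨x, hx, h1⟩ := ih (by omega)
      by_cases h2 : k + 1 ≤ sz x
      · exact ⟨x, hx, h2⟩
      · obtain ⟨y, hy, h3⟩ := hs x hx (by omega)
        exact ⟨y, hy, by omega⟩
  exact this n le_rfl

end Pool.Agent.P.MP_1a0ecf_al.F.CL1
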