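import Pool.Agent.P.MP_1a0ecf_al.F.Face

/-! Package CL2: positive definite paths and stars. -/

namespace Pool.Agent.P.MP_1a0ecf_al.F

open Matrix

noncomputable section

namespace CL2

/-- entries of the Gram matrix -/
def cs (t : ℕ) : ℝ := -2 * Real.cos (Real.pi / t)

theorem cs_one : cs 1 = 2 := by simp [cs]

theorem cs_two : cs 2 = 0 := by simp [cs]

theorem cs_three : cs 3 = -1 := by
  have : Real.cos (Real.pi / (3 : ℕ)) = 1 / 2 := by exact_mod_cast Real.cos_pi_div_three
  rw [cs, this]; norm_num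

theorem cs_mono {a b : ℕ} (ha : 1 ≤ a) (h : a ≤ b) : cs b ≤ cs a := by
  have h1 : (1 : ℝ) ≤ a := by exact_mod_cast ha
  have h2 : (a : ℝ) ≤ b := by exact_mod_cast h
  have h3 : Real.cos (Real.pi / a) ≤ Real.cos (Real.pi / b) :=
    Real.cos_le_cos_of_nonneg_of_le_pi (div_nonneg Real.pi_pos.le (by linarith))
      (div_le_self Real.pi_pos.le h1)
      (div_le_div_of_nonneg_left Real.pi_pos.le (by linarith) h2)
  unfold cs
  linarith

theorem cs_four {m : ℕ} (h : 4 ≤ m) : 2 ≤ cs m ^ 2 ∧ cs m < 0 := by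
  have h1 := cs_mono (by norm_num) h
  have h2 : Real.cos (Real.pi / (4 : ℕ)) = √2 / 2 := by exact_mod_cast Real.cos_pi_div_four
  have h3 : cs 4 = -√2 := by rw [cs, h2]; ring
  have h4 : √2 ^ 2 = 2 := Real.sq_sqrt (by norm_num)
  have h5 : 0 < √2 := Real.sqrt_pos.2 (by norm_num)
  constructor <;> nlinarith

theorem cs_five {m : ℕ} (h : 5 ≤ m) : cs m ≤ -(8 / 5) := by
  have h1 := cs_mono (by norm_num) h
  have h2 : Real.cos (Real.pi / (5 : ℕ)) = (1 + √5) / 4 := by exact_mod_cast Real.cos_pi_div_five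
  have h3 : cs 5 = -((1 + √5) / 2) := by rw [cs, h2]; ring
  have h4 : (11 / 5 : ℝ) ≤ √5 := Real.le_sqrt_of_sq_le (by norm_num)
  linarith

theorem cs_six {m : ℕ} (h : 6 ≤ m) : 3 ≤ cs m ^ 2 ∧ cs m < 0 := by
  have h1 := cs_mono (by norm_num) h
  have h2 : Real.cos (Real.pi / (6 : ℕ)) = √3 / 2 := by exact_mod_cast Real.cos_pi_div_six
  have h3 : cs 6 = -√3 := by rw [cs, h2]; ring
  have h4 : √3 ^ 2 = 3 := Real.sq_sqrt (by norm_num)
  have h5 : 0 < √3 := Real.sqrt_pos.2 (by norm_num)
  constructor <;> nlinarith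

variable {n : ℕ} {M : CoxeterMatrix (Fin n)}

/-- renumbering -/
theorem shape_of {f f' : ℕ → ℕ → ℕ} (h : Shape M f) (σ : ℕ → ℕ) (h1 : ∀ i < n, σ i < n)
    (h2 : ∀ i < n, ∀ j < n, σ i = σ j → i = j)
    (h3 : ∀ i < n, ∀ j < n, f (σ i) (σ j) = f' i j) : Shape M f' := by
  obtain ⟨e, he⟩ := h
  let g : Fin n → Fin n := fun i => ⟨σ i, h1 i i.2⟩
  have hg : Function.Injective g := fun i j hij =>
    Fin.ext (h2 i i.2 j j.2 (congrArg Fin.val hij))
  refine ⟨(Equiv.ofBijective g (Finite.injective_iff_bijective.1 hg)).trans e, fun i j => ?_⟩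
  rw [← h3 i i.2 j j.2]
  exact he (g i) (g j)

/-- test vectors on a subdiagram -/
theorem test {f f' : ℕ → ℕ → ℕ} (hp : (gram M).PosDef) (h : Shape M f) (r : ℕ) (σ : ℕ → ℕ)
    (h1 : ∀ i < r, σ i < n) (h2 : ∀ i < r, ∀ j < r, σ i = σ j → i = j)
    (h3 : ∀ i < r, ∀ j < r, f (σ i) (σ j) = f' i j) (v : Fin r → ℝ) (hv : v ≠ 0) :
    0 < ∑ i : Fin r, ∑ j : Fin r, v i * (cs (f' i j) * v j) := by
  obtain ⟨e, he⟩ := h
  let g : Fin r → Fin n := fun i => e ⟨σ i, h1 i i.2⟩
  have hg : Function.Injective g := fun i j hij =>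
    Fin.ext (h2 i i.2 j j.2 (congrArg Fin.val (e.injective hij)))
  have h4 := (hp.submatrix hg).dotProduct_mulVec_pos hv
  have h5 : ∀ i j : Fin r, (gram M).submatrix g g i j = cs (f' i j) := by
    intro i j
    rw [← h3 i i.2 j j.2]
    exact congrArg cs (he ⟨σ i, h1 i i.2⟩ ⟨σ j, h1 j j.2⟩)
  simpa only [dotProduct, mulVec, h5, star_trivial, Finset.mul_sum] using h4

theorem test_path {k m : ℕ} (hp : (gram M).PosDef) (h : Shape M (pathM k m)) (r s k' : ℕ)
    (hk : k = s + k') (hr : s + r ≤ n) (v : Fin r → ℝ) (hv : v ≠ 0) :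
    0 < ∑ i : Fin r, ∑ j : Fin r, v i * (cs (pathM k' m i j) * v j) := by
  refine test hp h r (fun i => s + i) (fun i hi => by omega) (fun i _ j _ hij => by omega)
    (fun i _ j _ => ?_) v hv
  simp only [pathM]
  split_ifs <;> omega

theorem path_rev {k m : ℕ} (h : Shape M (pathM k m)) (hk : k + 1 < n) :
    Shape M (pathM (n - 2 - k) m) := by
  refine shape_of h (fun i => n - 1 - i) (fun i hi => by omega)
    (fun i hi j hj hij => by omega) (fun i hi j hj => ?_)
  simp only [pathM]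
  split_ifs <;> omega

theorem no_G2 {m : ℕ} (hp : (gram M).PosDef) (h : Shape M (pathM 0 m)) (hm : 6 ≤ m)
    (hn : 3 ≤ n) : False := by
  have h1 := test_path hp h 3 0 0 rfl (by omega) ![-cs m, 2, 1]
    (fun h => by simpa using congrFun h 2)
  simp [Fin.sum_univ_succ, pathM, cs_one, cs_two, cs_three] at h1
  obtain ⟨h2, h3⟩ := cs_six hm
  nlinarith

theorem no_H5 {m : ℕ} (hp : (gram M).PosDef) (h : Shape M (pathM 0 m)) (hm : 5 ≤ m)
    (hn : 5 ≤ n) : False := by
  have h1 := test_path hp h 5 0 0 rfl (by omega) ![-2 * cs m, 4, 3, 2, 1]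
    (fun h => by simpa using congrFun h 4)
  simp [Fin.sum_univ_succ, pathM, cs_one, cs_two, cs_three] at h1
  have h2 := cs_five hm
  nlinarith

theorem no_F5 {k m : ℕ} (hp : (gram M).PosDef) (h : Shape M (pathM k m)) (hm : 4 ≤ m)
    (hk : 1 ≤ k) (hn : k + 4 ≤ n) : False := by
  have h1 := test_path hp h 5 (k - 1) 1 (by omega) (by omega) ![-cs m, -2 * cs m, 3, 2, 1]
    (fun h => by simpa using congrFun h 4)
  simp [Fin.sum_univ_succ, pathM, cs_one, cs_two, cs_three] at h1
  obtain ⟨h2, h3⟩ := cs_four hm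
  nlinarith

theorem no_353 {k m : ℕ} (hp : (gram M).PosDef) (h : Shape M (pathM k m)) (hm : 5 ≤ m)
    (hk : 1 ≤ k) (hn : k + 3 ≤ n) : False := by
  have h1 := test_path hp h 4 (k - 1) 1 (by omega) (by omega) ![1, 2, 2, 1]
    (fun h => by simpa using congrFun h 3)
  simp [Fin.sum_univ_succ, pathM, cs_one, cs_two, cs_three] at h1
  have h2 := cs_five hm
  nlinarith

theorem iso_of {f : ℕ → ℕ → ℕ} {M' : CoxeterMatrix (Fin n)} (h : Shape M f)
    (h' : ∀ i j : Fin n, M' i j = f i j) : Iso M' M := by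
  obtain ⟨e, he⟩ := h
  exact ⟨e, fun i j => (h' i j).trans (he i j).symm⟩

theorem path_core {k m : ℕ} (hp : (gram M).PosDef) (hm : 4 ≤ m) (h : Shape M (pathM k m))
    (hk : 2 * k + 2 ≤ n) : Listed M := by
  by_cases h0 : k = 0
  · subst h0
    by_cases h4 : m = 4
    · subst h4
      exact Or.inr (Or.inl ⟨by omega, h⟩)
    by_cases h2 : n = 2
    · exact Or.inr (Or.inr (Or.inr (Or.inl ⟨h2, m, by omega, h⟩)))
    by_cases h6 : 6 ≤ m
    · exact (no_G2 hp h h6 (by omega)).elim
    obtain rfl : m = 5 := by omega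
    by_cases h5 : 5 ≤ n
    · exact (no_H5 hp h le_rfl h5).elim
    have h7 := path_rev h (by omega)
    by_cases h3 : n = 3
    · subst h3
      refine Or.inr (Or.inr (Or.inr (Or.inr (Or.inr (Or.inr (Or.inr (Or.inr (Or.inl ?_))))))))
      exact iso_of h7 (fun i j => by fin_cases i <;> fin_cases j <;> rfl)
    · obtain rfl : n = 4 := by omega
      refine Or.inr (Or.inr (Or.inr (Or.inr (Or.inr (Or.inr (Or.inr (Or.inr (Or.inr ?_))))))))
      exact iso_of h7 (fun i j => by fin_cases i <;> fin_cases j <;> rfl)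
  by_cases h5 : 5 ≤ m
  · exact (no_353 hp h h5 (by omega) (by omega)).elim
  obtain rfl : m = 4 := by omega
  by_cases h4 : k + 4 ≤ n
  · exact (no_F5 hp h le_rfl (by omega) h4).elim
  obtain rfl : k = 1 := by omega
  exact Or.inr (Or.inr (Or.inr (Or.inr (Or.inl ⟨by omega, h⟩))))

/-- integral Gram entries of simply laced diagrams -/
def cz (t : ℕ) : ℤ := if t = 1 then 2 else if t = 3 then -1 else 0

theorem cs_star (a b i j : ℕ) : cs (starM a b i j) = cz (starM a b i j) := by
  unfold starM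
  split_ifs <;> simp [cz, cs_one, cs_two, cs_three]

theorem test_star {p q : ℕ} (hp : (gram M).PosDef) (h : Shape M (starM p q)) (a b r : ℕ)
    (ha : a ≤ p) (hb : b ≤ q) (hb1 : 1 ≤ b) (hr : p + q + r ≤ n + a + b) (hn : p + q < n)
    (v : Fin r → ℤ) (hv : v ≠ 0) : 0 < ∑ i : Fin r, ∑ j : Fin r, v i * (cz (starM a b i j) * v j) := by
  have h1 := test (f' := starM a b) hp h r
    (fun i => if i ≤ a + b then p - a + i else p + q + (i - (a + b)))
    (fun i hi => by split_ifs <;> omega)
    (fun i _ j _ hij => by split_ifs at hij <;> omega)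
    (fun i _ j _ => by
      simp only [starM]
      split_ifs <;> omega)
    (fun i => (v i : ℝ)) (fun h => hv (funext fun i => by simpa using congrFun h i))
  simp only [cs_star] at h1
  exact_mod_cast h1

theorem star_swap {p q : ℕ} (h : Shape M (starM p q)) (hn : p + q < n) :
    Shape M (starM q p) := by
  refine shape_of h (fun i => if i ≤ p + q then p + q - i else i)
    (fun i hi => by split_ifs <;> omega)
    (fun i _ j _ hij => by split_ifs at hij <;> omega) (fun i hi j hj => ?_)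
  simp only [starM]
  split_ifs <;> omega

theorem star_swap' {p q r : ℕ} (h : Shape M (starM p q)) (hn : p + q + r + 1 = n) (hq : 1 ≤ q)
    (hr : 1 ≤ r) : Shape M (starM p r) := by
  refine shape_of h (fun i => if i ≤ p then i else if i ≤ p + r then i + q else i - r)
    (fun i hi => by split_ifs <;> omega)
    (fun i hi j hj hij => by split_ifs at hij <;> omega) (fun i hi j hj => ?_)
  simp only [starM]
  split_ifs <;> omega

/-- the numbering of the diagrams of type E -/
def eσ (i : ℕ) : ℕ := if i = 0 then 3 else if i = 1 then 0 else if i = 3 then 1 else i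

theorem star_E (h : Shape M (starM 1 2)) (hn : 4 ≤ n) :
    Shape M fun i j => starM 1 2 (eσ i) (eσ j) :=
  shape_of h eσ (fun i hi => by unfold eσ; split_ifs <;> omega)
    (fun i _ j _ hij => by unfold eσ at hij; split_ifs at hij <;> omega) fun _ _ _ _ => rfl

theorem star_core {p q r : ℕ} (hp : (gram M).PosDef) (h : Shape M (starM p q))
    (hn : p + q + r + 1 = n) (h1 : 1 ≤ p) (h2 : p ≤ q) (h3 : q ≤ r) : Listed M := by
  by_cases k1 : 2 ≤ p
  · exact absurd (test_star hp h 2 2 7 k1 (by omega) (by omega) (by omega) (by omega)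
      ![1, 2, 3, 2, 1, 2, 1] (by decide)) (by decide)
  obtain rfl : p = 1 := by omega
  by_cases k2 : 3 ≤ q
  · exact absurd (test_star hp h 1 3 8 le_rfl k2 (by omega) (by omega) (by omega)
      ![2, 4, 3, 2, 1, 3, 2, 1] (by decide)) (by decide)
  by_cases k3 : q = 1
  · subst k3
    refine Or.inr (Or.inr (Or.inl ⟨by omega, ?_⟩))
    refine shape_of h (fun i => if i = 1 then 2 else if i = 2 then 1 else i)
      (fun i hi => by split_ifs <;> omega)
      (fun i _ j _ hij => by split_ifs at hij <;> omega) (fun i hi j hj => ?_)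
    simp only [starM, dM]
    split_ifs <;> omega
  obtain rfl : q = 2 := by omega
  by_cases k4 : 5 ≤ r
  · exact absurd (test_star hp h 1 2 9 le_rfl le_rfl (by omega) (by omega) (by omega)
      ![3, 6, 4, 2, 5, 4, 3, 2, 1] (by decide)) (by decide)
  have h4 := star_E h (by omega)
  refine Or.inr (Or.inr (Or.inr (Or.inr (Or.inr ?_))))
  by_cases k5 : r = 2
  · obtain rfl : n = 6 := by omega
    exact Or.inl (iso_of h4 (fun i j => by fin_cases i <;> fin_cases j <;> rfl))
  by_cases k6 : r = 3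
  · obtain rfl : n = 7 := by omega
    exact Or.inr (Or.inl (iso_of h4 (fun i j => by fin_cases i <;> fin_cases j <;> rfl)))
  · obtain rfl : n = 8 := by omega
    exact Or.inr (Or.inr (Or.inl (iso_of h4 (fun i j => by fin_cases i <;> fin_cases j <;> rfl))))

end CL2

open CL2

theorem listed_path {n : ℕ} (M : CoxeterMatrix (Fin n)) (hp : (gram M).PosDef) {k m : ℕ}
    (hm : 3 ≤ m) (h : Shape M (pathM k m)) : Listed M := by
  by_cases h0 : m = 3 ∨ n ≤ k + 1
  · refine Or.inl (shape_of h id (fun _ hi => hi) (fun _ _ _ _ hij => hij) fun i hi j hj => ?_)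
    simp only [pathM, id]
    split_ifs <;> omega
  by_cases h1 : 2 * k + 2 ≤ n
  · exact path_core hp (by omega) h h1
  · exact path_core hp (by omega) (path_rev h (by omega)) (by omega)

theorem listed_star {n : ℕ} (M : CoxeterMatrix (Fin n)) (hp : (gram M).PosDef) {p q : ℕ}
    (h1 : 1 ≤ p) (h2 : 1 ≤ q) (h3 : p + q + 1 < n) (h : Shape M (starM p q)) : Listed M := by
  obtain ⟨r, hr, hn⟩ : ∃ r, 1 ≤ r ∧ p + q + r + 1 = n := ⟨n - (p + q + 1), by omega, by omega⟩
  have a1 : Shape M (starM q p) := star_swap h (by omega)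
  have a2 : Shape M (starM p r) := star_swap' h hn h2 hr
  have a3 : Shape M (starM q r) := star_swap' a1 (by omega) h1 hr
  have a4 : Shape M (starM r p) := star_swap a2 (by omega)
  have a5 : Shape M (starM r q) := star_swap a3 (by omega)
  rcases le_total p q with b1 | b1 <;> rcases le_total q r with b2 | b2 <;>
    rcases le_total p r with b3 | b3
  · exact star_core hp h hn h1 b1 b2
  · exact star_core hp h hn h1 b1 b2
  · exact star_core (r := q) hp a2 (by omega) h1 b3 b2
  · exact star_core (r := q) hp a4 (by omega) hr b3 b1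
  · exact star_core (r := r) hp a1 (by omega) h2 b1 b3
  · exact star_core (r := p) hp a3 (by omega) h2 b2 b3
  · exact star_core (r := r) hp a1 (by omega) h2 b1 b3
  · exact star_core (r := p) hp a5 (by omega) hr b2 b1

end

end Pool.Agent.P.MP_1a0ecf_al.F
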