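import Pool.Agent.P.MP_1a0ecf_al.F.Face
import Pool.Agent.P.MP_1a0ecf_al.F.CL2
import Pool.Agent.P.MP_1a0ecf_al.F.CL1a

/-! Package CL1: the shape of a connected positive definite Coxeter graph. -/

namespace Pool.Agent.P.MP_1a0ecf_al.F

open Matrix
open scoped Classical

noncomputable section

namespace CL1

variable {n : ℕ} {M : CoxeterMatrix (Fin n)}

theorem ok (h0 : ∀ i j, M i j ≠ 0) (hp : (gram M).PosDef) : Ok M (gram M) := by
  have e : ∀ i j, gram M i j = CL2.cs (M i j) := fun _ _ => rfl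
  refine ⟨hp, h0, fun i j => by rw [e, e, M.symmetric], fun i => by rw [e, M.diagonal, CL2.cs_one],
    fun i j h => ?_, fun i j h => ?_, fun i j h => CL2.cs_four h⟩
  · have := h0 i j
    have := M.off_diagonal i j h
    rw [e, ← CL2.cs_two]
    exact CL2.cs_mono one_le_two (by omega)
  · rw [e, ← CL2.cs_three]
    exact CL2.cs_mono (by norm_num) h

/-- a node outside a short list, joined to the list -/
theorem out (h : Ok M (gram M)) (hc : Conn M) (τ : ℕ → Fin n) {s : ℕ} (hs : s + 1 < n) :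
    ∃ i ≤ s, ∃ v, (∀ j ≤ s, τ j ≠ v) ∧ 3 ≤ M (τ i) v := by
  have h1 : ({v | ∃ j ≤ s, τ j = v}ᶜ : Set (Fin n)).Nonempty := by
    by_contra h2
    have h3 : Function.Surjective fun j : Fin (s + 1) => τ j := fun v => by
      by_contra h4
      exact h2 ⟨v, fun ⟨j, hj, e⟩ => h4 ⟨⟨j, by omega⟩, e⟩⟩
    have := Fintype.card_le_of_surjective _ h3
    simp only [Fintype.card_fin] at this
    omega
  obtain ⟨_, ⟨i, hi, rfl⟩, v, hv, h2⟩ := hc {v | ∃ j ≤ s, τ j = v} ⟨τ 0, 0, s.zero_le, rfl⟩ h1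
  refine ⟨i, hi, v, fun j hj e => hv ⟨j, hj, e⟩, ?_⟩
  by_contra h3
  exact h2 (h.two (fun e => hv ⟨i, hi, e⟩) h3)

/-- a long list gives the shape -/
theorem shape_of_list {f : ℕ → ℕ → ℕ} (τ : ℕ → Fin n) {s : ℕ} (hs : n ≤ s + 1)
    (h1 : ∀ i j, f i j = 1 → i = j) (h : ∀ i ≤ s, ∀ j ≤ s, M (τ i) (τ j) = f i j) :
    n = s + 1 ∧ Shape M f := by
  have inj : ∀ i ≤ s, ∀ j ≤ s, τ i = τ j → i = j := fun i hi j hj e =>
    h1 i j (by rw [← h i hi j hj, e, M.diagonal])
  have h2 : Function.Injective fun j : Fin (s + 1) => τ j := fun i j e =>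
    Fin.ext (inj _ (by omega) _ (by omega) e)
  have h3 := Fintype.card_le_of_injective _ h2
  simp only [Fintype.card_fin] at h3
  have h4 : Function.Injective fun j : Fin n => τ j := fun i j e =>
    Fin.ext (inj _ (by omega) _ (by omega) e)
  exact ⟨by omega, Equiv.ofBijective _ (Finite.injective_iff_bijective.1 h4), fun i j =>
    h _ (by omega) _ (by omega)⟩

theorem path (h : Ok M (gram M)) (hn : 0 < n) (hc : Conn M)
    (nb : ∀ w a b c, 3 ≤ M w a → 3 ≤ M w b → 3 ≤ M w c → a ≠ b → a ≠ c → b ≠ c → False) :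
    ∃ k m, 3 ≤ m ∧ Shape M (pathM k m) := by
  obtain ⟨⟨s, σ⟩, c, hs⟩ := grow (fun x : ℕ × (ℕ → Fin n) => Ch M x.1 x.2) (fun x => x.1 + 1) n
    ⟨(0, fun _ => ⟨0, hn⟩), fun i hi j hj _ => by simp only at hi hj; omega,
      fun i hi => absurd hi (Nat.not_lt_zero i)⟩ (by
      rintro ⟨s, σ⟩ c hs
      simp only at c hs
      obtain ⟨i, hi, v, hv, ha⟩ := out h hc σ hs
      by_cases h1 : i = s
      · exact ⟨(s + 1, _), c.ext hv (h1 ▸ ha), by simp⟩
      rcases i with _ | i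
      · exact ⟨(s + 1, _), c.rev.ext (fun j _ => hv _ (by omega)) (by rwa [Nat.sub_self]), by simp⟩
      · refine (nb (σ (i + 1)) (σ i) (σ (i + 1 + 1)) v ?_ (c.adj _ (by omega)) ha (fun e => ?_)
          (hv _ (by omega)) (hv _ (by omega))).elim
        · rw [M.symmetric]
          exact c.adj i (by omega)
        · have := c.inj _ (by omega) _ (by omega) e
          omega)
  obtain ⟨k, m, hm, hb⟩ := h.one c
  refine ⟨k, m, hm, (shape_of_list σ hs (fun i j e => ?_) (h.val c hb)).2⟩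
  split_ifs at e <;> omega

theorem star (h : Ok M (gram M)) (hc : Conn M) {w a b c : Fin n} (ha : 3 ≤ M w a) (hb : 3 ≤ M w b)
    (hc' : 3 ≤ M w c) (ab : a ≠ b) (ac : a ≠ c) (bc : b ≠ c) :
    ∃ p q, 1 ≤ p ∧ 1 ≤ q ∧ p + q + 1 < n ∧ Shape M (starM p q) := by
  have k1 : ∀ t : Fin 3, 3 ≤ M w (![a, b, c] t) := fun t => by fin_cases t <;> assumption
  have k2 : ∀ t t' : Fin 3, ![a, b, c] t = ![a, b, c] t' → t = t' := fun t t' e => by
    fin_cases t <;> fin_cases t' <;> simp_all [eq_comm]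
  have t0 : St M (fun _ => 1) fun t i => if i = 0 then w else ![a, b, c] t := by
    refine ⟨fun _ => le_rfl, fun _ _ => rfl, fun t => ⟨fun i hi j hj e => ?_, fun i hi => ?_⟩,
      fun t t' ht i hi j hj e => ?_⟩
    · split_ifs at e with h1 h2 h2
      · omega
      · exact absurd e (ne_of_adj (k1 t))
      · exact absurd e.symm (ne_of_adj (k1 t))
      · omega
    · rw [if_pos (by omega), if_neg (by omega)]
      exact k1 t
    · split_ifs at e with h1 h2 h2
      · exact h2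
      · exact absurd e (ne_of_adj (k1 t'))
      · exact h2
      · exact absurd (k2 _ _ e) ht
  obtain ⟨⟨l, ρ⟩, t, hs⟩ := grow (fun x : (Fin 3 → ℕ) × (Fin 3 → ℕ → Fin n) => St M x.1 x.2)
    (fun x => x.1 0 + x.1 1 + x.1 2 + 1) n ⟨(_, _), t0⟩ (by
      rintro ⟨l, ρ⟩ t hs
      simp only at t hs
      obtain ⟨i, hi, v, hv, ha⟩ := out h hc (num l ρ) hs
      obtain ⟨a, k, hk, e⟩ := num_mem (ρ := ρ) hi
      obtain ⟨l', ρ', t', hl⟩ := h.ext t hk (v := v) (fun b j hj => by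
        obtain ⟨i', hi', e'⟩ := t.num_onto b hj
        exact e' ▸ hv i' hi') (e ▸ ha)
      rw [Fin.sum_univ_three, Fin.sum_univ_three] at hl
      exact ⟨(l', ρ'), t', Nat.succ_lt_succ hl⟩)
  simp only at t hs
  have p0 := t.pos 0
  have p1 := t.pos 1
  have p2 := t.pos 2
  obtain ⟨e1, e2⟩ := shape_of_list (M := M) (f := starM (l 0) (l 1)) (num l ρ) hs (fun i j e => by
    unfold starM at e
    split_ifs at e <;> omega) (fun i hi j hj => by
    unfold num
    split_ifs <;>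
    first
    | rw [h.arm t _ _ (by omega) _ (by omega)]; unfold starM; split_ifs <;> omega
    | rw [h.arms t (by decide) _ (by omega) _ (by omega)]; unfold starM; split_ifs <;> omega)
  exact ⟨l 0, l 1, p0, p1, by omega, e2⟩

end CL1

theorem shape {n : ℕ} (M : CoxeterMatrix (Fin n)) (h0 : ∀ i j, M i j ≠ 0) (hp : (gram M).PosDef)
    (hn : 0 < n) (hc : Conn M) : (∃ k m, 3 ≤ m ∧ Shape M (pathM k m)) ∨
      ∃ p q, 1 ≤ p ∧ 1 ≤ q ∧ p + q + 1 < n ∧ Shape M (starM p q) := by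
  by_contra h
  rw [not_or] at h
  exact h.1 (CL1.path (CL1.ok h0 hp) hn hc fun w a b c ha hb hc' ab ac bc =>
    h.2 (CL1.star (CL1.ok h0 hp) hc ha hb hc' ab ac bc))

end

end Pool.Agent.P.MP_1a0ecf_al.F
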