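import Pool.Agent.P.MP_1a0ecf_al.Chr

/-! Finite Coxeter systems with arbitrary bonds and their reflection representation. -/

namespace Pool.Agent.P.MP_1a0ecf_al.F

open Matrix
open scoped Classical

noncomputable section

structure Cox0 where
  n : ℕ
  M : CoxeterMatrix (Fin n)
  W : Type
  [grp : Group W]
  cs : CoxeterSystem M W
  hM : ∀ i j, M i j ≠ 0

attribute [instance] Cox0.grp

structure Cox extends Cox0 where
  [fin : Fintype W]

attribute [instance] Cox.fin

namespace Cox0

variable (X : Cox0)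

abbrev s (i : Fin X.n) : X.W := X.cs.simple i

abbrev len (w : X.W) : ℕ := X.cs.length w

/-- simple roots -/
abbrev al (i : Fin X.n) : Fin X.n → ℝ := Pi.single i 1

/-- Gram matrix of the simple roots -/
def K : Matrix (Fin X.n) (Fin X.n) ℝ := fun i j => -2 * Real.cos (Real.pi / X.M i j)

/-- the invariant form -/
def B (u v : Fin X.n → ℝ) : ℝ := u ⬝ᵥ X.K *ᵥ v

/-- matrix of a simple reflection -/
def sr (i : Fin X.n) : Matrix (Fin X.n) (Fin X.n) ℝ := 1 - vecMulVec (X.al i) (X.K i)

/-- the sign character -/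
def sgn (w : X.W) : ℂ := (-1) ^ X.len w

end Cox0

/-- the set of reflections -/
def Cox.refls (X : Cox) : Finset X.W := Finset.univ.filter X.cs.IsReflection

/-- complex parameters, constant on conjugacy classes of reflections -/
structure Wt (X : Cox) where
  f : X.W → ℂ
  cl : ∀ t w, X.cs.IsReflection t → f (w * t * w⁻¹) = f t

instance (X : Cox) : CoeFun (Wt X) fun _ => X.W → ℂ := ⟨Wt.f⟩

/-- the weighted sum of the reflections -/
def Cox.omA (X : Cox) (κ : X.W → ℂ) : MonoidAlgebra ℂ X.W :=
  ∑ t ∈ X.refls, κ t • MonoidAlgebra.of ℂ X.W t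

/-- eigenvalue of the weighted sum of the reflections -/
def Cox.om (X : Cox) (κ χ : X.W → ℂ) : ℂ := (∑ t ∈ X.refls, κ t * χ t) / χ 1

end

end Pool.Agent.P.MP_1a0ecf_al.F
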