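import Pool.Agent.P.MP_1a0ecf_al.F.HA
import Pool.Agent.P.MP_1a0ecf_al.F.C3

/-! Package Face: types, Jucys-Murphy elements and the working form of the statement: definitions. -/

namespace Pool.Agent.P.MP_1a0ecf_al.F

open Matrix MvPolynomial
open scoped Classical

noncomputable section

/-- a path with one special bond `m` between the nodes `k` and `k + 1` -/
def pathM (k m i j : ℕ) : ℕ :=
  if i = j then 1 else if i + 1 = j ∨ j + 1 = i then (if min i j = k then m else 3) else 2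

/-- type D: the nodes `0` and `1` are joined to the node `2` -/
def dM (i j : ℕ) : ℕ :=
  if i = j then 1 else
    if ((i + 1 = j ∨ j + 1 = i) ∧ min i j ≠ 0) ∨ (min i j = 0 ∧ max i j = 2) then 3 else 2

/-- a star: the path `0, ..., p + q` and a third arm attached to the node `p` -/
def starM (p q i j : ℕ) : ℕ :=
  if i = j then 1 else
    if ((i + 1 = j ∨ j + 1 = i) ∧ min i j ≠ p + q) ∨ (min i j = p ∧ max i j = p + q + 1) then 3
    else 2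

namespace Cox

variable (X : Cox)

/-- the Coxeter matrix is given by `f` -/
def Is (f : ℕ → ℕ → ℕ) : Prop := ∀ i j : Fin X.n, X.M i j = f i j

/-- generators indexed by natural numbers -/
def sN (k : ℕ) : X.W := if h : k < X.n then X.s ⟨k, h⟩ else 1

/-- group elements in the group algebra -/
abbrev gA (w : X.W) : X.GA := MonoidAlgebra.of ℂ X.W w

/-- Jucys-Murphy elements of type A, indices `0, ..., n` -/
def uA (a : ℂ) : ℕ → X.GA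
  | 0 => 0
  | k + 1 => X.gA (X.sN k) * uA a k * X.gA (X.sN k) + a • X.gA (X.sN k)

/-- the sign changes of type B -/
def tB : ℕ → X.W
  | 0 => X.sN 0
  | k + 1 => X.sN (k + 1) * tB k * X.sN (k + 1)

/-- Jucys-Murphy elements of type B, indices `0, ..., n - 1` -/
def uB (a b : ℂ) : ℕ → X.GA
  | 0 => b • X.gA (X.sN 0)
  | k + 1 => X.gA (X.sN (k + 1)) * uB a b k * X.gA (X.sN (k + 1)) +
      a • (X.gA (X.sN (k + 1)) + X.gA (X.tB k * X.sN (k + 1) * X.tB k))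

/-- the reflections in `ε k + ε (k + 1)` of type D -/
def mD : ℕ → X.W
  | 0 => X.sN 0
  | k + 1 => X.sN (k + 1) * X.sN (k + 2) * mD k * X.sN (k + 2) * X.sN (k + 1)

/-- Jucys-Murphy elements of type D, indices `0, ..., n - 1` -/
def uD (a : ℂ) : ℕ → X.GA
  | 0 => 0
  | k + 1 => X.gA (X.sN (k + 1)) * uD a k * X.gA (X.sN (k + 1)) +
      a • (X.gA (X.sN (k + 1)) + X.gA (X.mD k))

variable {X}

/-- the power sums of `u 0, ..., u (N - 1)` have the same eigenvalues -/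
def SameP (u : ℕ → X.GA) (N : ℕ) (χ χ' : X.W → ℂ) : Prop :=
  ∀ j, chx χ (∑ i ∈ Finset.range N, u i ^ j) * χ' 1 = chx χ' (∑ i ∈ Finset.range N, u i ^ j) * χ 1

/-- the diagram automorphism of type D -/
def IsSw (σ : X.W ≃* X.W) : Prop :=
  σ (X.sN 0) = X.sN 1 ∧ σ (X.sN 1) = X.sN 0 ∧ ∀ k, 2 ≤ k → σ (X.sN k) = X.sN k

/-- there is a stable character with the same power sums -/
def Stab (σ : X.W ≃* X.W) (a : ℂ) (χ : X.W → ℂ) : Prop :=
  ∃ χ₀, IsIrr χ₀ ∧ χ₀ ∘ σ = χ₀ ∧ SameP (X.uD a) X.n χ χ₀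

variable (X)

/-- Calogero-Moser families are Lusztig families -/
def Good : Prop :=
  ∀ (L : Fin X.n → ℝ), (∀ i, 0 ≤ L i) → ∀ (κ : Wt X), (∀ i, κ (X.s i) = (L i : ℂ) / 2) →
    ∀ (D : KL X ℝ L) (A : CA X κ) (χ χ' : X.W → ℂ), IsIrr χ → IsIrr χ' →
      (A.rel χ χ' ↔ D.Rel χ χ')

/-- what the Kazhdan-Lusztig side delivers in type A -/
def KLA : Prop := X.Is (pathM 0 3) → ∀ (a : ℝ), 0 < a → ∀ (D : KL X ℝ fun _ => a)
  (χ χ' : X.W → ℂ), IsIrr χ → IsIrr χ' → (D.Rel χ χ' ↔ SameP (X.uA a) (X.n + 1) χ χ')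

/-- in type B -/
def KLB : Prop := X.Is (pathM 0 4) → 2 ≤ X.n → ∀ (a b : ℝ), 0 ≤ a → 0 ≤ b →
  ∀ (D : KL X ℝ fun i => if (i : ℕ) = 0 then b else a) (χ χ' : X.W → ℂ), IsIrr χ → IsIrr χ' →
    (D.Rel χ χ' ↔ SameP (X.uB a b) X.n χ χ')

/-- in type D -/
def KLD : Prop := X.Is dM → 4 ≤ X.n → ∀ σ : X.W ≃* X.W, IsSw σ → ∀ (a : ℝ), 0 < a →
  ∀ (D : KL X ℝ fun _ => a) (χ χ' : X.W → ℂ), IsIrr χ → IsIrr χ' →
    (D.Rel χ χ' ↔ SameP (X.uD a) X.n χ χ' ∧ (χ = χ' ∨ Stab σ a χ)) ∧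
    (Stab σ a χ ∨ (SameP (X.uD a) X.n χ χ' → χ' = χ ∨ χ' = χ ∘ σ))

/-- in the dihedral types -/
def KLI : Prop := ∀ m, 5 ≤ m → X.Is (pathM 0 m) → X.n = 2 → ∀ (L : Fin X.n → ℝ), (∀ i, 0 ≤ L i) →
  ∀ (κ : Wt X), (∀ i, κ (X.s i) = (L i : ℂ) / 2) → ∀ (D : KL X ℝ L) (χ χ' : X.W → ℂ),
    IsIrr χ → IsIrr χ' → (D.Rel χ χ' ↔ X.om κ χ = X.om κ χ')

end Cox

/-- `X` is the product of the parabolic subsystems `Y` and `Y'` -/
structure Prd (Y Y' X : Cox) where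
  P : Par Y.toCox0 X.toCox0
  P' : Par Y'.toCox0 X.toCox0
  cover : ∀ i, (∃ j, P.e j = i) ∨ ∃ j, P'.e j = i
  two : ∀ j j', X.M (P.e j) (P'.e j') = 2

/-- `χ` is the outer product of `ψ` and `ψ'` -/
def Prd.Fac {Y Y' X : Cox} (Q : Prd Y Y' X) (χ : X.W → ℂ) (ψ : Y.W → ℂ) (ψ' : Y'.W → ℂ) : Prop :=
  IsIrr ψ ∧ IsIrr ψ' ∧ ∀ u u', χ (Q.P.ι u * Q.P'.ι u') = ψ u * ψ' u'

/-- the Gram matrix of a Coxeter matrix -/
def gram {n : ℕ} (M : CoxeterMatrix (Fin n)) : Matrix (Fin n) (Fin n) ℝ :=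
  fun i j => -2 * Real.cos (Real.pi / M i j)

/-- connected Coxeter graphs -/
def Conn {n : ℕ} (M : CoxeterMatrix (Fin n)) : Prop :=
  ∀ S : Set (Fin n), S.Nonempty → Sᶜ.Nonempty → ∃ i ∈ S, ∃ j ∉ S, M i j ≠ 2

/-- `M` has the shape `f` after renumbering -/
def Shape {n : ℕ} (M : CoxeterMatrix (Fin n)) (f : ℕ → ℕ → ℕ) : Prop :=
  ∃ e : Equiv.Perm (Fin n), ∀ i j, M (e i) (e j) = f i j

/-- `M` is `M'` after renumbering -/
def Iso {m n : ℕ} (M' : CoxeterMatrix (Fin m)) (M : CoxeterMatrix (Fin n)) : Prop :=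
  ∃ e : Fin m ≃ Fin n, ∀ i j, M' i j = M (e i) (e j)

open CoxeterMatrix in
/-- the list of the connected positive definite Coxeter graphs -/
def Listed {n : ℕ} (M : CoxeterMatrix (Fin n)) : Prop :=
  Shape M (pathM 0 3) ∨ (2 ≤ n ∧ Shape M (pathM 0 4)) ∨ (4 ≤ n ∧ Shape M dM) ∨
    (n = 2 ∧ ∃ m, 5 ≤ m ∧ Shape M (pathM 0 m)) ∨ (n = 4 ∧ Shape M (pathM 1 4)) ∨
    Iso E₆ M ∨ Iso E₇ M ∨ Iso E₈ M ∨ Iso H₃ M ∨ Iso H₄ M

/-- a frame of classical type; `sg = 1` in type A, `sg = -1` in types B and D -/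
structure Fr (X : Cox) where
  N : ℕ
  ε : Fin N → X.Vc
  γ : ℂ
  sg : ℂ
  hsg : sg = 1 ∨ (sg = -1 ∧ γ = 0)
  gram : ∀ i j, X.BK ℂ (ε i) (ε j) = (if i = j then 1 else 0) - γ
  span : ⊤ ≤ Submodule.span ℂ (Set.range ε)
  simple : ∀ k, (∃ i j, i ≠ j ∧ X.eb k = ε i - ε j) ∨ (sg = -1 ∧
    ((∃ i j, i ≠ j ∧ X.eb k = ε i + ε j) ∨ ∃ i, X.eb k = (Real.sqrt 2 : ℂ) • ε i))
  adj : ∀ i j : Fin N, (j : ℕ) = i + 1 → ∃ k, X.eb k = ε j - ε i

namespace Fr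

variable {X : Cox} (F : Fr X)

/-- `w` acts as the signed permutation `(π, η)` -/
def Act (w : X.W) (π : Equiv.Perm (Fin F.N)) (η : Fin F.N → ℂ) : Prop :=
  (∀ i, η i = 1 ∨ η i = F.sg) ∧ ∀ i, X.σK ℂ w *ᵥ F.ε i = η i • F.ε (π i)

/-- the weighted sum of the reflections with root `± v` -/
def rf (_ : Fr X) (κ : X.W → ℂ) (v : X.Vc) : X.GA :=
  ∑ t ∈ X.refls with X.rc t = v ∨ X.rc t = -v, κ t • X.gA t

/-- transpositions -/
def Sp (κ : X.W → ℂ) (i j : Fin F.N) : X.GA := F.rf κ (F.ε i - F.ε j)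

/-- signed transpositions -/
def Sm (κ : X.W → ℂ) (i j : Fin F.N) : X.GA := if F.sg = 1 then 0 else F.rf κ (F.ε i + F.ε j)

/-- sign changes -/
def St (κ : X.W → ℂ) (i : Fin F.N) : X.GA :=
  if F.sg = 1 then 0 else F.rf κ ((Real.sqrt 2 : ℂ) • F.ε i)

/-- Jucys-Murphy elements -/
def u (κ : X.W → ℂ) (i : Fin F.N) : X.GA :=
  ∑ j with j < i, (F.Sp κ i j + F.Sm κ i j) + F.St κ i

/-- Jucys-Murphy elements indexed by natural numbers -/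
def uN (κ : X.W → ℂ) (i : ℕ) : X.GA := if h : i < F.N then F.u κ ⟨i, h⟩ else 0

variable {κ : Wt X} (A : CA X κ)

/-- Dunkl-Opdam elements -/
def z (i : Fin F.N) : A.H := A.x (F.ε i) * A.y (F.ε i) + A.gl (F.u κ i)

/-- normally ordered polynomials -/
def ord : MvPolynomial (Fin F.N ⊕ Fin F.N) ℂ →ₗ[ℂ] A.H :=
  (basisMonomials (Fin F.N ⊕ Fin F.N) ℂ).constr ℂ fun d =>
    A.ex (∏ i, lin ℂ (F.ε i) ^ d (Sum.inl i)) * A.ey (∏ i, lin ℂ (F.ε i) ^ d (Sum.inr i))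

/-- the filtration by the degree -/
def Fil (d : ℕ) : Submodule ℂ A.H :=
  Submodule.span ℂ {h | ∃ f w, f.totalDegree < d ∧ h = F.ord A f * A.g w}

end Fr

/-- polarised power sums -/
def pps (N a b : ℕ) : MvPolynomial (Fin N ⊕ Fin N) ℂ :=
  ∑ i, MvPolynomial.X (Sum.inl i) ^ a * MvPolynomial.X (Sum.inr i) ^ b

/-- the action of a signed permutation on polynomials -/
def sperm {N : ℕ} (π : Equiv.Perm (Fin N)) (η : Fin N → ℂ) :
    MvPolynomial (Fin N ⊕ Fin N) ℂ →ₐ[ℂ] MvPolynomial (Fin N ⊕ Fin N) ℂ :=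
  aeval (Sum.elim (fun i => η i • MvPolynomial.X (Sum.inl (π i)))
    fun i => η i • MvPolynomial.X (Sum.inr (π i)))

namespace CA

variable {X : Cox} {κ : Wt X} (A : CA X κ)

/-- the symmetrising idempotent -/
def e : A.H := (Fintype.card X.W : ℂ)⁻¹ • ∑ w, A.g w

/-- an automorphism of `H` that normalises the generators -/
structure Aut (σ : X.W ≃* X.W) (θ : A.H →ₐ[ℂ] A.H) : Prop where
  inv : ∀ h, θ (θ h) = h
  x : ∀ a, ∃ b, θ (A.x a) = A.x b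
  y : ∀ a, ∃ b, θ (A.y a) = A.y b
  g : ∀ w, θ (A.g w) = A.g (σ w)

end CA

end

end Pool.Agent.P.MP_1a0ecf_al.F
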