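import Pool.Agent.P.MP_1a0ecf_al.F.Face

/-! Package Fr1: frames: signed permutations and commutation relations. -/

namespace Pool.Agent.P.MP_1a0ecf_al.F

open Matrix MvPolynomial
open scoped Classical TensorProduct

noncomputable section

namespace Fr1

variable {X : Cox}

theorem B_add (u u' v : X.Vc) : X.BK ℂ (u + u') v = X.BK ℂ u v + X.BK ℂ u' v := by
  simp [Cox.BK]

theorem B_sub (u u' v : X.Vc) : X.BK ℂ (u - u') v = X.BK ℂ u v - X.BK ℂ u' v := by
  simp [Cox.BK]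

theorem B_smul (c : ℂ) (u v : X.Vc) : X.BK ℂ (c • u) v = c * X.BK ℂ u v := by
  simp [Cox.BK]

theorem B_neg (u v : X.Vc) : X.BK ℂ (-u) v = -X.BK ℂ u v := by
  simp [Cox.BK]

/-- the root of `t` is `v` up to sign -/
abbrev Pm (t : X.W) (v : X.Vc) : Prop := X.rc t = v ∨ X.rc t = -v

theorem refl_act {t : X.W} (h : X.cs.IsReflection t) {v : X.Vc} (hv : Pm t v) (a : X.Vc) :
    X.σK ℂ t *ᵥ a = a - X.BK ℂ v a • v := by
  have e := X.σK_refl ℂ h a
  change _ = a - X.BK ℂ (X.rc t) a • X.rc t at e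
  rcases hv with hv | hv <;> rw [e, hv]
  rw [B_neg, neg_smul_neg]

theorem uniq {t t' : X.W} (h : X.cs.IsReflection t) (h' : X.cs.IsReflection t') {v : X.Vc}
    (hv : Pm t v) (hv' : Pm t' v) : t = t' := by
  refine X.σ_injective (Matrix.mulVec_injective (funext fun a => funext fun i => ?_))
  have e := congrFun ((refl_act h hv (X.vK ℂ a)).trans (refl_act h' hv' (X.vK ℂ a)).symm) i
  rw [X.σK_vK ℂ, X.σK_vK ℂ] at e
  exact (algebraMap ℝ ℂ).injective e

theorem pm_conj {t : X.W} (h : X.cs.IsReflection t) {v : X.Vc} (hv : Pm t v) (w : X.W) :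
    Pm (w * t * w⁻¹) (X.σK ℂ w *ᵥ v) := by
  rcases X.rc_conj h w with e | e <;> rcases hv with hv | hv <;> rw [hv] at e
  · exact Or.inl e
  · exact Or.inr (by rw [e, mulVec_neg])
  · exact Or.inr e
  · exact Or.inl (by rw [e, mulVec_neg, neg_neg])

theorem pm_smul {t : X.W} {v : X.Vc} {η : ℂ} (hη : η = 1 ∨ η = -1) (h : X.rc t = η • v) :
    Pm t v := by
  rcases hη with rfl | rfl
  · exact Or.inl (by rw [h, one_smul])
  · exact Or.inr (by rw [h, neg_smul, one_smul])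

theorem pm_mul {t : X.W} {v : X.Vc} (h : Pm t v) (a b : X.Vc) :
    X.BK ℂ (X.rc t) a * X.BK ℂ (X.rc t) b = X.BK ℂ v a * X.BK ℂ v b := by
  rcases h with h | h <;> rw [h]
  rw [B_neg, B_neg, neg_mul_neg]

theorem rc_s (k : Fin X.n) : X.rc (X.s k) = X.eb k := by
  rw [Cox.rc, X.rt_simple, X.vK_al ℂ]

theorem perm_ind {N : ℕ} (P : Equiv.Perm (Fin N) → Prop) (h1 : P 1)
    (hm : ∀ a b, P a → P b → P (a * b))
    (hs : ∀ i j : Fin N, (j : ℕ) = i + 1 → P (Equiv.swap i j)) (π : Equiv.Perm (Fin N)) :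
    P π := by
  cases N with
  | zero => rwa [Subsingleton.elim π 1]
  | succ n =>
    have h : π ∈ Submonoid.closure
        (Set.range fun i : Fin n => Equiv.swap i.castSucc i.succ) := by
      rw [Equiv.Perm.mclosure_swap_castSucc_succ]
      trivial
    induction h using Submonoid.closure_induction with
    | mem x hx =>
      obtain ⟨i, rfl⟩ := hx
      exact hs _ _ (by simp)
    | one => exact h1
    | mul a b _ _ ha hb => exact hm a b ha hb

theorem sq2 : (Real.sqrt 2 : ℂ) * (Real.sqrt 2 : ℂ) = 2 := by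
  rw [← Complex.ofReal_mul, Real.mul_self_sqrt (by norm_num)]
  norm_num

variable (F : Fr X)

theorem g0 (h : F.sg = -1) : F.γ = 0 := by
  rcases F.hsg with e | e
  · rw [h] at e
    norm_num at e
  · exact e.2

theorem sg_ne (h : F.sg = -1) : F.sg ≠ 1 := by
  rw [h]
  norm_num

theorem sg_eq (h : F.sg ≠ 1) : F.sg = -1 := (F.hsg.resolve_left h).1

theorem Bp (i j k : Fin F.N) : X.BK ℂ (F.ε i - F.ε j) (F.ε k) =
    (if i = k then 1 else 0) - if j = k then 1 else 0 := by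
  rw [B_sub, Fr.gram F, Fr.gram F]
  ring

theorem Bm (h : F.sg = -1) (i j k : Fin F.N) : X.BK ℂ (F.ε i + F.ε j) (F.ε k) =
    (if i = k then 1 else 0) + if j = k then 1 else 0 := by
  rw [B_add, Fr.gram F, Fr.gram F, g0 F h]
  ring

theorem Bt (h : F.sg = -1) (i k : Fin F.N) : X.BK ℂ ((Real.sqrt 2 : ℂ) • F.ε i) (F.ε k) =
    if i = k then (Real.sqrt 2 : ℂ) else 0 := by
  rw [B_smul, Fr.gram F, g0 F h]
  split_ifs <;> ring

variable {F}

theorem actP {t : X.W} (h : X.cs.IsReflection t) {i j : Fin F.N} (hij : i ≠ j)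
    (hv : Pm t (F.ε i - F.ε j)) (k : Fin F.N) :
    X.σK ℂ t *ᵥ F.ε k = (1 : ℂ) • F.ε (Equiv.swap i j k) := by
  rw [refl_act h hv, Bp, one_smul]
  by_cases h1 : i = k
  · subst h1
    simp [hij.symm]
  · by_cases h2 : j = k
    · subst h2
      simp [hij]
    · simp [h1, h2, Equiv.swap_apply_of_ne_of_ne (Ne.symm h1) (Ne.symm h2)]

theorem actN (hs : F.sg = -1) {t : X.W} (h : X.cs.IsReflection t) {i j : Fin F.N} (hij : i ≠ j)
    (hv : Pm t (F.ε i + F.ε j)) (k : Fin F.N) :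
    X.σK ℂ t *ᵥ F.ε k = (if k = i ∨ k = j then -1 else 1 : ℂ) • F.ε (Equiv.swap i j k) := by
  rw [refl_act h hv, Bm F hs]
  by_cases h1 : i = k
  · subst h1
    simp [hij.symm]
  · by_cases h2 : j = k
    · subst h2
      simp [hij]
    · simp [h1, h2, Ne.symm h1, Ne.symm h2,
        Equiv.swap_apply_of_ne_of_ne (Ne.symm h1) (Ne.symm h2)]

theorem actT (hs : F.sg = -1) {t : X.W} (h : X.cs.IsReflection t) {i : Fin F.N}
    (hv : Pm t ((Real.sqrt 2 : ℂ) • F.ε i)) (k : Fin F.N) :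
    X.σK ℂ t *ᵥ F.ε k = (if k = i then -1 else 1 : ℂ) • F.ε k := by
  rw [refl_act h hv, Bt F hs]
  by_cases h1 : i = k
  · subst h1
    rw [if_pos rfl, if_pos rfl, smul_smul, sq2]
    module
  · simp [h1, Ne.symm h1]

theorem act_one : F.Act 1 1 fun _ => 1 :=
  ⟨fun _ => Or.inl rfl, fun i => by simp⟩

theorem act_mul {w w' : X.W} {π π' : Equiv.Perm (Fin F.N)} {η η' : Fin F.N → ℂ}
    (h : F.Act w π η) (h' : F.Act w' π' η') :
    F.Act (w * w') (π * π') fun i => η' i * η (π' i) := by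
  refine ⟨fun i => ?_, fun i => ?_⟩
  · have hs : F.sg * F.sg = 1 := by
      rcases F.hsg with e | e
      · rw [e, one_mul]
      · rw [e.1, neg_mul_neg, one_mul]
    rcases h'.1 i with e | e <;> rcases h.1 (π' i) with e' | e' <;> simp [e, e', hs]
  · rw [X.c1_mul, h'.2, mulVec_smul, h.2, smul_smul, Equiv.Perm.mul_apply]

theorem eta {w : X.W} {π : Equiv.Perm (Fin F.N)} {η : Fin F.N → ℂ} (h : F.Act w π η)
    (i : Fin F.N) : η i = 1 ∨ (F.sg = -1 ∧ η i = -1) := by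
  rcases h.1 i with e | e
  · exact Or.inl e
  · rcases F.hsg with e' | e'
    · exact Or.inl (e.trans e')
    · exact Or.inr ⟨e'.1, e.trans e'.1⟩

end Fr1

open Fr1

namespace Fr

variable {X : Cox} (F : Fr X)

theorem exists_act (w : X.W) : ∃ π η, F.Act w π η := by
  induction w using X.cs.simple_induction with
  | simple k =>
    have hr : X.cs.IsReflection (X.s k) := X.cs.isReflection_simple k
    rcases F.simple k with ⟨i, j, hij, e⟩ | ⟨hs, ⟨i, j, hij, e⟩ | ⟨i, e⟩⟩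
    · exact ⟨_, fun _ => 1, fun _ => Or.inl rfl, actP hr hij (Or.inl ((rc_s k).trans e))⟩
    · refine ⟨_, _, fun l => ?_, actN hs hr hij (Or.inl ((rc_s k).trans e))⟩
      split_ifs
      · exact Or.inr hs.symm
      · exact Or.inl rfl
    · refine ⟨1, _, fun l => ?_, actT hs hr (Or.inl ((rc_s k).trans e))⟩
      split_ifs
      · exact Or.inr hs.symm
      · exact Or.inl rfl
  | one => exact ⟨_, _, act_one⟩
  | mul w w' h h' =>
    obtain ⟨π, η, h⟩ := h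
    obtain ⟨π', η', h'⟩ := h'
    exact ⟨_, _, act_mul h h'⟩

theorem exists_perm (π : Equiv.Perm (Fin F.N)) : ∃ w, F.Act w π fun _ => 1 := by
  induction π using perm_ind with
  | h1 => exact ⟨1, act_one⟩
  | hm a b ha hb =>
    obtain ⟨w, h⟩ := ha
    obtain ⟨w', h'⟩ := hb
    exact ⟨w * w', by simpa using act_mul h h'⟩
  | hs i j hij =>
    obtain ⟨k, e⟩ := F.adj i j hij
    refine ⟨X.s k, fun _ => Or.inl rfl, actP (X.cs.isReflection_simple k) ?_
      (Or.inr (by rw [rc_s, e, neg_sub]))⟩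
    rintro rfl
    omega

/-- the roots -/
theorem root {t : X.W} (h : X.cs.IsReflection t) : (∃ i j, i ≠ j ∧ X.rc t = F.ε i - F.ε j) ∨
    (F.sg = -1 ∧ ∃ η : ℂ, (η = 1 ∨ η = -1) ∧ ((∃ i j, i ≠ j ∧ X.rc t = η • (F.ε i + F.ε j)) ∨
      ∃ i, X.rc t = η • ((Real.sqrt 2 : ℂ) • F.ε i))) := by
  obtain ⟨-, w, k, -, e⟩ := X.rt_spec h
  have e' : X.rc t = X.σK ℂ w *ᵥ X.eb k := by rw [Cox.rc, e, ← X.σK_vK ℂ, X.vK_al ℂ]
  obtain ⟨π, η, ha⟩ := F.exists_act w
  rcases F.simple k with ⟨i, j, hij, e⟩ | ⟨hs, ⟨i, j, hij, e⟩ | ⟨i, e⟩⟩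
  · have hn := π.injective.ne hij
    rw [e, mulVec_sub, ha.2, ha.2] at e'
    rcases eta ha i with h1 | ⟨hs, h1⟩ <;> rcases eta ha j with h2 | ⟨hs, h2⟩ <;>
      rw [h1, h2] at e'
    · exact Or.inl ⟨_, _, hn, by rw [e']; module⟩
    · exact Or.inr ⟨hs, 1, Or.inl rfl, Or.inl ⟨_, _, hn, by rw [e']; module⟩⟩
    · exact Or.inr ⟨hs, -1, Or.inr rfl, Or.inl ⟨_, _, hn, by rw [e']; module⟩⟩
    · exact Or.inl ⟨_, _, hn.symm, by rw [e']; module⟩
  · have hn := π.injective.ne hij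
    rw [e, mulVec_add, ha.2, ha.2] at e'
    rcases eta ha i with h1 | ⟨-, h1⟩ <;> rcases eta ha j with h2 | ⟨-, h2⟩ <;>
      rw [h1, h2] at e'
    · exact Or.inr ⟨hs, 1, Or.inl rfl, Or.inl ⟨_, _, hn, by rw [e']; module⟩⟩
    · exact Or.inl ⟨_, _, hn, by rw [e']; module⟩
    · exact Or.inl ⟨_, _, hn.symm, by rw [e']; module⟩
    · exact Or.inr ⟨hs, -1, Or.inr rfl, Or.inl ⟨_, _, hn, by rw [e']; module⟩⟩
  · rw [e, mulVec_smul, ha.2, smul_comm] at e'
    exact Or.inr ⟨hs, η i, (eta ha i).imp_right fun h => h.2, Or.inr ⟨_, e'⟩⟩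

theorem rf_eq (κ : X.W → ℂ) {t : X.W} (h : X.cs.IsReflection t) {v : X.Vc}
    (hv : X.rc t = v ∨ X.rc t = -v) : F.rf κ v = κ t • X.gA t := by
  refine Finset.sum_eq_single_of_mem t (Finset.mem_filter.2 ⟨X.mem_refls.2 h, hv⟩)
    fun t' ht' hn => absurd ?_ hn
  rw [Finset.mem_filter, X.mem_refls] at ht'
  exact uniq ht'.1 h ht'.2 hv

theorem rf_neg (κ : X.W → ℂ) (v : X.Vc) : F.rf κ (-v) = F.rf κ v := by
  simp only [rf, neg_neg, or_comm]

theorem rf_conj (κ : Wt X) (w : X.W) (v : X.Vc) :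
    X.gA w * F.rf κ v = F.rf κ (X.σK ℂ w *ᵥ v) * X.gA w := by
  rw [rf, rf, Finset.mul_sum, Finset.sum_mul]
  refine Finset.sum_nbij' (fun t => w * t * w⁻¹) (fun t => w⁻¹ * t * w⁻¹⁻¹) (fun t ht => ?_)
    (fun t ht => ?_) (fun t _ => by group) (fun t _ => by group) fun t ht => ?_
  · rw [Finset.mem_filter, X.mem_refls] at ht ⊢
    exact ⟨ht.1.conj w, pm_conj ht.1 ht.2 w⟩
  · rw [Finset.mem_filter, X.mem_refls] at ht ⊢
    have := pm_conj ht.1 ht.2 w⁻¹
    rw [← X.c1_mul, inv_mul_cancel, map_one, one_mulVec] at this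
    exact ⟨ht.1.conj w⁻¹, this⟩
  · rw [Finset.mem_filter, X.mem_refls] at ht
    rw [κ.cl t w ht.1, mul_smul_comm, smul_mul_assoc, ← map_mul, ← map_mul,
      inv_mul_cancel_right]

theorem Sp_symm (κ : X.W → ℂ) (i j : Fin F.N) : F.Sp κ i j = F.Sp κ j i := by
  rw [Sp, Sp, ← F.rf_neg, neg_sub]

theorem Sm_symm (κ : X.W → ℂ) (i j : Fin F.N) : F.Sm κ i j = F.Sm κ j i := by
  rw [Sm, Sm, add_comm]

theorem conj_S (κ : Wt X) {w : X.W} {π : Equiv.Perm (Fin F.N)} {η : Fin F.N → ℂ}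
    (h : F.Act w π η) (i j : Fin F.N) : X.gA w * (F.Sp κ i j + F.Sm κ i j) =
      (F.Sp κ (π i) (π j) + F.Sm κ (π i) (π j)) * X.gA w := by
  have n1 : ∀ a b : X.Vc, (-1 : ℂ) • a - (1 : ℂ) • b = -(a + b) := fun a b => by module
  have n2 : ∀ a b : X.Vc, (-1 : ℂ) • a + (1 : ℂ) • b = -(a - b) := fun a b => by module
  have n3 : ∀ a b : X.Vc, (-1 : ℂ) • a - (-1 : ℂ) • b = -(a - b) := fun a b => by module
  have n4 : ∀ a b : X.Vc, (-1 : ℂ) • a + (-1 : ℂ) • b = -(a + b) := fun a b => by module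
  have n5 : ∀ a b : X.Vc, (1 : ℂ) • a - (-1 : ℂ) • b = a + b := fun a b => by module
  have n6 : ∀ a b : X.Vc, (1 : ℂ) • a + (-1 : ℂ) • b = a - b := fun a b => by module
  by_cases hs : F.sg = 1
  · have h1 : ∀ k, η k = 1 := fun k => (h.1 k).elim id fun e => e.trans hs
    rw [Sm, Sm, if_pos hs, if_pos hs, add_zero, add_zero, Sp, Sp, rf_conj, mulVec_sub, h.2, h.2,
      h1, h1, one_smul, one_smul]
  · rw [Sm, Sm, if_neg hs, if_neg hs, Sp, Sp, mul_add, rf_conj, rf_conj, mulVec_sub, mulVec_add,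
      h.2, h.2, ← add_mul]
    rcases eta h i with h1 | ⟨-, h1⟩ <;> rcases eta h j with h2 | ⟨-, h2⟩ <;> rw [h1, h2]
    · rw [one_smul, one_smul]
    · rw [n5, n6, add_comm]
    · rw [n1, n2, rf_neg, rf_neg, add_comm]
    · rw [n3, n4, rf_neg, rf_neg]

theorem conj_St (κ : Wt X) {w : X.W} {π : Equiv.Perm (Fin F.N)} {η : Fin F.N → ℂ}
    (h : F.Act w π η) (i : Fin F.N) : X.gA w * F.St κ i = F.St κ (π i) * X.gA w := by
  rw [St, St]
  split_ifs with hs
  · rw [mul_zero, zero_mul]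
  · rw [rf_conj, mulVec_smul, h.2, smul_comm]
    rcases eta h i with h1 | ⟨-, h1⟩ <;> rw [h1]
    · rw [one_smul]
    · rw [neg_smul, one_smul, rf_neg]

/-- the recursion for the Jucys-Murphy elements -/
theorem u_succ (κ : Wt X) {w : X.W} {i j : Fin F.N} (hij : (j : ℕ) = i + 1)
    {η : Fin F.N → ℂ} (h : F.Act w (Equiv.swap i j) η) :
    F.u κ j * X.gA w = X.gA w * F.u κ i + (F.Sp κ j i + F.Sm κ j i) * X.gA w := by
  have e : (Finset.univ.filter fun k => k < j) = insert i (Finset.univ.filter fun k => k < i) := by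
    ext k
    simp only [Finset.mem_filter, Finset.mem_univ, true_and, Finset.mem_insert, Fin.lt_def,
      Fin.ext_iff]
    omega
  have e' : ∑ k with k < i, X.gA w * (F.Sp κ i k + F.Sm κ i k) =
      (∑ k with k < i, (F.Sp κ j k + F.Sm κ j k)) * X.gA w := by
    rw [Finset.sum_mul]
    refine Finset.sum_congr rfl fun k hk => ?_
    have hk' : (k : ℕ) < i := (Finset.mem_filter.1 hk).2
    rw [F.conj_S κ h, Equiv.swap_apply_left, Equiv.swap_apply_of_ne_of_ne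
      (fun e => by rw [e] at hk'; omega) fun e => by rw [e] at hk'; omega]
  rw [u, u, e, Finset.sum_insert (by simp), mul_add, Finset.mul_sum, e', F.conj_St κ h,
    Equiv.swap_apply_left, add_mul, add_mul]
  abel

/-- indicator of the root -/
def ind (_ : Fr X) (t : X.W) (v : X.Vc) : ℂ := if Pm t v then 1 else 0

/-- the same, for the roots of types B and D -/
def ind' (t : X.W) (v : X.Vc) : ℂ := if F.sg = 1 then 0 else F.ind t v

theorem beta0 {t : X.W} (ht : X.cs.IsReflection t) {i j : Fin F.N} (h : i ≠ j)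
    (hn : X.BK ℂ (X.rc t) (F.ε i) * X.BK ℂ (X.rc t) (F.ε j) ≠ 0) :
    Pm t (F.ε i - F.ε j) ∨ (F.sg = -1 ∧ Pm t (F.ε i + F.ε j)) := by
  have key : ∀ a b : Fin F.N, ∀ c : ℂ, ∀ k, (if a = k then 1 else 0) + c *
      (if b = k then 1 else 0) ≠ 0 → a = k ∨ b = k := fun a b c k hk => by
    by_contra hc
    push Not at hc
    simp [hc.1, hc.2] at hk
  rcases F.root ht with ⟨a, b, -, e⟩ | ⟨hs, η, hη, ⟨a, b, -, e⟩ | ⟨a, e⟩⟩
  · rw [e, Bp, Bp, mul_ne_zero_iff] at hn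
    rcases key a b (-1) i (by rw [neg_one_mul]; exact hn.1) with h1 | h1 <;>
      rcases key a b (-1) j (by rw [neg_one_mul]; exact hn.2) with h2 | h2
    · exact absurd (h1.symm.trans h2) h
    · exact Or.inl (Or.inl (by rw [e, h1, h2]))
    · exact Or.inl (Or.inr (by rw [e, h1, h2, neg_sub]))
    · exact absurd (h1.symm.trans h2) h
  · have hp := pm_smul hη e
    rw [pm_mul hp, Bm F hs, Bm F hs, mul_ne_zero_iff] at hn
    rcases key a b 1 i (by simpa using hn.1) with h1 | h1 <;>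
      rcases key a b 1 j (by simpa using hn.2) with h2 | h2
    · exact absurd (h1.symm.trans h2) h
    · exact Or.inr ⟨hs, by rwa [← h1, ← h2]⟩
    · exact Or.inr ⟨hs, by rwa [← h1, ← h2, add_comm]⟩
    · exact absurd (h1.symm.trans h2) h
  · rw [pm_mul (pm_smul hη e), Bt F hs, Bt F hs, mul_ne_zero_iff] at hn
    exact absurd ((by_contra fun h1 => hn.1 (if_neg h1) : a = i).symm.trans
      (by_contra fun h1 => hn.2 (if_neg h1))) h

theorem beta {t : X.W} (ht : X.cs.IsReflection t) {i j : Fin F.N} (h : i ≠ j) :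
    X.BK ℂ (X.rc t) (F.ε i) * X.BK ℂ (X.rc t) (F.ε j) =
      F.ind' t (F.ε i + F.ε j) - F.ind t (F.ε i - F.ε j) ∧
    F.ind t (F.ε i - F.ε j) + F.ind' t (F.ε i + F.ε j) =
      X.BK ℂ (X.rc t) (F.ε i) ^ 2 * X.BK ℂ (X.rc t) (F.ε j) ^ 2 := by
  have h1 : Pm t (F.ε i - F.ε j) →
      X.BK ℂ (X.rc t) (F.ε i) * X.BK ℂ (X.rc t) (F.ε j) = -1 := fun hp => by
    rw [pm_mul hp, Bp, Bp]
    simp [h, h.symm]
  have h2 : F.sg ≠ 1 → Pm t (F.ε i + F.ε j) →
      X.BK ℂ (X.rc t) (F.ε i) * X.BK ℂ (X.rc t) (F.ε j) = 1 := fun hs hp => by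
    rw [pm_mul hp, Bm F (sg_eq F hs), Bm F (sg_eq F hs)]
    simp [h, h.symm]
  rw [← mul_pow]
  by_cases a : Pm t (F.ε i - F.ε j)
  · have b : F.ind' t (F.ε i + F.ε j) = 0 := by
      unfold ind' ind
      split_ifs with hs hp
      · rfl
      · have := (h1 a).symm.trans (h2 hs hp)
        norm_num at this
      · rfl
    rw [b, h1 a, ind, if_pos a]
    norm_num
  · rw [ind, if_neg a]
    by_cases b : F.sg ≠ 1 ∧ Pm t (F.ε i + F.ε j)
    · rw [h2 b.1 b.2, ind', if_neg b.1, ind, if_pos b.2]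
      norm_num
    · have c : F.ind' t (F.ε i + F.ε j) = 0 := by
        unfold ind' ind
        split_ifs with hs hp
        · rfl
        · exact absurd ⟨hs, hp⟩ b
        · rfl
      have d : X.BK ℂ (X.rc t) (F.ε i) * X.BK ℂ (X.rc t) (F.ε j) = 0 := by
        by_contra hn
        rcases F.beta0 ht h hn with e | e
        · exact a e
        · exact b ⟨sg_ne F e.1, e.2⟩
      rw [c, d]
      norm_num

theorem beta2 {t : X.W} (ht : X.cs.IsReflection t) (i : Fin F.N) :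
    X.BK ℂ (X.rc t) (F.ε i) * X.BK ℂ (X.rc t) (F.ε i) =
      ∑ j with j ≠ i, (F.ind t (F.ε i - F.ε j) + F.ind' t (F.ε i + F.ε j)) +
        2 * F.ind' t ((Real.sqrt 2 : ℂ) • F.ε i) := by
  rw [Finset.sum_congr rfl fun j hj => (F.beta ht (Finset.mem_filter.1 hj).2.symm).2,
    ← Finset.mul_sum, Finset.filter_ne', Finset.sum_erase_eq_sub (Finset.mem_univ i), ← sq]
  have h0 : X.BK ℂ (X.rc t) (F.ε i) ^ 2 ≠ 2 → F.ind' t ((Real.sqrt 2 : ℂ) • F.ε i) = 0 := by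
    intro hn
    unfold ind' ind
    split_ifs with hs hp
    · rfl
    · exact absurd (by rw [sq, pm_mul hp, Bt F (sg_eq F hs), if_pos rfl, sq2]) hn
    · rfl
  have key : ∀ a b : Fin F.N, a ≠ b → (∀ k, X.BK ℂ (X.rc t) (F.ε k) ^ 2 =
      (if a = k then 1 else 0) + if b = k then 1 else 0) → X.BK ℂ (X.rc t) (F.ε i) ^ 2 =
      X.BK ℂ (X.rc t) (F.ε i) ^ 2 * (∑ k, X.BK ℂ (X.rc t) (F.ε k) ^ 2 -
        X.BK ℂ (X.rc t) (F.ε i) ^ 2) + 2 * F.ind' t ((Real.sqrt 2 : ℂ) • F.ε i) := by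
    intro a b hab hk
    have e : ∑ k, X.BK ℂ (X.rc t) (F.ε k) ^ 2 = 2 := by
      simp only [hk, Finset.sum_add_distrib, Finset.sum_ite_eq, Finset.mem_univ, if_true]
      norm_num
    have e' : X.BK ℂ (X.rc t) (F.ε i) ^ 2 = 0 ∨ X.BK ℂ (X.rc t) (F.ε i) ^ 2 = 1 := by
      rw [hk]
      split_ifs with h1 h2
      · exact absurd (h1.trans h2.symm) hab
      all_goals simp
    rcases e' with e' | e' <;> rw [h0 (by rw [e']; norm_num), e, e'] <;> norm_num
  rcases F.root ht with ⟨a, b, hab, e⟩ | ⟨hs, η, hη, ⟨a, b, hab, e⟩ | ⟨a, e⟩⟩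
  · refine key a b hab fun k => ?_
    rw [e, Bp]
    split_ifs with h1 h2
    · exact absurd (h1.trans h2.symm) hab
    all_goals norm_num
  · refine key a b hab fun k => ?_
    rw [sq, pm_mul (pm_smul hη e), Bm F hs]
    split_ifs with h1 h2
    · exact absurd (h1.trans h2.symm) hab
    all_goals norm_num
  · have hp := pm_smul hη e
    have hk : ∀ k, X.BK ℂ (X.rc t) (F.ε k) ^ 2 = if a = k then 2 else 0 := fun k => by
      rw [sq, pm_mul hp, Bt F hs]
      split_ifs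
      · exact sq2
      · exact zero_mul _
    by_cases hi : a = i
    · subst hi
      simp only [hk, Finset.sum_ite_eq, Finset.mem_univ, if_true]
      rw [ind', if_neg (sg_ne F hs), ind, if_pos hp]
      norm_num
    · rw [h0 (by rw [hk, if_neg hi]; norm_num), hk i, if_neg hi]
      norm_num

variable {κ : Wt X} (A : CA X κ)

theorem gl_rf (v : X.Vc) : A.gl (F.rf κ v) = ∑ t ∈ X.refls, (κ t * F.ind t v) • A.g t := by
  rw [rf, map_sum, Finset.sum_filter]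
  refine Finset.sum_congr rfl fun t _ => ?_
  rw [ind, map_smul, A.gl_of]
  split_ifs <;> simp

theorem gl_ite (v : X.Vc) : A.gl (if F.sg = 1 then 0 else F.rf κ v) =
    ∑ t ∈ X.refls, (κ t * F.ind' t v) • A.g t := by
  unfold ind'
  split_ifs
  · simp
  · exact F.gl_rf A v

theorem gl_Sm (i j : Fin F.N) : A.gl (F.Sm κ i j) =
    ∑ t ∈ X.refls, (κ t * F.ind' t (F.ε i + F.ε j)) • A.g t := F.gl_ite A _

theorem gl_St (i : Fin F.N) : A.gl (F.St κ i) =
    ∑ t ∈ X.refls, (κ t * F.ind' t ((Real.sqrt 2 : ℂ) • F.ε i)) • A.g t := F.gl_ite A _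

theorem rf_mul {v : X.Vc →ₗ[ℂ] A.H} (hv : ∀ w a, A.g w * v a = v (X.σK ℂ w *ᵥ a) * A.g w)
    {r a a' : X.Vc} {c : ℂ}
    (h : ∀ t, X.cs.IsReflection t → Pm t r → X.σK ℂ t *ᵥ a = c • a') :
    A.gl (F.rf κ r) * v a = c • (v a' * A.gl (F.rf κ r)) := by
  rw [rf, map_sum, Finset.sum_mul, Finset.mul_sum, Finset.smul_sum]
  refine Finset.sum_congr rfl fun t ht => ?_
  rw [Finset.mem_filter, X.mem_refls] at ht
  rw [map_smul, A.gl_of, smul_mul_assoc, hv, h t ht.1 ht.2, map_smul, smul_mul_assoc,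
    mul_smul_comm, smul_comm]

theorem yx_ne {i j : Fin F.N} (h : i ≠ j) : A.y (F.ε i) * A.x (F.ε j) - A.x (F.ε j) * A.y (F.ε i) =
    A.gl (F.Sm κ i j) - A.gl (F.Sp κ i j) := by
  rw [A.rels.yx, Sp, gl_rf, gl_Sm, ← Finset.sum_sub_distrib]
  refine Finset.sum_congr rfl fun t ht => ?_
  rw [← sub_smul, ← mul_sub, mul_assoc, (F.beta (X.mem_refls.1 ht) h).1]

theorem yx_eq (i : Fin F.N) : A.y (F.ε i) * A.x (F.ε i) - A.x (F.ε i) * A.y (F.ε i) =
    A.gl (∑ j with j ≠ i, (F.Sp κ i j + F.Sm κ i j) + (2 : ℂ) • F.St κ i) := by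
  rw [A.rels.yx, map_add, map_smul, map_sum, gl_St, Finset.smul_sum]
  simp only [map_add, Sp, gl_rf, gl_Sm, ← Finset.sum_add_distrib]
  rw [Finset.sum_comm, ← Finset.sum_add_distrib]
  refine Finset.sum_congr rfl fun t ht => ?_
  simp only [← add_smul, ← mul_add, ← Finset.sum_smul, ← Finset.mul_sum, smul_smul]
  rw [mul_assoc, F.beta2 (X.mem_refls.1 ht) i]
  congr 1
  ring

/-- `v` is `A.x` or `A.y` -/
theorem Sp_mul {v : X.Vc →ₗ[ℂ] A.H} (hv : ∀ w a, A.g w * v a = v (X.σK ℂ w *ᵥ a) * A.g w)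
    {i j : Fin F.N} (h : i ≠ j) (k : Fin F.N) :
    A.gl (F.Sp κ i j) * v (F.ε k) = v (F.ε (Equiv.swap i j k)) * A.gl (F.Sp κ i j) := by
  rw [Sp, F.rf_mul A hv fun t ht hp => actP ht h hp k, one_smul]

theorem Sm_mul {v : X.Vc →ₗ[ℂ] A.H} (hv : ∀ w a, A.g w * v a = v (X.σK ℂ w *ᵥ a) * A.g w)
    {i j : Fin F.N} (h : i ≠ j) (k : Fin F.N) :
    A.gl (F.Sm κ i j) * v (F.ε k) = (if k = i ∨ k = j then -1 else 1 : ℂ) •
      (v (F.ε (Equiv.swap i j k)) * A.gl (F.Sm κ i j)) := by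
  by_cases hs : F.sg = 1
  · simp [Sm, hs]
  · rw [Sm, if_neg hs]
    exact F.rf_mul A hv fun t ht hp => actN (sg_eq F hs) ht h hp k

theorem St_mul {v : X.Vc →ₗ[ℂ] A.H} (hv : ∀ w a, A.g w * v a = v (X.σK ℂ w *ᵥ a) * A.g w)
    (i k : Fin F.N) : A.gl (F.St κ i) * v (F.ε k) = (if k = i then -1 else 1 : ℂ) •
      (v (F.ε k) * A.gl (F.St κ i)) := by
  by_cases hs : F.sg = 1
  · simp [St, hs]
  · rw [St, if_neg hs]
    exact F.rf_mul A hv fun t ht hp => actT (sg_eq F hs) ht hp k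

end Fr

end

end Pool.Agent.P.MP_1a0ecf_al.F
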