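import Pool.Agent.P.MP_1a0ecf_al.F.Fr1

/-! Package Fr2: Dunkl-Opdam elements. -/

namespace Pool.Agent.P.MP_1a0ecf_al.F

open Matrix MvPolynomial
open scoped Classical TensorProduct

noncomputable section

theorem f2_newton {R : Type} [Ring R] {a b h : R} (hab : a * b = b * a) (h1 : Commute h (a + b))
    (h2 : Commute h (a * b)) (k : ℕ) : Commute h (a ^ k + b ^ k) := by
  induction k using Nat.twoStepInduction with
  | zero => simp
  | one => simpa using h1
  | more k i1 i2 =>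
    have e : a ^ (k + 2) + b ^ (k + 2) =
        (a + b) * (a ^ (k + 1) + b ^ (k + 1)) - a * b * (a ^ k + b ^ k) := by
      have e1 : b * a ^ (k + 1) = a * b * a ^ k := by rw [pow_succ', ← mul_assoc, hab]
      have e2 : a * b ^ (k + 1) = a * b * b ^ k := by rw [pow_succ', ← mul_assoc]
      rw [add_mul, mul_add, mul_add, mul_add, e1, e2, ← pow_succ', ← pow_succ']
      abel
    rw [e]
    exact (h1.mul_right i2).sub_right (h2.mul_right i1)

theorem f2_adj {N : ℕ} {Q : Equiv.Perm (Fin N) → Prop} (h1 : Q 1)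
    (hs : ∀ (i j : Fin N) π, (j : ℕ) = i + 1 → Q π → Q (Equiv.swap i j * π)) (π : Equiv.Perm (Fin N)) :
    Q π := by
  cases N with
  | zero => rwa [Subsingleton.elim π 1]
  | succ n =>
    have hπ : π ∈ Submonoid.closure
        (Set.range fun i : Fin n => Equiv.swap i.castSucc i.succ) := by
      rw [Equiv.Perm.mclosure_swap_castSucc_succ]
      trivial
    induction hπ using Submonoid.closure_induction_left with
    | one => exact h1
    | mul_left x hx y _ ih =>
      obtain ⟨i, rfl⟩ := hx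
      exact hs _ _ _ (by simp) ih

theorem f2_pow {R : Type} [Ring R] {a b h : R} (e : h * a = b * h) (k : ℕ) :
    h * a ^ k = b ^ k * h := SemiconjBy.pow_right e k

namespace Fr

variable {X : Cox} (F : Fr X) {κ : Wt X} (A : CA X κ)

theorem f2_refl {t : X.W} (h : X.cs.IsReflection t) {v : X.Vc} (hv : X.rc t = v ∨ X.rc t = -v)
    (a : X.Vc) : X.σK ℂ t *ᵥ a = a - X.BK ℂ v a • v := by
  have e := X.σK_refl ℂ h a
  rcases hv with hv | hv
  · rw [e, ← hv]
  · rw [e, show X.vK ℂ (X.rt t) = -v from hv]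
    simp [Cox.BK]

theorem f2_act_p {t : X.W} (h : X.cs.IsReflection t) {i j : Fin F.N} (hij : i ≠ j)
    (hv : X.rc t = F.ε i - F.ε j ∨ X.rc t = -(F.ε i - F.ε j)) :
    F.Act t (Equiv.swap i j) fun _ => 1 := by
  refine ⟨fun _ => Or.inl rfl, fun k => ?_⟩
  have e : X.BK ℂ (F.ε i - F.ε j) (F.ε k) = X.BK ℂ (F.ε i) (F.ε k) - X.BK ℂ (F.ε j) (F.ε k) := by
    simp [Cox.BK]
  rw [f2_refl h hv, e, Fr.gram, Fr.gram]
  by_cases h1 : k = i
  · subst h1
    simp [hij.symm]
  · by_cases h2 : k = j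
    · subst h2
      rw [if_neg hij, if_pos rfl, Equiv.swap_apply_right]
      module
    · simp [Equiv.swap_apply_of_ne_of_ne h1 h2, Ne.symm h1, Ne.symm h2]

theorem f2_sg (h : F.sg ≠ 1) : F.sg = -1 ∧ F.γ = 0 := F.hsg.resolve_left h

theorem f2_act_m (hs : F.sg ≠ 1) {t : X.W} (h : X.cs.IsReflection t) {i j : Fin F.N} (hij : i ≠ j)
    (hv : X.rc t = F.ε i + F.ε j ∨ X.rc t = -(F.ε i + F.ε j)) :
    F.Act t (Equiv.swap i j) fun k => if k = i ∨ k = j then -1 else 1 := by
  obtain ⟨h3, h4⟩ := F.f2_sg hs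
  refine ⟨fun k => ?_, fun k => ?_⟩
  · by_cases hk : k = i ∨ k = j <;> simp [hk, h3]
  have e : X.BK ℂ (F.ε i + F.ε j) (F.ε k) = X.BK ℂ (F.ε i) (F.ε k) + X.BK ℂ (F.ε j) (F.ε k) := by
    simp [Cox.BK]
  rw [f2_refl h hv, e, Fr.gram, Fr.gram, h4]
  by_cases h1 : k = i
  · subst h1
    simp [hij.symm]
  · by_cases h2 : k = j
    · subst h2
      simp [hij]
    · simp [Equiv.swap_apply_of_ne_of_ne h1 h2, Ne.symm h1, Ne.symm h2, h1, h2]

theorem f2_act_t (hs : F.sg ≠ 1) {t : X.W} (h : X.cs.IsReflection t) {i : Fin F.N}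
    (hv : X.rc t = (Real.sqrt 2 : ℂ) • F.ε i ∨ X.rc t = -((Real.sqrt 2 : ℂ) • F.ε i)) :
    F.Act t 1 fun k => if k = i then -1 else 1 := by
  obtain ⟨h3, h4⟩ := F.f2_sg hs
  refine ⟨fun k => ?_, fun k => ?_⟩
  · by_cases hk : k = i <;> simp [hk, h3]
  have e : X.BK ℂ ((Real.sqrt 2 : ℂ) • F.ε i) (F.ε k) =
      (Real.sqrt 2 : ℂ) * X.BK ℂ (F.ε i) (F.ε k) := by
    simp [Cox.BK]
  have e2 : (Real.sqrt 2 : ℂ) * (Real.sqrt 2 : ℂ) = 2 := by
    rw [← Complex.ofReal_mul, Real.mul_self_sqrt (by norm_num)]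
    norm_num
  rw [f2_refl h hv, e, Fr.gram, h4, smul_smul]
  by_cases h1 : k = i
  · subst h1
    simp only [if_true, sub_zero, mul_one, e2, Equiv.Perm.one_apply]
    module
  · simp [h1, Ne.symm h1]

/-- both transpositions -/
def f2S (i j : Fin F.N) : A.H := A.gl (F.Sp κ i j + F.Sm κ i j)

/-- the sign change -/
def f2T (i : Fin F.N) : A.H := A.gl (F.St κ i)

/-- the quadratic part -/
def f2q (i : Fin F.N) : A.H := A.x (F.ε i) * A.y (F.ε i)

/-- elements that permute the indices by `π` -/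
def f2C (π : Equiv.Perm (Fin F.N)) : Submodule ℂ A.H where
  carrier := {h | (∀ i j, h * F.f2S A i j = F.f2S A (π i) (π j) * h) ∧
    (∀ i, h * F.f2T A i = F.f2T A (π i) * h) ∧ ∀ i, h * F.f2q A i = F.f2q A (π i) * h}
  add_mem' := fun {a b} ha hb => ⟨fun i j => by rw [add_mul, mul_add, ha.1, hb.1],
    fun i => by rw [add_mul, mul_add, ha.2.1, hb.2.1],
    fun i => by rw [add_mul, mul_add, ha.2.2, hb.2.2]⟩
  zero_mem' := ⟨fun i j => by simp, fun i => by simp, fun i => by simp⟩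
  smul_mem' := fun c a ha => ⟨fun i j => by rw [smul_mul_assoc, mul_smul_comm, ha.1],
    fun i => by rw [smul_mul_assoc, mul_smul_comm, ha.2.1],
    fun i => by rw [smul_mul_assoc, mul_smul_comm, ha.2.2]⟩

variable {F A}

theorem f2_mul {π π' : Equiv.Perm (Fin F.N)} {a b : A.H} (ha : a ∈ F.f2C A π)
    (hb : b ∈ F.f2C A π') : a * b ∈ F.f2C A (π * π') :=
  ⟨fun i j => by rw [mul_assoc, hb.1, ← mul_assoc, ha.1, mul_assoc]; rfl,
    fun i => by rw [mul_assoc, hb.2.1, ← mul_assoc, ha.2.1, mul_assoc]; rfl,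
    fun i => by rw [mul_assoc, hb.2.2, ← mul_assoc, ha.2.2, mul_assoc]; rfl⟩

theorem f2_g {w : X.W} {π : Equiv.Perm (Fin F.N)} {η : Fin F.N → ℂ} (h : F.Act w π η) :
    A.g w ∈ F.f2C A π := by
  refine ⟨fun i j => ?_, fun i => ?_, fun i => ?_⟩
  · rw [f2S, f2S, ← A.gl_of, ← map_mul, ← map_mul, F.conj_S κ h]
  · rw [f2T, f2T, ← A.gl_of, ← map_mul, ← map_mul, F.conj_St κ h]
  · have e : η i * η i = 1 := by
      rcases h.1 i with e | e
      · rw [e, mul_one]
      · rcases F.hsg with e' | e'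
        · rw [e, e', mul_one]
        · rw [e, e'.1]; norm_num
    rw [f2q, f2q, ← mul_assoc, A.rels.gx, mul_assoc, A.rels.gy, h.2, map_smul, map_smul,
      smul_mul_assoc, smul_mul_assoc, mul_smul_comm, smul_smul, e, one_smul, mul_assoc]

theorem f2_rf {π : Equiv.Perm (Fin F.N)} {v : X.Vc} (h : ∀ t, X.cs.IsReflection t →
    (X.rc t = v ∨ X.rc t = -v) → ∃ η, F.Act t π η) : A.gl (F.rf κ v) ∈ F.f2C A π := by
  rw [rf, map_sum]
  refine Submodule.sum_mem _ fun t ht => ?_
  rw [Finset.mem_filter, X.mem_refls] at ht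
  obtain ⟨η, hη⟩ := h t ht.1 ht.2
  rw [map_smul, A.gl_of]
  exact Submodule.smul_mem _ _ (f2_g hη)

theorem f2_S {i j : Fin F.N} (hij : i ≠ j) : F.f2S A i j ∈ F.f2C A (Equiv.swap i j) := by
  rw [f2S, map_add]
  refine Submodule.add_mem _ (f2_rf fun t ht hv => ⟨_, F.f2_act_p ht hij hv⟩) ?_
  rw [Sm]
  split_ifs with hs
  · rw [map_zero]
    exact Submodule.zero_mem _
  · exact f2_rf fun t ht hv => ⟨_, F.f2_act_m hs ht hij hv⟩

theorem f2_T (i : Fin F.N) : F.f2T A i ∈ F.f2C A 1 := by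
  rw [f2T, St]
  split_ifs with hs
  · rw [map_zero]
    exact Submodule.zero_mem _
  · exact f2_rf fun t ht hv => ⟨_, F.f2_act_t hs ht hv⟩

theorem f2S_symm (i j : Fin F.N) : F.f2S A i j = F.f2S A j i := by
  rw [f2S, f2S, F.Sp_symm, F.Sm_symm]

variable (F A)

/-- the group part for an arbitrary order of the indices -/
def f2U (r : Fin F.N → ℕ) (i : Fin F.N) : A.H := ∑ j with r j < r i, F.f2S A i j + F.f2T A i

/-- Dunkl-Opdam elements for an arbitrary order of the indices -/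
def f2Z (r : Fin F.N → ℕ) (i : Fin F.N) : A.H := F.f2q A i + F.f2U A r i

theorem f2_z (i : Fin F.N) : F.z A i = F.f2Z A Fin.val i := by
  rw [z, f2Z, f2U, u, map_add, map_sum]
  rfl

variable {F A}

theorem f2_conj {π : Equiv.Perm (Fin F.N)} {h : A.H} (hh : h ∈ F.f2C A π) {r r' : Fin F.N → ℕ}
    {i : Fin F.N} (hr : ∀ j, r j < r i ↔ r' (π j) < r' (π i)) :
    h * F.f2Z A r i = F.f2Z A r' (π i) * h := by
  rw [f2Z, f2Z, f2U, f2U, mul_add, mul_add, add_mul, add_mul, hh.2.1, hh.2.2, Finset.mul_sum,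
    Finset.sum_mul]
  congr 2
  exact Finset.sum_equiv π (by simpa using hr) fun j _ => hh.1 i j

theorem f2_ins {r r' : Fin F.N → ℕ} {i m : Fin F.N} (h : ∀ l, r l < r i ↔ l = m ∨ r' l < r' i)
    (hm : ¬ r' m < r' i) : F.f2U A r i = F.f2U A r' i + F.f2S A i m := by
  have e : (Finset.univ.filter fun l => r l < r i) =
      insert m (Finset.univ.filter fun l => r' l < r' i) := by
    ext l
    simp [h]
  rw [f2U, f2U, e, Finset.sum_insert (by simpa using hm)]
  abel

theorem f2_comm_U {r : Fin F.N → ℕ} {i : Fin F.N} {v : A.H}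
    (h1 : ∀ l, r l < r i → F.f2S A i l * v = v * F.f2S A i l)
    (h2 : F.f2T A i * v = v * F.f2T A i) : F.f2U A r i * v = v * F.f2U A r i := by
  rw [f2U, add_mul, mul_add, h2, Finset.sum_mul, Finset.mul_sum]
  congr 1
  exact Finset.sum_congr rfl fun l hl => h1 l (by simpa using hl)

theorem f2_fix {π : Equiv.Perm (Fin F.N)} {h : A.H} (hh : h ∈ F.f2C A π) {i : Fin F.N}
    (hi : π i = i) (hr : ∀ j, j < i ↔ π j < i) : h * F.z A i = F.z A i * h := by
  have := f2_conj hh (r := Fin.val) (r' := Fin.val) (i := i) (by simpa [hi] using hr)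
  rwa [hi, ← f2_z] at this

theorem f2_diag {h : A.H} (hh : h ∈ F.f2C A 1) (i : Fin F.N) : h * F.z A i = F.z A i * h :=
  f2_fix hh rfl fun _ => Iff.rfl

theorem f2_Dv {v : X.Vc →ₗ[ℂ] A.H} (hv : ∀ w a, A.g w * v a = v (X.σK ℂ w *ᵥ a) * A.g w)
    {i j : Fin F.N} (h : i ≠ j) :
    (A.gl (F.Sm κ i j) - A.gl (F.Sp κ i j)) * v (F.ε j) = -(v (F.ε i) * F.f2S A i j) := by
  rw [sub_mul, F.Sp_mul A hv h, F.Sm_mul A hv h, Equiv.swap_apply_right, if_pos (Or.inr rfl), f2S,
    map_add, mul_add, neg_smul, one_smul]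
  abel

theorem f2_Sv {v : X.Vc →ₗ[ℂ] A.H} (hv : ∀ w a, A.g w * v a = v (X.σK ℂ w *ᵥ a) * A.g w)
    {i j : Fin F.N} (h : i ≠ j) :
    F.f2S A i j * v (F.ε j) = -(v (F.ε i) * (A.gl (F.Sm κ i j) - A.gl (F.Sp κ i j))) := by
  rw [f2S, map_add, add_mul, F.Sp_mul A hv h, F.Sm_mul A hv h, Equiv.swap_apply_right,
    if_pos (Or.inr rfl), mul_sub, neg_smul, one_smul]
  abel

theorem f2_Sv' {v : X.Vc →ₗ[ℂ] A.H} (hv : ∀ w a, A.g w * v a = v (X.σK ℂ w *ᵥ a) * A.g w)
    {i j k : Fin F.N} (h : i ≠ j) (h1 : k ≠ i) (h2 : k ≠ j) :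
    F.f2S A i j * v (F.ε k) = v (F.ε k) * F.f2S A i j := by
  rw [f2S, map_add, add_mul, F.Sp_mul A hv h, F.Sm_mul A hv h, Equiv.swap_apply_of_ne_of_ne h1 h2,
    if_neg (by simp [h1, h2]), mul_add, one_smul]

theorem f2_qq {i j : Fin F.N} (h : i ≠ j) :
    F.f2q A i * (F.f2q A j + F.f2S A j i) = (F.f2q A j + F.f2S A j i) * F.f2q A i := by
  have e1 := F.yx_ne A h
  have e2 := F.yx_ne A h.symm
  have e3 := f2_Dv A.rels.gy h
  have e4 := f2_Dv A.rels.gy h.symm
  have e5 := (f2_S (A := A) h.symm).2.2 i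
  rw [Equiv.swap_apply_right] at e5
  rw [← e1] at e3
  rw [← e2] at e4
  have e6 := A.rels.xx (F.ε i) (F.ε j)
  have e7 := A.rels.yy (F.ε i) (F.ε j)
  rw [f2S_symm i j] at e3
  rw [mul_add, add_mul, e5]
  simp only [f2q]
  generalize A.x (F.ε i) = a at *
  generalize A.x (F.ε j) = b at *
  generalize A.y (F.ε i) = c at *
  generalize A.y (F.ε j) = d at *
  generalize F.f2S A j i = s at *
  have e8 : a * b * (c * d) = b * a * (d * c) := by rw [e6, e7]
  have e9 : a * c * (b * d) = a * ((c * b - b * c) * d) + a * b * (c * d) := by noncomm_ring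
  have e10 : b * d * (a * c) = b * ((d * a - a * d) * c) + b * a * (d * c) := by noncomm_ring
  rw [e9, e10, e3, e4, e8]
  noncomm_ring

theorem f2_lt {i j : Fin F.N} (h : i < j) : F.z A i * F.z A j = F.z A j * F.z A i := by
  have h' : (i : ℕ) < j := h
  have e1 : F.f2U A Fin.val i * F.z A j = F.z A j * F.f2U A Fin.val i := by
    refine f2_comm_U (fun l hl => ?_) (f2_diag (f2_T i) j)
    have hl' : l < i := hl
    refine f2_fix (f2_S hl'.ne') (Equiv.swap_apply_of_ne_of_ne h.ne' (hl'.trans h).ne') fun m => ?_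
    rw [Equiv.swap_apply_def]
    split_ifs with h1 h2
    · subst h1
      exact iff_of_true h (hl'.trans h)
    · subst h2
      exact iff_of_true (hl'.trans h) h
    · rfl
  have e2 : F.f2U A Fin.val j =
      F.f2U A (fun l => if l = i then F.N else l) j + F.f2S A j i := by
    refine f2_ins (fun l => ?_) (by simp [h.ne'])
    by_cases hl : l = i
    · simp [hl, h]
    · simp [hl, h.ne']
  have e3 : F.f2U A (fun l => if l = i then F.N else l) j * F.f2q A i =
      F.f2q A i * F.f2U A (fun l => if l = i then F.N else l) j := by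
    refine f2_comm_U (fun l hl => ?_) ((f2_T j).2.2 i)
    have h1 : l ≠ i := by
      rintro rfl
      simp [h.ne'] at hl
      exact absurd j.2 (by omega)
    have h2 : j ≠ l := by
      rintro rfl
      simp at hl
    have := (f2_S (A := A) h2).2.2 i
    rwa [Equiv.swap_apply_of_ne_of_ne h.ne h1.symm] at this
  have e4 : F.f2q A i * F.z A j = F.z A j * F.f2q A i := by
    have e5 := f2_qq (A := A) h.ne
    rw [mul_add, add_mul] at e5
    rw [f2_z, f2Z, e2, mul_add, mul_add, add_mul, add_mul, e3, add_left_comm, e5, add_left_comm]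
  rw [F.f2_z A i, f2Z, add_mul, mul_add, e1, e4]

variable (F A)

theorem z_comm (i j : Fin F.N) : F.z A i * F.z A j = F.z A j * F.z A i := by
  rcases lt_trichotomy i j with h | h | h
  · exact f2_lt h
  · rw [h]
  · exact (f2_lt h).symm

variable {F A}

theorem f2_swap {i j : Fin F.N} (hij : (j : ℕ) = i + 1) {h : A.H}
    (hh : h ∈ F.f2C A (Equiv.swap i j)) (k : ℕ) : Commute h (∑ l, F.z A l ^ k) := by
  have hne : i ≠ j := by
    rintro rfl
    omega
  have hv : ∀ l : Fin F.N, (Equiv.swap i j l : ℕ) =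
      if (l : ℕ) = i then (j : ℕ) else if (l : ℕ) = j then (i : ℕ) else l := by
    intro l
    rw [Equiv.swap_apply_def]
    simp only [Fin.val_inj]
    split_ifs <;> rfl
  have e1 : h * F.z A j = (F.z A i + F.f2S A i j) * h := by
    have := f2_conj hh (r := Fin.val) (r' := fun l => (Equiv.swap i j l : ℕ)) (i := j) (by simp)
    rw [Equiv.swap_apply_right, ← f2_z] at this
    rw [this, f2_z, f2Z, f2Z, add_assoc, f2_ins (r' := Fin.val) (m := j) (fun l => ?_) (by omega)]
    rw [Equiv.swap_apply_left, hv, Fin.ext_iff]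
    split_ifs <;> omega
  have e2 : h * F.z A i = (F.z A j - F.f2S A i j) * h := by
    have := f2_conj hh (r := Fin.val) (r' := fun l => (Equiv.swap i j l : ℕ)) (i := i) (by simp)
    rw [Equiv.swap_apply_left, ← f2_z] at this
    rw [this, f2_z, f2Z, f2Z, f2_ins (r := Fin.val) (r' := fun l => (Equiv.swap i j l : ℕ)) (m := i)
      (fun l => ?_) (by simp; omega), f2S_symm j i, ← add_assoc, add_sub_cancel_right]
    rw [Equiv.swap_apply_right, hv, Fin.ext_iff]
    split_ifs <;> omega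
  have e3 : F.f2S A i j * h * F.z A j = F.z A j * (F.f2S A i j * h) := by
    refine f2_diag ?_ j
    have := f2_mul (f2_S hne) hh
    rwa [Equiv.swap_mul_self] at this
  have e4 : Commute h (F.z A i ^ k + F.z A j ^ k) := by
    refine f2_newton (F.z_comm A i j) ?_ ?_ k
    · rw [Commute, SemiconjBy, mul_add, e1, e2]
      noncomm_ring
    · rw [Commute, SemiconjBy, ← mul_assoc, e2, sub_mul, sub_mul, e3, mul_assoc, e1, F.z_comm A i j]
      noncomm_ring
  rw [← Finset.add_sum_erase _ _ (Finset.mem_univ i),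
    ← Finset.add_sum_erase _ _ (Finset.mem_erase.2 ⟨hne.symm, Finset.mem_univ j⟩), ← add_assoc]
  refine e4.add_right (Commute.sum_right _ _ _ fun l hl => Commute.pow_right ?_ k)
  simp only [Finset.mem_erase] at hl
  refine f2_fix hh (Equiv.swap_apply_of_ne_of_ne hl.2.1 hl.1) fun m => ?_
  have h1 : (l : ℕ) ≠ i := fun e => hl.2.1 (Fin.ext e)
  have h2 : (l : ℕ) ≠ j := fun e => hl.1 (Fin.ext e)
  rw [Fin.lt_def, Fin.lt_def, hv]
  split_ifs <;> omega

theorem f2_cancel (w : X.W) {a b : A.H} (h : A.g w * a = A.g w * b) : a = b := by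
  have := congrArg (A.g w⁻¹ * ·) h
  simpa [← mul_assoc, ← map_mul] using this

theorem f2_all (k : ℕ) (π : Equiv.Perm (Fin F.N)) :
    ∀ h ∈ F.f2C A π, Commute h (∑ l, F.z A l ^ k) := by
  refine f2_adj (Q := fun π => ∀ h ∈ F.f2C A π, Commute h (∑ l, F.z A l ^ k))
    (fun h hh => Commute.sum_right _ _ _ fun l _ => Commute.pow_right (f2_diag hh l) k)
    (fun i j π hij ih h hh => ?_) π
  obtain ⟨w, hw⟩ := F.exists_perm (Equiv.swap i j)
  have e1 := f2_mul (f2_g (A := A) hw) hh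
  rw [← mul_assoc, Equiv.swap_mul_self, one_mul] at e1
  have e2 := ih _ e1
  have e3 := f2_swap hij (f2_g (A := A) hw) k
  refine f2_cancel w ?_
  rw [← mul_assoc, e2.eq, ← mul_assoc, ← mul_assoc, e3.eq]

theorem f2_order {r : Fin F.N → ℕ} (hr : Function.Injective r) (k : ℕ) :
    ∑ l, F.f2Z A r l ^ k = ∑ l, F.z A l ^ k := by
  obtain ⟨w, hw⟩ := F.exists_perm (Tuple.sort r)⁻¹
  have hm : StrictMono (r ∘ Tuple.sort r) :=
    (Tuple.monotone_sort r).strictMono_of_injective (hr.comp (Tuple.sort r).injective)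
  refine f2_cancel w ?_
  rw [(f2_all k _ _ (f2_g hw)).eq, Finset.mul_sum, Finset.sum_mul]
  refine Finset.sum_equiv (Tuple.sort r)⁻¹ (by simp) fun l _ => f2_pow ?_ k
  rw [f2_z]
  refine f2_conj (f2_g hw) fun j => ?_
  have := hm.lt_iff_lt (a := (Tuple.sort r)⁻¹ j) (b := (Tuple.sort r)⁻¹ l)
  simpa using this

theorem f2_xy (m i : Fin F.N) :
    F.f2Z A (fun l => if l = m then 0 else l + 1) i * A.x (F.ε m) =
      A.x (F.ε m) * F.f2Z A (fun l => if l = m then F.N + 1 else l + 1) i ∧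
    A.y (F.ε m) * F.f2Z A (fun l => if l = m then 0 else l + 1) i =
      F.f2Z A (fun l => if l = m then F.N + 1 else l + 1) i * A.y (F.ε m) := by
  by_cases h : i = m
  · subst h
    have e1 : F.f2U A (fun l => if l = i then 0 else l + 1) i = F.f2T A i := by simp [f2U]
    have e2 : F.f2Z A (fun l => if l = i then F.N + 1 else l + 1) i =
        A.y (F.ε i) * A.x (F.ε i) - F.f2T A i := by
      have e3 : (Finset.univ.filter fun l : Fin F.N => (if l = i then F.N + 1 else l + 1) <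
          if i = i then F.N + 1 else i + 1) = Finset.univ.filter fun l => l ≠ i := by
        ext l
        by_cases hl : l = i <;> simp [hl]
      have e4 := F.yx_eq A i
      rw [map_add, map_sum, map_smul, two_smul, sub_eq_iff_eq_add] at e4
      rw [f2Z, f2U, e3, e4, f2q, f2T]
      simp only [f2S]
      abel
    have e5 := F.St_mul A A.rels.gx i i
    have e6 := F.St_mul A A.rels.gy i i
    rw [if_pos rfl, neg_smul, one_smul] at e5 e6
    rw [e2, f2Z, e1, f2q, f2T, add_mul, e5, sub_mul, e6]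
    constructor <;> noncomm_ring
  · have e1 : F.f2U A (fun l => if l = m then 0 else l + 1) i =
        F.f2U A (fun l => if l = m then F.N + 1 else l + 1) i + F.f2S A i m := by
      refine f2_ins (fun l => ?_) (by simp [h])
      by_cases hl : l = m <;> simp [hl, h]
    have e2 : ∀ v : X.Vc →ₗ[ℂ] A.H, (∀ w a, A.g w * v a = v (X.σK ℂ w *ᵥ a) * A.g w) →
        F.f2U A (fun l => if l = m then F.N + 1 else l + 1) i * v (F.ε m) =
          v (F.ε m) * F.f2U A (fun l => if l = m then F.N + 1 else l + 1) i := by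
      intro v hv
      refine f2_comm_U (fun l hl => f2_Sv' hv ?_ (Ne.symm h) ?_) ?_
      · rintro rfl
        simp at hl
      · rintro rfl
        simp [h] at hl
        exact absurd i.2 (by omega)
      · rw [f2T, F.St_mul A hv, if_neg (Ne.symm h), one_smul]
    have e3 := f2_Sv A.rels.gx h
    have e4 := f2_Dv A.rels.gy (Ne.symm h)
    rw [← F.yx_ne A h] at e3
    rw [← F.yx_ne A (Ne.symm h), f2S_symm m i] at e4
    have e6 := A.rels.xx (F.ε i) (F.ε m)
    have e7 := A.rels.yy (F.ε i) (F.ε m)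
    rw [f2Z, f2Z, e1, f2q]
    simp only [add_mul, mul_add]
    rw [e2 _ A.rels.gx, e2 _ A.rels.gy, e3, ← neg_eq_iff_eq_neg.2 e4]
    constructor
    · rw [← mul_assoc (A.x (F.ε m)), ← e6]
      noncomm_ring
    · rw [mul_assoc (A.x (F.ε i)) (A.y (F.ε i)), e7]
      noncomm_ring

variable (F A)

theorem psum_center (k : ℕ) : ∑ i, F.z A i ^ k ∈ Subalgebra.center ℂ A.H := by
  have i1 : ∀ (m : Fin F.N) (c : ℕ), (c = 0 ∨ c = F.N + 1) →
      Function.Injective fun l : Fin F.N => if l = m then c else l + 1 := by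
    intro m c hc a b hab
    have := a.2
    have := b.2
    simp only at hab
    split_ifs at hab with h1 h2 h2
    · rw [h1, h2]
    · omega
    · omega
    · exact Fin.ext (by omega)
  have sp : ∀ v : X.Vc →ₗ[ℂ] A.H, (∀ m, v (F.ε m) * ∑ i, F.z A i ^ k =
      (∑ i, F.z A i ^ k) * v (F.ε m)) → ∀ a, v a * ∑ i, F.z A i ^ k = (∑ i, F.z A i ^ k) * v a := by
    intro v hv a
    have ha := F.span (Submodule.mem_top (x := a))
    induction ha using Submodule.span_induction with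
    | mem x hx =>
      obtain ⟨m, rfl⟩ := hx
      exact hv m
    | zero => simp
    | add x y _ _ h1 h2 => rw [map_add, add_mul, mul_add, h1, h2]
    | smul c x _ h1 => rw [map_smul, smul_mul_assoc, mul_smul_comm, h1]
  refine A.mem_center_of (sp _ fun m => ?_) (sp _ fun m => ?_) fun w => ?_
  · conv_lhs => rw [← f2_order (i1 m _ (Or.inr rfl))]
    conv_rhs => rw [← f2_order (i1 m _ (Or.inl rfl))]
    rw [Finset.mul_sum, Finset.sum_mul]
    exact Finset.sum_congr rfl fun i _ => f2_pow (f2_xy m i).1.symm k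
  · conv_lhs => rw [← f2_order (i1 m _ (Or.inl rfl))]
    conv_rhs => rw [← f2_order (i1 m _ (Or.inr rfl))]
    rw [Finset.mul_sum, Finset.sum_mul]
    exact Finset.sum_congr rfl fun i _ => f2_pow (f2_xy m i).2 k
  · obtain ⟨π, η, h⟩ := F.exists_act w
    exact f2_all k π _ (f2_g h)

theorem f2_P_gl (ζ : X.GA) (h : A.H) : A.P (A.gl ζ * h) = ζ * A.P h := by
  induction ζ using MonoidAlgebra.induction_on with
  | of w => rw [A.gl_of, A.P_g_mul]
  | add a b ha hb => rw [map_add, add_mul, add_mul, map_add, ha, hb]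
  | smul c a ha => rw [map_smul, smul_mul_assoc, smul_mul_assoc, map_smul, ha]

theorem P_psum (k : ℕ) : A.P (∑ i, F.z A i ^ k) = ∑ i ∈ Finset.range F.N, F.uN κ i ^ k := by
  rw [map_sum, Finset.sum_range]
  refine Finset.sum_congr rfl fun i _ => ?_
  rw [uN, dif_pos i.2]
  induction k with
  | zero => rw [pow_zero, pow_zero, ← map_one A.gl, A.P_gl]
  | succ k ih =>
    rw [pow_succ', pow_succ', ← ih]
    nth_rewrite 1 [z]
    rw [add_mul, map_add, mul_assoc, A.P_x_mul, zero_add, f2_P_gl]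

theorem sameP_of_rel {χ χ' : X.W → ℂ} (h : A.rel χ χ') : Cox.SameP (F.uN κ) F.N χ χ' := by
  intro k
  rw [← F.P_psum A k]
  exact h _ (F.psum_center A k)

end Fr

end

end Pool.Agent.P.MP_1a0ecf_al.F
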