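import Pool.Agent.P.MP_1a0ecf_al.F.Face

/-! Package Fr3: diagonal invariants are generated by polarised power sums. -/

namespace Pool.Agent.P.MP_1a0ecf_al.F

open Matrix MvPolynomial
open scoped Classical TensorProduct

noncomputable section

/-- products of polarised power sums -/
def ppsL (N : ℕ) (l : List (ℕ × ℕ)) : MvPolynomial (Fin N ⊕ Fin N) ℂ :=
  (l.map fun p => pps N p.1 p.2).prod

namespace Fr3P

variable {N : ℕ}

/-- a monomial in the two variables of one index -/
def mon (i : Fin N) (p : ℕ × ℕ) : MvPolynomial (Fin N ⊕ Fin N) ℂ :=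
  MvPolynomial.X (Sum.inl i) ^ p.1 * MvPolynomial.X (Sum.inr i) ^ p.2

lemma mon_add (i : Fin N) (p q : ℕ × ℕ) : mon i (p + q) = mon i p * mon i q := by
  simp only [mon, Prod.fst_add, Prod.snd_add, pow_add]
  ring

lemma sperm_mon (π : Equiv.Perm (Fin N)) (η : Fin N → ℂ) (i : Fin N) (p : ℕ × ℕ) :
    sperm π η (mon i p) = η i ^ (p.1 + p.2) • mon (π i) p := by
  simp only [mon, sperm, map_mul, map_pow, aeval_X, Sum.elim_inl, Sum.elim_inr, _root_.smul_pow,
    smul_mul_smul_comm, pow_add]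

lemma sperm_comp (π π' : Equiv.Perm (Fin N)) (η η' : Fin N → ℂ)
    (f : MvPolynomial (Fin N ⊕ Fin N) ℂ) :
    sperm π η (sperm π' η' f) = sperm (π * π') (fun i => η' i * η (π' i)) f := by
  have : (sperm π η).comp (sperm π' η') = sperm (π * π') fun i => η' i * η (π' i) := by
    refine algHom_ext fun i => ?_
    rcases i with i | i <;> simp [sperm, smul_smul]
  exact DFunLike.congr_fun this f

lemma sperm_one (f : MvPolynomial (Fin N ⊕ Fin N) ℂ) : sperm 1 (fun _ => 1) f = f := by
  have : sperm (N := N) 1 (fun _ => 1) = AlgHom.id ℂ _ := by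
    refine algHom_ext fun i => ?_
    rcases i with i | i <;> simp [sperm]
  exact DFunLike.congr_fun this f

/-- the exponent pairs of a monomial -/
def ex (d : Fin N ⊕ Fin N →₀ ℕ) (i : Fin N) : ℕ × ℕ := (d (Sum.inl i), d (Sum.inr i))

lemma monomial_eq' (d : Fin N ⊕ Fin N →₀ ℕ) (c : ℂ) :
    monomial d c = c • ∏ i, mon i (ex d i) := by
  rw [monomial_eq, Finsupp.prod_fintype _ _ fun _ => pow_zero _, Fintype.prod_sum_type,
    ← Finset.prod_mul_distrib, smul_eq_C_mul]
  rfl

lemma sum_ex (d : Fin N ⊕ Fin N →₀ ℕ) :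
    ∑ i, ((ex d i).1 + (ex d i).2) = d.sum fun _ e => e := by
  rw [Finsupp.sum_fintype _ _ fun _ => rfl, Fintype.sum_sum_type, Finset.sum_add_distrib]
  rfl

lemma sperm_monomial (π : Equiv.Perm (Fin N)) (η : Fin N → ℂ) (d : Fin N ⊕ Fin N →₀ ℕ) (c : ℂ) :
    sperm π η (monomial d c) =
      (c * ∏ i, η i ^ ((ex d i).1 + (ex d i).2)) • ∏ i, mon (π i) (ex d i) := by
  rw [monomial_eq', map_smul, map_prod, Finset.prod_congr rfl fun i _ => sperm_mon π η i _,
    Finset.prod_smul, smul_smul]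

lemma coeff_sperm (η : Fin N → ℂ) (d : Fin N ⊕ Fin N →₀ ℕ) (f : MvPolynomial (Fin N ⊕ Fin N) ℂ) :
    coeff d (sperm 1 η f) = (∏ i, η i ^ ((ex d i).1 + (ex d i).2)) * coeff d f := by
  induction f using MvPolynomial.induction_on' with
  | monomial u c =>
    have : sperm 1 η (monomial u c) = monomial u (c * ∏ i, η i ^ ((ex u i).1 + (ex u i).2)) := by
      rw [sperm_monomial, monomial_eq']
      rfl
    rw [this, coeff_monomial, coeff_monomial]
    split_ifs with h
    · rw [h, mul_comm]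
    · rw [mul_zero]
  | add p q hp hq => rw [map_add, coeff_add, coeff_add, hp, hq, mul_add]

lemma deg_mon (i : Fin N) (p : ℕ × ℕ) : (mon i p).totalDegree ≤ p.1 + p.2 :=
  (totalDegree_mul _ _).trans (by rw [totalDegree_X_pow, totalDegree_X_pow])

/-- symmetrised monomials -/
def sym (N k : ℕ) (e : Fin k → ℕ × ℕ) : MvPolynomial (Fin N ⊕ Fin N) ℂ :=
  ∑ ι : Fin k → Fin N, if Function.Injective ι then ∏ r, mon (ι r) (e r) else 0

lemma sym_perm (e : Fin N → ℕ × ℕ) :
    sym N N e = ∑ π : Equiv.Perm (Fin N), ∏ r, mon (π r) (e r) := by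
  rw [sym, ← Finset.sum_filter]
  symm
  refine Finset.sum_bij (fun π _ => (π : Fin N → Fin N)) (fun π _ => ?_) (fun _ _ _ _ h => ?_)
    (fun ι hι => ?_) fun _ _ => rfl
  · exact Finset.mem_filter.2 ⟨Finset.mem_univ _, π.injective⟩
  · exact DFunLike.coe_injective h
  · exact ⟨Equiv.ofBijective ι (Finset.mem_filter.1 hι).2.bijective_of_finite,
      Finset.mem_univ _, rfl⟩

lemma sym_cons {k : ℕ} (p : ℕ × ℕ) (e : Fin k → ℕ × ℕ) :
    pps N p.1 p.2 * sym N k e =
      sym N (k + 1) (Fin.cons p e) + ∑ r, sym N k (Function.update e r (p + e r)) := by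
  have h1 : sym N (k + 1) (Fin.cons p e) = ∑ ι : Fin k → Fin N, ∑ i : Fin N,
      if i ∉ Set.range ι ∧ Function.Injective ι then mon i p * ∏ r, mon (ι r) (e r) else 0 := by
    refine (Equiv.sum_comp (Fin.consEquiv fun _ : Fin (k + 1) => Fin N) _).symm.trans ?_
    rw [Fintype.sum_prod_type, Finset.sum_comm]
    refine Finset.sum_congr rfl fun ι _ => Finset.sum_congr rfl fun i _ => ?_
    have e0 : (Fin.consEquiv fun _ : Fin (k + 1) => Fin N) (i, ι) = Fin.cons i ι := rfl
    rw [e0, Fin.prod_univ_succ]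
    simp only [Fin.cons_injective_iff, Fin.cons_zero, Fin.cons_succ]
  rw [h1]
  simp only [sym]
  rw [Finset.sum_comm (s := Finset.univ (α := Fin k)), ← Finset.sum_add_distrib, Finset.mul_sum]
  refine Finset.sum_congr rfl fun ι _ => ?_
  by_cases hι : Function.Injective ι
  · simp only [hι, and_true, if_true]
    have h2 : ∀ r, ∏ s, mon (ι s) (Function.update e r (p + e r) s) =
        mon (ι r) p * ∏ s, mon (ι s) (e s) := fun r => by
      rw [← Finset.mul_prod_erase _ _ (Finset.mem_univ r),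
        ← Finset.mul_prod_erase _ (fun s => mon (ι s) (e s)) (Finset.mem_univ r),
        Function.update_self, mon_add, mul_assoc]
      congr 2
      exact Finset.prod_congr rfl fun s hs => by
        rw [Function.update_of_ne (Finset.ne_of_mem_erase hs)]
    have h3 : ∑ r, mon (ι r) p * ∏ s, mon (ι s) (e s) =
        ∑ i, if i ∈ Set.range ι then mon i p * ∏ s, mon (ι s) (e s) else 0 := by
      rw [← Finset.sum_filter, ← Finset.sum_image (g := ι)
        (f := fun i => mon i p * ∏ s, mon (ι s) (e s)) fun _ _ _ _ h => hι h]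
      congr 1
      ext i
      simp
    rw [Finset.sum_congr rfl fun r _ => h2 r, h3, ← Finset.sum_add_distrib, pps, Finset.sum_mul]
    refine Finset.sum_congr rfl fun i _ => ?_
    by_cases hi : i ∈ Set.range ι
    · rw [if_neg (not_not.2 hi), if_pos hi, zero_add]
      rfl
    · rw [if_pos hi, if_neg hi, add_zero]
      rfl
  · simp [hι]

/-- the span of the products of degree at most `d` -/
def V (N : ℕ) (sg : ℂ) (d : ℕ) : Submodule ℂ (MvPolynomial (Fin N ⊕ Fin N) ℂ) :=
  Submodule.span ℂ {g | ∃ l : List (ℕ × ℕ), (∀ p ∈ l, sg ^ (p.1 + p.2) = 1) ∧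
    (l.map fun p => p.1 + p.2).sum ≤ d ∧ g = ppsL N l}

lemma mul_V {sg : ℂ} {d d' : ℕ} {p : ℕ × ℕ} (hp : sg ^ (p.1 + p.2) = 1) (h : p.1 + p.2 + d' ≤ d)
    {g : MvPolynomial (Fin N ⊕ Fin N) ℂ} (hg : g ∈ V N sg d') : pps N p.1 p.2 * g ∈ V N sg d := by
  induction hg using Submodule.span_induction with
  | mem g hg =>
    obtain ⟨l, h1, h2, rfl⟩ := hg
    refine Submodule.subset_span ⟨p :: l, List.forall_mem_cons.2 ⟨hp, h1⟩, ?_, ?_⟩
    · rw [List.map_cons, List.sum_cons]
      omega
    · rw [ppsL, ppsL, List.map_cons, List.prod_cons]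
  | zero => rw [mul_zero]; exact zero_mem _
  | add a b _ _ ha hb => rw [mul_add]; exact add_mem ha hb
  | smul c a _ ha => rw [mul_smul_comm]; exact Submodule.smul_mem _ c ha

lemma sym_mem {sg : ℂ} (k : ℕ) : ∀ (d : ℕ) (e : Fin k → ℕ × ℕ),
    (∀ r, sg ^ ((e r).1 + (e r).2) = 1) → ∑ r, ((e r).1 + (e r).2) ≤ d → sym N k e ∈ V N sg d := by
  induction k with
  | zero =>
    intro d e _ _
    refine Submodule.subset_span ⟨[], by simp, by simp, ?_⟩
    simp [sym, ppsL, Function.injective_of_subsingleton]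
  | succ k ih =>
    intro d e h1 h2
    rw [← Fin.cons_self_tail e, eq_sub_iff_add_eq.2 (sym_cons (e 0) (Fin.tail e)).symm]
    rw [Fin.sum_univ_succ] at h2
    refine sub_mem (mul_V (h1 0) h2 (ih _ _ (fun r => h1 r.succ) le_rfl))
      (Submodule.sum_mem _ fun r _ => ih _ _ (fun s => ?_) (le_trans (le_of_eq ?_) h2))
    · by_cases hs : s = r
      · rw [hs, Function.update_self, Prod.fst_add, Prod.snd_add, add_add_add_comm, pow_add, h1 0,
          one_mul]
        exact h1 r.succ
      · rw [Function.update_of_ne hs]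
        exact h1 s.succ
    · rw [← Finset.add_sum_erase _ _ (Finset.mem_univ r),
        ← Finset.add_sum_erase _ (fun s : Fin k => (e s.succ).1 + (e s.succ).2) (Finset.mem_univ r),
        Function.update_self, Prod.fst_add, Prod.snd_add, add_add_add_comm, add_assoc]
      congr 2
      exact Finset.sum_congr rfl fun s hs => by
        rw [Function.update_of_ne (Finset.ne_of_mem_erase hs)]
        rfl

end Fr3P

open Fr3P

theorem invariants {N : ℕ} {sg : ℂ} (hsg : sg = 1 ∨ sg = -1) {d : ℕ}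
    {f : MvPolynomial (Fin N ⊕ Fin N) ℂ} (hd : f.totalDegree ≤ d)
    (h1 : ∀ π, sperm π (fun _ => 1) f = f)
    (h2 : ∀ i, sperm 1 (fun j => if j = i then sg else 1) f = f) :
    f ∈ Submodule.span ℂ {g | ∃ l : List (ℕ × ℕ), (∀ p ∈ l, sg ^ (p.1 + p.2) = 1) ∧
      (l.map fun p => p.1 + p.2).sum ≤ d ∧ g = ppsL N l} := by
  have _ := hsg
  have hc : (Fintype.card (Equiv.Perm (Fin N)) : ℂ) ≠ 0 := Nat.cast_ne_zero.2 Fintype.card_ne_zero
  have h3 : (Fintype.card (Equiv.Perm (Fin N)) : ℂ) • f =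
      ∑ u ∈ f.support, coeff u f • sym N N (ex u) := by
    calc _ = ∑ π : Equiv.Perm (Fin N), sperm π (fun _ => 1) f := by
          rw [Finset.sum_congr rfl fun π _ => h1 π, Finset.sum_const, Finset.card_univ,
            Nat.cast_smul_eq_nsmul]
      _ = ∑ π : Equiv.Perm (Fin N), ∑ u ∈ f.support, coeff u f • ∏ i, mon (π i) (ex u i) := by
          refine Finset.sum_congr rfl fun π _ => ?_
          conv_lhs => rw [f.as_sum, map_sum]
          exact Finset.sum_congr rfl fun u _ => by simp [sperm_monomial]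
      _ = _ := by
          rw [Finset.sum_comm]
          exact Finset.sum_congr rfl fun u _ => by rw [sym_perm, Finset.smul_sum]
  refine (Submodule.smul_mem_iff (V N sg d) hc).1 (h3 ▸ Submodule.sum_mem _ fun u hu =>
    Submodule.smul_mem _ _ (sym_mem N d _ (fun i => ?_) ?_))
  · have h4 := coeff_sperm (fun j => if j = i then sg else 1) u f
    rw [h2, Finset.prod_eq_single i (fun j _ hj => by rw [if_neg hj, one_pow])
      (fun h => absurd (Finset.mem_univ i) h), if_pos rfl] at h4
    exact mul_right_cancel₀ (mem_support_iff.1 hu) (h4.symm.trans (one_mul _).symm)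
  · rw [sum_ex]
    exact (le_totalDegree hu).trans hd

theorem totalDegree_sperm {N : ℕ} (π : Equiv.Perm (Fin N)) (η : Fin N → ℂ)
    (f : MvPolynomial (Fin N ⊕ Fin N) ℂ) : (sperm π η f).totalDegree ≤ f.totalDegree := by
  conv_lhs => rw [f.as_sum, map_sum]
  refine totalDegree_finsetSum_le fun u hu => ?_
  rw [sperm_monomial]
  refine (totalDegree_smul_le _ _).trans ((totalDegree_finsetProd _ _).trans ?_)
  refine (Finset.sum_le_sum fun i _ => deg_mon _ _).trans ?_
  rw [sum_ex]
  exact le_totalDegree hu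

/-- averaging -/
theorem exists_average {N : ℕ} {sg : ℂ} (hsg : sg = 1 ∨ sg = -1)
    (S : Submodule ℂ (MvPolynomial (Fin N ⊕ Fin N) ℂ)) {f : MvPolynomial (Fin N ⊕ Fin N) ℂ}
    (p : MvPolynomial (Fin N ⊕ Fin N) ℂ → Prop)
    (hp : ∀ g, p g ↔ g - f ∈ S) (h1 : ∀ π g, p g → p (sperm π (fun _ => 1) g))
    (h2 : ∀ g, p g → p (sperm 1 (fun j => if (j : ℕ) = 0 then sg else 1) g)) :
    ∃ g, p g ∧ g.totalDegree ≤ f.totalDegree ∧ (∀ π, sperm π (fun _ => 1) g = g) ∧
      ∀ i, sperm 1 (fun j => if j = i then sg else 1) g = g := by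
  have hs2 : sg * sg = 1 := by rcases hsg with rfl | rfl <;> norm_num
  have h3 : ∀ (i : Fin N) g, p g → p (sperm 1 (fun j => if j = i then sg else 1) g) := by
    intro i g hg
    have := h1 (Equiv.swap ⟨0, i.pos⟩ i) _ (h2 _ (h1 (Equiv.swap ⟨0, i.pos⟩ i) g hg))
    rw [sperm_comp, sperm_comp, mul_one, Equiv.swap_mul_self] at this
    convert this using 3
    funext j
    have e : ((Equiv.swap ⟨0, i.pos⟩ i j : Fin N) : ℕ) = 0 ↔ j = i := by
      have := Equiv.swap_apply_eq_iff (x := (⟨0, i.pos⟩ : Fin N)) (y := i) (z := j) (w := ⟨0, i.pos⟩)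
      rwa [Equiv.swap_apply_left, Fin.ext_iff] at this
    simp only [mul_one, one_mul, e]
  have h4 : ∀ s : Finset (Fin N), ∃ g, p g ∧ g.totalDegree ≤ f.totalDegree ∧
      ∀ i ∈ s, sperm 1 (fun j => if j = i then sg else 1) g = g := by
    intro s
    induction s using Finset.induction_on with
    | empty => exact ⟨f, (hp f).2 (by rw [sub_self]; exact zero_mem _), le_rfl, by simp⟩
    | insert i s _ ih =>
      obtain ⟨g, g1, g2, g3⟩ := ih
      refine ⟨(2⁻¹ : ℂ) • (g + sperm 1 (fun j => if j = i then sg else 1) g), (hp _).2 ?_,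
        (totalDegree_smul_le _ _).trans ((totalDegree_add _ _).trans
          (max_le g2 ((totalDegree_sperm _ _ _).trans g2))), fun k hk => ?_⟩
      · have := S.smul_mem (2⁻¹ : ℂ) (add_mem ((hp _).1 g1) ((hp _).1 (h3 i g g1)))
        convert this using 1
        module
      · rw [map_smul, map_add]
        rcases Finset.mem_insert.1 hk with rfl | hk
        · rw [sperm_comp, mul_one, add_comm g]
          congr 2
          convert sperm_one g using 3
          funext j
          by_cases hj : j = k <;> simp [hj, hs2]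
        · rw [g3 k hk]
          congr 2
          conv_rhs => rw [← g3 k hk]
          rw [sperm_comp, sperm_comp]
          congr 2
          funext j
          exact mul_comm _ _
  obtain ⟨g, g1, g2, g3⟩ := h4 Finset.univ
  have hc : (Fintype.card (Equiv.Perm (Fin N)) : ℂ) ≠ 0 := Nat.cast_ne_zero.2 Fintype.card_ne_zero
  refine ⟨(Fintype.card (Equiv.Perm (Fin N)) : ℂ)⁻¹ • ∑ π, sperm π (fun _ => 1) g, (hp _).2 ?_,
    (totalDegree_smul_le _ _).trans (totalDegree_finsetSum_le fun π _ =>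
      (totalDegree_sperm _ _ _).trans g2), fun π => ?_, fun i => ?_⟩
  · have := S.smul_mem (Fintype.card (Equiv.Perm (Fin N)) : ℂ)⁻¹
      (S.sum_mem fun π (_ : π ∈ Finset.univ) => (hp _).1 (h1 π g g1))
    rwa [Finset.sum_sub_distrib, Finset.sum_const, Finset.card_univ, ← Nat.cast_smul_eq_nsmul ℂ,
      smul_sub, inv_smul_smul₀ hc] at this
  · rw [map_smul, map_sum, ← Equiv.sum_comp (Equiv.mulLeft π) fun ρ => sperm ρ (fun _ => 1) g]
    simp only [sperm_comp, mul_one, Equiv.coe_mulLeft]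
  · rw [map_smul, map_sum]
    congr 1
    refine Finset.sum_congr rfl fun π _ => ?_
    conv_rhs => rw [← g3 (π.symm i) (Finset.mem_univ _)]
    simp only [sperm_comp, mul_one, one_mul, Equiv.eq_symm_apply]

theorem sperm_pps {N : ℕ} {sg : ℂ} (π : Equiv.Perm (Fin N)) {η : Fin N → ℂ}
    (hη : ∀ i, η i = 1 ∨ η i = sg) {a b : ℕ} (h : sg ^ (a + b) = 1) :
    sperm π η (pps N a b) = pps N a b := by
  have e : pps N a b = ∑ i, mon i (a, b) := rfl
  rw [e, map_sum, ← Equiv.sum_comp π fun i => mon i (a, b)]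
  refine Finset.sum_congr rfl fun i _ => ?_
  rw [sperm_mon]
  rcases hη i with e | e
  · rw [e, one_pow, one_smul]
  · rw [e, h, one_smul]

end

end Pool.Agent.P.MP_1a0ecf_al.F
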