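import Pool.Agent.P.MP_1a0ecf_al.F.S1

/-! Package S2: the Satake isomorphism. -/

namespace Pool.Agent.P.MP_1a0ecf_al.F

open Matrix MvPolynomial
open scoped Classical TensorProduct

noncomputable section

namespace S2

variable (X : Cox)

/-- the discriminant -/
def dl : X.Sc := ∏ t ∈ X.refls, X.rl ℂ t ^ 2

/-- the discriminant divided by a root -/
def qq (t : X.W) : X.Sc := X.rl ℂ t * ∏ u ∈ X.refls.erase t, X.rl ℂ u ^ 2

theorem dl_ne : dl X ≠ 0 :=
  Finset.prod_ne_zero_iff.2 fun _ ht => pow_ne_zero _ (X.rl_ne_zero ℂ (X.mem_refls.1 ht))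

variable {X}

theorem qq_mul {t : X.W} (h : t ∈ X.refls) : qq X t * X.rl ℂ t = dl X := by
  rw [dl, ← Finset.mul_prod_erase _ _ h, qq]
  ring

theorem rl_conj {t : X.W} (h : X.cs.IsReflection t) (w : X.W) :
    ∃ s : ℂ, s * s = 1 ∧ X.rc (w * t * w⁻¹) = s • (X.σK ℂ w *ᵥ X.rc t) ∧
      X.rl ℂ (w * t * w⁻¹) = s • X.act ℂ w (X.rl ℂ t) := by
  rcases X.rc_conj h w with e | e
  · refine ⟨1, one_mul _, by rw [e, one_smul], ?_⟩
    rw [one_smul, Cox.rl, Cox.rl, X.act_lin ℂ]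
    exact congrArg (lin ℂ) e
  · refine ⟨-1, by ring, by rw [e, neg_one_smul], ?_⟩
    rw [neg_one_smul, Cox.rl, Cox.rl, X.act_lin ℂ, ← map_neg]
    exact congrArg (lin ℂ) e

theorem act_dl (w : X.W) : X.act ℂ w (dl X) = dl X := by
  rw [dl, map_prod]
  refine Finset.prod_nbij' (fun t => w * t * w⁻¹) (fun t => w⁻¹ * t * w⁻¹⁻¹)
    (fun t ht => X.mem_refls.2 ((X.mem_refls.1 ht).conj w))
    (fun t ht => X.mem_refls.2 ((X.mem_refls.1 ht).conj w⁻¹)) (fun t _ => by group)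
    (fun t _ => by group) fun t ht => ?_
  obtain ⟨s, hs, -, e⟩ := rl_conj (X.mem_refls.1 ht) w
  rw [e, smul_pow, sq s, hs, one_smul, map_pow]

theorem qq_conj {t : X.W} (h : X.cs.IsReflection t) (w : X.W) (a : X.Vc) :
    X.BK ℂ (X.rc (w * t * w⁻¹)) (X.σK ℂ w *ᵥ a) • qq X (w * t * w⁻¹) =
      X.BK ℂ (X.rc t) a • X.act ℂ w (qq X t) := by
  have h' : X.cs.IsReflection (w * t * w⁻¹) := h.conj w
  obtain ⟨s, hs, e1, e2⟩ := rl_conj h w
  have e3 : qq X (w * t * w⁻¹) = s • X.act ℂ w (qq X t) := by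
    refine mul_right_cancel₀ (X.rl_ne_zero ℂ h') ?_
    rw [qq_mul (X.mem_refls.2 h'), e2, smul_mul_smul_comm, hs, one_smul, ← map_mul,
      qq_mul (X.mem_refls.2 h), act_dl]
  rw [e3, e1, X.BK_symm ℂ, C2.BK_smul, X.BK_symm ℂ, X.BK_inv ℂ, smul_smul, mul_right_comm, hs,
    one_mul]

variable {κ : Wt X} (A : CA X κ)

/-- the discriminant in `H` -/
def D : A.H := A.ex (dl X)

theorem D_comm (h : A.H) : h * D A = D A * h :=
  Subalgebra.mem_center_iff.1 (A.ex_center act_dl) h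

/-- the correction term -/
def r (a : X.Vc) : A.H := ∑ t ∈ X.refls, (κ t * X.BK ℂ (X.rc t) a) • (A.ex (qq X t) * A.g t)

/-- the momenta -/
def p (a : X.Vc) : A.H := D A * A.y a + r A a

theorem ex_comm {u : A.H} (hu : ∀ a, A.x a * u = u * A.x a) (q : X.Sc) :
    A.ex q * u = u * A.ex q := by
  induction q using MvPolynomial.induction_on with
  | C c => rw [← algebraMap_eq, AlgHom.commutes]; exact Algebra.commutes c u
  | add q q' h h' => rw [map_add, add_mul, mul_add, h, h']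
  | mul_X q i h =>
    rw [map_mul, ← lin_single ℂ, A.ex_lin, mul_assoc, hu, ← mul_assoc, h, mul_assoc]

theorem x_ex (a : X.Vc) (q : X.Sc) : A.x a * A.ex q = A.ex q * A.x a := by
  rw [← A.ex_lin, ← map_mul, mul_comm, map_mul]

theorem x_p (b a : X.Vc) : A.x b * p A a = p A a * A.x b := by
  have e := A.rels.yx a b
  rw [sub_eq_iff_eq_add'] at e
  have h1 : r A a * A.x b = A.x b * r A a - D A * ∑ t ∈ X.refls,
      (κ t * X.BK ℂ (X.rc t) a * X.BK ℂ (X.rc t) b) • A.g t := by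
    rw [r, Finset.sum_mul, Finset.mul_sum, Finset.mul_sum, ← Finset.sum_sub_distrib]
    refine Finset.sum_congr rfl fun t ht => ?_
    have e2 : A.ex (qq X t) * A.x (X.rc t) = D A := by
      rw [← A.ex_lin, ← map_mul, D, ← qq_mul ht, Cox.rl]
    rw [smul_mul_assoc, mul_assoc (A.ex _), A.rels.gx, X.σK_refl ℂ (X.mem_refls.1 ht), map_sub,
      map_smul, sub_mul, mul_sub, smul_sub, mul_smul_comm, mul_smul_comm, smul_mul_assoc,
      mul_smul_comm, smul_smul, ← mul_assoc (A.ex _), ← mul_assoc (A.ex _), e2, ← x_ex,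
      mul_assoc (A.x b)]
  rw [p, mul_add, add_mul, mul_assoc, e, h1, mul_add, ← mul_assoc, D_comm, mul_assoc]
  abel

theorem g_r (w : X.W) (a : X.Vc) : A.g w * r A a = r A (X.σK ℂ w *ᵥ a) * A.g w := by
  conv_rhs => rw [r, ← X.sum_refls_conj _ w]
  rw [r, Finset.mul_sum, Finset.sum_mul]
  refine Finset.sum_congr rfl fun t ht => ?_
  have h := X.mem_refls.1 ht
  have e := congrArg A.ex (qq_conj h w a)
  rw [map_smul, map_smul] at e
  rw [κ.cl t w h, mul_smul, mul_smul, ← smul_mul_assoc (X.BK ℂ (X.rc (w * t * w⁻¹)) _), e,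
    mul_smul_comm, mul_smul_comm, smul_mul_assoc, smul_mul_assoc, smul_mul_assoc, ← mul_assoc,
    A.g_ex, mul_assoc, mul_assoc (A.ex _), ← map_mul, ← map_mul, inv_mul_cancel_right]

theorem g_p (w : X.W) (a : X.Vc) : A.g w * p A a = p A (X.σK ℂ w *ᵥ a) * A.g w := by
  rw [p, p, mul_add, add_mul, g_r, ← mul_assoc, D_comm, mul_assoc, A.rels.gy, mul_assoc]

/-- combinations of the group elements other than `1` over the centraliser of the `x a` -/
def NN : Submodule ℂ A.H where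
  carrier := {h | ∃ c : X.W → A.H, (∀ w a, A.x a * c w = c w * A.x a) ∧ c 1 = 0 ∧
    h = ∑ w, c w * A.g w}
  zero_mem' := ⟨0, by simp, rfl, by simp⟩
  add_mem' := by
    rintro _ _ ⟨c, h1, h2, rfl⟩ ⟨c', k1, k2, rfl⟩
    exact ⟨c + c', fun w a => by rw [Pi.add_apply, mul_add, add_mul, h1, k1],
      by rw [Pi.add_apply, h2, k2, add_zero], by simp [add_mul, Finset.sum_add_distrib]⟩
  smul_mem' := by
    rintro s _ ⟨c, h1, h2, rfl⟩
    exact ⟨s • c, fun w a => by rw [Pi.smul_apply, mul_smul_comm, smul_mul_assoc, h1],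
      by rw [Pi.smul_apply, h2, smul_zero], by simp [Finset.smul_sum]⟩

theorem mem_NN {c : A.H} (hc : ∀ a, A.x a * c = c * A.x a) {w : X.W} (hw : w ≠ 1) :
    c * A.g w ∈ NN A := by
  refine ⟨Pi.single w c, fun u a => ?_, Pi.single_eq_of_ne hw.symm _, ?_⟩
  · by_cases e : u = w
    · rw [e, Pi.single_eq_same, hc]
    · rw [Pi.single_eq_of_ne e, mul_zero, zero_mul]
  · rw [Finset.sum_eq_single w (fun u _ e => by rw [Pi.single_eq_of_ne e, zero_mul])
      (fun h => absurd (Finset.mem_univ _) h), Pi.single_eq_same]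

theorem NN_zero {k : A.H} (hk : ∀ a, A.x a * k = k * A.x a) (h : k ∈ NN A) : k = 0 := by
  obtain ⟨c, h1, h2, e⟩ := h
  have := A.indep (c := fun w => c w - if w = 1 then k else 0) (fun w a => by
    rw [mul_sub, sub_mul, h1]
    split_ifs
    · rw [hk]
    · rw [mul_zero, zero_mul]) (by
    simp only [sub_mul, Finset.sum_sub_distrib, ite_mul, zero_mul, Finset.sum_ite_eq',
      Finset.mem_univ, if_true, map_one, mul_one]
    rw [← e, sub_self]) 1
  simpa [h2] using this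

theorem refl_ne {t : X.W} (h : X.cs.IsReflection t) : t ≠ 1 := fun e => by
  have := h.odd_length
  rw [e, X.cs.length_one] at this
  exact absurd this (by decide)

theorem p_r (a b : X.Vc) : p A a * r A b - r A b * p A a ∈ NN A := by
  rw [r, Finset.mul_sum, Finset.sum_mul, ← Finset.sum_sub_distrib]
  refine Submodule.sum_mem _ fun t ht => ?_
  rw [mul_smul_comm, smul_mul_assoc, ← smul_sub, mul_assoc, g_p, ← mul_assoc, ← mul_assoc,
    ← ex_comm A fun c => x_p A c a, ← sub_mul, ← mul_sub]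
  refine Submodule.smul_mem _ _ (mem_NN A (fun c => ?_) (refl_ne (X.mem_refls.1 ht)))
  rw [← mul_assoc, x_ex, mul_assoc, mul_sub, x_p, x_p, ← sub_mul, mul_assoc]

theorem r_r (a b : X.Vc) : r A a * r A b - r A b * r A a ∈ NN A := by
  rw [r, r, Finset.sum_mul_sum, Finset.sum_mul_sum, ← Finset.sum_sub_distrib]
  refine Submodule.sum_mem _ fun t ht => ?_
  rw [← Finset.sum_sub_distrib]
  refine Submodule.sum_mem _ fun u hu => ?_
  rw [smul_mul_smul_comm, smul_mul_smul_comm, ← sub_smul]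
  by_cases e : t = u
  · rw [e, mul_comm (κ u * _), sub_self, zero_smul]
    exact Submodule.zero_mem _
  · refine Submodule.smul_mem _ _ ?_
    rw [mul_assoc, ← mul_assoc (A.g t), A.g_ex, mul_assoc, ← map_mul, ← mul_assoc, ← map_mul]
    refine mem_NN A (fun c => x_ex A c _) fun e1 => e ?_
    rw [eq_inv_of_mul_eq_one_left e1, (X.mem_refls.1 hu).inv]

theorem p_p (a b : X.Vc) : p A a * p A b = p A b * p A a := by
  rw [← sub_eq_zero]
  refine NN_zero A (fun c => ?_) ?_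
  · rw [mul_sub, sub_mul, ← mul_assoc, ← mul_assoc, x_p, x_p, mul_assoc, mul_assoc, x_p, x_p,
      mul_assoc, mul_assoc]
  · have e0 : D A * A.y a * (D A * A.y b) = D A * A.y b * (D A * A.y a) := by
      rw [mul_assoc, mul_assoc, ← mul_assoc (A.y a), ← mul_assoc (A.y b), D_comm, D_comm,
        mul_assoc, mul_assoc, A.rels.yy]
    have e1 : ∀ a, D A * A.y a = p A a - r A a := fun a => by rw [p, add_sub_cancel_right]
    rw [e1, e1] at e0
    have e2 : p A a * p A b - p A b * p A a = (p A a * r A b - r A b * p A a) -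
        (p A b * r A a - r A a * p A b) - (r A a * r A b - r A b * r A a) +
        ((p A a - r A a) * (p A b - r A b) - (p A b - r A b) * (p A a - r A a)) := by
      noncomm_ring
    rw [e2, e0, sub_self, add_zero]
    exact Submodule.sub_mem _ (Submodule.sub_mem _ (p_r A a b) (p_r A b a)) (r_r A a b)

/-- the centraliser of the positions and momenta -/
def CC : Subalgebra ℂ A.H := Subalgebra.centralizer ℂ (Set.range A.x ∪ Set.range (p A))

variable {A}

theorem mem_CC {c : A.H} :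
    c ∈ CC A ↔ (∀ a, A.x a * c = c * A.x a) ∧ ∀ a, p A a * c = c * p A a := by
  rw [CC, Subalgebra.mem_centralizer_iff]
  refine ⟨fun h => ⟨fun a => h _ (Or.inl ⟨a, rfl⟩), fun a => h _ (Or.inr ⟨a, rfl⟩)⟩, fun h => ?_⟩
  rintro _ (⟨a, rfl⟩ | ⟨a, rfl⟩)
  · exact h.1 a
  · exact h.2 a

theorem ex_CC (q : X.Sc) : A.ex q ∈ CC A :=
  mem_CC.2 ⟨fun a => x_ex A a q, fun a => (ex_comm A (fun c => x_p A c a) q).symm⟩

theorem p_CC (a : X.Vc) : p A a ∈ CC A := mem_CC.2 ⟨fun b => x_p A b a, fun b => p_p A b a⟩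

theorem conj_aux {f : X.Vc → A.H} (hf : ∀ w a, A.g w * f a = f (X.σK ℂ w *ᵥ a) * A.g w)
    {c : A.H} (hc : ∀ a, f a * c = c * f a) (w : X.W) (a : X.Vc) :
    f a * (A.g w * c * A.g w⁻¹) = A.g w * c * A.g w⁻¹ * f a := by
  have e : f a * A.g w = A.g w * f (X.σK ℂ w⁻¹ *ᵥ a) := by rw [hf, X.c1_inv]
  rw [← mul_assoc, ← mul_assoc, e, mul_assoc (A.g w), hc, mul_assoc, mul_assoc, ← hf,
    mul_assoc, mul_assoc]

theorem conj_CC {c : A.H} (hc : c ∈ CC A) (w : X.W) : A.g w * c * A.g w⁻¹ ∈ CC A :=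
  mem_CC.2 ⟨conj_aux A.rels.gx (mem_CC.1 hc).1 w, conj_aux (g_p A) (mem_CC.1 hc).2 w⟩

theorem g_c_e (c : A.H) (w : X.W) : A.g w * (c * A.e) = A.g w * c * A.g w⁻¹ * A.e := by
  rw [mul_assoc _ (A.g w⁻¹), A.g_mul_e, mul_assoc]

variable (A)

/-- elements that preserve `CC * e` -/
def U0 : Subalgebra ℂ A.H where
  carrier := {h | ∀ c' ∈ CC A, ∃ c ∈ CC A, h * (c' * A.e) = c * A.e}
  mul_mem' := fun {h k} hh hk c' hc' => by
    obtain ⟨c, hc, e⟩ := hk c' hc'
    obtain ⟨d, hd, e'⟩ := hh c hc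
    exact ⟨d, hd, by rw [mul_assoc, e, e']⟩
  add_mem' := fun {h k} hh hk c' hc' => by
    obtain ⟨c, hc, e⟩ := hk c' hc'
    obtain ⟨d, hd, e'⟩ := hh c' hc'
    exact ⟨d + c, add_mem hd hc, by rw [add_mul, e, e', add_mul]⟩
  algebraMap_mem' := fun s c' hc' =>
    ⟨_, mul_mem ((CC A).algebraMap_mem s) hc', (mul_assoc _ _ _).symm⟩

variable {A}

theorem CC_U0 {c : A.H} (hc : c ∈ CC A) : c ∈ U0 A := fun _ hc' =>
  ⟨_, mul_mem hc hc', (mul_assoc _ _ _).symm⟩

theorem g_U0 (w : X.W) : A.g w ∈ U0 A := fun c' hc' => ⟨_, conj_CC hc' w, g_c_e c' w⟩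

theorem Dp_comm (N : ℕ) (h : A.H) : h * D A ^ N = D A ^ N * h :=
  (Commute.pow_right (D_comm A h) N).eq

theorem loc (h : A.H) : ∃ N : ℕ, D A ^ N * h ∈ U0 A := by
  have hD : ∀ N, D A ^ N ∈ U0 A := fun N => pow_mem (CC_U0 (ex_CC _)) N
  let S : Subalgebra ℂ A.H :=
    { carrier := {h | ∃ N : ℕ, D A ^ N * h ∈ U0 A}
      mul_mem' := by
        rintro h k ⟨N, hh⟩ ⟨M, hk⟩
        refine ⟨N + M, ?_⟩
        have := mul_mem hh hk
        rwa [mul_assoc, ← mul_assoc h, Dp_comm, mul_assoc, ← mul_assoc, ← pow_add] at this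
      add_mem' := by
        rintro h k ⟨N, hh⟩ ⟨M, hk⟩
        refine ⟨N + M, ?_⟩
        have := add_mem (mul_mem (hD M) hh) (mul_mem (hD N) hk)
        rwa [← mul_assoc, ← mul_assoc, ← pow_add, ← pow_add, add_comm M, ← mul_add] at this
      algebraMap_mem' := fun s => ⟨0, by rw [pow_zero, one_mul]; exact (U0 A).algebraMap_mem s⟩ }
  refine A.gen S (fun a => ⟨0, ?_⟩) (fun a => ⟨1, ?_⟩) (fun w => ⟨0, ?_⟩) h
  · rw [pow_zero, one_mul, ← A.ex_lin]
    exact CC_U0 (ex_CC _)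
  · rw [pow_one, show D A * A.y a = p A a - r A a by rw [p, add_sub_cancel_right]]
    exact sub_mem (CC_U0 (p_CC a)) (sum_mem fun t _ =>
      Subalgebra.smul_mem _ (mul_mem (CC_U0 (ex_CC _)) (g_U0 t)) _)
  · rw [pow_zero, one_mul]
    exact g_U0 w

theorem center_of {c : A.H} (hc : c ∈ CC A) (hg : ∀ w, A.g w * c = c * A.g w) :
    c ∈ Subalgebra.center ℂ A.H := by
  obtain ⟨hx, hp⟩ := mem_CC.1 hc
  refine A.mem_center_of hx (fun a => ?_) hg
  have hr : r A a * c = c * r A a := by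
    rw [r, Finset.sum_mul, Finset.mul_sum]
    refine Finset.sum_congr rfl fun t _ => ?_
    rw [smul_mul_assoc, mul_smul_comm, mul_assoc, hg, ← mul_assoc, ex_comm A hx, mul_assoc]
  have e := hp a
  rw [p, add_mul, mul_add, hr, add_left_inj, ← mul_assoc c, D_comm, mul_assoc, mul_assoc,
    ← sub_eq_zero, ← mul_sub] at e
  exact sub_eq_zero.1 (A.ex_cancel (dl_ne X) e)

end S2

namespace CA

variable {X : Cox} {κ : Wt X} (A : CA X κ)

open S2 in
theorem half_satake : ∃ δ : X.Sc, δ ≠ 0 ∧ (∀ w, X.act ℂ w δ = δ) ∧ ∀ h : A.H,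
    ∃ (N : ℕ), ∃ c ∈ Subalgebra.center ℂ A.H, c * A.e = A.ex (δ ^ N) * (A.e * h * A.e) := by
  refine ⟨dl X, dl_ne X, act_dl, fun h => ?_⟩
  obtain ⟨N, hN⟩ := loc h
  obtain ⟨c, hc, e⟩ := hN 1 (one_mem _)
  refine ⟨N, (Fintype.card X.W : ℂ)⁻¹ • ∑ w, A.g w * c * A.g w⁻¹, center_of
    (Subalgebra.smul_mem _ (sum_mem fun w _ => conj_CC hc w) _) fun u => ?_, ?_⟩
  · rw [mul_smul_comm, smul_mul_assoc, Finset.mul_sum, Finset.sum_mul]
    congr 1
    refine Fintype.sum_equiv (Equiv.mulLeft u) _ _ fun w => ?_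
    rw [Equiv.coe_mulLeft, mul_assoc _ (A.g _) (A.g u), ← map_mul, _root_.mul_inv_rev,
      inv_mul_cancel_right, map_mul, mul_assoc, mul_assoc, mul_assoc]
  · have e1 : A.ex (dl X ^ N) * (A.e * h * A.e) = A.e * (c * A.e) := by
      rw [← e, one_mul, map_pow, ← mul_assoc, ← mul_assoc, ← mul_assoc, ← mul_assoc]
      exact congrArg (· * h * A.e) (Dp_comm N A.e).symm
    rw [e1, smul_mul_assoc, Finset.sum_mul]
    simp only [← g_c_e]
    rw [← Finset.sum_mul, ← smul_mul_assoc]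
    rfl

theorem satake (h : A.H) : ∃ z ∈ Subalgebra.center ℂ A.H, z * A.e = A.e * h * A.e := by
  obtain ⟨δ, h0, hδ, hs⟩ := A.half_satake
  obtain ⟨φ, hx, hy, hg, hex⟩ := A.exists_fourier
  have he : φ A.e = A.e := by simp only [e, map_smul, map_sum, hg]
  obtain ⟨N, c, hc, e1⟩ := hs h
  obtain ⟨M, c1, hc1, e2⟩ := hs (φ.symm h)
  have e3 := congrArg φ e2
  rw [map_mul, map_mul, map_mul, map_mul, he, hex, AlgEquiv.apply_symm_apply] at e3
  have hc' : φ c1 ∈ Subalgebra.center ℂ A.H := Subalgebra.mem_center_iff.2 fun m => by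
    obtain ⟨m, rfl⟩ := φ.surjective m
    rw [← map_mul, Subalgebra.mem_center_iff.1 hc1, map_mul]
  have hinv : ∀ n : ℕ, ∀ w, X.act ℂ w (δ ^ n) = δ ^ n := fun n w => by rw [map_pow, hδ]
  have hX := A.ex_center (hinv N)
  have hY := A.ey_center (hinv M)
  have e4 : c * A.ey (δ ^ M) = A.ex (δ ^ N) * φ c1 := by
    rw [← sub_eq_zero]
    refine A.center_cancel (sub_mem (mul_mem hc hY) (mul_mem hX hc')) ?_
    rw [sub_mul, Subalgebra.mem_center_iff.1 hY c, mul_assoc, mul_assoc, e1, e3, ← mul_assoc,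
      ← mul_assoc (A.ex _), Subalgebra.mem_center_iff.1 hX, sub_self]
  obtain ⟨z, rfl⟩ := A.ex_dvd (pow_ne_zero M h0) e4
  refine ⟨z, Subalgebra.mem_center_iff.2 fun m => ?_, ?_⟩
  · rw [← sub_eq_zero]
    refine A.ex_cancel (pow_ne_zero N h0) ?_
    rw [mul_sub, ← mul_assoc, ← Subalgebra.mem_center_iff.1 hX m, mul_assoc,
      Subalgebra.mem_center_iff.1 hc m, mul_assoc, sub_self]
  · rw [← sub_eq_zero]
    refine A.ex_cancel (pow_ne_zero N h0) ?_
    rw [mul_sub, ← e1, mul_assoc, sub_self]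

end CA

end

end Pool.Agent.P.MP_1a0ecf_al.F
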