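import Pool.Agent.P.MP_1a0ecf_al.F.Fr4a
import Pool.Agent.P.MP_1a0ecf_al.F.S2
import Pool.Agent.P.MP_1a0ecf_al.F.C4

/-! Package Fr4: generators of the centre. -/

namespace Pool.Agent.P.MP_1a0ecf_al.F

open Matrix MvPolynomial
open scoped Classical TensorProduct

noncomputable section

namespace Fr

variable {X : Cox} (F : Fr X) {κ : Wt X} (A : CA X κ)

theorem psum_fil (k : ℕ) : ∑ i, F.z A i ^ k - F.ord A (pps F.N k k) ∈ F.Fil A (2 * k) := by
  rw [pps, map_sum, ← Finset.sum_sub_distrib]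
  refine Submodule.sum_mem _ fun i _ => ?_
  induction k with
  | zero => simp [ord_one]
  | succ k ih =>
    have d1 := fr4_deg_term (Sum.inl i : Fin F.N ⊕ Fin F.N) (Sum.inr i) 1 1
    have dk := fr4_deg_term (Sum.inl i : Fin F.N ⊕ Fin F.N) (Sum.inr i) k k
    have e : F.z A i = F.ord A (MvPolynomial.X (Sum.inl i) ^ 1 * MvPolynomial.X (Sum.inr i) ^ 1) +
        A.gl (F.u κ i) := by rw [ord_term, pow_one, pow_one, z]
    have hz : F.z A i ∈ F.Fil A (1 + 1 + 1) := by
      rw [e]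
      exact add_mem (F.ord_fil A d1) (F.fil_mono A (by omega) (F.gl_mem_fil A _))
    have h1 := F.fil_mono A (show _ ≤ 2 * (k + 1) by omega) (F.fil_mul A hz ih).1
    have h2 := F.fil_mono A (show _ ≤ 2 * (k + 1) by omega) (F.ord_mul A d1 dk)
    have h3 := F.fil_mono A (show _ ≤ 2 * (k + 1) by omega)
      (F.fil_mul A (d := 0) (F.gl_mem_fil A (F.u κ i)) (F.ord_fil A dk)).1
    convert add_mem (add_mem h1 h2) h3 using 1
    rw [show (MvPolynomial.X (Sum.inl i) ^ 1 * MvPolynomial.X (Sum.inr i) ^ 1 *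
      (MvPolynomial.X (Sum.inl i) ^ k * MvPolynomial.X (Sum.inr i) ^ k) :
        MvPolynomial (Fin F.N ⊕ Fin F.N) ℂ) =
      MvPolynomial.X (Sum.inl i) ^ (k + 1) * MvPolynomial.X (Sum.inr i) ^ (k + 1) by ring,
      pow_succ' (F.z A i), mul_sub]
    rw [show F.z A i * F.ord A (MvPolynomial.X (Sum.inl i) ^ k * MvPolynomial.X (Sum.inr i) ^ k) =
      _ from congrArg (· * _) e]
    noncomm_ring

theorem e_pps {a b : ℕ} (h : F.sg ^ (a + b) = 1) :
    A.e * F.ord A (pps F.N a b) = F.ord A (pps F.N a b) * A.e := by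
  rw [CA.e, smul_mul_assoc, mul_smul_comm, Finset.sum_mul, Finset.mul_sum]
  refine congrArg _ (Finset.sum_congr rfl fun w _ => ?_)
  obtain ⟨π, η, hw⟩ := F.exists_act w
  rw [F.g_ord A hw, sperm_pps π hw.1 h]

theorem fil_e {d : ℕ} {h : A.H} (hh : h ∈ F.Fil A (d + 1)) :
    ∃ f, f.totalDegree ≤ d ∧ h * A.e = F.ord A f * A.e := by
  induction hh using Submodule.span_induction with
  | mem h hh =>
    obtain ⟨f, w, hf, rfl⟩ := hh
    exact ⟨f, by omega, by rw [mul_assoc, A.g_mul_e]⟩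
  | zero => exact ⟨0, by simp, by simp⟩
  | add a b _ _ ha hb =>
    obtain ⟨f, hf, e⟩ := ha
    obtain ⟨g, hg, e'⟩ := hb
    exact ⟨f + g, (totalDegree_add _ _).trans (max_le hf hg), by
      rw [add_mul, e, e', map_add, add_mul]⟩
  | smul c a _ ha =>
    obtain ⟨f, hf, e⟩ := ha
    exact ⟨c • f, (totalDegree_smul_le _ _).trans hf, by
      rw [smul_mul_assoc, e, map_smul, smul_mul_assoc]⟩

/-- a subalgebra of the centre that contains lifts of the polarised power sums contains lifts of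
all combinations of their products -/
theorem lift_span {G : Subalgebra ℂ A.H} (hG : G ≤ Subalgebra.center ℂ A.H)
    (hp : ∀ a b, F.sg ^ (a + b) = 1 → ∃ z ∈ G, ∃ r ∈ F.Fil A (a + b),
      z * A.e = (F.ord A (pps F.N a b) + r) * A.e) {d : ℕ}
    {f : MvPolynomial (Fin F.N ⊕ Fin F.N) ℂ}
    (hf : f ∈ Submodule.span ℂ {g | ∃ l : List (ℕ × ℕ), (∀ p ∈ l, F.sg ^ (p.1 + p.2) = 1) ∧
      (l.map fun p => p.1 + p.2).sum ≤ d ∧ g = ppsL F.N l}) :
    ∃ z ∈ G, ∃ r ∈ F.Fil A d, z * A.e = (F.ord A f + r) * A.e := by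
  have hl : ∀ l : List (ℕ × ℕ), (∀ p ∈ l, F.sg ^ (p.1 + p.2) = 1) → ∃ z ∈ G,
      ∃ r ∈ F.Fil A (l.map fun p => p.1 + p.2).sum,
        z * A.e = (F.ord A (ppsL F.N l) + r) * A.e := by
    intro l
    induction l with
    | nil => exact fun _ => ⟨1, one_mem _, 0, zero_mem _, by simp [ppsL, ord_one]⟩
    | cons p l ih =>
      intro h
      obtain ⟨z₂, h₂, r₂, k₂, e₂⟩ := ih fun q hq => h q (List.mem_cons_of_mem _ hq)
      obtain ⟨z₁, h₁, r₁, k₁, e₁⟩ := hp p.1 p.2 (h p List.mem_cons_self)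
      have d₁ := fr4_deg_pps F.N p.1 p.2
      have d₂ := fr4_deg_ppsL F.N l
      rw [List.map_cons, List.sum_cons]
      have a1 := F.ord_mul A d₁ d₂
      have a2 := (F.fil_mul A (F.ord_fil A d₂) k₁).2
      rw [add_comm] at a2
      have a3 := (F.fil_mul A (add_mem (F.ord_fil A d₁) (F.fil_mono A (Nat.le_succ _) k₁)) k₂).1
      refine ⟨z₂ * z₁, mul_mem h₂ h₁, _, add_mem (add_mem a1 a2) a3, ?_⟩
      rw [mul_assoc, e₁, ← mul_assoc, ← Subalgebra.mem_center_iff.1 (hG h₂), mul_assoc, e₂,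
        ← mul_assoc, show ppsL F.N (p :: l) = pps F.N p.1 p.2 * ppsL F.N l from by simp [ppsL]]
      congr 1
      noncomm_ring
  induction hf using Submodule.span_induction with
  | mem g hg =>
    obtain ⟨l, h1, h2, rfl⟩ := hg
    obtain ⟨z, hz, r, hr, e⟩ := hl l h1
    exact ⟨z, hz, r, F.fil_mono A h2 hr, e⟩
  | zero => exact ⟨0, zero_mem _, 0, zero_mem _, by simp⟩
  | add a b _ _ ha hb =>
    obtain ⟨z, hz, r, hr, e⟩ := ha
    obtain ⟨z', hz', r', hr', e'⟩ := hb
    refine ⟨z + z', add_mem hz hz', r + r', add_mem hr hr', ?_⟩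
    rw [add_mul, e, e', map_add]; noncomm_ring
  | smul c a _ ha =>
    obtain ⟨z, hz, r, hr, e⟩ := ha
    refine ⟨c • z, G.smul_mem hz c, c • r, Submodule.smul_mem _ _ hr, ?_⟩
    rw [smul_mul_assoc, e, map_smul, ← smul_add, smul_mul_assoc]

/-- the central characters on the fixed elements are determined by the power sums -/
theorem rel_fixed (θ : A.H →ₐ[ℂ] A.H) (he : θ A.e = A.e)
    (hc : ∀ z ∈ Subalgebra.center ℂ A.H, θ z ∈ Subalgebra.center ℂ A.H)
    (hx : ∀ i, θ (A.x (F.ε i)) = (if (i : ℕ) = 0 then F.sg else 1) • A.x (F.ε i))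
    (hy : ∀ i, θ (A.y (F.ε i)) = (if (i : ℕ) = 0 then F.sg else 1) • A.y (F.ε i))
    (hu : ∀ i, θ (F.z A i) = F.z A i)
    {χ χ' : X.W → ℂ} (hχ : IsIrr χ) (hχ' : IsIrr χ') (h : Cox.SameP (F.uN κ) F.N χ χ')
    {z : A.H} (hz : z ∈ Subalgebra.center ℂ A.H) (hθ : θ z = z) :
    chx χ (A.P z) * χ' 1 = chx χ' (A.P z) * χ 1 := by
  have hsg : F.sg = 1 ∨ F.sg = -1 := F.hsg.imp id And.left
  have θo := F.map_ord A θ hx hy
  let G : Subalgebra ℂ A.H :=
    (AlgHom.equalizer (A.c4lam hχ) (A.c4lam hχ')).map (Subalgebra.val _) ⊓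
      AlgHom.equalizer θ (AlgHom.id ℂ A.H)
  have mG : ∀ z, z ∈ G ↔ z ∈ Subalgebra.center ℂ A.H ∧ θ z = z ∧
      chx χ (A.P z) * χ' 1 = chx χ' (A.P z) * χ 1 := fun z => by
    rw [← div_eq_div_iff hχ.one_ne hχ'.one_ne]
    constructor
    · rintro ⟨⟨⟨y, hy⟩, h1, rfl⟩, h2⟩
      exact ⟨hy, h2, h1⟩
    · rintro ⟨h1, h2, h3⟩
      exact ⟨⟨⟨z, h1⟩, h3, rfl⟩, h2⟩
  have hp : ∀ a b, F.sg ^ (a + b) = 1 → ∃ z ∈ G, ∃ r ∈ F.Fil A (a + b),
      z * A.e = (F.ord A (pps F.N a b) + r) * A.e := by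
    intro a b hab
    by_cases e : a = b
    · subst e
      refine ⟨∑ i, F.z A i ^ a, (mG _).2 ⟨F.psum_center A a, by simp [hu], ?_⟩, _,
        by rw [← two_mul]; exact F.psum_fil A a, by rw [add_sub_cancel]⟩
      rw [F.P_psum]
      exact h a
    · obtain ⟨y, hy, ey⟩ := A.satake (F.ord A (pps F.N a b))
      have ey' : y * A.e = F.ord A (pps F.N a b) * A.e := by
        rw [ey, F.e_pps A hab, mul_assoc, A.e_mul_e]
      refine ⟨y, (mG _).2 ⟨hy, ?_, ?_⟩, 0, zero_mem _, by rw [add_zero, ey']⟩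
      · refine sub_eq_zero.1 (A.center_cancel (sub_mem (hc y hy) hy) ?_)
        have := congrArg θ ey'
        rw [map_mul, map_mul, he, θo, sperm_pps (sg := F.sg) 1
          (fun i => by split_ifs <;> simp) hab] at this
        rw [sub_mul, this, ey', sub_self]
      · have : A.P y = 0 := A.P_eq_zero hy (ι := Fin F.N) (p := fun i => lin ℂ (F.ε i) ^ a)
          (p' := fun i => lin ℂ (F.ε i) ^ b) e
          (fun i => by simpa using (lin_hom ℂ (F.ε i)).pow a)
          (fun i => by simpa using (lin_hom ℂ (F.ε i)).pow b) (by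
            rw [ey, pps, map_sum]
            simp only [ord_term, map_pow, A.ex_lin, A.ey_lin])
        rw [this, map_zero, map_zero, zero_mul, zero_mul]
  have key : ∀ d, ∀ z ∈ Subalgebra.center ℂ A.H, θ z = z →
      ∀ k ∈ F.Fil A d, z * A.e = A.e * k * A.e → z ∈ G := by
    intro d
    induction d with
    | zero =>
      intro z hz _ k hk e
      have k0 : k = 0 := (Submodule.mem_bot ℂ).1
        (F.fil_map A (S := ⊥) LinearMap.id (fun _ _ _ e _ => absurd e (by omega)) hk)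
      rw [k0, mul_zero, zero_mul] at e
      rw [A.center_cancel hz e]
      exact zero_mem _
    | succ d ih =>
      intro z hz hθ k hk e
      obtain ⟨f, hf, ef⟩ := F.fil_e A hk
      rw [mul_assoc, ef, ← mul_assoc] at e
      obtain ⟨g, g1, g2, g3, g4⟩ := exists_average hsg
        (LinearMap.ker (LinearMap.mulRight ℂ A.e ∘ₗ LinearMap.mulLeft ℂ A.e ∘ₗ F.ord A)) (f := f)
        (fun g => A.e * F.ord A g * A.e = z * A.e)
        (fun g => by
          rw [LinearMap.mem_ker, map_sub, sub_eq_zero, e]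
          rfl)
        (fun π g hg => by
          obtain ⟨w, hw⟩ := F.exists_perm π
          have k1 : F.ord A (sperm π (fun _ => 1) g) * A.e = A.g w * F.ord A g * A.e := by
            rw [F.g_ord A hw, mul_assoc, A.g_mul_e]
          rw [← hg, mul_assoc, k1, ← mul_assoc, ← mul_assoc, A.e_mul_g])
        (fun g hg => by
          have := congrArg θ hg
          rwa [map_mul, map_mul, map_mul, he, hθ, θo] at this)
      obtain ⟨y, hy, r, hr, ey⟩ := F.lift_span A (fun y hy => ((mG y).1 hy).1) hp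
        (invariants hsg (g2.trans hf) g3 g4)
      obtain ⟨y1, y2, -⟩ := (mG y).1 hy
      have := ih (z - y) (sub_mem hz y1) (by rw [map_sub, hθ, y2]) (-r) (neg_mem hr) (by
        have e2 : y * A.e = A.e * (y * A.e) := by
          rw [← mul_assoc, Subalgebra.mem_center_iff.1 y1, mul_assoc, A.e_mul_e]
        rw [sub_mul, e2, ey, ← g1]
        noncomm_ring)
      simpa using add_mem this hy
  obtain ⟨d, hd⟩ := F.exists_fil A z
  refine ((mG z).1 (key d z hz hθ z hd ?_)).2.2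
  rw [Subalgebra.mem_center_iff.1 hz A.e, mul_assoc, A.e_mul_e]

end Fr

end

end Pool.Agent.P.MP_1a0ecf_al.F
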