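import Pool.Agent.P.MP_1a0ecf_al.F.Fr2
import Pool.Agent.P.MP_1a0ecf_al.F.Fr3

/-! Package Fr4a: the filtration by the degree. -/

namespace Pool.Agent.P.MP_1a0ecf_al.F

open Matrix MvPolynomial
open scoped Classical TensorProduct

noncomputable section

/-- induction with control of the degree -/
theorem fr4_ind {σ : Type} {P : ℕ → MvPolynomial σ ℂ → Prop} (hC : ∀ d c, P d (C c))
    (hadd : ∀ d f g, P d f → P d g → P d (f + g))
    (hX : ∀ d v f, f.totalDegree ≤ d → P d f → P (d + 1) (MvPolynomial.X v * f)) (d : ℕ) :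
    ∀ f : MvPolynomial σ ℂ, f.totalDegree ≤ d → P d f := by
  induction d with
  | zero =>
    intro f hf
    rw [totalDegree_eq_zero_iff_eq_C.1 (Nat.le_zero.1 hf)]
    exact hC _ _
  | succ d ih =>
    intro f hf
    rw [f.as_sum]
    refine Finset.sum_induction _ (P (d + 1)) (hadd _) (by simpa using hC (d + 1) 0) ?_
    intro m hm
    have h1 := (le_totalDegree hm).trans hf
    by_cases h0 : m = 0
    · subst h0
      exact hC _ _
    · obtain ⟨v, hv⟩ := Finsupp.ne_iff.1 h0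
      obtain ⟨m', rfl⟩ : ∃ m', m = Finsupp.single v 1 + m' :=
        exists_add_of_le (Finsupp.single_le_iff.2 (Nat.one_le_iff_ne_zero.2 hv))
      rw [Finsupp.sum_add_index' (fun _ => rfl) (fun _ _ _ => rfl),
        Finsupp.sum_single_index rfl] at h1
      have h2 : (monomial m' (coeff (Finsupp.single v 1 + m') f)).totalDegree ≤ d :=
        (totalDegree_monomial_le _ _).trans (show (m'.sum fun _ e => e) ≤ d by omega)
      rw [monomial_single_add, pow_one]
      exact hX d v _ h2 (ih _ h2)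

theorem fr4_deg {σ : Type} (v : σ) {f : MvPolynomial σ ℂ} {d : ℕ} (h : f.totalDegree ≤ d) :
    (MvPolynomial.X v * f).totalDegree ≤ d + 1 :=
  (totalDegree_mul _ _).trans (by rw [totalDegree_X]; omega)

theorem fr4_deg_term {σ : Type} (u v : σ) (a b : ℕ) :
    (MvPolynomial.X u ^ a * MvPolynomial.X v ^ b : MvPolynomial σ ℂ).totalDegree ≤ a + b :=
  (totalDegree_mul _ _).trans (by rw [totalDegree_X_pow, totalDegree_X_pow])

theorem fr4_deg_pps (N a b : ℕ) : (pps N a b).totalDegree ≤ a + b :=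
  totalDegree_finsetSum_le fun _ _ => fr4_deg_term _ _ a b

theorem fr4_deg_ppsL (N : ℕ) (l : List (ℕ × ℕ)) :
    (ppsL N l).totalDegree ≤ (l.map fun p => p.1 + p.2).sum := by
  induction l with
  | nil => simp [ppsL]
  | cons p l ih =>
    rw [ppsL, List.map_cons, List.prod_cons, List.map_cons, List.sum_cons]
    exact (totalDegree_mul _ _).trans (add_le_add (fr4_deg_pps N _ _) ih)

namespace Fr

variable {X : Cox} (F : Fr X) {κ : Wt X} (A : CA X κ)

theorem ord_mono (d : Fin F.N ⊕ Fin F.N →₀ ℕ) : F.ord A (monomial d 1) =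
    A.ex (∏ i, lin ℂ (F.ε i) ^ d (Sum.inl i)) * A.ey (∏ i, lin ℂ (F.ε i) ^ d (Sum.inr i)) :=
  (basisMonomials (Fin F.N ⊕ Fin F.N) ℂ).constr_basis ℂ _ d

theorem ord_C (c : ℂ) : F.ord A (C c) = algebraMap ℂ A.H c := by
  rw [show (C c : MvPolynomial (Fin F.N ⊕ Fin F.N) ℂ) = c • monomial 0 1 by
    rw [smul_monomial, smul_eq_mul, mul_one]; rfl, map_smul, ord_mono,
    Algebra.algebraMap_eq_smul_one]
  simp

theorem ord_one : F.ord A 1 = 1 := by
  rw [← C_1, ord_C, map_one]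

theorem fr4_prod (i : Fin F.N) (d : Fin F.N → ℕ) :
    ∏ j, lin ℂ (F.ε j) ^ ((if i = j then 1 else 0) + d j) =
      lin ℂ (F.ε i) * ∏ j, lin ℂ (F.ε j) ^ d j := by
  simp only [pow_add, Finset.prod_mul_distrib]
  simp

theorem ord_inl (i : Fin F.N) (f : MvPolynomial (Fin F.N ⊕ Fin F.N) ℂ) :
    F.ord A (MvPolynomial.X (Sum.inl i) * f) = A.x (F.ε i) * F.ord A f := by
  refine LinearMap.congr_fun ((basisMonomials _ ℂ).ext
    (f₁ := F.ord A ∘ₗ LinearMap.mulLeft ℂ (MvPolynomial.X (Sum.inl i)))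
    (f₂ := LinearMap.mulLeft ℂ (A.x (F.ε i)) ∘ₗ F.ord A) fun d => ?_) f
  simp only [coe_basisMonomials, LinearMap.comp_apply, LinearMap.mulLeft_apply]
  rw [← pow_one (MvPolynomial.X _), ← monomial_single_add, ord_mono, ord_mono]
  simp only [Finsupp.add_apply, Finsupp.single_apply, Sum.inl.injEq, reduceCtorEq, if_false,
    zero_add]
  rw [fr4_prod, map_mul, A.ex_lin, mul_assoc]

theorem ord_inr (i : Fin F.N) (f : MvPolynomial (Fin F.N ⊕ Fin F.N) ℂ) :
    F.ord A (MvPolynomial.X (Sum.inr i) * f) = F.ord A f * A.y (F.ε i) := by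
  refine LinearMap.congr_fun ((basisMonomials _ ℂ).ext
    (f₁ := F.ord A ∘ₗ LinearMap.mulLeft ℂ (MvPolynomial.X (Sum.inr i)))
    (f₂ := LinearMap.mulRight ℂ (A.y (F.ε i)) ∘ₗ F.ord A) fun d => ?_) f
  simp only [coe_basisMonomials, LinearMap.comp_apply, LinearMap.mulLeft_apply,
    LinearMap.mulRight_apply]
  rw [← pow_one (MvPolynomial.X _), ← monomial_single_add, ord_mono, ord_mono]
  simp only [Finsupp.add_apply, Finsupp.single_apply, Sum.inr.injEq, reduceCtorEq, if_false,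
    zero_add]
  rw [fr4_prod, mul_comm (lin ℂ _), map_mul, A.ey_lin, mul_assoc]

theorem ord_term (i : Fin F.N) (a b : ℕ) :
    F.ord A (MvPolynomial.X (Sum.inl i) ^ a * MvPolynomial.X (Sum.inr i) ^ b) =
      A.x (F.ε i) ^ a * A.y (F.ε i) ^ b := by
  induction a with
  | zero =>
    rw [pow_zero, pow_zero, one_mul, one_mul]
    induction b with
    | zero => rw [pow_zero, pow_zero, ord_one]
    | succ b ih => rw [pow_succ', ord_inr, ih, pow_succ]
  | succ a ih => rw [pow_succ', mul_assoc, ord_inl, ih, pow_succ', mul_assoc]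

variable {F} in
theorem Act.gx {w : X.W} {π : Equiv.Perm (Fin F.N)} {η : Fin F.N → ℂ} (h : F.Act w π η)
    (i : Fin F.N) : A.g w * A.x (F.ε i) = η i • (A.x (F.ε (π i)) * A.g w) := by
  rw [A.rels.gx, h.2, map_smul, smul_mul_assoc]

variable {F} in
theorem Act.gy {w : X.W} {π : Equiv.Perm (Fin F.N)} {η : Fin F.N → ℂ} (h : F.Act w π η)
    (i : Fin F.N) : A.g w * A.y (F.ε i) = η i • (A.y (F.ε (π i)) * A.g w) := by
  rw [A.rels.gy, h.2, map_smul, smul_mul_assoc]

theorem g_ord {w : X.W} {π : Equiv.Perm (Fin F.N)} {η : Fin F.N → ℂ} (h : F.Act w π η)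
    (f : MvPolynomial (Fin F.N ⊕ Fin F.N) ℂ) :
    A.g w * F.ord A f = F.ord A (sperm π η f) * A.g w := by
  induction f using MvPolynomial.induction_on with
  | C c => rw [algHom_C, algebraMap_eq, ord_C, Algebra.commutes]
  | add p q hp hq => rw [map_add, mul_add, hp, hq, map_add, map_add, add_mul]
  | mul_X p v hp =>
    rw [mul_comm p, map_mul (sperm _ η)]
    rcases v with i | i
    · rw [show sperm π η (MvPolynomial.X (Sum.inl i)) = η i • MvPolynomial.X (Sum.inl (π i)) from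
        aeval_X _ _, ord_inl, ← mul_assoc, h.gx, smul_mul_assoc, smul_mul_assoc, map_smul, ord_inl,
        mul_assoc, hp, smul_mul_assoc, mul_assoc]
    · rw [show sperm π η (MvPolynomial.X (Sum.inr i)) = η i • MvPolynomial.X (Sum.inr (π i)) from
        aeval_X _ _, ord_inr, ← mul_assoc, hp, mul_assoc, h.gy, smul_mul_assoc, map_smul, ord_inr,
        mul_smul_comm, smul_mul_assoc, mul_assoc]

theorem map_ord (θ : A.H →ₐ[ℂ] A.H) {η : Fin F.N → ℂ}
    (hx : ∀ i, θ (A.x (F.ε i)) = η i • A.x (F.ε i))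
    (hy : ∀ i, θ (A.y (F.ε i)) = η i • A.y (F.ε i)) (f : MvPolynomial (Fin F.N ⊕ Fin F.N) ℂ) :
    θ (F.ord A f) = F.ord A (sperm 1 η f) := by
  induction f using MvPolynomial.induction_on with
  | C c => rw [algHom_C, algebraMap_eq, ord_C, AlgHom.commutes]
  | add p q hp hq => rw [map_add, map_add, hp, hq, map_add, map_add]
  | mul_X p v hp =>
    rw [mul_comm p, map_mul (sperm _ η)]
    rcases v with i | i
    · rw [show sperm 1 η (MvPolynomial.X (Sum.inl i)) = η i • MvPolynomial.X (Sum.inl i) from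
        aeval_X _ _, ord_inl, map_mul, hx, hp, smul_mul_assoc, smul_mul_assoc, map_smul, ord_inl]
    · rw [show sperm 1 η (MvPolynomial.X (Sum.inr i)) = η i • MvPolynomial.X (Sum.inr i) from
        aeval_X _ _, ord_inr, map_mul, hy, hp, mul_smul_comm, smul_mul_assoc, map_smul, ord_inr]

theorem fil_mono {d d' : ℕ} (h : d ≤ d') : F.Fil A d ≤ F.Fil A d' :=
  Submodule.span_mono fun _ ⟨f, w, hf, e⟩ => ⟨f, w, hf.trans_le h, e⟩

theorem gen_fil {f : MvPolynomial (Fin F.N ⊕ Fin F.N) ℂ} {d : ℕ} (h : f.totalDegree ≤ d)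
    (w : X.W) : F.ord A f * A.g w ∈ F.Fil A (d + 1) :=
  Submodule.subset_span ⟨f, w, Nat.lt_succ_of_le h, rfl⟩

theorem ord_fil {f : MvPolynomial (Fin F.N ⊕ Fin F.N) ℂ} {d : ℕ} (h : f.totalDegree ≤ d) :
    F.ord A f ∈ F.Fil A (d + 1) := by
  simpa using F.gen_fil A h 1

/-- linear maps on the filtration are controlled on the generators -/
theorem fil_map {d : ℕ} {S : Submodule ℂ A.H} (φ : A.H →ₗ[ℂ] A.H)
    (h : ∀ d' f w, d = d' + 1 → f.totalDegree ≤ d' → φ (F.ord A f * A.g w) ∈ S) {a : A.H}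
    (ha : a ∈ F.Fil A d) : φ a ∈ S := by
  refine (Submodule.span_le.2 ?_ : F.Fil A d ≤ S.comap φ) ha
  rintro _ ⟨f, w, hf, rfl⟩
  exact h (d - 1) f w (by omega) (by omega)

theorem fil_g {d : ℕ} {a : A.H} (ha : a ∈ F.Fil A d) (w : X.W) : a * A.g w ∈ F.Fil A d :=
  F.fil_map A (LinearMap.mulRight ℂ (A.g w)) (fun d' f u e hf => by
    rw [LinearMap.mulRight_apply, mul_assoc, ← map_mul, e]
    exact F.gen_fil A hf _) ha

theorem g_fil {d : ℕ} {a : A.H} (ha : a ∈ F.Fil A d) (w : X.W) : A.g w * a ∈ F.Fil A d :=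
  F.fil_map A (LinearMap.mulLeft ℂ (A.g w)) (fun d' f u e hf => by
    obtain ⟨π, η, h⟩ := F.exists_act w
    rw [LinearMap.mulLeft_apply, ← mul_assoc, F.g_ord A h, mul_assoc, ← map_mul, e]
    exact F.gen_fil A ((totalDegree_sperm π η f).trans hf) _) ha

theorem x_fil {d : ℕ} {a : A.H} (ha : a ∈ F.Fil A d) (i : Fin F.N) :
    A.x (F.ε i) * a ∈ F.Fil A (d + 1) :=
  F.fil_map A (LinearMap.mulLeft ℂ (A.x (F.ε i))) (fun d' f u e hf => by
    rw [LinearMap.mulLeft_apply, ← mul_assoc, ← ord_inl, e]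
    exact F.gen_fil A (fr4_deg _ hf) _) ha

theorem fil_y {d : ℕ} {a : A.H} (ha : a ∈ F.Fil A d) (i : Fin F.N) :
    a * A.y (F.ε i) ∈ F.Fil A (d + 1) :=
  F.fil_map A (LinearMap.mulRight ℂ (A.y (F.ε i))) (fun d' f u e hf => by
    obtain ⟨π, η, h⟩ := F.exists_act u
    rw [LinearMap.mulRight_apply, mul_assoc, h.gy, mul_smul_comm, ← mul_assoc, ← ord_inr, e]
    exact Submodule.smul_mem _ _ (F.gen_fil A (fr4_deg _ hf) _)) ha

theorem comm_fil {d : ℕ} {h : A.H} (hh : h ∈ F.Fil A d) (a b : X.Vc) :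
    (A.y a * A.x b - A.x b * A.y a) * h ∈ F.Fil A d ∧
      h * (A.y a * A.x b - A.x b * A.y a) ∈ F.Fil A d := by
  rw [A.rels.yx, Finset.sum_mul, Finset.mul_sum]
  refine ⟨Submodule.sum_mem _ fun t _ => ?_, Submodule.sum_mem _ fun t _ => ?_⟩
  · rw [smul_mul_assoc]
    exact Submodule.smul_mem _ _ (F.g_fil A hh t)
  · rw [mul_smul_comm]
    exact Submodule.smul_mem _ _ (F.fil_g A hh t)

theorem y_ord (i : Fin F.N) {d : ℕ} {f : MvPolynomial (Fin F.N ⊕ Fin F.N) ℂ}
    (h : f.totalDegree ≤ d) : A.y (F.ε i) * F.ord A f - F.ord A f * A.y (F.ε i) ∈ F.Fil A d := by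
  refine fr4_ind (P := fun d f => A.y (F.ε i) * F.ord A f - F.ord A f * A.y (F.ε i) ∈ F.Fil A d)
    (fun d c => ?_) (fun d f g hf hg => ?_) (fun d v f hd hf => ?_) d f h
  · rw [ord_C, Algebra.commutes, sub_self]
    exact zero_mem _
  · convert add_mem hf hg using 1
    rw [map_add]; noncomm_ring
  · rcases v with j | j
    · convert add_mem (F.x_fil A hf j) (F.comm_fil A (F.ord_fil A hd) (F.ε i) (F.ε j)).1 using 1
      rw [ord_inl]; noncomm_ring
    · convert F.fil_y A hf j using 1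
      rw [ord_inr, sub_mul, mul_assoc (F.ord A f), mul_assoc (F.ord A f), A.rels.yy (F.ε i),
        mul_assoc]

theorem ord_x (i : Fin F.N) {d : ℕ} {f : MvPolynomial (Fin F.N ⊕ Fin F.N) ℂ}
    (h : f.totalDegree ≤ d) : F.ord A f * A.x (F.ε i) - A.x (F.ε i) * F.ord A f ∈ F.Fil A d := by
  refine fr4_ind (P := fun d f => F.ord A f * A.x (F.ε i) - A.x (F.ε i) * F.ord A f ∈ F.Fil A d)
    (fun d c => ?_) (fun d f g hf hg => ?_) (fun d v f hd hf => ?_) d f h
  · rw [ord_C, Algebra.commutes, sub_self]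
    exact zero_mem _
  · convert add_mem hf hg using 1
    rw [map_add]; noncomm_ring
  · rcases v with j | j
    · convert F.x_fil A hf j using 1
      rw [ord_inl, mul_sub, ← mul_assoc (A.x _), ← mul_assoc (A.x _), ← mul_assoc (A.x _),
        A.rels.xx (F.ε i)]
    · convert add_mem (F.fil_y A hf j) (F.comm_fil A (F.ord_fil A hd) (F.ε j) (F.ε i)).2 using 1
      rw [ord_inr]; noncomm_ring

theorem y_fil {d : ℕ} {a : A.H} (ha : a ∈ F.Fil A d) (i : Fin F.N) :
    A.y (F.ε i) * a ∈ F.Fil A (d + 1) :=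
  F.fil_map A (LinearMap.mulLeft ℂ (A.y (F.ε i))) (fun d' f u e hf => by
    subst e
    have h1 := F.fil_mono A (show d' ≤ d' + 1 + 1 by omega) (F.y_ord A i hf)
    have h2 := F.fil_y A (F.ord_fil A hf) i
    convert F.fil_g A (add_mem h1 h2) u using 1
    rw [LinearMap.mulLeft_apply]; noncomm_ring) ha

theorem fil_x {d : ℕ} {a : A.H} (ha : a ∈ F.Fil A d) (i : Fin F.N) :
    a * A.x (F.ε i) ∈ F.Fil A (d + 1) :=
  F.fil_map A (LinearMap.mulRight ℂ (A.x (F.ε i))) (fun d' f u e hf => by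
    subst e
    obtain ⟨π, η, h⟩ := F.exists_act u
    have h1 := F.fil_mono A (show d' ≤ d' + 1 + 1 by omega) (F.ord_x A (π i) hf)
    have h2 := F.x_fil A (F.ord_fil A hf) (π i)
    rw [LinearMap.mulRight_apply, mul_assoc, h.gx, mul_smul_comm]
    refine Submodule.smul_mem _ _ ?_
    convert F.fil_g A (add_mem h1 h2) u using 1
    noncomm_ring) ha

theorem ord_mul_fil {d : ℕ} {f : MvPolynomial (Fin F.N ⊕ Fin F.N) ℂ} (h : f.totalDegree ≤ d) :
    ∀ d', ∀ b ∈ F.Fil A d', F.ord A f * b ∈ F.Fil A (d + d') ∧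
      b * F.ord A f ∈ F.Fil A (d + d') := by
  refine fr4_ind (P := fun d f => ∀ d', ∀ b ∈ F.Fil A d', F.ord A f * b ∈ F.Fil A (d + d') ∧
      b * F.ord A f ∈ F.Fil A (d + d'))
    (fun d c d' b hb => ?_) (fun d f g hf hg d' b hb => ?_) (fun d v f _ hf d' b hb => ?_) d f h
  · rw [ord_C, ← Algebra.commutes, ← Algebra.smul_def, and_self]
    exact Submodule.smul_mem _ _ (F.fil_mono A (by omega) hb)
  · rw [map_add, add_mul, mul_add]
    exact ⟨add_mem (hf d' b hb).1 (hg d' b hb).1, add_mem (hf d' b hb).2 (hg d' b hb).2⟩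
  · rw [show d + 1 + d' = d + d' + 1 by omega]
    rcases v with j | j
    · rw [ord_inl, mul_assoc, ← mul_assoc b]
      exact ⟨F.x_fil A (hf d' b hb).1 j, (hf _ _ (F.fil_x A hb j)).2⟩
    · rw [ord_inr, mul_assoc, ← mul_assoc b]
      exact ⟨(hf _ _ (F.y_fil A hb j)).1, F.fil_y A (hf d' b hb).2 j⟩

theorem fil_mul {a b : A.H} {d d' : ℕ} (h : a ∈ F.Fil A (d + 1)) (h' : b ∈ F.Fil A d') :
    a * b ∈ F.Fil A (d + d') ∧ b * a ∈ F.Fil A (d + d') := by
  refine ⟨F.fil_map A (LinearMap.mulRight ℂ b) (fun d₁ f u e hf => ?_) h,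
    F.fil_map A (LinearMap.mulLeft ℂ b) (fun d₁ f u e hf => ?_) h⟩
  · obtain rfl : d = d₁ := by omega
    rw [LinearMap.mulRight_apply, mul_assoc]
    exact (F.ord_mul_fil A hf _ _ (F.g_fil A h' u)).1
  · obtain rfl : d = d₁ := by omega
    rw [LinearMap.mulLeft_apply, ← mul_assoc]
    exact F.fil_g A (F.ord_mul_fil A hf _ _ h').2 u

theorem ord_mul {f f' : MvPolynomial (Fin F.N ⊕ Fin F.N) ℂ} {d d' : ℕ} (h : f.totalDegree ≤ d)
    (h' : f'.totalDegree ≤ d') :
    F.ord A f * F.ord A f' - F.ord A (f * f') ∈ F.Fil A (d + d') := by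
  refine fr4_ind (P := fun d f => ∀ f' d', f'.totalDegree ≤ d' →
      F.ord A f * F.ord A f' - F.ord A (f * f') ∈ F.Fil A (d + d'))
    (fun d c f' d' _ => ?_) (fun d f g hf hg f' d' h' => ?_) (fun d v f hd hf f' d' h' => ?_)
    d f h f' d' h'
  · rw [ord_C, ← Algebra.smul_def, ← smul_eq_C_mul, map_smul, sub_self]
    exact zero_mem _
  · convert add_mem (hf f' d' h') (hg f' d' h') using 1
    rw [add_mul, map_add, map_add]; noncomm_ring
  · rw [show d + 1 + d' = d + d' + 1 by omega]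
    rcases v with j | j
    · convert F.x_fil A (hf f' d' h') j using 1
      rw [mul_assoc, ord_inl, ord_inl]; noncomm_ring
    · have h1 := F.fil_mono A (Nat.le_succ _) (F.ord_mul_fil A hd _ _ (F.y_ord A j h')).1
      have h2 := hf _ _ (fr4_deg (Sum.inr j) h')
      rw [← add_assoc] at h2
      convert add_mem h1 h2 using 1
      rw [show MvPolynomial.X (Sum.inr j) * f * f' = f * (MvPolynomial.X (Sum.inr j) * f') by ring,
        ord_inr F A j f, ord_inr F A j f']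
      noncomm_ring

theorem g_mem_fil (w : X.W) : A.g w ∈ F.Fil A 1 := by
  simpa [ord_one] using F.gen_fil A (f := 1) (d := 0) (by simp) w

theorem gl_mem_fil (ζ : X.GA) : A.gl ζ ∈ F.Fil A 1 := by
  induction ζ using MonoidAlgebra.induction_on with
  | of w => rw [A.gl_of]; exact F.g_mem_fil A w
  | add a b ha hb => rw [map_add]; exact add_mem ha hb
  | smul c a ha => rw [map_smul]; exact Submodule.smul_mem _ _ ha

theorem exists_fil (h : A.H) : ∃ d, h ∈ F.Fil A d := by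
  have h1 : (1 : A.H) ∈ F.Fil A 1 := by simpa using F.g_mem_fil A 1
  have key : ∀ v : X.Vc →ₗ[ℂ] A.H, (∀ i, v (F.ε i) ∈ F.Fil A 2) → ∀ a, v a ∈ F.Fil A 2 :=
    fun v hv a => (Submodule.span_le.2 (by rintro _ ⟨i, rfl⟩; exact hv i) :
      Submodule.span ℂ (Set.range F.ε) ≤ (F.Fil A 2).comap v) (F.span Submodule.mem_top)
  let S : Subalgebra ℂ A.H :=
    { carrier := {h | ∃ d, h ∈ F.Fil A d}
      mul_mem' := fun {a b} ⟨d, ha⟩ ⟨d', hb⟩ =>
        ⟨d + d', (F.fil_mul A (F.fil_mono A (Nat.le_succ _) ha) hb).1⟩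
      add_mem' := fun {a b} ⟨d, ha⟩ ⟨d', hb⟩ => ⟨d + d', add_mem
        (F.fil_mono A (Nat.le_add_right _ _) ha) (F.fil_mono A (Nat.le_add_left _ _) hb)⟩
      algebraMap_mem' := fun c => ⟨1, by
        rw [Algebra.algebraMap_eq_smul_one]; exact Submodule.smul_mem _ _ h1⟩ }
  exact A.gen S (fun a => ⟨2, key A.x (fun i => by simpa using F.x_fil A h1 i) a⟩)
    (fun a => ⟨2, key A.y (fun i => by simpa using F.y_fil A h1 i) a⟩)
    (fun w => ⟨1, F.g_mem_fil A w⟩) h

end Fr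

end

end Pool.Agent.P.MP_1a0ecf_al.F
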