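import Pool.Agent.P.MP_1a0ecf_al.F.Fr5a

/-! Package Fr5: frames for the types A, B, D. -/

namespace Pool.Agent.P.MP_1a0ecf_al.F

open Matrix MvPolynomial
open scoped Classical TensorProduct

noncomputable section

namespace Fr5

variable {X : Cox}

theorem sN_eq (k : Fin X.n) : X.sN k = X.s k := dif_pos k.2

theorem sN_mk {k : ℕ} (h : k < X.n) : X.sN k = X.s ⟨k, h⟩ := dif_pos h

theorem uN_mk (F : Fr X) (κ : X.W → ℂ) {k : ℕ} (h : k < F.N) : F.uN κ k = F.u κ ⟨k, h⟩ := dif_pos h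

theorem two_step (a : ℂ) (g u m : X.GA) : g * ((2 : ℂ) • u) * g + a • (g + m) =
    (2 : ℂ) • (g * u * g + ((a / 2) • g + (a / 2) • m)) := by
  rw [mul_smul_comm, smul_mul_assoc]
  module

section Frame

variable {F : Fr X} {e : ℕ → X.Vc} (hs : F.sg = -1) (hN : F.N = X.n) (he : ∀ i, F.ε i = e i)
  (hk : ∀ (k : Fin X.n) m, (k : ℕ) = m + 1 → X.eb k = e (m + 1) - e m)
include hN he hk

theorem s_act {m : ℕ} (hm : m + 1 < X.n) {i : ℕ} (hi : i < X.n) :
    X.σK ℂ (X.s ⟨m + 1, hm⟩) *ᵥ e i = e (if i = m then m + 1 else if i = m + 1 then m else i) := by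
  have h := (act_swap F (k := ⟨m + 1, hm⟩) (i := ⟨m, by omega⟩) (j := ⟨m + 1, by omega⟩)
    (by simp) (by rw [he, he, hk _ m rfl])).2 ⟨i, by omega⟩
  rw [one_smul, he, he, Equiv.swap_apply_def] at h
  rw [h]
  simp only [Fin.mk.injEq]
  split_ifs <;> rfl

include hs

theorem step' (κ : Wt X) {m : ℕ} (hm : m + 1 < X.n) {t : X.W} (ht : Rt t (e (m + 1) + e m)) :
    F.uN κ (m + 1) = X.gA (X.sN (m + 1)) * F.uN κ m * X.gA (X.sN (m + 1)) +
      (κ (X.s ⟨m + 1, hm⟩) • X.gA (X.sN (m + 1)) + κ t • X.gA t) := by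
  rw [uN_mk F κ (show m + 1 < F.N by omega), uN_mk F κ (show m < F.N by omega), sN_mk hm,
    step F κ (k := ⟨m + 1, hm⟩) (i := ⟨m, by omega⟩) rfl (by rw [he, he, hk _ m rfl]), Fr.Sm,
    if_neg (by rw [hs]; norm_num), he, he, F.rf_eq κ ht.1 ht.2]

end Frame

/-- the exchange of the nodes `0` and `1` -/
def sw (hn : 4 ≤ X.n) : Equiv.Perm (Fin X.n) := Equiv.swap ⟨0, by omega⟩ ⟨1, by omega⟩

theorem sw_val (hn : 4 ≤ X.n) (k : Fin X.n) :
    (sw hn k : ℕ) = if (k : ℕ) = 0 then 1 else if (k : ℕ) = 1 then 0 else (k : ℕ) := by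
  rw [sw, Equiv.swap_apply_def]
  simp only [Fin.ext_iff]
  split_ifs <;> rfl

theorem sw_sw (hn : 4 ≤ X.n) (k : Fin X.n) : sw hn (sw hn k) = k := Equiv.swap_apply_self _ _ _

theorem M_sw (h : X.Is dM) (hn : 4 ≤ X.n) (k l : Fin X.n) : X.M (sw hn k) (sw hn l) = X.M k l := by
  rw [h, h, sw_val, sw_val, dM, dM]
  split_ifs <;> first | omega | simp at *

theorem sw_s (hn : 4 ≤ X.n) {σ : X.W ≃* X.W} (hσ : Cox.IsSw σ) (k : Fin X.n) :
    σ (X.s k) = X.s (sw hn k) := by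
  rw [← sN_eq, ← sN_eq, sw_val]
  split_ifs with h0 h1
  · rw [h0, hσ.1]
  · rw [h1, hσ.2.1]
  · exact hσ.2.2 k (by omega)

/-- the exchange of the coordinates `0` and `1` -/
def ph (hn : 4 ≤ X.n) : X.Vc →ₗ[ℂ] X.Vc := LinearMap.funLeft ℂ ℂ (sw hn)

theorem ph_ph (hn : 4 ≤ X.n) (v : X.Vc) : ph hn (ph hn v) = v :=
  funext fun k => congrArg v (sw_sw hn k)

theorem ph_eb (hn : 4 ≤ X.n) (k : Fin X.n) : ph hn (X.eb k) = X.eb (sw hn k) := by
  funext l
  show X.eb k (sw hn l) = _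
  simp only [Pi.single_apply]
  exact if_congr ⟨fun e => by rw [← e, sw_sw], fun e => by rw [e, sw_sw]⟩ rfl rfl

theorem BK_ph (h : X.Is dM) (hn : 4 ≤ X.n) (u v : X.Vc) :
    X.BK ℂ (ph hn u) (ph hn v) = X.BK ℂ u v := by
  simp only [Cox.BK, dotProduct, mulVec, map_apply]
  rw [← Equiv.sum_comp (sw hn) fun i => u i * _]
  refine Finset.sum_congr rfl fun i _ => ?_
  rw [← Equiv.sum_comp (sw hn) fun j => algebraMap ℝ ℂ (X.K (sw hn i) j) * v j]
  simp only [Cox0.K, M_sw h hn]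
  rfl

section Sw

variable (h : X.Is dM) (hn : 4 ≤ X.n) {σ : X.W ≃* X.W} (hσ : Cox.IsSw σ)
include hσ hn

theorem σ_σ (w : X.W) : σ (σ w) = w := by
  induction w using X.cs.simple_induction with
  | simple i => rw [sw_s hn hσ, sw_s hn hσ, sw_sw]
  | one => rw [map_one, map_one]
  | mul a b ha hb => rw [map_mul, map_mul, ha, hb]

include h

theorem σ_ph (w : X.W) (v : X.Vc) : X.σK ℂ (σ w) *ᵥ ph hn v = ph hn (X.σK ℂ w *ᵥ v) := by
  induction w using X.cs.simple_induction generalizing v with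
  | simple i =>
    rw [sw_s hn hσ, (Rt.simple _).act, (Rt.simple _).act, ← ph_eb, BK_ph h, map_sub, map_smul]
  | one => rw [map_one, map_one, one_mulVec, one_mulVec]
  | mul a b ha hb => rw [map_mul, X.c1_mul, X.c1_mul, hb, ha]

theorem Rt.sig {t : X.W} {v : X.Vc} (ht : Rt t v) : Rt (σ t) (ph hn v) := by
  obtain ⟨-, w, i, e1, e2⟩ := X.rt_spec ht.1
  have h1 := (Rt.simple (sw hn i)).conj (σ w)
  rw [← ph_eb, σ_ph h hn hσ, ← sw_s hn hσ, ← map_inv, ← map_mul, ← map_mul, ← e1,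
    show X.σK ℂ w *ᵥ X.eb i = X.rc t by rw [Cox.rc, e2, ← X.σK_vK ℂ, X.vK_al ℂ]] at h1
  refine ⟨h1.1, ?_⟩
  rcases ht.2 with e | e <;> rw [e] at h1
  · exact h1.2
  · simpa only [map_neg, neg_neg] using h1.2.symm

theorem sum_σ {β : Type} [AddCommMonoid β] (f : X.W → β) :
    ∑ t ∈ X.refls, f t = ∑ t ∈ X.refls, f (σ t) := by
  refine (Finset.sum_equiv σ.toEquiv (fun t => ?_) fun _ _ => rfl).symm
  rw [X.mem_refls, X.mem_refls]
  refine ⟨fun ht => (Rt.sig h hn hσ ⟨ht, Or.inl rfl⟩).1, fun ht => ?_⟩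
  rw [← σ_σ hn hσ t]
  exact (Rt.sig h hn hσ ⟨ht, Or.inl rfl⟩).1

variable {κ : Wt X} {a : ℂ} (hκ : ∀ i, κ (X.s i) = a / 2)
include hκ

omit h hn hσ in
theorem wt_refl {t : X.W} (ht : X.cs.IsReflection t) : κ t = a / 2 := by
  obtain ⟨w, i, rfl⟩ := ht
  rw [κ.cl _ w (X.cs.isReflection_simple i), hκ]

theorem exists_theta (A : CA X κ) : ∃ θ, A.Aut σ θ ∧ (∀ v, θ (A.x v) = A.x (ph hn v)) ∧
    (∀ v, θ (A.y v) = A.y (ph hn v)) ∧
    ∀ (F : Fr X) v, θ (A.gl (F.rf κ v)) = A.gl (F.rf κ (ph hn v)) := by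
  obtain ⟨θ, hx, hy, hg⟩ := A.lift A.H (A.x ∘ₗ ph hn) (A.y ∘ₗ ph hn) (A.g.comp σ.toMonoidHom)
    ⟨fun w v => (A.rels.gx (σ w) (ph hn v)).trans (by rw [σ_ph h hn hσ]; rfl),
      fun w v => (A.rels.gy (σ w) (ph hn v)).trans (by rw [σ_ph h hn hσ]; rfl),
      fun _ _ => A.rels.xx _ _, fun _ _ => A.rels.yy _ _, fun u v => (A.rels.yx _ _).trans (by
        rw [sum_σ h hn hσ]
        refine Finset.sum_congr rfl fun t ht => ?_
        have h1 := X.mem_refls.1 ht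
        have h2 := Rt.sig h hn hσ ⟨h1, Or.inl rfl⟩
        rw [wt_refl hκ h1, wt_refl hκ h2.1]
        rcases h2.2 with e | e <;> rw [e]
        · rw [BK_ph h, BK_ph h]
          rfl
        · rw [BK_neg, BK_neg, BK_ph h, BK_ph h, mul_assoc, neg_mul_neg, ← mul_assoc]
          rfl)⟩
  refine ⟨θ, ⟨A.gen (AlgHom.equalizer (θ.comp θ) (AlgHom.id ℂ _)) (fun v => ?_) (fun v => ?_)
    fun w => ?_, fun v => ⟨_, hx v⟩, fun v => ⟨_, hy v⟩, hg⟩, hx, hy, fun F v => ?_⟩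
  · show θ (θ _) = _
    rw [hx, LinearMap.comp_apply, hx, LinearMap.comp_apply, ph_ph, AlgHom.id_apply]
  · show θ (θ _) = _
    rw [hy, LinearMap.comp_apply, hy, LinearMap.comp_apply, ph_ph, AlgHom.id_apply]
  · show θ (θ _) = _
    rw [hg, MonoidHom.comp_apply, hg]
    exact congrArg A.g (σ_σ hn hσ w)
  · rw [Fr.rf, Fr.rf, Finset.sum_filter, Finset.sum_filter,
      sum_σ h hn hσ fun t => if X.rc t = ph hn v ∨ _ then _ else _, map_sum, map_sum, map_sum]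
    refine Finset.sum_congr rfl fun t ht => ?_
    have h1 := X.mem_refls.1 ht
    have h2 := (Rt.sig h hn hσ ⟨h1, Or.inl rfl⟩).1
    by_cases h3 : X.rc t = v ∨ X.rc t = -v
    · rw [if_pos h3, if_pos (Rt.sig h hn hσ ⟨h1, h3⟩).2, map_smul, map_smul, map_smul, A.gl_of,
        A.gl_of, hg, wt_refl hκ h1, wt_refl hκ h2]
      rfl
    · rw [if_neg h3, if_neg, map_zero, map_zero]
      intro h4
      have := (Rt.sig h hn hσ ⟨h2, h4⟩).2
      rw [σ_σ hn hσ, ph_ph] at this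
      exact h3 this

end Sw

end Fr5

namespace Cox

open Fr5

variable {X : Cox}

theorem SameP.congr {u u' : ℕ → X.GA} {N : ℕ} {c : ℂ} (hc : c ≠ 0) (h : ∀ i < N, u' i = c • u i)
    (χ χ' : X.W → ℂ) : SameP u' N χ χ' ↔ SameP u N χ χ' := by
  refine forall_congr' fun j => ?_
  have e : ∑ i ∈ Finset.range N, u' i ^ j = c ^ j • ∑ i ∈ Finset.range N, u i ^ j := by
    rw [Finset.smul_sum]
    exact Finset.sum_congr rfl fun i hi => by rw [h i (Finset.mem_range.1 hi), smul_pow]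
  rw [e, map_smul, map_smul, smul_eq_mul, smul_eq_mul, mul_assoc, mul_assoc,
    mul_right_inj' (pow_ne_zero j hc)]

theorem SameP.symm {u : ℕ → X.GA} {N : ℕ} {χ χ' : X.W → ℂ} (h : SameP u N χ χ') :
    SameP u N χ' χ := fun j => (h j).symm

theorem SameP.trans {u : ℕ → X.GA} {N : ℕ} {χ χ' χ'' : X.W → ℂ} (h : SameP u N χ χ')
    (h' : SameP u N χ' χ'') (h1 : χ' 1 ≠ 0) : SameP u N χ χ'' := by
  intro j
  refine mul_right_cancel₀ h1 ?_
  linear_combination χ'' 1 * h j + χ 1 * h' j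

theorem frameA (h : X.Is (pathM 0 3)) : ∃ F : Fr X, F.sg = 1 ∧ F.N = X.n + 1 ∧
    ∀ (κ : Wt X) (a : ℂ), (∀ i, κ (X.s i) = a / 2) →
      ∀ i < F.N, X.uA a i = (2 : ℂ) • F.uN κ i := by
  obtain ⟨F, hs, hN, hk⟩ := exists_A h
  refine ⟨F, hs, hN, fun κ a hκ i hi => ?_⟩
  induction i with
  | zero => rw [uA, uN_mk F κ hi, u_zero F κ rfl, Fr.St, if_pos hs, smul_zero]
  | succ m ih =>
    have hm : m < X.n := by omega
    rw [uA, ih (by omega), uN_mk F κ hi, uN_mk F κ (show m < F.N by omega), sN_mk hm,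
      step F κ (k := ⟨m, hm⟩) (i := ⟨m, by omega⟩) (j := ⟨m + 1, hi⟩) rfl (hk _ _ _ rfl rfl), Fr.Sm,
      if_pos hs, hκ, mul_smul_comm, smul_mul_assoc]
    module

theorem frameB (h : X.Is (pathM 0 4)) (hn : 2 ≤ X.n) : ∃ F : Fr X, F.sg = -1 ∧ F.N = X.n ∧
    F.Act (X.sN 0) 1 (fun i => if (i : ℕ) = 0 then -1 else 1) ∧
    ∀ (κ : Wt X) (a b : ℂ), (∀ i, κ (X.s i) = (if (i : ℕ) = 0 then b else a) / 2) →
      ∀ i < F.N, X.uB a b i = (2 : ℂ) • F.uN κ i := by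
  have h0 : 0 < X.n := by omega
  obtain ⟨F, e, hs, hN, he, hk, hz⟩ := exists_BD _ (dot_B h) (Or.inr ⟨⟨0, h0⟩, rfl⟩)
  have ht : ∀ m < X.n, Rt (X.tB m) (((√2 : ℝ) : ℂ) • e m) := by
    intro m hm
    induction m with
    | zero =>
      rw [tB, sN_mk hm, ← (hz ⟨0, hm⟩ rfl).2 rfl]
      exact Rt.simple _
    | succ m ih =>
      have := (ih (by omega)).conj_s ⟨m + 1, hm⟩
      rwa [mulVec_smul, s_act hN he hk hm (by omega), if_pos rfl, ← sN_mk hm] at this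
  have ha : ∀ (m : ℕ) (hm : m < F.N), F.Act (X.tB m) 1 fun i => if i = ⟨m, hm⟩ then -1 else 1 :=
    fun m hm => act_sign F hs (by rw [he]; exact ht m (by omega))
  refine ⟨F, hs, hN, by simpa only [Fin.ext_iff, tB] using ha 0 (by omega), fun κ a b hκ i hi => ?_⟩
  induction i with
  | zero =>
    rw [uB, uN_mk F κ hi, u_zero F κ rfl, Fr.St, if_neg (by rw [hs]; norm_num), he,
      F.rf_eq κ (ht 0 h0).1 (ht 0 h0).2, tB, sN_mk h0, hκ, if_pos rfl]
    module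
  | succ m ih =>
    have hm : m + 1 < X.n := by omega
    have h1 := (Rt.simple ⟨m + 1, hm⟩).conj (X.tB m)
    have h2 := κ.cl _ (X.tB m) (X.cs.isReflection_simple ⟨m + 1, hm⟩)
    rw [(ht m (by omega)).1.inv, ← Cox0.s] at h2
    rw [(ht m (by omega)).1.inv, hk _ m rfl, mulVec_sub, ← he ⟨m + 1, hi⟩, ← he ⟨m, by omega⟩,
      (ha m (by omega)).2, (ha m (by omega)).2] at h1
    simp only [Fin.mk.injEq, Nat.add_eq_left, one_ne_zero, if_true, if_false, one_smul,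
      neg_smul, sub_neg_eq_add, Equiv.Perm.one_apply, he] at h1
    rw [uB, ih (by omega), step' hs hN he hk κ hm h1, h2, hκ, if_neg (by simp), two_step,
      sN_mk hm]

theorem exists_sw (h : X.Is dM) (hn : 4 ≤ X.n) : ∃ σ : X.W ≃* X.W, IsSw σ := by
  have hl : X.M.IsLiftable fun i => X.s (sw hn i) := fun i j => by
    rw [← M_sw h hn]
    exact X.cs.simple_mul_simple_pow _ _
  have h1 : ∀ i, X.cs.lift ⟨_, hl⟩ (X.s i) = X.s (sw hn i) := X.cs.lift_apply_simple hl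
  have h2 : (X.cs.lift ⟨_, hl⟩).comp (X.cs.lift ⟨_, hl⟩) = MonoidHom.id _ :=
    X.cs.ext_simple fun i => by rw [MonoidHom.comp_apply, h1, h1, sw_sw, MonoidHom.id_apply]
  have h3 : ∀ k : Fin X.n, MonoidHom.toMulEquiv _ _ h2 h2 (X.sN k) = X.sN (sw hn k) := fun k => by
    rw [sN_eq, sN_eq]
    exact h1 k
  refine ⟨MonoidHom.toMulEquiv _ _ h2 h2, ?_, ?_, fun k hk => ?_⟩
  · simpa [sw_val] using h3 ⟨0, by omega⟩
  · simpa [sw_val] using h3 ⟨1, by omega⟩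
  · by_cases hk' : k < X.n
    · have := h3 ⟨k, hk'⟩
      rwa [sw_val, if_neg (by simp; omega), if_neg (by simp; omega)] at this
    · rw [sN, dif_neg hk', map_one]

theorem frameD (h : X.Is dM) (hn : 4 ≤ X.n) {σ : X.W ≃* X.W} (hσ : IsSw σ) :
    ∃ F : Fr X, F.sg = -1 ∧ F.N = X.n ∧
    ∀ (κ : Wt X) (a : ℂ), (∀ i, κ (X.s i) = a / 2) →
      (∀ i < F.N, X.uD a i = (2 : ℂ) • F.uN κ i) ∧ ∀ A : CA X κ, ∃ θ, A.Aut σ θ ∧
        (∀ i, θ (A.x (F.ε i)) = (if (i : ℕ) = 0 then F.sg else 1) • A.x (F.ε i)) ∧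
        (∀ i, θ (A.y (F.ε i)) = (if (i : ℕ) = 0 then F.sg else 1) • A.y (F.ε i)) ∧
        ∀ i, θ (F.z A i) = F.z A i := by
  have h0 : 0 < X.n := by omega
  have h1 : 1 < X.n := by omega
  obtain ⟨F, e, hs, hN, he, hk, hz⟩ := exists_BD _ (dot_D h hn)
    (Or.inl ⟨⟨0, h0⟩, ⟨1, h1⟩, by simp, rfl⟩)
  have e0 := (hz ⟨0, h0⟩ rfl).1 rfl
  have e1 : _ = e 1 - e 0 := hk ⟨1, h1⟩ 0 rfl
  have hSt : ∀ κ m, F.St κ m = 0 := St_zero F hs fun k => by
    rcases hk' : (k : ℕ) with - | m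
    · exact ⟨⟨0, by omega⟩, ⟨1, by omega⟩, 1, by simp, by
        rw [(hz k hk').1 rfl, he, he, one_smul]⟩
    · have := k.2
      exact ⟨⟨m + 1, by omega⟩, ⟨m, by omega⟩, -1, by simp, by
        rw [hk k m hk', he, he, neg_one_smul, sub_eq_add_neg]⟩
  have ht : ∀ m, m + 1 < X.n → Rt (X.mD m) (e (m + 1) + e m) := by
    intro m hm
    induction m with
    | zero =>
      rw [mD, sN_mk h0, add_comm, ← e0]
      exact Rt.simple _
    | succ m ih =>
      have h2 : m + 1 < X.n := by omega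
      have := ((ih h2).conj_s ⟨m + 2, hm⟩).conj_s ⟨m + 1, h2⟩
      rw [mulVec_add, s_act hN he hk hm h2, s_act hN he hk hm (by omega), if_pos rfl,
        if_neg (by omega), if_neg (by omega), mulVec_add, s_act hN he hk h2 hm,
        s_act hN he hk h2 (by omega), if_pos rfl, if_neg (by omega), if_neg (by omega)] at this
      rw [mD, sN_mk h2, sN_mk hm]
      simpa only [mul_assoc] using this
  have hp : ∀ m < X.n, ph hn (e m) = (if m = 0 then (-1 : ℂ) else 1) • e m := by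
    have f0 := ph_eb hn ⟨0, h0⟩
    have f1 := ph_eb hn ⟨1, h1⟩
    rw [sw, Equiv.swap_apply_left, e0, e1, map_add] at f0
    rw [sw, Equiv.swap_apply_right, e0, e1, map_sub] at f1
    intro m hm
    induction m with
    | zero =>
      rw [if_pos rfl]
      linear_combination (norm := module) (2 : ℂ)⁻¹ • f0 - (2 : ℂ)⁻¹ • f1
    | succ m ih =>
      rw [if_neg (by omega), one_smul]
      rcases m with - | m
      · rw [zero_add]
        linear_combination (norm := module) (2 : ℂ)⁻¹ • f0 + (2 : ℂ)⁻¹ • f1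
      · have f2 := ph_eb hn ⟨m + 2, hm⟩
        rw [sw, Equiv.swap_apply_of_ne_of_ne (by simp) (by simp), hk _ (m + 1) rfl, map_sub,
          ih (by omega), if_neg (by omega), one_smul] at f2
        exact sub_left_injective f2
  have hp' : ∀ i, ph hn (F.ε i) = (if (i : ℕ) = 0 then F.sg else 1) • F.ε i := fun i => by
    rw [he, hs, hp _ (hN ▸ i.2)]
  refine ⟨F, hs, hN, fun κ a hκ => ⟨fun i hi => ?_, fun A => ?_⟩⟩
  · induction i with
    | zero => rw [uD, uN_mk F κ hi, u_zero F κ rfl, hSt, smul_zero]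
    | succ m ih =>
      have hm : m + 1 < X.n := by omega
      rw [uD, ih (by omega), step' hs hN he hk κ hm (ht m hm), hκ, wt_refl hκ (ht m hm).1,
        two_step]
  obtain ⟨θ, k1, k2, k3, k4⟩ := exists_theta h hn hσ hκ A
  refine ⟨θ, k1, fun i => by rw [k2, hp', map_smul], fun i => by rw [k3, hp', map_smul],
    fun i => ?_⟩
  rw [Fr.z, map_add, map_mul, k2, k3, hp', map_smul, map_smul, smul_mul_smul_comm, Fr.u, hSt,
    add_zero, map_sum, map_sum]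
  congr 1
  · rw [hs]
    split_ifs <;> simp
  refine Finset.sum_congr rfl fun j hj => ?_
  have hj' : (j : ℕ) < i := (Finset.mem_filter.1 hj).2
  rw [Fr.Sp, Fr.Sm, if_neg (by rw [hs]; norm_num), map_add, map_add, k4, k4, map_sub, map_add, hp',
    hp', hs, if_neg (by omega), one_smul]
  split_ifs
  · rw [neg_one_smul, sub_neg_eq_add, ← sub_eq_add_neg, add_comm]
  · rw [one_smul]

end Cox

end

end Pool.Agent.P.MP_1a0ecf_al.F
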