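import Pool.Agent.P.MP_1a0ecf_al.F.G4

/-! Package G6: exchange lemmas, parabolic words, Matsumoto theorem. -/

namespace Pool.Agent.P.MP_1a0ecf_al.F

open Matrix
open scoped Classical

noncomputable section

theorem Cox0.g6_asc (X : Cox0) {i j : Fin X.n} (h : i ≠ j) :
    X.len (X.s i) < X.len (X.s i * X.s j) := by
  rw [X.asc_iff, X.σ_simple_mulVec, X.B_al_al, sub_eq_add_neg, ← neg_smul]
  exact add_nonneg (Pi.single_nonneg.2 zero_le_one)
    (smul_nonneg (neg_nonneg.2 (X.K_nonpos h)) (Pi.single_nonneg.2 zero_le_one))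

namespace Cox

variable (X : Cox)

private theorem g6_form : ∃ F : (Fin X.n → ℝ) →ₗ[ℝ] (Fin X.n → ℝ) →ₗ[ℝ] ℝ,
    (∀ u v, F u v = F v u) ∧ (∀ u, u ≠ 0 → 0 < F u u) ∧
      ∀ x u v, F (X.σ x *ᵥ u) (X.σ x *ᵥ v) = F u v := by
  refine ⟨LinearMap.mk₂ ℝ (fun u v => ∑ w, (X.σ w *ᵥ u) ⬝ᵥ (X.σ w *ᵥ v)) ?_ ?_ ?_ ?_, ?_, ?_, ?_⟩
  · intro a b c
    simp only [mulVec_add, add_dotProduct, Finset.sum_add_distrib]
  · intro c a b
    simp only [mulVec_smul, smul_dotProduct, Finset.smul_sum]
  · intro a b c
    simp only [mulVec_add, dotProduct_add, Finset.sum_add_distrib]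
  · intro c a b
    simp only [mulVec_smul, dotProduct_smul, Finset.smul_sum]
  · exact fun u v => Finset.sum_congr rfl fun w _ => dotProduct_comm _ _
  · intro u hu
    refine Finset.sum_pos' (fun w _ => Finset.sum_nonneg fun k _ => mul_self_nonneg _)
      ⟨1, Finset.mem_univ _, ?_⟩
    rw [G3.mv_one]
    exact lt_of_le_of_ne (Finset.sum_nonneg fun k _ => mul_self_nonneg _)
      fun e => hu (dotProduct_self_eq_zero.1 e.symm)
  · intro x u v
    simp only [LinearMap.mk₂_apply, ← G3.mv_mul]
    exact Equiv.sum_comp (Equiv.mulRight x) fun w => (X.σ w *ᵥ u) ⬝ᵥ (X.σ w *ᵥ v)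

private theorem g6_swap {w : X.W} {i j : Fin X.n} (h0 : X.len w < X.len (w * X.s j))
    (h1 : X.len (X.s i * w * X.s j) < X.len (X.s i * w)) : X.s i * w = w * X.s j := by
  have h2 := X.neg_of_desc h1
  rw [G3.mv_mul] at h2
  have h3 := G3.eq_al X (G3.B_root X w j) (X.pos_of_asc h0) h2
  have h4 : w * X.s j * w⁻¹ = X.s i := G3.eq_of_mv X fun v => by
    rw [X.σ_conj_simple, h3, X.σ_simple_mulVec]
  rw [← h4, inv_mul_cancel_right]

private theorem g6_par (I : Set (Fin X.n)) : ∃ (Y : Cox0) (P : Par Y X.toCox0),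
    Set.range P.e = I ∧ Subgroup.closure (X.s '' I) = P.ι.range := by
  let e := I.toFinset.orderEmbOfFin rfl
  obtain ⟨W', _, _, cs', h, P, hP⟩ := exists_par X ⟨fun i j => X.M (e i) (e j),
    Matrix.IsSymm.ext fun i j => X.M.symmetric _ _, fun i => X.M.diagonal _,
    fun i j hij => X.M.off_diagonal _ _ (e.injective.ne hij)⟩ e e.injective fun _ _ => rfl
  have h1 : Set.range P.e = I := by
    rw [hP]
    simp [e]
  refine ⟨_, P, h1, ?_⟩
  refine (congrArg (fun J => Subgroup.closure (X.s '' J)) h1.symm).trans ?_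
  rw [MonoidHom.range_eq_map, ← cs'.subgroup_closure_range_simple, MonoidHom.map_closure,
    ← Set.range_comp, ← Set.range_comp]
  exact congrArg (fun f => Subgroup.closure (Set.range f)) (funext fun i => (P.ι_s i).symm)

theorem K_posDef : X.K.PosDef := by
  obtain ⟨F, h1, h2, h3⟩ := X.g6_form
  have hd : ∀ i, 0 < F (X.al i) (X.al i) / 2 := fun i =>
    half_pos (h2 _ (by simp [Cox0.al]))
  have h4 : ∀ i j, F (X.al i) (X.al j) = F (X.al i) (X.al i) / 2 * X.K i j := by
    intro i j
    have := h3 (X.s i) (X.al i) (X.al j)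
    rw [G3.s_al, X.σ_simple_mulVec, X.B_al_al] at this
    simp only [map_neg, map_sub, map_smul, LinearMap.neg_apply, smul_eq_mul] at this
    linarith
  generalize hD : (fun i => F (X.al i) (X.al i) / 2) = d at *
  have hd' : ∀ i, 0 < d i := fun i => hD ▸ hd i
  have h5 : ∀ i j, X.K i j = (√(d i))⁻¹ * (√(d j))⁻¹ * F (X.al i) (X.al j) := by
    intro i j
    have a : F (X.al i) (X.al j) = d i * X.K i j := hD ▸ h4 i j
    have b : F (X.al j) (X.al i) = d j * X.K j i := hD ▸ h4 j i
    have c : X.K j i = X.K i j := congrFun (congrFun X.K_symm i) j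
    rw [h1, a, c] at b
    rcases mul_eq_mul_right_iff.1 b with e | e
    · have := hd' j
      rw [a, e, ← mul_inv, Real.mul_self_sqrt this.le, inv_mul_cancel_left₀ this.ne']
    · rw [a, e, mul_zero, mul_zero]
  refine PosDef.of_dotProduct_mulVec_pos (isHermitian_iff_isSymm.2 X.K_symm) fun v hv => ?_
  have h6 := h2 (∑ i, (v i * (√(d i))⁻¹) • X.al i) fun e => hv (funext fun k => by
    have := congrFun e k
    simpa [Cox0.al, Finset.sum_apply, Pi.single_apply, (Real.sqrt_pos.2 (hd' k)).ne'] using this)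
  refine h6.trans_eq ?_
  simp only [map_sum, map_smul, LinearMap.sum_apply, LinearMap.smul_apply, smul_eq_mul,
    dotProduct, mulVec, star_trivial, Finset.mul_sum]
  refine Finset.sum_congr rfl fun i _ => Finset.sum_congr rfl fun j _ => ?_
  rw [h5 i j, h1]
  ring

/-- the lemma behind the commutation of left and right multiplication -/
theorem swap_of_len {w : X.W} {i j : Fin X.n} (h1 : X.len (X.s i * w * X.s j) = X.len w)
    (h2 : X.len (X.s i * w) = X.len (w * X.s j)) : X.s i * w = w * X.s j := by
  rcases X.cs.length_mul_simple w j with h | h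
  · exact X.g6_swap (by simp only [Cox0.len, Cox0.s] at *; omega)
      (by simp only [Cox0.len, Cox0.s] at *; omega)
  · have := X.g6_swap (w := X.s i * w) (i := i) (j := j)
      (by simp only [Cox0.len, Cox0.s] at *; omega)
      (by rw [X.cs.simple_mul_simple_cancel_left]; simp only [Cox0.len, Cox0.s] at *; omega)
    rw [X.cs.simple_mul_simple_cancel_left] at this
    exact (X.cs.simple_mul_simple_cancel_right j).symm.trans (congrArg (· * X.s j) this.symm)

theorem exists_word {I : Set (Fin X.n)} {w : X.W} (h : w ∈ Subgroup.closure (X.s '' I)) :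
    ∃ l : List (Fin X.n), (∀ i ∈ l, i ∈ I) ∧ X.cs.IsReduced l ∧ X.cs.wordProd l = w := by
  obtain ⟨Y, P, h1, h2⟩ := X.g6_par I
  rw [h2] at h
  obtain ⟨u, rfl⟩ := h
  obtain ⟨l, h3, rfl⟩ := Y.cs.exists_isReduced u
  have h4 : X.cs.wordProd (l.map P.e) = P.ι (Y.cs.wordProd l) := by
    simp only [CoxeterSystem.wordProd, map_list_prod, List.map_map]
    exact congrArg (fun f => (l.map f).prod) (funext fun i => (P.ι_s i).symm)
  refine ⟨l.map P.e, fun i hi => ?_, ?_, h4⟩
  · obtain ⟨j, -, rfl⟩ := List.mem_map.1 hi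
    exact h1 ▸ ⟨j, rfl⟩
  · rw [CoxeterSystem.IsReduced, h4, List.length_map]
    exact (P.len_ι _).trans h3

/-- a right descent of an element of a parabolic subgroup lies in the subset -/
theorem desc_mem {I : Set (Fin X.n)} {w : X.W} (h : w ∈ Subgroup.closure (X.s '' I))
    {i : Fin X.n} (hi : X.len (w * X.s i) < X.len w) : i ∈ I := by
  obtain ⟨Y, P, h1, h2⟩ := X.g6_par I
  rw [h2] at h
  obtain ⟨u, rfl⟩ := h
  by_contra hc
  have h3 := P.len_rep (x := X.s i) (fun j => X.g6_asc fun e => hc (h1 ▸ ⟨j, e.symm⟩)) u⁻¹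
  rw [map_inv, Cox0.len, ← X.cs.length_inv, _root_.mul_inv_rev, inv_inv, X.cs.inv_simple, Cox0.len,
    Cox0.len, Y.cs.length_inv] at h3
  have h4 := P.len_ι u
  simp only [Cox0.len, Cox0.s] at *
  omega

/-- minimal left coset representatives -/
theorem exists_coset (I : Set (Fin X.n)) (w : X.W) : ∃ x u, w = x * u ∧
    u ∈ Subgroup.closure (X.s '' I) ∧ (∀ i ∈ I, X.len x < X.len (x * X.s i)) ∧
    ∀ v ∈ Subgroup.closure (X.s '' I), X.len (x * v) = X.len x + X.len v := by
  obtain ⟨Y, P, h1, h2⟩ := X.g6_par I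
  obtain ⟨x, u, h3, h4⟩ := P.exists_rep w
  rw [h2]
  refine ⟨x, P.ι u, h4, ⟨u, rfl⟩, ?_, ?_⟩
  · rw [← h1]
    rintro _ ⟨j, rfl⟩
    exact h3 j
  · rintro _ ⟨v, rfl⟩
    rw [P.len_rep h3, P.len_ι]

/-- an element with two right descents ends with the long alternating word -/
theorem two_desc {w : X.W} {i j : Fin X.n} (hij : i ≠ j) (hi : X.len (w * X.s i) < X.len w)
    (hj : X.len (w * X.s j) < X.len w) : ∃ v,
    w = v * X.cs.wordProd (CoxeterSystem.alternatingWord i j (X.M i j)) ∧
      X.len w = X.len v + X.M i j := by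
  suffices H : ∀ k ≤ X.M i j, ∃ v, w = v * X.cs.wordProd (CoxeterSystem.alternatingWord i j k) ∧
      X.len w = X.len v + k from H _ le_rfl
  intro k hk
  induction k with
  | zero => exact ⟨w, by simp [CoxeterSystem.alternatingWord], rfl⟩
  | succ k ih =>
    obtain ⟨v, hv, hl⟩ := ih (by omega)
    rcases X.cs.length_mul_simple v (if Even k then j else i) with h2 | h2
    swap
    · refine ⟨v * X.s (if Even k then j else i), ?_, by simp only [Cox0.len, Cox0.s] at *; omega⟩
      rw [CoxeterSystem.alternatingWord_succ', X.cs.wordProd_cons, ← mul_assoc,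
        X.cs.simple_mul_simple_cancel_right]
      exact hv
    exfalso
    rcases k with - | k
    · obtain rfl : w = v := by simpa [CoxeterSystem.alternatingWord] using hv
      simp only [Cox0.len, Cox0.s, Even.zero, if_true] at *
      omega
    have a2 : X.len v < X.len (v * X.s (if Even k then j else i)) := by
      rw [CoxeterSystem.alternatingWord_succ', X.cs.wordProd_cons, ← mul_assoc] at hv
      have h3 := X.cs.length_mul_le (v * X.s (if Even k then j else i))
        (X.cs.wordProd (CoxeterSystem.alternatingWord i j k))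
      have h4 := X.cs.length_wordProd_le (CoxeterSystem.alternatingWord i j k)
      rw [CoxeterSystem.length_alternatingWord] at h4
      rw [← hv] at h3
      simp only [Cox0.len, Cox0.s] at *
      omega
    have a1 : X.len v < X.len (v * X.s (if Even (k + 1) then j else i)) := by
      simp only [Cox0.len, Cox0.s] at *
      omega
    have a3 : X.len v < X.len (v * X.s i) ∧ X.len v < X.len (v * X.s j) := by
      by_cases he : Even k
      · rw [if_pos he] at a2
        rw [if_neg (by simp [Nat.even_add_one, he])] at a1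
        exact ⟨a1, a2⟩
      · rw [if_neg he] at a2
        rw [if_pos (Nat.even_add_one.2 he)] at a1
        exact ⟨a2, a1⟩
    obtain ⟨hp, hq⟩ := X.g1_alt_nonneg hij (k := k + 1) hk
    refine lt_asymm hi ((X.asc_iff w i).2 ?_)
    rw [hv, G3.mv_mul, X.g1_alt_σ, mulVec_add, mulVec_smul, mulVec_smul]
    exact add_nonneg (smul_nonneg hp (X.pos_of_asc a3.1)) (smul_nonneg hq (X.pos_of_asc a3.2))

/-- Matsumoto -/
theorem matsumoto {N : Type} [Monoid N] (f : Fin X.n → N)
    (h : ∀ i j, i ≠ j → ((CoxeterSystem.alternatingWord i j (X.M i j)).map f).prod =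
      ((CoxeterSystem.alternatingWord j i (X.M i j)).map f).prod) :
    ∃ F : X.W → N, ∀ l, X.cs.IsReduced l → F (X.cs.wordProd l) = (l.map f).prod := by
  have key : ∀ n (l l' : List (Fin X.n)), l.length = n → X.cs.IsReduced l → X.cs.IsReduced l' →
      X.cs.wordProd l = X.cs.wordProd l' → (l.map f).prod = (l'.map f).prod := by
    intro n
    induction n with
    | zero =>
      intro l l' h1 h2 h3 h4
      rw [CoxeterSystem.IsReduced] at h2 h3
      rw [List.length_eq_zero_iff.1 h1, List.length_eq_zero_iff.1 (h3.symm.trans (h4 ▸ h2.trans h1))]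
    | succ n ih =>
      have step : ∀ (l l' : List (Fin X.n)) (i : Fin X.n), l.length = n → l'.length = n →
          X.cs.IsReduced (l ++ [i]) → X.cs.wordProd (l ++ [i]) = X.cs.wordProd (l' ++ [i]) →
          ((l ++ [i]).map f).prod = ((l' ++ [i]).map f).prod := by
        intro l l' i h1 h2 h3 h4
        have h5 : X.cs.IsReduced l := by simpa using h3.take l.length
        rw [X.cs.wordProd_append, X.cs.wordProd_append, mul_left_inj] at h4
        rw [List.map_append, List.map_append, List.prod_append, List.prod_append,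
          ih l l' h1 h5 (by rw [CoxeterSystem.IsReduced, ← h4, h5, h1, h2]) h4]
      intro l l' h1 h2 h3 h4
      have h5 : l'.length = n + 1 := by
        rw [CoxeterSystem.IsReduced] at h2 h3
        rw [← h3, ← h4, h2, h1]
      obtain ⟨l, i, rfl⟩ := (List.eq_nil_or_concat' l).resolve_left (by rintro rfl; simp at h1)
      obtain ⟨l', j, rfl⟩ := (List.eq_nil_or_concat' l').resolve_left (by rintro rfl; simp at h5)
      have h6 : l.length = n := by simpa using h1
      have h7 : l'.length = n := by simpa using h5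
      rcases eq_or_ne i j with rfl | hij
      · exact step l l' i h6 h7 h2 h4
      have desc : ∀ (l : List (Fin X.n)) (i : Fin X.n), X.cs.IsReduced (l ++ [i]) →
          X.len (X.cs.wordProd (l ++ [i]) * X.s i) < X.len (X.cs.wordProd (l ++ [i])) := by
        intro l i hl
        rw [Cox0.len, Cox0.len, hl, X.cs.wordProd_append, X.cs.wordProd_singleton,
          X.cs.simple_mul_simple_cancel_right, List.length_append]
        exact Nat.lt_succ_of_le (X.cs.length_wordProd_le l)
      obtain ⟨v, hv, hl⟩ := X.two_desc hij (desc l i h2) (h4 ▸ desc l' j h3)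
      obtain ⟨lv, h8, rfl⟩ := X.cs.exists_isReduced v
      have hb := X.cs.wordProd_braidWord_eq i j
      have hh := h i j hij
      rw [CoxeterSystem.braidWord, CoxeterSystem.braidWord, X.M.symmetric j i] at hb
      obtain ⟨m, hm⟩ := Nat.exists_eq_succ_of_ne_zero (X.hM i j)
      rw [Cox0.len, Cox0.len, h2, h8, h1, hm] at hl
      rw [hm, CoxeterSystem.alternatingWord_succ, List.concat_eq_append] at hv
      rw [hm, CoxeterSystem.alternatingWord_succ, CoxeterSystem.alternatingWord_succ,
        List.concat_eq_append, List.concat_eq_append] at hb hh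
      have e1 := step l (lv ++ CoxeterSystem.alternatingWord i j m) i h6
        (by rw [List.length_append, CoxeterSystem.length_alternatingWord]; omega) h2
        (by rw [hv, hb, List.append_assoc, X.cs.wordProd_append lv])
      have e2 := step l' (lv ++ CoxeterSystem.alternatingWord j i m) j h7
        (by rw [List.length_append, CoxeterSystem.length_alternatingWord]; omega) h3
        (by rw [← h4, hv, List.append_assoc, X.cs.wordProd_append lv])
      rw [e1, e2, List.append_assoc, List.append_assoc, List.map_append (l₁ := lv),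
        List.map_append (l₁ := lv), List.prod_append, List.prod_append, hh]
  choose g h1 h2 using X.cs.exists_isReduced
  exact ⟨fun w => ((g w).map f).prod, fun l hl => key _ _ _ rfl (h1 _) hl (h2 _).symm⟩

/-- functions on the generators that are constant on conjugacy classes -/
theorem eq_of_isConj {α : Type} (f : Fin X.n → α) (h : ∀ i j, Odd (X.M i j) → f i = f j)
    {i j : Fin X.n} (hc : IsConj (X.s i) (X.s j)) : f i = f j := by
  have hl : X.M.IsLiftable fun k => if f k = f i then (-1 : ℤˣ) else 1 := by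
    intro a b
    rcases Nat.even_or_odd (X.M a b) with e | e
    · obtain ⟨c, e⟩ := e.two_dvd
      rw [e, pow_mul, Int.units_sq, one_pow]
    · simp only [h a b e, Int.units_mul_self, one_pow]
  have := isConj_iff_eq.1 ((X.cs.lift ⟨_, hl⟩).map_isConj hc)
  rw [X.cs.lift_apply_simple, X.cs.lift_apply_simple, if_pos rfl] at this
  by_contra e
  rw [if_neg (Ne.symm e)] at this
  exact absurd this (by decide)

theorem isConj_of_odd {i j : Fin X.n} (h : Odd (X.M i j)) : IsConj (X.s i) (X.s j) := by
  have hb := X.cs.wordProd_braidWord_eq i j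
  rw [CoxeterSystem.braidWord, CoxeterSystem.braidWord, X.M.symmetric j i,
    X.cs.prod_alternatingWord_eq_mul_pow, X.cs.prod_alternatingWord_eq_mul_pow,
    if_neg (Nat.not_even_iff_odd.2 h), if_neg (Nat.not_even_iff_odd.2 h), ← mul_pow_mul,
    ← mul_pow_mul] at hb
  refine isConj_iff.2 ⟨(X.s i * X.s j) ^ (X.M i j / 2), ?_⟩
  rw [← hb, mul_pow_mul, mul_inv_cancel_right]

/-- parameters with prescribed values on the generators -/
theorem exists_wt (f : Fin X.n → ℂ) (h : ∀ i j, IsConj (X.s i) (X.s j) → f i = f j) :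
    ∃ κ : Wt X, ∀ i, κ (X.s i) = f i := by
  have key : ∀ t i, IsConj (X.s i) t →
      (if e : ∃ i, IsConj (X.s i) t then f e.choose else 0) = f i := fun t i e => by
    rw [dif_pos ⟨i, e⟩]
    exact h _ _ ((Exists.choose_spec (⟨i, e⟩ : ∃ i, IsConj (X.s i) t)).trans e.symm)
  refine ⟨⟨fun t => if e : ∃ i, IsConj (X.s i) t then f e.choose else 0, ?_⟩,
    fun i => key _ i (IsConj.refl _)⟩
  rintro _ w ⟨u, i, rfl⟩
  have e : IsConj (X.s i) (u * X.s i * u⁻¹) := isConj_iff.2 ⟨u, rfl⟩
  exact (key _ i (e.trans (isConj_iff.2 ⟨w, rfl⟩))).trans (key _ i e).symm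

end Cox

/-- finite Coxeter groups have finite bonds -/
theorem bond_ne_zero {n : ℕ} {M : CoxeterMatrix (Fin n)} {W : Type} [Group W] [Fintype W]
    (cs : CoxeterSystem M W) (i j : Fin n) : M i j ≠ 0 := by
  intro h
  have hij : i ≠ j := by
    rintro rfl
    simp at h
  have hc : 0 < Fintype.card W := Fintype.card_pos
  let M' : CoxeterMatrix (Fin n) := ⟨fun a b => if M a b = 0 then Fintype.card W + 1 else M a b,
    Matrix.IsSymm.ext fun a b => by simp only [M.symmetric a b], fun a => by simp,
    fun a b hab => by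
      have := M.off_diagonal a b hab
      split_ifs <;> omega⟩
  have hM : ∀ a b, M' a b = if M a b = 0 then Fintype.card W + 1 else M a b := fun _ _ => rfl
  let Y : Cox0 := ⟨n, M', M'.Group, M'.toCoxeterSystem, fun a b => by
    rw [hM]
    split_ifs <;> omega⟩
  have hl : M.IsLiftable Y.s := fun a b => by
    by_cases e : M a b = 0
    · rw [e, pow_zero]
    · have := Y.cs.simple_mul_simple_pow a b
      rwa [show Y.M a b = M a b from (hM a b).trans (if_neg e)] at this
  have h1 : (Y.s i * Y.s j) ^ Fintype.card W = 1 := by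
    have := congrArg (cs.lift ⟨_, hl⟩) (pow_card_eq_one (x := cs.simple i * cs.simple j))
    rwa [map_pow, map_mul, map_one, cs.lift_apply_simple, cs.lift_apply_simple] at this
  have h2 := Y.cs.simple_mul_simple_pow i j
  rw [show Y.M i j = Fintype.card W + 1 from (hM i j).trans (if_pos h), pow_succ, h1, one_mul] at h2
  have h3 := Y.g6_asc hij
  rw [h2, Cox0.len, Cox0.len, Y.cs.length_one] at h3
  omega

end

end Pool.Agent.P.MP_1a0ecf_al.F
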