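import Pool.Agent.P.MP_1a0ecf_al.F.Fr1
import Pool.Agent.P.MP_1a0ecf_al.F.G6

/-! Package Fr5, first part: coordinates and reflections. -/

namespace Pool.Agent.P.MP_1a0ecf_al.F

open Matrix MvPolynomial
open scoped Classical TensorProduct

noncomputable section

namespace Fr5

/-- coordinate vectors indexed by natural numbers -/
def eN (N i : ℕ) : Fin N → ℂ := fun j => if (j : ℕ) = i then 1 else 0

theorem eN_fin {N : ℕ} (i : Fin N) : eN N i = Pi.single i 1 := by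
  funext j
  simp [eN, Pi.single_apply, Fin.ext_iff]

theorem eN_dot {N i : ℕ} (hi : i < N) (j : ℕ) : eN N i ⬝ᵥ eN N j = if i = j then 1 else 0 := by
  rw [eN_fin ⟨i, hi⟩, single_dotProduct, one_mul, eN]

/-- values of the Gram matrix -/
def kv (m : ℕ) : ℂ := if m = 1 then 2 else if m = 2 then 0 else if m = 3 then -1 else -(√2 : ℝ)

theorem sq2 : ((√2 : ℝ) : ℂ) * (√2 : ℝ) = 2 := by
  rw [← Complex.ofReal_mul, Real.mul_self_sqrt zero_le_two]
  norm_num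

variable {X : Cox}

theorem K_eq {i j : Fin X.n} (h : X.M i j ≤ 4) : algebraMap ℝ ℂ (X.K i j) = kv (X.M i j) := by
  have h0 := X.hM i j
  rw [Cox0.K, kv]
  generalize X.M i j = m at *
  interval_cases m
  · exact absurd rfl h0
  · simp
  · simp
  · rw [show ((3 : ℕ) : ℝ) = 3 by norm_num, Real.cos_pi_div_three]
    norm_num
  · rw [show ((4 : ℕ) : ℝ) = 4 by norm_num, Real.cos_pi_div_four]
    simp
    ring

theorem BK_sub (u v w : X.Vc) : X.BK ℂ (u - v) w = X.BK ℂ u w - X.BK ℂ v w := by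
  simp [Cox.BK]

theorem BK_add (u v w : X.Vc) : X.BK ℂ (u + v) w = X.BK ℂ u w + X.BK ℂ v w := by
  simp [Cox.BK]

theorem BK_smul (c : ℂ) (u w : X.Vc) : X.BK ℂ (c • u) w = c * X.BK ℂ u w := by
  simp [Cox.BK]

theorem BK_neg (u w : X.Vc) : X.BK ℂ (-u) w = -X.BK ℂ u w := by
  simp [Cox.BK]

theorem exists_lam {N : ℕ} (r : Fin X.n → Fin N → ℂ)
    (hR : ∀ k l, r k ⬝ᵥ r l = algebraMap ℝ ℂ (X.K k l)) : ∃ Λ : (Fin N → ℂ) →ₗ[ℂ] X.Vc,
      (∀ k, Λ (r k) = X.eb k) ∧ (∀ k v, X.BK ℂ (X.eb k) (Λ v) = r k ⬝ᵥ v) ∧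
      (N = X.n → ∀ u v, X.BK ℂ (Λ u) (Λ v) = u ⬝ᵥ v) ∧ (∀ v, (∀ k, r k ⬝ᵥ v = 0) → Λ v = 0) ∧
      ⊤ ≤ Submodule.span ℂ (Set.range fun j : Fin N => Λ (eN N j)) := by
  let R : Matrix (Fin X.n) (Fin N) ℂ := Matrix.of r
  have h1 : R * Rᵀ = X.K.map (algebraMap ℝ ℂ) := Matrix.ext fun k l => hR k l
  have h2 : ∀ u, ((X.K.map (algebraMap ℝ ℂ))⁻¹ * R).mulVecLin (Rᵀ *ᵥ u) = u := fun u => by
    rw [mulVecLin_apply, mulVec_mulVec, Matrix.mul_assoc, h1, nonsing_inv_mul _ X.c1_unit,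
      one_mulVec]
  have h3 : ∀ u v, X.BK ℂ u (((X.K.map (algebraMap ℝ ℂ))⁻¹ * R).mulVecLin v) = u ⬝ᵥ R *ᵥ v :=
    fun u v => by
      rw [Cox.BK, mulVecLin_apply, mulVec_mulVec, ← Matrix.mul_assoc, mul_nonsing_inv _ X.c1_unit,
        Matrix.one_mul]
  refine ⟨((X.K.map (algebraMap ℝ ℂ))⁻¹ * R).mulVecLin, fun k => ?_, fun k v => ?_,
    fun hN u v => ?_, fun v hv => ?_, fun v _ => ?_⟩
  · rw [← h2 (X.eb k), mulVec_single_one]
    rfl
  · rw [h3, single_dotProduct, one_mul]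
    rfl
  · subst hN
    have hinj : Function.Injective Rᵀ.mulVecLin := Function.LeftInverse.injective h2
    obtain ⟨u, rfl⟩ := LinearMap.injective_iff_surjective.1 hinj u
    rw [mulVecLin_apply Rᵀ, h2, h3, dotProduct_mulVec, mulVec_transpose]
  · rw [mulVecLin_apply, ← mulVec_mulVec, show R *ᵥ v = 0 from funext hv, mulVec_zero]
  · rw [← h2 v, pi_eq_sum_univ' (Rᵀ *ᵥ v), map_sum]
    refine Submodule.sum_mem _ fun j _ => ?_
    rw [map_smul, ← eN_fin]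
    exact Submodule.smul_mem _ _ (Submodule.subset_span ⟨j, rfl⟩)

theorem exists_A (h : X.Is (pathM 0 3)) : ∃ F : Fr X, F.sg = 1 ∧ F.N = X.n + 1 ∧
    ∀ (k : Fin X.n) (i j : Fin F.N), (i : ℕ) = k → (j : ℕ) = k + 1 → X.eb k = F.ε j - F.ε i := by
  obtain ⟨Λ, h1, h2, -, h4, h5⟩ := exists_lam (X := X) (N := X.n + 1)
    (fun k => eN _ (k + 1) - eN _ k) fun k l => by
      have hk := k.2
      rw [K_eq (by rw [h, pathM]; split_ifs <;> omega), h, sub_dotProduct, dotProduct_sub,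
        dotProduct_sub, eN_dot (by omega), eN_dot (by omega), eN_dot (by omega), eN_dot (by omega)]
      simp only [kv, pathM]
      split_ifs <;> first | omega | norm_num
  have h6 : ∀ k : Fin X.n, X.eb k = Λ (eN _ (k + 1)) - Λ (eN _ k) := fun k => by
    rw [← h1, map_sub]
  refine ⟨⟨X.n + 1, fun j => Λ (eN _ j), ((X.n + 1 : ℕ) : ℂ)⁻¹, 1, Or.inl rfl, fun i j => ?_, h5,
    fun k => Or.inl ⟨k.succ, k.castSucc, k.castSucc_lt_succ.ne', h6 k⟩,
    fun i j hij => ⟨⟨i, by have := j.2; omega⟩, by rw [h6]; simp only [hij]⟩⟩, rfl, rfl,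
    fun k i j hi hj => by rw [h6, ← hj, ← hi]⟩
  have h7 : ∀ m, m ≤ X.n → X.BK ℂ (Λ (eN _ m)) (Λ (eN _ i)) - (if (i : ℕ) = m then 1 else 0) =
      X.BK ℂ (Λ (eN _ 0)) (Λ (eN _ i)) - (if (i : ℕ) = 0 then 1 else 0) := by
    intro m hm
    induction m with
    | zero => rfl
    | succ m ih =>
      have h8 := h2 ⟨m, hm⟩ (eN _ i)
      rw [h6, BK_sub, dotProduct_comm, dotProduct_sub, eN_dot i.2, eN_dot i.2] at h8
      rw [← ih (by omega)]
      linear_combination h8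
  have h8 : ∑ m : Fin (X.n + 1), X.BK ℂ (Λ (eN _ m)) (Λ (eN _ i)) = 0 := by
    have h9 : ∑ m : Fin (X.n + 1), Λ (eN _ m) = 0 := by
      rw [← map_sum]
      refine h4 _ fun k => ?_
      rw [sub_dotProduct, show eN _ (k + 1) = _ from eN_fin k.succ,
        show eN _ k = _ from eN_fin k.castSucc, single_dotProduct, single_dotProduct]
      simp [eN_fin, Finset.sum_apply, Pi.single_apply]
    have := congrArg (fun v => X.BK ℂ v (Λ (eN _ i))) h9
    simpa [Cox.BK, sum_dotProduct] using this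
  have h9 := Finset.sum_congr rfl fun (m : Fin (X.n + 1)) (_ : m ∈ Finset.univ) =>
    h7 m (Nat.lt_succ_iff.1 m.2)
  rw [Finset.sum_sub_distrib, h8, Finset.sum_const, Finset.card_univ, Fintype.card_fin,
    ← h7 j (Nat.lt_succ_iff.1 j.2), nsmul_eq_mul] at h9
  simp only [Fin.val_inj, Finset.sum_ite_eq, Finset.mem_univ, if_true] at h9
  have h0 : ((X.n + 1 : ℕ) : ℂ) ≠ 0 := Nat.cast_ne_zero.2 (Nat.succ_ne_zero _)
  rw [X.BK_symm ℂ]
  field_simp
  linear_combination -h9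

/-- simple roots in the types B and D -/
def rB {N : ℕ} (r : Fin N → ℂ) : ℕ → Fin N → ℂ
  | 0 => r
  | k + 1 => eN N (k + 1) - eN N k

theorem exists_BD (r : Fin X.n → ℂ)
    (hR : ∀ k l : Fin X.n, rB r k ⬝ᵥ rB r l = algebraMap ℝ ℂ (X.K k l))
    (hr : (∃ i j : Fin X.n, i ≠ j ∧ r = eN _ i + eN _ j) ∨
      ∃ i : Fin X.n, r = ((√2 : ℝ) : ℂ) • eN _ i) :
    ∃ (F : Fr X) (e : ℕ → X.Vc), F.sg = -1 ∧ F.N = X.n ∧ (∀ i, F.ε i = e i) ∧
      (∀ (k : Fin X.n) m, (k : ℕ) = m + 1 → X.eb k = e (m + 1) - e m) ∧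
      ∀ (k : Fin X.n), (k : ℕ) = 0 → (r = eN _ 0 + eN _ 1 → X.eb k = e 0 + e 1) ∧
        (r = ((√2 : ℝ) : ℂ) • eN _ 0 → X.eb k = ((√2 : ℝ) : ℂ) • e 0) := by
  obtain ⟨Λ, h1, -, h3, -, h5⟩ := exists_lam (X := X) (fun k => rB r k) hR
  have h6 : ∀ (k : Fin X.n) m, (k : ℕ) = m + 1 → X.eb k = Λ (eN _ (m + 1)) - Λ (eN _ m) :=
    fun k m e => by rw [← h1, e, rB, map_sub]
  have h7 : ∀ k : Fin X.n, (k : ℕ) = 0 → X.eb k = Λ r := fun k e => by rw [← h1, e, rB]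
  refine ⟨⟨X.n, fun j => Λ (eN _ j), 0, -1, Or.inr ⟨rfl, rfl⟩, fun i j => ?_, h5,
    fun k => ?_, fun i j hij => ⟨j, by rw [h6 j i hij, hij]⟩⟩, fun m => Λ (eN _ m), rfl, rfl,
    fun _ => rfl, h6, fun k hk => ⟨fun e => ?_, fun e => ?_⟩⟩
  · rw [h3 rfl, eN_dot i.2, sub_zero]
    simp only [Fin.val_inj]
  · rcases hk : (k : ℕ) with - | m
    · refine Or.inr ⟨rfl, hr.imp ?_ ?_⟩
      · rintro ⟨i, j, hij, e⟩
        exact ⟨i, j, hij, by rw [h7 k hk, e, map_add]⟩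
      · rintro ⟨i, e⟩
        exact ⟨i, by rw [h7 k hk, e, map_smul]⟩
    · have := k.2
      exact Or.inl ⟨k, ⟨m, by omega⟩, fun e => by simp [Fin.ext_iff, hk] at e, by
        rw [h6 k m hk, hk]⟩
  · rw [h7 k hk, e, map_add]
  · rw [h7 k hk, e, map_smul]

theorem dot_B (h : X.Is (pathM 0 4)) (k l : Fin X.n) :
    rB (((√2 : ℝ) : ℂ) • eN X.n 0) k ⬝ᵥ rB (((√2 : ℝ) : ℂ) • eN X.n 0) l =
      algebraMap ℝ ℂ (X.K k l) := by
  rw [K_eq (by rw [h, pathM]; split_ifs <;> omega), h]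
  obtain ⟨k, hk⟩ := k
  obtain ⟨l, hl⟩ := l
  rcases k with - | k <;> rcases l with - | l <;>
    simp only [rB, smul_dotProduct, dotProduct_smul, sub_dotProduct, dotProduct_sub, smul_eq_mul]
  · rw [eN_dot hk]
    simp [kv, pathM, sq2]
  all_goals
    repeat rw [eN_dot (by omega)]
    simp only [kv, pathM]
    split_ifs <;> first | contradiction | omega | (norm_num; done) | (simp at *; omega)

theorem dot_D (h : X.Is dM) (hn : 4 ≤ X.n) (k l : Fin X.n) :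
    rB (eN X.n 0 + eN X.n 1) k ⬝ᵥ rB (eN X.n 0 + eN X.n 1) l = algebraMap ℝ ℂ (X.K k l) := by
  rw [K_eq (by rw [h, dM]; split_ifs <;> omega), h]
  obtain ⟨k, hk⟩ := k
  obtain ⟨l, hl⟩ := l
  rcases k with - | k <;> rcases l with - | l <;>
    simp only [rB, add_dotProduct, dotProduct_add, sub_dotProduct, dotProduct_sub]
  all_goals
    repeat rw [eN_dot (by omega)]
    simp only [kv, dM]
    split_ifs <;> first | contradiction | omega | norm_num

/-- `t` is the reflection with root `± v` -/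
def Rt (t : X.W) (v : X.Vc) : Prop := X.cs.IsReflection t ∧ (X.rc t = v ∨ X.rc t = -v)

theorem Rt.simple (k : Fin X.n) : Rt (X.s k) (X.eb k) :=
  ⟨X.cs.isReflection_simple k, Or.inl (by rw [Cox.rc, X.rt_simple, X.vK_al ℂ])⟩

theorem Rt.conj {t : X.W} {v : X.Vc} (h : Rt t v) (w : X.W) :
    Rt (w * t * w⁻¹) (X.σK ℂ w *ᵥ v) := by
  refine ⟨h.1.conj w, ?_⟩
  rcases X.rc_conj h.1 w with e | e <;> rcases h.2 with e' | e' <;>
    simp [e, e', mulVec_neg]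

theorem Rt.act {t : X.W} {v : X.Vc} (h : Rt t v) (u : X.Vc) :
    X.σK ℂ t *ᵥ u = u - X.BK ℂ v u • v := by
  rw [X.σK_refl ℂ h.1]
  rcases h.2 with e | e
  · rw [← e]
  · rw [show X.vK ℂ (X.rt t) = -v from e, BK_neg, neg_smul_neg]

theorem Rt.conj_s {t : X.W} {v : X.Vc} (h : Rt t v) (k : Fin X.n) :
    Rt (X.s k * t * X.s k) (X.σK ℂ (X.s k) *ᵥ v) := by
  have := h.conj (X.s k)
  rwa [X.cs.inv_simple] at this

theorem wt_conj_s (κ : Wt X) {t : X.W} (h : X.cs.IsReflection t) (k : Fin X.n) :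
    κ (X.s k * t * X.s k) = κ t := by
  have := κ.cl t (X.s k) h
  rwa [X.cs.inv_simple] at this

variable (F : Fr X)

theorem act_swap {k : Fin X.n} {i j : Fin F.N} (hij : i ≠ j) (he : X.eb k = F.ε j - F.ε i) :
    F.Act (X.s k) (Equiv.swap i j) fun _ => 1 := by
  refine ⟨fun _ => Or.inl rfl, fun m => ?_⟩
  rw [(Rt.simple k).act, he, BK_sub, Fr.gram F, Fr.gram F, one_smul]
  by_cases h1 : m = i
  · subst h1
    rw [if_neg hij.symm, if_pos rfl, Equiv.swap_apply_left]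
    module
  by_cases h2 : m = j
  · subst h2
    simp [hij]
  · simp [Equiv.swap_apply_of_ne_of_ne h1 h2, Ne.symm h1, Ne.symm h2]

theorem act_sign (hs : F.sg = -1) {t : X.W} {i : Fin F.N} (h : Rt t (((√2 : ℝ) : ℂ) • F.ε i)) :
    F.Act t 1 fun m => if m = i then -1 else 1 := by
  have hγ : F.γ = 0 := (F.hsg.resolve_left (by rw [hs]; norm_num)).2
  refine ⟨fun m => by rw [hs]; by_cases e : m = i <;> simp [e], fun m => ?_⟩
  rw [h.act, BK_smul, Fr.gram F, hγ, smul_smul]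
  by_cases h1 : m = i
  · subst h1
    simp only [if_true, sub_zero, mul_one, sq2, Equiv.Perm.one_apply]
    module
  · simp [h1, Ne.symm h1]

theorem step (κ : Wt X) {k : Fin X.n} {i j : Fin F.N} (hij : (j : ℕ) = i + 1)
    (he : X.eb k = F.ε j - F.ε i) : F.u κ j = X.gA (X.s k) * F.u κ i * X.gA (X.s k) +
      (κ (X.s k) • X.gA (X.s k) + F.Sm κ j i) := by
  have h1 := F.u_succ κ hij (act_swap F (fun e => by simp [e] at hij) he)
  have h2 : X.gA (X.s k) * X.gA (X.s k) = 1 := by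
    rw [← map_mul, X.cs.simple_mul_simple_self, map_one]
  rw [← mul_one (F.u κ j), ← h2, ← mul_assoc, h1, add_mul, mul_assoc (_ + _), h2, mul_one, Fr.Sp,
    F.rf_eq κ (Rt.simple k).1 (he ▸ (Rt.simple k).2)]

theorem u_zero (κ : X.W → ℂ) {i : Fin F.N} (hi : (i : ℕ) = 0) : F.u κ i = F.St κ i := by
  rw [Fr.u, Finset.sum_eq_zero, zero_add]
  intro j hj
  have := (Finset.mem_filter.1 hj).2
  rw [Fin.lt_def] at this
  omega

theorem St_zero (hs : F.sg = -1) (h : ∀ k, ∃ (i j : Fin F.N) (c : ℂ), i ≠ j ∧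
    X.eb k = F.ε i + c • F.ε j) (κ : X.W → ℂ) (m : Fin F.N) : F.St κ m = 0 := by
  have hγ : F.γ = 0 := (F.hsg.resolve_left (by rw [hs]; norm_num)).2
  rw [Fr.St, if_neg (by rw [hs]; norm_num), Fr.rf]
  refine Finset.sum_eq_zero fun t ht => ?_
  exfalso
  obtain ⟨h1, h2⟩ := Finset.mem_filter.1 ht
  obtain ⟨-, w, k, -, e⟩ := X.rt_spec (X.mem_refls.1 h1)
  obtain ⟨i, j, c, hij, h3⟩ := h k
  obtain ⟨π, η, h4, h5⟩ := F.exists_act w
  have h6 : X.BK ℂ (X.rc t) (F.ε (π i)) = η i := by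
    rw [Cox.rc, e, ← X.σK_vK ℂ, X.vK_al ℂ, show Pi.single k 1 = X.eb k from rfl, h3, mulVec_add,
      mulVec_smul, h5, h5, BK_add, BK_smul, BK_smul, BK_smul, Fr.gram F, Fr.gram F, hγ,
      if_pos rfl, if_neg (π.injective.ne hij.symm)]
    ring
  have h7 : η i * η i = 1 := by rcases h4 i with e | e <;> simp [e, hs]
  rw [← h6] at h7
  have h8 := sq2
  rcases h2 with e | e <;> rw [e] at h7 <;> simp only [BK_neg, BK_smul, Fr.gram F, hγ] at h7 <;>
    split_ifs at h7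
  · exact absurd (show (2 : ℂ) = 1 by linear_combination h7 - h8) (by norm_num)
  · simp at h7
  · exact absurd (show (2 : ℂ) = 1 by linear_combination h7 - h8) (by norm_num)
  · simp at h7

end Fr5

end

end Pool.Agent.P.MP_1a0ecf_al.F
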