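import Pool.Agent.P.MP_1a0ecf_al.F.L1

/-! Package L2: cells, cell modules and families. -/

namespace Pool.Agent.P.MP_1a0ecf_al.F

open scoped Classical

noncomputable section

namespace KL

variable {X : Cox} {Γ : Type} [AddCommGroup Γ] [LinearOrder Γ] [IsOrderedAddMonoid Γ]
  {L : Fin X.n → Γ} (D : KL X Γ L)

theorem le_refl (x : X.W) : D.Le x x :=
  Relation.ReflTransGen.refl

theorem Le.trans {D : KL X Γ L} {x y z : X.W} (h : D.Le x y) (h' : D.Le y z) : D.Le x z :=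
  Relation.ReflTransGen.trans h h'

theorem le_of_repr {x y : X.W} {a b : D.H} (h : D.C.repr (a * D.C y * b) x ≠ 0) : D.Le x y :=
  Relation.ReflTransGen.single ⟨a, b, h⟩

theorem mem_cell {y z : X.W} : y ∈ D.cell z ↔ D.Sim y z := by
  simp [cell]

theorem cell_eq {y z : X.W} (h : D.Sim y z) : D.cell y = D.cell z := by
  ext x
  rw [mem_cell, mem_cell]
  exact ⟨fun k => ⟨k.1.trans h.1, h.2.trans k.2⟩, fun k => ⟨k.1.trans h.2, h.1.trans k.2⟩⟩

theorem mem_spC {S : Set X.W} {a : D.H} : a ∈ D.spC S ↔ ∀ w, D.C.repr a w ≠ 0 → w ∈ S := by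
  rw [spC, D.C.mem_span_image]
  exact ⟨fun h w hw => h (Finsupp.mem_support_iff.2 hw),
    fun h w hw => h w (Finsupp.mem_support_iff.1 hw)⟩

private theorem spC_ind {S : Set X.W} {p : D.H → Prop} (h : ∀ y ∈ S, p (D.C y)) (h0 : p 0)
    (ha : ∀ a b, p a → p b → p (a + b)) (hs : ∀ (r : ZG Γ) a, p a → p (r • a)) {a : D.H}
    (k : a ∈ D.spC S) : p a := by
  induction k using Submodule.span_induction with
  | mem x hx => obtain ⟨y, hy, rfl⟩ := hx; exact h y hy
  | zero => exact h0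
  | add a b _ _ k k' => exact ha a b k k'
  | smul r a _ k => exact hs r a k

/-- lower sets are the sets spanning two-sided ideals -/
theorem lower_iff (S : Set X.W) : (∀ x y, D.Le x y → y ∈ S → x ∈ S) ↔
    ∀ y ∈ S, ∀ i, D.toHA.Ts i * D.C y ∈ D.spC S ∧ D.C y * D.toHA.Ts i ∈ D.spC S := by
  constructor
  · intro h y hy i
    refine ⟨D.mem_spC.2 fun w hw => h w y (D.le_of_repr (a := D.toHA.Ts i) (b := 1) ?_) hy,
      D.mem_spC.2 fun w hw => h w y (D.le_of_repr (a := 1) (b := D.toHA.Ts i) ?_) hy⟩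
    · rwa [mul_one]
    · rwa [one_mul]
  · intro h
    have h1 : ∀ i, ∀ a ∈ D.spC S, D.toHA.Ts i * a ∈ D.spC S := fun i a ha =>
      D.spC_ind (p := fun a => D.toHA.Ts i * a ∈ D.spC S) (fun y hy => (h y hy i).1)
        (by simp) (fun a b k k' => by rw [mul_add]; exact add_mem k k')
        (fun r a k => by rw [mul_smul_comm]; exact Submodule.smul_mem _ _ k) ha
    have h2 : ∀ i, ∀ a ∈ D.spC S, a * D.toHA.Ts i ∈ D.spC S := fun i a ha =>
      D.spC_ind (p := fun a => a * D.toHA.Ts i ∈ D.spC S) (fun y hy => (h y hy i).2)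
        (by simp) (fun a b k k' => by rw [add_mul]; exact add_mem k k')
        (fun r a k => by rw [smul_mul_assoc]; exact Submodule.smul_mem _ _ k) ha
    have h3 : ∀ a ∈ D.spC S, ∀ b, b * a ∈ D.spC S := fun a ha b => by
      induction b using D.toHA.induction' with
      | h1 => rwa [one_mul]
      | ha b c k k' => rw [add_mul]; exact add_mem k k'
      | hs r b k => rw [smul_mul_assoc]; exact Submodule.smul_mem _ _ k
      | hm b i k => rw [mul_assoc]; exact h1 i _ k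
    have h4 : ∀ a ∈ D.spC S, ∀ b, a * b ∈ D.spC S := fun a ha b => by
      induction b using D.toHA.induction with
      | h1 => rwa [mul_one]
      | ha b c k k' => rw [mul_add]; exact add_mem k k'
      | hs r b k => rw [mul_smul_comm]; exact Submodule.smul_mem _ _ k
      | hm b i k => rw [← mul_assoc]; exact h2 i _ k
    intro x y hxy hy
    induction hxy using Relation.ReflTransGen.head_induction_on with
    | refl => exact hy
    | head k _ ih =>
      obtain ⟨a, b, k⟩ := k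
      exact D.mem_spC.1 (h4 _ (h3 _ (Submodule.subset_span ⟨_, ih, rfl⟩) a) b) _ k

theorem mul_mem_spC {S : Set X.W} (hS : ∀ x y, D.Le x y → y ∈ S → x ∈ S) {a : D.H}
    (ha : a ∈ D.spC S) (b c : D.H) : b * a * c ∈ D.spC S :=
  D.spC_ind (p := fun a => b * a * c ∈ D.spC S)
    (fun y hy => D.mem_spC.2 fun w hw => hS w y (D.le_of_repr hw) hy) (by simp)
    (fun a a' k k' => by rw [mul_add, add_mul]; exact add_mem k k')
    (fun r a k => by rw [mul_smul_comm, smul_mul_assoc]; exact Submodule.smul_mem _ _ k) ha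

private theorem repr_flat (a : D.H) (x : X.W) :
    D.C.repr (D.toHA.flat a) x⁻¹ = D.C.repr a x := by
  have e : D.C.coord x⁻¹ ∘ₗ D.toHA.flat = D.C.coord x := D.C.ext fun y => by
    simp [D.flat_C, Finsupp.single_apply]
  exact LinearMap.congr_fun e a

theorem le_inv {x y : X.W} (h : D.Le x y) : D.Le x⁻¹ y⁻¹ := by
  induction h with
  | refl => exact D.le_refl _
  | tail _ k ih =>
    obtain ⟨a, b, k⟩ := k
    refine ih.trans (D.le_of_repr (a := D.toHA.flat b) (b := D.toHA.flat a) ?_)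
    rw [← D.flat_C, ← D.toHA.flat_mul, ← D.toHA.flat_mul, D.repr_flat, ← mul_assoc]
    exact k

/-- convex sets -/
def Cvx (S : Finset X.W) : Prop := ∀ x y z, D.Le x y → D.Le y z → x ∈ S → z ∈ S → y ∈ S

theorem cvx_cell (z : X.W) : D.Cvx (D.cell z) := fun _ _ _ h h' ha hb =>
  D.mem_cell.2 ⟨h'.trans (D.mem_cell.1 hb).1, (D.mem_cell.1 ha).2.trans h⟩

theorem lm_one (S : Finset X.W) : D.lm S 1 = 1 := by
  ext x y : 1
  simp only [lm, Matrix.of_apply, one_mul, Module.Basis.repr_self, Finsupp.single_apply,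
    Matrix.one_apply, Subtype.coe_inj]
  exact if_congr eq_comm rfl rfl

private theorem sum_coe {M : Type} [AddCommMonoid M] {S : Finset X.W} {f : X.W → M}
    (h : ∀ y, f y ≠ 0 → y ∈ S) : ∑ y : S, f y = ∑ y, f y := by
  rw [Finset.sum_coe_sort S f]
  exact Finset.sum_subset (Finset.subset_univ _) fun y _ hy => by_contra fun e => hy (h y e)

theorem lm_mul {S : Finset X.W} (hS : D.Cvx S) (a b : D.H) :
    D.lm S (a * b) = D.lm S a * D.lm S b := by
  ext x y : 1
  have e : D.C.repr (a * b * D.C y) x =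
      ∑ z, D.C.repr (a * D.C z) x * D.C.repr (b * D.C y) z := by
    conv_lhs => rw [mul_assoc, ← D.C.sum_repr (b * D.C y)]
    simp only [Finset.mul_sum, mul_smul_comm, map_sum, map_smul, Finsupp.coe_finsetSum,
      Finset.sum_apply, Finsupp.smul_apply, smul_eq_mul, mul_comm]
  simp only [lm, Matrix.mul_apply, Matrix.of_apply]
  rw [e, ← sum_coe (S := S)]
  intro z hz
  refine hS x z y (D.le_of_repr (a := a) (b := 1) ?_) (D.le_of_repr (a := b) (b := 1) ?_) x.2 y.2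
  · rw [mul_one]; exact left_ne_zero_of_mul hz
  · rw [mul_one]; exact right_ne_zero_of_mul hz

private theorem ex_spec : ∃ f : D.H →+* MonoidAlgebra ℂ X.W,
    (∀ r a, f (r • a) = spc Γ r • f a) ∧ ∀ w, f (D.T w) = MonoidAlgebra.of ℂ X.W w :=
  let ⟨f, h1, h2, _⟩ := D.toHA.exists_spec (spc Γ) fun i => spc_vU (L i)
  ⟨f, h1, h2⟩

private theorem coeff_spec {f : D.H →+* MonoidAlgebra ℂ X.W}
    (h1 : ∀ r a, f (r • a) = spc Γ r • f a) (h2 : ∀ w, f (D.T w) = MonoidAlgebra.of ℂ X.W w)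
    (a : D.H) (w : X.W) : (f a).coeff w = spc Γ (D.T.repr a w) := by
  conv_lhs => rw [← D.T.sum_repr a, map_sum]
  simp only [h1, h2]
  simp [MonoidAlgebra.coeff_sum, Finsupp.single_apply]

private theorem lm_spec {f : D.H →+* MonoidAlgebra ℂ X.W}
    (h1 : ∀ r a, f (r • a) = spc Γ r • f a) (h2 : ∀ w, f (D.T w) = MonoidAlgebra.of ℂ X.W w)
    (S : Finset X.W) (a : D.H) :
    (D.lm S a).map (spc Γ) = ∑ w, (f a).coeff w • (D.lm S (D.T w)).map (spc Γ) := by
  ext x y
  simp only [D.coeff_spec h1 h2, lm, Matrix.map_apply, Matrix.of_apply, Matrix.sum_apply,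
    Matrix.smul_apply, smul_eq_mul]
  conv_lhs => rw [← D.T.sum_repr a]
  simp only [Finset.sum_mul, smul_mul_assoc, map_sum, map_smul, Finsupp.coe_finsetSum,
    Finset.sum_apply, Finsupp.smul_apply, smul_eq_mul, map_mul]

/-- the specialised module of a convex set -/
theorem exists_rep {S : Finset X.W} (hS : D.Cvx S) :
    ∃ ρ : MonoidAlgebra ℂ X.W →ₐ[ℂ] Matrix S S ℂ, ∀ f : D.H →+* MonoidAlgebra ℂ X.W,
      (∀ r a, f (r • a) = spc Γ r • f a) → (∀ w, f (D.T w) = MonoidAlgebra.of ℂ X.W w) →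
      ∀ a, ρ (f a) = (D.lm S a).map (spc Γ) := by
  obtain ⟨f0, h1, h2⟩ := D.ex_spec
  have hm : ∀ x y, (D.lm S (D.T (x * y))).map (spc Γ) =
      (D.lm S (D.T x)).map (spc Γ) * (D.lm S (D.T y)).map (spc Γ) := fun x y => by
    rw [← Matrix.map_mul, ← D.lm_mul hS, D.lm_spec h1 h2 S (D.T x * D.T y), map_mul f0, h2, h2,
      ← map_mul (MonoidAlgebra.of ℂ X.W), Finset.sum_eq_single (x * y)]
    · simp
    · intro w _ hw
      simp [Finsupp.single_apply, hw.symm]
    · simp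
  let g : X.W →* Matrix S S ℂ := ⟨⟨fun w => (D.lm S (D.T w)).map (spc Γ), by
    rw [D.T_one, D.lm_one, Matrix.map_one _ (map_zero _) (map_one _)]⟩, hm⟩
  refine ⟨MonoidAlgebra.lift ℂ _ X.W g, fun f k1 k2 a => ?_⟩
  rw [D.lm_spec k1 k2 S a]
  conv_lhs => rw [t1_eq_sum (f a)]
  simp only [map_sum, map_smul, MonoidAlgebra.lift_of]
  rfl

private theorem exists_tau {S : Finset X.W} (hS : D.Cvx S) :
    ∃ τ : Representation ℂ X.W (S → ℂ), τ.character = D.ch S ∧
      ∀ w, τ w = Matrix.toLin' ((D.lm S (D.T w)).map (spc Γ)) := by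
  obtain ⟨f, h1, h2⟩ := D.ex_spec
  obtain ⟨ρ, hρ⟩ := D.exists_rep hS
  have e : ∀ w, ρ (MonoidAlgebra.of ℂ X.W w) = (D.lm S (D.T w)).map (spc Γ) := fun w => by
    rw [← h2, hρ f h1 h2]
  refine ⟨(Matrix.toLinAlgEquiv' (R := ℂ) (n := S)).toAlgHom.toMonoidHom.comp
    (ρ.toMonoidHom.comp (MonoidAlgebra.of ℂ X.W)), ?_, fun w => ?_⟩
  · funext w
    change LinearMap.trace ℂ _ (Matrix.toLin' (ρ (MonoidAlgebra.of ℂ X.W w))) = _
    rw [Matrix.trace_toLin'_eq, ch, ← Finset.sum_coe_sort S, e]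
    rfl
  · change Matrix.toLin' (ρ (MonoidAlgebra.of ℂ X.W w)) = _
    rw [e]

theorem isCh_ch {S : Finset X.W} (hS : D.Cvx S) : IsCh (D.ch S) := by
  obtain ⟨τ, h1, -⟩ := D.exists_tau hS
  exact h1 ▸ isCh_rep τ

/-- `χ` occurs in the module of `S` iff its idempotent acts nontrivially -/
theorem ip_ch_ne {S : Finset X.W} (hS : D.Cvx S) {χ : X.W → ℂ} (hχ : IsIrr χ) :
    ip (D.ch S) χ ≠ 0 ↔ ∑ w, χ w⁻¹ • (D.lm S (D.T w)).map (spc Γ) ≠ 0 := by
  obtain ⟨τ, h1, h2⟩ := D.exists_tau hS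
  have e : τ.asAlgebraHom (idem χ) = (χ 1 / Nat.card X.W) •
      Matrix.toLin' (∑ w, χ w⁻¹ • (D.lm S (D.T w)).map (spc Γ)) := by
    simp only [idem, map_smul, map_sum, Representation.asAlgebraHom_of, h2]
  have c : χ 1 / Nat.card X.W ≠ 0 := div_ne_zero hχ.one_ne (by simp)
  have k := hχ.finrank_idem τ
  rw [h1] at k
  rw [← mul_ne_zero_iff_left hχ.one_ne, ← k, Nat.cast_ne_zero, ne_eq, Submodule.finrank_eq_zero,
    LinearMap.range_eq_bot, e, smul_eq_zero_iff_right c, LinearEquiv.map_eq_zero_iff]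

theorem occurs_iff (z : X.W) {d : ℕ} {π : Representation ℂ X.W (Fin d → ℂ)}
    (hπ : π.IsIrreducible) : S.Occurs D.T D.C z π ↔ D.Fam z π.character := by
  obtain ⟨τ, h1, h2⟩ := D.exists_tau (D.cvx_cell z)
  have h3 : ∀ w v x, τ w v x =
      ∑ y : D.cell z, S.spec (S.coord D.C (S.vec D.T w * S.vec D.C y) x) * v y := fun w v x => by
    simp only [h2, Matrix.toLin'_apply, Matrix.mulVec, dotProduct, Matrix.map_apply, lm,
      Matrix.of_apply, spc_eq]
    rfl
  have hm : ∀ y, y ∈ D.cell z ↔ S.LeLR D.C y z ∧ S.LeLR D.C z y := fun y => D.mem_cell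
  rw [Fam, ← h1, ← exists_hom_iff π τ]
  constructor
  · rintro ⟨f, fl, ⟨v0, y0, f0⟩, f1, f2⟩
    refine ⟨(LinearMap.funLeft ℂ ℂ Subtype.val).comp (fl.mk' f), fun e => f0 ?_, fun w v => ?_⟩
    · by_cases hy : y0 ∈ D.cell z
      · exact congrFun (LinearMap.congr_fun e v0) ⟨y0, hy⟩
      · exact f1 v0 y0 (mt (hm _).2 hy)
    · funext x
      rw [h3]
      exact (f2 w v x ((hm _).1 x.2)).trans (sum_coe
        (f := fun y => S.spec (S.coord D.C (S.vec D.T w * S.vec D.C y) x) * f v y) fun y hy =>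
        by_contra fun e => right_ne_zero_of_mul hy (f1 v y (mt (hm _).2 e))).symm
  · rintro ⟨g, g0, g1⟩
    let f : (Fin d → ℂ) →ₗ[ℂ] X.W → ℂ :=
      LinearMap.pi fun y => if hy : y ∈ D.cell z then (LinearMap.proj ⟨y, hy⟩).comp g else 0
    have f1 : ∀ v (y : D.cell z), f v y = g v y := fun v y => by simp [f]
    have f2 : ∀ v y, y ∉ D.cell z → f v y = 0 := fun v y hy => by simp [f, hy]
    refine ⟨f, f.isLinear, ?_, fun v y hy => f2 v y (mt (hm _).1 hy), fun w v x hx => ?_⟩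
    · by_contra e
      push Not at e
      exact g0 (LinearMap.ext fun v => funext fun y => (f1 v y).symm.trans (e v y))
    · rw [S.act, f1 _ ⟨x, (hm _).2 hx⟩, g1, h3, ← sum_coe (S := D.cell z)
        (f := fun y => S.spec (S.coord D.C (S.vec D.T w * S.vec D.C y) x) * f v y)
        fun y hy => by_contra fun e => right_ne_zero_of_mul hy (f2 v y e)]
      simp only [f1]

private theorem self_mem_cell (z : X.W) : z ∈ D.cell z := D.mem_cell.2 ⟨D.le_refl z, D.le_refl z⟩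

private theorem ch_univ : D.ch Finset.univ = ∑ c ∈ Finset.univ.image D.cell, D.ch c := by
  funext w
  rw [Finset.sum_apply, ch, ← Finset.sum_fiberwise_of_maps_to (g := D.cell)
    fun x hx => Finset.mem_image_of_mem _ hx]
  refine Finset.sum_congr rfl fun c hc => ?_
  obtain ⟨x, -, rfl⟩ := Finset.mem_image.1 hc
  refine Finset.sum_congr ?_ fun _ _ => rfl
  ext y
  rw [Finset.mem_filter]
  exact ⟨fun hy => hy.2 ▸ D.self_mem_cell y,
    fun hy => ⟨Finset.mem_univ _, D.cell_eq (D.mem_cell.1 hy)⟩⟩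

private theorem ip_univ (χ : X.W → ℂ) : ip (D.ch Finset.univ) χ = χ 1 := by
  obtain ⟨f, h1, h2⟩ := D.ex_spec
  have e : ∀ w, D.ch Finset.univ w = if w = 1 then (Nat.card X.W : ℂ) else 0 := fun w => by
    have k := (LinearMap.trace_eq_matrix_trace (ZG Γ) D.C (LinearMap.mulLeft _ (D.T w))).symm.trans
      (LinearMap.trace_eq_matrix_trace (ZG Γ) D.T (LinearMap.mulLeft _ (D.T w)))
    simp only [Matrix.trace, Matrix.diag, LinearMap.toMatrix_apply, LinearMap.mulLeft_apply] at k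
    rw [ch, ← map_sum, k, map_sum]
    simp only [← D.coeff_spec h1 h2, map_mul, h2]
    simp [MonoidAlgebra.single_mul_single, Finsupp.single_apply]
  simp [ip, e]

theorem exists_fam {χ : X.W → ℂ} (hχ : IsIrr χ) : ∃ z, D.Fam z χ := by
  have h := hχ.one_ne
  rw [← D.ip_univ χ, D.ch_univ, ip_sum] at h
  obtain ⟨c, hc, h⟩ := Finset.exists_ne_zero_of_sum_ne_zero h
  obtain ⟨z, -, rfl⟩ := Finset.mem_image.1 hc
  exact ⟨z, h⟩

/-- coordinates with respect to the specialised Kazhdan-Lusztig basis -/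
private theorem exists_kap : ∃ (κ : X.W → MonoidAlgebra ℂ X.W →ₗ[ℂ] ℂ)
    (f : X.W → MonoidAlgebra ℂ X.W), (∀ u, u = ∑ x, κ x u • f x) ∧
    (∀ x y b c, κ x (b * f y * c) ≠ 0 → D.Le x y) ∧
    ∀ x y w, κ x (MonoidAlgebra.of ℂ X.W w * f y) = spc Γ (D.C.repr (D.T w * D.C y) x) := by
  obtain ⟨f, h1, h2⟩ := D.ex_spec
  have e : ∀ x a, chx (fun w => spc Γ (D.C.repr (D.T w) x)) (f a) = spc Γ (D.C.repr a x) :=
    fun x a => by
      rw [t1_chx_apply]
      conv_rhs => rw [← D.T.sum_repr a]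
      simp only [D.coeff_spec h1 h2, map_sum, map_smul, Finsupp.coe_finsetSum,
        Finset.sum_apply, Finsupp.smul_apply, smul_eq_mul, map_mul]
  refine ⟨fun x => chx fun w => spc Γ (D.C.repr (D.T w) x), fun x => f (D.C x), fun u => ?_,
    fun x y b c h => ?_, fun x y w => ?_⟩
  · have k : ∀ w, MonoidAlgebra.of ℂ X.W w = ∑ x, spc Γ (D.C.repr (D.T w) x) • f (D.C x) :=
      fun w => by
        rw [← h2]
        conv_lhs => rw [← D.C.sum_repr (D.T w)]
        simp only [map_sum, h1]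
    conv_lhs => rw [t1_eq_sum u]
    simp only [k, t1_chx_apply, Finset.smul_sum, Finset.sum_smul, smul_smul]
    exact Finset.sum_comm
  · by_contra hn
    refine h ?_
    rw [t1_eq_sum b, t1_eq_sum c]
    simp only [Finset.sum_mul, Finset.mul_sum, smul_mul_assoc, mul_smul_comm, map_sum, map_smul]
    refine Finset.sum_eq_zero fun v _ => smul_eq_zero_of_right _ (Finset.sum_eq_zero fun w _ => ?_)
    rw [← h2, ← h2, ← map_mul, ← map_mul, e, (by_contra fun k => hn (D.le_of_repr k) :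
      D.C.repr (D.T _ * D.C y * D.T _) x = 0), map_zero, smul_zero]
  · rw [← h2, ← map_mul, e]

theorem fam_unique {χ : X.W → ℂ} (hχ : IsIrr χ) {y z : X.W} (hy : D.Fam y χ) (hz : D.Fam z χ) :
    D.Sim y z := by
  obtain ⟨κ, f, h1, h2, h3⟩ := D.exists_kap
  have key : ∀ z, D.Fam z χ → (∀ t, κ t (idem χ) ≠ 0 → D.Le t z) ∧
      ∃ t, κ t (idem χ) ≠ 0 ∧ D.Le z t := fun z hz => by
    obtain ⟨x, hx, x', hx', k⟩ : ∃ x, D.Sim x z ∧ ∃ x', D.Sim x' z ∧
        κ x' (idem χ * f x) ≠ 0 := by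
      by_contra hn
      push Not at hn
      refine (D.ip_ch_ne (D.cvx_cell z) hχ).1 hz ?_
      ext x' x
      have k := hn x (D.mem_cell.1 x.2) x' (D.mem_cell.1 x'.2)
      simp only [idem, smul_mul_assoc, Finset.sum_mul, map_smul, map_sum, h3, smul_eq_mul] at k
      simpa only [Matrix.sum_apply, Matrix.smul_apply, Matrix.map_apply, lm, Matrix.of_apply,
        smul_eq_mul, Matrix.zero_apply] using
        (mul_eq_zero.1 k).resolve_left (div_ne_zero hχ.one_ne (by simp))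
    refine ⟨fun t ht => ?_, ?_⟩
    · obtain ⟨b, hb⟩ := hχ.idem_mem (a := f x) fun e => k (by rw [e, map_zero])
      rw [hb, map_sum] at ht
      obtain ⟨u, -, ht⟩ := Finset.exists_ne_zero_of_sum_ne_zero ht
      refine Le.trans (h2 t x (MonoidAlgebra.of ℂ X.W u * idem χ)
        (b * MonoidAlgebra.of ℂ X.W u⁻¹) ?_) hx.1
      simpa only [mul_assoc] using ht
    · rw [h1 (idem χ), Finset.sum_mul, map_sum] at k
      obtain ⟨t, -, k⟩ := Finset.exists_ne_zero_of_sum_ne_zero k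
      rw [smul_mul_assoc, map_smul, smul_eq_mul] at k
      refine ⟨t, left_ne_zero_of_mul k, hx'.2.trans (h2 x' t 1 (f x) ?_)⟩
      rw [one_mul]
      exact right_ne_zero_of_mul k
  obtain ⟨k1, t, k2, k3⟩ := key y hy
  obtain ⟨k4, t', k5, k6⟩ := key z hz
  exact ⟨k3.trans (k4 t k2), k6.trans (k1 t' k5)⟩

theorem exists_irr (z : X.W) : ∃ χ, IsIrr χ ∧ D.Fam z χ := by
  refine (D.isCh_ch (D.cvx_cell z)).exists_irr ?_
  have e : D.ch (D.cell z) 1 = (D.cell z).card := by simp [ch, D.T_one]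
  rw [e, Nat.cast_ne_zero]
  exact Finset.card_ne_zero.2 ⟨z, D.self_mem_cell z⟩

/-- multiplicities in a two-sided cell -/
theorem ip_cell {χ : X.W → ℂ} (hχ : IsIrr χ) {z : X.W} (h : D.Fam z χ) :
    ip (D.ch (D.cell z)) χ = χ 1 := by
  rw [← D.ip_univ χ, D.ch_univ, ip_sum, Finset.sum_eq_single (D.cell z)]
  · intro c hc hn
    obtain ⟨y, -, rfl⟩ := Finset.mem_image.1 hc
    exact by_contra fun k => hn (D.cell_eq (D.fam_unique hχ k h))
  · exact fun k => (k (Finset.mem_image_of_mem _ (Finset.mem_univ z))).elim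

private theorem chx_idem_mul {W : Type} [Group W] [Fintype W] {χ g : W → ℂ} (hχ : IsIrr χ)
    (hg : IsCh g) (a : MonoidAlgebra ℂ W) : chx g (idem χ * a) = ip g χ * chx χ a := by
  obtain ⟨l, hl, rfl⟩ := hg.exists_list
  clear hg
  induction l with
  | nil => simp [t1_chx_apply, T0.ip_zero]
  | cons ψ l ih =>
    have hψ := hl ψ List.mem_cons_self
    rw [List.sum_cons, t1_chx_add, ip_add, add_mul, ih fun φ k => hl φ (List.mem_cons_of_mem _ k),
      hψ.chx_mul hχ.idem_center, chx_idem, hψ.ip_eq hχ]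
    split_ifs with e
    · subst e
      rw [mul_one, div_self hψ.one_ne]
    · simp

/-- a central element acting by a scalar on the cell module -/
theorem chx_of_scalar {χ : X.W → ℂ} (hχ : IsIrr χ) {z : X.W} (h : D.Fam z χ)
    {a : MonoidAlgebra ℂ X.W} {c : ℂ}
    (ha : ∑ w, a.coeff w • (D.lm (D.cell z) (D.T w)).map (spc Γ) = c • 1) :
    chx χ a = c * χ 1 := by
  obtain ⟨τ, h1, h2⟩ := D.exists_tau (D.cvx_cell z)
  have e : τ.asAlgebraHom a = c • 1 := by
    rw [t1_asAlg]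
    simp only [h2, ← map_smul, ← map_sum]
    rw [ha, map_smul, Matrix.toLin'_one]
    rfl
  have k := chx_idem_mul hχ (isCh_rep τ) a
  rw [chx_character, map_mul, e, mul_smul_comm, mul_one, map_smul, ← chx_character, chx_idem,
    h1, smul_eq_mul] at k
  refine mul_left_cancel₀ h ?_
  rw [← k]
  ring

theorem rel_refl {χ : X.W → ℂ} (hχ : IsIrr χ) : D.Rel χ χ :=
  let ⟨z, h⟩ := D.exists_fam hχ
  ⟨z, h, h⟩

theorem Rel.symm {D : KL X Γ L} {χ χ' : X.W → ℂ} (h : D.Rel χ χ') : D.Rel χ' χ :=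
  let ⟨z, h1, h2⟩ := h
  ⟨z, h2, h1⟩

theorem Rel.trans {D : KL X Γ L} {χ χ' χ'' : X.W → ℂ} (hχ : IsIrr χ') (h : D.Rel χ χ')
    (h' : D.Rel χ' χ'') : D.Rel χ χ'' := by
  obtain ⟨y, h1, h2⟩ := h
  obtain ⟨z, h3, h4⟩ := h'
  refine ⟨y, h1, ?_⟩
  rwa [Fam, D.cell_eq (D.fam_unique hχ h2 h3)]

theorem rel_of_zero (hL : ∀ i, L i = 0) {χ χ' : X.W → ℂ} (hχ : IsIrr χ) (hχ' : IsIrr χ') :
    D.Rel χ χ' := by
  have h0 : ∀ x i, D.T x * D.T (X.s i) = D.T (x * X.s i) := fun x i => by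
    rcases X.cs.length_mul_simple x i with k | k
    · exact D.T_up x i (by simp only [Cox0.len, Cox0.s]; omega)
    · rw [D.T_down x i (by simp only [Cox0.len, Cox0.s]; omega), hL i]
      simp [vU]
  have h1 : ∀ y x, D.T x * D.T y = D.T (x * y) := fun y => by
    induction y using X.cs.simple_induction_right with
    | one => intro x; rw [D.T_one, mul_one, mul_one]
    | mul_simple_right y i ih => intro x; rw [← h0, ← mul_assoc, ih, h0, mul_assoc]
  have h2 : ∀ x, D.T x = D.C x := fun x => by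
    refine D.eq_C ?_ fun y γ _ => by simp
    rw [← mul_one (D.bar _), ← D.T_one, ← inv_mul_cancel x, ← h1, ← mul_assoc, D.bar_T, one_mul]
  have h3 : ∀ x y, D.Le x y := fun x y => D.le_of_repr (a := D.T (x * y⁻¹)) (b := 1) (by
    rw [mul_one, ← h2, h1, inv_mul_cancel_right, h2]
    simp)
  obtain ⟨y, hy⟩ := D.exists_fam hχ
  obtain ⟨z, hz⟩ := D.exists_fam hχ'
  refine ⟨y, hy, ?_⟩
  rwa [Fam, D.cell_eq ⟨h3 y z, h3 z y⟩]

end KL

end

end Pool.Agent.P.MP_1a0ecf_al.F
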