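import Pool.Agent.P.MP_1a0ecf_al.F.S2
import Pool.Agent.P.MP_1a0ecf_al.F.C4

/-! Package S3: automorphisms and the spherical module. -/

namespace Pool.Agent.P.MP_1a0ecf_al.F

open Matrix MvPolynomial
open scoped Classical TensorProduct

noncomputable section

theorem s3_or {Z : Type} [CommRing Z] [Algebra ℂ Z] (l l' : Z →ₐ[ℂ] ℂ) (t : Z →ₐ[ℂ] Z)
    (ht : ∀ z, t (t z) = z) (h : ∀ z, t z = z → l z = l' z) :
    (∀ z, l z = l' z) ∨ ∀ z, l (t z) = l' z := by
  by_contra hn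
  rw [not_or, not_forall, not_forall] at hn
  obtain ⟨⟨a, ha⟩, b, hb⟩ := hn
  have key : ∀ c, l' c = 0 → l c = 0 ∨ l (t c) = 0 := by
    intro c hc
    have e := h (c * t c) (by rw [map_mul, ht, mul_comm])
    rwa [map_mul, map_mul, hc, zero_mul, mul_eq_zero] at e
  have a0 : l' (a - algebraMap ℂ Z (l' a)) = 0 := by simp
  have b0 : l' (b - algebraMap ℂ Z (l' b)) = 0 := by simp
  have a1 : l (a - algebraMap ℂ Z (l' a)) ≠ 0 := by simpa [sub_eq_zero] using ha
  have b1 : l (t (b - algebraMap ℂ Z (l' b))) ≠ 0 := by simpa [sub_eq_zero] using hb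
  have a2 := (key _ a0).resolve_left a1
  have b2 := (key _ b0).resolve_right b1
  rcases key (a - algebraMap ℂ Z (l' a) + (b - algebraMap ℂ Z (l' b)))
    (by rw [map_add, a0, b0, add_zero]) with e | e
  · rw [map_add, b2, add_zero] at e
    exact a1 e
  · rw [map_add, map_add, a2, zero_add] at e
    exact b1 e

namespace CA

variable {X : Cox} {κ : Wt X} {A : CA X κ} {σ : X.W ≃* X.W} {θ : A.H →ₐ[ℂ] A.H}

theorem Aut.e (h : A.Aut σ θ) : θ A.e = A.e := by
  rw [CA.e, map_smul, map_sum]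
  simp only [h.g]
  rw [Fintype.sum_equiv σ.toEquiv (fun w => A.g (σ w)) (fun w => A.g w) fun _ => rfl]

theorem Aut.center (h : A.Aut σ θ) {z : A.H} (hz : z ∈ Subalgebra.center ℂ A.H) :
    θ z ∈ Subalgebra.center ℂ A.H :=
  A.map_center (fun _ => ⟨_, h.inv _⟩) (fun _ => ⟨_, h.inv _⟩) (fun _ => ⟨_, h.inv _⟩) hz

theorem Aut.P_ex (h : A.Aut σ θ) (p : X.Sc) (a : A.H) :
    A.P (θ (A.ex p) * a) = constantCoeff p • A.P a := by
  induction p using MvPolynomial.induction_on with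
  | C c => rw [algHom_C, AlgHom.commutes, ← Algebra.smul_def, map_smul, constantCoeff_C]
  | add p q hp hq => simp only [map_add, add_mul, hp, hq, add_smul]
  | mul_X p i _ =>
    obtain ⟨b, hb⟩ := h.x (X.eb i)
    rw [map_mul constantCoeff, constantCoeff_X, mul_zero, zero_smul, mul_comm p, ← lin_single ℂ i,
      map_mul A.ex, ex_lin, map_mul θ, hb, mul_assoc, P_x_mul]

theorem Aut.P_ey (h : A.Aut σ θ) (p : X.Sc) (a : A.H) :
    A.P (a * θ (A.ey p)) = constantCoeff p • A.P a := by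
  induction p using MvPolynomial.induction_on with
  | C c =>
    rw [algHom_C, AlgHom.commutes, ← Algebra.commutes, ← Algebra.smul_def, map_smul,
      constantCoeff_C]
  | add p q hp hq => simp only [map_add, mul_add, hp, hq, add_smul]
  | mul_X p i _ =>
    obtain ⟨b, hb⟩ := h.y (X.eb i)
    rw [map_mul constantCoeff, constantCoeff_X, mul_zero, zero_smul, ← lin_single ℂ i,
      map_mul A.ey, ey_lin, map_mul θ, hb, ← mul_assoc]
    exact A.P_LY (A.mul_y_mem _ _)

theorem Aut.chx_P (h : A.Aut σ θ) (χ : X.W → ℂ) (a : A.H) :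
    chx χ (A.P (θ a)) = chx (χ ∘ σ) (A.P a) := by
  refine A.c3_ind (Q := fun a => chx χ (A.P (θ a)) = chx (χ ∘ σ) (A.P a)) (by simp)
    (fun a b ha hb => ?_) (fun c a ha => ?_) (fun p w p' => ?_) a
  · simp only [map_add, ha, hb]
  · simp only [map_smul, ha]
  · rw [map_mul θ, map_mul θ, h.P_ey, h.P_ex, h.g, P_g, P_spec, smul_smul, map_smul, map_smul, chx_of,
      chx_of, mul_comm]
    rfl

theorem isIrr_comp (σ : X.W ≃* X.W) {χ : X.W → ℂ} (h : IsIrr χ) : IsIrr (χ ∘ σ) := by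
  refine (h.isCh.comp σ.toMonoidHom).vc.isIrr ?_ ?_
  · have e := h.ip_eq h
    rw [if_pos rfl] at e
    rw [← e, ip, ip]
    congr 1
    exact Fintype.sum_equiv σ.toEquiv _ _ fun w => by simp
  · obtain ⟨m, h1, h2⟩ := h.one
    simp only [Function.comp, map_one, h2]
    exact_mod_cast h1

/-- central characters that agree on the fixed elements -/
theorem Aut.rel_or (h : A.Aut σ θ) {χ χ' : X.W → ℂ} (hχ : IsIrr χ) (hχ' : IsIrr χ')
    (e : ∀ z ∈ Subalgebra.center ℂ A.H, θ z = z →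
      chx χ (A.P z) * χ' 1 = chx χ' (A.P z) * χ 1) : A.rel χ χ' ∨ A.rel (χ ∘ σ) χ' := by
  let t : Subalgebra.center ℂ A.H →ₐ[ℂ] Subalgebra.center ℂ A.H :=
    (θ.comp (Subalgebra.center ℂ A.H).val).codRestrict _ fun z => h.center z.2
  refine (s3_or (A.c4lam hχ) (A.c4lam hχ') t (fun z => Subtype.ext (h.inv z)) fun z hz =>
    (div_eq_div_iff hχ.one_ne hχ'.one_ne).2 (e z z.2 (congrArg Subtype.val hz))).imp
    (fun h1 z hz => (div_eq_div_iff hχ.one_ne hχ'.one_ne).1 (h1 ⟨z, hz⟩)) fun h1 z hz => ?_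
  have h2 : chx χ (A.P (θ z)) / χ 1 = chx χ' (A.P z) / χ' 1 := h1 ⟨z, hz⟩
  rw [h.chx_P, div_eq_div_iff hχ.one_ne hχ'.one_ne] at h2
  rw [h2, Function.comp_apply, map_one]

section Core

variable {L : Type} [AddCommGroup L] [Module ℂ L] (ρ : A.H →ₐ[ℂ] Module.End ℂ L)

/-- the vectors that are killed by all `y a` -/
def s3K : Submodule ℂ L where
  carrier := {v | ∀ a, ρ (A.y a) v = 0}
  add_mem' hu hv a := by rw [map_add, hu a, hv a, add_zero]
  zero_mem' a := map_zero _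
  smul_mem' c v hv a := by rw [map_smul, hv a, smul_zero]

/-- the image of the `x a` -/
def s3X : Submodule ℂ L := Submodule.span ℂ {u | ∃ a l, u = ρ (A.x a) l}

variable {ρ}

theorem s3_LY {a : A.H} (ha : a ∈ A.LY) {v : L} (hv : v ∈ s3K ρ) : ρ a v = 0 := by
  obtain ⟨c, rfl⟩ := A.mem_LY_iff.1 ha
  rw [map_sum, LinearMap.sum_apply]
  exact Finset.sum_eq_zero fun i _ => by rw [map_mul, Module.End.mul_apply, hv, map_zero]

theorem s3_g {v : L} (hv : v ∈ s3K ρ) (w : X.W) : ρ (A.g w) v ∈ s3K ρ := fun a => by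
  rw [← Module.End.mul_apply, ← map_mul, c1_y_g, map_mul, Module.End.mul_apply, hv, map_zero]

theorem s3_ex (p : X.Sc) (l : L) : ρ (A.ex p) l - constantCoeff p • l ∈ s3X ρ := by
  induction p using MvPolynomial.induction_on with
  | C c => simp [Algebra.algebraMap_eq_smul_one]
  | add p q hp hq =>
    rw [map_add, map_add, map_add, LinearMap.add_apply, add_smul, add_sub_add_comm]
    exact add_mem hp hq
  | mul_X p i _ =>
    rw [map_mul constantCoeff, constantCoeff_X, mul_zero, zero_smul, sub_zero, mul_comm p,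
      ← lin_single ℂ i, map_mul, ex_lin, map_mul]
    exact Submodule.subset_span ⟨_, _, rfl⟩

theorem s3_gX {u : L} (hu : u ∈ s3X ρ) (w : X.W) : ρ (A.g w) u ∈ s3X ρ := by
  induction hu using Submodule.span_induction with
  | mem u hu =>
    obtain ⟨a, l, rfl⟩ := hu
    rw [← Module.End.mul_apply, ← map_mul, A.rels.gx, map_mul]
    exact Submodule.subset_span ⟨_, _, rfl⟩
  | zero => simp
  | add u v _ _ hu hv => rw [map_add]; exact add_mem hu hv
  | smul c u _ hu => rw [map_smul]; exact Submodule.smul_mem _ c hu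

theorem s3_gen {v : L} (hv : v ∈ s3K ρ) {M : Submodule ℂ L} (h1 : ∀ w, ρ (A.g w) v ∈ M)
    (h2 : s3X ρ ≤ M) (a : A.H) : ρ a v ∈ M := by
  refine A.c3_ind (Q := fun a => ρ a v ∈ M) (by simp) (fun a b ha hb => ?_) (fun c a ha => ?_)
    (fun p w p' => ?_) a
  · rw [map_add]
    exact add_mem ha hb
  · rw [map_smul]
    exact M.smul_mem c ha
  · have e := s3_LY (A.c3_ey_sub p') hv
    rw [map_sub, map_smul, map_one, LinearMap.sub_apply, sub_eq_zero] at e
    rw [map_mul, map_mul, Module.End.mul_apply, Module.End.mul_apply, e, LinearMap.smul_apply,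
      Module.End.one_apply, map_smul, map_smul]
    refine M.smul_mem _ ?_
    have := add_mem (h2 (s3_ex p (ρ (A.g w) v))) (M.smul_mem (constantCoeff p) (h1 w))
    rwa [sub_add_cancel] at this

theorem s3_nil {χ : X.W → ℂ}
    (hl : ∀ z ∈ Subalgebra.center ℂ A.H, ∀ v, ρ z v = (chx χ (A.P z) / χ 1) • v)
    {p : X.Sc} (hp : p ∈ X.invI ℂ) : ρ (A.ex p) = 0 ∧ ρ (A.ey p) = 0 := by
  induction hp using Submodule.span_induction with
  | mem r hr =>
    constructor
    · ext v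
      rw [hl _ (A.ex_center hr.2), ← mul_one (A.ex r), P_ex_mul, hr.1]
      simp
    · ext v
      rw [hl _ (A.ey_center hr.2), A.P_LY (A.ey_mem hr.1)]
      simp
  | zero => simp
  | add p q _ _ hp hq => simp only [map_add, hp.1, hp.2, hq.1, hq.2, add_zero, and_self]
  | smul c p _ hp => simp only [smul_eq_mul, map_mul, hp.1, hp.2, mul_zero, and_self]

theorem s3_ne {N : ℕ} (hy : ∀ p : X.Sc, p.IsHomogeneous N → ρ (A.ey p) = 0) {v : L}
    (hv : v ≠ 0) : ∃ u ∈ s3K ρ, u ≠ 0 := by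
  by_contra hn
  have key : ∀ k, ∃ p : X.Sc, p.IsHomogeneous k ∧ ρ (A.ey p) v ≠ 0 := by
    intro k
    induction k with
    | zero => exact ⟨1, isHomogeneous_one _ _, by simpa using hv⟩
    | succ k ih =>
      obtain ⟨p, hp, h0⟩ := ih
      obtain ⟨a, ha⟩ : ∃ a, ρ (A.y a) (ρ (A.ey p) v) ≠ 0 := by
        by_contra h1
        exact hn ⟨_, fun a => not_not.1 fun h2 => h1 ⟨a, h2⟩, h0⟩
      refine ⟨p * lin ℂ a, hp.mul (lin_hom ℂ a), ?_⟩
      rwa [mul_comm p, map_mul, ey_lin, map_mul]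
  obtain ⟨p, hp, h0⟩ := key N
  exact h0 (by rw [hy p hp, LinearMap.zero_apply])

theorem s3_zero {N : ℕ} (hx : ∀ p : X.Sc, p.IsHomogeneous N → ρ (A.ex p) = 0)
    (h : ∀ l, l ∈ s3X ρ) (l : L) : l = 0 := by
  have key : ∀ k, ∀ l : L,
      l ∈ Submodule.span ℂ {u | ∃ (p : X.Sc) (l : L), p.IsHomogeneous k ∧ u = ρ (A.ex p) l} := by
    intro k
    induction k with
    | zero => exact fun l => Submodule.subset_span ⟨1, l, isHomogeneous_one _ _, by simp⟩
    | succ k ih =>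
      intro l
      refine Submodule.span_le.2 ?_ (ih l)
      rintro _ ⟨p, l, hp, rfl⟩
      have hl := h l
      induction hl using Submodule.span_induction with
      | mem u hu =>
        obtain ⟨a, l, rfl⟩ := hu
        refine Submodule.subset_span ⟨p * lin ℂ a, l, hp.mul (lin_hom ℂ a), ?_⟩
        rw [map_mul, ex_lin, map_mul, Module.End.mul_apply]
      | zero => simp
      | add u v _ _ hu hv => rw [map_add]; exact add_mem hu hv
      | smul c u _ hu => rw [map_smul]; exact Submodule.smul_mem _ c hu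
  refine (Submodule.mem_bot ℂ).1 (Submodule.span_le.2 ?_ (key N l))
  rintro _ ⟨p, l, hp, rfl⟩
  simp [hx p hp]

theorem s3_span {N : ℕ} (hx : ∀ p : X.Sc, p.IsHomogeneous N → ρ (A.ex p) = 0)
    (gen : ∀ v : L, v ≠ 0 → ∀ u, ∃ a, ρ a v = u) {v : L} (hv : v ∈ s3K ρ) (h0 : v ≠ 0) {u : L}
    (hu : u ∈ s3K ρ) : u ∈ Submodule.span ℂ (Set.range fun w => ρ (A.g w) v) := by
  obtain ⟨a, rfl⟩ := gen v h0 u
  have h1 := s3_gen hv (M := Submodule.span ℂ (Set.range fun w => ρ (A.g w) v) ⊔ s3X ρ)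
    (fun w => Submodule.mem_sup_left (Submodule.subset_span ⟨w, rfl⟩)) le_sup_right a
  obtain ⟨u, h2, l, h3, e⟩ := Submodule.mem_sup.1 h1
  have h4 : u ∈ s3K ρ := Submodule.span_le.2 (by
    rintro _ ⟨w, rfl⟩
    exact s3_g hv w) h2
  have h5 : l ∈ s3K ρ := by
    rw [← sub_eq_of_eq_add' e.symm]
    exact sub_mem hu h4
  have h6 : l = 0 := by
    by_contra hl
    refine hl (s3_zero hx (fun m => ?_) l)
    obtain ⟨b, rfl⟩ := gen l hl m
    exact s3_gen h5 (s3_gX h3) le_rfl b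
  rw [← e, h6, add_zero]
  exact h2

variable (ρ) in
/-- the representation on the singular vectors -/
def s3R : Representation ℂ X.W (s3K ρ) where
  toFun w := (ρ (A.g w)).restrict fun _ hv => s3_g hv w
  map_one' := by
    ext v
    simp
  map_mul' w w' := by
    ext v
    simp

theorem s3R_coe (w : X.W) (v : s3K ρ) : (s3R ρ w v : L) = ρ (A.g w) v := rfl

theorem s3R_alg (ζ : X.GA) (v : s3K ρ) : ((s3R ρ).asAlgebraHom ζ v : L) = ρ (A.gl ζ) v := by
  conv_rhs => rw [t1_eq_sum ζ]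
  rw [t1_asAlg]
  simp only [map_sum, map_smul, gl_of, LinearMap.sum_apply, LinearMap.smul_apply,
    Submodule.coe_sum, Submodule.coe_smul, s3R_coe]

theorem s3_core (h : A.Aut σ θ) {χ : X.W → ℂ} (hχ : IsIrr χ)
    (hl : ∀ z ∈ Subalgebra.center ℂ A.H, ∀ v, ρ z v = (chx χ (A.P z) / χ 1) • v)
    (gen : ∀ v : L, v ≠ 0 → ∀ u, ∃ a, ρ a v = u) {v₀ : L} (h0 : v₀ ≠ 0) (T : Module.End ℂ L)
    (hT : ∀ a v, T (ρ a v) = ρ (θ a) (T v)) (hTT : ∀ v, T (T v) = v) :
    ∃ χ₀, IsIrr χ₀ ∧ χ₀ ∘ σ = χ₀ ∧ A.rel χ χ₀ := by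
  obtain ⟨N, hN⟩ := X.exists_hom_mem_invI ℂ
  have hx : ∀ p : X.Sc, p.IsHomogeneous N → ρ (A.ex p) = 0 := fun p hp =>
    (s3_nil hl (hN N le_rfl p hp)).1
  obtain ⟨v, hv, hv0⟩ := s3_ne (fun p hp => (s3_nil hl (hN N le_rfl p hp)).2) h0
  have hfin : FiniteDimensional ℂ (s3K ρ) :=
    have := FiniteDimensional.span_of_finite ℂ (Set.finite_range fun w => ρ (A.g w) v)
    Submodule.finiteDimensional_of_le fun u hu => s3_span hx gen hv hv0 hu
  have hirr : (s3R ρ).IsIrreducible := by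
    have hne : (⊥ : Subrepresentation (s3R ρ)) ≠ ⊤ := by
      intro e
      have h1 : (⟨v, hv⟩ : s3K ρ) ∈ (⊤ : Subrepresentation (s3R ρ)).toSubmodule := trivial
      rw [← e, T0.bot_sub, Submodule.mem_bot] at h1
      exact hv0 (congrArg Subtype.val h1)
    refine { exists_pair_ne := ⟨_, _, hne⟩, eq_bot_or_eq_top := fun p => ?_ }
    by_cases hp : p.toSubmodule = ⊥
    · exact Or.inl (Subrepresentation.toSubmodule_injective hp)
    refine Or.inr (Subrepresentation.toSubmodule_injective ?_)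
    obtain ⟨u, hu, hu0⟩ := (Submodule.ne_bot_iff _).1 hp
    rw [T0.top_sub, Submodule.eq_top_iff']
    intro m
    have h1 := s3_span hx gen u.2 (fun e => hu0 (Subtype.ext e)) m.2
    have h2 : Submodule.span ℂ (Set.range fun w => ρ (A.g w) u) ≤
        p.toSubmodule.map (s3K ρ).subtype := Submodule.span_le.2 (by
      rintro _ ⟨w, rfl⟩
      exact ⟨_, p.apply_mem_toSubmodule w hu, rfl⟩)
    obtain ⟨m', h3, h4⟩ := h2 h1
    rwa [← Subtype.ext h4]
  have hTK : ∀ u ∈ s3K ρ, T u ∈ s3K ρ := by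
    intro u hu a
    obtain ⟨b, hb⟩ := h.y a
    rw [← h.inv (A.y a), hb, ← hT, hu, map_zero]
  refine ⟨_, isIrr_rep _ hirr, funext fun w => ?_, fun z hz => ?_⟩
  · have e1 : s3R ρ (σ w) = T.restrict hTK * (s3R ρ w * T.restrict hTK) := by
      ext u
      change ρ (A.g (σ w)) u = T (ρ (A.g w) (T u))
      rw [hT, hTT, h.g]
    have e2 : T.restrict hTK * T.restrict hTK = 1 := by
      ext u
      exact hTT u
    rw [Function.comp_apply, Representation.character, Representation.character, e1,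
      LinearMap.trace_mul_comm, mul_assoc, e2, mul_one]
  · obtain ⟨z0, hz0, e⟩ := A.exists_z0 hz
    have e1 := A.P_LY e
    rw [map_sub, P_gl, sub_eq_zero] at e1
    have e2 : (s3R ρ).asAlgebraHom (A.P z) = (chx χ (A.P z) / χ 1) • 1 := by
      ext u
      have e3 := s3_LY e u.2
      rw [map_sub, LinearMap.sub_apply, sub_eq_zero, hl z0 hz0, e1] at e3
      rw [s3R_alg, ← e3]
      rfl
    rw [chx_character, e2, map_smul, Representation.character, map_one, smul_eq_mul]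
    field_simp [hχ.one_ne]

end Core

/-- the functional attached to a central character by the Satake map -/
theorem Aut.exists_lam (h : A.Aut σ θ) {χ : X.W → ℂ} (hχ : IsIrr χ) (e : A.rel χ (χ ∘ σ)) :
    ∃ Λ : A.H →ₗ[ℂ] ℂ, Λ 1 = 1 ∧ (∀ a b, Λ (a * A.e * b) = Λ a * Λ b) ∧ (∀ a, Λ (θ a) = Λ a) ∧
      ∀ z ∈ Subalgebra.center ℂ A.H, ∀ a, Λ (z * a) = chx χ (A.P z) / χ 1 * Λ a := by
  choose S hS hSe using A.satake
  have uq : ∀ a, ∀ z ∈ Subalgebra.center ℂ A.H, z * A.e = A.e * a * A.e → S a = z := by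
    intro a z hz h1
    refine sub_eq_zero.1 (A.center_cancel (sub_mem (hS a) hz) ?_)
    rw [sub_mul, hSe, h1, sub_self]
  have hmul : ∀ z ∈ Subalgebra.center ℂ A.H, ∀ z' ∈ Subalgebra.center ℂ A.H,
      chx χ (A.P (z * z')) / χ 1 = chx χ (A.P z) / χ 1 * (chx χ (A.P z') / χ 1) :=
    fun z hz z' hz' => by
      rw [A.P_center_mul hz, hχ.chx_mul (A.P_center hz), mul_div_assoc]
  have hadd : ∀ a b, S (a + b) = S a + S b := fun a b =>
    uq _ _ (add_mem (hS a) (hS b)) (by rw [add_mul, hSe, hSe, mul_add, add_mul])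
  have hsm : ∀ (c : ℂ) a, S (c • a) = c • S a := fun c a =>
    uq _ _ (Subalgebra.smul_mem _ (hS a) c)
      (by rw [smul_mul_assoc, hSe, mul_smul_comm, smul_mul_assoc])
  have h1 : S 1 = 1 := uq 1 1 (one_mem _) (by rw [one_mul, mul_one, e_mul_e])
  have h2 : ∀ a b, S (a * A.e * b) = S a * S b := fun a b =>
    uq _ _ (mul_mem (hS a) (hS b)) (by
      rw [mul_assoc, hSe, ← mul_assoc (S a), ← mul_assoc (S a), hSe]
      simp only [mul_assoc])
  have h3 : ∀ a, S (θ a) = θ (S a) := fun a => uq _ _ (h.center (hS a)) (by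
    have e1 := congrArg θ (hSe a)
    rwa [map_mul θ, map_mul θ, map_mul θ, h.e] at e1)
  have h4 : ∀ z ∈ Subalgebra.center ℂ A.H, ∀ a, S (z * a) = z * S a := fun z hz a =>
    uq _ _ (mul_mem hz (hS a)) (by
      rw [mul_assoc, hSe, ← mul_assoc z, ← mul_assoc z, ← mul_assoc A.e,
        Subalgebra.mem_center_iff.1 hz A.e])
  let Λ : A.H →ₗ[ℂ] ℂ :=
    { toFun := fun a => chx χ (A.P (S a)) / χ 1
      map_add' := fun a b => by rw [hadd, map_add, map_add, add_div]
      map_smul' := fun c a => by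
        rw [hsm, map_smul, map_smul, RingHom.id_apply, smul_eq_mul, smul_eq_mul, mul_div_assoc] }
  have hΛ : ∀ a, Λ a = chx χ (A.P (S a)) / χ 1 := fun _ => rfl
  refine ⟨Λ, ?_, fun a b => ?_, fun a => ?_, fun z hz a => ?_⟩
  · rw [hΛ, h1, c4_P_one, c4_chx_one, div_self hχ.one_ne]
  · rw [hΛ, hΛ, hΛ, h2, hmul _ (hS a) _ (hS b)]
  · have e2 := e _ (hS a)
    rw [Function.comp_apply, map_one σ] at e2
    rw [hΛ, hΛ, h3, h.chx_P, mul_right_cancel₀ hχ.one_ne e2]
  · rw [hΛ, hΛ, h4 z hz, hmul _ hz _ (hS a)]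

/-- a stable family contains a stable character -/
theorem Aut.exists_stable (h : A.Aut σ θ) {χ : X.W → ℂ} (hχ : IsIrr χ)
    (e : A.rel χ (χ ∘ σ)) : ∃ χ₀, IsIrr χ₀ ∧ χ₀ ∘ σ = χ₀ ∧ A.rel χ χ₀ := by
  obtain ⟨Λ, h1, h2, h3, h4⟩ := h.exists_lam hχ e
  let R : Submodule A.H A.H :=
    { carrier := {m | ∀ a, Λ (a * m) = 0}
      add_mem' := fun hu hv a => by rw [mul_add, map_add, hu a, hv a, add_zero]
      zero_mem' := fun a => by rw [mul_zero, map_zero]
      smul_mem' := fun c m hm a => by rw [smul_eq_mul, ← mul_assoc, hm] }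
  let ρ : A.H →ₐ[ℂ] Module.End ℂ (A.H ⧸ R) := Algebra.lsmul ℂ ℂ (A.H ⧸ R)
  have hρ : ∀ a m, ρ a (Submodule.Quotient.mk m) = Submodule.Quotient.mk (a * m) :=
    fun _ _ => rfl
  have hR : ∀ m ∈ R, θ m ∈ R := fun m hm a => by rw [← h.inv a, ← map_mul, h3, hm]
  let T : Module.End ℂ (A.H ⧸ R) :=
    { toFun := Quotient.map' θ fun a b hab => by
        rw [Submodule.quotientRel_def] at hab ⊢
        rw [← map_sub]
        exact hR _ hab
      map_add' := by
        rintro ⟨a⟩ ⟨b⟩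
        exact congrArg (Submodule.Quotient.mk (p := R)) (map_add θ a b)
      map_smul' := by
        rintro c ⟨a⟩
        exact congrArg (Submodule.Quotient.mk (p := R)) (map_smul θ c a) }
  refine s3_core (ρ := ρ) h hχ (fun z hz v => ?_) (fun v hv u => ?_)
    (v₀ := Submodule.Quotient.mk 1) (fun h0 => ?_) T ?_ ?_
  · obtain ⟨m, rfl⟩ := Submodule.Quotient.mk_surjective R v
    rw [hρ, ← Submodule.Quotient.mk_smul, Submodule.Quotient.eq]
    intro a
    rw [mul_sub, map_sub, ← mul_assoc, Subalgebra.mem_center_iff.1 hz, mul_assoc, h4 z hz,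
      mul_smul_comm, map_smul, smul_eq_mul, sub_self]
  · obtain ⟨m, rfl⟩ := Submodule.Quotient.mk_surjective R v
    obtain ⟨u, rfl⟩ := Submodule.Quotient.mk_surjective R u
    obtain ⟨b, hb⟩ : ∃ b, Λ (b * m) ≠ 0 := by
      by_contra hn
      exact hv ((Submodule.Quotient.mk_eq_zero R).2 fun a => not_not.1 fun h5 => hn ⟨a, h5⟩)
    refine ⟨(Λ (b * m))⁻¹ • (u * A.e * b), ?_⟩
    rw [hρ, Submodule.Quotient.eq]
    intro a
    have e1 : a * (u * A.e * b * m) = a * u * A.e * (b * m) := by simp only [mul_assoc]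
    rw [mul_sub, map_sub, smul_mul_assoc, mul_smul_comm, map_smul, e1, h2, smul_eq_mul]
    field_simp
    ring
  · have := (Submodule.Quotient.mk_eq_zero R).1 h0 1
    rw [mul_one, h1] at this
    exact one_ne_zero this
  · rintro a ⟨m⟩
    exact congrArg (Submodule.Quotient.mk (p := R)) (map_mul θ a m)
  · rintro ⟨m⟩
    exact congrArg (Submodule.Quotient.mk (p := R)) (h.inv m)

end CA

end

end Pool.Agent.P.MP_1a0ecf_al.F
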