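import Pool.Agent.P.MP_1a0ecf_al.F.Fr4
import Pool.Agent.P.MP_1a0ecf_al.F.Fr5
import Pool.Agent.P.MP_1a0ecf_al.F.S3
import Pool.Agent.P.MP_1a0ecf_al.F.L2
import Pool.Agent.P.MP_1a0ecf_al.F.G6

/-! Package Fr6: the classical types. -/

namespace Pool.Agent.P.MP_1a0ecf_al.F

open Matrix MvPolynomial
open scoped Classical TensorProduct

noncomputable section

namespace Cox

variable {X : Cox}

theorem fr6_three {L : Fin X.n → ℝ} {κ : Wt X} (hκ : ∀ i, κ (X.s i) = (L i : ℂ) / 2)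
    {i j : Fin X.n} (h : X.M i j = 3) : L i = L j := by
  obtain ⟨c, hc⟩ := isConj_iff.1 (X.isConj_of_odd (i := i) (j := j) (by rw [h]; decide))
  have e := κ.cl _ c (X.cs.isReflection_simple i)
  rw [hc, hκ, hκ, div_left_inj' two_ne_zero] at e
  exact_mod_cast e.symm

theorem fr6_zero {κ : Wt X} (D : KL X ℝ fun _ => 0) (A : CA X κ)
    (hκ : ∀ i, κ (X.s i) = ((0 : ℝ) : ℂ) / 2) {χ χ' : X.W → ℂ} (hχ : IsIrr χ) (hχ' : IsIrr χ') :
    A.rel χ χ' ↔ D.Rel χ χ' := by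
  refine iff_of_true (A.rel_of_zero (fun t ht => ?_) χ χ') (D.rel_of_zero (fun _ => rfl) hχ hχ')
  obtain ⟨w, i, rfl⟩ := ht
  rw [κ.cl _ w (X.cs.isReflection_simple i), hκ]
  simp

theorem fr6_chain {L : Fin X.n → ℝ} {m : ℕ} (hm : m < X.n)
    (h : ∀ i j : Fin X.n, m ≤ i → (j : ℕ) = i + 1 → L i = L j) (i : Fin X.n) (hi : m ≤ i) :
    L i = L ⟨m, hm⟩ := by
  obtain ⟨i, hi'⟩ := i
  induction i, (show m ≤ i from hi) using Nat.le_induction with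
  | base => rfl
  | succ k hk ih =>
    rw [← h ⟨k, by omega⟩ ⟨k + 1, hi'⟩ hk rfl]
    exact ih _ hk

theorem fr6_u (F : Fr X) (κ : Wt X) {w : X.W} {η : Fin F.N → ℂ} (h : F.Act w 1 η) (i : Fin F.N) :
    X.gA w * F.u κ i = F.u κ i * X.gA w := by
  rw [Fr.u, mul_add, add_mul, Finset.mul_sum, Finset.sum_mul, F.conj_St κ h]
  exact congrArg (· + _) (Finset.sum_congr rfl fun j _ => F.conj_S κ h i j)

theorem fr6_conj {κ : Wt X} (A : CA X κ) (w : X.W) :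
    ∃ θ : A.H →ₐ[ℂ] A.H, ∀ h, θ h = A.g w * h * A.g w⁻¹ := by
  have e : A.g w⁻¹ * A.g w = 1 := by rw [← map_mul, inv_mul_cancel, map_one]
  refine ⟨AlgHom.ofLinearMap ((LinearMap.mulRight ℂ (A.g w⁻¹)).comp (LinearMap.mulLeft ℂ (A.g w)))
    ?_ fun a b => ?_, fun h => rfl⟩
  · show A.g w * 1 * A.g w⁻¹ = 1
    rw [mul_one, ← map_mul, mul_inv_cancel, map_one]
  · show A.g w * (a * b) * A.g w⁻¹ = A.g w * a * A.g w⁻¹ * (A.g w * b * A.g w⁻¹)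
    calc _ = A.g w * a * (A.g w⁻¹ * A.g w) * b * A.g w⁻¹ := by rw [e, mul_one, mul_assoc _ a b]
      _ = _ := by simp only [mul_assoc]

theorem fr6_rel (F : Fr X) {κ : Wt X} (A : CA X κ) {w : X.W}
    (h : F.Act w 1 fun i => if (i : ℕ) = 0 then F.sg else 1) {χ χ' : X.W → ℂ} (hχ : IsIrr χ)
    (hχ' : IsIrr χ') : A.rel χ χ' ↔ SameP (F.uN κ) F.N χ χ' := by
  refine ⟨F.sameP_of_rel A, fun hs z hz => ?_⟩
  obtain ⟨θ, hθ⟩ := fr6_conj A w
  have e : A.g w * A.g w⁻¹ = 1 := by rw [← map_mul, mul_inv_cancel, map_one]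
  have fix : ∀ a, A.g w * a = a * A.g w → θ a = a := fun a ha => by
    rw [hθ, ha, mul_assoc, e, mul_one]
  have hc : ∀ z ∈ Subalgebra.center ℂ A.H, θ z = z := fun z hz =>
    fix z (Subalgebra.mem_center_iff.1 hz _)
  have hx : ∀ i, θ (A.x (F.ε i)) = (if (i : ℕ) = 0 then F.sg else 1) • A.x (F.ε i) := fun i => by
    rw [hθ, A.rels.gx, h.2, mul_assoc, e, mul_one, map_smul, Equiv.Perm.one_apply]
  have hy : ∀ i, θ (A.y (F.ε i)) = (if (i : ℕ) = 0 then F.sg else 1) • A.y (F.ε i) := fun i => by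
    rw [hθ, A.rels.gy, h.2, mul_assoc, e, mul_one, map_smul, Equiv.Perm.one_apply]
  refine F.rel_fixed A θ ?_ (fun z hz => (hc z hz).symm ▸ hz) hx hy (fun i => ?_) hχ hχ' hs hz
    (hc z hz)
  · rw [CA.e, map_smul, map_sum]
    congr 1
    refine Fintype.sum_equiv (MulAut.conj w).toEquiv _ _ fun u => ?_
    rw [hθ, ← map_mul, ← map_mul]
    rfl
  · have e1 : (if (i : ℕ) = 0 then F.sg else 1) * (if (i : ℕ) = 0 then F.sg else 1) = 1 := by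
      split_ifs
      · rcases F.hsg with k | k
        · rw [k, one_mul]
        · rw [k.1]; norm_num
      · exact one_mul _
    rw [Fr.z, map_add, map_mul, hx, hy, smul_mul_smul_comm, e1, one_smul, fix (A.gl _)]
    rw [← A.gl_of, ← map_mul, ← map_mul, fr6_u F κ h]

theorem goodA (h : X.Is (pathM 0 3)) (hK : X.KLA) : X.Good := by
  intro L hL κ hκ D A χ χ' hχ hχ'
  obtain ⟨a, ha, rfl⟩ : ∃ a : ℝ, 0 ≤ a ∧ L = fun _ => a := by
    rcases Nat.eq_zero_or_pos X.n with h0 | h0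
    · exact ⟨0, le_rfl, funext fun i => absurd i.2 (by omega)⟩
    · refine ⟨L ⟨0, h0⟩, hL _, funext fun i => fr6_chain h0 (fun i j _ e => ?_) i (Nat.zero_le _)⟩
      refine fr6_three hκ ?_
      rw [h, e]
      simp [pathM]
  rcases ha.eq_or_lt with rfl | ha
  · exact fr6_zero D A hκ hχ hχ'
  obtain ⟨F, h1, h2, h3⟩ := frameA h
  rw [hK h a ha D χ χ' hχ hχ', ← h2, SameP.congr two_ne_zero (h3 κ a hκ)]
  refine fr6_rel F A (w := 1) ⟨fun i => Or.inl ?_, fun i => ?_⟩ hχ hχ'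
  · simp [h1]
  · simp [h1]

theorem goodB (h : X.Is (pathM 0 4)) (hn : 2 ≤ X.n) (hK : X.KLB) : X.Good := by
  intro L hL κ hκ D A χ χ' hχ hχ'
  obtain ⟨a, b, ha, hb, rfl⟩ : ∃ a b : ℝ, 0 ≤ a ∧ 0 ≤ b ∧
      L = fun i : Fin X.n => if (i : ℕ) = 0 then b else a := by
    refine ⟨L ⟨1, hn⟩, L ⟨0, by omega⟩, hL _, hL _, funext fun i => ?_⟩
    split_ifs with hi
    · exact congrArg L (Fin.ext hi)
    · refine fr6_chain (L := L) hn (fun i j k e => fr6_three hκ ?_) i (by omega)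
      have : (i : ℕ) ≠ 0 := by omega
      rw [h, e]
      simp [pathM, this]
  obtain ⟨F, h1, h2, h3, h4⟩ := frameB h hn
  rw [hK h hn a b ha hb D χ χ' hχ hχ', ← h2, SameP.congr two_ne_zero (h4 κ a b fun i => by
    rw [hκ]; beta_reduce; split_ifs <;> rfl)]
  exact fr6_rel F A (w := X.sN 0) (by rw [h1]; exact h3) hχ hχ'

theorem goodD (h : X.Is dM) (hn : 4 ≤ X.n) (hK : X.KLD) : X.Good := by
  intro L hL κ hκ D A χ χ' hχ hχ'
  obtain ⟨a, ha, rfl⟩ : ∃ a : ℝ, 0 ≤ a ∧ L = fun _ => a := by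
    have h1 : 1 < X.n := by omega
    have key : ∀ i : Fin X.n, 1 ≤ (i : ℕ) → L i = L ⟨1, h1⟩ := fun i hi => by
      refine fr6_chain (L := L) h1 (fun i j k e => fr6_three hκ ?_) i hi
      have : (i : ℕ) ≠ 0 := by omega
      rw [h, e]
      simp [dM, this]
    refine ⟨L ⟨1, h1⟩, hL _, funext fun i => ?_⟩
    rcases Nat.eq_zero_or_pos i with hi | hi
    · rw [← key ⟨2, by omega⟩ (by simp)]
      refine fr6_three hκ ?_
      rw [h, hi]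
      simp [dM]
    · exact key i hi
  rcases ha.eq_or_lt with rfl | ha
  · exact fr6_zero D A hκ hχ hχ'
  obtain ⟨σ, hσ⟩ := exists_sw h hn
  obtain ⟨F, h1, h2, h3⟩ := frameD h hn hσ
  obtain ⟨h4, h5⟩ := h3 κ a hκ
  obtain ⟨θ, hθ, hx, hy, hz⟩ := h5 A
  have e : ∀ ψ ψ' : X.W → ℂ, SameP (X.uD a) X.n ψ ψ' ↔ SameP (F.uN κ) F.N ψ ψ' := fun ψ ψ' => by
    rw [← h2, SameP.congr two_ne_zero h4]
  have k1 : ∀ {ψ ψ' : X.W → ℂ}, A.rel ψ ψ' → SameP (X.uD a) X.n ψ ψ' := fun k =>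
    (e _ _).2 (F.sameP_of_rel A k)
  have k2 : ∀ {ψ ψ' : X.W → ℂ}, IsIrr ψ → IsIrr ψ' → ψ ∘ σ = ψ → SameP (X.uD a) X.n ψ ψ' →
      A.rel ψ ψ' := fun {ψ ψ'} p p' q k => by
    have := hθ.rel_or p p' fun z hz' hf =>
      F.rel_fixed A θ hθ.e (fun z hz => hθ.center hz) hx hy hz p p' ((e _ _).1 k) hz' hf
    rwa [q, or_self] at this
  obtain ⟨k3, k4⟩ := hK h hn σ hσ a ha D χ χ' hχ hχ'
  rw [k3]
  refine ⟨fun k => ⟨k1 k, ?_⟩, ?_⟩
  · rcases k4 with k4 | k4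
    · exact Or.inr k4
    · rcases k4 (k1 k) with k5 | k5
      · exact Or.inl k5.symm
      · obtain ⟨χ₀, p, q, r⟩ := hθ.exists_stable hχ (k5 ▸ k)
        exact Or.inr ⟨χ₀, p, q, k1 r⟩
  · rintro ⟨k, rfl | ⟨χ₀, p, q, r⟩⟩
    · exact A.rel_refl _
    · exact (k2 p hχ q r.symm).symm.trans (k2 p hχ' q (r.symm.trans k hχ.one_ne)) p.one_ne

end Cox

end

end Pool.Agent.P.MP_1a0ecf_al.F
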