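import Pool.Agent.P.MP_1a0ecf_al.F.Cox

/-! Package G1: the reflection representation and positivity of roots. -/

namespace Pool.Agent.P.MP_1a0ecf_al.F

open Matrix
open scoped Classical

noncomputable section

namespace Cox0

variable (X : Cox0)

theorem K_diag (i : Fin X.n) : X.K i i = 2 := by
  simp [K]

theorem K_symm : X.Kᵀ = X.K := by
  ext i j
  simp only [transpose_apply, K]
  rw [X.M.symmetric]

theorem K_two {i j : Fin X.n} (h : X.M i j = 2) : X.K i j = 0 := by
  simp [K, h]

theorem K_three {i j : Fin X.n} (h : X.M i j = 3) : X.K i j = -1 := by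
  simp only [K, h]
  rw [show ((3 : ℕ) : ℝ) = 3 by norm_num, Real.cos_pi_div_three]
  norm_num

theorem K_five {i j : Fin X.n} (h : X.M i j = 5) : X.K i j = -Real.goldenRatio := by
  simp only [K, h]
  rw [show ((5 : ℕ) : ℝ) = 5 by norm_num, Real.cos_pi_div_five, Real.goldenRatio]
  ring

theorem two_le_M {i j : Fin X.n} (hij : i ≠ j) : 2 ≤ X.M i j := by
  have h0 := X.hM i j
  have h1 := X.M.off_diagonal i j hij
  omega

/-- Chebyshev numbers -/
def g1_U (a : ℝ) : ℕ → ℝ
  | 0 => 0
  | 1 => 1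
  | k + 2 => a * g1_U a (k + 1) - g1_U a k

theorem g1_U_inv (a : ℝ) (k : ℕ) :
    g1_U a (k + 1) ^ 2 - a * g1_U a (k + 1) * g1_U a k + g1_U a k ^ 2 = 1 := by
  induction k with
  | zero => simp [g1_U]
  | succ k ih =>
    rw [g1_U]
    linear_combination ih

theorem g1_U_sin (θ : ℝ) (k : ℕ) :
    g1_U (2 * Real.cos θ) k * Real.sin θ = Real.sin (k * θ) := by
  induction k using Nat.twoStepInduction with
  | zero => simp [g1_U]
  | one => simp [g1_U]
  | more k h0 h1 =>
    rw [g1_U, sub_mul, mul_assoc, h0, h1]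
    have e1 : ((k + 2 : ℕ) : ℝ) * θ = ((k + 1 : ℕ) : ℝ) * θ + θ := by push_cast; ring
    have e2 : (k : ℝ) * θ = ((k + 1 : ℕ) : ℝ) * θ - θ := by push_cast; ring
    rw [e1, e2, Real.sin_add, Real.sin_sub]
    ring

theorem g1_sin_pos {m : ℕ} (hm : 2 ≤ m) : 0 < Real.sin (Real.pi / m) := by
  have h2 : (2 : ℝ) ≤ m := by exact_mod_cast hm
  exact Real.sin_pos_of_pos_of_lt_pi (div_pos Real.pi_pos (by linarith))
    (div_lt_self Real.pi_pos (by linarith))

theorem g1_U_zero {m : ℕ} (hm : 2 ≤ m) : g1_U (2 * Real.cos (Real.pi / m)) m = 0 := by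
  have h := g1_U_sin (Real.pi / m) m
  have h2 : (m : ℝ) ≠ 0 := by
    have : m ≠ 0 := by omega
    exact_mod_cast this
  rw [mul_div_cancel₀ _ h2, Real.sin_pi] at h
  exact (mul_eq_zero.1 h).resolve_right (g1_sin_pos hm).ne'

theorem g1_U_nonneg {m k : ℕ} (hm : 2 ≤ m) (hk : k ≤ m) :
    0 ≤ g1_U (2 * Real.cos (Real.pi / m)) k := by
  have h := g1_U_sin (Real.pi / m) k
  have h2 : (0 : ℝ) < m := by
    have : 0 < m := by omega
    exact_mod_cast this
  have h3 : (k : ℝ) ≤ m := by exact_mod_cast hk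
  have h4 : 0 ≤ Real.sin (k * (Real.pi / m)) := by
    refine Real.sin_nonneg_of_nonneg_of_le_pi (by positivity) ?_
    rw [← mul_div_assoc, div_le_iff₀ h2]
    nlinarith [Real.pi_pos]
  rw [← h] at h4
  exact nonneg_of_mul_nonneg_left h4 (g1_sin_pos hm)

theorem g1_negK (i j : Fin X.n) : -X.K i j = 2 * Real.cos (Real.pi / X.M i j) := by
  simp [K]

theorem g1_negK' (i j : Fin X.n) : -X.K j i = 2 * Real.cos (Real.pi / X.M i j) := by
  rw [g1_negK, X.M.symmetric]

theorem K_nonpos {i j : Fin X.n} (hij : i ≠ j) : X.K i j ≤ 0 := by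
  have h := g1_U_nonneg (X.two_le_M hij) (X.two_le_M hij)
  rw [← X.g1_negK] at h
  simpa [g1_U] using h

theorem g1_al (i j : Fin X.n) : (X.K *ᵥ X.al j) i = X.K i j := by
  simp [al]

theorem g1_sr (i : Fin X.n) (v : Fin X.n → ℝ) :
    X.sr i *ᵥ v = v - (X.K *ᵥ v) i • X.al i := by
  rw [sr, sub_mulVec, one_mulVec, vecMulVec_mulVec, op_smul_eq_smul]
  rfl

theorem g1_two (i j : Fin X.n) (v : Fin X.n → ℝ) (p q : ℝ) :
    X.sr j *ᵥ (v + p • X.al i + q • X.al j) =
      v + p • X.al i + (-q - (X.K *ᵥ v) j - X.K j i * p) • X.al j := by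
  rw [g1_sr, mulVec_add, mulVec_add, mulVec_smul, mulVec_smul]
  simp only [Pi.add_apply, Pi.smul_apply, g1_al, X.K_diag, smul_eq_mul]
  module

theorem g1_two' (i j : Fin X.n) (v : Fin X.n → ℝ) (p q : ℝ) :
    X.sr i *ᵥ (v + p • X.al i + q • X.al j) =
      v + (-p - (X.K *ᵥ v) i - X.K i j * q) • X.al i + q • X.al j := by
  rw [add_right_comm, g1_two, add_right_comm]

/-- the action of a product of two simple reflections on rank two coordinates -/
def g1_stp (a b x y : ℝ) (z : ℝ × ℝ) : ℝ × ℝ :=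
  (-z.1 - x + a * (-z.2 - y + b * z.1), -z.2 - y + b * z.1)

theorem g1_pow (i j : Fin X.n) (v : Fin X.n → ℝ) (n : ℕ) (z : ℝ × ℝ) :
    ((X.sr i * X.sr j) ^ n) *ᵥ (v + z.1 • X.al i + z.2 • X.al j) =
      v + ((g1_stp (-X.K i j) (-X.K j i) ((X.K *ᵥ v) i) ((X.K *ᵥ v) j))^[n] z).1 • X.al i +
        ((g1_stp (-X.K i j) (-X.K j i) ((X.K *ᵥ v) i) ((X.K *ᵥ v) j))^[n] z).2 • X.al j := by
  induction n generalizing z with
  | zero => simp
  | succ n ih =>
    rw [pow_succ, ← mulVec_mulVec, ← mulVec_mulVec, g1_two, g1_two',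
      Function.iterate_succ_apply, ← ih]
    congr 1
    simp only [g1_stp]
    module

theorem g1_iter (a x y : ℝ) (k : ℕ) :
    (g1_stp a a x y)^[k + 1] (0, 0) =
      (-g1_U a (k + 1) * (g1_U a (k + 1) * x + g1_U a (k + 2) * y),
        -g1_U a (k + 1) * (g1_U a k * x + g1_U a (k + 1) * y)) := by
  induction k with
  | zero =>
    simp only [zero_add, Function.iterate_one, g1_stp, g1_U, Prod.mk.injEq]
    constructor <;> ring
  | succ k ih =>
    rw [Function.iterate_succ_apply', ih]
    have h := g1_U_inv a k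
    simp only [g1_stp, Prod.mk.injEq, g1_U]
    constructor
    · linear_combination (x + a * y) * h
    · linear_combination y * h

theorem liftable : X.M.IsLiftable X.sr := by
  intro i j
  refine Matrix.toLin'.injective (LinearMap.ext fun v => ?_)
  rw [Matrix.toLin'_apply, Matrix.toLin'_apply, one_mulVec]
  have key := fun n => X.g1_pow i j v n (0, 0)
  simp only [zero_smul, add_zero] at key
  rw [key]
  by_cases hij : i = j
  · subst hij
    simp only [X.M.diagonal, X.K_diag, Function.iterate_succ, Function.iterate_zero,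
      Function.comp, id, g1_stp]
    module
  have h2 := X.two_le_M hij
  have h0 := g1_U_zero h2
  rw [X.g1_negK i j, X.g1_negK' i j]
  generalize 2 * Real.cos (Real.pi / X.M i j) = a at h0 ⊢
  obtain ⟨k, hk⟩ : ∃ k, X.M i j = k + 1 := ⟨X.M i j - 1, by omega⟩
  rw [hk] at h0 ⊢
  rw [g1_iter, h0]
  simp

/-- the reflection representation -/
def σ : X.W →* Matrix (Fin X.n) (Fin X.n) ℝ := X.cs.lift ⟨X.sr, X.liftable⟩

theorem σ_simple (i : Fin X.n) : X.σ (X.s i) = X.sr i :=
  X.cs.lift_apply_simple X.liftable i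

theorem σ_simple_mulVec (i : Fin X.n) (v : Fin X.n → ℝ) :
    X.σ (X.s i) *ᵥ v = v - X.B (X.al i) v • X.al i := by
  rw [σ_simple, g1_sr, B, single_dotProduct, one_mul]

theorem B_symm (u v : Fin X.n → ℝ) : X.B u v = X.B v u := by
  rw [B, B, dotProduct_mulVec, ← mulVec_transpose, K_symm, dotProduct_comm]

theorem B_al_al (i j : Fin X.n) : X.B (X.al i) (X.al j) = X.K i j := by
  rw [B, single_dotProduct, one_mul, g1_al]

theorem σ_form (w : X.W) : (X.σ w)ᵀ * X.K * X.σ w = X.K := by
  induction w using X.cs.simple_induction with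
  | simple i =>
    rw [σ_simple]
    ext a b
    have e : X.K i a = X.K a i := congrFun (congrFun X.K_symm a) i
    simp only [sr, transpose_sub, transpose_one, transpose_vecMulVec, Matrix.sub_mul,
      Matrix.one_mul, vecMulVec_mul, mul_vecMulVec, Matrix.sub_apply, vecMulVec_apply,
      single_vecMul, one_smul, mul_one, Matrix.row, Matrix.mul_sub, sub_mulVec, Pi.sub_apply,
      g1_al, vecMulVec_mulVec, op_smul_eq_smul, Pi.smul_apply, dotProduct_single, X.K_diag,
      smul_eq_mul, e]
    ring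
  | one => simp
  | mul w w' h1 h2 =>
    rw [map_mul, transpose_mul]
    calc (X.σ w')ᵀ * (X.σ w)ᵀ * X.K * (X.σ w * X.σ w')
        = (X.σ w')ᵀ * ((X.σ w)ᵀ * X.K * X.σ w) * X.σ w' := by simp only [Matrix.mul_assoc]
      _ = X.K := by rw [h1, h2]

theorem B_inv (w : X.W) (u v : Fin X.n → ℝ) : X.B (X.σ w *ᵥ u) (X.σ w *ᵥ v) = X.B u v := by
  have h : u ⬝ᵥ ((X.σ w)ᵀ * X.K * X.σ w) *ᵥ v = X.B u v := by rw [X.σ_form w, B]
  rw [← h, B, ← mulVec_mulVec, ← mulVec_mulVec, dotProduct_mulVec u, vecMul_transpose]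

/-- coordinates of an alternating word applied to a simple root -/
def g1_alt (a b : ℝ) : ℕ → ℝ × ℝ
  | 0 => (1, 0)
  | k + 1 => if Even k then ((g1_alt a b k).1, b * (g1_alt a b k).1 - (g1_alt a b k).2)
      else (a * (g1_alt a b k).2 - (g1_alt a b k).1, (g1_alt a b k).2)

theorem g1_alt_eq (a : ℝ) (k : ℕ) : g1_alt a a k =
    if Even k then (g1_U a (k + 1), g1_U a k) else (g1_U a k, g1_U a (k + 1)) := by
  induction k with
  | zero => simp [g1_alt, g1_U]
  | succ k ih =>
    by_cases hk : Even k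
    · simp [g1_alt, ih, hk, Nat.even_add_one, g1_U]
    · simp [g1_alt, ih, hk, Nat.even_add_one, g1_U]

theorem g1_alt_nonneg {i j : Fin X.n} (hij : i ≠ j) {k : ℕ} (hk : k < X.M i j) :
    0 ≤ (g1_alt (-X.K i j) (-X.K j i) k).1 ∧ 0 ≤ (g1_alt (-X.K i j) (-X.K j i) k).2 := by
  have h1 := g1_U_nonneg (X.two_le_M hij) hk.le
  have h2 := g1_U_nonneg (k := k + 1) (X.two_le_M hij) hk
  rw [X.g1_negK i j, X.g1_negK' i j, g1_alt_eq]
  split_ifs
  · exact ⟨h2, h1⟩
  · exact ⟨h1, h2⟩

open CoxeterSystem in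
theorem g1_alt_σ (i j : Fin X.n) (k : ℕ) :
    X.σ (X.cs.wordProd (alternatingWord i j k)) *ᵥ X.al i =
      (g1_alt (-X.K i j) (-X.K j i) k).1 • X.al i +
        (g1_alt (-X.K i j) (-X.K j i) k).2 • X.al j := by
  induction k with
  | zero => simp [alternatingWord, g1_alt, -mulVec_single]
  | succ k ih =>
    rw [alternatingWord_succ', wordProd_cons, map_mul, ← mulVec_mulVec, ih, σ_simple]
    by_cases hk : Even k
    · have := X.g1_two i j 0 (g1_alt (-X.K i j) (-X.K j i) k).1 (g1_alt (-X.K i j) (-X.K j i) k).2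
      simp only [zero_add, mulVec_zero, Pi.zero_apply] at this
      simp only [g1_alt, if_pos hk, this]
      module
    · have := X.g1_two' i j 0 (g1_alt (-X.K i j) (-X.K j i) k).1
        (g1_alt (-X.K i j) (-X.K j i) k).2
      simp only [zero_add, mulVec_zero, Pi.zero_apply] at this
      simp only [g1_alt, if_neg hk, this]
      module

open CoxeterSystem in
/-- maximal alternating suffix -/
theorem g1_suffix {x : X.W} {i : Fin X.n} (hx : X.len x < X.len (x * X.s i)) (h1 : x ≠ 1) :
    ∃ (j : Fin X.n) (k : ℕ) (v : X.W), i ≠ j ∧ k < X.M i j ∧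
      x = v * X.cs.wordProd (alternatingWord i j k) ∧ X.len v < X.len x ∧
      X.len v < X.len (v * X.s i) ∧ X.len v < X.len (v * X.s j) := by
  obtain ⟨n, M, W, cs, hM0⟩ := X
  simp only [len, s] at hx ⊢
  obtain ⟨j, hj⟩ := cs.exists_rightDescent_of_ne_one h1
  have hij : i ≠ j := by
    rintro rfl
    exact absurd hj (not_lt.2 hx.le)
  let P : ℕ → Prop := fun k => ∃ v : W, x = v * cs.wordProd (alternatingWord i j k) ∧
    cs.length x = cs.length v + k
  have hP1 : P 1 := ⟨x * cs.simple j, by simp [alternatingWord],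
    (cs.isRightDescent_iff.1 hj).symm⟩
  have hle : 1 ≤ cs.length x := by
    obtain ⟨v, -, hv⟩ := hP1
    omega
  have hPk : P (Nat.findGreatest P (cs.length x)) := Nat.findGreatest_spec hle hP1
  have hk1 : 1 ≤ Nat.findGreatest P (cs.length x) := Nat.le_findGreatest hle hP1
  have hmax : ¬ P (Nat.findGreatest P (cs.length x) + 1) := by
    intro hP
    have : Nat.findGreatest P (cs.length x) + 1 ≤ cs.length x := by
      obtain ⟨v, -, hv⟩ := hP
      omega
    have := Nat.le_findGreatest this hP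
    omega
  obtain ⟨k, hk⟩ : ∃ k, Nat.findGreatest P (cs.length x) = k + 1 :=
    ⟨Nat.findGreatest P (cs.length x) - 1, by omega⟩
  rw [hk] at hPk hmax
  obtain ⟨v, hv, hl⟩ := hPk
  have asc1 : cs.length v < cs.length (v * cs.simple (if Even (k + 1) then j else i)) := by
    rcases cs.length_mul_simple v (if Even (k + 1) then j else i) with h2 | h2
    · omega
    · exfalso
      refine hmax ⟨v * cs.simple (if Even (k + 1) then j else i), ?_, by omega⟩
      rw [alternatingWord_succ', wordProd_cons, ← mul_assoc, simple_mul_simple_cancel_right]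
      exact hv
  have asc2 : cs.length v < cs.length (v * cs.simple (if Even k then j else i)) := by
    rcases cs.length_mul_simple v (if Even k then j else i) with h2 | h2
    · omega
    · exfalso
      rw [alternatingWord_succ', wordProd_cons, ← mul_assoc] at hv
      have h3 := cs.length_mul_le (v * cs.simple (if Even k then j else i))
        (cs.wordProd (alternatingWord i j k))
      have h4 := cs.length_wordProd_le (alternatingWord i j k)
      rw [length_alternatingWord] at h4
      rw [← hv] at h3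
      omega
  have hvi : cs.length v < cs.length (v * cs.simple i) ∧
      cs.length v < cs.length (v * cs.simple j) := by
    by_cases he : Even k
    · have he' : ¬ Even (k + 1) := by simp [Nat.even_add_one, he]
      rw [if_pos he] at asc2
      rw [if_neg he'] at asc1
      exact ⟨asc1, asc2⟩
    · have he' : Even (k + 1) := by simpa [Nat.even_add_one] using he
      rw [if_neg he] at asc2
      rw [if_pos he'] at asc1
      exact ⟨asc2, asc1⟩
  have hM : k + 1 < M i j := by
    by_contra hc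
    have h0 : M i j ≠ 0 := hM0 i j
    have hnr := cs.not_isReduced_alternatingWord j i (m := k + 2)
      (by rw [M.symmetric]; exact h0) (by rw [M.symmetric]; omega)
    have h4 := cs.length_wordProd_le (alternatingWord j i (k + 2))
    unfold CoxeterSystem.IsReduced at hnr
    rw [length_alternatingWord] at h4 hnr
    have h5 : x * cs.simple i = v * cs.wordProd (alternatingWord j i (k + 2)) := by
      rw [alternatingWord_succ, wordProd_concat, ← mul_assoc, ← hv]
    have h6 := cs.length_mul_le v (cs.wordProd (alternatingWord j i (k + 2)))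
    rw [← h5] at h6
    omega
  exact ⟨j, k + 1, v, hij, hM, hv, by omega, hvi.1, hvi.2⟩

theorem pos_of_asc {w : X.W} {i : Fin X.n} (h : X.len w < X.len (w * X.s i)) :
    0 ≤ X.σ w *ᵥ X.al i := by
  induction hn : X.len w using Nat.strong_induction_on generalizing w i with
  | _ n ih =>
  by_cases h1 : w = 1
  · subst h1
    simp only [map_one, one_mulVec, al]
    exact Pi.single_nonneg.2 zero_le_one
  obtain ⟨j, k, v, hij, hM, hv, hl, a1, a2⟩ := X.g1_suffix h h1
  obtain ⟨hp, hq⟩ := X.g1_alt_nonneg hij hM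
  rw [hv, map_mul, ← mulVec_mulVec, g1_alt_σ, mulVec_add, mulVec_smul, mulVec_smul]
  exact add_nonneg (smul_nonneg hp (ih _ (hn ▸ hl) a1 rfl)) (smul_nonneg hq (ih _ (hn ▸ hl) a2 rfl))

theorem neg_of_desc {w : X.W} {i : Fin X.n} (h : X.len (w * X.s i) < X.len w) :
    X.σ w *ᵥ X.al i ≤ 0 := by
  have h1 := X.pos_of_asc (w := w * X.s i) (i := i)
    (by rw [X.cs.simple_mul_simple_cancel_right]; exact h)
  rw [map_mul, ← mulVec_mulVec, σ_simple_mulVec, B_al_al, K_diag,
    show X.al i - (2 : ℝ) • X.al i = -X.al i by module, mulVec_neg] at h1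
  exact neg_nonneg.1 h1

theorem root_ne_zero (w : X.W) (i : Fin X.n) : X.σ w *ᵥ X.al i ≠ 0 := by
  intro h
  have h1 := X.B_inv w (X.al i) (X.al i)
  rw [h, B_al_al, K_diag] at h1
  simp [B] at h1

theorem asc_iff (w : X.W) (i : Fin X.n) :
    X.len w < X.len (w * X.s i) ↔ 0 ≤ X.σ w *ᵥ X.al i := by
  refine ⟨X.pos_of_asc, fun h => ?_⟩
  rcases X.cs.length_mul_simple w i with h1 | h1
  · show X.cs.length w < X.cs.length (w * X.cs.simple i)
    omega
  · refine absurd (le_antisymm (X.neg_of_desc ?_) h) (X.root_ne_zero w i)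
    show X.cs.length (w * X.cs.simple i) < X.cs.length w
    omega

theorem eq_one_of_fix {w : X.W} (h : ∀ i, X.σ w *ᵥ X.al i = X.al i) : w = 1 := by
  by_contra h1
  obtain ⟨i, hi⟩ := X.cs.exists_rightDescent_of_ne_one h1
  have h2 := X.neg_of_desc (w := w) (i := i) hi i
  rw [h i] at h2
  simp [al] at h2
  linarith

theorem σ_injective : Function.Injective X.σ := by
  refine (injective_iff_map_eq_one _).2 fun w hw => X.eq_one_of_fix fun i => ?_
  rw [hw, one_mulVec]

end Cox0

end

end Pool.Agent.P.MP_1a0ecf_al.F
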