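import Pool.Agent.P.MP_1a0ecf_al.F.G1

/-! Package G2: the dominant vector `rho`, heights, and the order `gt`. -/

namespace Pool.Agent.P.MP_1a0ecf_al.F

open Matrix
open scoped Classical

noncomputable section

namespace Cox

variable (X : Cox)

private theorem g2_ss (w : X.W) (i : Fin X.n) : w * X.s i * X.s i = w :=
  X.cs.simple_mul_simple_cancel_right i

private theorem g2_ind (P : X.W → Prop) (h1 : P 1)
    (hs : ∀ w i, X.len w < X.len (w * X.s i) → P w → P (w * X.s i)) (w : X.W) : P w := by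
  generalize hn : X.len w = n
  induction n using Nat.strong_induction_on generalizing w with
  | _ n ih =>
    by_cases hw : w = 1
    · rw [hw]; exact h1
    obtain ⟨i, hi⟩ := X.cs.exists_rightDescent_of_ne_one hw
    have hi' : X.len (w * X.s i) < X.len w := hi
    have := hs (w * X.s i) i (by rwa [X.g2_ss]) (ih _ (hn ▸ hi') _ rfl)
    rwa [X.g2_ss] at this

private theorem g2_mul (x y : X.W) (v : Fin X.n → ℝ) :
    X.σ (x * y) *ᵥ v = X.σ x *ᵥ X.σ y *ᵥ v := by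
  rw [map_mul, mulVec_mulVec]

private theorem g2_one (v : Fin X.n → ℝ) : X.σ 1 *ᵥ v = v := by
  rw [map_one, one_mulVec]

private theorem g2_step (w : X.W) (i : Fin X.n) (v : Fin X.n → ℝ) :
    X.σ (w * X.s i) *ᵥ v = X.σ w *ᵥ v - X.B (X.al i) v • X.σ w *ᵥ X.al i := by
  rw [X.g2_mul, X.σ_simple_mulVec, mulVec_sub, mulVec_smul]

private theorem g2_B_sub (u v w : Fin X.n → ℝ) : X.B u (v - w) = X.B u v - X.B u w := by
  simp only [Cox0.B, mulVec_sub, dotProduct_sub]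

private theorem g2_B_smul (u v : Fin X.n → ℝ) (t : ℝ) : X.B u (t • v) = t * X.B u v := by
  simp only [Cox0.B, mulVec_smul, dotProduct_smul, smul_eq_mul]

theorem K_det_ne : X.K.det ≠ 0 := by
  intro h
  obtain ⟨v, hv, h0⟩ := Matrix.exists_mulVec_eq_zero_iff.2 h
  have hB : ∀ u, X.B u v = 0 := fun u => by rw [Cox0.B, h0, dotProduct_zero]
  have hfix : ∀ w, X.σ w *ᵥ v = v :=
    X.g2_ind _ (X.g2_one v) fun w i _ ih => by rw [X.g2_step, hB, zero_smul, sub_zero, ih]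
  have hS : ∀ i, (∑ w, X.σ w) *ᵥ X.al i = 0 := by
    intro i
    have e1 : ∑ w, X.σ (w * X.s i) *ᵥ X.al i = ∑ w, X.σ w *ᵥ X.al i :=
      Equiv.sum_comp (Equiv.mulRight (X.s i)) fun w => X.σ w *ᵥ X.al i
    have e2 : ∀ w, X.σ (w * X.s i) *ᵥ X.al i = -(X.σ w *ᵥ X.al i) := fun w => by
      rw [X.g2_step, X.B_al_al, X.K_diag, two_smul]
      abel
    simp only [e2, Finset.sum_neg_distrib] at e1
    rw [sum_mulVec]
    funext k
    have := congrFun e1 k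
    simp only [Pi.neg_apply, Pi.zero_apply] at this ⊢
    linarith
  have hS0 : ∑ w, X.σ w = 0 := by
    ext a i
    have := congrFun (hS i) a
    rwa [mulVec_single_one] at this
  have e : (∑ w, X.σ w) *ᵥ v = Fintype.card X.W • v := by
    rw [sum_mulVec]
    simp only [hfix, Finset.sum_const, Finset.card_univ]
  rw [hS0, zero_mulVec, eq_comm, smul_eq_zero] at e
  exact e.elim Fintype.card_ne_zero hv

/-- the vector with `B (al i) rho = 1` for all `i` -/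
def rho : Fin X.n → ℝ := X.K⁻¹ *ᵥ fun _ => 1

private theorem g2_K_rho : X.K *ᵥ X.rho = fun _ => 1 := by
  rw [rho, mulVec_mulVec, mul_nonsing_inv _ (isUnit_iff_ne_zero.2 X.K_det_ne), one_mulVec]

theorem B_al_rho (i : Fin X.n) : X.B (X.al i) X.rho = 1 := by
  rw [Cox0.B, X.g2_K_rho, single_dotProduct, one_mul]

theorem B_rho (v : Fin X.n → ℝ) : X.B v X.rho = ∑ i, v i := by
  rw [Cox0.B, X.g2_K_rho]
  simp only [dotProduct, mul_one]

private theorem g2_pos {v : Fin X.n → ℝ} (h : 0 ≤ v) (hne : v ≠ 0) : 0 < X.B X.rho v := by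
  rw [X.B_symm, X.B_rho]
  obtain ⟨i, hi⟩ := Function.ne_iff.1 hne
  exact Finset.sum_pos' (fun j _ => h j) ⟨i, Finset.mem_univ i, lt_of_le_of_ne (h i) (Ne.symm hi)⟩

private theorem g2_cone_step (w : X.W) (i : Fin X.n) (v : Fin X.n → ℝ) :
    v - X.σ (w * X.s i) *ᵥ v = v - X.σ w *ᵥ v + X.B (X.al i) v • X.σ w *ᵥ X.al i := by
  rw [X.g2_step]
  abel

theorem cone {v : Fin X.n → ℝ} (hv : ∀ i, 0 ≤ X.B (X.al i) v) (w : X.W) :
    0 ≤ v - X.σ w *ᵥ v := by
  refine X.g2_ind (fun w => 0 ≤ v - X.σ w *ᵥ v) (by rw [X.g2_one, sub_self]) (fun w i h ih => ?_) w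
  rw [X.g2_cone_step]
  exact add_nonneg ih (smul_nonneg (hv i) (X.pos_of_asc h))

private theorem g2_fix {v : Fin X.n → ℝ} (hv : ∀ i, 0 ≤ X.B (X.al i) v) {w : X.W} {i : Fin X.n}
    (h : X.len w < X.len (w * X.s i)) (e : X.σ (w * X.s i) *ᵥ v = v) :
    X.σ w *ᵥ v = v ∧ X.B (X.al i) v = 0 := by
  have e1 := X.g2_cone_step w i v
  rw [e, sub_self, eq_comm, add_eq_zero_iff_of_nonneg (X.cone hv w)
    (smul_nonneg (hv i) (X.pos_of_asc h))] at e1
  exact ⟨(sub_eq_zero.1 e1.1).symm, (smul_eq_zero.1 e1.2).resolve_right (X.root_ne_zero w i)⟩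

private theorem g2_dom (i : Fin X.n) : 0 ≤ X.B (X.al i) X.rho := by
  rw [X.B_al_rho]; exact zero_le_one

theorem eq_one_of_fix_rho {w : X.W} (h : X.σ w *ᵥ X.rho = X.rho) : w = 1 := by
  refine X.g2_ind (fun w => X.σ w *ᵥ X.rho = X.rho → w = 1) (fun _ => rfl)
    (fun w i hl _ e => ?_) w h
  have := (X.g2_fix X.g2_dom hl e).2
  rw [X.B_al_rho] at this
  exact absurd this one_ne_zero

theorem gamma_pos {x : X.W} {i : Fin X.n} (h : X.len x < X.len (x * X.s i)) :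
    0 < X.B (X.al i) (X.σ x⁻¹ *ᵥ X.rho) := by
  rw [← X.B_inv x, ← X.g2_mul, mul_inv_cancel, X.g2_one, X.B_symm]
  exact X.g2_pos (X.pos_of_asc h) (X.root_ne_zero x i)

/-- height -/
def ht (w : X.W) : ℝ := -X.B X.rho (X.σ w *ᵥ X.rho)

/-- height of the coset `{w, w s}` -/
def ht2 (i : Fin X.n) (w : X.W) : ℝ := X.ht w + X.ht (w * X.s i)

/-- a substitute for the strict Bruhat order -/
def gt (x y : X.W) : Prop :=
  X.ht y < X.ht x ∧ ∀ i, X.ht2 i y < X.ht2 i x ∨ x = y * X.s i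

/-- `x` and `y` differ by an element of rank one -/
def RankOne (x y : X.W) : Prop :=
  x ≠ y ∧ ∃ β : Fin X.n → ℝ, ∀ v, ∃ t : ℝ, X.σ x⁻¹ *ᵥ v - X.σ y⁻¹ *ᵥ v = t • β

theorem ht_lt_of_asc {x : X.W} {i : Fin X.n} (h : X.len x < X.len (x * X.s i)) :
    X.ht x < X.ht (x * X.s i) := by
  have := X.g2_pos (X.pos_of_asc h) (X.root_ne_zero x i)
  rw [ht, ht, X.g2_step, X.B_al_rho, one_smul, X.g2_B_sub]
  linarith

private theorem g2_b0 {x : X.W} (h : x ≠ 1) :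
    0 ≤ X.rho - X.σ x *ᵥ X.rho ∧ X.rho - X.σ x *ᵥ X.rho ≠ 0 :=
  ⟨X.cone X.g2_dom x, fun e => h (X.eq_one_of_fix_rho (sub_eq_zero.1 e).symm)⟩

theorem ht_one_lt {x : X.W} (h : x ≠ 1) : X.ht 1 < X.ht x := by
  have := X.g2_pos (X.g2_b0 h).1 (X.g2_b0 h).2
  rw [X.g2_B_sub] at this
  rw [ht, ht, X.g2_one]
  linarith

private theorem g2_ht2_s (i : Fin X.n) (w : X.W) : X.ht2 i (w * X.s i) = X.ht2 i w := by
  rw [ht2, ht2, X.g2_ss, add_comm]

theorem gt_trans {x y z : X.W} (h : X.gt x y) (h' : X.gt y z) : X.gt x z := by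
  refine ⟨h'.1.trans h.1, fun i => Or.inl ?_⟩
  rcases h.2 i with a | a <;> rcases h'.2 i with b | b
  · exact b.trans a
  · rwa [b, X.g2_ht2_s] at a
  · rwa [a, X.g2_ht2_s]
  · have c := h'.1.trans h.1
    rw [a, b, X.g2_ss] at c
    exact absurd c (lt_irrefl _)

theorem gt_irrefl (x : X.W) : ¬ X.gt x x := fun h => lt_irrefl _ h.1

private theorem g2_B_ri (i j : Fin X.n) :
    X.B (X.al j) ((2 : ℝ) • X.rho - X.al i) = 2 - X.K j i := by
  rw [X.g2_B_sub, X.g2_B_smul, X.B_al_rho, X.B_al_al, mul_one]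

private theorem g2_K_le {i j : Fin X.n} (h : j ≠ i) : X.K j i ≤ 0 := X.K_nonpos h

private theorem g2_dom_i (i j : Fin X.n) : 0 ≤ X.B (X.al j) ((2 : ℝ) • X.rho - X.al i) := by
  rw [X.g2_B_ri]
  by_cases h : j = i
  · rw [h, X.K_diag, sub_self]
  · linarith [X.g2_K_le h]

private theorem g2_fix_i (i : Fin X.n) (w : X.W) :
    X.σ w *ᵥ ((2 : ℝ) • X.rho - X.al i) = (2 : ℝ) • X.rho - X.al i → w = 1 ∨ w = X.s i := by
  refine X.g2_ind (fun w => X.σ w *ᵥ ((2 : ℝ) • X.rho - X.al i) = (2 : ℝ) • X.rho - X.al i →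
    w = 1 ∨ w = X.s i) (fun _ => Or.inl rfl) (fun w j hl ih e => ?_) w
  obtain ⟨e1, e2⟩ := X.g2_fix (X.g2_dom_i i) hl e
  have hj : j = i := by
    by_contra h
    rw [X.g2_B_ri] at e2
    linarith [X.g2_K_le h]
  rcases ih e1 with c | c
  · right; rw [c, one_mul, hj]
  · left; rw [c, hj]; exact X.cs.simple_mul_simple_self i

private theorem g2_ht2 (i : Fin X.n) (w : X.W) :
    X.ht2 i w = -X.B X.rho (X.σ w *ᵥ ((2 : ℝ) • X.rho - X.al i)) := by
  rw [ht2, ht, ht, X.g2_step, X.B_al_rho, one_smul, mulVec_sub, mulVec_smul, X.g2_B_sub,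
    X.g2_B_sub, X.g2_B_smul]
  ring

theorem gt_or_gt {x y : X.W} (h : X.RankOne x y) : X.gt x y ∨ X.gt y x := by
  obtain ⟨hne, β, hβ⟩ := h
  obtain ⟨u, rfl⟩ : ∃ u, y = x * u := ⟨x⁻¹ * y, by group⟩
  have hu : u ≠ 1 := fun e => hne (by rw [e, mul_one])
  have h1 : ∀ v, ∃ t : ℝ, v - X.σ u *ᵥ v = t • β := fun v => by
    obtain ⟨t, e⟩ := hβ (X.σ (x * u) *ᵥ v)
    rw [← X.g2_mul, ← X.g2_mul, inv_mul_cancel, inv_mul_cancel_left, X.g2_one] at e
    exact ⟨-t, by rw [neg_smul, ← e, neg_sub]⟩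
  obtain ⟨b1, b2⟩ := X.g2_b0 hu
  have h2 : ∀ v, ∃ t : ℝ, v - X.σ u *ᵥ v = t • (X.rho - X.σ u *ᵥ X.rho) := fun v => by
    obtain ⟨t0, e0⟩ := h1 X.rho
    obtain ⟨t, e⟩ := h1 v
    have : t0 ≠ 0 := fun c => b2 (by rw [e0, c, zero_smul])
    exact ⟨t / t0, by rw [e, e0, smul_smul, div_mul_cancel₀ _ this]⟩
  generalize hb : X.rho - X.σ u *ᵥ X.rho = b at b1 b2 h2
  have h3 : X.ht (x * u) - X.ht x = X.B X.rho (X.σ x *ᵥ b) := by
    rw [ht, ht, ← hb, mulVec_sub, X.g2_B_sub, X.g2_mul]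
    ring
  have h4 : ∀ i, u = X.s i ∨
      ∃ t : ℝ, 0 < t ∧ X.ht2 i (x * u) - X.ht2 i x = t * X.B X.rho (X.σ x *ᵥ b) := fun i => by
    obtain ⟨t, e⟩ := h2 ((2 : ℝ) • X.rho - X.al i)
    by_cases c : t = 0
    · rw [c, zero_smul, sub_eq_zero] at e
      exact Or.inl ((X.g2_fix_i i u e.symm).resolve_left hu)
    · refine Or.inr ⟨t, ?_, ?_⟩
      · have c1 := X.cone (X.g2_dom_i i) u
        rw [e] at c1
        have c2 := X.g2_pos c1 (smul_ne_zero c b2)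
        rw [X.g2_B_smul] at c2
        exact (mul_pos_iff_of_pos_right (X.g2_pos b1 b2)).1 c2
      · rw [X.g2_ht2, X.g2_ht2, ← X.g2_B_smul, ← mulVec_smul, ← e, mulVec_sub (X.σ x) (_ - _),
          X.g2_B_sub, X.g2_mul]
        ring
  have h5 : X.B X.rho (X.σ x *ᵥ b) ≠ 0 := by
    intro c
    obtain ⟨t, e⟩ := h2 (X.σ x⁻¹ *ᵥ X.rho)
    have hu' : x * u * x⁻¹ ≠ 1 := fun c => hu (by
      rw [show u = x⁻¹ * (x * u * x⁻¹) * x by group, c]; group)
    have c1 := X.g2_pos (X.g2_b0 hu').1 (X.g2_b0 hu').2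
    have e1 : X.rho - X.σ (x * u * x⁻¹) *ᵥ X.rho = t • X.σ x *ᵥ b := by
      rw [← mulVec_smul, ← e, mulVec_sub, ← X.g2_mul x x⁻¹, mul_inv_cancel, X.g2_one, X.g2_mul,
        X.g2_mul]
    rw [e1, X.g2_B_smul, c, mul_zero] at c1
    exact lt_irrefl _ c1
  rcases lt_or_gt_of_ne h5 with c | c
  · refine Or.inl ⟨by linarith, fun i => ?_⟩
    rcases h4 i with e | ⟨t, t0, e⟩
    · right; rw [e, X.g2_ss]
    · left; linarith [mul_neg_of_pos_of_neg t0 c]
  · refine Or.inr ⟨by linarith, fun i => ?_⟩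
    rcases h4 i with e | ⟨t, t0, e⟩
    · right; rw [e]
    · left; linarith [mul_pos t0 c]

private theorem g2_rk (f : X.W → ℝ) : ∃ r : X.W → ℕ, (∀ x y, f y < f x → r y < r x) ∧
    ∀ x y, f x = f y → r x = r y := by
  refine ⟨fun x => (Finset.univ.filter fun z => f z < f x).card, fun x y h => ?_,
    fun x y h => by simp only [h]⟩
  refine Finset.card_lt_card ⟨fun z hz => ?_, fun hs => ?_⟩
  · rw [Finset.mem_filter] at hz ⊢
    exact ⟨hz.1, hz.2.trans h⟩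
  · have := hs (Finset.mem_filter.2 ⟨Finset.mem_univ y, h⟩)
    exact lt_irrefl _ (Finset.mem_filter.1 this).2

/-- a rank function for `gt` -/
theorem exists_rank : ∃ r : X.W → ℕ, (∀ x y, X.gt x y → r y < r x) ∧
    ∀ x y, r y < r x → X.RankOne x y → X.gt x y := by
  obtain ⟨r, h1, -⟩ := X.g2_rk X.ht
  exact ⟨r, fun x y h => h1 x y h.1, fun x y h h' =>
    (X.gt_or_gt h').resolve_right fun c => lt_asymm h (h1 y x c.1)⟩

/-- a rank function adapted to the cosets `{w, w s}` -/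
theorem exists_rank_coset (i : Fin X.n) : ∃ r : X.W → ℕ,
    (∀ x y, r y < r x → X.RankOne x y → X.gt x y) ∧
    (∀ x, X.len x < X.len (x * X.s i) → r x < r (x * X.s i)) ∧
    ∀ x y, X.gt x y → x ≠ y * X.s i → ∀ x' y', (x' = x ∨ x' = x * X.s i) →
      (y' = y ∨ y' = y * X.s i) → r y' < r x' := by
  obtain ⟨r, h1, h2⟩ := X.g2_rk (X.ht2 i)
  obtain ⟨R, hR⟩ : ∃ R : X.W → ℕ,
      ∀ x, R x = 2 * r x + if X.len (x * X.s i) < X.len x then 1 else 0 := ⟨_, fun _ => rfl⟩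
  have k1 : ∀ x y, X.ht2 i y < X.ht2 i x → R y < R x := fun x y h => by
    have := h1 x y h
    rw [hR, hR]
    split_ifs <;> omega
  have k2 : ∀ x, X.len x < X.len (x * X.s i) → R x < R (x * X.s i) := fun x h => by
    rw [hR, hR, h2 _ _ (X.g2_ht2_s i x), X.g2_ss, if_pos h, if_neg (by omega)]
    omega
  refine ⟨R, fun x y h h' => (X.gt_or_gt h').resolve_right fun c => ?_, k2,
    fun x y h hne x' y' hx hy => k1 _ _ ?_⟩
  · rcases c.2 i with a | a
    · exact lt_asymm h (k1 _ _ a)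
    · subst a
      rcases lt_or_gt_of_ne (X.cs.length_mul_simple_ne x i) with b | b
      · have := X.ht_lt_of_asc (x := x * X.s i) (i := i) (by rwa [X.g2_ss])
        rw [X.g2_ss] at this
        exact lt_asymm this c.1
      · exact lt_asymm h (k2 x b)
  · have a := (h.2 i).resolve_right hne
    rcases hx with rfl | rfl <;> rcases hy with rfl | rfl <;> simpa only [X.g2_ht2_s] using a

end Cox

end

end Pool.Agent.P.MP_1a0ecf_al.F
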