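import Pool.Agent.P.MP_1a0ecf_al.F.G3

/-! Package G4: standard parabolic subgroups. -/

namespace Pool.Agent.P.MP_1a0ecf_al.F

open Matrix
open scoped Classical

noncomputable section

/-- `Y` is a standard parabolic subsystem of `X` -/
structure Par (Y X : Cox0) where
  e : Fin Y.n → Fin X.n
  inj : Function.Injective e
  hM : ∀ i j, Y.M i j = X.M (e i) (e j)
  ι : Y.W →* X.W
  ι_s : ∀ i, ι (Y.s i) = X.s (e i)

namespace Par

variable {Y X : Cox0} (P : Par Y X)

/-- extension of vectors by zero -/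
def ext (v : Fin Y.n → ℝ) : Fin X.n → ℝ := ∑ i, v i • X.al (P.e i)

theorem ext_sub (u v : Fin Y.n → ℝ) : P.ext (u - v) = P.ext u - P.ext v := by
  simp only [ext, Pi.sub_apply, sub_smul, Finset.sum_sub_distrib]

theorem ext_smul (c : ℝ) (v : Fin Y.n → ℝ) : P.ext (c • v) = c • P.ext v := by
  simp only [ext, Pi.smul_apply, smul_eq_mul, mul_smul, Finset.smul_sum]

theorem ext_al (i : Fin Y.n) : P.ext (Y.al i) = X.al (P.e i) := by
  unfold ext
  rw [Finset.sum_eq_single i]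
  · simp
  · intro j _ hj
    simp [Pi.single_eq_of_ne hj]
  · simp

theorem K_e (i j : Fin Y.n) : X.K (P.e i) (P.e j) = Y.K i j := by
  simp only [Cox0.K, P.hM]

theorem B_ext (i : Fin Y.n) (v : Fin Y.n → ℝ) :
    X.B (X.al (P.e i)) (P.ext v) = Y.B (Y.al i) v := by
  have h1 : Y.B (Y.al i) v = ∑ j, v j * Y.K i j := by
    rw [Cox0.B, single_dotProduct, one_mul]
    simp only [mulVec, dotProduct, mul_comm]
  have h2 : ∀ j, X.al (P.e i) ⬝ᵥ X.K *ᵥ X.al (P.e j) = Y.K i j := fun j =>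
    (X.B_al_al _ _).trans (P.K_e i j)
  rw [h1]
  simp only [Cox0.B, ext, mulVec_sum, mulVec_smul, dotProduct_sum, dotProduct_smul, h2,
    smul_eq_mul]

theorem σ_ext (u : Y.W) (v : Fin Y.n → ℝ) : X.σ (P.ι u) *ᵥ P.ext v = P.ext (Y.σ u *ᵥ v) := by
  induction u using Y.cs.simple_induction generalizing v with
  | simple i =>
    have e : Y.cs.simple i = Y.s i := rfl
    rw [e, P.ι_s, X.σ_simple_mulVec, Y.σ_simple_mulVec, ext_sub, ext_smul, ext_al, B_ext]
  | one => simp
  | mul w w' h h' => rw [map_mul, map_mul, map_mul, ← mulVec_mulVec, ← mulVec_mulVec, h', h]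

theorem ext_nonneg {v : Fin Y.n → ℝ} (h : 0 ≤ v) : 0 ≤ P.ext v :=
  Finset.sum_nonneg fun i _ => smul_nonneg (h i) (Pi.single_nonneg.2 zero_le_one)

/-- minimal coset representatives -/
def Rep (x : X.W) : Prop := ∀ i, X.len x < X.len (x * X.s (P.e i))

theorem len_rep {x : X.W} (h : P.Rep x) (u : Y.W) : X.len (x * P.ι u) = X.len x + Y.len u := by
  induction hn : Y.len u using Nat.strong_induction_on generalizing u with
  | _ n ih =>
    by_cases hu : u = 1
    · subst hu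
      simp only [Cox0.len, CoxeterSystem.length_one] at hn
      simp [← hn]
    · obtain ⟨i, hi⟩ := Y.cs.exists_rightDescent_of_ne_one hu
      have hi' : Y.len (u * Y.s i) < Y.len u := hi
      have hl : Y.len (u * Y.s i) + 1 = Y.len u := by
        rcases Y.cs.length_mul_simple u i with e | e
        · have e' : Y.len (u * Y.s i) = Y.len u + 1 := e
          omega
        · exact e
      have hu' : u * Y.s i * Y.s i = u := Y.cs.simple_mul_simple_cancel_right i
      have h1 := ih _ (hn ▸ hi') (u * Y.s i) rfl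
      have h2 : 0 ≤ Y.σ (u * Y.s i) *ᵥ Y.al i := Y.pos_of_asc (by rw [hu']; exact hi')
      have h3 : 0 ≤ X.σ (x * P.ι (u * Y.s i)) *ᵥ X.al (P.e i) := by
        rw [map_mul, ← mulVec_mulVec, ← ext_al, σ_ext, ext, mulVec_sum]
        refine Finset.sum_nonneg fun j _ => ?_
        rw [mulVec_smul]
        exact smul_nonneg (h2 j) (X.pos_of_asc (h j))
      have h4 := (X.asc_iff _ _).2 h3
      have h5 : x * P.ι (u * Y.s i) * X.s (P.e i) = x * P.ι u := by
        rw [mul_assoc, ← P.ι_s, ← map_mul, hu']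
      have h6 := X.cs.length_mul_simple (x * P.ι (u * Y.s i)) (P.e i)
      change X.len (x * P.ι (u * Y.s i) * X.s (P.e i)) = X.len (x * P.ι (u * Y.s i)) + 1 ∨
        X.len (x * P.ι (u * Y.s i) * X.s (P.e i)) + 1 = X.len (x * P.ι (u * Y.s i)) at h6
      rw [h5] at h4 h6
      omega

theorem rep_one : P.Rep 1 := fun i => by
  simp [Cox0.len, Cox0.s]

theorem len_ι (u : Y.W) : X.len (P.ι u) = Y.len u := by
  have := P.len_rep P.rep_one u
  simpa [Cox0.len] using this

theorem ι_inj : Function.Injective P.ι := by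
  refine (injective_iff_map_eq_one _).2 fun u hu => ?_
  have := P.len_ι u
  rw [hu] at this
  simp only [Cox0.len, CoxeterSystem.length_one] at this
  exact Y.cs.length_eq_zero_iff.1 this.symm

theorem isReflection_ι {t : Y.W} (h : Y.cs.IsReflection t) : X.cs.IsReflection (P.ι t) := by
  obtain ⟨w, i, rfl⟩ := h
  refine ⟨P.ι w, P.e i, ?_⟩
  rw [map_mul, map_mul, map_inv]
  exact congrArg (fun z => P.ι w * z * (P.ι w)⁻¹) (P.ι_s i)

theorem rt_ι {Y X : Cox} (P : Par Y.toCox0 X.toCox0) {t : Y.W} (h : Y.cs.IsReflection t) :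
    X.rt (P.ι t) = P.ext (Y.rt t) := by
  obtain ⟨h0, w, i, ht, hr⟩ := Y.rt_spec h
  have h1 : X.σ (P.ι w) *ᵥ X.al (P.e i) = P.ext (Y.rt t) := by
    rw [← P.ext_al, P.σ_ext, hr]
  have h2 : P.ι t = P.ι w * X.s (P.e i) * (P.ι w)⁻¹ := by
    rw [ht, map_mul, map_mul, map_inv, P.ι_s]
  rw [h2, X.rt_eq (by rw [h1]; exact P.ext_nonneg h0), h1]

theorem exists_rep (w : X.W) : ∃ x u, P.Rep x ∧ w = x * P.ι u := by
  have hex : ∃ n, ∃ u, X.len (w * P.ι u) = n := ⟨_, 1, rfl⟩
  obtain ⟨u, hu⟩ := Nat.find_spec hex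
  refine ⟨w * P.ι u, u⁻¹, fun i => ?_, by simp⟩
  have h1 : Nat.find hex ≤ X.len (w * P.ι (u * Y.s i)) := Nat.find_min' hex ⟨_, rfl⟩
  rw [map_mul, P.ι_s, ← mul_assoc, ← hu] at h1
  exact lt_of_le_of_ne h1 (X.cs.length_mul_simple_ne _ _).symm

theorem rep_unique {x x' : X.W} {u u' : Y.W} (h : P.Rep x) (h' : P.Rep x')
    (e : x * P.ι u = x' * P.ι u') : x = x' ∧ u = u' := by
  have e1 : x = x' * P.ι (u' * u⁻¹) := by
    rw [map_mul, map_inv, ← mul_assoc, ← e, mul_inv_cancel_right]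
  have e2 : x' = x * P.ι (u * u'⁻¹) := by
    rw [map_mul, map_inv, ← mul_assoc, e, mul_inv_cancel_right]
  have h1 := P.len_rep h' (u' * u⁻¹)
  have h2 := P.len_rep h (u * u'⁻¹)
  rw [← e1] at h1
  rw [← e2] at h2
  have h3 : u * u'⁻¹ = 1 := Y.cs.length_eq_zero_iff.1 (by change Y.len _ = 0; omega)
  have h4 : u = u' := mul_inv_eq_one.1 h3
  subst h4
  exact ⟨mul_right_cancel e, rfl⟩

end Par

/-- existence of parabolic subsystems -/
theorem exists_par (X : Cox) {m : ℕ} (M' : CoxeterMatrix (Fin m)) (e : Fin m → Fin X.n)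
    (he : Function.Injective e) (hM : ∀ i j, M' i j = X.M (e i) (e j)) :
    ∃ (W' : Type) (_ : Group W') (_ : Fintype W') (cs' : CoxeterSystem M' W')
      (h : ∀ i j, M' i j ≠ 0)
      (P : Par ⟨m, M', W', cs', h⟩ X.toCox0), P.e = e := by
  have h : ∀ i j, M' i j ≠ 0 := fun i j => by
    rw [hM]
    exact X.hM _ _
  have hl : M'.IsLiftable (fun i => X.s (e i)) := fun i j => by
    rw [hM]
    exact X.cs.simple_mul_simple_pow _ _
  let P : Par ⟨m, M', M'.Group, M'.toCoxeterSystem, h⟩ X.toCox0 :=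
    ⟨e, he, hM, M'.toCoxeterSystem.lift ⟨_, hl⟩, fun i =>
      M'.toCoxeterSystem.lift_apply_simple hl i⟩
  have : Finite M'.Group := Finite.of_injective _ P.ι_inj
  exact ⟨M'.Group, inferInstance, Fintype.ofFinite _, M'.toCoxeterSystem, h, P, rfl⟩

end

end Pool.Agent.P.MP_1a0ecf_al.F
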