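import Pool.Agent.P.MP_1a0ecf_al.F.G3

/-! Package G5: the action on polynomials, divided differences, the ideal of invariants. -/

namespace Pool.Agent.P.MP_1a0ecf_al.F

open Matrix MvPolynomial
open scoped Classical

noncomputable section

variable (K : Type) [Field K] [Algebra ℝ K]

theorem lin_apply {n : ℕ} (v : Fin n → K) : lin K v = ∑ i, v i • (X i : MvPolynomial (Fin n) K) := by
  simp [lin, Fintype.linearCombination_apply]

theorem lin_single {n : ℕ} (i : Fin n) : lin K (Pi.single i 1) = X i := by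
  simp [lin, Fintype.linearCombination_apply_single]

theorem eval_single_lin {n : ℕ} (v : Fin n → K) (i : Fin n) :
    MvPolynomial.eval (Pi.single i 1) (lin K v) = v i := by
  rw [lin_apply, map_sum]
  simp [smul_eq_C_mul, Pi.single_apply]

theorem constantCoeff_lin {n : ℕ} (v : Fin n → K) : constantCoeff (lin K v) = 0 := by
  rw [lin_apply, map_sum]
  simp [smul_eq_C_mul]

theorem lin_injective {n : ℕ} : Function.Injective (lin (n := n) K) := by
  intro u v h
  funext i
  rw [← eval_single_lin K u i, h, eval_single_lin]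

theorem lin_hom {n : ℕ} (v : Fin n → K) : (lin K v).IsHomogeneous 1 := by
  rw [lin_apply]
  refine IsHomogeneous.sum _ _ _ fun i _ => ?_
  rw [smul_eq_C_mul]
  exact (isHomogeneous_X K i).C_mul _

theorem dvd_sub_algHom {n : ℕ} (φ : MvPolynomial (Fin n) K →ₐ[K] MvPolynomial (Fin n) K)
    (d : MvPolynomial (Fin n) K) (h : ∀ j, d ∣ X j - φ (X j)) (p : MvPolynomial (Fin n) K) :
    d ∣ p - φ p := by
  induction p using MvPolynomial.induction_on with
  | C a => rw [algHom_C, algebraMap_eq, sub_self]; exact dvd_zero _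
  | add p q hp hq => rw [map_add, add_sub_add_comm]; exact dvd_add hp hq
  | mul_X p j hp =>
    have e : p * X j - φ (p * X j) = (p - φ p) * X j + φ p * (X j - φ (X j)) := by
      rw [map_mul]; ring
    rw [e]
    exact dvd_add (hp.mul_right _) ((h j).mul_left _)

theorem hc_mul_one {n : ℕ} {a : MvPolynomial (Fin n) K} (ha : a.IsHomogeneous 1)
    (b : MvPolynomial (Fin n) K) (j : ℕ) :
    homogeneousComponent (j + 1) (a * b) = a * homogeneousComponent j b := by
  conv_lhs => rw [← sum_homogeneousComponent b, Finset.mul_sum, map_sum]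
  have e : ∀ i, homogeneousComponent (j + 1) (a * homogeneousComponent i b) =
      if j = i then a * homogeneousComponent i b else 0 := by
    intro i
    have hm : a * homogeneousComponent i b ∈ homogeneousSubmodule (Fin n) K (1 + i) :=
      ha.mul (homogeneousComponent_isHomogeneous i b)
    rw [homogeneousComponent_of_mem hm]
    by_cases hji : j = i
    · rw [if_pos hji, if_pos (by omega)]
    · rw [if_neg hji, if_neg (by omega)]
  simp only [e]
  rw [Finset.sum_ite_eq]
  split_ifs with hj
  · rfl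
  · rw [homogeneousComponent_eq_zero _ _ (by simpa using hj), mul_zero]

theorem hom_of_mul_one {n : ℕ} {a b : MvPolynomial (Fin n) K} (ha : a.IsHomogeneous 1)
    (ha0 : a ≠ 0) {k : ℕ} (h : (a * b).IsHomogeneous (k + 1)) : b.IsHomogeneous k := by
  have hm : a * b ∈ homogeneousSubmodule (Fin n) K (k + 1) := h
  have e := hc_mul_one K ha b k
  rw [homogeneousComponent_of_mem hm, if_pos rfl] at e
  rw [mul_left_cancel₀ ha0 e]
  exact homogeneousComponent_isHomogeneous k b

theorem lin_dvd_of_indep {n : ℕ} {a b : Fin n → K} (h : ∀ t : K, b ≠ t • a) (ha : a ≠ 0)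
    {q : MvPolynomial (Fin n) K} (hq : lin K a ∣ q * lin K b) : lin K a ∣ q := by
  obtain ⟨k, hk⟩ : ∃ k, a k ≠ 0 := by
    by_contra hc
    push Not at hc
    exact ha (funext hc)
  let φ : MvPolynomial (Fin n) K →ₐ[K] MvPolynomial (Fin n) K :=
    aeval fun j => X j - (if j = k then (a k)⁻¹ else 0) • lin K a
  have hφ : ∀ v : Fin n → K, φ (lin K v) = lin K (v - (v k * (a k)⁻¹) • a) := by
    intro v
    rw [map_sub, map_smul]
    conv_lhs => rw [lin_apply K v, map_sum]
    simp only [φ, map_smul, aeval_X, smul_sub, Finset.sum_sub_distrib, smul_smul, smul_ite,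
      smul_zero, ite_smul, zero_smul, Finset.sum_ite_eq', Finset.mem_univ, if_true]
    rw [← lin_apply]
  have hd : ∀ p, lin K a ∣ p - φ p := by
    refine dvd_sub_algHom K φ _ fun j => ?_
    simp only [φ, aeval_X, sub_sub_cancel, smul_eq_C_mul]
    exact Dvd.intro_left _ rfl
  have ha0 : φ (lin K a) = 0 := by
    rw [hφ, mul_inv_cancel₀ hk, one_smul, sub_self, map_zero]
  have hb0 : φ (lin K b) ≠ 0 := by
    rw [hφ]
    intro e
    rw [← map_zero (lin K)] at e
    exact h _ (sub_eq_zero.1 (lin_injective K e))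
  obtain ⟨r, hr⟩ := hq
  have e := congrArg φ hr
  rw [map_mul, map_mul, ha0, zero_mul] at e
  have e' := hd q
  rwa [(mul_eq_zero.1 e).resolve_right hb0, sub_zero] at e'

theorem actM_lin {n : ℕ} (A : Matrix (Fin n) (Fin n) K) (v : Fin n → K) :
    actM A (lin K v) = lin K (A *ᵥ v) := by
  conv_lhs => rw [lin_apply K v, map_sum]
  simp only [actM, map_smul, aeval_X]
  simp only [← map_smul, ← map_sum]
  congr 1
  funext i
  simp [mulVec, dotProduct, mul_comm]

namespace Cox

variable (X : Cox)

/-- extension of scalars of vectors -/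
def vK (v : Fin X.n → ℝ) : Fin X.n → K := fun i => algebraMap ℝ K (v i)

/-- the reflection representation over `K` -/
def σK : X.W →* Matrix (Fin X.n) (Fin X.n) K :=
  (algebraMap ℝ K).mapMatrix.toMonoidHom.comp X.σ

/-- the invariant form over `K` -/
def BK (u v : Fin X.n → K) : K := u ⬝ᵥ X.K.map (algebraMap ℝ K) *ᵥ v

/-- the action on polynomials -/
def act (w : X.W) : MvPolynomial (Fin X.n) K →ₐ[K] MvPolynomial (Fin X.n) K := actM (X.σK K w)

theorem σK_apply (w : X.W) : X.σK K w = (X.σ w).map (algebraMap ℝ K) := rfl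

theorem vK_al (i : Fin X.n) : X.vK K (X.al i) = Pi.single i 1 := by
  funext j
  by_cases hj : j = i
  · subst hj; simp [vK]
  · simp [vK, Pi.single_eq_of_ne hj]

theorem σK_real (w : X.W) : X.σK ℝ w = X.σ w := by
  ext i j
  simp [σK_apply]

theorem vK_real (v : Fin X.n → ℝ) : X.vK ℝ v = v := by
  funext i
  simp [vK]

theorem BK_real (u v : Fin X.n → ℝ) : X.BK ℝ u v = X.B u v := by
  have e : X.K.map (algebraMap ℝ ℝ) = X.K := by
    ext i j
    simp
  rw [BK, e]
  rfl

theorem σK_vK (w : X.W) (v : Fin X.n → ℝ) : X.σK K w *ᵥ X.vK K v = X.vK K (X.σ w *ᵥ v) := by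
  funext i
  exact (RingHom.map_mulVec (algebraMap ℝ K) (X.σ w) v i).symm

theorem BK_vK (u v : Fin X.n → ℝ) : X.BK K (X.vK K u) (X.vK K v) = algebraMap ℝ K (X.B u v) := by
  have e : X.K.map (algebraMap ℝ K) *ᵥ X.vK K v = algebraMap ℝ K ∘ (X.K *ᵥ v) := by
    funext i
    exact (RingHom.map_mulVec (algebraMap ℝ K) X.K v i).symm
  rw [BK, e, Cox0.B, RingHom.map_dotProduct]
  rfl

theorem BK_symm (u v : Fin X.n → K) : X.BK K u v = X.BK K v u := by
  have e : (X.K.map (algebraMap ℝ K))ᵀ = X.K.map (algebraMap ℝ K) := by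
    rw [← transpose_map, X.K_symm]
  rw [BK, BK, dotProduct_mulVec, ← mulVec_transpose, e, dotProduct_comm]

theorem BK_inv (w : X.W) (u v : Fin X.n → K) :
    X.BK K (X.σK K w *ᵥ u) (X.σK K w *ᵥ v) = X.BK K u v := by
  have e : (X.σK K w)ᵀ * X.K.map (algebraMap ℝ K) * X.σK K w = X.K.map (algebraMap ℝ K) := by
    rw [σK_apply, ← transpose_map, ← Matrix.map_mul, ← Matrix.map_mul, X.σ_form]
  rw [BK, BK]
  conv_rhs => rw [← e]
  rw [← mulVec_mulVec, ← mulVec_mulVec, dotProduct_mulVec u, vecMul_transpose]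

theorem BK_expand (u v : Fin X.n → K) :
    X.BK K u v = ∑ j, X.BK K u (Pi.single j 1) * v j := by
  simp only [BK, dotProduct_mulVec, dotProduct_single_one]
  rfl

theorem σK_refl {t : X.W} (h : X.cs.IsReflection t) (v : Fin X.n → K) :
    X.σK K t *ᵥ v = v - X.BK K (X.vK K (X.rt t)) v • X.vK K (X.rt t) := by
  funext i
  have e : ∀ j, X.σK K t i j = (Pi.single j (1 : K) : Fin X.n → K) i -
      X.BK K (X.vK K (X.rt t)) (Pi.single j 1) * X.vK K (X.rt t) i := by
    intro j
    have e1 := congrFun (X.σK_vK K t (X.al j)) i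
    rw [X.σ_refl h, vK_al, mulVec_single_one] at e1
    rw [← vK_al, BK_vK]
    refine Eq.trans e1 ?_
    simp [vK]
  rw [BK_expand, Pi.sub_apply, Pi.smul_apply, smul_eq_mul, Finset.sum_mul]
  simp only [mulVec, dotProduct, e, sub_mul, Finset.sum_sub_distrib]
  congr 1
  · simp [Pi.single_apply]
  · exact Finset.sum_congr rfl fun j _ => by ring

theorem act_lin (w : X.W) (v : Fin X.n → K) : X.act K w (lin K v) = lin K (X.σK K w *ᵥ v) :=
  actM_lin K _ v

theorem act_one (p : MvPolynomial (Fin X.n) K) : X.act K 1 p = p := by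
  have e : X.act K 1 = AlgHom.id K _ := by
    refine MvPolynomial.algHom_ext fun j => ?_
    rw [← lin_single, act_lin, map_one, one_mulVec]
    rfl
  rw [e]
  rfl

theorem act_mul (w w' : X.W) (p : MvPolynomial (Fin X.n) K) :
    X.act K (w * w') p = X.act K w (X.act K w' p) := by
  have e : X.act K (w * w') = (X.act K w).comp (X.act K w') := by
    refine MvPolynomial.algHom_ext fun j => ?_
    rw [← lin_single, AlgHom.comp_apply, act_lin, act_lin, act_lin, map_mul, mulVec_mulVec]
  rw [e]
  rfl

theorem act_hom (w : X.W) {p : MvPolynomial (Fin X.n) K} {k : ℕ} (h : p.IsHomogeneous k) :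
    (X.act K w p).IsHomogeneous k := by
  have e := h.aeval (fun j => lin K fun i => X.σK K w i j) fun j => lin_hom K _
  rw [one_mul] at e
  exact e

theorem constantCoeff_act (w : X.W) (p : MvPolynomial (Fin X.n) K) :
    constantCoeff (X.act K w p) = constantCoeff p := by
  induction p using MvPolynomial.induction_on with
  | C a => rw [algHom_C, algebraMap_eq]
  | add p q hp hq => rw [map_add, map_add, map_add, hp, hq]
  | mul_X p j hp =>
    rw [map_mul, map_mul, map_mul, ← lin_single, act_lin, constantCoeff_lin, constantCoeff_lin,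
      mul_zero, mul_zero]

/-- the root of a reflection as a linear polynomial -/
def rl (t : X.W) : MvPolynomial (Fin X.n) K := lin K (X.vK K (X.rt t))

theorem rl_simple (i : Fin X.n) : X.rl K (X.s i) = MvPolynomial.X i := by
  rw [rl, rt_simple, vK_al, lin_single]

theorem rl_ne_zero {t : X.W} (h : X.cs.IsReflection t) : X.rl K t ≠ 0 := by
  intro e
  rw [rl, ← map_zero (lin K)] at e
  have e1 := lin_injective K e
  have e2 : X.rt t = 0 := by
    funext i
    have e3 := congrFun e1 i
    simpa [vK] using e3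
  have e4 := X.B_rt_rt h
  rw [e2] at e4
  simp [Cox0.B] at e4

theorem act_rl {t : X.W} (h : X.cs.IsReflection t) : X.act K t (X.rl K t) = -X.rl K t := by
  rw [rl, act_lin, σK_vK, X.σ_refl h, X.B_rt_rt h, ← map_neg]
  congr 1
  funext i
  simp only [vK, Pi.sub_apply, Pi.smul_apply, smul_eq_mul, Pi.neg_apply, ← map_neg]
  congr 1
  ring

theorem exists_dd (t : X.W) :
    ∃ D : MvPolynomial (Fin X.n) K →ₗ[K] MvPolynomial (Fin X.n) K, X.cs.IsReflection t →
      ∀ p, p - X.act K t p = X.rl K t * D p := by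
  by_cases h : X.cs.IsReflection t
  · have hd : ∀ p, X.rl K t ∣ p - X.act K t p := by
      refine dvd_sub_algHom K _ _ fun j => ?_
      rw [← lin_single, act_lin, X.σK_refl K h, map_sub, sub_sub_cancel, map_smul, smul_eq_C_mul]
      exact Dvd.intro_left _ rfl
    choose D hD using hd
    have h0 := X.rl_ne_zero K h
    refine ⟨⟨⟨D, fun p q => ?_⟩, fun a p => ?_⟩, fun _ p => hD p⟩
    · apply mul_left_cancel₀ h0
      rw [mul_add, ← hD, ← hD, ← hD, map_add]
      ring
    · apply mul_left_cancel₀ h0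
      simp only [RingHom.id_apply]
      rw [mul_smul_comm, ← hD, ← hD, map_smul, smul_sub]
  · exact ⟨0, fun h' => absurd h' h⟩

/-- divided difference operator of a reflection -/
def dd (t : X.W) : MvPolynomial (Fin X.n) K →ₗ[K] MvPolynomial (Fin X.n) K :=
  (X.exists_dd K t).choose

variable {X} {t : X.W} (h : X.cs.IsReflection t)
include h

theorem dd_spec (p : MvPolynomial (Fin X.n) K) : p - X.act K t p = X.rl K t * X.dd K t p :=
  (X.exists_dd K t).choose_spec h p

theorem dd_mul (p q : MvPolynomial (Fin X.n) K) :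
    X.dd K t (p * q) = X.dd K t p * q + X.act K t p * X.dd K t q := by
  apply mul_left_cancel₀ (X.rl_ne_zero K h)
  have e1 := dd_spec K h p
  have e2 := dd_spec K h q
  rw [← dd_spec K h, map_mul]
  linear_combination q * e1 + X.act K t p * e2

theorem dd_mul' (p q : MvPolynomial (Fin X.n) K) :
    X.dd K t (p * q) = X.dd K t p * X.act K t q + p * X.dd K t q := by
  apply mul_left_cancel₀ (X.rl_ne_zero K h)
  have e1 := dd_spec K h p
  have e2 := dd_spec K h q
  rw [← dd_spec K h, map_mul]
  linear_combination X.act K t q * e1 + p * e2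

theorem dd_eq_zero_iff (p : MvPolynomial (Fin X.n) K) : X.dd K t p = 0 ↔ X.act K t p = p := by
  have e := dd_spec K h p
  constructor
  · intro h0
    rw [h0, mul_zero] at e
    exact (sub_eq_zero.1 e).symm
  · intro h0
    rw [h0, sub_self] at e
    exact (mul_eq_zero.1 e.symm).resolve_left (X.rl_ne_zero K h)

theorem dd_C (a : K) : X.dd K t (C a) = 0 := by
  rw [dd_eq_zero_iff K h, algHom_C, algebraMap_eq]

theorem dd_lin (v : Fin X.n → K) :
    X.dd K t (lin K v) = C (X.BK K (X.vK K (X.rt t)) v) := by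
  apply mul_left_cancel₀ (X.rl_ne_zero K h)
  rw [← dd_spec K h, act_lin, X.σK_refl K h, map_sub, sub_sub_cancel, map_smul, smul_eq_C_mul,
    mul_comm]
  rfl

theorem act_act (p : MvPolynomial (Fin X.n) K) : X.act K t (X.act K t p) = p := by
  rw [← act_mul, h.mul_self, act_one]

theorem act_dd (p : MvPolynomial (Fin X.n) K) : X.act K t (X.dd K t p) = X.dd K t p := by
  apply mul_left_cancel₀ (X.rl_ne_zero K h)
  have e1 := dd_spec K h p
  have e2 := congrArg (X.act K t) e1
  rw [map_sub, act_act K h, map_mul, X.act_rl K h] at e2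
  linear_combination e1 + e2

theorem dd_act (p : MvPolynomial (Fin X.n) K) : X.dd K t (X.act K t p) = -X.dd K t p := by
  apply mul_left_cancel₀ (X.rl_ne_zero K h)
  have e1 := dd_spec K h p
  rw [← dd_spec K h, act_act K h]
  linear_combination -e1

theorem dd_dd (p : MvPolynomial (Fin X.n) K) : X.dd K t (X.dd K t p) = 0 := by
  rw [dd_eq_zero_iff K h, act_dd K h]

theorem dd_hom {p : MvPolynomial (Fin X.n) K} {k : ℕ} (hp : p.IsHomogeneous (k + 1)) :
    (X.dd K t p).IsHomogeneous k := by
  refine hom_of_mul_one K (a := X.rl K t) (lin_hom K _) (X.rl_ne_zero K h) ?_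
  rw [← dd_spec K h]
  exact hp.sub (X.act_hom K t hp)

omit h

variable (X)

/-- the ideal generated by the invariants without constant term -/
def invI : Ideal (MvPolynomial (Fin X.n) K) :=
  Ideal.span {r | constantCoeff r = 0 ∧ ∀ w, X.act K w r = r}

theorem act_mem_invI (w : X.W) {p : MvPolynomial (Fin X.n) K} (hp : p ∈ X.invI K) :
    X.act K w p ∈ X.invI K := by
  have e : X.invI K ≤ (X.invI K).comap (X.act K w) := by
    refine Ideal.span_le.2 fun r hr => ?_
    show X.act K w r ∈ X.invI K
    rw [hr.2 w]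
    exact Ideal.subset_span hr
  exact e hp

theorem dd_mem_invI {t : X.W} (h : X.cs.IsReflection t) {p : MvPolynomial (Fin X.n) K}
    (hp : p ∈ X.invI K) : X.dd K t p ∈ X.invI K := by
  induction hp using Submodule.span_induction with
  | mem r hr => rw [(dd_eq_zero_iff K h r).2 (hr.2 t)]; exact zero_mem _
  | zero => rw [map_zero]; exact zero_mem _
  | add p q _ _ hp hq => rw [map_add]; exact add_mem hp hq
  | smul a p hp' hp =>
    rw [smul_eq_mul, dd_mul K h]
    exact add_mem (Ideal.mul_mem_left _ _ hp') (Ideal.mul_mem_left _ _ hp)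

theorem pow_card_mem_invI {f : MvPolynomial (Fin X.n) K} (hf : constantCoeff f = 0) :
    f ^ Fintype.card X.W ∈ X.invI K := by
  let Q : Polynomial (MvPolynomial (Fin X.n) K) :=
    Polynomial.X ^ Fintype.card X.W - ∏ w : X.W, (Polynomial.X - Polynomial.C (X.act K w f))
  have h1 : Q.map constantCoeff = 0 := by
    simp only [Q, Polynomial.map_sub, Polynomial.map_pow, Polynomial.map_X, Polynomial.map_prod,
      Polynomial.map_C, constantCoeff_act, hf, map_zero, sub_zero, Finset.prod_const,
      Finset.card_univ, sub_self]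
  have h2 : ∀ w, Q.map (X.act K w : _ →+* _) = Q := by
    intro w
    simp only [Q, Polynomial.map_sub, Polynomial.map_pow, Polynomial.map_X, Polynomial.map_prod,
      Polynomial.map_C, RingHom.coe_coe, ← act_mul]
    have e := Equiv.prod_comp (Equiv.mulLeft w)
      (fun x => Polynomial.X - Polynomial.C (X.act K x f))
    simp only [Equiv.coe_mulLeft] at e
    rw [e]
  have h3 : ∀ i, Q.coeff i ∈ X.invI K := by
    intro i
    refine Ideal.subset_span ⟨?_, fun w => ?_⟩
    · rw [← Polynomial.coeff_map, h1, Polynomial.coeff_zero]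
    · have e := congrArg (fun P => Polynomial.coeff P i) (h2 w)
      simpa only [Polynomial.coeff_map, RingHom.coe_coe] using e
  have h4 : Q.eval f = f ^ Fintype.card X.W := by
    simp only [Q, Polynomial.eval_sub, Polynomial.eval_pow, Polynomial.eval_X,
      Polynomial.eval_prod, Polynomial.eval_C]
    rw [Finset.prod_eq_zero (Finset.mem_univ (1 : X.W)) (by rw [act_one, sub_self]), sub_zero]
  rw [← h4, Polynomial.eval_eq_sum_range]
  exact Ideal.sum_mem _ fun i _ => Ideal.mul_mem_right _ _ (h3 i)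

theorem one_notMem_invI : (1 : MvPolynomial (Fin X.n) K) ∉ X.invI K := by
  intro h1
  have e : X.invI K ≤ RingHom.ker constantCoeff := Ideal.span_le.2 fun r hr => hr.1
  have e1 := e h1
  rw [RingHom.mem_ker, map_one] at e1
  exact one_ne_zero e1

theorem exists_hom_mem_invI : ∃ N : ℕ, ∀ k, N ≤ k → ∀ p : MvPolynomial (Fin X.n) K,
    p.IsHomogeneous k → p ∈ X.invI K := by
  refine ⟨X.n * Fintype.card X.W + 1, fun k hk p hp => ?_⟩
  rw [p.as_sum]
  refine Ideal.sum_mem _ fun d hd => ?_
  have hdeg : ∑ j, d j = k := by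
    have e := hp.degree_eq_sum_deg_support hd
    rw [e]
    exact (Finset.sum_subset (Finset.subset_univ _) fun j _ hj => by simpa using hj).symm
  obtain ⟨j, hj⟩ : ∃ j, Fintype.card X.W ≤ d j := by
    by_contra hc
    push Not at hc
    have e : ∑ j, d j ≤ ∑ _j : Fin X.n, Fintype.card X.W :=
      Finset.sum_le_sum fun j _ => (hc j).le
    rw [Finset.sum_const, Finset.card_univ, Fintype.card_fin, smul_eq_mul] at e
    omega
  have e : monomial d (coeff d p) = monomial (d - Finsupp.single j (Fintype.card X.W)) (coeff d p) *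
      MvPolynomial.X j ^ Fintype.card X.W := by
    rw [X_pow_eq_monomial, monomial_mul, mul_one, tsub_add_cancel_of_le]
    exact Finsupp.single_le_iff.2 hj
  rw [e]
  exact Ideal.mul_mem_left _ _ (X.pow_card_mem_invI K (constantCoeff_X K j))

theorem exists_socle : ∃ q : MvPolynomial (Fin X.n) K, q ∉ X.invI K ∧
    ∀ p, constantCoeff p = 0 → q * p ∈ X.invI K := by
  have hex := X.exists_hom_mem_invI K
  have h0 : Nat.find hex ≠ 0 := by
    intro e
    have h1 := Nat.find_spec hex
    rw [e] at h1
    exact X.one_notMem_invI K (h1 0 le_rfl 1 (isHomogeneous_one _ _))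
  obtain ⟨m, hm⟩ := Nat.exists_eq_succ_of_ne_zero h0
  have h1 := Nat.find_spec hex
  have h2 := Nat.find_min hex (m := m) (by omega)
  push Not at h2
  obtain ⟨k, hk, q, hq, hqI⟩ := h2
  refine ⟨q, hqI, fun p hp => ?_⟩
  rw [p.as_sum, Finset.mul_sum]
  refine Ideal.sum_mem _ fun d hd => ?_
  have hd0 : d ≠ 0 := by
    rintro rfl
    exact mem_support_iff.1 hd hp
  have hd1 : d.degree ≠ 0 := fun e => hd0 ((Finsupp.degree_eq_zero_iff d).1 e)
  exact h1 (k + d.degree) (by omega) _ (hq.mul (isHomogeneous_monomial _ rfl))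

end Cox

end

end Pool.Agent.P.MP_1a0ecf_al.F
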