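import Pool.Agent.P.MP_1a0ecf_al.F.HA
import Pool.Agent.P.MP_1a0ecf_al.F.G6

/-! Package H1: first properties of Hecke algebras. -/

namespace Pool.Agent.P.MP_1a0ecf_al.F

open scoped Classical

noncomputable section

namespace HA

variable {X : Cox} {R : Type} [CommRing R] {q : Fin X.n → Rˣ} (D : HA X R q)

private theorem len_ind {P : X.W → Prop} (h1 : P 1)
    (hs : ∀ x i, X.len x < X.len (x * X.s i) → P x → P (x * X.s i)) (x : X.W) : P x := by
  induction hn : X.len x using Nat.strong_induction_on generalizing x with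
  | _ n ih =>
    by_cases hx : x = 1
    · rw [hx]; exact h1
    · obtain ⟨i, hi⟩ := X.cs.exists_rightDescent_of_ne_one hx
      have hi' : X.len (x * X.s i) < X.len x := hi
      have e : x * X.s i * X.s i = x := X.cs.simple_mul_simple_cancel_right i
      rw [← e]
      refine hs _ i (by rw [e]; exact hi') (ih _ (hn ▸ hi') _ rfl)

private theorem len_ind' {P : X.W → Prop} (h1 : P 1)
    (hs : ∀ x i, X.len x < X.len (X.s i * x) → P x → P (X.s i * x)) (x : X.W) : P x := by
  induction hn : X.len x using Nat.strong_induction_on generalizing x with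
  | _ n ih =>
    by_cases hx : x = 1
    · rw [hx]; exact h1
    · obtain ⟨i, hi⟩ := X.cs.exists_leftDescent_of_ne_one hx
      have hi' : X.len (X.s i * x) < X.len x := hi
      have e : X.s i * (X.s i * x) = x := X.cs.simple_mul_simple_cancel_left i
      rw [← e]
      refine hs _ i (by rw [e]; exact hi') (ih _ (hn ▸ hi') _ rfl)

private theorem len_s (x : X.W) (i : Fin X.n) :
    X.len (x * X.s i) = X.len x + 1 ∨ X.len (x * X.s i) + 1 = X.len x :=
  X.cs.length_mul_simple x i

private theorem len_s' (x : X.W) (i : Fin X.n) :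
    X.len (X.s i * x) = X.len x + 1 ∨ X.len (X.s i * x) + 1 = X.len x :=
  X.cs.length_simple_mul x i

private theorem len_one (i : Fin X.n) : X.len (X.s i) = 1 := X.cs.length_simple i

private theorem len_inv (x : X.W) : X.len x⁻¹ = X.len x := X.cs.length_inv x

private theorem inv_s (x : X.W) (i : Fin X.n) : (x * X.s i)⁻¹ = X.s i * x⁻¹ := by
  rw [mul_inv_rev, X.cs.inv_simple]

private theorem inv_s' (x : X.W) (i : Fin X.n) : (X.s i * x)⁻¹ = x⁻¹ * X.s i := by
  rw [mul_inv_rev, X.cs.inv_simple]

private theorem co_T (x w : X.W) : D.co (D.T x) w = if x = w then 1 else 0 := by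
  simp [co, Finsupp.single_apply]

private theorem eq_sum (h : D.H) : h = ∑ w, D.co h w • D.T w := (D.T.sum_repr h).symm

private theorem bas_ind {p : D.H → Prop} (h0 : p 0) (hT : ∀ w, p (D.T w))
    (ha : ∀ a b, p a → p b → p (a + b)) (hs : ∀ (r : R) a, p a → p (r • a)) (h : D.H) : p h := by
  rw [D.eq_sum h]
  exact Finset.sum_induction _ p ha h0 fun w _ => hs _ _ (hT w)

private theorem alt_red {i j : Fin X.n} (h : i ≠ j) {k : ℕ} (hk : k ≤ X.M i j) :
    X.cs.IsReduced (CoxeterSystem.alternatingWord i j k) := by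
  induction k generalizing i j with
  | zero => simp [CoxeterSystem.alternatingWord, CoxeterSystem.IsReduced]
  | succ k ih =>
    have hk' : k < X.M j i := by rw [X.M.symmetric]; omega
    have h1 : X.len _ = _ := ih h.symm hk'.le
    have h2 := X.g1_alt_nonneg h.symm hk'
    have h3 : X.len (X.cs.wordProd (CoxeterSystem.alternatingWord j i k)) <
        X.len (X.cs.wordProd (CoxeterSystem.alternatingWord j i k) * X.s j) := by
      rw [X.asc_iff, X.g1_alt_σ]
      exact add_nonneg (smul_nonneg h2.1 (Pi.single_nonneg.2 zero_le_one))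
        (smul_nonneg h2.2 (Pi.single_nonneg.2 zero_le_one))
    have h4 := len_s (X.cs.wordProd (CoxeterSystem.alternatingWord j i k)) j
    rw [CoxeterSystem.length_alternatingWord] at h1
    rw [CoxeterSystem.IsReduced, CoxeterSystem.length_alternatingWord,
      CoxeterSystem.alternatingWord_succ, CoxeterSystem.wordProd_concat]
    change X.len (_ * X.s j) = _
    omega

theorem T_mul_of_len {x y : X.W} (h : X.len (x * y) = X.len x + X.len y) :
    D.T x * D.T y = D.T (x * y) := by
  induction y using len_ind with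
  | h1 => rw [D.T_one, mul_one, mul_one]
  | hs y i hy ih =>
    have h1 := len_s y i
    have h2 := len_s (x * y) i
    have h3 : X.len (x * y) ≤ X.len x + X.len y := X.cs.length_mul_le x y
    rw [← mul_assoc] at h
    rw [← D.T_up y i hy, ← mul_assoc, ih (by omega), ← mul_assoc, D.T_up _ _ (by omega)]

theorem Ts_sq (i : Fin X.n) : D.Ts i * D.Ts i = 1 + D.ze i • D.Ts i := by
  have h := D.T_down (X.s i) i (by
    rw [X.cs.simple_mul_simple_self, len_one]
    simp [Cox0.len])
  rwa [X.cs.simple_mul_simple_self, D.T_one] at h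

theorem T_word {l : List (Fin X.n)} (h : X.cs.IsReduced l) :
    D.T (X.cs.wordProd l) = (l.map D.Ts).prod := by
  induction l with
  | nil => simp [D.T_one]
  | cons i l ih =>
    have h1 : X.cs.IsReduced l := by simpa using h.drop 1
    have h2 : X.len _ = _ := h
    have h3 : X.len _ = _ := h1
    rw [CoxeterSystem.wordProd_cons, List.length_cons] at h2
    rw [CoxeterSystem.wordProd_cons, List.map_cons, List.prod_cons, ← ih h1]
    exact (D.T_mul_of_len (by rw [h2, h3, len_one, add_comm])).symm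

theorem Ts_up {x : X.W} {i : Fin X.n} (h : X.len x < X.len (X.s i * x)) :
    D.Ts i * D.T x = D.T (X.s i * x) := by
  have h1 := len_s' x i
  exact D.T_mul_of_len (by rw [len_one]; omega)

theorem Ts_down {x : X.W} {i : Fin X.n} (h : X.len (X.s i * x) < X.len x) :
    D.Ts i * D.T x = D.T (X.s i * x) + D.ze i • D.T x := by
  have e : X.s i * (X.s i * x) = x := X.cs.simple_mul_simple_cancel_left i
  have h1 := D.Ts_up (x := X.s i * x) (i := i) (by rwa [e])
  rw [e] at h1
  calc D.Ts i * D.T x = D.Ts i * D.Ts i * D.T (X.s i * x) := by rw [mul_assoc, h1]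
    _ = _ := by rw [Ts_sq, add_mul, one_mul, smul_mul_assoc, h1]

theorem braid {i j : Fin X.n} (h : i ≠ j) :
    ((CoxeterSystem.alternatingWord i j (X.M i j)).map D.Ts).prod =
      ((CoxeterSystem.alternatingWord j i (X.M i j)).map D.Ts).prod := by
  rw [← D.T_word (alt_red h le_rfl), ← D.T_word (alt_red h.symm (X.M.symmetric i j).le)]
  congr 1
  have := X.cs.wordProd_braidWord_eq i j
  rwa [CoxeterSystem.braidWord, CoxeterSystem.braidWord, X.M.symmetric j i] at this

theorem braid2 {i j : Fin X.n} (h : X.M i j = 2) : D.Ts i * D.Ts j = D.Ts j * D.Ts i := by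
  have h1 := D.braid (i := i) (j := j) (by rintro rfl; simp at h)
  rw [h] at h1
  simpa [CoxeterSystem.alternatingWord, mul_assoc] using h1

theorem braid3 {i j : Fin X.n} (h : X.M i j = 3) :
    D.Ts i * D.Ts j * D.Ts i = D.Ts j * D.Ts i * D.Ts j := by
  have h1 := D.braid (i := i) (j := j) (by rintro rfl; simp at h)
  rw [h] at h1
  simpa [CoxeterSystem.alternatingWord, mul_assoc] using h1.symm

theorem braid4 {i j : Fin X.n} (h : X.M i j = 4) :
    D.Ts i * D.Ts j * D.Ts i * D.Ts j = D.Ts j * D.Ts i * D.Ts j * D.Ts i := by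
  have h1 := D.braid (i := i) (j := j) (by rintro rfl; simp at h)
  rw [h] at h1
  simpa [CoxeterSystem.alternatingWord, mul_assoc] using h1

theorem induction {p : D.H → Prop} (h1 : p 1) (ha : ∀ a b, p a → p b → p (a + b))
    (hs : ∀ (r : R) a, p a → p (r • a)) (hm : ∀ a i, p a → p (a * D.Ts i)) (h : D.H) : p h := by
  refine D.bas_ind (by simpa using hs 0 1 h1) (fun w => ?_) ha hs h
  induction w using len_ind with
  | h1 => rwa [D.T_one]
  | hs x i hx ih => rw [← D.T_up x i hx]; exact hm _ _ ih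

theorem induction' {p : D.H → Prop} (h1 : p 1) (ha : ∀ a b, p a → p b → p (a + b))
    (hs : ∀ (r : R) a, p a → p (r • a)) (hm : ∀ a i, p a → p (D.Ts i * a)) (h : D.H) : p h := by
  refine D.bas_ind (by simpa using hs 0 1 h1) (fun w => ?_) ha hs h
  induction w using len_ind' with
  | h1 => rwa [D.T_one]
  | hs x i hx ih => rw [← D.Ts_up hx]; exact hm _ _ ih

theorem comm_of_Ts {z : D.H} (h : ∀ i, D.Ts i * z = z * D.Ts i) (a : D.H) : a * z = z * a := by
  induction a using D.induction with
  | h1 => rw [one_mul, mul_one]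
  | ha a b ha hb => rw [add_mul, mul_add, ha, hb]
  | hs r a ha => rw [smul_mul_assoc, mul_smul_comm, ha]
  | hm a i ha => rw [mul_assoc, h, ← mul_assoc, ha, mul_assoc]

private theorem Ts_inv (i : Fin X.n) : D.Ts i * (D.Ts i - D.ze i • 1) = 1 := by
  rw [mul_sub, Ts_sq, mul_smul_comm, mul_one, add_sub_cancel_right]

private theorem Ts_inv' (i : Fin X.n) : (D.Ts i - D.ze i • 1) * D.Ts i = 1 := by
  rw [sub_mul, Ts_sq, smul_mul_assoc, one_mul, add_sub_cancel_right]

theorem isUnit_T (w : X.W) : IsUnit (D.T w) := by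
  induction w using len_ind with
  | h1 => rw [D.T_one]; exact isUnit_one
  | hs x i hx ih =>
    rw [← D.T_up x i hx]
    exact ih.mul ⟨⟨_, _, D.Ts_inv i, D.Ts_inv' i⟩, rfl⟩

theorem T_mul_Ti (w : X.W) : D.T w * D.Ti w = 1 := by
  exact Ring.mul_inverse_cancel _ (D.isUnit_T w)

theorem Ti_mul_T (w : X.W) : D.Ti w * D.T w = 1 := by
  exact Ring.inverse_mul_cancel _ (D.isUnit_T w)

private theorem Ti_eq {w : X.W} {a : D.H} (h : D.T w * a = 1) : D.Ti w = a := by
  rw [← mul_one (D.Ti w), ← h, ← mul_assoc, Ti_mul_T, one_mul]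

theorem Ti_s (i : Fin X.n) : D.Ti (X.s i) = D.Ts i - D.ze i • 1 := by
  exact D.Ti_eq (D.Ts_inv i)

theorem flat_T (w : X.W) : D.flat (D.T w) = D.T w⁻¹ := by
  exact D.T.constr_basis R _ w

private theorem flat_Ts (a : D.H) (i : Fin X.n) : D.flat (a * D.Ts i) = D.Ts i * D.flat a := by
  induction a using D.bas_ind with
  | h0 => simp
  | hT w =>
    have h1 : X.len (X.s i * w⁻¹) = X.len (w * X.s i) := by rw [← inv_s, len_inv]
    have h2 := len_inv w
    rcases len_s w i with h | h
    · rw [D.T_up w i (by omega), flat_T, flat_T, inv_s, D.Ts_up (by omega)]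
    · rw [D.T_down w i (by omega), map_add, map_smul, flat_T, flat_T, inv_s, D.Ts_down (by omega)]
  | ha a b ha hb => rw [add_mul, map_add, map_add, ha, hb, mul_add]
  | hs r a ha => rw [smul_mul_assoc, map_smul, map_smul, ha, mul_smul_comm]

theorem flat_mul (a b : D.H) : D.flat (a * b) = D.flat b * D.flat a := by
  induction b using D.induction with
  | h1 => rw [mul_one, ← D.T_one, flat_T, inv_one, D.T_one, one_mul]
  | ha b c hb hc => rw [mul_add, map_add, map_add, hb, hc, add_mul]
  | hs r b hb => rw [mul_smul_comm, map_smul, map_smul, hb, smul_mul_assoc]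
  | hm b i hb => rw [← mul_assoc, flat_Ts, flat_Ts, hb, mul_assoc]

theorem flat_flat (a : D.H) : D.flat (D.flat a) = a := by
  induction a using D.bas_ind with
  | h0 => simp
  | hT w => rw [flat_T, flat_T, inv_inv]
  | ha a b ha hb => rw [map_add, map_add, ha, hb]
  | hs r a ha => rw [map_smul, map_smul, ha]

theorem co_flat (a : D.H) (w : X.W) : D.co (D.flat a) w = D.co a w⁻¹ := by
  induction a using D.bas_ind with
  | h0 => simp [co]
  | hT x => rw [flat_T, co_T, co_T]; simp only [inv_eq_iff_eq_inv]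
  | ha a b ha hb =>
    simp only [co, map_add, Finsupp.add_apply] at ha hb ⊢
    rw [ha, hb]
  | hs r a ha =>
    simp only [co, map_smul, Finsupp.smul_apply] at ha ⊢
    rw [ha]

theorem tau_T (w : X.W) : D.tau (D.T w) = if w = 1 then 1 else 0 := by
  exact D.co_T w 1

theorem tau_T_mul (x y : X.W) : D.tau (D.T x * D.T y) = if x * y = 1 then 1 else 0 := by
  induction y using len_ind' generalizing x with
  | h1 => rw [D.T_one, mul_one, mul_one, tau_T]
  | hs y i hy ih =>
    rw [← D.Ts_up hy, ← mul_assoc, ← mul_assoc]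
    rcases len_s x i with h | h
    · rw [D.T_up x i (by omega), ih]
    · have h1 : x * y ≠ 1 := fun e => by
        have e1 : x = y⁻¹ := eq_inv_of_mul_eq_one_left e
        rw [e1, ← inv_s', len_inv, len_inv] at h
        omega
      rw [D.T_down x i (by omega), add_mul, smul_mul_assoc, map_add, map_smul, ih, ih, if_neg h1,
        smul_zero, add_zero]

private theorem tau_mul (a b : D.H) : D.tau (a * b) = ∑ w, D.co a w * D.co b w⁻¹ := by
  conv_lhs => rw [D.eq_sum a, D.eq_sum b, Finset.sum_mul_sum]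
  simp only [map_sum, smul_mul_assoc, mul_smul_comm, map_smul, tau_T_mul, smul_eq_mul]
  refine Finset.sum_congr rfl fun x _ => ?_
  rw [Finset.sum_eq_single x⁻¹ (fun y _ hy => by
    rw [if_neg fun e => hy (eq_inv_of_mul_eq_one_right e), mul_zero, mul_zero]) (by simp)]
  simp [mul_comm]

theorem tau_comm (a b : D.H) : D.tau (a * b) = D.tau (b * a) := by
  rw [tau_mul, tau_mul, ← Equiv.sum_comp (Equiv.inv X.W)]
  simp [mul_comm]

theorem tau_mul_T (a : D.H) (w : X.W) : D.tau (a * D.T w⁻¹) = D.co a w := by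
  rw [tau_mul]
  simp only [co_T, inv_inj, mul_ite, mul_one, mul_zero, Finset.sum_ite_eq, Finset.mem_univ, if_true]

theorem tau_mul_flat (a b : D.H) : D.tau (a * D.flat b) = ∑ w, D.co a w * D.co b w := by
  simp only [tau_mul, co_flat, inv_inv]

theorem tau_flat (a : D.H) : D.tau (D.flat a) = D.tau a := by
  have h := D.co_flat a 1
  rwa [inv_one] at h

private theorem sp_Ts {S S' : Set X.W} {i : Fin X.n} (h : ∀ w ∈ S, w ∈ S' ∧ w * X.s i ∈ S')
    {a : D.H} (ha : a ∈ D.sp S) : a * D.Ts i ∈ D.sp S' := by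
  induction ha using Submodule.span_induction with
  | mem x hx =>
    obtain ⟨w, hw, rfl⟩ := hx
    have h1 : D.T w ∈ D.sp S' := Submodule.subset_span ⟨w, (h w hw).1, rfl⟩
    have h2 : D.T (w * X.s i) ∈ D.sp S' := Submodule.subset_span ⟨_, (h w hw).2, rfl⟩
    rcases len_s w i with e | e
    · rwa [D.T_up w i (by omega)]
    · rw [D.T_down w i (by omega)]
      exact add_mem h2 (Submodule.smul_mem _ _ h1)
  | zero => rw [zero_mul]; exact zero_mem _
  | add x y _ _ hx hy => rw [add_mul]; exact add_mem hx hy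
  | smul r x _ hx => rw [smul_mul_assoc]; exact Submodule.smul_mem _ _ hx

/-- the inverse of `T w⁻¹` is `T w` plus shorter terms -/
theorem Ti_tri (w : X.W) : D.Ti w⁻¹ - D.T w ∈ D.sp {y | X.len y < X.len w} := by
  induction w using len_ind with
  | h1 => rw [inv_one, D.Ti_eq (a := D.T 1) (by rw [D.T_one, one_mul]), sub_self]; exact zero_mem _
  | hs x i hx ih =>
    have h1 : X.len (X.s i * x⁻¹) = X.len (x * X.s i) := by rw [← inv_s, len_inv]
    have h2 := len_inv x
    have e : D.Ti (x * X.s i)⁻¹ = D.Ti x⁻¹ * (D.Ts i - D.ze i • 1) := D.Ti_eq (by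
      rw [inv_s, ← D.Ts_up (by omega), mul_assoc, ← mul_assoc (D.T x⁻¹), T_mul_Ti, one_mul, Ts_inv])
    have e2 : D.Ti (x * X.s i)⁻¹ - D.T (x * X.s i) = (D.Ti x⁻¹ - D.T x) * D.Ts i -
        D.ze i • (D.Ti x⁻¹ - D.T x) - D.ze i • D.T x := by
      rw [e, ← D.T_up x i hx, mul_sub, mul_smul_comm, mul_one, sub_mul, smul_sub]
      abel
    rw [e2]
    refine sub_mem (sub_mem (D.sp_Ts (fun w hw => ?_) ih) (Submodule.smul_mem _ _ ?_))
      (Submodule.smul_mem _ _ (Submodule.subset_span ⟨x, hx, rfl⟩))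
    · have h3 := len_s w i
      have h4 : X.len w < X.len x := hw
      exact ⟨h4.trans hx, show X.len _ < X.len _ by omega⟩
    · exact Submodule.span_mono (Set.image_mono fun w hw => lt_trans hw hx) ih

theorem mem_sp {S : Set X.W} {a : D.H} : a ∈ D.sp S ↔ ∀ w, D.co a w ≠ 0 → w ∈ S := by
  rw [sp, Module.Basis.mem_span_image]
  exact ⟨fun h w hw => h (Finsupp.mem_support_iff.2 hw),
    fun h w hw => h w (Finsupp.mem_support_iff.1 hw)⟩

/-- parabolic subalgebras -/
theorem sp_mul {I : Set (Fin X.n)} {a b : D.H}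
    (ha : a ∈ D.sp (Subgroup.closure (X.s '' I) : Subgroup X.W))
    (hb : b ∈ D.sp (Subgroup.closure (X.s '' I) : Subgroup X.W)) :
    a * b ∈ D.sp (Subgroup.closure (X.s '' I) : Subgroup X.W) := by
  have key : ∀ l : List (Fin X.n), (∀ i ∈ l, i ∈ I) →
      ∀ a ∈ D.sp (Subgroup.closure (X.s '' I) : Subgroup X.W),
        a * (l.map D.Ts).prod ∈ D.sp (Subgroup.closure (X.s '' I) : Subgroup X.W) := by
    intro l
    induction l with
    | nil => intro _ a ha; simpa using ha
    | cons i l ih =>
      intro hl a ha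
      rw [List.map_cons, List.prod_cons, ← mul_assoc]
      refine ih (fun j hj => hl j (List.mem_cons_of_mem _ hj)) _ (D.sp_Ts (fun w hw => ⟨hw, ?_⟩) ha)
      exact mul_mem hw (Subgroup.subset_closure ⟨i, hl i List.mem_cons_self, rfl⟩)
  induction hb using Submodule.span_induction with
  | mem x hx =>
    obtain ⟨w, hw, rfl⟩ := hx
    obtain ⟨l, h1, h2, rfl⟩ := X.exists_word hw
    rw [D.T_word h2]
    exact key l h1 a ha
  | zero => rw [mul_zero]; exact zero_mem _
  | add x y _ _ hx hy => rw [mul_add]; exact add_mem hx hy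
  | smul r x _ hx => rw [mul_smul_comm]; exact Submodule.smul_mem _ _ hx

/-- the Casimir element -/
theorem casimir (a b : D.H) : b * ∑ w, D.T w * a * D.T w⁻¹ = (∑ w, D.T w * a * D.T w⁻¹) * b := by
  refine D.comm_of_Ts (fun i => ?_) b
  have h1 : ∀ w, D.Ts i * D.T w =
      D.T (X.s i * w) + (if X.len (X.s i * w) < X.len w then D.ze i else 0) • D.T w := fun w => by
    split_ifs with h
    · exact D.Ts_down h
    · have := len_s' w i
      rw [zero_smul, add_zero, D.Ts_up (by omega)]
  have h2 : ∀ w, D.T w⁻¹ * D.Ts i = D.T (X.s i * w)⁻¹ +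
      (if X.len (X.s i * w) < X.len w then D.ze i else 0) • D.T w⁻¹ := fun w => by
    have e1 : X.len (w⁻¹ * X.s i) = X.len (X.s i * w) := by rw [← inv_s', len_inv]
    have e2 := len_inv w
    rw [inv_s']
    split_ifs with h
    · exact D.T_down _ i (by omega)
    · have := len_s' w i
      rw [zero_smul, add_zero, D.T_up _ i (by omega)]
  rw [Finset.mul_sum, Finset.sum_mul]
  simp only [← mul_assoc, h1]
  simp only [mul_assoc _ _ (D.Ts i), h2, add_mul, mul_add, smul_mul_assoc, mul_smul_comm,
    Finset.sum_add_distrib]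
  congr 1
  rw [← Equiv.sum_comp (Equiv.mulLeft (X.s i))]
  simp only [Equiv.coe_mulLeft, X.cs.simple_mul_simple_cancel_left]

end HA

end

end Pool.Agent.P.MP_1a0ecf_al.F
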