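import Pool.Agent.P.MP_1a0ecf_al.F.H1

/-! Package H2: existence, universal property, base change, bar involution. -/

namespace Pool.Agent.P.MP_1a0ecf_al.F

open scoped Classical

noncomputable section

private theorem len_ind2 (X : Cox) {P : X.W → Prop} (h1 : P 1)
    (hs : ∀ x i, X.len x < X.len (x * X.s i) → P x → P (x * X.s i)) (x : X.W) : P x := by
  induction hn : X.len x using Nat.strong_induction_on generalizing x with
  | _ n ih =>
    by_cases hx : x = 1
    · rw [hx]; exact h1
    · obtain ⟨i, hi⟩ := X.cs.exists_rightDescent_of_ne_one hx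
      have hi' : X.len (x * X.s i) < X.len x := hi
      have e : x * X.s i * X.s i = x := X.cs.simple_mul_simple_cancel_right i
      rw [← e]
      refine hs _ i (by rw [e]; exact hi') (ih _ (hn ▸ hi') _ rfl)

private theorem len_ind2' (X : Cox) {P : X.W → Prop} (h1 : P 1)
    (hs : ∀ x i, X.len x < X.len (X.s i * x) → P x → P (X.s i * x)) (x : X.W) : P x := by
  induction hn : X.len x using Nat.strong_induction_on generalizing x with
  | _ n ih =>
    by_cases hx : x = 1
    · rw [hx]; exact h1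
    · obtain ⟨i, hi⟩ := X.cs.exists_leftDescent_of_ne_one hx
      have hi' : X.len (X.s i * x) < X.len x := hi
      have e : X.s i * (X.s i * x) = x := X.cs.simple_mul_simple_cancel_left i
      rw [← e]
      refine hs _ i (by rw [e]; exact hi') (ih _ (hn ▸ hi') _ rfl)

private theorem len_r (X : Cox) (x : X.W) (i : Fin X.n) :
    X.len (x * X.s i) = X.len x + 1 ∨ X.len (x * X.s i) + 1 = X.len x :=
  X.cs.length_mul_simple x i

private theorem len_l (X : Cox) (x : X.W) (i : Fin X.n) :
    X.len (X.s i * x) = X.len x + 1 ∨ X.len (X.s i * x) + 1 = X.len x :=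
  X.cs.length_simple_mul x i

section Ops

variable (X : Cox) {R : Type} [CommRing R] (z : Fin X.n → R)

/-- basis vectors -/
private def bv (R : Type) [CommRing R] : Module.Basis X.W R (X.W →₀ R) := Finsupp.basisSingleOne

/-- the left rule -/
private def lamO (i : Fin X.n) : Module.End R (X.W →₀ R) := (bv X R).constr R fun x =>
  bv X R (X.s i * x) + (if X.len (X.s i * x) < X.len x then z i else 0) • bv X R x

/-- the right rule -/
private def rhoO (i : Fin X.n) : Module.End R (X.W →₀ R) := (bv X R).constr R fun x =>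
  bv X R (x * X.s i) + (if X.len (x * X.s i) < X.len x then z i else 0) • bv X R x

private theorem lamO_bv (i : Fin X.n) (x : X.W) : lamO X z i (bv X R x) =
    bv X R (X.s i * x) + (if X.len (X.s i * x) < X.len x then z i else 0) • bv X R x :=
  (bv X R).constr_basis R _ x

private theorem rhoO_bv (i : Fin X.n) (x : X.W) : rhoO X z i (bv X R x) =
    bv X R (x * X.s i) + (if X.len (x * X.s i) < X.len x then z i else 0) • bv X R x :=
  (bv X R).constr_basis R _ x

private theorem lam_rho (hz : ∀ i j, IsConj (X.s i) (X.s j) → z i = z j) (i j : Fin X.n) :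
    rhoO X z j * lamO X z i = lamO X z i * rhoO X z j := by
  refine (bv X R).ext fun x => ?_
  simp only [Module.End.mul_apply, lamO_bv, rhoO_bv, map_add, map_smul, smul_add, ← mul_assoc]
  have h1 := len_l X x i
  have h2 := len_r X x j
  have h3 := len_r X (X.s i * x) j
  have h4 := len_l X (x * X.s j) i
  rw [← mul_assoc] at h4
  have key : X.len (X.s i * x * X.s j) = X.len x → X.len (X.s i * x) = X.len (x * X.s j) →
      X.s i * x = x * X.s j ∧ z i = z j := fun a b => by
    have e := X.swap_of_len a b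
    refine ⟨e, hz i j (isConj_iff.2 ⟨x⁻¹, ?_⟩)⟩
    rw [inv_inv, mul_assoc, e, inv_mul_cancel_left]
  by_cases a : X.len (X.s i * x) < X.len x <;> by_cases c : X.len (x * X.s j) < X.len x <;>
    by_cases d : X.len (X.s i * x * X.s j) < X.len (X.s i * x) <;>
    by_cases d' : X.len (X.s i * x * X.s j) < X.len (x * X.s j) <;>
    simp only [a, c, d, d', if_true, if_false, zero_smul, smul_zero, add_zero] <;>
    first
      | omega
      | rfl
      | (rw [smul_comm (z i) (z j)]; abel1)
      | (obtain ⟨e, e'⟩ := key (by omega) (by omega); rw [e, e'])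

end Ops

theorem exists_HA (X : Cox) (R : Type) [CommRing R] (q : Fin X.n → Rˣ)
    (hq : ∀ i j, IsConj (X.s i) (X.s j) → q i = q j) : Nonempty (HA X R q) := by
  set z : Fin X.n → R := fun i => (q i : R) - ((q i)⁻¹ : Rˣ) with hz
  have hc := lam_rho X z fun i j h => by simp only [hz, hq i j h]
  let H : Subalgebra R (Module.End R (X.W →₀ R)) :=
    Subalgebra.centralizer R (Set.range (rhoO X z))
  let _ : Ring H := Subalgebra.toRing (R := R) (A := Module.End R (X.W →₀ R)) H
  have hH : ∀ (h : H) i v, h.1 (rhoO X z i v) = rhoO X z i (h.1 v) := fun h i v =>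
    (LinearMap.congr_fun ((Subalgebra.mem_centralizer_iff R).1 h.2 _ ⟨i, rfl⟩) v).symm
  have hl : ∀ i, lamO X z i ∈ H := fun i => (Subalgebra.mem_centralizer_iff R).2 (by
    rintro _ ⟨j, rfl⟩
    exact hc i j)
  let ev : H →ₗ[R] (X.W →₀ R) :=
    { toFun := fun h => h.1 (bv X R 1)
      map_add' := fun _ _ => rfl
      map_smul' := fun _ _ => rfl }
  have hup : ∀ x i, X.len x < X.len (x * X.s i) → rhoO X z i (bv X R x) = bv X R (x * X.s i) :=
    fun x i h => by rw [rhoO_bv, if_neg h.le.not_gt, zero_smul, add_zero]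
  have hinj : Function.Injective ev := by
    refine (injective_iff_map_eq_zero ev).2 fun h h0 => Subtype.ext ((bv X R).ext fun x => ?_)
    induction x using len_ind2 X with
    | h1 => exact h0
    | hs x i hx ih =>
      rw [← hup x i hx, hH, ih]
      simp
  have hsurj : Function.Surjective ev := by
    have h1 : ∀ x, bv X R x ∈ LinearMap.range ev := fun x => by
      induction x using len_ind2' X with
      | h1 => exact ⟨1, rfl⟩
      | hs x i hx ih =>
        obtain ⟨h, hh⟩ := ih
        refine ⟨⟨_, hl i⟩ * h, ?_⟩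
        change lamO X z i (ev h) = _
        rw [hh, lamO_bv, if_neg hx.le.not_gt, zero_smul, add_zero]
    rw [← LinearMap.range_eq_top, eq_top_iff, ← (bv X R).span_eq, Submodule.span_le]
    rintro _ ⟨x, rfl⟩
    exact h1 x
  let E : H ≃ₗ[R] (X.W →₀ R) := LinearEquiv.ofBijective ev ⟨hinj, hsurj⟩
  let T : Module.Basis X.W R H := (bv X R).map E.symm
  have hT : ∀ x, ev (T x) = bv X R x := fun x => E.apply_symm_apply _
  have hm : ∀ x i, ev (T x * T (X.s i)) = rhoO X z i (bv X R x) := fun x i => by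
    change (T x).1 (ev (T (X.s i))) = _
    have h1 := hup 1 i (by
      have := len_r X 1 i
      have h0 : X.len 1 = 0 := X.cs.length_one
      omega)
    rw [one_mul] at h1
    rw [hT, ← h1, hH]
    exact congrArg _ (hT x)
  refine ⟨HA.mk H T (hinj (hT 1)) (fun x i h => hinj ?_) fun x i h => hinj ?_⟩
  · rw [hm, hT, hup x i h]
  · rw [hm, map_add, map_smul, hT, hT, rhoO_bv, if_pos h]

namespace HA

variable {X : Cox} {R : Type} [CommRing R] {q : Fin X.n → Rˣ} (D : HA X R q)

private theorem exists_F {R' B : Type} [CommRing R'] [Ring B] [Algebra R' B] (φ : R →+* R')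
    (F : X.W → B) (h1 : F 1 = 1)
    (hu : ∀ x i, X.len x < X.len (x * X.s i) → F x * F (X.s i) = F (x * X.s i))
    (h2 : ∀ i, F (X.s i) * F (X.s i) = 1 + φ (D.ze i) • F (X.s i)) :
    ∃ f : D.H →+* B, (∀ r a, f (r • a) = φ r • f a) ∧ (∀ w, f (D.T w) = F w) ∧
      ∀ a, f a = ∑ w, φ (D.co a w) • F w := by
  let g : D.H →+ B :=
    { toFun := fun a => ∑ w, φ (D.co a w) • F w
      map_zero' := by simp [co]
      map_add' := fun a b => by simp [co, add_smul, Finset.sum_add_distrib] }
  have hg : ∀ a, g a = ∑ w, φ (D.co a w) • F w := fun _ => rfl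
  have hs : ∀ r a, g (r • a) = φ r • g a := fun r a => by
    simp [hg, co, Finset.smul_sum, mul_smul]
  have hT : ∀ w, g (D.T w) = F w := fun w => by
    rw [hg, Finset.sum_eq_single w (fun y _ hy => by simp [co, hy.symm])
      (by simp)]
    simp [co]
  have hb : ∀ x i, g (D.T x * D.Ts i) = F x * F (X.s i) := fun x i => by
    rcases len_r X x i with h | h
    · rw [D.T_up x i (by omega), hT, hu x i (by omega)]
    · have e : x * X.s i * X.s i = x := X.cs.simple_mul_simple_cancel_right i
      have h3 := hu (x * X.s i) i (by rw [e]; omega)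
      rw [e] at h3
      rw [D.T_down x i (by omega), map_add, hs, hT, hT]
      calc _ = F (x * X.s i) * (1 + φ (D.ze i) • F (X.s i)) := by
            rw [mul_add, mul_one, mul_smul_comm, h3]
        _ = _ := by rw [← h2, ← mul_assoc, h3]
  have hm : ∀ a i, g (a * D.Ts i) = g a * F (X.s i) := fun a i => by
    conv_lhs => rw [← D.T.sum_repr a, Finset.sum_mul, map_sum]
    rw [hg a, Finset.sum_mul]
    refine Finset.sum_congr rfl fun w _ => ?_
    rw [smul_mul_assoc, hs, hb, smul_mul_assoc]
  have ho : g 1 = 1 := by rw [← D.T_one, hT, h1]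
  have hmul : ∀ a b, g (a * b) = g a * g b := fun a b => by
    induction b using D.induction with
    | h1 => rw [mul_one, ho, mul_one]
    | ha b c hb hc => rw [mul_add, map_add, map_add, hb, hc, mul_add]
    | hs r b hb => rw [mul_smul_comm, hs, hs, hb, mul_smul_comm]
    | hm b i hb => rw [← mul_assoc, hm, hm, hb, mul_assoc]
  exact ⟨{ g with map_one' := ho, map_mul' := hmul }, hs, hT, hg⟩

private theorem ze_map {R' : Type} [CommRing R'] (φ : R →+* R') (u : Rˣ) (v : R'ˣ)
    (h : φ u = v) : φ ((u : R) - (u⁻¹ : Rˣ)) = (v : R') - (v⁻¹ : R'ˣ) := by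
  have e : Units.map (φ : R →* R') u = v := Units.ext h
  rw [map_sub, h, ← e]
  rfl

/-- universal property, semilinear form -/
theorem exists_hom {R' B : Type} [CommRing R'] [Ring B] [Algebra R' B] (φ : R →+* R')
    (t : Fin X.n → B) (h2 : ∀ i, t i * t i = 1 + φ (D.ze i) • t i)
    (hb : ∀ i j, i ≠ j → ((CoxeterSystem.alternatingWord i j (X.M i j)).map t).prod =
      ((CoxeterSystem.alternatingWord j i (X.M i j)).map t).prod) :
    ∃ f : D.H →+* B, (∀ r a, f (r • a) = φ r • f a) ∧ ∀ i, f (D.Ts i) = t i := by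
  obtain ⟨F, hF⟩ := X.matsumoto t hb
  have h1 : F 1 = 1 := by simpa using hF [] (by simp [CoxeterSystem.IsReduced])
  have hs : ∀ i, F (X.s i) = t i := fun i => by
    simpa using hF [i] (by simp [CoxeterSystem.IsReduced])
  obtain ⟨f, hf, hT, -⟩ := D.exists_F φ F h1 (fun x i h => by
    obtain ⟨l, hl, rfl⟩ := X.cs.exists_isReduced x
    have h3 := len_r X (X.cs.wordProd l) i
    have h4 : X.len _ = _ := hl
    have e : X.cs.wordProd (l ++ [i]) = X.cs.wordProd l * X.s i := by
      rw [CoxeterSystem.wordProd_append, CoxeterSystem.wordProd_singleton]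
    have h5 : X.cs.IsReduced (l ++ [i]) := by
      change X.len _ = _
      rw [e, List.length_append, List.length_singleton]
      omega
    rw [← e, hF _ h5, hF _ hl, hs]
    simp) (fun i => by rw [hs, h2])
  exact ⟨f, hf, fun i => (hT _).trans (hs i)⟩

theorem hom_ext {R' B : Type} [CommRing R'] [Ring B] [Algebra R' B] {φ : R →+* R'}
    {f g : D.H →+* B} (hf : ∀ r a, f (r • a) = φ r • f a) (hg : ∀ r a, g (r • a) = φ r • g a)
    (h : ∀ i, f (D.Ts i) = g (D.Ts i)) : f = g := by
  refine RingHom.ext fun a => ?_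
  induction a using D.induction with
  | h1 => rw [map_one, map_one]
  | ha a b ha hb => rw [map_add, map_add, ha, hb]
  | hs r a ha => rw [hf, hg, ha]
  | hm a i ha => rw [map_mul, map_mul, ha, h]

/-- base change along a parabolic embedding -/
theorem exists_mapP {Y : Cox} (P : Par Y.toCox0 X.toCox0) {R' : Type} [CommRing R']
    {q' : Fin Y.n → R'ˣ} (D' : HA Y R' q') (φ : R' →+* R) (h : ∀ i, φ (q' i) = q (P.e i)) :
    ∃ f : D'.H →+* D.H, (∀ r a, f (r • a) = φ r • f a) ∧ ∀ w, f (D'.T w) = D.T (P.ι w) := by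
  obtain ⟨f, hf, hT, -⟩ := D'.exists_F φ (fun w => D.T (P.ι w)) (by rw [map_one, D.T_one])
    (fun x i hx => by
      rw [map_mul, P.ι_s]
      refine D.T_up _ _ ?_
      rwa [← P.ι_s, ← map_mul, P.len_ι, P.len_ι])
    (fun i => by rw [P.ι_s, ze_map φ _ _ (h i)]; exact D.Ts_sq _)
  exact ⟨f, hf, hT⟩

/-- base change -/
theorem exists_map {R' : Type} [CommRing R'] {q' : Fin X.n → R'ˣ} (D' : HA X R' q') (φ : R →+* R')
    (h : ∀ i, φ (q i) = q' i) : ∃ f : D.H →+* D'.H, (∀ r a, f (r • a) = φ r • f a) ∧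
      (∀ w, f (D.T w) = D'.T w) ∧ ∀ a w, D'.co (f a) w = φ (D.co a w) := by
  obtain ⟨f, hf, hT, hs⟩ := D.exists_F φ D'.T D'.T_one D'.T_up
    (fun i => by rw [ze_map φ _ _ (h i)]; exact D'.Ts_sq _)
  refine ⟨f, hf, hT, fun a w => ?_⟩
  rw [hs]
  exact congrFun (D'.T.repr_sum_self _) w

/-- the bar involution -/
theorem exists_bar (φ : R →+* R) (h : ∀ i, φ (q i) = ((q i)⁻¹ : Rˣ)) : ∃ f : D.H →+* D.H,
    (∀ r a, f (r • a) = φ r • f a) ∧ ∀ w, f (D.T w) = D.Ti w⁻¹ := by
  have hi : ∀ {w a}, D.T w * a = 1 → D.Ti w = a := fun {w a} e => by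
    rw [← mul_one (D.Ti w), ← e, ← mul_assoc, Ti_mul_T, one_mul]
  obtain ⟨f, hf, hT, -⟩ := D.exists_F φ (fun w => D.Ti w⁻¹)
    (hi (by rw [inv_one, D.T_one, one_mul]))
    (fun x i hx => (hi (by
      have e : (x * X.s i)⁻¹ = X.s i * x⁻¹ := by rw [mul_inv_rev, X.cs.inv_simple]
      have h1 : X.len (x * X.s i)⁻¹ = X.len (x * X.s i) := X.cs.length_inv _
      have h2 : X.len x⁻¹ = X.len x := X.cs.length_inv _
      rw [e] at h1
      rw [e, ← D.Ts_up (by omega), X.cs.inv_simple, mul_assoc, ← mul_assoc (D.T x⁻¹), T_mul_Ti,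
        one_mul, T_mul_Ti])).symm)
    (fun i => by
      rw [ze_map φ _ _ (h i), inv_inv, X.cs.inv_simple, Ti_s, ← neg_sub (q i : R)]
      change (D.Ts i - D.ze i • 1) * (D.Ts i - D.ze i • 1) =
        1 + (-D.ze i) • (D.Ts i - D.ze i • 1)
      rw [sub_mul, mul_sub, Ts_sq, mul_smul_comm, mul_one, smul_mul_assoc, one_mul, neg_smul]
      abel)
  exact ⟨f, hf, hT⟩

/-- specialisation to the group algebra -/
theorem exists_spec (φ : R →+* ℂ) (h : ∀ i, φ (q i) = 1) : ∃ f : D.H →+* MonoidAlgebra ℂ X.W,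
    (∀ r a, f (r • a) = φ r • f a) ∧ (∀ w, f (D.T w) = MonoidAlgebra.of ℂ X.W w) ∧
      ∀ a w, (f a).coeff w = φ (D.co a w) := by
  obtain ⟨f, hf, hT, hs⟩ := D.exists_F φ (MonoidAlgebra.of ℂ X.W) (map_one _)
    (fun x i _ => (map_mul _ _ _).symm)
    (fun i => by
      rw [ze_map φ _ 1 (h i), ← map_mul, X.cs.simple_mul_simple_self, map_one]
      simp)
  refine ⟨f, hf, hT, fun a w => ?_⟩
  rw [hs]
  simp [Finsupp.single_apply]

/-- diagram automorphisms and sign changes -/
theorem exists_aut (σ : X.W ≃* X.W) (e : Fin X.n → Fin X.n) (h : ∀ i, σ (X.s i) = X.s (e i))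
    (hq : ∀ i, q (e i) = q i) : ∃ f : D.H →ₐ[R] D.H, ∀ w, f (D.T w) = D.T (σ w) := by
  have h1 : ∀ w, X.len (σ w) ≤ X.len w := fun w => by
    induction w using len_ind2 X with
    | h1 => rw [map_one]
    | hs x i hx ih =>
      have h2 := len_r X (σ x) (e i)
      rw [map_mul, h]
      omega
  have h2 : ∀ w, X.len (σ w) = X.len w := fun w =>
    (Finset.sum_eq_sum_iff_of_le fun w _ => h1 w).1 (Equiv.sum_comp σ.toEquiv X.len) w
      (Finset.mem_univ w)
  obtain ⟨f, hf, hT, -⟩ := D.exists_F (RingHom.id R) (fun w => D.T (σ w))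
    (by rw [map_one, D.T_one])
    (fun x i hx => by
      rw [map_mul, h]
      refine D.T_up _ _ ?_
      rwa [← h, ← map_mul, h2, h2])
    (fun i => by
      have h3 := D.Ts_sq (e i)
      rw [h, RingHom.id_apply]
      simpa only [ze, hq] using h3)
  exact ⟨AlgHom.mk' f hf, hT⟩

end HA

end

end Pool.Agent.P.MP_1a0ecf_al.F
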