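import Pool.Agent.P.MP_1a0ecf_al.F.G4
import Pool.Agent.P.MP_1a0ecf_al.F.T1
import Pool.Agent.P.MP_1a0ecf_al.Spec

/-! Package HA: Hecke algebras with parameters in any commutative ring: definitions. -/

namespace Pool.Agent.P.MP_1a0ecf_al.F

open scoped Classical

noncomputable section

/-- the Hecke algebra of `X` over `R` with parameters `q` -/
structure HA (X : Cox) (R : Type) [CommRing R] (q : Fin X.n → Rˣ) where
  H : Type
  [ring : Ring H]
  [alg : Algebra R H]
  T : Module.Basis X.W R H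
  T_one : T 1 = 1
  T_up : ∀ x i, X.len x < X.len (x * X.s i) → T x * T (X.s i) = T (x * X.s i)
  T_down : ∀ x i, X.len (x * X.s i) < X.len x →
    T x * T (X.s i) = T (x * X.s i) + ((q i : R) - ((q i)⁻¹ : Rˣ)) • T x

attribute [instance] HA.ring HA.alg

namespace HA

variable {X : Cox} {R : Type} [CommRing R] {q : Fin X.n → Rˣ} (D : HA X R q)

/-- `q i - (q i)⁻¹` -/
abbrev ze (_ : HA X R q) (i : Fin X.n) : R := (q i : R) - ((q i)⁻¹ : Rˣ)

/-- the generators -/
abbrev Ts (i : Fin X.n) : D.H := D.T (X.s i)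

/-- coefficient of `T w` -/
abbrev co (h : D.H) (w : X.W) : R := D.T.repr h w

/-- the canonical trace -/
def tau : D.H →ₗ[R] R := D.T.coord 1

/-- the anti-automorphism `T w ↦ T w⁻¹` -/
def flat : D.H →ₗ[R] D.H := D.T.constr R fun w => D.T w⁻¹

/-- the inverse of `T w` -/
def Ti (w : X.W) : D.H := Ring.inverse (D.T w)

/-- the span of the `T w`, `w` in a subset -/
def sp (S : Set X.W) : Submodule R D.H := Submodule.span R (D.T '' S)

end HA

section Weights

variable {Γ : Type} [AddCommGroup Γ]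

/-- the group ring -/
abbrev ZG (Γ : Type) [AddCommGroup Γ] : Type := AddMonoidAlgebra ℤ Γ

/-- the unit `v ^ γ` -/
def vU (γ : Γ) : (ZG Γ)ˣ where
  val := AddMonoidAlgebra.single γ 1
  inv := AddMonoidAlgebra.single (-γ) 1
  val_inv := by simp [AddMonoidAlgebra.single_mul_single, AddMonoidAlgebra.one_def]
  inv_val := by simp [AddMonoidAlgebra.single_mul_single, AddMonoidAlgebra.one_def]

/-- change of the group -/
def mapG {Γ' : Type} [AddCommGroup Γ'] (f : Γ →+ Γ') : ZG Γ →+* ZG Γ' :=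
  AddMonoidAlgebra.mapDomainRingHom ℤ f

/-- the involution `v ^ γ ↦ v ^ (-γ)` -/
def barG (Γ : Type) [AddCommGroup Γ] : ZG Γ →+* ZG Γ := mapG (negAddMonoidHom : Γ →+ Γ)

/-- the specialisation `v ^ γ ↦ 1` -/
def spc (Γ : Type) [AddCommGroup Γ] : ZG Γ →+* ℂ :=
  (AddMonoidAlgebra.lift ℤ ℂ Γ 1).toRingHom

/-- only negative exponents occur -/
def Neg [LE Γ] (r : ZG Γ) : Prop := ∀ γ : Γ, 0 ≤ γ → r.coeff γ = 0

end Weights

/-- a Hecke algebra with weights `L` and its Kazhdan-Lusztig basis -/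
structure KL (X : Cox) (Γ : Type) [AddCommGroup Γ] [LinearOrder Γ] [IsOrderedAddMonoid Γ]
    (L : Fin X.n → Γ) extends HA X (ZG Γ) (fun i => vU (L i)) where
  bar : H →+* H
  bar_smul : ∀ r h, bar (r • h) = barG Γ r • bar h
  bar_T : ∀ x, bar (T x) * T x⁻¹ = 1
  C : Module.Basis X.W (ZG Γ) H
  bar_C : ∀ x, bar (C x) = C x
  C_neg : ∀ x y, Neg (T.repr (C x - T x) y)

namespace KL

variable {X : Cox} {Γ : Type} [AddCommGroup Γ] [LinearOrder Γ] [IsOrderedAddMonoid Γ]
  {L : Fin X.n → Γ} (D : KL X Γ L)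

/-- the two-sided preorder -/
def Le (x y : X.W) : Prop := S.LeLR D.C x y

/-- same two-sided cell -/
def Sim (x y : X.W) : Prop := D.Le x y ∧ D.Le y x

/-- the two-sided cell of `z` -/
def cell (z : X.W) : Finset X.W := Finset.univ.filter fun y => D.Sim y z

/-- the span of the `C w`, `w` in a subset -/
def spC (S : Set X.W) : Submodule (ZG Γ) D.H := Submodule.span (ZG Γ) (D.C '' S)

/-- the matrix of left multiplication by `h` on the module with basis `C y`, `y ∈ S` -/
def lm (S : Finset X.W) (h : D.H) : Matrix S S (ZG Γ) :=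
  Matrix.of fun x y => D.C.repr (h * D.C y) x

/-- the character of the specialised module with basis `C y`, `y ∈ S` -/
def ch (S : Finset X.W) (w : X.W) : ℂ := ∑ y ∈ S, spc Γ (D.C.repr (D.T w * D.C y) y)

/-- `χ` belongs to the family of the cell of `z` -/
def Fam (z : X.W) (χ : X.W → ℂ) : Prop := ip (D.ch (D.cell z)) χ ≠ 0

/-- same Lusztig family -/
def Rel (χ χ' : X.W → ℂ) : Prop := ∃ z, D.Fam z χ ∧ D.Fam z χ'

end KL

end

end Pool.Agent.P.MP_1a0ecf_al.F
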