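import Pool.Agent.P.MP_1a0ecf_al.F.Face
import Pool.Agent.P.MP_1a0ecf_al.F.G6

/-! Package I1: dihedral groups and their characters. -/

namespace Pool.Agent.P.MP_1a0ecf_al.F

open Matrix MvPolynomial
open scoped Classical TensorProduct

noncomputable section

theorem i1_two_cos (m n : ℕ) : ((2 * Real.cos (2 * Real.pi * n / m) : ℝ) : ℂ) =
    Complex.exp (2 * Real.pi * Complex.I / m) ^ n +
      (Complex.exp (2 * Real.pi * Complex.I / m))⁻¹ ^ n := by
  rw [← Complex.exp_neg, ← Complex.exp_nat_mul, ← Complex.exp_nat_mul]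
  push_cast
  rw [Complex.two_cos]
  congr 2 <;> ring

theorem i1_geom {z : ℂ} {m : ℕ} (h1 : z ≠ 1) (hm : z ^ m = 1) :
    ∑ j ∈ Finset.range m, z ^ j = 0 := by
  rw [geom_sum_eq h1, hm, sub_self, zero_div]

theorem i1_cos_sum {m k : ℕ} (h0 : 0 < k) (hk : k < m) :
    ∑ j ∈ Finset.range m, ((2 * Real.cos (2 * Real.pi * j * k / m) : ℝ) : ℂ) = 0 := by
  have hp := Complex.isPrimitiveRoot_exp m (by omega)
  have e : ∀ j : ℕ, ((2 * Real.cos (2 * Real.pi * j * k / m) : ℝ) : ℂ) =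
      (Complex.exp (2 * Real.pi * Complex.I / m) ^ k) ^ j +
        ((Complex.exp (2 * Real.pi * Complex.I / m))⁻¹ ^ k) ^ j := fun j => by
    rw [← pow_mul, ← pow_mul, ← i1_two_cos, Nat.cast_mul, mul_right_comm _ (j : ℝ), mul_assoc _ (k : ℝ)]
  simp only [e, Finset.sum_add_distrib]
  rw [i1_geom (hp.pow_ne_one_of_pos_of_lt h0.ne' hk) (by rw [pow_right_comm, hp.pow_eq_one, one_pow]),
    i1_geom (hp.inv.pow_ne_one_of_pos_of_lt h0.ne' hk)
      (by rw [pow_right_comm, hp.inv.pow_eq_one, one_pow]), add_zero]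

theorem i1_alt (u v : ℂ) (p : ℕ) :
    ∑ k ∈ Finset.range (2 * p), (if Even k then u else v) = p * (u + v) := by
  induction p with
  | zero => simp
  | succ p ih =>
    rw [mul_add, mul_one, Finset.sum_range_succ, Finset.sum_range_succ, ih, if_pos (by simp),
      if_neg (by simp)]
    push_cast
    ring

theorem i1_rec {t : ℝ} {R : Matrix (Fin 2) (Fin 2) ℝ} (h : R * R = t • R - 1)
    (A : Matrix (Fin 2) (Fin 2) ℝ) (k : ℕ) :
    (R ^ (k + 2) * A).trace = t * (R ^ (k + 1) * A).trace - (R ^ k * A).trace := by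
  rw [pow_add, pow_two, h, mul_sub, mul_one, Matrix.mul_smul, ← pow_succ, sub_mul, Matrix.smul_mul,
    trace_sub, trace_smul, smul_eq_mul]

namespace Cox

variable {X : Cox}

/-- the rotation -/
def rot (X : Cox) : X.W := X.sN 0 * X.sN 1

/-- `χ` is the linear character with values `η₀`, `η₁` on the generators -/
def IsLin (χ : X.W → ℂ) (η₀ η₁ : ℂ) : Prop := (η₀ = 1 ∨ η₀ = -1) ∧ (η₁ = 1 ∨ η₁ = -1) ∧
  ∀ k : ℕ, χ (X.rot ^ k) = (η₀ * η₁) ^ k ∧ χ (X.rot ^ k * X.sN 0) = (η₀ * η₁) ^ k * η₀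

/-- `χ` is the character of degree two with index `j` -/
def IsTwo (χ : X.W → ℂ) (m j : ℕ) : Prop := ∀ k : ℕ,
  χ (X.rot ^ k) = (2 * Real.cos (2 * Real.pi * j * k / m) : ℝ) ∧ χ (X.rot ^ k * X.sN 0) = 0

variable {m : ℕ} (h : X.Is (pathM 0 m)) (hn : X.n = 2)

private def i0 : Fin X.n := ⟨0, by omega⟩

private def i1 : Fin X.n := ⟨1, by omega⟩

private theorem s0 : X.sN 0 = X.s (i0 hn) := dif_pos _

private theorem s1 : X.sN 1 = X.s (i1 hn) := dif_pos _

private theorem i01 : i0 hn ≠ i1 hn := by simp [i0, i1]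

private theorem idx (i : Fin X.n) : i = i0 hn ∨ i = i1 hn := by
  have := i.2
  simp only [i0, i1, Fin.ext_iff]
  omega

include hn in
private theorem aa : X.sN 0 * X.sN 0 = 1 := by rw [s0 hn, X.cs.simple_mul_simple_self]

include hn in
private theorem bb : X.sN 1 * X.sN 1 = 1 := by rw [s1 hn, X.cs.simple_mul_simple_self]

include hn in
private theorem a_inv : (X.sN 0)⁻¹ = X.sN 0 := inv_eq_of_mul_eq_one_right (aa hn)

include hn in
private theorem a_rot (k : ℕ) : X.sN 0 * X.rot ^ k * (X.sN 0)⁻¹ = (X.rot ^ k)⁻¹ := by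
  rw [← conj_pow, ← inv_pow, rot, ← mul_assoc, aa hn, one_mul, _root_.mul_inv_rev,
    inv_eq_of_mul_eq_one_right (bb hn)]

include hn in
private theorem ev (j : ℕ) :
    X.rot ^ (2 * j) * X.sN 0 = X.rot ^ j * X.sN 0 * (X.rot ^ j)⁻¹ := by
  rw [← a_rot hn, a_inv hn, ← mul_assoc, ← mul_assoc, mul_assoc _ (X.sN 0) (X.sN 0), aa hn, mul_one,
    two_mul, pow_add]

include hn in
private theorem od (j : ℕ) :
    X.rot ^ (2 * j + 1) * X.sN 0 = X.rot ^ (j + 1) * X.sN 1 * (X.rot ^ (j + 1))⁻¹ := by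
  have e : X.rot ^ (j + 1) * X.sN 1 = X.rot ^ j * X.sN 0 := by
    rw [pow_succ, rot, mul_assoc, mul_assoc, bb hn, mul_one]
  rw [e, ← a_rot hn, a_inv hn, ← mul_assoc, ← mul_assoc, mul_assoc _ (X.sN 0) (X.sN 0), aa hn, mul_one,
    ← pow_add, two_mul, add_assoc]

include hn in
private theorem refl_rot (k : ℕ) : X.cs.IsReflection (X.rot ^ k * X.sN 0) := by
  obtain ⟨j, rfl | rfl⟩ := k.even_or_odd'
  · exact ⟨_, _, by rw [ev hn, s0 hn]⟩
  · exact ⟨_, _, by rw [od hn, s1 hn]⟩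

include hn in
private theorem sgn_rot (k : ℕ) : X.sgn (X.rot ^ k) = 1 := by
  have e : X.sgn X.rot = 1 := by
    rw [rot, X.sgn_mul, s0 hn, s1 hn, X.sgn_refl (X.cs.isReflection_simple _),
      X.sgn_refl (X.cs.isReflection_simple _)]
    norm_num
  induction k with
  | zero => simp [Cox0.sgn]
  | succ k ih => rw [pow_succ, X.sgn_mul, ih, e, one_mul]

include hn in
private theorem not_refl (k : ℕ) : ¬ X.cs.IsReflection (X.rot ^ k) := fun e => by
  have := X.sgn_refl e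
  rw [sgn_rot hn] at this
  norm_num at this

include h hn

private theorem M01 : X.M (i0 hn) (i1 hn) = m := by
  rw [h]
  simp [pathM, i0, i1]

private theorem rot_pow : X.rot ^ m = 1 := by
  rw [rot, s0 hn, s1 hn, ← M01 h hn, X.cs.simple_mul_simple_pow]

private theorem mats : ∃ τ : X.W →* Matrix (Fin 2) (Fin 2) ℝ,
    τ (X.sN 0) = !![-1, 2 * Real.cos (Real.pi / m); 0, 1] ∧
    τ (X.sN 1) = !![1, 0; 2 * Real.cos (Real.pi / m), -1] ∧
    ∀ w, (X.σK ℂ w).trace = ((τ w).trace : ℝ) := by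
  have e := M01 h hn
  have e' := X.M.symmetric (i1 hn) (i0 hn)
  rw [e] at e'
  rw [s0 hn, s1 hn]
  obtain ⟨⟨n, M, W, cs, hM⟩⟩ := X
  obtain rfl : n = 2 := hn
  refine ⟨Cox0.σ _, ?_, ?_, fun w => ?_⟩
  · rw [Cox0.σ_simple]
    ext p q
    fin_cases p <;> fin_cases q <;>
      simp [Cox0.sr, Cox0.K, vecMulVec_apply, i0, i1] at e e' ⊢
    · norm_num
    · rw [e]
  · rw [Cox0.σ_simple]
    ext p q
    fin_cases p <;> fin_cases q <;>
      simp [Cox0.sr, Cox0.K, vecMulVec_apply, i0, i1] at e e' ⊢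
    · rw [e']
    · norm_num
  · rw [trace_fin_two, trace_fin_two, Complex.ofReal_add]
    rfl

private theorem lift2 {N : Type} [Monoid N] {x y : N} (hx : x * x = 1) (hy : y * y = 1)
    (hm : (x * y) ^ m = 1) : ∃ φ : X.W →* N, φ (X.sN 0) = x ∧ φ (X.sN 1) = y := by
  have e := M01 h hn
  have e' := X.M.symmetric (i1 hn) (i0 hn)
  have hm' : (y * x) ^ m = 1 := by
    have a : x * (y * x) ^ m = x := by rw [← mul_pow_mul, hm, one_mul]
    rw [← one_mul (_ ^ m), ← hx, mul_assoc, a]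
  have hl : X.M.IsLiftable fun i => if i = i0 hn then x else y := fun i j => by
    rcases idx hn i with rfl | rfl <;> rcases idx hn j with rfl | rfl <;>
      simp [(i01 hn).symm, hx, hy, e, e', hm, hm']
  refine ⟨X.cs.lift ⟨_, hl⟩, ?_, ?_⟩
  · rw [s0 hn, X.cs.lift_apply_simple, if_pos rfl]
  · rw [s1 hn, X.cs.lift_apply_simple, if_neg (i01 hn).symm]

theorem two_le : 2 ≤ m := M01 h hn ▸ X.two_le_M (i01 hn)

theorem dih_trace (k : ℕ) :
    (X.σK ℂ (X.rot ^ k)).trace = (2 * Real.cos (2 * Real.pi * k / m) : ℝ) ∧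
      (X.σK ℂ (X.rot ^ k * X.sN 0)).trace = 0 := by
  obtain ⟨τ, a, b, c⟩ := mats h hn
  have e0 : τ X.rot = !![(2 * Real.cos (Real.pi / m)) ^ 2 - 1, -(2 * Real.cos (Real.pi / m));
      2 * Real.cos (Real.pi / m), -1] := by
    rw [rot, map_mul, a, b]
    ext p q
    fin_cases p <;> fin_cases q <;> simp [Matrix.mul_apply, Fin.sum_univ_two]
    ring
  have e1 : τ X.rot * τ X.rot = ((2 * Real.cos (Real.pi / m)) ^ 2 - 2) • τ X.rot - 1 := by
    rw [e0]
    ext p q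
    fin_cases p <;> fin_cases q <;> simp [Matrix.mul_apply, Fin.sum_univ_two] <;> ring
  have e2 : (2 * Real.cos (Real.pi / m)) ^ 2 - 2 = 2 * Real.cos (2 * Real.pi / m) := by
    rw [mul_div_assoc, Real.cos_two_mul]
    ring
  rw [c, c, map_mul, map_pow, Complex.ofReal_eq_zero, Complex.ofReal_inj, ← mul_one (_ ^ k)]
  induction k using Nat.twoStepInduction with
  | zero => simp [a, trace_fin_two]
  | one =>
    rw [pow_one, e0, a, Nat.cast_one, mul_one, mul_one, ← e2]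
    simp [trace_fin_two]
    constructor <;> ring
  | more k h0 h1 =>
    simp only [mul_one] at h0 h1 ⊢
    have a1 := i1_rec e1 1 k
    simp only [mul_one] at a1
    rw [i1_rec e1, a1, h0.1, h0.2, h1.1, h1.2, e2]
    have b1 : 2 * Real.pi * ((k + 2 : ℕ) : ℝ) / m =
        2 * Real.pi * ((k + 1 : ℕ) : ℝ) / m + 2 * Real.pi / m := by push_cast; ring
    have b2 : 2 * Real.pi * (k : ℝ) / m =
        2 * Real.pi * ((k + 1 : ℕ) : ℝ) / m - 2 * Real.pi / m := by push_cast; ring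
    rw [b1, b2, Real.cos_add, Real.cos_sub]
    constructor <;> ring

theorem rot_order : orderOf X.rot = m := by
  have h2 := two_le h hn
  refine (orderOf_eq_iff (by omega)).2 ⟨rot_pow h hn, fun k hk h0 e => ?_⟩
  have a := (dih_trace h hn k).1
  have b := (dih_trace h hn 0).1
  rw [pow_zero, ← e, a, Complex.ofReal_inj, Nat.cast_zero, mul_zero, zero_div, Real.cos_zero,
    mul_right_inj' two_ne_zero] at b
  have k0 : (0 : ℝ) < k := by exact_mod_cast h0
  have k1 : (k : ℝ) < m := by exact_mod_cast hk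
  have p := Real.pi_pos
  have c : 0 < 2 * Real.pi * k / m := div_pos (by positivity) (by linarith)
  refine c.ne' ((Real.cos_eq_one_iff_of_lt_of_lt (by linarith) ?_).1 b)
  rw [div_lt_iff₀ (by linarith)]
  nlinarith

theorem dih_cases (w : X.W) : ∃ k < m, w = X.rot ^ k ∨ w = X.rot ^ k * X.sN 0 := by
  have h2 := two_le h hn
  suffices H : ∃ k, w = X.rot ^ k ∨ w = X.rot ^ k * X.sN 0 by
    obtain ⟨k, hk⟩ := H
    refine ⟨k % m, Nat.mod_lt _ (by omega), ?_⟩
    rwa [← rot_order h hn, pow_mod_orderOf]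
  have e : X.sN 1 = X.rot ^ (m - 1) * X.sN 0 := by
    have a := rot_pow h hn
    rw [show m = m - 1 + 1 by omega, pow_succ, rot, ← mul_assoc] at a
    rw [← inv_eq_of_mul_eq_one_right (bb hn), eq_comm]
    exact eq_inv_of_mul_eq_one_left a
  induction w using X.cs.simple_induction_right with
  | one => exact ⟨0, Or.inl (pow_zero _).symm⟩
  | mul_simple_right w i ih =>
    obtain ⟨k, rfl | rfl⟩ := ih <;> rcases idx hn i with rfl | rfl
    · exact ⟨k, Or.inr (by rw [s0 hn])⟩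
    · exact ⟨k + (m - 1), Or.inr (by rw [pow_add, mul_assoc, ← e, s1 hn])⟩
    · exact ⟨k, Or.inl (by rw [s0 hn, X.cs.simple_mul_simple_cancel_right])⟩
    · exact ⟨k + 1, Or.inl (by rw [pow_succ, mul_assoc, rot, s1 hn])⟩

private theorem inj0 : Set.InjOn (fun k => X.rot ^ k) (Finset.range m) := by
  rw [Finset.coe_range, ← rot_order h hn]
  exact pow_injOn_Iio_orderOf

private theorem inj1 : Set.InjOn (fun k => X.rot ^ k * X.sN 0) (Finset.range m) :=
  fun _ a _ b e => inj0 h hn a b (mul_right_cancel e)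

theorem dih_refls {N : Type} [AddCommMonoid N] (f : X.W → N) :
    ∑ t ∈ X.refls, f t = ∑ k ∈ Finset.range m, f (X.rot ^ k * X.sN 0) := by
  rw [← Finset.sum_image (inj1 h hn)]
  congr 1
  ext t
  rw [mem_refls, Finset.mem_image]
  refine ⟨fun ht => ?_, by rintro ⟨k, -, rfl⟩; exact refl_rot hn k⟩
  obtain ⟨k, hk, rfl | rfl⟩ := dih_cases h hn t
  · exact absurd ht (not_refl hn k)
  · exact ⟨k, Finset.mem_range.2 hk, rfl⟩

theorem dih_sum {N : Type} [AddCommMonoid N] (f : X.W → N) :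
    ∑ w, f w = ∑ k ∈ Finset.range m, (f (X.rot ^ k) + f (X.rot ^ k * X.sN 0)) := by
  rw [Finset.sum_add_distrib, ← dih_refls h hn, ← Finset.sum_image (inj0 h hn), add_comm,
    ← Finset.sum_filter_add_sum_filter_not _ X.cs.IsReflection]
  congr 2
  ext t
  rw [Finset.mem_filter, Finset.mem_image]
  refine ⟨fun ht => ?_, by rintro ⟨k, -, rfl⟩; exact ⟨Finset.mem_univ _, not_refl hn k⟩⟩
  obtain ⟨k, hk, rfl | rfl⟩ := dih_cases h hn t
  · exact ⟨k, Finset.mem_range.2 hk, rfl⟩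
  · exact absurd (refl_rot hn k) ht.2

theorem dih_card : Nat.card X.W = 2 * m := by
  have := dih_sum h hn fun _ => (1 : ℕ)
  simpa [mul_comm] using this

theorem dih_wt (κ : Wt X) (k : ℕ) :
    κ (X.rot ^ k * X.sN 0) = if Even k then κ (X.sN 0) else κ (X.sN 1) := by
  have _ := h
  obtain ⟨j, rfl | rfl⟩ := k.even_or_odd'
  · rw [ev hn, if_pos (by simp), s0 hn, κ.cl _ _ (X.cs.isReflection_simple _)]
  · rw [od hn, if_neg (by simp), s1 hn, κ.cl _ _ (X.cs.isReflection_simple _)]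

private theorem ip_dih (f : X.W → ℂ) {g : X.W → ℂ} (hg : IsCl g) :
    ip f g = (2 * m : ℂ)⁻¹ * ∑ k ∈ Finset.range m, (f (X.rot ^ k) * g (X.rot ^ k) +
      f (X.rot ^ k * X.sN 0) * g (X.rot ^ k * X.sN 0)) := by
  rw [ip, dih_card h hn, dih_sum h hn]
  simp only [(refl_rot hn _).inv, ← a_rot hn, hg _ _]
  push_cast
  rfl

theorem exists_lin {η₀ η₁ : ℂ} (h0 : η₀ = 1 ∨ η₀ = -1) (h1 : η₁ = 1 ∨ η₁ = -1)
    (ho : Odd m → η₀ = η₁) : ∃ χ : X.W → ℂ, IsIrr χ ∧ IsLin χ η₀ η₁ := by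
  have a0 : η₀ * η₀ = 1 := by rcases h0 with rfl | rfl <;> norm_num
  have a1 : η₁ * η₁ = 1 := by rcases h1 with rfl | rfl <;> norm_num
  obtain ⟨φ, b0, b1⟩ := lift2 h hn a0 a1 (by
    obtain ⟨j, rfl | rfl⟩ := m.even_or_odd'
    · rw [pow_mul, sq, mul_mul_mul_comm, a0, a1, one_mul, one_pow]
    · rw [← ho (by simp), a0, one_pow])
  exact ⟨φ, isIrr_linear φ, h0, h1, fun k => by simp only [map_mul, map_pow, rot, b0, b1, and_self]⟩

theorem exists_two {j : ℕ} (h0 : 0 < j) (hj : 2 * j < m) :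
    ∃ χ : X.W → ℂ, IsIrr χ ∧ IsTwo χ m j := by
  have hp := Complex.isPrimitiveRoot_exp m (by omega)
  set z := Complex.exp (2 * Real.pi * Complex.I / m) ^ j with hz
  have z0 : z ≠ 0 := pow_ne_zero _ (Complex.exp_ne_zero _)
  have e0 : ∀ k : ℕ, ((!![0, 1; 1, 0] * !![0, z⁻¹; z, 0] : Matrix (Fin 2) (Fin 2) ℂ)) ^ k =
      !![z ^ k, 0; 0, z⁻¹ ^ k] := fun k => by
    induction k with
    | zero => simp [one_fin_two]
    | succ k ih => rw [pow_succ, ih]; simp [pow_succ]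
  have zm : z ^ m = 1 := by rw [hz, pow_right_comm, hp.pow_eq_one, one_pow]
  obtain ⟨φ, b0, b1⟩ := lift2 h hn (x := (!![0, 1; 1, 0] : Matrix (Fin 2) (Fin 2) ℂ))
    (y := !![0, z⁻¹; z, 0]) (by simp [one_fin_two]) (by simp [one_fin_two, z0])
    (by rw [e0, inv_pow, zm, inv_one, one_fin_two])
  have c := isCh_matrix φ
  have t : IsTwo (fun w => (φ w).trace) m j := fun k => by
    simp only [map_mul, map_pow, rot, b0, b1, e0]
    refine ⟨?_, by simp [trace_fin_two]⟩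
    rw [mul_assoc _ (j : ℝ), ← Nat.cast_mul, i1_two_cos, pow_mul, pow_mul, inv_pow _ j]
    simp [trace_fin_two, hz]
  refine ⟨_, c.vc.isIrr ?_ (by simp), t⟩
  have m0 : (m : ℂ) ≠ 0 := Nat.cast_ne_zero.2 (by omega)
  have e1 : ∀ k : ℕ, ((2 * Real.cos (2 * Real.pi * j * k / m) : ℝ) : ℂ) *
      ((2 * Real.cos (2 * Real.pi * j * k / m) : ℝ) : ℂ) =
      ((2 * Real.cos (2 * Real.pi * k * (2 * j : ℕ) / m) : ℝ) : ℂ) + 2 := fun k => by
    have : 2 * Real.pi * k * (2 * j : ℕ) / m = 2 * (2 * Real.pi * j * k / m) := by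
      push_cast
      ring
    rw [this, Real.cos_two_mul]
    push_cast
    ring
  rw [ip_dih h hn _ c.isCl]
  simp only [(t _).1, (t _).2, e1, mul_zero, add_zero, Finset.sum_add_distrib,
    i1_cos_sum (show 0 < 2 * j by omega) hj]
  simp only [Finset.sum_const, Finset.card_range, nsmul_eq_mul]
  field_simp
  simp

theorem irr_cases {χ : X.W → ℂ} (hχ : IsIrr χ) :
    (∃ η₀ η₁, (Odd m → η₀ = η₁) ∧ IsLin χ η₀ η₁) ∨ ∃ j, 0 < j ∧ 2 * j < m ∧ IsTwo χ m j := by
  by_contra hc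
  rw [not_or] at hc
  have h2 := two_le h hn
  have m0 : (2 * m : ℂ)⁻¹ ≠ 0 := inv_ne_zero (mul_ne_zero two_ne_zero (Nat.cast_ne_zero.2 (by omega)))
  have mr : (m : ℝ) ≠ 0 := Nat.cast_ne_zero.2 (by omega)
  have l1 : ∀ η₀ η₁ : ℂ, (η₀ = 1 ∨ η₀ = -1) → (η₁ = 1 ∨ η₁ = -1) → (Odd m → η₀ = η₁) →
      ∑ k ∈ Finset.range m, χ (X.rot ^ k) * (η₀ * η₁) ^ k +
        η₀ * ∑ k ∈ Finset.range m, χ (X.rot ^ k * X.sN 0) * (η₀ * η₁) ^ k = 0 := by
    intro η₀ η₁ a0 a1 ao
    obtain ⟨ψ, b0, b1⟩ := exists_lin h hn a0 a1 ao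
    have := hχ.ip_eq b0
    rw [if_neg fun e : χ = ψ => hc.1 ⟨η₀, η₁, ao, e ▸ b1⟩, ip_dih h hn _ b0.isCh.isCl,
      mul_eq_zero_iff_left m0] at this
    rw [← this, Finset.mul_sum, ← Finset.sum_add_distrib]
    exact Finset.sum_congr rfl fun k _ => by rw [(b1.2.2 k).1, (b1.2.2 k).2]; ring
  set S : ℕ → ℂ := fun j => ∑ k ∈ Finset.range m,
    χ (X.rot ^ k) * ((2 * Real.cos (2 * Real.pi * j * k / m) : ℝ) : ℂ) with hS
  have l2 : ∀ j, 0 < j → 2 * j < m → S j = 0 := fun j a0 a1 => by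
    obtain ⟨ψ, b0, b1⟩ := exists_two h hn a0 a1
    have := hχ.ip_eq b0
    rw [if_neg fun e : χ = ψ => hc.2 ⟨j, a0, a1, e ▸ b1⟩, ip_dih h hn _ b0.isCh.isCl,
      mul_eq_zero_iff_left m0] at this
    simpa only [(b1 _).1, (b1 _).2, mul_zero, add_zero] using this
  have l3 : ∀ j < m, S j = 0 := fun j hj => by
    rcases Nat.eq_zero_or_pos j with rfl | j0
    · have a := l1 1 1 (Or.inl rfl) (Or.inl rfl) fun _ => rfl
      have b := l1 (-1) (-1) (Or.inr rfl) (Or.inr rfl) fun _ => rfl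
      simp only [neg_mul, mul_neg, neg_neg, mul_one, one_pow, one_mul] at a b
      simp only [hS, Nat.cast_zero, mul_zero, zero_mul, zero_div, Real.cos_zero, ← Finset.sum_mul]
      exact mul_eq_zero_of_left (by linear_combination (a + b) / 2) _
    rcases lt_trichotomy (2 * j) m with a | a | a
    · exact l2 j j0 a
    · have no : ¬ Odd m := by rw [← a]; simp
      have a1 := l1 1 (-1) (Or.inl rfl) (Or.inr rfl) fun e => absurd e no
      have a2 := l1 (-1) 1 (Or.inr rfl) (Or.inl rfl) fun e => absurd e no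
      have e : ∀ k : ℕ, 2 * Real.pi * j * k / m = k * Real.pi := fun k => by
        rw [div_eq_iff mr, ← a]
        push_cast
        ring
      simp only [neg_mul, mul_one, one_mul] at a1 a2
      simp only [hS, e, Real.cos_nat_mul_pi]
      push_cast
      simp only [mul_left_comm _ (2 : ℂ), ← Finset.mul_sum]
      linear_combination a1 + a2
    · rw [← l2 (m - j) (by omega) (by omega)]
      refine Finset.sum_congr rfl fun k _ => ?_
      have e : 2 * Real.pi * (m - j : ℕ) * k / m = k * (2 * Real.pi) - 2 * Real.pi * j * k / m := by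
        rw [Nat.cast_sub hj.le]
        field_simp
      rw [e, Real.cos_nat_mul_two_pi_sub]
  have l4 := Finset.sum_eq_zero fun j hj => l3 j (Finset.mem_range.1 hj)
  simp only [hS] at l4
  rw [Finset.sum_comm, Finset.sum_eq_single 0 (fun k hk k0 => by
    rw [← Finset.mul_sum, i1_cos_sum (Nat.pos_of_ne_zero k0) (Finset.mem_range.1 hk), mul_zero])
    (fun e => absurd (Finset.mem_range.2 (by omega)) e)] at l4
  simp [hχ.one_ne] at l4
  omega

theorem IsLin.unique {χ χ' : X.W → ℂ} {η₀ η₁ : ℂ} (e : IsLin χ η₀ η₁) (e' : IsLin χ' η₀ η₁) :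
    χ = χ' := by
  funext w
  obtain ⟨k, -, rfl | rfl⟩ := dih_cases h hn w
  · rw [(e.2.2 k).1, (e'.2.2 k).1]
  · rw [(e.2.2 k).2, (e'.2.2 k).2]

theorem IsTwo.unique {χ χ' : X.W → ℂ} {j : ℕ} (e : IsTwo χ m j) (e' : IsTwo χ' m j) :
    χ = χ' := by
  funext w
  obtain ⟨k, -, rfl | rfl⟩ := dih_cases h hn w
  · rw [(e k).1, (e' k).1]
  · rw [(e k).2, (e' k).2]

theorem IsTwo.om {χ : X.W → ℂ} {j : ℕ} (e : IsTwo χ m j) (κ : X.W → ℂ) : X.om κ χ = 0 := by
  rw [Cox.om, dih_refls h hn]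
  simp only [(e _).2, mul_zero, Finset.sum_const_zero, zero_div]

theorem IsLin.om {χ : X.W → ℂ} {η₀ η₁ : ℂ} (ho : Odd m → η₀ = η₁) (e : IsLin χ η₀ η₁) (κ : Wt X) :
    X.om κ χ = m * (κ (X.sN 0) * η₀ + κ (X.sN 1) * η₁) / 2 := by
  have a0 : η₀ * η₀ = 1 := by rcases e.1 with rfl | rfl <;> norm_num
  have a1 : (η₀ * η₁) ^ 2 = 1 := by
    rcases e.1 with rfl | rfl <;> rcases e.2.1 with rfl | rfl <;> norm_num
  have a2 : χ 1 = 1 := by simpa using (e.2.2 0).1
  have a3 : ∀ k, κ (X.rot ^ k * X.sN 0) * χ (X.rot ^ k * X.sN 0) =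
      if Even k then κ (X.sN 0) * η₀ else κ (X.sN 1) * η₁ := fun k => by
    rw [dih_wt h hn, (e.2.2 k).2]
    obtain ⟨j, rfl | rfl⟩ := k.even_or_odd'
    · rw [if_pos (by simp), if_pos (by simp), pow_mul, a1, one_pow, one_mul]
    · rw [if_neg (by simp), if_neg (by simp), pow_succ, pow_mul, a1, one_pow, one_mul,
        mul_right_comm η₀, a0, one_mul]
  rw [Cox.om, dih_refls h hn, a2, div_one]
  simp only [a3]
  rcases Nat.even_or_odd m with ⟨p, hp⟩ | hm
  · rw [hp, ← two_mul, i1_alt]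
    push_cast
    ring
  · have b := dih_wt h hn κ m
    rw [rot_pow h hn, one_mul, if_neg (Nat.not_even_iff_odd.2 hm)] at b
    simp only [← b, ← ho hm, ite_self, Finset.sum_const, Finset.card_range, nsmul_eq_mul]
    ring

end Cox

end

end Pool.Agent.P.MP_1a0ecf_al.F
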