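import Pool.Agent.P.MP_1a0ecf_al.F.I1
import Pool.Agent.P.MP_1a0ecf_al.F.C9

/-! Package I2: dihedral groups: Calogero-Moser families. -/

namespace Pool.Agent.P.MP_1a0ecf_al.F

open Matrix MvPolynomial
open scoped Classical TensorProduct

noncomputable section

namespace Cox

variable {X : Cox}

theorem i2_sN_sq (k : ℕ) : X.sN k * X.sN k = 1 := by
  unfold sN
  split_ifs
  · exact X.cs.simple_mul_simple_self _
  · exact one_mul 1

theorem i2_refl_sq (i : ℕ) : (X.rot ^ i * X.sN 0) * (X.rot ^ i * X.sN 0) = 1 := by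
  have e : X.sN 0 * X.rot = X.rot⁻¹ * X.sN 0 := by
    have h0 := i2_sN_sq (X := X) 0
    have h1 := i2_sN_sq (X := X) 1
    rw [rot, _root_.mul_inv_rev, inv_eq_of_mul_eq_one_right h0, inv_eq_of_mul_eq_one_right h1,
      ← mul_assoc, h0, mul_assoc, h0, one_mul, mul_one]
  have e' : X.sN 0 * X.rot ^ i = X.rot⁻¹ ^ i * X.sN 0 := SemiconjBy.pow_right e i
  calc (X.rot ^ i * X.sN 0) * (X.rot ^ i * X.sN 0)
      = X.rot ^ i * (X.sN 0 * X.rot ^ i) * X.sN 0 := by simp only [mul_assoc]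
    _ = (X.rot ^ i * X.rot⁻¹ ^ i) * (X.sN 0 * X.sN 0) := by rw [e']; simp only [mul_assoc]
    _ = 1 := by rw [i2_sN_sq, inv_pow, mul_inv_cancel, one_mul]

theorem i2_refl_pow (i p : ℕ) :
    (X.rot ^ i * X.sN 0) ^ p = if Even p then 1 else X.rot ^ i * X.sN 0 := by
  split_ifs with hp
  · obtain ⟨q, rfl⟩ := hp
    rw [← two_mul, pow_mul, pow_two, i2_refl_sq, one_pow]
  · obtain ⟨q, rfl⟩ := Nat.not_even_iff_odd.1 hp
    rw [pow_succ, pow_mul, pow_two, i2_refl_sq, one_pow, one_mul]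

theorem i2_lin_eq {χ : X.W → ℂ} {η₀ η₁ η₀' η₁' : ℂ} (e : IsLin χ η₀ η₁) (e' : IsLin χ η₀' η₁') :
    η₀ = η₀' ∧ η₁ = η₁' := by
  have a := (e.2.2 0).2
  have a' := (e'.2.2 0).2
  have b := (e.2.2 1).1
  have b' := (e'.2.2 1).1
  rw [pow_zero (η₀ * η₁), one_mul η₀] at a
  rw [pow_zero (η₀' * η₁'), one_mul η₀'] at a'
  rw [pow_one (η₀ * η₁)] at b
  rw [pow_one (η₀' * η₁')] at b'
  have h0 : η₀ = η₀' := a.symm.trans a'
  refine ⟨h0, ?_⟩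
  have hne : η₀ ≠ 0 := by rcases e.1 with h | h <;> simp [h]
  have := b.symm.trans b'
  rw [← h0] at this
  exact mul_left_cancel₀ hne this

theorem i2_ip_lin {χ χ' : X.W → ℂ} {η₀ η₁ η₀' η₁' : ℂ} (hχ : IsIrr χ) (hχ' : IsIrr χ')
    (e : IsLin χ η₀ η₁) (e' : IsLin χ' η₀' η₁') (hne : η₀ ≠ η₀' ∨ η₁ ≠ η₁') : ip χ χ' = 0 := by
  rw [hχ.ip_eq hχ', if_neg]
  rintro rfl
  have := i2_lin_eq e e'
  tauto

theorem i2_ip_add {g μ : X.W → ℂ} (hg : IsCh g) (hμ : IsIrr μ) : ip (g + μ) μ ≠ 0 := by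
  rw [T0.ip_add_ne hg hμ.isCh hμ.isCh]
  right
  rw [hμ.ip_eq hμ, if_pos rfl]
  exact one_ne_zero

theorem i2_pm {η : ℂ} (h : η = 1 ∨ η = -1) : -η = 1 ∨ -η = -1 := by
  rcases h with h | h <;> simp [h]

theorem i2_ne {η : ℂ} (h : η = 1 ∨ η = -1) : η ≠ -η := by
  rcases h with h | h <;> rw [h] <;> norm_num

theorem i2_two_zero {m : ℕ} {χ χ' : X.W → ℂ} (e : IsLin χ 1 1) (e' : IsLin χ' (-1) (-1)) :
    IsTwo (χ + χ') m 0 := by
  intro k
  rw [Pi.add_apply, Pi.add_apply, (e.2.2 k).1, (e.2.2 k).2, (e'.2.2 k).1, (e'.2.2 k).2]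
  constructor
  · simp
    norm_num
  · simp

theorem i2_cos_half {p : ℕ} (hp : 0 < p) (k : ℕ) :
    Real.cos (2 * Real.pi * p * k / (2 * p : ℕ)) = (-1) ^ k := by
  have hp' : (p : ℝ) ≠ 0 := by positivity
  rw [← Real.cos_nat_mul_pi]
  congr 1
  push_cast
  field_simp

theorem i2_two_half {p : ℕ} (hp : 0 < p) {χ χ' : X.W → ℂ} {η : ℂ} (e : IsLin χ η (-η))
    (e' : IsLin χ' (-η) η) : IsTwo (χ' + χ) (2 * p) p := by
  intro k
  have hη : η * η = 1 := by rcases e.1 with h | h <;> simp [h]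
  rw [Pi.add_apply, Pi.add_apply, (e.2.2 k).1, (e.2.2 k).2, (e'.2.2 k).1, (e'.2.2 k).2,
    i2_cos_half hp, mul_neg, neg_mul, hη]
  constructor
  · push_cast
    ring
  · ring

section

variable {m : ℕ} (h : X.Is (pathM 0 m)) (hn : X.n = 2)

include h hn

theorem i2_prod {j : ℕ} {χ χ₀ χ₂ : X.W → ℂ} (e : IsTwo χ m (j + 1)) (e₀ : IsTwo χ₀ m j)
    (e₂ : IsTwo χ₂ m (j + 2)) :
    (fun w => (X.σK ℂ (w ^ 1)).trace * χ w) = χ₀ + χ₂ := by
  funext w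
  obtain ⟨k, -, rfl | rfl⟩ := dih_cases h hn w
  · rw [pow_one, (dih_trace h hn k).1, Pi.add_apply, (e k).1, (e₀ k).1, (e₂ k).1]
    have a0 : 2 * Real.pi * (j : ℕ) * k / m =
        2 * Real.pi * (j + 1 : ℕ) * k / m - 2 * Real.pi * k / m := by
      push_cast
      ring
    have a2 : 2 * Real.pi * (j + 2 : ℕ) * k / m =
        2 * Real.pi * (j + 1 : ℕ) * k / m + 2 * Real.pi * k / m := by
      push_cast
      ring
    rw [a0, a2, Real.cos_sub, Real.cos_add, ← Complex.ofReal_mul, ← Complex.ofReal_add]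
    congr 1
    ring
  · rw [Pi.add_apply, (e k).2, (e₀ k).2, (e₂ k).2, mul_zero, add_zero]

theorem i2_exists {j : ℕ} (hj : 2 * j < m) : ∃ χ : X.W → ℂ, IsCh χ ∧ IsTwo χ m j := by
  rcases Nat.eq_zero_or_pos j with rfl | h0
  · obtain ⟨χ, hχ, e⟩ := exists_lin h hn (η₀ := 1) (η₁ := 1) (Or.inl rfl) (Or.inl rfl)
      fun _ => rfl
    obtain ⟨χ', hχ', e'⟩ := exists_lin h hn (η₀ := -1) (η₁ := -1) (Or.inr rfl) (Or.inr rfl)
      fun _ => rfl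
    exact ⟨χ + χ', hχ.isCh.add hχ'.isCh, i2_two_zero e e'⟩
  · obtain ⟨χ, hχ, e⟩ := exists_two h hn h0 hj
    exact ⟨χ, hχ.isCh, e⟩

variable {κ : Wt X} (A : CA X κ)

theorem i2_zero (h0 : κ (X.sN 0) = 0) (h1 : κ (X.sN 1) = 0) (χ χ' : X.W → ℂ) : A.rel χ χ' := by
  refine A.rel_of_zero (fun t ht => ?_) χ χ'
  have e := dih_refls h hn (fun t => if κ t = 0 then 0 else (1 : ℕ))
  rw [Finset.sum_eq_zero (s := Finset.range m), Finset.sum_eq_zero_iff] at e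
  · have := e t (Finset.mem_filter.2 ⟨Finset.mem_univ _, ht⟩)
    by_contra hne
    simp [hne] at this
  · intro k _
    rw [if_pos]
    rw [dih_wt h hn]
    split_ifs <;> assumption

theorem i2_rel_two {ψ : X.W → ℂ} (e1 : IsTwo ψ m 1) (j : ℕ) :
    ∀ χ : X.W → ℂ, 2 * (j + 1) < m → IsIrr χ → IsTwo χ m (j + 1) → A.rel ψ χ := by
  induction j with
  | zero =>
    intro χ _ _ e
    rw [IsTwo.unique h hn e1 e]
    exact A.rel_refl χ
  | succ j ih =>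
    intro χ hj hχ e
    obtain ⟨χ₁, hχ₁, e₁⟩ := exists_two h hn (j := j + 1) (by omega) (by omega)
    obtain ⟨χ₀, hχ₀, e₀⟩ := i2_exists h hn (j := j) (by omega)
    refine (ih χ₁ (by omega) hχ₁ e₁).trans ?_ hχ₁.one_ne
    refine A.link hχ₁ hχ ?_ one_pos ?_
    · rw [IsTwo.om h hn e₁, IsTwo.om h hn e]
    · rw [i2_prod h hn e₁ e₀ e]
      exact i2_ip_add hχ₀ hχ

theorem i2_rel_lin (hm : 5 ≤ m) {ψ : X.W → ℂ} (e1 : IsTwo ψ m 1) {χ : X.W → ℂ}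
    (hχ : IsIrr χ) {η : ℂ} (he : Even m) (e : IsLin χ η (-η)) (ho : X.om κ χ = 0) :
    A.rel ψ χ := by
  obtain ⟨p, hp⟩ := he
  obtain ⟨j, rfl⟩ : ∃ j, p = j + 2 := ⟨p - 2, by omega⟩
  have hm2 : m = 2 * (j + 2) := by omega
  obtain ⟨χ₁, hχ₁, e₁⟩ := exists_two h hn (j := j + 1) (by omega) (by omega)
  obtain ⟨χ₀, hχ₀, e₀⟩ := i2_exists h hn (j := j) (by omega)
  obtain ⟨χ', hχ', e'⟩ := exists_lin h hn (η₀ := -η) (η₁ := η) (i2_pm e.1) e.1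
    fun ho => absurd ho (by rw [Nat.not_odd_iff_even]; exact ⟨j + 2, hp⟩)
  have e₂ : IsTwo (χ' + χ) m (j + 2) := by
    rw [hm2]
    exact i2_two_half (by omega) e e'
  refine (i2_rel_two h hn A e1 j χ₁ (by omega) hχ₁ e₁).trans ?_ hχ₁.one_ne
  refine A.link hχ₁ hχ ?_ one_pos ?_
  · rw [IsTwo.om h hn e₁, ho]
  · rw [i2_prod h hn e₁ e₀ e₂, ← add_assoc]
    exact i2_ip_add (hχ₀.add hχ'.isCh) hχ

theorem i2_flip {p : ℕ} (hp : 0 < p) (hm : m = 2 * p) {χ μ μ' ν : X.W → ℂ} {η₀ η₁ : ℂ}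
    (e : IsLin χ η₀ η₁) (eμ : IsLin μ η₀ (-η₁)) (eμ' : IsLin μ' (-η₀) η₁)
    (eν : IsLin ν (-η₀) (-η₁)) : ∃ c : ℂ,
    (fun w => (X.σK ℂ (w ^ p)).trace * χ w) = μ + μ' + c • χ + (-c) • ν := by
  refine ⟨if Even p then 1 else 0, ?_⟩
  funext w
  simp only [Pi.add_apply, Pi.smul_apply, smul_eq_mul]
  obtain ⟨k, -, rfl | rfl⟩ := dih_cases h hn w
  · have a : 2 * Real.pi * (k * p : ℕ) / m = 2 * Real.pi * p * k / (2 * p : ℕ) := by
      rw [hm]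
      push_cast
      ring
    rw [← pow_mul, (dih_trace h hn (k * p)).1, a, i2_cos_half hp, (e.2.2 k).1, (eμ.2.2 k).1,
      (eμ'.2.2 k).1, (eν.2.2 k).1, neg_mul_neg, mul_neg, neg_mul, neg_pow (η₀ * η₁)]
    push_cast
    ring
  · rw [i2_refl_pow, (e.2.2 k).2, (eμ.2.2 k).2, (eμ'.2.2 k).2, (eν.2.2 k).2, neg_mul_neg]
    simp only [mul_neg, neg_mul]
    split_ifs
    · have := (dih_trace h hn 0).1
      rw [pow_zero] at this
      rw [this]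
      simp
      ring
    · rw [(dih_trace h hn k).2]
      ring

theorem i2_rel_flip (he : Even m) {χ χ' : X.W → ℂ} (hχ : IsIrr χ) (hχ' : IsIrr χ') {η₀ η₁ : ℂ}
    (e : IsLin χ η₀ η₁) (e' : IsLin χ' η₀ (-η₁) ∨ IsLin χ' (-η₀) η₁)
    (ho : X.om κ χ = X.om κ χ') : A.rel χ χ' := by
  have h2 := two_le h hn
  have hno : ¬ Odd m := Nat.not_odd_iff_even.2 he
  obtain ⟨p, hp⟩ := he
  have h0 := e.1
  have h1 := e.2.1
  obtain ⟨μ, hμ, eμ⟩ := exists_lin h hn h0 (i2_pm h1) fun ho => absurd ho hno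
  obtain ⟨μ', hμ', eμ'⟩ := exists_lin h hn (i2_pm h0) h1 fun ho => absurd ho hno
  obtain ⟨ν, hν, eν⟩ := exists_lin h hn (i2_pm h0) (i2_pm h1) fun ho => absurd ho hno
  obtain ⟨c, hc⟩ := i2_flip h hn (p := p) (by omega) (by omega) e eμ eμ' eν
  refine A.link hχ hχ' ho (k := p) (by omega) ?_
  rw [hc, ip_add, ip_add, ip_add, ip_smul, ip_smul]
  rcases e' with e' | e'
  · rw [IsLin.unique h hn eμ e', hχ'.ip_eq hχ', if_pos rfl,
      i2_ip_lin hμ' hχ' eμ' e' (Or.inl (i2_ne h0).symm),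
      i2_ip_lin hχ hχ' e e' (Or.inr (i2_ne h1)),
      i2_ip_lin hν hχ' eν e' (Or.inl (i2_ne h0).symm)]
    simp
  · rw [IsLin.unique h hn eμ' e', hχ'.ip_eq hχ', if_pos rfl,
      i2_ip_lin hμ hχ' eμ e' (Or.inl (i2_ne h0)),
      i2_ip_lin hχ hχ' e e' (Or.inl (i2_ne h0)),
      i2_ip_lin hν hχ' eν e' (Or.inr (i2_ne h1).symm)]
    simp

end

theorem i2_sign {η η' : ℂ} (h : η = 1 ∨ η = -1) (h' : η' = 1 ∨ η' = -1) : η' = η ∨ η' = -η := by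
  rcases h with h | h <;> rcases h' with h' | h' <;> simp [h, h']

theorem rel_iff_om {m : ℕ} (hm : 5 ≤ m) (h : X.Is (pathM 0 m)) (hn : X.n = 2) {L : Fin X.n → ℝ}
    (hL : ∀ i, 0 ≤ L i) {κ : Wt X} (hκ : ∀ i, κ (X.s i) = (L i : ℂ) / 2) (A : CA X κ)
    {χ χ' : X.W → ℂ} (hχ : IsIrr χ) (hχ' : IsIrr χ') :
    A.rel χ χ' ↔ X.om κ χ = X.om κ χ' := by
  refine ⟨fun r => r.om_eq hχ.one_ne hχ'.one_ne, fun ho => ?_⟩
  by_cases hz : κ (X.sN 0) = 0 ∧ κ (X.sN 1) = 0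
  · exact i2_zero h hn A hz.1 hz.2 χ χ'
  have hm0 : (m : ℂ) ≠ 0 := by
    have : m ≠ 0 := by omega
    exact_mod_cast this
  have hab : κ (X.sN 0) + κ (X.sN 1) ≠ 0 := by
    intro h0
    apply hz
    have e0 : X.sN 0 = X.s ⟨0, by omega⟩ := dif_pos _
    have e1 : X.sN 1 = X.s ⟨1, by omega⟩ := dif_pos _
    rw [e0, e1, hκ, hκ] at h0 ⊢
    have h0' : L ⟨0, by omega⟩ + L ⟨1, by omega⟩ = 0 := by
      have : ((L ⟨0, by omega⟩ + L ⟨1, by omega⟩ : ℝ) : ℂ) = 0 := by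
        push_cast
        linear_combination 2 * h0
      exact_mod_cast this
    have a0 := hL ⟨0, by omega⟩
    have a1 := hL ⟨1, by omega⟩
    have b0 : L ⟨0, by omega⟩ = 0 := by linarith
    have b1 : L ⟨1, by omega⟩ = 0 := by linarith
    rw [b0, b1]
    simp
  obtain ⟨ψ, hψ, e1⟩ := exists_two h hn (j := 1) one_pos (by omega)
  have key : ∀ χ : X.W → ℂ, IsIrr χ → X.om κ χ = 0 → A.rel ψ χ := by
    intro χ hχ h0
    rcases irr_cases h hn hχ with ⟨η₀, η₁, hη, e⟩ | ⟨j, hj0, hj, e⟩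
    · rcases i2_sign e.1 e.2.1 with rfl | rfl
      · exfalso
        rw [IsLin.om h hn hη e] at h0
        have hne : η₁ ≠ 0 := by rcases e.1 with h | h <;> simp [h]
        have : (m : ℂ) * ((κ (X.sN 0) + κ (X.sN 1)) * η₁) = 0 := by linear_combination 2 * h0
        exact mul_ne_zero hm0 (mul_ne_zero hab hne) this
      · refine i2_rel_lin h hn A hm e1 hχ ?_ e h0
        by_contra hne
        exact i2_ne e.1 (hη (Nat.not_even_iff_odd.1 hne))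
    · obtain ⟨j, rfl⟩ : ∃ i, j = i + 1 := ⟨j - 1, by omega⟩
      exact i2_rel_two h hn A e1 j χ hj hχ e
  by_cases h0 : X.om κ χ = 0
  · exact (key χ hχ h0).symm.trans (key χ' hχ' (ho ▸ h0)) hψ.one_ne
  rcases irr_cases h hn hχ with ⟨η₀, η₁, hη, e⟩ | ⟨j, -, -, e⟩
  swap
  · exact absurd (IsTwo.om h hn e κ) h0
  rcases irr_cases h hn hχ' with ⟨η₀', η₁', hη', e'⟩ | ⟨j, -, -, e'⟩
  swap
  · exact absurd (ho.trans (IsTwo.om h hn e' κ)) h0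
  rcases i2_sign e.1 e'.1 with rfl | rfl <;> rcases i2_sign e.2.1 e'.2.1 with rfl | rfl
  · rw [IsLin.unique h hn e e']
    exact A.rel_refl χ'
  · refine i2_rel_flip h hn A ?_ hχ hχ' e (Or.inl e') ho
    by_contra hne
    have ho' := Nat.not_even_iff_odd.1 hne
    exact i2_ne e.2.1 ((hη ho').symm.trans (hη' ho'))
  · refine i2_rel_flip h hn A ?_ hχ hχ' e (Or.inr e') ho
    by_contra hne
    have ho' := Nat.not_even_iff_odd.1 hne
    exact i2_ne e.1 ((hη ho').trans (hη' ho').symm)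
  · exfalso
    apply h0
    rw [IsLin.om h hn hη e, IsLin.om h hn hη' e'] at ho
    rw [IsLin.om h hn hη e]
    linear_combination ho / 2

theorem goodI {m : ℕ} (hm : 5 ≤ m) (h : X.Is (pathM 0 m)) (hn : X.n = 2) (hK : X.KLI) :
    X.Good := fun L hL κ hκ D A χ χ' hχ hχ' =>
  (rel_iff_om hm h hn hL hκ A hχ hχ').trans (hK m hm h hn L hL κ hκ D χ χ' hχ hχ').symm

end Cox

end

end Pool.Agent.P.MP_1a0ecf_al.F
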