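import Pool.Agent.P.MP_1a0ecf_al.F.H2

/-! Package L1: the Kazhdan-Lusztig basis: triangularity, uniqueness, existence. -/

namespace Pool.Agent.P.MP_1a0ecf_al.F

open scoped Classical

noncomputable section

section

variable {Γ Γ' : Type} [AddCommGroup Γ] [AddCommGroup Γ']

theorem mapG_single (f : Γ →+ Γ') (γ : Γ) (a : ℤ) :
    mapG f (AddMonoidAlgebra.single γ a) = AddMonoidAlgebra.single (f γ) a :=
  AddMonoidAlgebra.mapDomain_single

theorem mapG_vU (f : Γ →+ Γ') (γ : Γ) : mapG f (vU γ : ZG Γ) = vU (f γ) :=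
  mapG_single f γ 1

theorem barG_vU (γ : Γ) : barG Γ (vU γ : ZG Γ) = ((vU γ)⁻¹ : (ZG Γ)ˣ) :=
  mapG_single _ γ 1

theorem barG_coeff (r : ZG Γ) (γ : Γ) : (barG Γ r).coeff γ = r.coeff (-γ) := by
  have h := Finsupp.mapDomain_apply (neg_injective (G := Γ)) r.coeff (-γ)
  rw [neg_neg] at h
  exact h

theorem barG_barG (r : ZG Γ) : barG Γ (barG Γ r) = r := by
  ext γ
  rw [barG_coeff, barG_coeff, neg_neg]

theorem mapG_inj {f : Γ →+ Γ'} (hf : Function.Injective f) : Function.Injective (mapG f) :=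
  AddMonoidAlgebra.mapDomain_injective hf

theorem mapG_barG (f : Γ →+ Γ') (r : ZG Γ) : mapG f (barG Γ r) = barG Γ' (mapG f r) := by
  induction r using AddMonoidAlgebra.induction_linear with
  | zero => simp only [map_zero]
  | add x y hx hy => simp only [map_add, hx, hy]
  | single m a => simp only [barG, mapG_single, negAddMonoidHom_apply, map_neg]

theorem spc_eq (r : ZG Γ) : spc Γ r = S.spec r := by
  refine (AddMonoidAlgebra.lift_apply _ r).trans ?_
  simp [S.spec]

theorem spc_vU (γ : Γ) : spc Γ (vU γ : ZG Γ) = 1 :=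
  (AddMonoidAlgebra.lift_single _ γ 1).trans (by simp)

theorem spc_mapG (f : Γ →+ Γ') (r : ZG Γ) : spc Γ' (mapG f r) = spc Γ r := by
  induction r using AddMonoidAlgebra.induction_linear with
  | zero => simp only [map_zero]
  | add x y hx hy => simp only [map_add, hx, hy]
  | single m a =>
    rw [mapG_single]
    exact (AddMonoidAlgebra.lift_single _ _ a).trans
      (AddMonoidAlgebra.lift_single (1 : Multiplicative Γ →* ℂ) m a).symm

theorem spc_barG (r : ZG Γ) : spc Γ (barG Γ r) = spc Γ r :=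
  spc_mapG _ r

end

variable {X : Cox} {Γ : Type} [AddCommGroup Γ] [LinearOrder Γ] [IsOrderedAddMonoid Γ]
  {L : Fin X.n → Γ}

theorem Neg.eq_zero {r : ZG Γ} (h : Neg r) (hb : barG Γ r = r) : r = 0 := by
  ext γ
  rcases le_total 0 γ with h0 | h0
  · exact h γ h0
  · rw [← hb, barG_coeff]
    exact h _ (neg_nonneg.2 h0)

theorem Neg.mul {r r' : ZG Γ} (h : Neg r) (h' : Neg r') : Neg (r * r') := by
  intro γ hγ
  rw [AddMonoidAlgebra.coeff_mul]
  refine Finset.sum_eq_zero fun a ha => Finset.sum_eq_zero fun b hb => if_neg fun e => ?_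
  have h1 : a < 0 := not_le.1 fun c => Finsupp.mem_support_iff.1 ha (h a c)
  have h2 : b < 0 := not_le.1 fun c => Finsupp.mem_support_iff.1 hb (h' b c)
  exact absurd (e ▸ add_neg h1 h2) (not_lt.2 hγ)

omit [IsOrderedAddMonoid Γ] in
theorem Neg.zero : Neg (0 : ZG Γ) := fun _ _ => rfl

omit [IsOrderedAddMonoid Γ] in
theorem Neg.add {r r' : ZG Γ} (h : Neg r) (h' : Neg r') : Neg (r + r') := fun γ hγ => by
  rw [AddMonoidAlgebra.coeff_add, Finsupp.add_apply, h γ hγ, h' γ hγ, add_zero]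

omit [IsOrderedAddMonoid Γ] in
theorem Neg.neg {r : ZG Γ} (h : Neg r) : Neg (-r) := fun γ hγ => by
  rw [AddMonoidAlgebra.coeff_neg, Finsupp.neg_apply, h γ hγ, neg_zero]

omit [IsOrderedAddMonoid Γ] in
theorem Neg.sub {r r' : ZG Γ} (h : Neg r) (h' : Neg r') : Neg (r - r') :=
  (sub_eq_add_neg r r').symm ▸ h.add h'.neg

omit [IsOrderedAddMonoid Γ] in
theorem Neg.sum {ι : Type} (s : Finset ι) {f : ι → ZG Γ} (h : ∀ i ∈ s, Neg (f i)) :
    Neg (∑ i ∈ s, f i) :=
  Finset.sum_induction f Neg (fun _ _ => Neg.add) Neg.zero h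

theorem exists_neg {r : ZG Γ} (h : barG Γ r = -r) : ∃ p, Neg p ∧ r = p - barG Γ p := by
  have h1 : ∀ γ, r.coeff (-γ) = -r.coeff γ := fun γ => by
    rw [← barG_coeff, h, AddMonoidAlgebra.coeff_neg, Finsupp.neg_apply]
  refine ⟨AddMonoidAlgebra.ofCoeff (r.coeff.filter (· < 0)), fun γ hγ => ?_, ?_⟩
  · exact Finsupp.filter_apply_neg _ _ (not_lt.2 hγ)
  · ext γ
    rw [AddMonoidAlgebra.coeff_sub, Finsupp.sub_apply, barG_coeff, Finsupp.filter_apply,
      Finsupp.filter_apply, h1]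
    rcases lt_trichotomy γ 0 with h0 | rfl | h0
    · rw [if_pos h0, if_neg (not_lt.2 (neg_nonneg.2 h0.le)), sub_zero]
    · have h2 := h1 0
      rw [neg_zero] at h2
      rw [neg_zero, if_neg (lt_irrefl _), if_neg (lt_irrefl _)]
      omega
    · rw [if_neg (not_lt.2 h0.le), if_pos (neg_lt_zero.2 h0), zero_sub, neg_neg]

namespace L1P

section

variable {R : Type} [CommRing R] {q : Fin X.n → Rˣ} (D : HA X R q)

/-- the span of the basis elements of length below `n` -/
abbrev low (n : ℕ) : Submodule R D.H := D.sp {y | X.len y < n}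

theorem low_mono {m n : ℕ} (h : m ≤ n) : low D m ≤ low D n :=
  Submodule.span_mono (Set.image_mono fun _ hy => lt_of_lt_of_le hy h)

theorem low_zero {a : D.H} (h : a ∈ low D 0) : a = 0 :=
  D.T.ext_elem fun w => by
    rw [map_zero]
    by_contra c
    exact Nat.not_lt_zero _ (D.mem_sp.1 h w c)

theorem low_top : ∃ n, ∀ a : D.H, a ∈ low D n :=
  ⟨Finset.univ.sup X.len + 1, fun _ => D.mem_sp.2 fun w _ =>
    Nat.lt_succ_of_le (Finset.le_sup (Finset.mem_univ w))⟩

theorem low_succ {n : ℕ} {a : D.H} (h : a ∈ low D (n + 1)) (h0 : ∀ w, X.len w = n → D.co a w = 0) :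
    a ∈ low D n :=
  D.mem_sp.2 fun w hw =>
    lt_of_le_of_ne (Nat.lt_succ_iff.1 (D.mem_sp.1 h w hw)) fun e => hw (h0 w e)

theorem co_low {n : ℕ} {a : D.H} (h : a ∈ low D n) {w : X.W} (hw : X.len w = n) : D.co a w = 0 := by
  by_contra c
  exact absurd (D.mem_sp.1 h w c) (not_lt.2 hw.ge)

theorem sum_low {n : ℕ} {a : D.H} (h : a ∈ low D (n + 1)) (φ : R → R) (h0 : φ 0 = 0)
    {c : X.W → D.H} (hc : ∀ y, c y ∈ low D (X.len y)) : ∑ y, φ (D.co a y) • c y ∈ low D n := by
  refine Submodule.sum_mem _ fun y _ => ?_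
  by_cases hy : D.co a y = 0
  · rw [hy, h0, zero_smul]
    exact zero_mem _
  · exact Submodule.smul_mem _ _ (low_mono D (Nat.lt_succ_iff.1 (D.mem_sp.1 h y hy)) (hc y))

theorem exists_basis {c : X.W → D.H} (hc : ∀ y, c y - D.T y ∈ low D (X.len y)) :
    ∃ b : Module.Basis X.W R D.H, ∀ y, b y = c y := by
  let g : Module.End R D.H := D.T.constr R fun y => c y - D.T y
  have h1 : ∀ n, ∀ a ∈ low D n, (g ^ n) a = 0 := by
    intro n
    induction n with
    | zero => exact fun a ha => low_zero D ha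
    | succ n ih =>
      intro a ha
      rw [pow_succ, Module.End.mul_apply]
      refine ih _ ?_
      rw [Module.Basis.constr_apply_fintype]
      exact sum_low D ha id rfl hc
  obtain ⟨n, hn⟩ := low_top D
  have h2 : IsNilpotent g := ⟨n, LinearMap.ext fun a => h1 n a (hn a)⟩
  refine ⟨D.T.map (LinearEquiv.ofBijective (g + 1) ((Module.End.isUnit_iff _).1
    h2.isUnit_add_one)), fun y => ?_⟩
  simp [g]

variable {φ : R →+* R} {f : D.H →+* D.H}

theorem map_eq (hf : ∀ r a, f (r • a) = φ r • f a) (b : Module.Basis X.W R D.H) (a : D.H) :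
    f a = ∑ y, φ (b.repr a y) • f (b y) := by
  conv_lhs => rw [← b.sum_repr a, map_sum]
  exact Finset.sum_congr rfl fun y _ => hf _ _

theorem lead (hf : ∀ r a, f (r • a) = φ r • f a) (hT : ∀ w, f (D.T w) = D.Ti w⁻¹) {n : ℕ}
    {a : D.H} (h : a ∈ low D (n + 1)) :
    f a ∈ low D (n + 1) ∧ ∀ w, X.len w = n → D.co (f a) w = φ (D.co a w) := by
  have h1 := sum_low D h φ (map_zero φ) D.Ti_tri
  have h2 : ∀ w, D.co (∑ y, φ (D.co a y) • D.T y) w = φ (D.co a w) := fun w =>
    congrFun (D.T.repr_sum_self _) w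
  have h3 : f a = ∑ y, φ (D.co a y) • (D.Ti y⁻¹ - D.T y) + ∑ y, φ (D.co a y) • D.T y := by
    rw [map_eq D hf D.T, ← Finset.sum_add_distrib]
    exact Finset.sum_congr rfl fun y _ => by rw [hT, ← smul_add, sub_add_cancel]
  rw [h3]
  refine ⟨add_mem (low_mono D n.le_succ h1) (D.mem_sp.2 fun w hw => D.mem_sp.1 h w fun e => ?_),
    fun w hw => ?_⟩
  · exact hw (by rw [h2, e, map_zero])
  · rw [← h2 w, ← zero_add (D.co (∑ y, φ (D.co a y) • D.T y) w), ← co_low D h1 hw]
    exact congrFun (congrArg _ (map_add D.T.repr _ _)) w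

theorem invol (hf : ∀ r a, f (r • a) = φ r • f a) (hT : ∀ w, f (D.T w) = D.Ti w⁻¹)
    (hφ : ∀ r, φ (φ r) = r) (a : D.H) : f (f a) = a := by
  have h1 : ∀ w, f (D.Ti w⁻¹) = D.T w := fun w => by
    have h2 := congrArg f (D.Ti_mul_T w⁻¹)
    rw [map_mul, map_one, hT, inv_inv] at h2
    rw [← mul_one (f _), ← D.Ti_mul_T w, ← mul_assoc, h2, one_mul]
  conv_rhs => rw [← D.T.sum_repr a]
  rw [map_eq D hf D.T a, map_sum]
  exact Finset.sum_congr rfl fun y _ => by rw [hf, hφ, hT, h1]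

end

variable (D : HA X (ZG Γ) fun i => vU (L i)) {f : D.H →+* D.H}

theorem exists_C (hf : ∀ r a, f (r • a) = barG Γ r • f a) (hT : ∀ w, f (D.T w) = D.Ti w⁻¹)
    (x : X.W) : ∃ c, f c = c ∧ c - D.T x ∈ low D (X.len x) ∧ ∀ y, Neg (D.co (c - D.T x) y) := by
  have key : ∀ n, n ≤ X.len x → ∃ c, f c - c ∈ low D n ∧ c - D.T x ∈ low D (X.len x) ∧
      ∀ y, Neg (D.co (c - D.T x) y) := by
    intro n hn
    induction hn using Nat.decreasingInduction with
    | self =>
      refine ⟨D.T x, by rw [hT]; exact D.Ti_tri x, by simp, fun y => ?_⟩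
      rw [sub_self, HA.co, map_zero]
      exact Neg.zero
    | of_succ n hn ih =>
      obtain ⟨c, h1, h2, h3⟩ := ih
      have h4 : ∀ w, ∃ p, Neg p ∧ (X.len w = n → D.co (f c - c) w = p - barG Γ p) ∧
          (p ≠ 0 → X.len w = n) := by
        intro w
        by_cases hw : X.len w = n
        · have h5 := (lead D hf hT h1).2 w hw
          rw [map_sub, invol D hf hT barG_barG, ← neg_sub] at h5
          obtain ⟨p, h6, h7⟩ := exists_neg (r := D.co (f c - c) w)
            (h5.symm.trans (congrFun (congrArg _ (map_neg D.T.repr _)) w))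
          exact ⟨p, h6, fun _ => h7, fun _ => hw⟩
        · exact ⟨0, Neg.zero, fun e => absurd e hw, fun e => absurd rfl e⟩
      choose p hp1 hp2 hp3 using h4
      have h5 : ∀ w, D.co (∑ y, p y • D.T y) w = p w := fun w => congrFun (D.T.repr_sum_self _) w
      generalize ∑ y, p y • D.T y = e at h5
      have h6 : e ∈ low D (n + 1) := D.mem_sp.2 fun w hw =>
        Nat.lt_succ_of_le (hp3 w (h5 w ▸ hw)).le
      obtain ⟨h7, h8⟩ := lead D hf hT h6
      have e1 : f (c + e) - (c + e) = (f c - c) + (f e - e) := by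
        rw [map_add]
        abel
      refine ⟨c + e, ?_, ?_, fun y => ?_⟩
      · rw [e1]
        refine low_succ D (add_mem h1 (sub_mem h7 h6)) fun w hw => ?_
        have h9 := hp2 w hw
        have h10 := h8 w hw
        have h11 := h5 w
        simp only [HA.co, map_add, map_sub, Finsupp.add_apply, Finsupp.sub_apply] at *
        rw [h9, h10, h11]
        ring
      · rw [add_sub_right_comm]
        exact add_mem h2 (low_mono D hn h6)
      · rw [add_sub_right_comm, HA.co, map_add, Finsupp.add_apply]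
        exact (h3 y).add ((congrArg Neg (h5 y)).mpr (hp1 y))
  obtain ⟨c, h1, h2⟩ := key 0 (Nat.zero_le _)
  exact ⟨c, sub_eq_zero.1 (low_zero D h1), h2⟩

end L1P

namespace KL

variable (D : KL X Γ L)

theorem bar_T' (w : X.W) : D.bar (D.T w) = D.toHA.Ti w⁻¹ := by
  rw [← mul_one (D.bar _), ← D.toHA.T_mul_Ti w⁻¹, ← mul_assoc, D.bar_T, one_mul]

theorem bar_bar (a : D.H) : D.bar (D.bar a) = a :=
  L1P.invol D.toHA D.bar_smul D.bar_T' barG_barG a

theorem bar_flat (a : D.H) : D.bar (D.toHA.flat a) = D.toHA.flat (D.bar a) := by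
  have h1 : ∀ w, D.toHA.flat (D.toHA.Ti w⁻¹) = D.toHA.Ti w := fun w => by
    have h2 := congrArg D.toHA.flat (D.toHA.T_mul_Ti w⁻¹)
    rw [D.toHA.flat_mul, D.toHA.flat_T, inv_inv, ← D.T_one, D.toHA.flat_T, inv_one,
      D.T_one] at h2
    rw [← mul_one (D.toHA.flat _), ← D.toHA.T_mul_Ti w, ← mul_assoc, h2, one_mul]
  conv_lhs => rw [← D.T.sum_repr a]
  rw [L1P.map_eq D.toHA D.bar_smul D.T a, map_sum, map_sum, map_sum]
  refine Finset.sum_congr rfl fun y _ => ?_
  rw [map_smul, D.bar_smul, map_smul, D.toHA.flat_T, D.bar_T', D.bar_T', h1, inv_inv]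

theorem eq_zero {a : D.H} (hb : D.bar a = a) (h : ∀ y, Neg (D.T.repr a y)) : a = 0 := by
  obtain ⟨n, hn⟩ := L1P.low_top D.toHA
  replace hn := hn a
  induction n with
  | zero => exact L1P.low_zero D.toHA hn
  | succ n ih =>
    refine ih (L1P.low_succ D.toHA hn fun w hw => (h w).eq_zero ?_)
    rw [← (L1P.lead D.toHA D.bar_smul D.bar_T' hn).2 w hw, hb]

theorem eq_C {a : D.H} {x : X.W} (hb : D.bar a = a) (h : ∀ y, Neg (D.T.repr (a - D.T x) y)) :
    a = D.C x := by
  refine sub_eq_zero.1 (D.eq_zero (by rw [map_sub, hb, D.bar_C]) fun y => ?_)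
  rw [← sub_sub_sub_cancel_right a (D.C x) (D.T x), map_sub, Finsupp.sub_apply]
  exact (h y).sub (D.C_neg x y)

theorem C_tri (x : X.W) : D.C x - D.T x ∈ D.toHA.sp {y | X.len y < X.len x} := by
  obtain ⟨c, h1, h2, h3⟩ := L1P.exists_C D.toHA D.bar_smul D.bar_T' x
  rwa [D.eq_C h1 h3] at h2

theorem T_neg (x y : X.W) : Neg (D.C.repr (D.T x - D.C x) y) := by
  induction hn : X.len x using Nat.strong_induction_on generalizing x with
  | _ n ih =>
    rw [← neg_sub, ← D.T.sum_repr (D.C x - D.T x), map_neg, map_sum, Finsupp.neg_apply,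
      Finsupp.finsetSum_apply]
    refine (Neg.sum _ fun w _ => ?_).neg
    rw [map_smul, Finsupp.smul_apply, smul_eq_mul]
    by_cases hw : D.T.repr (D.C x - D.T x) w = 0
    · rw [hw, zero_mul]
      exact Neg.zero
    · rw [← sub_add_cancel (D.T w) (D.C w), map_add, Finsupp.add_apply, mul_add,
        D.C.repr_self_apply]
      refine ((D.C_neg x w).mul (ih _ (hn ▸ D.toHA.mem_sp.1 (D.C_tri x) w hw) w rfl)).add ?_
      split_ifs
      · rw [mul_one]
        exact D.C_neg x w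
      · rw [mul_zero]
        exact Neg.zero

theorem C_one : D.C 1 = 1 :=
  (D.eq_C (map_one _) fun y => by
    rw [D.T_one, sub_self, map_zero]
    exact Neg.zero).symm

theorem flat_C (x : X.W) : D.toHA.flat (D.C x) = D.C x⁻¹ := by
  refine D.eq_C (by rw [D.bar_flat, D.bar_C]) fun y => ?_
  rw [← D.toHA.flat_T, ← map_sub]
  exact (congrArg Neg (D.toHA.co_flat _ y)).mpr (D.C_neg x y⁻¹)

theorem repr_bar (a : D.H) (x : X.W) : D.C.repr (D.bar a) x = barG Γ (D.C.repr a x) := by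
  rw [L1P.map_eq D.toHA D.bar_smul D.C a]
  simp only [D.bar_C]
  exact congrFun (D.C.repr_sum_self _) x

end KL

/-- every Hecke algebra with weights has a Kazhdan-Lusztig basis -/
theorem HA.exists_KL (D : HA X (ZG Γ) fun i => vU (L i)) : ∃ D' : KL X Γ L, D'.toHA = D := by
  obtain ⟨f, hf, hT⟩ := D.exists_bar (barG Γ) fun i => barG_vU (L i)
  choose c h1 h2 h3 using L1P.exists_C D hf hT
  obtain ⟨b, hb⟩ := L1P.exists_basis D h2
  exact ⟨⟨D, f, hf, fun x => by rw [hT, D.Ti_mul_T], b, fun x => by rw [hb, h1],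
    fun x y => by rw [hb]; exact h3 x y⟩, rfl⟩

theorem exists_KL (hL : ∀ i j, IsConj (X.s i) (X.s j) → L i = L j) : Nonempty (KL X Γ L) := by
  obtain ⟨D⟩ := exists_HA X (ZG Γ) (fun i => vU (L i)) fun i j h => by rw [hL i j h]
  exact ⟨D.exists_KL.choose⟩

end

end Pool.Agent.P.MP_1a0ecf_al.F
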