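import Pool.Agent.P.MP_1a0ecf_al.F.L2

/-! Package L3: base change, parabolic subalgebras and automorphisms. -/

namespace Pool.Agent.P.MP_1a0ecf_al.F

open scoped Classical

noncomputable section

namespace L3

section

variable {R R' H H' W W' : Type} [CommRing R] [CommRing R'] [Ring H] [Ring H'] [Algebra R H]
  [Algebra R' H'] [Fintype W] {φ : R →+* R'} {j : H →+* H'}

theorem map_eq (hj : ∀ r a, j (r • a) = φ r • j a) (b : Module.Basis W R H) (a : H) :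
    j a = ∑ w, φ (b.repr a w) • j (b w) := by
  conv_lhs => rw [← b.sum_repr a]
  rw [map_sum]
  exact Finset.sum_congr rfl fun w _ => hj _ _

theorem repr_map (hj : ∀ r a, j (r • a) = φ r • j a) (b : Module.Basis W R H)
    (b' : Module.Basis W' R' H') {ι : W → W'} (hb : ∀ w, j (b w) = b' (ι w)) (a : H) (y : W') :
    b'.repr (j a) y = ∑ w, if ι w = y then φ (b.repr a w) else 0 := by
  rw [map_eq hj b a, map_sum, Finsupp.finsetSum_apply]
  refine Finset.sum_congr rfl fun w _ => ?_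
  rw [hb, map_smul, b'.repr_self, Finsupp.smul_apply, Finsupp.single_apply, smul_eq_mul]
  split_ifs <;> simp

theorem repr_map' (hj : ∀ r a, j (r • a) = φ r • j a) (b : Module.Basis W R H)
    (b' : Module.Basis W' R' H') {ι : W → W'} (hι : Function.Injective ι)
    (hb : ∀ w, j (b w) = b' (ι w)) (a : H) (w : W) :
    b'.repr (j a) (ι w) = φ (b.repr a w) := by
  rw [repr_map hj b b' hb]
  simp [hι.eq_iff]

end

variable {X Y : Cox} {Γ Γ' : Type} [AddCommGroup Γ] [LinearOrder Γ] [IsOrderedAddMonoid Γ]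
  [AddCommGroup Γ'] [LinearOrder Γ'] [IsOrderedAddMonoid Γ'] {L : Fin X.n → Γ}
  {L' : Fin Y.n → Γ'}

omit [IsOrderedAddMonoid Γ] [IsOrderedAddMonoid Γ'] in
theorem neg_mapG {f : Γ' →+ Γ} (hf : StrictMono f) {r : ZG Γ'} (h : Neg r) : Neg (mapG f r) := by
  intro γ hγ
  change Finsupp.mapDomain f r.coeff γ = 0
  by_cases hm : γ ∈ Set.range f
  · obtain ⟨δ, rfl⟩ := hm
    rw [Finsupp.mapDomain_apply hf.injective]
    refine h δ (hf.le_iff_le.1 ?_)
    rwa [map_zero]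
  · exact Finsupp.mapDomain_of_notMem_range _ _ hm

theorem core (D : KL X Γ L) (D' : KL Y Γ' L') {φ : ZG Γ' →+* ZG Γ}
    (h1 : ∀ r, Neg r → Neg (φ r)) (h2 : ∀ r, φ (barG Γ' r) = barG Γ (φ r)) {ι : Y.W → X.W}
    (hι : Function.Injective ι) (hi : ∀ w, ι w⁻¹ = (ι w)⁻¹) {j : D'.H →+* D.H}
    (hj : ∀ r a, j (r • a) = φ r • j a) (hT : ∀ w, j (D'.T w) = D.T (ι w)) :
    (∀ w, j (D'.C w) = D.C (ι w)) ∧ ∀ a, j (D'.bar a) = D.bar (j a) := by
  have hb : ∀ a, j (D'.bar a) = D.bar (j a) := fun a => by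
    have e : ∀ w, j (D'.bar (D'.T w)) = D.bar (j (D'.T w)) := fun w => by
      refine (D.toHA.isUnit_T (ι w)⁻¹).mul_right_cancel ?_
      rw [hT, D.bar_T, ← hi, ← hT, ← map_mul, D'.bar_T, map_one]
    conv_lhs => rw [← D'.T.sum_repr a]
    rw [map_eq hj D'.T a, map_sum, map_sum, map_sum]
    refine Finset.sum_congr rfl fun w _ => ?_
    rw [D'.bar_smul, hj, h2, e, D.bar_smul]
  refine ⟨fun w => D.eq_C (by rw [← hb, D'.bar_C]) fun y => ?_, hb⟩
  rw [← hT, ← map_sub]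
  by_cases hy : y ∈ Set.range ι
  · obtain ⟨u, rfl⟩ := hy
    rw [repr_map' hj D'.T D.T hι hT]
    exact h1 _ (D'.C_neg w u)
  · rw [repr_map hj D'.T D.T hT, Finset.sum_eq_zero fun u _ => if_neg fun e => hy ⟨u, e⟩]
    exact fun _ _ => rfl

variable {L₂ : Fin X.n → Γ'}

theorem le_iff (D : KL X Γ L) (D' : KL X Γ' L₂) {φ : ZG Γ →+* ZG Γ'}
    (hφ : Function.Injective φ) (σ : X.W ≃* X.W) {j : D.H →+* D'.H}
    (hj : ∀ r a, j (r • a) = φ r • j a) (hT : ∀ w, j (D.T w) = D'.T (σ w))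
    (hC : ∀ w, j (D.C w) = D'.C (σ w)) (x y : X.W) : D'.Le (σ x) (σ y) ↔ D.Le x y := by
  have hr := repr_map' hj D.C D'.C σ.injective hC
  constructor
  · intro h
    suffices h' : D.Le (σ.symm (σ x)) (σ.symm (σ y)) by simpa using h'
    refine Relation.ReflTransGen.lift (p := fun x y => ∃ a b : D.H,
      S.coord D.C (a * S.vec D.C y * b) x ≠ 0) σ.symm ?_ _ _ h
    rintro u v ⟨a, b, hab⟩
    obtain ⟨u, rfl⟩ := σ.surjective u
    obtain ⟨v, rfl⟩ := σ.surjective v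
    rw [Function.onFun, σ.symm_apply_apply, σ.symm_apply_apply]
    by_contra hn
    push Not at hn
    refine hab ?_
    change D'.C.repr (a * D'.C (σ v) * b) (σ u) = 0
    rw [← D'.T.sum_repr a, ← D'.T.sum_repr b, Finset.mul_sum, map_sum, Finsupp.finsetSum_apply]
    refine Finset.sum_eq_zero fun p _ => ?_
    rw [Finset.sum_mul, Finset.sum_mul, map_sum, Finsupp.finsetSum_apply]
    refine Finset.sum_eq_zero fun q _ => ?_
    obtain ⟨p, rfl⟩ := σ.surjective p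
    obtain ⟨q, rfl⟩ := σ.surjective q
    have h0 : D.C.repr (D.T q * D.C v * D.T p) u = 0 := hn (D.T q) (D.T p)
    have h1 : D'.C.repr (D'.T (σ q) * D'.C (σ v) * D'.T (σ p)) (σ u) = 0 := by
      rw [← hT, ← hT, ← hC, ← map_mul, ← map_mul, hr, h0, map_zero]
    rw [mul_smul_comm, smul_mul_assoc, smul_mul_assoc, map_smul, map_smul, Finsupp.smul_apply,
      Finsupp.smul_apply, h1, smul_zero, smul_zero]
  · refine Relation.ReflTransGen.lift (p := fun x y => ∃ a b : D'.H,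
      S.coord D'.C (a * S.vec D'.C y * b) x ≠ 0) σ ?_ x y
    rintro u v ⟨a, b, hab⟩
    refine ⟨j a, j b, ?_⟩
    change D'.C.repr (j a * D'.C (σ v) * j b) (σ u) ≠ 0
    rw [← hC, ← map_mul, ← map_mul, hr]
    exact fun e => hab (hφ (e.trans (map_zero φ).symm))

theorem fam_iff (D : KL X Γ L) (D' : KL X Γ' L₂) {φ : ZG Γ →+* ZG Γ'}
    (hφ : Function.Injective φ) (hs : ∀ r, spc Γ' (φ r) = spc Γ r) (σ : X.W ≃* X.W)
    {j : D.H →+* D'.H} (hj : ∀ r a, j (r • a) = φ r • j a) (hT : ∀ w, j (D.T w) = D'.T (σ w))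
    (hC : ∀ w, j (D.C w) = D'.C (σ w)) (z : X.W) (χ : X.W → ℂ) :
    D'.Fam (σ z) χ ↔ D.Fam z (χ ∘ σ) := by
  have hr := repr_map' hj D.C D'.C σ.injective hC
  have hl := le_iff D D' hφ σ hj hT hC
  have e : ∀ w, D'.ch (D'.cell (σ z)) (σ w) = D.ch (D.cell z) w := fun w => by
    refine (Finset.sum_equiv σ.toEquiv (fun y => ?_) fun y _ => ?_).symm
    · change _ ↔ σ y ∈ _
      rw [KL.mem_cell, KL.mem_cell, KL.Sim, KL.Sim, hl, hl]
    · change _ = spc Γ' (D'.C.repr (D'.T (σ w) * D'.C (σ y)) (σ y))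
      rw [← hT, ← hC, ← map_mul, hr, hs]
  have e' : ip (D'.ch (D'.cell (σ z))) χ = ip (D.ch (D.cell z)) (χ ∘ σ) := by
    unfold ip
    congr 1
    refine (Fintype.sum_equiv σ.toEquiv _ _ fun w => ?_).symm
    change _ = D'.ch (D'.cell (σ z)) (σ w) * χ (σ w)⁻¹
    rw [e, Function.comp, map_inv]
  rw [KL.Fam, KL.Fam, e']

end L3

namespace KL

variable {X : Cox} {Γ Γ' : Type} [AddCommGroup Γ] [LinearOrder Γ] [IsOrderedAddMonoid Γ]
  [AddCommGroup Γ'] [LinearOrder Γ'] [IsOrderedAddMonoid Γ'] {L : Fin X.n → Γ}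

/-- parabolic subalgebras, with change of the group -/
theorem exists_mapP (D : KL X Γ L) {Y : Cox} (P : Par Y.toCox0 X.toCox0) {L' : Fin Y.n → Γ'}
    (D' : KL Y Γ' L') (f : Γ' →+ Γ) (hf : StrictMono f) (h : ∀ i, f (L' i) = L (P.e i)) :
    ∃ j : D'.H →+* D.H, (∀ r a, j (r • a) = mapG f r • j a) ∧ (∀ w, j (D'.T w) = D.T (P.ι w)) ∧
      (∀ w, j (D'.C w) = D.C (P.ι w)) ∧ ∀ a, j (D'.bar a) = D.bar (j a) := by
  obtain ⟨j, hj, hT⟩ := D.toHA.exists_mapP P D'.toHA (mapG f) fun i => by rw [mapG_vU, h]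
  exact ⟨j, hj, hT, L3.core D D' (fun _ => L3.neg_mapG hf) (mapG_barG f) P.ι_inj (map_inv P.ι)
    hj hT⟩

theorem exists_map (D : KL X Γ L) {L' : Fin X.n → Γ'} (D' : KL X Γ' L') (f : Γ →+ Γ')
    (hf : StrictMono f) (h : ∀ i, f (L i) = L' i) :
    ∃ j : D.H →+* D'.H, (∀ r a, j (r • a) = mapG f r • j a) ∧ (∀ w, j (D.T w) = D'.T w) ∧
      (∀ w, j (D.C w) = D'.C w) ∧ ∀ a w, D'.C.repr (j a) w = mapG f (D.C.repr a w) := by
  obtain ⟨j, hj, hT, -⟩ := D.toHA.exists_map D'.toHA (mapG f) fun i => by rw [mapG_vU, h]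
  have hC := (L3.core D' D (ι := id) (fun _ => L3.neg_mapG hf) (mapG_barG f)
    Function.injective_id (fun _ => rfl) hj hT).1
  exact ⟨j, hj, hT, hC, L3.repr_map' hj D.C D'.C Function.injective_id hC⟩

theorem le_map (D : KL X Γ L) {L' : Fin X.n → Γ'} (D' : KL X Γ' L') (f : Γ →+ Γ')
    (hf : StrictMono f) (h : ∀ i, f (L i) = L' i) (x y : X.W) : D.Le x y ↔ D'.Le x y := by
  obtain ⟨j, hj, hT, hC, -⟩ := D.exists_map D' f hf h
  exact (L3.le_iff D D' (mapG_inj hf.injective) (MulEquiv.refl _) hj hT hC x y).symm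

theorem fam_map (D : KL X Γ L) {L' : Fin X.n → Γ'} (D' : KL X Γ' L') (f : Γ →+ Γ')
    (hf : StrictMono f) (h : ∀ i, f (L i) = L' i) (z : X.W) (χ : X.W → ℂ) :
    D.Fam z χ ↔ D'.Fam z χ := by
  obtain ⟨j, hj, hT, hC, -⟩ := D.exists_map D' f hf h
  exact (L3.fam_iff D D' (mapG_inj hf.injective) (spc_mapG f) (MulEquiv.refl _) hj hT hC z χ).symm

theorem rel_map (D : KL X Γ L) {L' : Fin X.n → Γ'} (D' : KL X Γ' L') (f : Γ →+ Γ')
    (hf : StrictMono f) (h : ∀ i, f (L i) = L' i) (χ χ' : X.W → ℂ) :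
    D.Rel χ χ' ↔ D'.Rel χ χ' :=
  exists_congr fun z => and_congr (D.fam_map D' f hf h z χ) (D.fam_map D' f hf h z χ')

/-- diagram automorphisms -/
theorem exists_aut (D : KL X Γ L) (σ : X.W ≃* X.W) (e : Fin X.n → Fin X.n)
    (h : ∀ i, σ (X.s i) = X.s (e i)) (hL : ∀ i, L (e i) = L i) :
    ∃ f : D.H →ₐ[ZG Γ] D.H, (∀ w, f (D.T w) = D.T (σ w)) ∧ ∀ w, f (D.C w) = D.C (σ w) := by
  obtain ⟨f, hT⟩ := D.toHA.exists_aut σ e h fun i => by rw [hL]
  exact ⟨f, hT, (L3.core D D (φ := RingHom.id _) (fun _ h => h) (fun _ => rfl) σ.injective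
    (map_inv σ) (j := f.toRingHom) (fun r a => map_smul f r a) hT).1⟩

theorem fam_aut (D : KL X Γ L) (σ : X.W ≃* X.W) (e : Fin X.n → Fin X.n)
    (h : ∀ i, σ (X.s i) = X.s (e i)) (hL : ∀ i, L (e i) = L i) (z : X.W) (χ : X.W → ℂ) :
    D.Fam (σ z) χ ↔ D.Fam z (χ ∘ σ) := by
  obtain ⟨f, hT, hC⟩ := D.exists_aut σ e h hL
  exact L3.fam_iff D D (φ := RingHom.id _) Function.injective_id (fun _ => rfl) σ
    (j := f.toRingHom) (fun r a => map_smul f r a) hT hC z χ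

end KL

end

end Pool.Agent.P.MP_1a0ecf_al.F
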