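import Pool.Agent.P.MP_1a0ecf_al.F.Face
import Pool.Agent.P.MP_1a0ecf_al.F.G6

/-! Package P1: products: groups and characters. -/

namespace Pool.Agent.P.MP_1a0ecf_al.F

open Matrix MvPolynomial
open scoped Classical TensorProduct

noncomputable section

private theorem p1_reg (W : Type) [Group W] [Fintype W] : ∃ l : List (W → ℂ),
    (∀ χ ∈ l, IsIrr χ) ∧ ∀ w, l.sum w = if w = 1 then (Fintype.card W : ℂ) else 0 := by
  obtain ⟨l, hl, e⟩ := (isCh_perm (MulAction.toPermHom W W)).exists_list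
  refine ⟨l, hl, fun w => ?_⟩
  rw [← e]
  split_ifs with h
  · simp [h]
  · simp [h]

private theorem p1_list {W α : Type} [Group W] [Fintype W] [AddCommMonoid α] (F : α → W → ℂ)
    (h0 : F 0 = 0) (ha : ∀ a b, F (a + b) = F a + F b) (χ : W → ℂ) (l : List α)
    (h : ip (F l.sum) χ ≠ 0) : ∃ a ∈ l, ip (F a) χ ≠ 0 := by
  induction l with
  | nil => exact absurd (by rw [List.sum_nil, h0, T0.ip_zero]) h
  | cons a l ih =>
    by_cases h1 : ip (F a) χ = 0
    · rw [List.sum_cons, ha, ip_add, h1, zero_add] at h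
      obtain ⟨b, hb, h2⟩ := ih h
      exact ⟨b, List.mem_cons_of_mem _ hb, h2⟩
    · exact ⟨a, List.mem_cons_self, h1⟩

private theorem p1_irr {W U U' : Type} [Group W] [Fintype W] [Group U] [Fintype U] [Group U']
    [Fintype U'] (e : U × U' ≃* W) {ψ : U → ℂ} {ψ' : U' → ℂ} (h : IsIrr ψ) (h' : IsIrr ψ') :
    IsIrr fun w => ψ (e.symm w).1 * ψ' (e.symm w).2 := by
  have h1 : IsCh fun w => ψ (e.symm w).1 * ψ' (e.symm w).2 :=
    (h.isCh.comp ((MonoidHom.fst U U').comp e.symm.toMonoidHom)).mul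
      (h'.isCh.comp ((MonoidHom.snd U U').comp e.symm.toMonoidHom))
  refine h1.vc.isIrr ?_ ?_
  · have k := h.ip_eq h
    have k' := h'.ip_eq h'
    rw [if_pos rfl, ip] at k k'
    rw [ip, ← e.toEquiv.sum_comp, ← Nat.card_congr e.toEquiv, Nat.card_prod, Fintype.sum_prod_type,
      Nat.cast_mul, mul_inv, ← mul_one (1 : ℂ)]
    conv_rhs => rw [← k]; rhs; rw [k, ← k']
    rw [mul_mul_mul_comm _ (∑ w, ψ w * ψ w⁻¹), Finset.sum_mul_sum]
    congr 1
    refine Finset.sum_congr rfl fun u _ => Finset.sum_congr rfl fun u' _ => ?_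
    simp only [MulEquiv.toEquiv_eq_coe, EquivLike.coe_coe, map_inv, MulEquiv.symm_apply_apply,
      Prod.fst_inv, Prod.snd_inv]
    ring
  · obtain ⟨m, hm, k⟩ := h.one
    obtain ⟨m', hm', k'⟩ := h'.one
    simp only [map_one, Prod.fst_one, Prod.snd_one, k, k', ← Nat.cast_mul, Complex.natCast_re]
    exact Nat.cast_pos.2 (Nat.mul_pos hm hm')

namespace Prd

variable {Y Y' X : Cox} (Q : Prd Y Y' X)

/-- exchange of the factors -/
def symm : Prd Y' Y X where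
  P := Q.P'
  P' := Q.P
  cover i := (Q.cover i).symm
  two j j' := by rw [X.M.symmetric]; exact Q.two j' j

private theorem p1_ne (j : Fin Y.n) (j' : Fin Y'.n) : Q.P'.e j' ≠ Q.P.e j := fun e => by
  have := Q.two j j'
  rw [e, X.M.diagonal] at this
  exact absurd this (by decide)

theorem comm (u : Y.W) (u' : Y'.W) : Q.P.ι u * Q.P'.ι u' = Q.P'.ι u' * Q.P.ι u := by
  change Commute _ _
  induction u using Y.cs.simple_induction with
  | simple j =>
    induction u' using Y'.cs.simple_induction with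
    | simple j' =>
      rw [Q.P.ι_s, Q.P'.ι_s]
      have h := X.cs.simple_mul_simple_pow (Q.P.e j) (Q.P'.e j')
      rw [Q.two, sq] at h
      have h2 := eq_inv_of_mul_eq_one_left h
      rwa [_root_.mul_inv_rev, X.cs.inv_simple, X.cs.inv_simple] at h2
    | one => rw [map_one]; exact Commute.one_right _
    | mul a b ha hb => rw [map_mul]; exact ha.mul_right hb
  | one => rw [map_one]; exact Commute.one_left _
  | mul a b ha hb => rw [map_mul]; exact ha.mul_left hb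

theorem exists_eq (w : X.W) : ∃ u u', w = Q.P.ι u * Q.P'.ι u' := by
  induction w using X.cs.simple_induction with
  | simple i =>
    rcases Q.cover i with ⟨j, rfl⟩ | ⟨j, rfl⟩
    · exact ⟨Y.s j, 1, by rw [map_one, mul_one, Q.P.ι_s]⟩
    · exact ⟨1, Y'.s j, by rw [map_one, one_mul, Q.P'.ι_s]⟩
  | one => exact ⟨1, 1, by rw [map_one, map_one, mul_one]⟩
  | mul a b ha hb =>
    obtain ⟨u, u', rfl⟩ := ha
    obtain ⟨v, v', rfl⟩ := hb
    refine ⟨u * v, u' * v', ?_⟩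
    rw [map_mul, map_mul, mul_assoc, mul_assoc, ← mul_assoc (Q.P'.ι u'), ← Q.comm, mul_assoc]

theorem len_mul (u : Y.W) (u' : Y'.W) : X.len (Q.P.ι u * Q.P'.ι u') = Y.len u + Y'.len u' := by
  rw [Q.P'.len_rep (fun j' => ?_), Q.P.len_ι]
  rw [← Q.P'.ι_s, Q.comm, Q.P'.ι_s, Q.P.len_rep fun j => X.g6_asc (Q.p1_ne j j'), Q.P.len_ι]
  have : X.len (X.s (Q.P'.e j')) = 1 := X.cs.length_simple _
  omega

theorem exists_equiv : ∃ e : Y.W × Y'.W ≃* X.W, ∀ u u', e (u, u') = Q.P.ι u * Q.P'.ι u' := by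
  let φ : Y.W × Y'.W →* X.W := Q.P.ι.noncommCoprod Q.P'.ι Q.comm
  refine ⟨MulEquiv.ofBijective φ ⟨(injective_iff_map_eq_one _).2 fun a ha => ?_, fun w => ?_⟩,
    fun _ _ => rfl⟩
  · have h := Q.len_mul a.1 a.2
    rw [show Q.P.ι a.1 * Q.P'.ι a.2 = 1 from ha, show X.len 1 = 0 from X.cs.length_one] at h
    exact Prod.ext (Y.cs.length_eq_zero_iff.1 (by change Y.len _ = 0; omega))
      (Y'.cs.length_eq_zero_iff.1 (by change Y'.len _ = 0; omega))
  · obtain ⟨u, u', rfl⟩ := Q.exists_eq w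
    exact ⟨(u, u'), rfl⟩

theorem sum_refls {N : Type} [AddCommMonoid N] (f : X.W → N) :
    ∑ t ∈ X.refls, f t = ∑ t ∈ Y.refls, f (Q.P.ι t) + ∑ t ∈ Y'.refls, f (Q.P'.ι t) := by
  have hd : Disjoint (Y.refls.map ⟨_, Q.P.ι_inj⟩) (Y'.refls.map ⟨_, Q.P'.ι_inj⟩) := by
    rw [Finset.disjoint_left]
    intro w h1 h2
    obtain ⟨t, ht, rfl⟩ := Finset.mem_map.1 h1
    obtain ⟨t', -, e⟩ := Finset.mem_map.1 h2
    have h3 := Q.len_mul t t'⁻¹
    rw [map_inv, show Q.P'.ι t' = Q.P.ι t from e, mul_inv_cancel,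
      show X.len 1 = 0 from X.cs.length_one] at h3
    have h4 : Odd (Y.len t) := (Finset.mem_filter.1 ht).2.odd_length
    rw [show Y.len t = 0 by omega] at h4
    exact absurd h4 (by decide)
  have he : X.refls = (Y.refls.map ⟨_, Q.P.ι_inj⟩).disjUnion (Y'.refls.map ⟨_, Q.P'.ι_inj⟩) hd := by
    ext t
    simp only [Cox.refls, Finset.mem_disjUnion, Finset.mem_map, Finset.mem_filter, Finset.mem_univ,
      true_and, Function.Embedding.coeFn_mk]
    constructor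
    · rintro ⟨w, i, rfl⟩
      obtain ⟨u, u', rfl⟩ := Q.exists_eq w
      rcases Q.cover i with ⟨j, rfl⟩ | ⟨j, rfl⟩
      · refine Or.inl ⟨_, ⟨u, j, rfl⟩, ?_⟩
        have h := Q.comm (Y.s j) u'
        rw [map_mul, map_mul, map_inv, _root_.mul_inv_rev, mul_assoc (Q.P.ι u) (Q.P'.ι u'),
          show X.cs.simple (Q.P.e j) = Q.P.ι (Y.s j) from (Q.P.ι_s j).symm, ← h]
        group
      · refine Or.inr ⟨_, ⟨u', j, rfl⟩, ?_⟩
        have h := Q.comm u (Y'.s j)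
        rw [map_mul, map_mul, map_inv, Q.comm, _root_.mul_inv_rev, mul_assoc (Q.P'.ι u') (Q.P.ι u),
          show X.cs.simple (Q.P'.e j) = Q.P'.ι (Y'.s j) from (Q.P'.ι_s j).symm, h]
        group
    · rintro (⟨t, ht, rfl⟩ | ⟨t, ht, rfl⟩)
      · exact Q.P.isReflection_ι ht
      · exact Q.P'.isReflection_ι ht
  rw [he, Finset.sum_disjUnion, Finset.sum_map, Finset.sum_map]
  rfl

theorem exists_fac {χ : X.W → ℂ} (h : IsIrr χ) : ∃ ψ ψ', Q.Fac χ ψ ψ' := by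
  obtain ⟨e, he⟩ := Q.exists_equiv
  obtain ⟨l, hl, k⟩ := p1_reg Y.W
  obtain ⟨l', hl', k'⟩ := p1_reg Y'.W
  have h1 : ip (fun w => l.sum (e.symm w).1 * l'.sum (e.symm w).2) χ ≠ 0 := by
    rw [ip, Finset.sum_eq_single 1]
    · simp [k, k', h.one_ne]
    · intro w _ hw
      rw [k, k']
      split_ifs with a b
      · exact absurd (e.symm.map_eq_one_iff.1 (Prod.ext a b)) hw
      · simp
      · simp
      · simp
    · simp
  obtain ⟨ψ, hψ, h2⟩ := p1_list (fun (a : Y.W → ℂ) w => a (e.symm w).1 * l'.sum (e.symm w).2)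
    (by funext w; simp) (fun a b => by funext w; simp [add_mul]) χ l h1
  obtain ⟨ψ', hψ', h3⟩ := p1_list (fun (a : Y'.W → ℂ) w => ψ (e.symm w).1 * a (e.symm w).2)
    (by funext w; simp) (fun a b => by funext w; simp [mul_add]) χ l' h2
  rw [(p1_irr e (hl ψ hψ) (hl' ψ' hψ')).ip_eq h] at h3
  refine ⟨ψ, ψ', hl ψ hψ, hl' ψ' hψ', fun u u' => ?_⟩
  rw [← he, ← of_not_not fun c => h3 (if_neg c)]
  simp

theorem exists_prod {ψ : Y.W → ℂ} {ψ' : Y'.W → ℂ} (h : IsIrr ψ) (h' : IsIrr ψ') :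
    ∃ χ, IsIrr χ ∧ Q.Fac χ ψ ψ' := by
  obtain ⟨e, he⟩ := Q.exists_equiv
  refine ⟨_, p1_irr e h h', h, h', fun u u' => ?_⟩
  rw [← he]
  simp

theorem Fac.symm {Q : Prd Y Y' X} {χ : X.W → ℂ} {ψ : Y.W → ℂ} {ψ' : Y'.W → ℂ} (h : Q.Fac χ ψ ψ') :
    Q.symm.Fac χ ψ' ψ := by
  refine ⟨h.2.1, h.1, fun u' u => ?_⟩
  rw [mul_comm (ψ' u'), ← h.2.2, Q.comm]
  rfl

end Prd

/-- restriction of parameters -/
def Wt.res {Y X : Cox} (P : Par Y.toCox0 X.toCox0) (κ : Wt X) : Wt Y where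
  f t := κ (P.ι t)
  cl t w h := by
    rw [map_mul, map_mul, map_inv]
    exact κ.cl _ _ (P.isReflection_ι h)

private theorem p1_par (X : Cox) (I : Finset (Fin X.n)) : ∃ (Y : Cox)
    (P : Par Y.toCox0 X.toCox0), Y.n = I.card ∧ Set.range P.e = I := by
  let e := I.orderEmbOfFin rfl
  obtain ⟨W', _, _, cs', h, P, hP⟩ := exists_par X ⟨fun i j => X.M (e i) (e j),
    Matrix.IsSymm.ext fun i j => X.M.symmetric _ _, fun i => X.M.diagonal _,
    fun i j hij => X.M.off_diagonal _ _ (e.injective.ne hij)⟩ e e.injective fun _ _ => rfl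
  refine ⟨{ W := W', cs := cs', hM := h, .. }, P, rfl, ?_⟩
  rw [hP]
  simp [e]

/-- splitting along a subset of the nodes -/
theorem exists_prd (X : Cox) (h : ¬ Conn X.M) :
    ∃ Y Y' : Cox, Y.n < X.n ∧ Y'.n < X.n ∧ Nonempty (Prd Y Y' X) := by
  simp only [Conn, not_forall, not_exists, not_and, ne_eq, not_not] at h
  obtain ⟨S, ⟨a, ha⟩, ⟨b, hb⟩, h⟩ := h
  obtain ⟨Y, P, h1, h2⟩ := p1_par X S.toFinset
  obtain ⟨Y', P', h1', h2'⟩ := p1_par X Sᶜ.toFinset
  rw [Set.coe_toFinset] at h2 h2'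
  refine ⟨Y, Y', ?_, ?_, ⟨⟨P, P', fun i => ?_, fun j j' => ?_⟩⟩⟩
  · rw [h1]
    exact (Finset.card_lt_univ_of_notMem (x := b) (by simpa using hb)).trans_eq
      (Fintype.card_fin _)
  · rw [h1']
    exact (Finset.card_lt_univ_of_notMem (x := a) (by simpa using ha)).trans_eq
      (Fintype.card_fin _)
  · by_cases hi : i ∈ S
    · exact Or.inl (show i ∈ Set.range P.e from h2 ▸ hi)
    · exact Or.inr (show i ∈ Set.range P'.e from h2' ▸ hi)
  · exact h _ (h2 ▸ Set.mem_range_self j) _ (show P'.e j' ∈ Sᶜ from h2' ▸ Set.mem_range_self j')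

/-- renumbering -/
theorem exists_prd_iso (X : Cox) {m : ℕ} {M' : CoxeterMatrix (Fin m)} (h : Iso M' X.M) :
    ∃ (W' : Type) (_ : Group W') (_ : Fintype W') (cs' : CoxeterSystem M' W')
      (h' : ∀ i j, M' i j ≠ 0) (Y' : Cox), Y'.n = 0 ∧
      Nonempty (Prd { n := m, M := M', W := W', cs := cs', hM := h' } Y' X) := by
  obtain ⟨e, he⟩ := h
  obtain ⟨W', g, fi, cs', h', P, hP⟩ := exists_par X M' e e.injective he
  obtain ⟨Y', P', h1, -⟩ := p1_par X ∅
  refine ⟨W', g, fi, cs', h', Y', h1, ⟨⟨P, P', fun i => Or.inl ⟨e.symm i, ?_⟩, fun j j' => ?_⟩⟩⟩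
  · rw [hP]
    exact e.apply_symm_apply i
  · exact absurd (j'.2.trans_eq h1) (Nat.not_lt_zero _)

theorem exists_prd_shape (X : Cox) {f : ℕ → ℕ → ℕ} (h : Shape X.M f) :
    ∃ Y Y' : Cox, Y.n = X.n ∧ Y.Is f ∧ Y'.n = 0 ∧ Nonempty (Prd Y Y' X) := by
  obtain ⟨e, he⟩ := h
  obtain ⟨W', _, _, cs', h', Y', h1, h2⟩ := exists_prd_iso X (M' := ⟨fun i j => X.M (e i) (e j),
    Matrix.IsSymm.ext fun i j => X.M.symmetric _ _, fun i => X.M.diagonal _,
    fun i j hij => X.M.off_diagonal _ _ (e.injective.ne hij)⟩) ⟨e, fun _ _ => rfl⟩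
  refine ⟨_, Y', ?_, ?_, h1, h2⟩
  · rfl
  · exact he

end

end Pool.Agent.P.MP_1a0ecf_al.F
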