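import Pool.Agent.P.MP_1a0ecf_al.F.P1
import Pool.Agent.P.MP_1a0ecf_al.F.L3

/-! Package P2: products: cells. -/

namespace Pool.Agent.P.MP_1a0ecf_al.F

open Matrix MvPolynomial
open scoped Classical TensorProduct

noncomputable section

namespace P2P

theorem mapG_id {Γ : Type} [AddCommGroup Γ] (r : ZG Γ) : mapG (AddMonoidHom.id Γ) r = r := by
  induction r using AddMonoidAlgebra.induction_linear with
  | zero => simp only [map_zero]
  | add x y hx hy => simp only [map_add, hx, hy]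
  | single m a => rw [mapG_single]; rfl

section

variable {R H H₁ H₂ W W₁ W₂ : Type} [CommRing R] [Ring H] [Ring H₁] [Ring H₂] [Algebra R H]
  [Algebra R H₁] [Algebra R H₂] [Fintype W₁] [Fintype W₂] {j₁ : H₁ →+* H} {j₂ : H₂ →+* H}

theorem expand (h₁ : ∀ (r : R) a, j₁ (r • a) = r • j₁ a) (h₂ : ∀ (r : R) a, j₂ (r • a) = r • j₂ a)
    (b₁ : Module.Basis W₁ R H₁) (b₂ : Module.Basis W₂ R H₂) (a : H₁) (a' : H₂) :
    j₁ a * j₂ a' = ∑ v, ∑ v', (b₁.repr a v * b₂.repr a' v') • (j₁ (b₁ v) * j₂ (b₂ v')) ∧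
    j₂ a' * j₁ a = ∑ v, ∑ v', (b₁.repr a v * b₂.repr a' v') • (j₂ (b₂ v') * j₁ (b₁ v)) := by
  rw [L3.map_eq (φ := RingHom.id R) h₁ b₁ a, L3.map_eq (φ := RingHom.id R) h₂ b₂ a']
  constructor
  · rw [Finset.sum_mul_sum]
    refine Finset.sum_congr rfl fun v _ => Finset.sum_congr rfl fun v' _ => ?_
    rw [smul_mul_smul_comm]; rfl
  · rw [Finset.sum_mul_sum, Finset.sum_comm]
    refine Finset.sum_congr rfl fun v _ => Finset.sum_congr rfl fun v' _ => ?_
    rw [smul_mul_smul_comm, mul_comm (b₁.repr a v)]; rfl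

theorem repr_mul (h₁ : ∀ (r : R) a, j₁ (r • a) = r • j₁ a)
    (h₂ : ∀ (r : R) a, j₂ (r • a) = r • j₂ a) (b₁ : Module.Basis W₁ R H₁)
    (b₂ : Module.Basis W₂ R H₂) (b : Module.Basis W R H) {e : W₁ × W₂ → W}
    (he : Function.Injective e) (hb : ∀ v v', j₁ (b₁ v) * j₂ (b₂ v') = b (e (v, v')))
    (a : H₁) (a' : H₂) (u : W₁) (u' : W₂) :
    b.repr (j₁ a * j₂ a') (e (u, u')) = b₁.repr a u * b₂.repr a' u' := by
  rw [(expand h₁ h₂ b₁ b₂ a a').1]
  simp only [hb, map_sum, map_smul, Finsupp.finsetSum_apply, Finsupp.smul_apply, b.repr_self,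
    Finsupp.single_apply, he.eq_iff, Prod.mk.injEq, smul_eq_mul, mul_ite, mul_one, mul_zero]
  rw [Finset.sum_eq_single u (fun v _ hv => by simp [hv]) (by simp),
    Finset.sum_eq_single u' (fun v _ hv => by simp [hv]) (by simp)]
  simp

end

theorem exists_T {R H W : Type} [CommRing R] [Ring H] [Algebra R H] [Fintype W]
    (T C : Module.Basis W R H) {a b c : H} {x : W} (h : C.repr (a * c * b) x ≠ 0) :
    ∃ p q, C.repr (T p * c * T q) x ≠ 0 := by
  by_contra hn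
  push Not at hn
  refine h ?_
  rw [← T.sum_repr a, ← T.sum_repr b, Finset.mul_sum, map_sum, Finsupp.finsetSum_apply]
  refine Finset.sum_eq_zero fun p _ => ?_
  rw [Finset.sum_mul, Finset.sum_mul, map_sum, Finsupp.finsetSum_apply]
  refine Finset.sum_eq_zero fun q _ => ?_
  rw [mul_smul_comm, smul_mul_assoc, smul_mul_assoc, map_smul, map_smul, Finsupp.smul_apply,
    Finsupp.smul_apply, hn, smul_zero, smul_zero]

theorem ip_mul {W W₁ W₂ : Type} [Group W] [Group W₁] [Group W₂] [Fintype W] [Fintype W₁]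
    [Fintype W₂] (e : W₁ × W₂ ≃* W) {f g : W → ℂ} {f₁ g₁ : W₁ → ℂ} {f₂ g₂ : W₂ → ℂ}
    (hf : ∀ u u', f (e (u, u')) = f₁ u * f₂ u') (hg : ∀ u u', g (e (u, u')) = g₁ u * g₂ u') :
    ip f g = ip f₁ g₁ * ip f₂ g₂ := by
  unfold ip
  rw [← Nat.card_congr e.toEquiv, Nat.card_prod, ← Equiv.sum_comp e.toEquiv, Fintype.sum_prod_type,
    mul_mul_mul_comm, Finset.sum_mul_sum, Nat.cast_mul, mul_inv]
  congr 1
  refine Finset.sum_congr rfl fun u _ => Finset.sum_congr rfl fun u' _ => ?_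
  change f (e (u, u')) * g (e (u, u'))⁻¹ = _
  rw [← map_inv, Prod.inv_mk, hf, hg]
  ring

theorem neg_T {X : Cox} {Γ : Type} [AddCommGroup Γ] [LinearOrder Γ] {r : ZG Γ} (h : Neg r)
    {H : Type} [Ring H] [Algebra (ZG Γ) H] (T : Module.Basis X.W (ZG Γ) H) (u v : X.W) :
    Neg (r * T.repr (T u) v) ∧ Neg (T.repr (T u) v * r) := by
  rw [T.repr_self, Finsupp.single_apply]
  split_ifs
  · rw [mul_one, one_mul]; exact ⟨h, h⟩
  · rw [mul_zero, zero_mul]; exact ⟨Neg.zero, Neg.zero⟩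

end P2P

open P2P in
theorem Prd.rel_KL {Y Y' X : Cox} (Q : Prd Y Y' X) {Γ : Type} [AddCommGroup Γ] [LinearOrder Γ]
    [IsOrderedAddMonoid Γ] {L : Fin X.n → Γ} (D : KL X Γ L) (E : KL Y Γ fun i => L (Q.P.e i))
    (E' : KL Y' Γ fun i => L (Q.P'.e i)) {χ χ₁ : X.W → ℂ} {ψ ψ₁ : Y.W → ℂ} {ψ' ψ₁' : Y'.W → ℂ}
    (h : Q.Fac χ ψ ψ') (h₁ : Q.Fac χ₁ ψ₁ ψ₁') :
    D.Rel χ χ₁ ↔ E.Rel ψ ψ₁ ∧ E'.Rel ψ' ψ₁' := by
  obtain ⟨e, he⟩ := Q.exists_equiv
  obtain ⟨j, s1, T1, -, b1⟩ := D.exists_mapP Q.P E (AddMonoidHom.id Γ) strictMono_id fun _ => rfl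
  obtain ⟨j', s2, T2, -, b2⟩ :=
    D.exists_mapP Q.P' E' (AddMonoidHom.id Γ) strictMono_id fun _ => rfl
  simp only [mapG_id] at s1 s2
  have hT : ∀ v v', j (E.T v) * j' (E'.T v') = D.T (e (v, v')) := fun v v' => by
    rw [T1, T2, he, D.toHA.T_mul_of_len]
    rw [Q.len_mul, Q.P.len_ι, Q.P'.len_ι]
  have hT' : ∀ v v', j' (E'.T v') * j (E.T v) = D.T (e (v, v')) := fun v v' => by
    rw [T1, T2, he, Q.comm, D.toHA.T_mul_of_len]
    rw [← Q.comm, Q.len_mul, Q.P.len_ι, Q.P'.len_ι, add_comm]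
  have cm : ∀ a a', j' a' * j a = j a * j' a' := fun a a' => by
    rw [(expand s1 s2 E.T E'.T a a').1, (expand s1 s2 E.T E'.T a a').2]
    simp only [hT, hT']
  have rT := repr_mul s1 s2 E.T E'.T D.T e.injective hT
  have hC : ∀ v v', j (E.C v) * j' (E'.C v') = D.C (e (v, v')) := fun v v' => by
    refine D.eq_C (by rw [map_mul, ← b1, ← b2, E.bar_C, E'.bar_C]) fun y => ?_
    obtain ⟨⟨u, u'⟩, rfl⟩ := e.surjective y
    have k : j (E.C v) * j' (E'.C v') - D.T (e (v, v')) =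
        j (E.C v - E.T v) * j' (E'.C v' - E'.T v') + j (E.C v - E.T v) * j' (E'.T v') +
          j (E.T v) * j' (E'.C v' - E'.T v') := by
      rw [← hT, map_sub, map_sub]
      noncomm_ring
    rw [k, map_add, map_add, Finsupp.add_apply, Finsupp.add_apply, rT, rT, rT]
    exact (((E.C_neg v u).mul (E'.C_neg v' u')).add (neg_T (E.C_neg v u) E'.T v' u').1).add
      (neg_T (E'.C_neg v' u') E.T v u).2
  have rC := repr_mul s1 s2 E.C E'.C D.C e.injective hC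
  have tri : ∀ a b c a' b' c', j a * j' a' * (j b * j' b') * (j c * j' c') =
      j (a * b * c) * j' (a' * b' * c') := fun a b c a' b' c' => by
    have k : ∀ a b a' b', j a * j' a' * (j b * j' b') = j (a * b) * j' (a' * b') :=
      fun a b a' b' => by
        rw [map_mul, map_mul, mul_assoc, mul_assoc, ← mul_assoc (j' a'), cm, mul_assoc]
    rw [k, k]
  have le1 : ∀ x y, D.Le x y → E.Le (e.symm x).1 (e.symm y).1 ∧ E'.Le (e.symm x).2 (e.symm y).2 := by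
    intro x y hxy
    induction hxy with
    | refl => exact ⟨E.le_refl _, E'.le_refl _⟩
    | @tail y z _ hyz ih =>
      obtain ⟨a, b, hab⟩ := hyz
      obtain ⟨p, q, hpq⟩ := exists_T D.T D.C (c := D.C z) (x := y) hab
      obtain ⟨⟨p, p'⟩, rfl⟩ := e.surjective p
      obtain ⟨⟨q, q'⟩, rfl⟩ := e.surjective q
      obtain ⟨⟨y, y'⟩, rfl⟩ := e.surjective y
      obtain ⟨⟨z, z'⟩, rfl⟩ := e.surjective z
      rw [← hT, ← hT, ← hC, tri, rC] at hpq
      rw [e.symm_apply_apply] at ih ⊢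
      exact ⟨ih.1.trans (E.le_of_repr (left_ne_zero_of_mul hpq)),
        ih.2.trans (E'.le_of_repr (right_ne_zero_of_mul hpq))⟩
  have le2 : ∀ v u w, E.Le v u → D.Le (e (v, w)) (e (u, w)) := by
    intro v u w hvu
    induction hvu with
    | refl => exact D.le_refl _
    | @tail y z _ hyz ih =>
      obtain ⟨a, b, hab⟩ := hyz
      refine ih.trans (D.le_of_repr (a := j a * j' 1) (b := j b * j' 1) ?_)
      rw [← hC, tri, rC, one_mul, mul_one, E'.C.repr_self, Finsupp.single_eq_same, mul_one]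
      exact hab
  have le3 : ∀ v u w, E'.Le v u → D.Le (e (w, v)) (e (w, u)) := by
    intro v u w hvu
    induction hvu with
    | refl => exact D.le_refl _
    | @tail y z _ hyz ih =>
      obtain ⟨a, b, hab⟩ := hyz
      refine ih.trans (D.le_of_repr (a := j 1 * j' a) (b := j 1 * j' b) ?_)
      rw [← hC, tri, rC, one_mul, mul_one, E.C.repr_self, Finsupp.single_eq_same, one_mul]
      exact hab
  have le : ∀ v v' u u', D.Le (e (v, v')) (e (u, u')) ↔ E.Le v u ∧ E'.Le v' u' :=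
    fun v v' u u' => ⟨fun k => by simpa using le1 _ _ k,
      fun k => (le2 v u v' k.1).trans (le3 v' u' u k.2)⟩
  have hch : ∀ z z' w w', D.ch (D.cell (e (z, z'))) (e (w, w')) =
      E.ch (E.cell z) w * E'.ch (E'.cell z') w' := fun z z' w w' => by
    unfold KL.ch
    rw [Finset.sum_mul_sum, ← Finset.sum_product']
    refine (Finset.sum_equiv e.toEquiv ?_ ?_).symm
    · rintro ⟨y, y'⟩
      change _ ↔ e (y, y') ∈ _
      rw [Finset.mem_product, KL.mem_cell, KL.mem_cell, KL.mem_cell, KL.Sim, KL.Sim, KL.Sim, le, le]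
      tauto
    · rintro ⟨y, y'⟩ -
      change _ = spc Γ (D.C.repr (D.T (e (w, w')) * D.C (e (y, y'))) (e (y, y')))
      have k := tri (E.T w) (E.C y) 1 (E'.T w') (E'.C y') 1
      rw [map_one, map_one, mul_one, mul_one, mul_one, mul_one, hT, hC] at k
      rw [k, rC, map_mul (spc Γ)]
  have fam : ∀ z z' {χ ψ ψ'}, Q.Fac χ ψ ψ' →
      (D.Fam (e (z, z')) χ ↔ E.Fam z ψ ∧ E'.Fam z' ψ') := fun z z' χ ψ ψ' k => by
    unfold KL.Fam
    rw [ip_mul e (hch z z') (fun u u' => by rw [he]; exact k.2.2 u u'), mul_ne_zero_iff]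
  constructor
  · rintro ⟨z, k, k₁⟩
    obtain ⟨⟨z, z'⟩, rfl⟩ := e.surjective z
    rw [fam z z' h] at k
    rw [fam z z' h₁] at k₁
    exact ⟨⟨z, k.1, k₁.1⟩, z', k.2, k₁.2⟩
  · rintro ⟨⟨z, k, k₁⟩, z', k', k₁'⟩
    exact ⟨e (z, z'), (fam z z' h).2 ⟨k, k'⟩, (fam z z' h₁).2 ⟨k₁, k₁'⟩⟩

end

end Pool.Agent.P.MP_1a0ecf_al.F
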