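import Pool.Agent.P.MP_1a0ecf_al.F.Face

/-! Package S1: tools for the Satake isomorphism. -/

namespace Pool.Agent.P.MP_1a0ecf_al.F

open Matrix MvPolynomial
open scoped Classical TensorProduct

noncomputable section

namespace S1P

variable {X : Cox} {κ : Wt X} (A : CA X κ)

theorem hom_ext {B : Type} [Ring B] [Algebra ℂ B] {φ ψ : A.H →ₐ[ℂ] B}
    (hx : ∀ a, φ (A.x a) = ψ (A.x a)) (hy : ∀ a, φ (A.y a) = ψ (A.y a))
    (hg : ∀ w, φ (A.g w) = ψ (A.g w)) : φ = ψ :=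
  AlgHom.ext (A.gen (AlgHom.equalizer φ ψ) hx hy hg)

theorem sc_ext {B : Type} [Ring B] [Algebra ℂ B] {φ ψ : X.Sc →ₐ[ℂ] B}
    (h : ∀ a, φ (lin ℂ a) = ψ (lin ℂ a)) (p : X.Sc) : φ p = ψ p :=
  AlgHom.congr_fun (MvPolynomial.algHom_ext fun i => by rw [← lin_single ℂ i, h]) p

theorem center_map {B B' : Type} [Ring B] [Algebra ℂ B] [Ring B'] [Algebra ℂ B'] (φ : B →ₐ[ℂ] B')
    (hφ : Function.Surjective φ) {z : B} (hz : z ∈ Subalgebra.center ℂ B) :
    φ z ∈ Subalgebra.center ℂ B' := by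
  rw [Subalgebra.mem_center_iff] at hz ⊢
  intro b
  obtain ⟨b', rfl⟩ := hφ b
  rw [← map_mul, ← map_mul, hz]

theorem pbw : ∃ Φ : (X.Sc ⊗[ℂ] (X.GA ⊗[ℂ] X.Sc)) ≃ₗ[ℂ] A.H,
    (∀ p h, Φ.symm (A.ex p * h) = (LinearMap.mulLeft ℂ p).rTensor _ (Φ.symm h)) ∧
    ∀ p h, Φ.symm (h * A.ey p) =
      ((LinearMap.mulRight ℂ p).lTensor X.GA).lTensor X.Sc (Φ.symm h) := by
  obtain ⟨Φ, hΦ⟩ := A.exists_pbw
  refine ⟨Φ, fun p h => ?_, fun p h => ?_⟩
  · refine A.c3_ind (Q := fun h => Φ.symm (A.ex p * h) =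
      (LinearMap.mulLeft ℂ p).rTensor _ (Φ.symm h)) (by simp) (fun a b ha hb => ?_)
      (fun c a ha => ?_) (fun q w q' => ?_) h
    · rw [mul_add, map_add, map_add, map_add, ha, hb]
    · rw [mul_smul_comm, map_smul, map_smul, map_smul, ha]
    · rw [← mul_assoc, ← mul_assoc, ← map_mul, ← hΦ, ← hΦ, Φ.symm_apply_apply,
        Φ.symm_apply_apply, LinearMap.rTensor_tmul, LinearMap.mulLeft_apply]
  · refine A.c3_ind (Q := fun h => Φ.symm (h * A.ey p) =
      ((LinearMap.mulRight ℂ p).lTensor X.GA).lTensor X.Sc (Φ.symm h)) (by simp)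
      (fun a b ha hb => ?_) (fun c a ha => ?_) (fun q w q' => ?_) h
    · rw [add_mul, map_add, map_add, map_add, ha, hb]
    · rw [smul_mul_assoc, map_smul, map_smul, map_smul, ha]
    · rw [mul_assoc, ← map_mul, ← hΦ, ← hΦ, Φ.symm_apply_apply, Φ.symm_apply_apply,
        LinearMap.lTensor_tmul, LinearMap.lTensor_tmul, LinearMap.mulRight_apply]

theorem exists_ne {w w' : X.W} (h : w ≠ w') : ∃ b, X.σK ℂ w *ᵥ b ≠ X.σK ℂ w' *ᵥ b := by
  by_contra hn
  push Not at hn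
  have e : X.σK ℂ w = X.σK ℂ w' := Matrix.ext_of_mulVec_single fun _ => hn _
  exact h (X.σ_injective (Matrix.map_injective (algebraMap ℝ ℂ).injective e))

theorem rels_congr {κ' : Wt X} (h : ∀ i, κ (X.s i) = κ' (X.s i)) {B : Type} [Ring B]
    [Algebra ℂ B] {x y : X.Vc →ₗ[ℂ] B} {g : X.W →* B} (hr : CRels X κ' x y g) :
    CRels X κ x y g := by
  refine ⟨hr.gx, hr.gy, hr.xx, hr.yy, fun a b => (hr.yx a b).trans ?_⟩
  refine Finset.sum_congr rfl fun t ht => ?_
  obtain ⟨w, i, rfl⟩ := X.mem_refls.1 ht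
  rw [κ.cl _ w (X.cs.isReflection_simple i), κ'.cl _ w (X.cs.isReflection_simple i), h]

theorem rel_of {κ' : Wt X} (h : ∀ i, κ (X.s i) = κ' (X.s i)) (A' : CA X κ') {χ χ' : X.W → ℂ}
    (hr : A'.rel χ χ') : A.rel χ χ' := by
  obtain ⟨φ, hx, hy, hg⟩ := A.lift A'.H _ _ _ (rels_congr h A'.rels)
  have h1 : ∀ p, φ (A.ex p) = A'.ex p :=
    sc_ext (φ := φ.comp A.ex) fun a => by rw [AlgHom.comp_apply, A.ex_lin, A'.ex_lin, hx]
  have h2 : ∀ p, φ (A.ey p) = A'.ey p :=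
    sc_ext (φ := φ.comp A.ey) fun a => by rw [AlgHom.comp_apply, A.ey_lin, A'.ey_lin, hy]
  have h3 : ∀ z, A'.P (φ z) = A.P z := fun z => by
    refine A.c3_ind (Q := fun z => A'.P (φ z) = A.P z) (by simp) (fun a b ha hb => ?_)
      (fun c a ha => ?_) (fun q w q' => ?_) z
    · rw [map_add, map_add, map_add, ha, hb]
    · rw [map_smul, map_smul, map_smul, ha]
    · rw [map_mul φ, map_mul φ, h1, h2, hg, A.P_spec, A'.P_spec]
  intro z hz
  rw [← h3]
  exact hr _ (center_map φ (A'.gen φ.range (fun a => ⟨_, hx a⟩) (fun a => ⟨_, hy a⟩)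
    fun w => ⟨_, hg w⟩) hz)

variable (X)

/-- the free algebra on the generators -/
abbrev Fa : Type := FreeAlgebra ℂ (Fin X.n ⊕ Fin X.n ⊕ X.W)

def fx : X.Vc →ₗ[ℂ] Fa X :=
  (Pi.basisFun ℂ (Fin X.n)).constr ℂ fun i => FreeAlgebra.ι ℂ (Sum.inl i)

def fy : X.Vc →ₗ[ℂ] Fa X :=
  (Pi.basisFun ℂ (Fin X.n)).constr ℂ fun i => FreeAlgebra.ι ℂ (Sum.inr (Sum.inl i))

def fg (w : X.W) : Fa X := FreeAlgebra.ι ℂ (Sum.inr (Sum.inr w))

variable {X}

section

variable {B : Type} [Ring B] [Algebra ℂ B] (x y : X.Vc →ₗ[ℂ] B) (g : X.W →* B)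

def ev : Fa X →ₐ[ℂ] B :=
  FreeAlgebra.lift ℂ (Sum.elim (fun i => x (Pi.basisFun ℂ (Fin X.n) i))
    (Sum.elim (fun i => y (Pi.basisFun ℂ (Fin X.n) i)) g))

theorem ev_x (a : X.Vc) : ev x y g (fx X a) = x a :=
  LinearMap.congr_fun ((Pi.basisFun ℂ (Fin X.n)).ext (f₁ := (ev x y g).toLinearMap ∘ₗ fx X)
    fun i => by
      rw [LinearMap.comp_apply, fx, Module.Basis.constr_basis]
      exact FreeAlgebra.lift_ι_apply _ _) a

theorem ev_y (a : X.Vc) : ev x y g (fy X a) = y a :=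
  LinearMap.congr_fun ((Pi.basisFun ℂ (Fin X.n)).ext (f₁ := (ev x y g).toLinearMap ∘ₗ fy X)
    fun i => by
      rw [LinearMap.comp_apply, fy, Module.Basis.constr_basis]
      exact FreeAlgebra.lift_ι_apply _ _) a

theorem ev_g (w : X.W) : ev x y g (fg X w) = g w := FreeAlgebra.lift_ι_apply _ _

end

variable (κ)

/-- the identities that hold in all algebras with the relations -/
def Rl (p q : Fa X) : Prop := ∀ (B : Type) [Ring B] [Algebra ℂ B] (x y : X.Vc →ₗ[ℂ] B)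
  (g : X.W →* B), CRels X κ x y g → ev x y g p = ev x y g q

abbrev mk : Fa X →ₐ[ℂ] RingQuot (Rl κ) := RingQuot.mkAlgHom ℂ (Rl κ)

theorem mk_eq {p q : Fa X} (h : Rl κ p q) : mk κ p = mk κ q := RingQuot.mkAlgHom_rel ℂ h

def mg : X.W →* RingQuot (Rl κ) where
  toFun w := mk κ (fg X w)
  map_one' := (mk_eq κ fun _ _ _ _ _ _ _ => by rw [ev_g, map_one, map_one]).trans (map_one _)
  map_mul' w w' := (mk_eq κ fun _ _ _ _ _ _ _ => by
    rw [map_mul (ev _ _ _), ev_g, ev_g, ev_g, map_mul]).trans (map_mul _ _ _)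

theorem rels : CRels X κ ((mk κ).toLinearMap ∘ₗ fx X) ((mk κ).toLinearMap ∘ₗ fy X) (mg κ) := by
  refine ⟨fun w a => ?_, fun w a => ?_, fun a b => ?_, fun a b => ?_, fun a b => ?_⟩
  · exact (map_mul (mk κ) _ _).symm.trans ((mk_eq κ fun _ _ _ _ _ _ h => by
      rw [map_mul, map_mul, ev_g, ev_x, ev_x, h.gx]).trans (map_mul _ _ _))
  · exact (map_mul (mk κ) _ _).symm.trans ((mk_eq κ fun _ _ _ _ _ _ h => by
      rw [map_mul, map_mul, ev_g, ev_y, ev_y, h.gy]).trans (map_mul _ _ _))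
  · exact (map_mul (mk κ) _ _).symm.trans ((mk_eq κ fun _ _ _ _ _ _ h => by
      rw [map_mul, map_mul, ev_x, ev_x, h.xx]).trans (map_mul _ _ _))
  · exact (map_mul (mk κ) _ _).symm.trans ((mk_eq κ fun _ _ _ _ _ _ h => by
      rw [map_mul, map_mul, ev_y, ev_y, h.yy]).trans (map_mul _ _ _))
  · have := mk_eq κ (p := fy X a * fx X b - fx X b * fy X a)
      (q := ∑ t ∈ X.refls, (κ t * X.BK ℂ (X.rc t) a * X.BK ℂ (X.rc t) b) • fg X t)
      fun _ _ _ _ _ _ h => by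
        simp only [map_sub, map_mul, map_sum, map_smul, ev_x, ev_y, ev_g, h.yx]
    simp only [map_sub, map_mul, map_sum, map_smul] at this
    exact this

end S1P

namespace CA

variable {X : Cox} {κ : Wt X} (A : CA X κ)

theorem g_mul_e (w : X.W) : A.g w * A.e = A.e := by
  rw [e, mul_smul_comm, Finset.mul_sum]
  congr 1
  exact Fintype.sum_equiv (Equiv.mulLeft w) _ _ fun u => (map_mul _ _ _).symm

theorem e_mul_g (w : X.W) : A.e * A.g w = A.e := by
  rw [e, smul_mul_assoc, Finset.sum_mul]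
  congr 1
  exact Fintype.sum_equiv (Equiv.mulRight w) _ _ fun u => (map_mul _ _ _).symm

theorem e_mul_e : A.e * A.e = A.e := by
  nth_rewrite 1 [e]
  rw [smul_mul_assoc, Finset.sum_mul]
  simp only [g_mul_e, Finset.sum_const, Finset.card_univ]
  rw [← Nat.cast_smul_eq_nsmul ℂ, smul_smul,
    inv_mul_cancel₀ (Nat.cast_ne_zero.2 Fintype.card_ne_zero), one_smul]

theorem ex_cancel {p : X.Sc} (hp : p ≠ 0) {h : A.H} (h0 : A.ex p * h = 0) : h = 0 := by
  obtain ⟨Φ, h1, -⟩ := S1P.pbw A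
  have h2 := h1 p h
  rw [h0, map_zero] at h2
  exact Φ.symm.map_eq_zero_iff.1 ((injective_iff_map_eq_zero _).1
    (Module.Flat.rTensor_preserves_injective_linearMap (LinearMap.mulLeft ℂ p)
      (mul_right_injective₀ hp)) _ h2.symm)

theorem ex_dvd {p p' : X.Sc} (hp' : p' ≠ 0) {h k : A.H} (e : h * A.ey p' = A.ex p * k) :
    ∃ h', h = A.ex p * h' := by
  obtain ⟨Φ, h1, h2⟩ := S1P.pbw A
  have hE := rTensor_exact (X.GA ⊗[ℂ] X.Sc) (LinearMap.mulLeft ℂ p).exact_map_mkQ_range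
    (Submodule.mkQ_surjective _)
  set π := (LinearMap.range (LinearMap.mulLeft ℂ p)).mkQ
  set f := (LinearMap.mulRight ℂ p').lTensor X.GA
  have hf : Function.Injective f :=
    Module.Flat.lTensor_preserves_injective_linearMap _ (mul_left_injective₀ hp')
  have h3 : f.lTensor _ (π.rTensor _ (Φ.symm h)) = 0 := by
    rw [← LinearMap.comp_apply, LinearMap.lTensor_comp_rTensor, ← LinearMap.rTensor_comp_lTensor,
      LinearMap.comp_apply, ← h2, e, h1]
    exact hE.apply_apply_eq_zero _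
  obtain ⟨t, ht⟩ := (hE _).1 ((injective_iff_map_eq_zero _).1
    (Module.Flat.lTensor_preserves_injective_linearMap f hf) _ h3)
  exact ⟨Φ t, Φ.symm.injective (by rw [h1, Φ.symm_apply_apply, ht])⟩

/-- independence of the group elements over the centraliser of the `x a` -/
theorem indep {c : X.W → A.H} (hc : ∀ w a, A.x a * c w = c w * A.x a)
    (h : ∑ w, c w * A.g w = 0) (w : X.W) : c w = 0 := by
  suffices H : ∀ (s : Finset X.W) (c : X.W → A.H), (∀ w a, A.x a * c w = c w * A.x a) →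
      ∑ w ∈ s, c w * A.g w = 0 → ∀ w ∈ s, c w = 0 from H _ c hc h w (Finset.mem_univ w)
  intro s
  induction s using Finset.induction_on with
  | empty => simp
  | insert u s hu ih =>
    intro c hc h
    have h1 : ∀ w ∈ s, c w = 0 := fun w hw => by
      obtain ⟨b, hb⟩ := S1P.exists_ne (ne_of_mem_of_not_mem hw hu)
      have h2 : ∑ v ∈ insert u s, A.x (X.σK ℂ v *ᵥ b - X.σK ℂ u *ᵥ b) * c v * A.g v = 0 := by
        have h3 : ∀ v, A.x (X.σK ℂ v *ᵥ b - X.σK ℂ u *ᵥ b) * c v * A.g v =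
            c v * A.g v * A.x b - A.x (X.σK ℂ u *ᵥ b) * (c v * A.g v) := fun v => by
          rw [map_sub, sub_mul, sub_mul, hc v, mul_assoc, mul_assoc, mul_assoc, A.rels.gx]
        simp only [h3]
        rw [Finset.sum_sub_distrib, ← Finset.sum_mul, ← Finset.mul_sum, h, zero_mul, mul_zero,
          sub_zero]
      rw [Finset.sum_insert hu, sub_self, map_zero, zero_mul, zero_mul, zero_add] at h2
      have h4 := ih _ (fun v a => by rw [← mul_assoc, A.rels.xx, mul_assoc, hc, mul_assoc]) h2 w hw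
      rw [← ex_lin] at h4
      exact A.ex_cancel ((map_ne_zero_iff _ (lin_injective ℂ)).2 (sub_ne_zero.2 hb)) h4
    rw [Finset.sum_insert hu, Finset.sum_eq_zero fun w hw => by rw [h1 w hw, zero_mul],
      add_zero] at h
    refine Finset.forall_mem_insert _ _ _ |>.2 ⟨?_, h1⟩
    rw [← mul_one (c u), ← map_one A.g, ← mul_inv_cancel u, map_mul, ← mul_assoc, h, zero_mul]

theorem center_cancel {z : A.H} (hz : z ∈ Subalgebra.center ℂ A.H) (h : z * A.e = 0) :
    z = 0 := by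
  rw [e, mul_smul_comm, Finset.mul_sum] at h
  exact A.indep (c := fun _ => z) (fun _ _ => Subalgebra.mem_center_iff.1 hz _)
    ((smul_eq_zero_iff_right (inv_ne_zero (Nat.cast_ne_zero.2 Fintype.card_ne_zero))).1 h) 1

/-- the Fourier automorphism -/
theorem exists_fourier : ∃ φ : A.H ≃ₐ[ℂ] A.H, (∀ a, φ (A.x a) = A.y a) ∧
    (∀ a, φ (A.y a) = -A.x a) ∧ (∀ w, φ (A.g w) = A.g w) ∧ ∀ p, φ (A.ex p) = A.ey p := by
  have h0 : ∀ a b, A.y b * A.x a - A.x a * A.y b =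
      ∑ t ∈ X.refls, (κ t * X.BK ℂ (X.rc t) a * X.BK ℂ (X.rc t) b) • A.g t := fun a b => by
    simp only [A.rels.yx, mul_right_comm]
  obtain ⟨φ, hx, hy, hg⟩ := A.lift A.H A.y (-A.x) A.g ⟨A.rels.gy,
    fun w a => by simp only [LinearMap.neg_apply, mul_neg, neg_mul, A.rels.gx], A.rels.yy,
    fun a b => by simp only [LinearMap.neg_apply, neg_mul_neg, A.rels.xx a b], fun a b => by
      rw [← h0, LinearMap.neg_apply, mul_neg, neg_mul, neg_sub_neg]⟩
  obtain ⟨ψ, hx', hy', hg'⟩ := A.lift A.H (-A.y) A.x A.g ⟨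
    fun w a => by simp only [LinearMap.neg_apply, mul_neg, neg_mul, A.rels.gy], A.rels.gx,
    fun a b => by simp only [LinearMap.neg_apply, neg_mul_neg, A.rels.yy a b], A.rels.xx,
    fun a b => by rw [← h0, LinearMap.neg_apply, mul_neg, neg_mul, neg_sub_neg]⟩
  refine ⟨AlgEquiv.ofAlgHom φ ψ (S1P.hom_ext A (fun a => ?_) (fun a => ?_) fun w => ?_)
    (S1P.hom_ext A (fun a => ?_) (fun a => ?_) fun w => ?_), hx, hy, hg,
    S1P.sc_ext (φ := φ.comp A.ex) fun a => by rw [AlgHom.comp_apply, ex_lin, ey_lin, hx]⟩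
  all_goals simp [hx, hy, hg, hx', hy', hg']

theorem ey_center {r : X.Sc} (h : ∀ w, X.act ℂ w r = r) :
    A.ey r ∈ Subalgebra.center ℂ A.H := by
  obtain ⟨φ, -, -, -, hφ⟩ := A.exists_fourier
  rw [← hφ]
  exact S1P.center_map φ.toAlgHom φ.surjective (A.ex_center h)

/-- homogeneous central elements of nonzero degree have projection zero -/
theorem P_eq_zero {z : A.H} (hz : z ∈ Subalgebra.center ℂ A.H) {ι : Type} [Fintype ι]
    {p p' : ι → X.Sc} {k k' : ℕ} (hk : k ≠ k') (hp : ∀ i, IsHomogeneous (p i) k)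
    (hp' : ∀ i, IsHomogeneous (p' i) k')
    (h : z * A.e = A.e * (∑ i, A.ex (p i) * A.ey (p' i)) * A.e) : A.P z = 0 := by
  obtain ⟨θ, hθ⟩ := A.c3_theta 2
  obtain ⟨h1, h2⟩ := hθ two_ne_zero
  have h3 : ∀ w, θ (A.g w) = A.g w := fun w => by
    simpa using h2 1 w 1 0 0 (isHomogeneous_one _ _) (isHomogeneous_one _ _)
  have h4 : θ A.e = A.e := by simp only [e, map_smul, map_sum, h3]
  have h5 : ∀ i, θ (A.ex (p i) * A.ey (p' i)) =
      ((2 : ℂ) ^ k * 2⁻¹ ^ k') • (A.ex (p i) * A.ey (p' i)) := fun i => by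
    have := h2 (p i) 1 (p' i) k k' (hp i) (hp' i)
    rwa [map_one, mul_one] at this
  have h6 : θ z = ((2 : ℂ) ^ k * 2⁻¹ ^ k') • z := by
    refine sub_eq_zero.1 (A.center_cancel (sub_mem (h1 z hz) (Subalgebra.smul_mem _ hz _)) ?_)
    have := congrArg θ h
    rw [map_mul, map_mul, map_mul, h4, map_sum] at this
    simp only [h5] at this
    rw [sub_mul, this, smul_mul_assoc, h, ← Finset.smul_sum, mul_smul_comm, smul_mul_assoc,
      sub_self]
  have h7 : ∀ a, A.P (θ a) = A.P a := fun a => by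
    have ha := A.span_top_hom a
    induction ha using Submodule.span_induction with
    | mem a ha =>
      obtain ⟨q, w, q', l, l', hq, hq', rfl⟩ := ha
      rw [h2 q w q' l l' hq hq', map_smul, P_spec]
      by_cases hl : l = 0
      · by_cases hl' : l' = 0
        · rw [hl, hl', pow_zero, pow_zero, mul_one, one_smul]
        · rw [c3_cc hq' hl', mul_zero, zero_smul, smul_zero]
      · rw [c3_cc hq hl, zero_mul, zero_smul, smul_zero]
    | zero => rw [map_zero]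
    | add a b _ _ ha hb => rw [map_add, map_add, map_add, ha, hb]
    | smul c a _ ha => rw [map_smul, map_smul, map_smul, ha]
  have h8 := h7 z
  rw [h6, map_smul, ← sub_eq_zero, ← one_smul ℂ (A.P z), smul_smul, ← sub_smul, mul_one,
    smul_eq_zero_iff_right] at h8
  · exact h8
  · rw [sub_ne_zero, inv_pow, Ne, mul_inv_eq_one₀ (pow_ne_zero _ two_ne_zero)]
    exact fun e => hk (Nat.pow_right_injective le_rfl (by exact_mod_cast e))

end CA

theorem exists_CA' (X : Cox) (κ : Wt X) : Nonempty (CA X κ) := by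
  refine ⟨⟨RingQuot (S1P.Rl κ), _, _, _, S1P.rels κ, fun S hx hy hg h => ?_,
    fun B _ _ x y g hr => ?_⟩⟩
  · obtain ⟨f, rfl⟩ := RingQuot.mkAlgHom_surjective ℂ (S1P.Rl κ) h
    induction f using FreeAlgebra.induction with
    | grade0 r => rw [AlgHom.commutes]; exact S.algebraMap_mem r
    | grade1 v =>
      rcases v with i | i | w
      · have := hx (Pi.basisFun ℂ (Fin X.n) i)
        rwa [LinearMap.comp_apply, S1P.fx, Module.Basis.constr_basis] at this
      · have := hy (Pi.basisFun ℂ (Fin X.n) i)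
        rwa [LinearMap.comp_apply, S1P.fy, Module.Basis.constr_basis] at this
      · exact hg w
    | mul a b h h' => rw [map_mul]; exact mul_mem h h'
    | add a b h h' => rw [map_add]; exact add_mem h h'
  · have hφ : ∀ ⦃p q⦄, S1P.Rl κ p q → S1P.ev x y g p = S1P.ev x y g q :=
      fun _ _ h => h B x y g hr
    exact ⟨RingQuot.liftAlgHom ℂ ⟨_, hφ⟩,
      fun a => (RingQuot.liftAlgHom_mkAlgHom_apply ℂ _ hφ _).trans (S1P.ev_x x y g a),
      fun a => (RingQuot.liftAlgHom_mkAlgHom_apply ℂ _ hφ _).trans (S1P.ev_y x y g a),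
      fun w => (RingQuot.liftAlgHom_mkAlgHom_apply ℂ _ hφ _).trans (S1P.ev_g x y g w)⟩

theorem CA.rel_congr {X : Cox} {κ κ' : Wt X} (h : ∀ i, κ (X.s i) = κ' (X.s i)) (A : CA X κ)
    (A' : CA X κ') (χ χ' : X.W → ℂ) : A.rel χ χ' ↔ A'.rel χ χ' :=
  ⟨S1P.rel_of A' (fun i => (h i).symm) A, S1P.rel_of A h A'⟩

end

end Pool.Agent.P.MP_1a0ecf_al.F
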