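import Pool.Agent.P.MP_1a0ecf_al.F.P1
import Pool.Agent.P.MP_1a0ecf_al.F.S1

/-! Package P3: products: central characters. -/

namespace Pool.Agent.P.MP_1a0ecf_al.F

open Matrix MvPolynomial
open scoped Classical TensorProduct

noncomputable section

namespace P3

section ParS

variable {Y X : Cox} (P : Par Y.toCox0 X.toCox0)

/-- extension of complex vectors by zero -/
def ec : Y.Vc →ₗ[ℂ] X.Vc := Fintype.linearCombination ℂ fun i => X.eb (P.e i)

/-- restriction of complex vectors -/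
def rs : X.Vc →ₗ[ℂ] Y.Vc := LinearMap.funLeft ℂ ℂ P.e

theorem ec_apply (v : Y.Vc) : ec P v = ∑ i, v i • X.eb (P.e i) := by
  simp [ec, Fintype.linearCombination_apply]

theorem ec_eb (i : Fin Y.n) : ec P (Y.eb i) = X.eb (P.e i) := by
  simp [ec, Fintype.linearCombination_apply_single]

theorem rs_apply (a : X.Vc) (j : Fin Y.n) : rs P a j = a (P.e j) := rfl

theorem ec_e (v : Y.Vc) (j : Fin Y.n) : ec P v (P.e j) = v j := by
  rw [ec_apply, Finset.sum_apply, Finset.sum_eq_single j]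
  · simp
  · intro i _ hi
    simp [Pi.single_eq_of_ne (P.inj.ne hi.symm)]
  · simp

theorem ec_out (v : Y.Vc) {i : Fin X.n} (h : ∀ j, P.e j ≠ i) : ec P v i = 0 := by
  rw [ec_apply, Finset.sum_apply]
  refine Finset.sum_eq_zero fun j _ => ?_
  simp [Pi.single_eq_of_ne (h j).symm]

theorem rs_ec (v : Y.Vc) : rs P (ec P v) = v := funext fun j => ec_e P v j

theorem BK_eb (X : Cox) (i j : Fin X.n) : X.BK ℂ (X.eb i) (X.eb j) = algebraMap ℝ ℂ (X.K i j) := by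
  simp [Cox.BK]

theorem BK_sum {Y Y' X : Cox} (P : Par Y.toCox0 X.toCox0) (P' : Par Y'.toCox0 X.toCox0)
    (u : Y.Vc) (v : Y'.Vc) : X.BK ℂ (ec P u) (ec P' v) =
      ∑ i, ∑ j, u i * v j * algebraMap ℝ ℂ (X.K (P.e i) (P'.e j)) := by
  simp only [← BK_eb]
  simp only [ec_apply, Cox.BK, mulVec_sum, mulVec_smul, dotProduct_sum, sum_dotProduct,
    dotProduct_smul, smul_dotProduct, smul_eq_mul, Finset.mul_sum, mul_assoc]
  rw [Finset.sum_comm]
  refine Finset.sum_congr rfl fun i _ => Finset.sum_congr rfl fun j _ => ?_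
  ring

theorem BK_ec (u v : Y.Vc) : X.BK ℂ (ec P u) (ec P v) = Y.BK ℂ u v := by
  rw [BK_sum]
  simp only [P.K_e, Cox.BK, dotProduct, mulVec, map_apply, Finset.mul_sum]
  refine Finset.sum_congr rfl fun i _ => Finset.sum_congr rfl fun j _ => ?_
  ring

theorem vK_ext (v : Fin Y.n → ℝ) : X.vK ℂ (P.ext v) = ec P (Y.vK ℂ v) := by
  funext k
  simp only [Cox.vK, Par.ext, ec_apply, Finset.sum_apply, Pi.smul_apply, map_sum, smul_eq_mul,
    map_mul, Pi.single_apply]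
  refine Finset.sum_congr rfl fun i _ => ?_
  split_ifs <;> simp

theorem rc_ι {t : Y.W} (h : Y.cs.IsReflection t) : X.rc (P.ι t) = ec P (Y.rc t) := by
  rw [Cox.rc, P.rt_ι h, vK_ext]

theorem σ_ec (u : Y.W) (v : Y.Vc) : X.σK ℂ (P.ι u) *ᵥ ec P v = ec P (Y.σK ℂ u *ᵥ v) := by
  induction u using Y.cs.simple_induction generalizing v with
  | simple i =>
    have h := Y.cs.isReflection_simple i
    rw [X.σK_refl ℂ (P.isReflection_ι h), Y.σK_refl ℂ h, map_sub, map_smul]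
    have e := rc_ι P h
    unfold Cox.rc at e
    rw [e, BK_ec]
  | one => simp
  | mul w w' h h' => rw [map_mul, X.c1_mul, Y.c1_mul, h', h]

end ParS

section PrdS

variable {Y Y' X : Cox} (Q : Prd Y Y' X)

theorem e_ne (j : Fin Y.n) (j' : Fin Y'.n) : Q.P.e j ≠ Q.P'.e j' := by
  intro h
  have h2 := Q.two j j'
  rw [h, X.M.diagonal] at h2
  omega

theorem BK_orth (u : Y.Vc) (v : Y'.Vc) : X.BK ℂ (ec Q.P u) (ec Q.P' v) = 0 := by
  rw [BK_sum]
  refine Finset.sum_eq_zero fun i _ => Finset.sum_eq_zero fun j _ => ?_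
  rw [X.K_two (Q.two i j), map_zero, mul_zero]

theorem σ_fix (u : Y.W) (v : Y'.Vc) : X.σK ℂ (Q.P.ι u) *ᵥ ec Q.P' v = ec Q.P' v := by
  induction u using Y.cs.simple_induction with
  | simple i =>
    have h := Y.cs.isReflection_simple i
    rw [X.σK_refl ℂ (Q.P.isReflection_ι h)]
    have e := rc_ι Q.P h
    unfold Cox.rc at e
    rw [e, BK_orth, zero_smul, sub_zero]
  | one => simp
  | mul w w' h h' => rw [map_mul, X.c1_mul, h', h]

theorem rs_ec' (v : Y'.Vc) : rs Q.P (ec Q.P' v) = 0 :=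
  funext fun j => ec_out Q.P' v fun j' => (e_ne Q j j').symm

theorem split (a : X.Vc) : a = ec Q.P (rs Q.P a) + ec Q.P' (rs Q.P' a) := by
  funext i
  rcases Q.cover i with ⟨j, rfl⟩ | ⟨j, rfl⟩
  · rw [Pi.add_apply, ec_e, ec_out Q.P' _ fun j' => (e_ne Q j j').symm, add_zero, rs_apply]
  · rw [Pi.add_apply, ec_e, ec_out Q.P _ fun j' => e_ne Q j' j, zero_add, rs_apply]

theorem rs_σ (u : Y.W) (u' : Y'.W) (a : X.Vc) :
    rs Q.P (X.σK ℂ (Q.P.ι u * Q.P'.ι u') *ᵥ a) = Y.σK ℂ u *ᵥ rs Q.P a := by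
  have h1 : X.σK ℂ (Q.P'.ι u') *ᵥ ec Q.P (rs Q.P a) = ec Q.P (rs Q.P a) := σ_fix Q.symm u' _
  conv_lhs => rw [split Q a]
  rw [X.c1_mul, mulVec_add, h1, σ_ec, mulVec_add, σ_ec, σ_fix, map_add, rs_ec, rs_ec', add_zero]

theorem rs_σ' (u : Y.W) (u' : Y'.W) (a : X.Vc) :
    rs Q.P' (X.σK ℂ (Q.P.ι u * Q.P'.ι u') *ᵥ a) = Y'.σK ℂ u' *ᵥ rs Q.P' a := by
  rw [Q.comm]
  exact rs_σ Q.symm u' u a

theorem BK_rc {t : Y.W} (h : Y.cs.IsReflection t) (a : X.Vc) :
    X.BK ℂ (X.rc (Q.P.ι t)) a = Y.BK ℂ (Y.rc t) (rs Q.P a) := by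
  conv_lhs => rw [split Q a]
  rw [rc_ι Q.P h, C2.BK_add, BK_ec, BK_orth, add_zero]

theorem BK_rc' {t : Y'.W} (h : Y'.cs.IsReflection t) (a : X.Vc) :
    X.BK ℂ (X.rc (Q.P'.ι t)) a = Y'.BK ℂ (Y'.rc t) (rs Q.P' a) := BK_rc Q.symm h a

theorem rs'_ec (v : Y.Vc) : rs Q.P' (ec Q.P v) = 0 := rs_ec' Q.symm v

theorem BK_zero (X : Cox) (u : X.Vc) : X.BK ℂ u 0 = 0 := by simp [Cox.BK]

end PrdS

/-- characterisation of the functional `chx χ ∘ P` -/
theorem eq_chx_P {X : Cox} {κ : Wt X} (A : CA X κ) (χ : X.W → ℂ) (L : A.H →ₗ[ℂ] ℂ)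
    (hx : ∀ a h, L (A.x a * h) = 0) (hy : ∀ a h, L (h * A.y a) = 0) (hg : ∀ w, L (A.g w) = χ w)
    (h : A.H) : L h = chx χ (A.P h) := by
  have h1 : ∀ (p : X.Sc) h, L (A.ex p * h) = constantCoeff p * L h := by
    intro p
    induction p using MvPolynomial.induction_on with
    | C c =>
      intro h
      rw [algHom_C, ← Algebra.smul_def, map_smul, constantCoeff_C, smul_eq_mul]
    | add p q hp hq =>
      intro h
      rw [map_add, add_mul, map_add, hp, hq, map_add, add_mul]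
    | mul_X p i _ =>
      intro h
      rw [mul_comm p, map_mul A.ex, ← lin_single, A.ex_lin, mul_assoc, hx, map_mul, constantCoeff_lin,
        zero_mul, zero_mul]
  have h2 : ∀ (p : X.Sc) h, L (h * A.ey p) = constantCoeff p * L h := by
    intro p
    induction p using MvPolynomial.induction_on with
    | C c =>
      intro h
      rw [algHom_C, ← Algebra.commutes, ← Algebra.smul_def, map_smul, constantCoeff_C, smul_eq_mul]
    | add p q hp hq =>
      intro h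
      rw [map_add, mul_add, map_add, hp, hq, map_add, add_mul]
    | mul_X p i _ =>
      intro h
      rw [map_mul A.ey, ← lin_single, A.ey_lin, ← mul_assoc, hy, map_mul, constantCoeff_lin,
        mul_zero, zero_mul]
  refine A.c3_ind (Q := fun h => L h = chx χ (A.P h)) (by simp) (fun a b ha hb => ?_)
    (fun c a ha => ?_) (fun p w p' => ?_) h
  · rw [map_add, map_add, map_add, ha, hb]
  · rw [map_smul, map_smul, map_smul, ha]
  · rw [h2, h1, hg, A.P_spec, map_smul, chx_of, smul_eq_mul]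
    ring

end P3

open P3

namespace Prd

variable {Y Y' X : Cox} (Q : Prd Y Y' X) {κ : Wt X} (A : CA X κ) (B : CA Y (κ.res Q.P))

theorem p3_phi : ∃ φ : B.H →ₐ[ℂ] A.H, (∀ a, φ (B.x a) = A.x (ec Q.P a)) ∧
    (∀ a, φ (B.y a) = A.y (ec Q.P a)) ∧ ∀ u, φ (B.g u) = A.g (Q.P.ι u) := by
  refine B.lift A.H (A.x ∘ₗ ec Q.P) (A.y ∘ₗ ec Q.P) (A.g.comp Q.P.ι)
    ⟨fun u a => ?_, fun u a => ?_, fun a b => A.rels.xx _ _, fun a b => A.rels.yy _ _,
      fun a b => ?_⟩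
  · simp only [LinearMap.comp_apply, MonoidHom.comp_apply, A.rels.gx, σ_ec]
  · simp only [LinearMap.comp_apply, MonoidHom.comp_apply, A.rels.gy, σ_ec]
  · simp only [LinearMap.comp_apply, MonoidHom.comp_apply]
    rw [A.rels.yx, Q.sum_refls, Finset.sum_eq_zero (s := Y'.refls), add_zero]
    · refine Finset.sum_congr rfl fun t ht => ?_
      rw [BK_rc Q (Y.mem_refls.1 ht), BK_rc Q (Y.mem_refls.1 ht), rs_ec, rs_ec]
      rfl
    · intro t ht
      rw [BK_rc' Q (Y'.mem_refls.1 ht), rs'_ec, BK_zero, mul_zero, zero_mul, zero_smul]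

theorem p3_yx (a : Y.Vc) (b : Y'.Vc) :
    A.y (ec Q.P a) * A.x (ec Q.P' b) = A.x (ec Q.P' b) * A.y (ec Q.P a) := by
  rw [← sub_eq_zero, A.rels.yx, Q.sum_refls, Finset.sum_eq_zero, Finset.sum_eq_zero, add_zero]
  · intro t ht
    rw [BK_rc' Q (Y'.mem_refls.1 ht), rs'_ec, BK_zero, mul_zero, zero_mul, zero_smul]
  · intro t ht
    rw [BK_rc Q (Y.mem_refls.1 ht) (ec Q.P' b), rs_ec', BK_zero, mul_zero, zero_smul]

theorem rel_left {χ χ₁ : X.W → ℂ} {ψ ψ₁ : Y.W → ℂ} {ψ' ψ₁' : Y'.W → ℂ}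
    (h : Q.Fac χ ψ ψ') (h₁ : Q.Fac χ₁ ψ₁ ψ₁') (r : A.rel χ χ₁) : B.rel ψ ψ₁ := by
  obtain ⟨φ, hx, hy, hg⟩ := Q.p3_phi A B
  have hc : ∀ c : A.H, (∀ a, A.x (ec Q.P a) * c = c * A.x (ec Q.P a)) →
      (∀ a, A.y (ec Q.P a) * c = c * A.y (ec Q.P a)) →
      (∀ u, A.g (Q.P.ι u) * c = c * A.g (Q.P.ι u)) → ∀ z, c * φ z = φ z * c := by
    intro c h1 h2 h3 z
    have := B.gen ((Subalgebra.centralizer ℂ {c}).comap φ) (fun a => ?_) (fun a => ?_)
      (fun u => ?_) z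
    · exact (Subalgebra.mem_centralizer_iff ℂ).1 this c rfl
    · rw [Subalgebra.mem_comap, Subalgebra.mem_centralizer_iff]
      rintro _ rfl
      rw [hx, h1]
    · rw [Subalgebra.mem_comap, Subalgebra.mem_centralizer_iff]
      rintro _ rfl
      rw [hy, h2]
    · rw [Subalgebra.mem_comap, Subalgebra.mem_centralizer_iff]
      rintro _ rfl
      rw [hg, h3]
  have hP : ∀ {χ : X.W → ℂ} {ψ : Y.W → ℂ} {ψ' : Y'.W → ℂ}, Q.Fac χ ψ ψ' → ∀ z,
      chx χ (A.P (φ z)) = chx ψ (B.P z) * ψ' 1 := by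
    intro χ ψ ψ' h z
    have h1 := eq_chx_P B (fun u => ψ u * ψ' 1) (chx χ ∘ₗ A.P ∘ₗ φ.toLinearMap)
      (fun a m => ?_) (fun a m => ?_) (fun u => ?_) z
    · rw [t1_chx_apply ψ, Finset.sum_mul]
      refine h1.trans ?_
      rw [t1_chx_apply]
      exact Finset.sum_congr rfl fun u _ => (mul_assoc _ _ _).symm
    · change chx χ (A.P (φ (B.x a * m))) = 0
      rw [map_mul, hx, A.P_x_mul, map_zero]
    · change chx χ (A.P (φ (m * B.y a))) = 0
      rw [map_mul, hy, A.P_LY (A.mul_y_mem _ _), map_zero]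
    · change chx χ (A.P (φ (B.g u))) = _
      rw [hg, A.P_g, chx_of, ← h.2.2, map_one, mul_one]
  intro z hz
  have hz' := Subalgebra.mem_center_iff.1 hz
  have hφ : φ z ∈ Subalgebra.center ℂ A.H := by
    refine A.mem_center_of (fun a => ?_) (fun a => ?_) fun w => ?_
    · rw [split Q a, map_add, add_mul, mul_add, ← hx, ← map_mul, hz', map_mul]
      congr 1
      refine hc _ (fun b => A.rels.xx _ _) (fun b => Q.p3_yx A _ _) (fun u => ?_) z
      rw [A.rels.gx, σ_fix]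
    · rw [split Q a, map_add, add_mul, mul_add, ← hy, ← map_mul, hz', map_mul]
      congr 1
      refine hc (A.y (ec Q.P' (rs Q.P' a))) (fun b => (Q.symm.p3_yx A _ _).symm)
        (fun b => A.rels.yy _ _) (fun u => ?_) z
      rw [A.rels.gy, σ_fix]
    · obtain ⟨u, u', rfl⟩ := Q.exists_eq w
      have h1 : A.g (Q.P'.ι u') * φ z = φ z * A.g (Q.P'.ι u') := by
        refine hc _ (fun b => ?_) (fun b => ?_) (fun v => ?_) z
        · have e : X.σK ℂ (Q.P'.ι u') *ᵥ ec Q.P b = ec Q.P b := σ_fix Q.symm u' b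
          rw [A.rels.gx, e]
        · have e : X.σK ℂ (Q.P'.ι u') *ᵥ ec Q.P b = ec Q.P b := σ_fix Q.symm u' b
          rw [A.rels.gy, e]
        · rw [← map_mul, ← map_mul, Q.comm]
      rw [map_mul, mul_assoc, h1, ← mul_assoc, ← hg, ← map_mul, hz', map_mul, mul_assoc]
  have e := r _ hφ
  have e1 := h.2.2 1 1
  have e2 := h₁.2.2 1 1
  rw [map_one, map_one, one_mul] at e1 e2
  rw [hP h, hP h₁, e1, e2] at e
  refine mul_right_cancel₀ (mul_ne_zero h.2.1.one_ne h₁.2.1.one_ne) ?_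
  linear_combination e

theorem p3_theta (B' : CA Y' (κ.res Q.P')) : ∃ θ : A.H →ₐ[ℂ] B.H ⊗[ℂ] B'.H,
    (∀ a, θ (A.x a) = B.x (rs Q.P a) ⊗ₜ 1 + 1 ⊗ₜ B'.x (rs Q.P' a)) ∧
    (∀ a, θ (A.y a) = B.y (rs Q.P a) ⊗ₜ 1 + 1 ⊗ₜ B'.y (rs Q.P' a)) ∧
    ∀ u u', θ (A.g (Q.P.ι u * Q.P'.ι u')) = B.g u ⊗ₜ B'.g u' := by
  obtain ⟨e, he⟩ := Q.exists_equiv
  let G : X.W →* B.H ⊗[ℂ] B'.H :=
    { toFun := fun w => B.g (e.symm w).1 ⊗ₜ B'.g (e.symm w).2
      map_one' := by simp [Algebra.TensorProduct.one_def]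
      map_mul' := fun w w' => by simp [Algebra.TensorProduct.tmul_mul_tmul] }
  have hG : ∀ u u', G (Q.P.ι u * Q.P'.ι u') = B.g u ⊗ₜ B'.g u' := by
    intro u u'
    rw [← he]
    change B.g (e.symm (e (u, u'))).1 ⊗ₜ B'.g (e.symm (e (u, u'))).2 = _
    rw [e.symm_apply_apply]
  let D : (Y.Vc →ₗ[ℂ] B.H) → (Y'.Vc →ₗ[ℂ] B'.H) → (X.Vc →ₗ[ℂ] B.H ⊗[ℂ] B'.H) := fun f f' =>
    (TensorProduct.mk ℂ B.H B'.H).flip 1 ∘ₗ f ∘ₗ rs Q.P +
      TensorProduct.mk ℂ B.H B'.H 1 ∘ₗ f' ∘ₗ rs Q.P'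
  have hD : ∀ f f' a, D f f' a = f (rs Q.P a) ⊗ₜ 1 + 1 ⊗ₜ f' (rs Q.P' a) := fun _ _ _ => rfl
  suffices hr : CRels X κ (D B.x B'.x) (D B.y B'.y) G by
    obtain ⟨θ, h1, h2, h3⟩ := A.lift (B.H ⊗[ℂ] B'.H) _ _ _ hr
    exact ⟨θ, h1, h2, fun u u' => by rw [h3, hG]⟩
  refine ⟨fun w a => ?_, fun w a => ?_, fun a b => ?_, fun a b => ?_, fun a b => ?_⟩
  · obtain ⟨u, u', rfl⟩ := Q.exists_eq w
    simp only [hG, hD, rs_σ, rs_σ', mul_add, add_mul, Algebra.TensorProduct.tmul_mul_tmul,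
      mul_one, one_mul, B.rels.gx, B'.rels.gx]
  · obtain ⟨u, u', rfl⟩ := Q.exists_eq w
    simp only [hG, hD, rs_σ, rs_σ', mul_add, add_mul, Algebra.TensorProduct.tmul_mul_tmul,
      mul_one, one_mul, B.rels.gy, B'.rels.gy]
  · simp only [hD, mul_add, add_mul, Algebra.TensorProduct.tmul_mul_tmul, mul_one, one_mul]
    rw [B.rels.xx, B'.rels.xx]
    abel
  · simp only [hD, mul_add, add_mul, Algebra.TensorProduct.tmul_mul_tmul, mul_one, one_mul]
    rw [B.rels.yy, B'.rels.yy]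
    abel
  · have e1 : D B.y B'.y a * D B.x B'.x b - D B.x B'.x b * D B.y B'.y a =
        (B.y (rs Q.P a) * B.x (rs Q.P b) - B.x (rs Q.P b) * B.y (rs Q.P a)) ⊗ₜ 1 +
        1 ⊗ₜ (B'.y (rs Q.P' a) * B'.x (rs Q.P' b) - B'.x (rs Q.P' b) * B'.y (rs Q.P' a)) := by
      simp only [hD, mul_add, add_mul, Algebra.TensorProduct.tmul_mul_tmul, mul_one, one_mul,
        TensorProduct.sub_tmul, TensorProduct.tmul_sub]
      abel
    rw [e1, B.rels.yx, B'.rels.yx, Q.sum_refls, TensorProduct.sum_tmul, TensorProduct.tmul_sum]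
    congr 1
    · refine Finset.sum_congr rfl fun t ht => ?_
      have e2 := hG t 1
      rw [map_one, mul_one, map_one] at e2
      rw [BK_rc Q (Y.mem_refls.1 ht), BK_rc Q (Y.mem_refls.1 ht), e2, TensorProduct.smul_tmul']
      rfl
    · refine Finset.sum_congr rfl fun t ht => ?_
      have e2 := hG 1 t
      rw [map_one, one_mul, map_one] at e2
      rw [BK_rc' Q (Y'.mem_refls.1 ht), BK_rc' Q (Y'.mem_refls.1 ht), e2, TensorProduct.tmul_smul]
      rfl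

theorem rel_of_left {χ χ₁ : X.W → ℂ} {ψ ψ₁ : Y.W → ℂ} {ψ' : Y'.W → ℂ}
    (h : Q.Fac χ ψ ψ') (h₁ : Q.Fac χ₁ ψ₁ ψ') (r : B.rel ψ ψ₁) : A.rel χ χ₁ := by
  obtain ⟨B'⟩ := exists_CA' Y' (κ.res Q.P')
  obtain ⟨θ, hx, hy, hg⟩ := Q.p3_theta A B B'
  let L : B.H ⊗[ℂ] B'.H →ₗ[ℂ] B.H :=
    (TensorProduct.rid ℂ B.H).toLinearMap ∘ₗ LinearMap.lTensor B.H (chx ψ' ∘ₗ B'.P)
  have hL : ∀ b b', L (b ⊗ₜ b') = chx ψ' (B'.P b') • b := fun _ _ => rfl
  have hl : ∀ b T, L ((b ⊗ₜ 1) * T) = b * L T := by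
    intro b T
    induction T using TensorProduct.induction_on with
    | zero => simp
    | tmul c c' => rw [Algebra.TensorProduct.tmul_mul_tmul, hL, hL, one_mul, mul_smul_comm]
    | add S T hS hT => rw [mul_add, map_add, map_add, hS, hT, mul_add]
  have hr : ∀ b T, L (T * (b ⊗ₜ 1)) = L T * b := by
    intro b T
    induction T using TensorProduct.induction_on with
    | zero => simp
    | tmul c c' => rw [Algebra.TensorProduct.tmul_mul_tmul, hL, hL, mul_one, smul_mul_assoc]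
    | add S T hS hT => rw [add_mul, map_add, map_add, hS, hT, add_mul]
  have hl' : ∀ a T, L ((1 ⊗ₜ B'.x a) * T) = 0 := by
    intro a T
    induction T using TensorProduct.induction_on with
    | zero => simp
    | tmul c c' => rw [Algebra.TensorProduct.tmul_mul_tmul, hL, B'.P_x_mul, map_zero, zero_smul]
    | add S T hS hT => rw [mul_add, map_add, hS, hT, add_zero]
  have hr' : ∀ a T, L (T * (1 ⊗ₜ B'.y a)) = 0 := by
    intro a T
    induction T using TensorProduct.induction_on with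
    | zero => simp
    | tmul c c' =>
      rw [Algebra.TensorProduct.tmul_mul_tmul, hL, B'.P_LY (B'.mul_y_mem _ _), map_zero, zero_smul]
    | add S T hS hT => rw [add_mul, map_add, hS, hT, add_zero]
  have hP : ∀ {χ : X.W → ℂ} {ψ : Y.W → ℂ}, Q.Fac χ ψ ψ' → ∀ z,
      chx ψ (B.P (L (θ z))) = chx χ (A.P z) := by
    intro χ ψ h z
    refine eq_chx_P A χ (chx ψ ∘ₗ B.P ∘ₗ L ∘ₗ θ.toLinearMap) (fun a m => ?_) (fun a m => ?_)
      (fun w => ?_) z
    · change chx ψ (B.P (L (θ (A.x a * m)))) = 0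
      rw [map_mul, hx, add_mul, map_add, hl, hl', add_zero, B.P_x_mul, map_zero]
    · change chx ψ (B.P (L (θ (m * A.y a)))) = 0
      rw [map_mul, hy, mul_add, map_add, hr, hr', add_zero, B.P_LY (B.mul_y_mem _ _), map_zero]
    · change chx ψ (B.P (L (θ (A.g w)))) = _
      obtain ⟨u, u', rfl⟩ := Q.exists_eq w
      rw [hg, hL, map_smul, map_smul, B.P_g, B'.P_g, chx_of, chx_of, h.2.2, smul_eq_mul, mul_comm]
  intro z hz
  have hz' := Subalgebra.mem_center_iff.1 hz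
  have hc : ∀ (b : B.H) (m : A.H), θ m = b ⊗ₜ 1 → b * L (θ z) = L (θ z) * b := by
    intro b m hm
    rw [← hl, ← hr, ← hm, ← map_mul, hz', map_mul]
  have hψ : L (θ z) ∈ Subalgebra.center ℂ B.H := by
    refine B.mem_center_of (fun a => hc _ (A.x (ec Q.P a)) ?_) (fun a => hc _ (A.y (ec Q.P a)) ?_)
      fun u => hc _ (A.g (Q.P.ι u * Q.P'.ι 1)) ?_
    · rw [hx, rs_ec, rs'_ec, map_zero, TensorProduct.tmul_zero, add_zero]
    · rw [hy, rs_ec, rs'_ec, map_zero, TensorProduct.tmul_zero, add_zero]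
    · rw [hg, map_one]
  have e := r _ hψ
  have e1 := h.2.2 1 1
  have e2 := h₁.2.2 1 1
  rw [map_one, map_one, one_mul] at e1 e2
  rw [hP h, hP h₁] at e
  rw [e1, e2]
  linear_combination ψ' 1 * e

end Prd

end

end Pool.Agent.P.MP_1a0ecf_al.F
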