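import Pool.Agent.P.MP_1a0ecf_al.F.P2
import Pool.Agent.P.MP_1a0ecf_al.F.P3
import Pool.Agent.P.MP_1a0ecf_al.F.C0
import Pool.Agent.P.MP_1a0ecf_al.F.C4
import Pool.Agent.P.MP_1a0ecf_al.Bridge

/-! Package P4: products and the passage to the statement. -/

namespace Pool.Agent.P.MP_1a0ecf_al.F

open Matrix MvPolynomial
open scoped Classical TensorProduct

noncomputable section

theorem p4_conj {X : Cox} {L : Fin X.n → ℝ} {κ : Wt X} (hκ : ∀ i, κ (X.s i) = (L i : ℂ) / 2)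
    (i j : Fin X.n) (h : IsConj (X.s i) (X.s j)) : L i = L j := by
  obtain ⟨u, hu⟩ := isConj_iff.1 h
  have e := κ.cl _ u (X.cs.isReflection_simple i)
  rw [hu, hκ, hκ] at e
  exact_mod_cast (div_left_inj' (two_ne_zero (α := ℂ))).1 e.symm

theorem p4_cm {X : Cox} {ρ : Representation ℂ X.W (Fin X.n → ℂ)} (hρ : IsGeom X.cs ρ)
    {c : X.W → ℝ} {κ : Wt X} (hc : ∀ t, X.cs.IsReflection t → κ t = (c t : ℂ) / 2) (A : CA X κ)
    {d d' : ℕ} {π : Representation ℂ X.W (Fin d → ℂ)} {π' : Representation ℂ X.W (Fin d' → ℂ)}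
    (hπ : π.IsIrreducible) (hπ' : π'.IsIrreducible) :
    SameCM X.cs ρ c π π' ↔ A.rel π.character π'.character := by
  obtain ⟨A', hA⟩ := exists_CA X hρ hc
  exact (hA d d' π π').trans ((A'.same_iff hπ hπ').trans (CA.rel_congr (fun _ => rfl) A' A _ _))

theorem p4_kl {X : Cox} {c : X.W → ℝ} {L : Fin X.n → ℝ} (hL : ∀ i, c (X.s i) = L i)
    (E : KL X (Gam X.cs c) (wt X.cs c)) (D : KL X ℝ L)
    {d d' : ℕ} {π : Representation ℂ X.W (Fin d → ℂ)} {π' : Representation ℂ X.W (Fin d' → ℂ)}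
    (hπ : π.IsIrreducible) (hπ' : π'.IsIrreducible) :
    (∃ z, Occurs E.T E.C z π ∧ Occurs E.T E.C z π') ↔ D.Rel π.character π'.character := by
  refine Iff.trans ?_ (E.rel_map D (Gam X.cs c).subtype (fun _ _ h => h) hL _ _)
  exact exists_congr fun z => and_congr
    ((occurs_iff' E.T E.C z π).symm.trans (E.occurs_iff z hπ))
    ((occurs_iff' E.T E.C z π').symm.trans (E.occurs_iff z hπ'))

theorem good_zero (X : Cox) (h : X.n = 0) : X.Good := by
  intro L _ κ _ D A χ χ' hχ hχ'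
  have he : ∀ _ : Fin X.n, False := fun i => by have := i.2; omega
  refine iff_of_true (A.rel_of_zero ?_ _ _) (D.rel_of_zero (fun i => (he i).elim) hχ hχ')
  rintro t ⟨_, i, -⟩
  exact (he i).elim

theorem Prd.good {Y Y' X : Cox} (Q : Prd Y Y' X) (h : Y.Good) (h' : Y'.Good) : X.Good := by
  intro L hL κ hκ D A χ χ₁ hχ hχ₁
  obtain ⟨ψ, ψ', f⟩ := Q.exists_fac hχ
  obtain ⟨ψ₁, ψ₁', f₁⟩ := Q.exists_fac hχ₁
  have k : ∀ i, κ.res Q.P (Y.s i) = (L (Q.P.e i) : ℂ) / 2 := fun i =>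
    (congrArg κ (Q.P.ι_s i)).trans (hκ _)
  have k' : ∀ i, κ.res Q.P' (Y'.s i) = (L (Q.P'.e i) : ℂ) / 2 := fun i =>
    (congrArg κ (Q.P'.ι_s i)).trans (hκ _)
  obtain ⟨E⟩ := exists_KL (L := fun i => L (Q.P.e i)) (p4_conj k)
  obtain ⟨E'⟩ := exists_KL (L := fun i => L (Q.P'.e i)) (p4_conj k')
  obtain ⟨B⟩ := exists_CA' Y (κ.res Q.P)
  obtain ⟨B'⟩ := exists_CA' Y' (κ.res Q.P')
  rw [Q.rel_KL D E E' f f₁, ← h _ (fun i => hL _) _ k E B _ _ f.1 f₁.1,
    ← h' _ (fun i => hL _) _ k' E' B' _ _ f.2.1 f₁.2.1]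
  refine ⟨fun r => ⟨Q.rel_left A B f f₁ r, Q.symm.rel_left A B' f.symm f₁.symm r⟩, fun r => ?_⟩
  obtain ⟨χ₂, hχ₂, f₂⟩ := Q.exists_prod f₁.1 f.2.1
  exact (Q.rel_of_left A B f f₂ r.1).trans (Q.symm.rel_of_left A B' f₂.symm f₁.symm r.2)
    hχ₂.one_ne

theorem good_of_gm (X : Cox) (h : GordonMartino X.M) : X.Good := by
  rintro L hL κ hκ D A _ _ ⟨d, π, hπ, rfl⟩ ⟨d', π', hπ', rfl⟩
  have hρ : IsGeom X.cs ((Matrix.toLinAlgEquiv' (R := ℂ) (n := Fin X.n)).toMonoidHom.comp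
      (X.σK ℂ)) := fun i j => by
    show X.σK ℂ (X.s i) *ᵥ Pi.single j 1 = _
    rw [← X.vK_al ℂ j, X.σK_vK ℂ, X.σ_simple_mulVec, X.B_al_al, ← X.vK_al ℂ i]
    funext l
    simp [Cox.vK, Cox0.K]
  let c : X.W → ℝ := fun t => (2 * κ t).re
  have hs : ∀ i, c (X.s i) = L i := fun i => by
    simp only [c, hκ]
    rw [mul_div_cancel₀ _ two_ne_zero, Complex.ofReal_re]
  have hj : ∀ t w, X.cs.IsReflection t → c (w * t * w⁻¹) = c t := fun t w ht => by
    simp only [c, κ.cl t w ht]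
  have hc : ∀ t, X.cs.IsReflection t → κ t = (c t : ℂ) / 2 := by
    rintro _ ⟨w, i, rfl⟩
    rw [hj _ w (X.cs.isReflection_simple i), κ.cl _ w (X.cs.isReflection_simple i), hs, hκ]
  have h0 : ∀ t, X.cs.IsReflection t → 0 ≤ c t := by
    rintro _ ⟨w, i, rfl⟩
    rw [hj _ w (X.cs.isReflection_simple i), hs]
    exact hL i
  obtain ⟨E⟩ := exists_KL (X := X) (L := wt X.cs c) fun i j e =>
    Subtype.ext ((hs i).trans ((p4_conj hκ i j e).trans (hs j).symm))
  rw [← p4_cm hρ hc A hπ hπ', ← p4_kl hs E D hπ hπ']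
  refine h X.W X.cs _ hρ c h0 hj E.H E.T E.C E.bar ⟨E.T_one, fun x i => ?_⟩
    ⟨fun γ a => ?_, E.bar_T⟩ (fun x => ⟨E.bar_C x, fun y γ hγ => E.C_neg x y γ hγ⟩) d d' π π' hπ hπ'
  · split_ifs with e
    · rw [add_zero]
      exact E.T_up x i e
    · exact E.T_down x i (lt_of_le_of_ne (not_lt.1 e) (X.cs.length_mul_simple_ne x i))
  · rw [E.bar_smul]
    exact congrArg (· • E.bar a) (mapG_single _ γ 1)

theorem gm_of_good {n : ℕ} (M : CoxeterMatrix (Fin n)) (h : ∀ X : Cox, X.Good) :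
    GordonMartino M := by
  intro W _ _ cs ρ hρ c h0 hj H _ _ T C bar hT hb hC d d' π π' hπ hπ'
  let X : Cox := { n := n, M := M, W := W, cs := cs, hM := bond_ne_zero cs }
  let κ : Wt X := ⟨fun t => (c t : ℂ) / 2, fun t w ht => by rw [hj t w ht]⟩
  let E : KL X (Gam cs c) (wt cs c) :=
    { H := H
      T := T
      T_one := hT.1
      T_up := fun x i e => by
        have e1 := hT.2 x i
        rwa [if_pos e, add_zero] at e1
      T_down := fun x i e => by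
        have e1 := hT.2 x i
        rwa [if_neg (not_lt.2 e.le)] at e1
      bar := bar
      bar_smul := fun r a => by
        induction r using AddMonoidAlgebra.induction_linear with
        | zero => simp
        | add a b ha hb => simp only [map_add, add_smul, ha, hb]
        | single δ m =>
          have e : ∀ ε : Gam cs c, (AddMonoidAlgebra.single ε m : ZG (Gam cs c)) =
              m • AddMonoidAlgebra.single ε 1 := fun ε => by
            rw [AddMonoidAlgebra.smul_single, smul_eq_mul, mul_one]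
          rw [barG, mapG_single, e δ, e (negAddMonoidHom δ), smul_assoc, smul_assoc, map_zsmul,
            hb.1]
          rfl
      bar_T := hb.2
      C := C
      bar_C := fun x => (hC x).1
      C_neg := fun x y γ hγ => (hC x).2 y γ hγ }
  have hκ : ∀ i, κ (X.s i) = ((fun i => c (cs.simple i)) i : ℂ) / 2 := fun _ => rfl
  obtain ⟨D⟩ := exists_KL (X := X) (L := fun i => c (cs.simple i)) (p4_conj hκ)
  obtain ⟨A⟩ := exists_CA' X κ
  exact (p4_cm (X := X) hρ (fun _ _ => rfl) A hπ hπ').trans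
    ((h X _ (fun i => h0 _ (cs.isReflection_simple i)) κ hκ D A _ _ ⟨d, π, hπ, rfl⟩
      ⟨d', π', hπ', rfl⟩).trans (p4_kl (X := X) (fun _ => rfl) E D hπ hπ').symm)

end

end Pool.Agent.P.MP_1a0ecf_al.F
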