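import Pool.Agent.P.MP_1a0ecf_al.F.Face

/-! Package T4: the group of type F4: data. -/

namespace Pool.Agent.P.MP_1a0ecf_al.F

open scoped Classical

noncomputable section

/-- words for the representatives of the conjugacy classes -/
def wd4 (c : ℕ) : List ℕ := ([
    [], [0], [2], [0, 1], [0, 2], [1, 2], [2, 3], [0, 1, 2], [0, 1, 3], [0, 2, 3], [1, 2, 3],
    [0, 1, 2, 3], [1, 2, 1, 2], [0, 1, 2, 1, 2], [1, 2, 1, 2, 3], [0, 1, 2, 1, 2, 3],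
    [0, 1, 0, 2, 1, 2, 3, 2], [0, 1, 0, 2, 1, 0, 2, 1, 2], [1, 2, 1, 2, 3, 2, 1, 2, 3],
    [0, 1, 0, 2, 1, 0, 2, 1, 2, 3], [0, 1, 2, 1, 2, 3, 2, 1, 2, 3],
    [0, 1, 0, 2, 1, 0, 2, 3, 2, 1, 2, 3], [0, 1, 0, 2, 1, 0, 2, 1, 2, 3, 2, 1, 2, 3],
    [0, 1, 0, 2, 1, 0, 2, 3, 2, 1, 0, 2, 1, 2, 3, 2],
    [0, 1, 0, 2, 1, 0, 2, 1, 2, 3, 2, 1, 0, 2, 1, 2, 3, 2, 1, 0, 2, 1, 2, 3]] : List (List ℕ)).getD c []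

/-- sizes of the classes -/
def sz4 (c : ℕ) : ℕ := (
[1, 12, 12, 32, 72, 36, 32, 96, 96, 96, 96, 96, 18, 72, 72, 144, 16, 12, 12, 32, 32, 12, 36, 16, 1] : List ℕ).getD c 0

/-- the character table -/
def tab4 (j c : ℕ) : ℤ := (([
    [1, 1, 1, 1, 1, 1, 1, 1, 1, 1, 1, 1, 1, 1, 1, 1, 1, 1, 1, 1, 1, 1, 1, 1, 1],
    [1, 1, -1, 1, -1, -1, 1, -1, -1, 1, 1, 1, 1, 1, -1, -1, 1, -1, 1, 1, 1, 1, -1, 1, 1],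
    [1, -1, 1, 1, -1, -1, 1, 1, 1, -1, -1, 1, 1, -1, 1, -1, 1, 1, -1, 1, 1, 1, -1, 1, 1],
    [1, -1, -1, 1, 1, 1, 1, -1, -1, -1, -1, 1, 1, -1, -1, 1, 1, -1, -1, 1, 1, 1, 1, 1, 1],
    [2, 2, 0, 2, 0, 0, -1, 0, 0, -1, -1, -1, 2, 2, 0, 0, -1, 0, 2, -1, 2, 2, 0, -1, 2],
    [2, 0, 2, -1, 0, 0, 2, -1, -1, 0, 0, -1, 2, 0, 2, 0, -1, 2, 0, 2, -1, 2, 0, -1, 2],
    [2, 0, -2, -1, 0, 0, 2, 1, 1, 0, 0, -1, 2, 0, -2, 0, -1, -2, 0, 2, -1, 2, 0, -1, 2],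
    [2, -2, 0, 2, 0, 0, -1, 0, 0, 1, 1, -1, 2, -2, 0, 0, -1, 0, -2, -1, 2, 2, 0, -1, 2],
    [4, 2, 2, 1, 0, 2, 1, 1, -1, -1, 1, 0, 0, 0, 0, 0, 2, -2, -2, -1, -1, 0, -2, -2, -4],
    [4, 2, -2, 1, 0, -2, 1, -1, 1, -1, 1, 0, 0, 0, 0, 0, 2, 2, -2, -1, -1, 0, 2, -2, -4],
    [4, 0, 0, -2, 0, 0, -2, 0, 0, 0, 0, 1, 4, 0, 0, 0, 1, 0, 0, -2, -2, 4, 0, 1, 4],
    [4, -2, 2, 1, 0, -2, 1, 1, -1, 1, -1, 0, 0, 0, 0, 0, 2, -2, 2, -1, -1, 0, 2, -2, -4],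
    [4, -2, -2, 1, 0, 2, 1, -1, 1, 1, -1, 0, 0, 0, 0, 0, 2, 2, 2, -1, -1, 0, -2, -2, -4],
    [6, 0, 0, 0, -2, 2, 0, 0, 0, 0, 0, -1, -2, 0, 0, 0, 3, 0, 0, 0, 0, 2, 2, 3, 6],
    [6, 0, 0, 0, 2, -2, 0, 0, 0, 0, 0, -1, -2, 0, 0, 0, 3, 0, 0, 0, 0, 2, -2, 3, 6],
    [8, 4, 0, 2, 0, 0, -1, 0, 0, 1, -1, 0, 0, 0, 0, 0, -2, 0, -4, 1, -2, 0, 0, 2, -8],
    [8, 0, 4, -1, 0, 0, 2, -1, 1, 0, 0, 0, 0, 0, 0, 0, -2, -4, 0, -2, 1, 0, 0, 2, -8],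
    [8, 0, -4, -1, 0, 0, 2, 1, -1, 0, 0, 0, 0, 0, 0, 0, -2, 4, 0, -2, 1, 0, 0, 2, -8],
    [8, -4, 0, 2, 0, 0, -1, 0, 0, -1, 1, 0, 0, 0, 0, 0, -2, 0, 4, 1, -2, 0, 0, 2, -8],
    [9, 3, 3, 0, 1, 1, 0, 0, 0, 0, 0, 0, 1, -1, -1, -1, 0, 3, 3, 0, 0, -3, 1, 0, 9],
    [9, 3, -3, 0, -1, -1, 0, 0, 0, 0, 0, 0, 1, -1, 1, 1, 0, -3, 3, 0, 0, -3, -1, 0, 9],
    [9, -3, 3, 0, -1, -1, 0, 0, 0, 0, 0, 0, 1, 1, -1, 1, 0, 3, -3, 0, 0, -3, -1, 0, 9],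
    [9, -3, -3, 0, 1, 1, 0, 0, 0, 0, 0, 0, 1, 1, 1, -1, 0, -3, -3, 0, 0, -3, 1, 0, 9],
    [12, 0, 0, 0, 0, 0, 0, 0, 0, 0, 0, 1, -4, 0, 0, 0, -3, 0, 0, 0, 0, 4, 0, -3, 12],
    [16, 0, 0, -2, 0, 0, -2, 0, 0, 0, 0, 0, 0, 0, 0, 0, 2, 0, 0, 2, 2, 0, 0, -2, -16]] : List (List ℤ)).getD j []).getD c 0

/-- `6 χ(s 0) / χ(1)` -/
def oa4 (j : ℕ) : ℤ := ([6, 6, -6, -6, 6, 0, 0, -6, 3, 3, 0, -3, -3, 0, 0, 3, 0, 0, -3, 2, 2, -2, -2, 0, 0] : List ℤ).getD j 0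

/-- `6 χ(s 2) / χ(1)` -/
def ob4 (j : ℕ) : ℤ := ([6, -6, 6, -6, 0, 6, -6, 0, 3, -3, 0, 3, -3, 0, 0, 0, 3, -3, 0, 2, -2, 2, -2, 0, 0] : List ℤ).getD j 0

/-- pairs that are never in one family although their Euler values can agree -/
def bad4 : List (ℕ × ℕ) := [
    (1, 8), (2, 8), (5, 9), (7, 9), (4, 11), (6, 11), (1, 12), (2, 12), (2, 15), (11, 15),
    (1, 16), (9, 16), (15, 16), (2, 17), (11, 17), (1, 18), (9, 18), (17, 18), (9, 19), (11, 19),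
    (5, 20), (7, 20), (16, 20), (18, 20), (4, 21), (6, 21), (15, 21), (17, 21), (9, 22), (11, 22)]

/-- the families for the parameters `a` (nodes 0, 1) and `b` (nodes 2, 3), not both zero -/
def Fam4 (a b : ℝ) (j j' : ℕ) : Prop :=
  oa4 j * a + ob4 j * b = oa4 j' * a + ob4 j' * b ∧ (j, j') ∉ bad4 ∧ (j', j) ∉ bad4

namespace Cox

variable (X : Cox)

/-- class representatives -/
def el4 (c : ℕ) : X.W := ((wd4 c).map X.sN).prod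

variable {X}

/-- `χ` has the values of row `j` -/
def IsChi (χ : X.W → ℂ) (j : ℕ) : Prop := ∀ c < 25, χ (X.el4 c) = tab4 j c

variable (X)

/-- what the Kazhdan-Lusztig side delivers in type F4 -/
def KLF : Prop := X.Is (pathM 1 4) → X.n = 4 →
  (∀ j < 25, ∃ χ : X.W → ℂ, IsCh χ ∧ IsChi χ j) ∧ ∀ a b : ℝ, 0 ≤ a → a ≤ b → 0 < b →
    ∀ (D : KL X ℝ fun i => if (i : ℕ) < 2 then a else b) (χ χ' : X.W → ℂ), IsIrr χ → IsIrr χ' →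
      ∀ j < 25, ∀ j' < 25, IsChi χ j → IsChi χ' j' → (D.Rel χ χ' ↔ Fam4 a b j j')

end Cox

end

end Pool.Agent.P.MP_1a0ecf_al.F
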