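import Pool.Agent.P.MP_1a0ecf_al.F.T4
import Pool.Agent.P.MP_1a0ecf_al.F.T4d
import Pool.Agent.P.MP_1a0ecf_al.F.G6
import Pool.Agent.P.MP_1a0ecf_al.Q0

/-! The group of type F4: enumeration of the elements. -/

namespace Pool.Agent.P.MP_1a0ecf_al.F.F4

open Matrix Finset
open scoped Classical

noncomputable section

set_option maxRecDepth 100000

theorem bits_lt (x lo w : ℕ) : bits x lo w < 2 ^ w := by
  have h : 0 < 2 ^ w := by positivity
  have e : Nat.land (Nat.shiftRight x lo) (2 ^ w - 1) ≤ 2 ^ w - 1 := Nat.and_le_right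
  exact lt_of_le_of_lt e (Nat.sub_lt h one_pos)

/-- integer coordinates -/
def cz (v i : ℕ) : ℤ := (co v i : ℤ) - 3

/-- the Cartan matrix -/
def cart (k j : ℕ) : ℤ :=
  if k = j then 2 else if k = 1 ∧ j = 2 then -2 else if k + 1 = j ∨ j + 1 = k then -1 else 0

theorem gen_cz : ∀ k < 4, ∀ v < 24, ∀ i < 4, cz (rf k v) i = cz v i -
    if i = k then cart k 0 * cz v 0 + cart k 1 * cz v 1 + cart k 2 * cz v 2 + cart k 3 * cz v 3
    else 0 := by decide +kernel

theorem cz_inj : ∀ v < 24, ∀ u < 24, (∀ i < 4, cz v i = cz u i) → v = u := by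
  have e : ∀ v < 24, ∀ u < 24, v = u ∨ ∃ i < 4, cz v i ≠ cz u i := by decide +kernel
  intro v hv u hu c
  rcases e v hv u hu with e | ⟨i, hi, e⟩
  exacts [e, absurd (c i hi) e]

theorem cz_base : ∀ v < 4, ∀ i < 4, cz v i = if v = 0 then (if i = 0 then 1 else 0) else
    if 1 ≤ i ∧ i ≤ v then 1 else 0 := by decide +kernel

theorem rf_lt : ∀ t < 24, ∀ v < 24, rf t v < 24 := by decide +kernel

theorem rf_rf : ∀ t < 24, ∀ v < 24, rf t (rf t v) = v := by decide +kernel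

theorem cd_lt {i v : ℕ} (hi : i < 1152) (hv : v < 24) : cd i v < 24 := by
  simpa using (allN_eq _ _).1 ((allN_eq _ _).1 h1 i hi) v hv

/-- the scale of a coordinate -/
def sc (i : ℕ) : ℝ := if i < 2 then 1 else Real.sqrt 2

theorem sc_ne (i : ℕ) : sc i ≠ 0 := by
  unfold sc
  split_ifs
  · exact one_ne_zero
  · positivity

variable {X : Cox}

/-- the roots conjugate to the first simple root -/
def pt (X : Cox) (v : ℕ) : Fin X.n → ℝ := fun i => sc i * cz v i

/-- `x` acts on the points as `f` -/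
def Acts (x : X.W) (f : ℕ → ℕ) : Prop := ∀ v < 24, X.σ x *ᵥ pt X v = pt X (f v)

theorem Acts.mul {x y : X.W} {f g : ℕ → ℕ} (hx : Acts x f) (hy : Acts y g)
    (hg : ∀ v < 24, g v < 24) : Acts (x * y) fun v => f (g v) := fun v hv => by
  rw [map_mul, ← mulVec_mulVec, hy v hv, hx _ (hg v hv)]

theorem Acts.congr {x : X.W} {f g : ℕ → ℕ} (hx : Acts x f) (e : ∀ v < 24, g v = f v) :
    Acts x g := fun v hv => by rw [e v hv, hx v hv]

theorem acts_one : Acts (1 : X.W) fun v => v := fun v _ => by simp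

section

variable (h : X.Is (pathM 1 4)) (hn : X.n = 4)

include hn in
theorem sum4 {N : Type} [AddCommMonoid N] (f : Fin X.n → N) :
    ∑ i, f i = f ⟨0, by omega⟩ + f ⟨1, by omega⟩ + f ⟨2, by omega⟩ + f ⟨3, by omega⟩ := by
  rw [← (finCongr hn.symm).sum_comp, Fin.sum_univ_four]
  rfl

include h hn in
theorem K_sc (k j : Fin X.n) : X.K k j * sc j = sc k * cart k j := by
  have s2 : Real.sqrt 2 * Real.sqrt 2 = 2 := Real.mul_self_sqrt (by norm_num)
  have c3 : Real.cos (Real.pi / (3 : ℕ)) = 1 / 2 := by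
    rw [show ((3 : ℕ) : ℝ) = 3 by norm_num, Real.cos_pi_div_three]
  have c4 : Real.cos (Real.pi / (4 : ℕ)) = Real.sqrt 2 / 2 := by
    rw [show ((4 : ℕ) : ℝ) = 4 by norm_num, Real.cos_pi_div_four]
  have c2 : Real.cos (Real.pi / (2 : ℕ)) = 0 := by
    rw [show ((2 : ℕ) : ℝ) = 2 by norm_num, Real.cos_pi_div_two]
  have c1 : Real.cos (Real.pi / (1 : ℕ)) = -1 := by simp
  rw [Cox0.K, h k j]
  obtain ⟨k, hk⟩ := k
  obtain ⟨j, hj⟩ := j
  have hk' : k < 4 := hn ▸ hk
  have hj' : j < 4 := hn ▸ hj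
  interval_cases k <;> interval_cases j <;>
    simp only [pathM, sc, cart] <;> norm_num [c1, c2, c3, c4] <;> nlinarith

include h hn in
theorem acts_gen {k : ℕ} (hk : k < 4) : Acts (X.sN k) (rf k) := fun v hv => by
  have hk' : k < X.n := hn ▸ hk
  rw [Cox.sN, dif_pos hk', X.σ_simple_mulVec]
  have e : X.B (X.al ⟨k, hk'⟩) (pt X v) = sc k *
      ((cart k 0 * cz v 0 + cart k 1 * cz v 1 + cart k 2 * cz v 2 + cart k 3 * cz v 3 : ℤ) : ℝ) := by
    rw [Cox0.B, single_dotProduct, one_mul, mulVec, dotProduct, sum4 hn]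
    simp only [pt, ← mul_assoc, K_sc h hn]
    push_cast
    ring
  funext i
  rw [Pi.sub_apply, Pi.smul_apply, e, pt, pt, gen_cz k hk v hv i (hn ▸ i.2)]
  by_cases hi : (i : ℕ) = k
  · obtain rfl : i = ⟨k, hk'⟩ := Fin.ext hi
    simp only [Pi.single_eq_same, smul_eq_mul, if_true]
    push_cast
    ring
  · have hne : i ≠ ⟨k, hk'⟩ := fun e' => hi (congrArg Fin.val e')
    simp [Pi.single_eq_of_ne hne, if_neg hi]

include hn in
theorem al_eq (i : Fin X.n) : X.al i = (sc i)⁻¹ •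
    (pt X i - if 2 ≤ (i : ℕ) then pt X (i - 1) else 0) := by
  have hi : (i : ℕ) < 4 := hn ▸ i.2
  rw [eq_inv_smul_iff₀ (sc_ne i)]
  funext j
  have hj : (j : ℕ) < 4 := hn ▸ j.2
  have e : ∀ v < 4, pt X v j = sc j * (if v = 0 then (if (j : ℕ) = 0 then 1 else 0) else
      if 1 ≤ (j : ℕ) ∧ (j : ℕ) ≤ v then 1 else 0 : ℤ) := fun v hv => by rw [pt, cz_base v hv j hj]
  rw [Pi.smul_apply, Pi.sub_apply, ite_apply, e i hi, e (i - 1) (by omega), Cox0.al,
    Pi.single_apply]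
  obtain ⟨i, _⟩ := i
  obtain ⟨j, _⟩ := j
  simp only [Fin.mk.injEq] at hi hj ⊢
  interval_cases i <;> interval_cases j <;> simp

include hn in
theorem ext4 {x y : X.W} {f g : ℕ → ℕ} (hx : Acts x f) (hy : Acts y g)
    (e : ∀ v < 4, f v = g v) : x = y := by
  have e1 : ∀ v < 4, X.σ x *ᵥ pt X v = X.σ y *ᵥ pt X v := fun v hv => by
    rw [hx v (by omega), hy v (by omega), e v hv]
  have e2 : ∀ i, X.σ x *ᵥ X.al i = X.σ y *ᵥ X.al i := fun i => by
    have hi : (i : ℕ) < 4 := hn ▸ i.2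
    rw [al_eq hn, mulVec_smul, mulVec_smul, mulVec_sub, mulVec_sub, e1 i hi]
    split_ifs
    · rw [e1 _ (by omega)]
    · simp
  refine X.σ_injective (Matrix.ext fun i j => ?_)
  simpa using congrFun (e2 j) i

include hn in
theorem pt_inj {u v : ℕ} (hu : u < 24) (hv : v < 24) (e : pt X u = pt X v) : u = v := by
  have e1 : ∀ i < 4, cz u i = cz v i := fun i hi => by
    have := mul_left_cancel₀ (sc_ne i) (congrFun e ⟨i, hn ▸ hi⟩)
    exact_mod_cast this
  exact cz_inj u hu v hv e1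

include h hn in
theorem exists_el {i : ℕ} (hi : i < 1152) : ∃ x : X.W, Acts x (cd i) := by
  induction e : dp i using Nat.strong_induction_on generalizing i with
  | _ d ih =>
    have c := (allN_eq _ _).1 h2 i hi
    simp only [c2, orr_eq, an_eq, Nat.beq_eq, ltN_eq, allN_eq] at c
    rcases c with rfl | ⟨c1, c2, c3⟩
    · have c := h10
      simp only [an_eq, Nat.beq_eq, allN_eq] at c
      exact ⟨1, acts_one.congr c.2⟩
    · obtain ⟨x, hx⟩ := ih _ (e ▸ c1) c2 rfl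
      exact ⟨_, ((acts_gen h hn (bits_lt _ 0 2)).mul hx fun v hv => cd_lt c2 hv).congr c3⟩

end

/-- the element with index `i` -/
def el (X : Cox) (i : ℕ) : X.W := Classical.epsilon fun x : X.W => Acts x (cd i)

/-- the reflection with index `t` -/
def rr (X : Cox) (t : ℕ) : X.W := el X (ri t)

theorem c8' {t : ℕ} (ht : t < 24) : ri t < 1152 ∧ rt (ri t) = t ∧ cl (ri t) = ty t + 1 ∧ ty t < 2 ∧
    ∀ v < 24, cd (ri t) v = rf t v := by
  simpa only [c8, an_eq, Nat.beq_eq, ltN_eq, allN_eq] using (allN_eq _ _).1 h8 t ht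

theorem c4' {i t : ℕ} (hi : i < 1152) (ht : t < 24) :
    lm i t < 1152 ∧ ∀ v < 4, cd (lm i t) v = rf t (cd i v) := by
  have c := (allN_eq _ _).1 h4 i hi
  simp only [c4, an_eq, Nat.beq_eq, ltN_eq, allN_eq] at c
  exact c t ht

theorem c5' {i k : ℕ} (hi : i < 1152) (hk : k < 4) : cj i k < 1152 ∧
    (∀ v < 4, cd (cj i k) v = rf k (cd i (rf k v))) ∧ cl (cj i k) = cl i := by
  have c := (allN_eq _ _).1 h5 i hi
  simp only [c5, an_eq, Nat.beq_eq, ltN_eq, allN_eq] at c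
  exact c k hk

theorem c6' {i : ℕ} (hi : i < 1152) : cl i < 25 ∧ (i = rp (cl i) ∨
    cq (cp i) < cq i ∧ cp i < 1152 ∧ cj (cp i) (ck i) = i) := by
  simpa only [c6, an_eq, orr_eq, Nat.beq_eq, ltN_eq] using (allN_eq _ _).1 h6 i hi

theorem c9' {c : ℕ} (hc : c < 25) : rp c < 1152 ∧ cl (rp c) = c ∧ iv c < 1152 ∧ cl (iv c) = c ∧
    (∀ v < 4, cd (rp c) (cd (iv c) v) = v) ∧ pw 0 c = idN ∧ ∀ k < 4, pw (k + 1) c < 1152 ∧
      ∀ v < 4, cd (pw (k + 1) c) v = cd (rp c) (cd (pw k c) v) := by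
  simpa only [c9, an_eq, Nat.beq_eq, ltN_eq, allN_eq] using (allN_eq _ _).1 h9 c hc

theorem id' : idN < 1152 ∧ ∀ v < 24, cd idN v = v := by
  simpa only [an_eq, Nat.beq_eq, ltN_eq, allN_eq] using h10

theorem key_inj {i j : ℕ} (hi : i < 1152) (hj : j < 1152) (e : key i = key j) : i = j := by
  have m : StrictMonoOn key (Set.Iic 1151) := strictMonoOn_Iic_of_lt_succ fun m hm => by
    exact (ltN_eq _ _).1 ((allN_eq _ _).1 h3 m hm)
  exact m.injOn (Set.mem_Iic.2 (by omega)) (Set.mem_Iic.2 (by omega)) e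

/-- the action of a word -/
def app (l : List ℕ) (v : ℕ) : ℕ := l.foldr rf v

theorem wd_ok : ∀ c < 25, (∀ k ∈ wd4 c, k < 4) ∧ ∀ v < 4, cd (rp c) v = app (wd4 c) v := by
  decide +kernel

theorem cnt_ok : ∀ c < 25, cnt c = sz4 c := by decide +kernel

theorem cl_gen : cl (ri 0) = 1 ∧ cl (ri 1) = 1 ∧ cl (ri 2) = 2 ∧ cl (ri 3) = 2 := by decide +kernel

variable (h : X.Is (pathM 1 4)) (hn : X.n = 4)

include h hn

theorem acts_el {i : ℕ} (hi : i < 1152) : Acts (el X i) (cd i) :=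
  Classical.epsilon_spec (exists_el h hn hi)

theorem acts_rr {t : ℕ} (ht : t < 24) : Acts (rr X t) (rf t) :=
  (acts_el h hn (c8' ht).1).congr fun v hv => ((c8' ht).2.2.2.2 v hv).symm

theorem rr_gen {k : ℕ} (hk : k < 4) : rr X k = X.sN k :=
  ext4 hn (acts_rr h hn (by omega)) (acts_gen h hn hk) fun _ _ => rfl

theorem el_id : el X idN = 1 :=
  ext4 hn (acts_el h hn id'.1) acts_one fun v hv => id'.2 v (by omega)

theorem rr_mul {i t : ℕ} (hi : i < 1152) (ht : t < 24) : rr X t * el X i = el X (lm i t) :=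
  ext4 hn ((acts_rr h hn ht).mul (acts_el h hn hi) fun _ hv => cd_lt hi hv)
    (acts_el h hn (c4' hi ht).1) fun v hv => ((c4' hi ht).2 v hv).symm

theorem conj_el {i k : ℕ} (hi : i < 1152) (hk : k < 4) :
    X.sN k * (el X i * X.sN k) = el X (cj i k) :=
  ext4 hn ((acts_gen h hn hk).mul ((acts_el h hn hi).mul (acts_gen h hn hk)
    (rf_lt k (by omega))) fun v hv => cd_lt hi (rf_lt k (by omega) v hv))
    (acts_el h hn (c5' hi hk).1) fun v hv => ((c5' hi hk).2.1 v hv).symm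

omit h in
theorem s_eq (i : Fin X.n) : X.s i = X.sN i ∧ (i : ℕ) < 4 := ⟨by simp [Cox.sN], hn ▸ i.2⟩

omit h in
theorem sN_sq {k : ℕ} (hk : k < 4) : X.sN k * X.sN k = 1 := by
  rw [Cox.sN, dif_pos (hn ▸ hk)]
  exact X.cs.simple_mul_simple_self _

theorem el_surj (w : X.W) : ∃ i < 1152, w = el X i := by
  induction w using X.cs.simple_induction_left with
  | one => exact ⟨idN, id'.1, (el_id h hn).symm⟩
  | mul_simple_left w i ih =>
    obtain ⟨j, hj, rfl⟩ := ih
    have e := s_eq hn i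
    refine ⟨lm j i, (c4' hj (by omega)).1, ?_⟩
    rw [← rr_mul h hn hj (by omega), rr_gen h hn e.2, ← e.1]

theorem el_inj {i j : ℕ} (hi : i < 1152) (hj : j < 1152) (e : el X i = el X j) : i = j := by
  have e1 : ∀ v < 24, cd i v = cd j v := fun v hv => pt_inj hn (cd_lt hi hv) (cd_lt hj hv) (by
    rw [← acts_el h hn hi v hv, e, acts_el h hn hj v hv])
  refine key_inj hi hj ?_
  simp only [key, e1 0 (by omega), e1 1 (by omega), e1 2 (by omega), e1 3 (by omega)]

theorem sum_el {N : Type} [AddCommMonoid N] (f : X.W → N) :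
    ∑ w, f w = ∑ i ∈ range 1152, f (el X i) := by
  refine (Finset.sum_bij (fun i _ => el X i) (fun _ _ => mem_univ _)
    (fun i hi j hj e => el_inj h hn (mem_range.1 hi) (mem_range.1 hj) e) (fun w _ => ?_)
    fun _ _ => rfl).symm
  obtain ⟨i, hi, e⟩ := el_surj h hn w
  exact ⟨i, mem_range.2 hi, e.symm⟩

theorem acts_word {l : List ℕ} (hl : ∀ k ∈ l, k < 4) :
    Acts (l.map X.sN).prod (app l) ∧ ∀ v < 24, app l v < 24 := by
  induction l with
  | nil => exact ⟨acts_one, fun _ hv => hv⟩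
  | cons k l ih =>
    obtain ⟨i1, i2⟩ := ih fun k hk => hl k (List.mem_cons_of_mem _ hk)
    have hk := hl k List.mem_cons_self
    exact ⟨(acts_gen h hn hk).mul i1 i2, fun v hv => rf_lt k (by omega) _ (i2 v hv)⟩

theorem el4_eq {c : ℕ} (hc : c < 25) : X.el4 c = el X (rp c) :=
  ext4 hn (acts_word h hn (wd_ok c hc).1).1 (acts_el h hn (c9' hc).1)
    fun v hv => ((wd_ok c hc).2 v hv).symm

theorem isConj_el {i : ℕ} (hi : i < 1152) : IsConj (X.el4 (cl i)) (el X i) := by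
  induction e : cq i using Nat.strong_induction_on generalizing i with
  | _ d ih =>
    obtain ⟨c0, c | ⟨c1, c2, c3⟩⟩ := c6' hi
    · rw [el4_eq h hn c0, ← c]
    · have hk : ck i < 4 := bits_lt _ 67 2
      have e1 := ih _ (e ▸ c1) c2 rfl
      rw [← (c5' c2 hk).2.2, c3] at e1
      refine e1.trans (isConj_iff.2 ⟨X.sN (ck i), ?_⟩)
      rw [inv_eq_of_mul_eq_one_right (sN_sq hn hk), mul_assoc, conj_el h hn c2 hk, c3]

/-- the class index is a class function -/
theorem cl_conj (u : X.W) {i j : ℕ} (hi : i < 1152) (hj : j < 1152)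
    (e : u * el X i * u⁻¹ = el X j) : cl i = cl j := by
  induction u using X.cs.simple_induction_right generalizing i with
  | one => rw [el_inj h hn hi hj (by simpa using e)]
  | mul_simple_right u k ih =>
    have e1 := s_eq hn k
    rw [← (c5' hi e1.2).2.2]
    refine ih (c5' hi e1.2).1 ?_
    rw [← conj_el h hn hi e1.2, ← e, ← e1.1, _root_.mul_inv_rev, X.cs.inv_simple]
    simp only [mul_assoc]

theorem el4_one : X.el4 1 = X.sN 0 ∧ X.el4 2 = X.sN 2 := by
  constructor <;> simp [Cox.el4, wd4]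

theorem rr_conj {t : ℕ} (ht : t < 24) : IsConj (X.sN (2 * ty t)) (rr X t) := by
  have e := isConj_el h hn (c8' ht).1
  have h2 := (c8' ht).2.2.2.1
  rw [(c8' ht).2.2.1] at e
  rcases (by omega : ty t = 0 ∨ ty t = 1) with c | c <;> rw [c] at e ⊢
  · exact (el4_one h hn).1 ▸ e
  · exact (el4_one h hn).2 ▸ e

theorem rr_refl {t : ℕ} (ht : t < 24) : X.cs.IsReflection (rr X t) := by
  obtain ⟨u, hu⟩ := isConj_iff.1 (rr_conj h hn ht)
  have h2 := (c8' ht).2.2.2.1
  rw [← hu, Cox.sN, dif_pos (by omega)]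
  exact (X.cs.isReflection_simple _).conj u

theorem sum_refls {N : Type} [AddCommMonoid N] (f : X.W → N) :
    ∑ t ∈ X.refls, f t = ∑ t ∈ range 24, f (rr X t) := by
  refine (Finset.sum_bij (fun t _ => rr X t)
    (fun t ht => X.mem_refls.2 (rr_refl h hn (mem_range.1 ht))) (fun t ht t' ht' e => ?_)
    (fun w hw => ?_) fun _ _ => rfl).symm
  · have e1 := el_inj h hn (c8' (mem_range.1 ht)).1 (c8' (mem_range.1 ht')).1 e
    rw [← (c8' (mem_range.1 ht)).2.1, e1, (c8' (mem_range.1 ht')).2.1]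
  · obtain ⟨u, k, hu⟩ := X.mem_refls.1 hw
    obtain ⟨i, hi, rfl⟩ := el_surj h hn w
    have e1 := s_eq hn k
    have e2 : cl (ri k) = cl i := cl_conj h hn u (c8' (by omega)).1 hi (by
      rw [hu, ← rr, rr_gen h hn e1.2, ← e1.1])
    have e3 : cl i = 1 ∨ cl i = 2 := by
      obtain ⟨g0, g1, g2, g3⟩ := cl_gen
      obtain ⟨k, _⟩ := k
      have := e1.2
      simp only at this e2
      interval_cases k <;> omega
    have c := (allN_eq _ _).1 h7 i hi
    simp only [c7, imp_eq, an_eq, orr_eq, Nat.beq_eq, ltN_eq] at c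
    exact ⟨rt i, mem_range.2 (c e3).1, by rw [rr, (c e3).2]⟩

theorem el_pw {c : ℕ} (hc : c < 25) {k : ℕ} (hk : k ≤ 4) :
    pw k c < 1152 ∧ X.el4 c ^ k = el X (pw k c) := by
  obtain ⟨c1, -, -, -, -, c2, c3⟩ := c9' hc
  induction k with
  | zero => rw [c2, pow_zero, el_id h hn]; exact ⟨id'.1, rfl⟩
  | succ k ih =>
    obtain ⟨i1, i2⟩ := ih (by omega)
    refine ⟨(c3 k (by omega)).1, ?_⟩
    rw [pow_succ', i2, el4_eq h hn hc]
    exact ext4 hn ((acts_el h hn c1).mul (acts_el h hn i1) fun _ hv => cd_lt i1 hv)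
      (acts_el h hn (c3 k (by omega)).1) fun v hv => ((c3 k (by omega)).2 v hv).symm

theorem el_iv {c : ℕ} (hc : c < 25) : (X.el4 c)⁻¹ = el X (iv c) := by
  obtain ⟨c1, -, c2, -, c3, -⟩ := c9' hc
  rw [el4_eq h hn hc]
  exact inv_eq_of_mul_eq_one_right (ext4 hn ((acts_el h hn c1).mul (acts_el h hn c2)
    fun _ hv => cd_lt c2 hv) acts_one c3)

/-- the trace of the reflection representation -/
def trN (i : ℕ) : ℤ := cz (cd i 0) 0 + cz (cd i 1) 1 + (cz (cd i 2) 2 - cz (cd i 1) 2) +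
  (cz (cd i 3) 3 - cz (cd i 2) 3)

theorem trace_el {i : ℕ} (hi : i < 1152) : (X.σ (el X i)).trace = trN i := by
  have e : ∀ j : Fin X.n, X.σ (el X i) j j = cz (cd i j) j -
      if 2 ≤ (j : ℕ) then (cz (cd i (j - 1)) j : ℝ) else 0 := fun j => by
    have hj : (j : ℕ) < 4 := hn ▸ j.2
    have e1 : X.σ (el X i) j j = (X.σ (el X i) *ᵥ X.al j) j := by simp
    rw [e1, al_eq hn, mulVec_smul, mulVec_sub, acts_el h hn hi _ (by omega), Pi.smul_apply,
      Pi.sub_apply, smul_eq_mul, inv_mul_eq_iff_eq_mul₀ (sc_ne j), mul_sub]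
    split_ifs
    · rw [acts_el h hn hi _ (by omega)]
      rfl
    · simp [pt]
  rw [Matrix.trace, sum4 hn]
  simp only [diag_apply, e, trN]
  push_cast
  simp

end

end Pool.Agent.P.MP_1a0ecf_al.F.F4
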