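import Pool.Agent.P.MP_1a0ecf_al.F.T4a

/-! Package T4b: the group of type F4: classes and characters. -/

namespace Pool.Agent.P.MP_1a0ecf_al.F

open Finset
open scoped Classical

noncomputable section

theorem t4_row : ∀ j < 25, 0 < tab4 j 0 ∧
    ∑ c ∈ range 25, sz4 c * (tab4 j c * tab4 j c) = 1152 := by decide +kernel

theorem t4_col : ∀ c < 25, ∑ j ∈ range 25, tab4 j 0 * tab4 j c = if c = 0 then 1152 else 0 := by
  decide +kernel

theorem IsCl.of_isConj {W : Type} [Group W] {f : W → ℂ} (hf : IsCl f) {u w : W} (e : IsConj u w) :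
    f w = f u := by
  obtain ⟨c, rfl⟩ := isConj_iff.1 e
  exact hf u c

namespace Cox

variable {X : Cox} (h : X.Is (pathM 1 4)) (hn : X.n = 4)

theorem el4_zero : X.el4 0 = 1 := rfl

include h hn

theorem cover4 (w : X.W) : ∃ c < 25, IsConj (X.el4 c) w := by
  obtain ⟨i, hi, rfl⟩ := F4.el_surj h hn w
  exact ⟨_, (F4.c6' hi).1, F4.isConj_el h hn hi⟩

theorem sum4 {f : X.W → ℂ} (hf : IsCl f) :
    ∑ w, f w = ∑ c ∈ Finset.range 25, (sz4 c : ℂ) * f (X.el4 c) := by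
  have e : ∀ c ∈ range 25, (sz4 c : ℂ) * f (X.el4 c) =
      ∑ i ∈ range 1152, if F4.cl i = c then f (X.el4 c) else 0 := fun c hc => by
    rw [← F4.cnt_ok c (mem_range.1 hc), F4.cnt, sumN_eq, Nat.cast_sum, sum_mul]
    refine sum_congr rfl fun i _ => ?_
    rw [cnd_eq]
    by_cases e : F4.cl i = c <;> simp [e]
  rw [F4.sum_el h hn, sum_congr rfl e, sum_comm]
  refine sum_congr rfl fun i hi => ?_
  rw [sum_ite_eq, if_pos (mem_range.2 (F4.c6' (mem_range.1 hi)).1)]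
  exact IsCl.of_isConj hf (F4.isConj_el h hn (mem_range.1 hi))

theorem card4 : Nat.card X.W = 1152 := by
  have e := F4.sum_el h hn fun _ => 1
  rw [Nat.card_eq_fintype_card]
  simpa using e

theorem inv4 {f : X.W → ℂ} (hf : IsCl f) (w : X.W) : f w⁻¹ = f w := by
  obtain ⟨c, hc, e⟩ := cover4 h hn w
  obtain ⟨u, rfl⟩ := isConj_iff.1 e
  obtain ⟨-, -, c1, c2, -⟩ := F4.c9' hc
  have e1 := IsCl.of_isConj hf (F4.isConj_el h hn c1)
  rw [c2, ← F4.el_iv h hn hc] at e1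
  rw [conj_inv, hf, hf, e1]

theorem ip4 {f g : X.W → ℂ} (hf : IsCl f) (hg : IsCl g) :
    ip f g = 1152⁻¹ * ∑ c ∈ range 25, (sz4 c : ℂ) * (f (X.el4 c) * g (X.el4 c)) := by
  rw [ip, card4 h hn, ← sum4 h hn (f := fun w => f w * g w) fun w u => by simp only [hf w u, hg w u]]
  simp only [inv4 h hn hg, Nat.cast_ofNat]

theorem IsChi.unique {χ χ' : X.W → ℂ} (hχ : IsCl χ) (hχ' : IsCl χ') {j : ℕ} (e : IsChi χ j)
    (e' : IsChi χ' j) : χ = χ' := by
  funext w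
  obtain ⟨c, hc, e1⟩ := cover4 h hn w
  rw [IsCl.of_isConj hχ e1, IsCl.of_isConj hχ' e1, e c hc, e' c hc]

theorem IsChi.irr {χ : X.W → ℂ} (hχ : IsCh χ) {j : ℕ} (hj : j < 25) (e : IsChi χ j) :
    IsIrr χ := by
  refine hχ.vc.isIrr ?_ ?_
  · have e1 := congrArg (Int.cast : ℤ → ℂ) (t4_row j hj).2
    push_cast at e1
    rw [ip4 h hn hχ.isCl hχ.isCl, sum_congr rfl fun c hc => by rw [e c (mem_range.1 hc)], e1]
    norm_num
  · rw [← el4_zero, e 0 (by omega)]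
    exact_mod_cast (t4_row j hj).1

theorem all4 (hex : ∀ j < 25, ∃ χ : X.W → ℂ, IsCh χ ∧ IsChi χ j) {χ : X.W → ℂ} (hχ : IsIrr χ) :
    ∃ j < 25, IsChi χ j := by
  choose! ψ hψ using hex
  by_contra hne
  have e0 : ip (∑ j ∈ range 25, (tab4 j 0 : ℂ) • ψ j) χ = 0 := by
    rw [ip_sum]
    refine sum_eq_zero fun j hj => ?_
    obtain ⟨h1, h2⟩ := hψ j (mem_range.1 hj)
    rw [ip_smul, (h2.irr h hn h1 (mem_range.1 hj)).ip_eq hχ, if_neg, mul_zero]
    rintro rfl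
    exact hne ⟨j, mem_range.1 hj, h2⟩
  have e1 : ∀ c ∈ range 25, (sz4 c : ℂ) * ((∑ j ∈ range 25, (tab4 j 0 : ℂ) • ψ j) (X.el4 c) *
      χ (X.el4 c)) = if c = 0 then 1152 * χ 1 else 0 := fun c hc => by
    have e2 := congrArg (Int.cast : ℤ → ℂ) (t4_col c (mem_range.1 hc))
    push_cast at e2
    rw [Finset.sum_apply, sum_congr rfl fun j hj => by
      rw [Pi.smul_apply, smul_eq_mul, (hψ j (mem_range.1 hj)).2 c (mem_range.1 hc)], e2]
    split_ifs with c0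
    · subst c0
      simp [sz4, el4_zero]
    · simp
  rw [ip4 h hn (fun w u => ?_) hχ.isCh.isCl, sum_congr rfl e1, sum_ite_eq', if_pos (by simp)] at e0
  · exact hχ.one_ne (by simpa using e0)
  · simp only [Finset.sum_apply, Pi.smul_apply]
    exact sum_congr rfl fun j hj => by rw [(hψ j (mem_range.1 hj)).1.isCl w u]

end Cox

end

end Pool.Agent.P.MP_1a0ecf_al.F
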