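import Pool.Agent.P.MP_1a0ecf_al.F.T4b
import Pool.Agent.P.MP_1a0ecf_al.F.T4e
import Pool.Agent.P.MP_1a0ecf_al.F.CZ

/-! The group of type F4: a central element of degree eight separates blocks. -/

namespace Pool.Agent.P.MP_1a0ecf_al.F

open Matrix Finset
open scoped Classical

noncomputable section

theorem CA.rel.pow {X : Cox} {κ : Wt X} {A : CA X κ} {χ χ' : X.W → ℂ} (h : A.rel χ χ')
    (hχ : IsIrr χ) (hχ' : IsIrr χ') (a : X.Vc) (c : ℂ) (m : ℕ) :
    chx χ (A.P ((A.x a + c • A.y a) ^ m)) * χ' 1 = chx χ' (A.P ((A.x a + c • A.y a) ^ m)) * χ 1 := by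
  have hrel : CRels X κ (A.x + c • A.y) A.y A.g := by
    refine ⟨fun w a => ?_, A.rels.gy, fun a b => ?_, A.rels.yy, fun a b => ?_⟩
    · simp only [LinearMap.add_apply, LinearMap.smul_apply]
      rw [mul_add, add_mul, mul_smul_comm, smul_mul_assoc, A.rels.gx, A.rels.gy]
    · have e : A.y a * A.x b - A.x b * A.y a = A.y b * A.x a - A.x a * A.y b := by
        rw [A.rels.yx, A.rels.yx]
        exact Finset.sum_congr rfl fun t _ => by rw [mul_right_comm]
      simp only [LinearMap.add_apply, LinearMap.smul_apply, mul_add, add_mul, mul_smul_comm,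
        smul_mul_assoc]
      rw [A.rels.xx a b, A.rels.yy a b, eq_add_of_sub_eq e]
      module
    · simp only [LinearMap.add_apply, LinearMap.smul_apply, mul_add, add_mul, mul_smul_comm,
        smul_mul_assoc]
      rw [← A.rels.yx, A.rels.yy a b]
      abel
  obtain ⟨φ, hx, hy, hg⟩ := A.lift A.H _ _ _ hrel
  have hinv : ∀ u, X.act ℂ u (∑ w, lin ℂ (X.σK ℂ w *ᵥ a) ^ m) = ∑ w, lin ℂ (X.σK ℂ w *ᵥ a) ^ m :=
    fun u => by
    rw [map_sum, ← Equiv.sum_comp (Equiv.mulLeft u) fun w => lin ℂ (X.σK ℂ w *ᵥ a) ^ m]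
    exact sum_congr rfl fun w _ => by rw [map_pow, Cox.act_lin, ← X.c1_mul]; rfl
  have hz := h _ (A.map_center (φ := φ) (fun a => ⟨A.x a - c • A.y a, by
    show φ (A.x a - c • A.y a) = A.x a
    rw [map_sub, map_smul, hx, hy, LinearMap.add_apply, LinearMap.smul_apply,
      add_sub_cancel_right]⟩) (fun a => ⟨A.y a, hy a⟩) (fun w => ⟨A.g w, hg w⟩) (A.ex_center hinv))
  have e : ∀ w, A.P (φ (A.ex (lin ℂ (X.σK ℂ w *ᵥ a) ^ m))) = MonoidAlgebra.of ℂ X.W w *
      A.P ((A.x a + c • A.y a) ^ m) * MonoidAlgebra.of ℂ X.W w⁻¹ := fun w => by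
    have e1 : SemiconjBy (A.g w) (A.x a) _ := A.rels.gx w a
    have e2 : SemiconjBy (A.g w) (A.y a) _ := A.rels.gy w a
    have e3 : SemiconjBy (A.g w) (c • A.y a) (c • A.y (X.σK ℂ w *ᵥ a)) := by
      rw [SemiconjBy, mul_smul_comm, smul_mul_assoc, e2.eq]
    rw [← A.P_g_mul, ← A.P_mul_g, ((e1.add_right e3).pow_right m).eq, mul_assoc, ← map_mul,
      mul_inv_cancel, map_one, mul_one, map_pow, map_pow, A.ex_lin, hx]
    rfl
  simp only [map_sum, e, hχ.t1_conj, hχ'.t1_conj, sum_const, nsmul_eq_mul] at hz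
  rw [mul_assoc, mul_assoc] at hz
  exact mul_left_cancel₀ (Nat.cast_ne_zero.2 (card_pos.2 ⟨(1 : X.W), mem_univ _⟩).ne') hz

theorem pick_fst {α R : Type} (b : α → R) (r : α → α) (l : List α) :
    ∀ p ∈ pick b r l, ∃ c ∈ l, p.1 = b c := by
  induction l with
  | nil => simp [pick]
  | cons c l ih =>
    intro p hp
    simp only [pick, List.mem_cons, List.mem_map] at hp
    rcases hp with rfl | ⟨q, hq, rfl⟩
    · exact ⟨c, List.mem_cons_self, rfl⟩
    · obtain ⟨d, hd, e⟩ := ih q hq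
      exact ⟨d, List.mem_cons_of_mem _ hd, e⟩

namespace F4

set_option maxRecDepth 100000

/-- the coefficients of the commutator -/
def cf (t v : ℕ) : ℤ := (cfc t v : ℤ) - 4

/-- the scalar product with the first point -/
def bz (v : ℕ) : ℤ := cart 0 0 * cz v 0 + cart 0 1 * cz v 1 + cart 0 2 * cz v 2 + cart 0 3 * cz v 3

theorem cf_eq : ∀ t < 24, ∀ v < 24, cf t v = bz v - bz (rf t v) := by decide +kernel

theorem cf_lin : ∀ t < 24, ∀ v < 24, cf t v = ∑ i ∈ range 4, ((dc v i : ℤ) - 4) * cf t i := by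
  decide +kernel

theorem cf_nz : ∀ t < 24, bit NZ t = true ∨ ∀ v < 24, cf t v = 0 := by decide +kernel

theorem pick_lt {t : ℕ} (ht : t < 24) {l : List ℕ} (hl : ∀ v ∈ l, v < 24) :
    ∀ p ∈ pick (cf t) (rf t) l, ∀ v ∈ p.2, v < 24 :=
  (cz_pick_map (b := cf t) (r := rf t) id id (fun _ _ => rfl)
    (fun c hc => ⟨rf_lt t ht c hc, rfl⟩) hl).2

section Ring

variable {R : Type} [CommRing R]

/-- the recursion for the degree zero part of `(x + y) ^ m * x_l * w` -/
def GS (k F : ℕ → R) : ℕ → List ℕ → ℕ → R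
  | 0, l, w => if l = [] then F (cl w) else 0
  | m + 1, l, w => GS k F m (0 :: l) w + ∑ t ∈ range 24, k (ty t) *
      ((pick (cf t) (rf t) l).map fun p => (p.1 : R) * GS k F m p.2 (lm w t)).sum

theorem GS_long (k F : ℕ → R) {m : ℕ} {l : List ℕ} (w : ℕ) (h : m < l.length) :
    GS k F m l w = 0 := by
  induction m generalizing l w with
  | zero => rw [GS, if_neg (List.ne_nil_of_length_pos h)]
  | succ m ih =>
    rw [GS, ih w (by rw [List.length_cons]; omega), zero_add]
    refine sum_eq_zero fun t _ => ?_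
    rw [cz_sum_zero, mul_zero]
    intro p hp
    have := cz_pick_len _ _ _ p hp
    rw [ih _ (by omega), mul_zero]

theorem GS_map (k F : ℕ → ℤ) (m : ℕ) (l : List ℕ) (w : ℕ) :
    GS (fun c => (k c : R)) (fun c => (F c : R)) m l w = (GS k F m l w : ℤ) := by
  induction m generalizing l w with
  | zero => simp [GS]
  | succ m ih => simp [GS, ih, Int.cast_list_sum, Function.comp_def]

theorem frc_eq (x : ℕ) (k : ℕ → ℕ) : frc x k = k x := by cases x <;> rfl

theorem mapF_eq (r : ℕ → ℕ) (l : List ℕ) (k : List ℕ → ℕ) : mapF r l k = k (l.map r) := by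
  induction l generalizing k with
  | nil => rfl
  | cons d l ih => exact (frc_eq (r d) fun d' => mapF r l fun s => k (d' :: s)).trans (ih _)

variable (hM : (MM : R) = 0)

include hM

theorem cast_M4 (x : ℕ) : ((x + M4 : ℕ) : R) = ((x : ℤ) - 4 : ℤ) := by
  have e : M4 + 4 = MM := by decide +kernel
  rw [← e] at hM
  push_cast at hM ⊢
  linear_combination hM

theorem cast_mod (x : ℕ) : ((Nat.mod x MM : ℕ) : R) = x := by
  conv_rhs => rw [← Nat.mod_add_div x MM]
  push_cast
  rw [hM, zero_mul, add_zero]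
  rfl

theorem psN_eq (t : ℕ) (l : List ℕ) (k : List ℕ → ℕ) : (psN t l k : R) =
    ((pick (cf t) (rf t) l).map fun p => (p.1 : R) * k p.2).sum := by
  induction l generalizing k with
  | nil => exact Nat.cast_zero
  | cons c l ih =>
    have e : psN t (c :: l) k = cnd (Nat.beq (cfc t c) 4) 0 ((cfc t c + M4) * mapF (rf t) l k) +
      psN t l fun l' => k (c :: l') := rfl
    rw [e, Nat.cast_add, ih, pick, List.map_cons, List.sum_cons, List.map_map, cnd_eq, mapF_eq]
    congr 1
    split_ifs with c0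
    · simp [cf, Nat.beq_eq ▸ c0]
    · rw [Nat.cast_mul, cast_M4 hM, cf]

theorem gN_eq {k F : ℕ → R} (hk : ∀ c < 2, (kN c : R) = k c) (hF : ∀ c < 25, (fN c : R) = F c)
    (m : ℕ) {nx : ℕ} {l : List ℕ} {w : ℕ} (hn : l.length + 2 * nx = m + 1) (hl : ∀ v ∈ l, v < 24)
    (hw : w < 1152) : (gN m nx l w : R) = GS k F (m + 1) l w := by
  induction m generalizing nx l w with
  | zero =>
    obtain ⟨v, rfl⟩ := List.length_eq_one_iff.1 (by omega : l.length = 1)
    have hv := hl v List.mem_cons_self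
    have e : ∀ i ∈ range 4, (tt w i : R) =
        ∑ t ∈ range 24, k (ty t) * (cf t i * F (cl (lm w t))) := fun i hi => by
      have c := (allN_eq _ _).1 ((allN_eq _ _).1 hT w hw) i (mem_range.1 hi)
      rw [Nat.eq_of_beq_eq_true c, cast_mod hM, sumN_eq, Nat.cast_sum]
      refine sum_congr rfl fun t ht => ?_
      rw [← hk _ (c8' (mem_range.1 ht)).2.2.2.1, ← hF _ (c6' (c4' hw (mem_range.1 ht)).1).1, cf,
        ← cast_M4 hM, ← Nat.cast_mul, ← Nat.cast_mul]
      rfl
    have e0 : gN 0 nx [v] w = ∑ i ∈ range 4, (dc v i + M4) * tt w i :=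
      (frc_eq (fld TT 512 w) fun r => sumN (fun i => (dc v i + M4) * fld r 128 i) 4).trans
        (sumN_eq _ _)
    rw [e0, Nat.cast_sum, sum_congr rfl fun i hi => by
      rw [Nat.cast_mul, cast_M4 hM, e i hi, mul_sum], sum_comm]
    simp only [GS, pick, List.map_cons, List.map_nil, List.sum_cons, List.sum_nil, if_true,
      reduceCtorEq, if_false, zero_add, add_zero]
    refine sum_congr rfl fun t ht => ?_
    rw [cf_lin t (mem_range.1 ht) v hv, Int.cast_sum, sum_mul, mul_sum]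
    exact sum_congr rfl fun i _ => by push_cast; ring
  | succ m ih =>
    have e : gN (m + 1) nx l w =
      Nat.rec (motive := fun _ => Nat) 0 (fun nx' _ => gN m nx' (0 :: l) w) nx +
      List.rec (motive := fun _ => Nat) 0 (fun _ _ _ => frc (lmr w) fun r =>
        sumN (fun t => cnd (bit NZ t) (kN (ty t) *
          (frc (fld r 11 t) fun w' => psN t l fun l' => gN m nx l' w')) 0) 24) l := rfl
    rw [e, Nat.cast_add, GS]
    congr 1
    · cases nx with
      | zero => rw [GS_long _ _ _ (by rw [List.length_cons]; omega)]; exact Nat.cast_zero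
      | succ nx =>
        exact ih (by rw [List.length_cons]; omega) (fun v hv => by
          rcases List.mem_cons.1 hv with rfl | hv
          exacts [by omega, hl v hv]) hw
    · cases l with
      | nil => simp [pick]
      | cons c l =>
        simp only [frc_eq, sumN_eq, cnd_eq, Nat.cast_sum]
        refine sum_congr rfl fun t ht => ?_
        have ht := mem_range.1 ht
        split_ifs with c0
        · rw [Nat.cast_mul, hk _ (c8' ht).2.2.2.1, psN_eq hM]
          congr 2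
          refine List.map_congr_left fun p hp => ?_
          have := cz_pick_len _ _ _ p hp
          rw [← ih (nx := nx) (by omega) (pick_lt ht hl p hp) (c4' hw ht).1]
          rfl
        · rw [cz_sum_zero, mul_zero, Nat.cast_zero]
          intro p hp
          obtain ⟨d, hd, e⟩ := pick_fst _ _ _ p hp
          rw [e, (cf_nz t ht).resolve_left c0 d (hl d hd), Int.cast_zero, zero_mul]

end Ring

variable {X : Cox} (h : X.Is (pathM 1 4)) (hn : X.n = 4)

/-- the points as complex vectors -/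
def pc (X : Cox) (v : ℕ) : X.Vc := X.vK ℂ (pt X v)

include h hn

theorem B_pc (v : ℕ) : X.BK ℂ (pc X 0) (pc X v) = bz v := by
  have e0 : X.al ⟨0, by omega⟩ = pt X 0 := by simpa [sc] using al_eq hn ⟨0, by omega⟩
  have e : X.B (pt X 0) (pt X v) = bz v := by
    rw [← e0, Cox0.B, single_dotProduct, one_mul, mulVec, dotProduct, sum4 hn]
    simp only [pt, ← mul_assoc, K_sc h hn, bz]
    simp [sc]
  rw [pc, pc, Cox.BK_vK ℂ X, e]
  simp

theorem σ_pc {t v : ℕ} (ht : t < 24) (hv : v < 24) :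
    X.σK ℂ (rr X t) *ᵥ pc X v = pc X (rf t v) := by
  rw [pc, Cox.σK_vK ℂ X, acts_rr h hn ht v hv, pc]

theorem B_rc {t v : ℕ} (ht : t < 24) (hv : v < 24) :
    X.BK ℂ (X.rc (rr X t)) (pc X 0) * X.BK ℂ (X.rc (rr X t)) (pc X v) = cf t v := by
  have e := X.σK_refl ℂ (rr_refl h hn ht) (pc X v)
  rw [σ_pc h hn ht hv, eq_sub_iff_add_eq] at e
  have e1 := congrArg (X.BK ℂ (pc X 0)) e
  rw [C2.BK_add, C2.BK_smul, B_pc h hn, B_pc h hn, X.BK_symm ℂ (pc X 0)] at e1
  rw [cf_eq t ht v hv]
  push_cast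
  linear_combination e1

theorem P_GS {κ : Wt X} (A : CA X κ) (f : X.W → ℂ) {c : ℂ} {k F : ℕ → ℂ}
    (hk : ∀ t < 24, c * κ (rr X t) = k (ty t)) (hF : ∀ w < 1152, f (el X w) = F (cl w)) (m : ℕ)
    {l : List ℕ} {w : ℕ} (hl : ∀ v ∈ l, v < 24) (hw : w < 1152) :
    chx f (A.P ((A.x (pc X 0) + c • A.y (pc X 0)) ^ m * ((l.map (pc X)).map A.x).prod *
      A.g (el X w))) = GS k F m l w := by
  induction m generalizing l w with
  | zero =>
    cases l with
    | nil => simp [GS, A.P_g, ← hF w hw, ← chx_of f]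
    | cons c l =>
      rw [pow_zero, one_mul, List.map_cons, List.map_cons, List.prod_cons, mul_assoc, A.P_x_mul]
      simp [GS]
  | succ m ih =>
    set u := A.x (pc X 0) + c • A.y (pc X 0) with hu
    have h3 : ∀ (L : List (ℤ × List ℕ)), (∀ p ∈ L, ∀ v ∈ p.2, v < 24) → ∀ w < 1152,
        chx f (A.P (u ^ m * (L.map fun p => (p.1 : ℂ) • ((p.2.map (pc X)).map A.x).prod).sum *
          A.g (el X w))) = (L.map fun p => (p.1 : ℂ) * GS k F m p.2 w).sum := by
      intro L hL w hw
      induction L with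
      | nil => simp
      | cons p L ihL =>
        simp only [List.map_cons, List.sum_cons]
        rw [mul_add, add_mul, map_add, map_add, ihL fun q hq => hL q (List.mem_cons_of_mem _ hq),
          mul_smul_comm, smul_mul_assoc, map_smul, map_smul, ih (hL p List.mem_cons_self) hw,
          smul_eq_mul]
    have h0 : A.P (u ^ m * (((l.map (pc X)).map A.x).prod * A.y (pc X 0)) * A.g (el X w)) = 0 := by
      rw [← mul_assoc]
      exact A.P_LY (A.LY_mul_g (A.mul_y_mem _ _) _)
    have h1 := ih (l := 0 :: l) (fun v hv => by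
      rcases List.mem_cons.1 hv with rfl | hv
      exacts [by omega, hl v hv]) hw
    rw [List.map_cons, List.map_cons, List.prod_cons] at h1
    rw [pow_succ, mul_assoc _ u, GS, ← h1]
    nth_rewrite 2 [hu]
    rw [add_mul, mul_add, add_mul, map_add, map_add, smul_mul_assoc, A.cz_y_prod, mul_smul_comm,
      smul_mul_assoc, map_smul, mul_add, add_mul, map_add, h0, zero_add, sum_refls h hn, mul_sum,
      sum_mul, map_sum, smul_sum, map_sum]
    congr 1
    refine sum_congr rfl fun t ht => ?_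
    have ht := mem_range.1 ht
    have p1 := (cz_pick_map (b := fun v => X.BK ℂ (X.rc (rr X t)) (pc X 0) * X.BK ℂ (X.rc (rr X t)) v)
      (r := fun v => X.σK ℂ (rr X t) *ᵥ v) (b' := cf t) (r' := rf t) (pc X) (Int.cast : ℤ → ℂ)
      (fun v hv => B_rc h hn ht hv) (fun v hv => ⟨rf_lt t ht v hv, σ_pc h hn ht hv⟩) hl).1
    have p2 := (cz_pick_map (b := fun v => X.BK ℂ (X.rc (rr X t)) (pc X 0) * X.BK ℂ (X.rc (rr X t)) v)
      (r := fun v => X.σK ℂ (rr X t) *ᵥ v) (b' := fun v => X.BK ℂ (X.rc (rr X t)) v)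
      (r' := fun v => X.σK ℂ (rr X t) *ᵥ v) id (fun z => X.BK ℂ (X.rc (rr X t)) (pc X 0) * z)
      (Ga := fun _ => True) (l := l.map (pc X)) (fun _ _ => rfl) (fun _ _ => ⟨trivial, rfl⟩)
      fun _ _ => trivial).1
    have p3 := congrArg (fun L : List (ℂ × List X.Vc) =>
      (L.map fun p => p.1 • (p.2.map A.x).prod).sum) ((List.map_id _ ▸ p2).symm.trans p1)
    have p4 : ∀ (β : ℂ) (L : List (ℂ × List X.Vc)), ((L.map fun p => (β * p.1, p.2.map id)).map
        fun p => p.1 • (p.2.map A.x).prod).sum =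
          β • (L.map fun p => p.1 • (p.2.map A.x).prod).sum := fun β L => by
      simp [List.smul_sum, mul_smul, Function.comp_def]
    rw [p4, List.map_map] at p3
    rw [← hk t ht, ← h3 _ (pick_lt ht hl) _ (c4' hw ht).1, ← rr_mul h hn hw ht, A.g.map_mul,
      mul_smul, ← smul_mul_assoc (X.BK ℂ _ _), p3]
    simp only [mul_smul_comm, smul_mul_assoc, map_smul, smul_eq_mul, mul_assoc, Function.comp_def]

theorem not_rel {κ : Wt X} (A : CA X κ) {a b : ℝ} (hb : 0 < b)
    (hκ : ∀ t < 24, κ (rr X t) = (if ty t = 0 then a else b : ℝ) / 2) {χ χ' : X.W → ℂ}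
    (hχ : IsIrr χ) (hχ' : IsIrr χ') {j j' : ℕ} (e : Cox.IsChi χ j) (e' : Cox.IsChi χ' j')
    {p q : ℤ} (md : ℕ) (hq : q ≠ 0) (hab : q * a = p * b) (c1 : md ∣ MM)
    (c2 : ∀ c < 2, (md : ℤ) ∣ (if c = 0 then p else q) - kN c)
    (c3 : ∀ c < 25, (md : ℤ) ∣ tab4 j' 0 * tab4 j c - tab4 j 0 * tab4 j' c - fN c)
    (c4 : ¬ md ∣ RES) : ¬ A.rel χ χ' := fun hr => by
  have hb' : (b : ℂ) ≠ 0 := by exact_mod_cast hb.ne'
  have hab' : (q : ℂ) * a = p * b := by exact_mod_cast hab
  have e1 := P_GS h hn A (fun w => χ' 1 * χ w - χ 1 * χ' w) (c := 2 * q / b)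
    (k := fun c => ((if c = 0 then p else q : ℤ) : ℂ))
    (F := fun c => ((tab4 j' 0 * tab4 j c - tab4 j 0 * tab4 j' c : ℤ) : ℂ)) (fun t ht => by
      rw [hκ t ht]
      split_ifs
      · field_simp
        linear_combination hab'
      · field_simp) (fun w hw => by
      have c0 := (c6' hw).1
      rw [IsCl.of_isConj hχ.isCh.isCl (isConj_el h hn hw),
        IsCl.of_isConj hχ'.isCh.isCl (isConj_el h hn hw), ← Cox.el4_zero, e 0 (by omega),
        e' 0 (by omega), e _ c0, e' _ c0]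
      push_cast
      rfl) 8 (l := []) (by simp) id'.1
  have e2 := hr.pow hχ hχ' (pc X 0) (2 * q / b) 8
  rw [GS_map, el_id h hn, map_one, mul_one, List.map_nil, List.map_nil, List.prod_nil, mul_one,
    t1_chx_apply] at e1
  simp only [mul_sub, sum_sub_distrib, mul_left_comm _ (χ' 1), mul_left_comm _ (χ 1),
    ← mul_sum, ← t1_chx_apply] at e1
  rw [mul_comm, e2, mul_comm, sub_self, eq_comm, Int.cast_eq_zero] at e1
  have hM : (MM : ZMod md) = 0 := (ZMod.natCast_eq_zero_iff _ _).2 c1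
  have e3 := gN_eq hM (k := fun c => ((if c = 0 then p else q : ℤ) : ZMod md))
    (F := fun c => ((tab4 j' 0 * tab4 j c - tab4 j 0 * tab4 j' c : ℤ) : ZMod md))
    (fun c hc => by
      rw [← Int.cast_natCast, ZMod.intCast_eq_intCast_iff_dvd_sub]; exact c2 c hc)
    (fun c hc => by
      rw [← Int.cast_natCast, ZMod.intCast_eq_intCast_iff_dvd_sub]; exact c3 c hc)
    7 (nx := 4) (l := []) rfl (by simp) id'.1
  rw [GS_map, e1, ← cast_mod hM, Nat.eq_of_beq_eq_true hG, Int.cast_zero] at e3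
  exact c4 ((ZMod.natCast_eq_zero_iff _ _).1 e3)

end F4

end

end Pool.Agent.P.MP_1a0ecf_al.F
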