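import Pool.Agent.P.MP_1a0ecf_al.F.T4c
import Pool.Agent.P.MP_1a0ecf_al.F.P4
import Pool.Agent.P.MP_1a0ecf_al.F.C9

/-! The group of type F4: Calogero-Moser families. -/

namespace Pool.Agent.P.MP_1a0ecf_al.F

open Matrix Finset
open scoped Classical

noncomputable section

namespace F4

set_option maxRecDepth 100000

/-- parents in the forests of links -/
def par (μ j : ℕ) : ℕ := (([
    [0, 1, 2, 3, 4, 5, 6, 7, 8, 9, 10, 11, 12, 10, 10, 15, 16, 17, 18, 19, 20, 21, 22, 10, 10],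
    [0, 1, 1, 3, 8, 8, 12, 12, 8, 1, 9, 1, 12, 9, 1, 15, 16, 17, 18, 19, 1, 1, 22, 9, 1],
    [0, 17, 16, 3, 16, 5, 6, 17, 8, 9, 10, 11, 12, 10, 10, 15, 16, 17, 18, 16, 20, 21, 17, 10, 10],
    [5, 6, 5, 6, 23, 5, 6, 23, 8, 9, 23, 8, 9, 23, 23, 23, 8, 9, 23, 19, 20, 19, 20, 23, 23]] :
      List (List ℕ)).getD μ []).getD j 0

/-- degrees of the links -/
def lk (μ j : ℕ) : ℕ := (([
    [0, 0, 0, 0, 0, 0, 0, 0, 0, 0, 0, 0, 0, 2, 2, 0, 0, 0, 0, 0, 0, 0, 0, 2, 1],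
    [0, 0, 4, 0, 3, 3, 3, 3, 0, 1, 3, 3, 0, 3, 2, 0, 0, 0, 0, 0, 2, 4, 0, 3, 3],
    [0, 3, 3, 0, 3, 0, 0, 3, 0, 0, 0, 0, 0, 2, 2, 0, 0, 0, 0, 1, 0, 0, 1, 2, 1],
    [4, 4, 4, 4, 2, 0, 0, 2, 0, 0, 2, 4, 4, 2, 2, 1, 2, 2, 1, 0, 0, 4, 4, 0, 1]] :
      List (List ℕ)).getD μ []).getD j 0

/-- the special ratios -/
def mp (μ : ℕ) : ℤ := if μ = 1 ∨ μ = 2 then 1 else 0

def mq (μ : ℕ) : ℤ := if μ = 2 then 2 else 1

/-- equal Euler values in the mode `μ` -/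
abbrev Zm (μ j j' : ℕ) : Prop :=
  mp μ * (oa4 j - oa4 j') + mq μ * (ob4 j - ob4 j') = 0 ∧ (μ = 0 → oa4 j = oa4 j')

theorem par_ok : ∀ μ < 4, ∀ j < 25, par μ j = j ∨ (par μ j < 25 ∧ Zm μ j (par μ j) ∧ 0 < lk μ j ∧
    lk μ j ≤ 4 ∧ ∑ c ∈ range 25, sz4 c * (trN (pw (lk μ j) c) * tab4 j c * tab4 (par μ j) c) ≠ 0) := by
  decide +kernel

set_option synthInstance.maxSize 1024 in
theorem pair_ok : ∀ j < 25, ∀ j' < 25, (j, j') ∈ bad4 ∨ (j', j) ∈ bad4 ∨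
    0 < (oa4 j - oa4 j') * (ob4 j - ob4 j') ∨ |oa4 j - oa4 j'| < |ob4 j - ob4 j'| ∨
    ∃ μ < 4, Zm μ j j' ∧ (μ = 0 ∨ oa4 j ≠ oa4 j') ∧ par μ (par μ j) = par μ (par μ j') := by
  decide +kernel

/-- separation data -/
def sepL : List ((ℕ × ℕ) × ℤ × ℤ × ℕ) := [
  ((2, 8), 1, 3, 251), ((7, 9), 1, 3, 241), ((4, 11), 1, 3, 239), ((1, 12), 1, 3, 233),
  ((2, 15), 2, 3, 229), ((11, 15), 1, 2, 227), ((15, 16), 1, 1, 223), ((1, 18), 2, 3, 211),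
  ((9, 18), 1, 2, 199), ((17, 18), 1, 1, 197), ((11, 19), 1, 5, 193), ((7, 20), 1, 4, 191),
  ((18, 20), 2, 5, 181), ((4, 21), 1, 4, 179), ((15, 21), 2, 5, 173), ((9, 22), 1, 5, 167)]

theorem bad_ok : ∀ x ∈ bad4, |oa4 x.1 - oa4 x.2| < |ob4 x.1 - ob4 x.2| ∨ ∃ e ∈ sepL, e.1 = x ∧
    oa4 x.1 ≠ oa4 x.2 ∧ e.2.1 * (oa4 x.1 - oa4 x.2) + e.2.2.1 * (ob4 x.1 - ob4 x.2) = 0 ∧
    e.2.2.1 ≠ 0 ∧ e.2.2.2 ∣ MM ∧
    (∀ c < 2, (e.2.2.2 : ℤ) ∣ (if c = 0 then e.2.1 else e.2.2.1) - kN c) ∧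
    (∀ c < 25, (e.2.2.2 : ℤ) ∣ tab4 x.2 0 * tab4 x.1 c - tab4 x.1 0 * tab4 x.2 c - fN c) ∧
    ¬ e.2.2.2 ∣ RES := by
  decide +kernel

theorem om_ok : ∀ j < 25, oa4 j * tab4 j 0 = 6 * tab4 j 1 ∧ ob4 j * tab4 j 0 = 6 * tab4 j 2 := by
  decide +kernel

theorem ty_card : #{t ∈ range 24 | ty t = 0} = 12 ∧ #{t ∈ range 24 | ¬ ty t = 0} = 12 := by
  decide +kernel

theorem no_lt {a b : ℝ} (h0 : 0 ≤ a) (hab : a ≤ b) (hb : 0 < b) {x y : ℤ} (h : |x| < |y|) :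
    x * a + y * b ≠ 0 := fun e => by
  have h1 : |(x : ℝ)| < |(y : ℝ)| := by exact_mod_cast h
  have h2 := congrArg abs (eq_neg_of_add_eq_zero_left e)
  rw [abs_neg, abs_mul, abs_mul, abs_of_nonneg h0, abs_of_pos hb] at h2
  nlinarith [abs_nonneg (x : ℝ)]

theorem ratio {a b : ℝ} {x y p q : ℤ} (hx : x ≠ 0) (h : p * x + q * y = 0) (e : x * a + y * b = 0) :
    q * a = p * b := by
  have h1 : (p : ℝ) * x + q * y = 0 := by exact_mod_cast h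
  have h2 : (x : ℝ) ≠ 0 := by exact_mod_cast hx
  refine mul_left_cancel₀ h2 ?_
  linear_combination q * e - b * h1

variable {X : Cox} (h : X.Is (pathM 1 4)) (hn : X.n = 4) {a b : ℝ} {κ : Wt X}
  (hκ : ∀ i, κ (X.s i) = ((if (i : ℕ) < 2 then a else b : ℝ) : ℂ) / 2)

include h hn hκ

theorem κ_rr {t : ℕ} (ht : t < 24) : κ (rr X t) = (if ty t = 0 then a else b : ℝ) / 2 := by
  obtain ⟨u, hu⟩ := isConj_iff.1 (rr_conj h hn ht)
  have h2 := (c8' ht).2.2.2.1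
  rw [← hu, Cox.sN, dif_pos (by omega), κ.cl _ u (X.cs.isReflection_simple _), hκ]
  congr 2
  exact if_congr (by simp only; omega) rfl rfl

theorem om_chi {χ : X.W → ℂ} (hχ : IsCl χ) {j : ℕ} (hj : j < 25) (e : Cox.IsChi χ j) :
    X.om κ χ = (oa4 j * a + ob4 j * b : ℝ) := by
  have e1 : ∀ t ∈ range 24, κ (rr X t) * χ (rr X t) =
      if ty t = 0 then (a : ℂ) / 2 * tab4 j 1 else (b : ℂ) / 2 * tab4 j 2 := fun t ht => by
    have h2 := (c8' (mem_range.1 ht)).2.2.2.1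
    rw [κ_rr h hn hκ (mem_range.1 ht), IsCl.of_isConj hχ (rr_conj h hn (mem_range.1 ht)),
      ← e 1 (by omega), ← e 2 (by omega), (el4_one h hn).1, (el4_one h hn).2]
    rcases (by omega : ty t = 0 ∨ ty t = 1) with c | c <;> simp [c]
  have e2 : (oa4 j : ℂ) * tab4 j 0 = 6 * tab4 j 1 := by exact_mod_cast (om_ok j hj).1
  have e3 : (ob4 j : ℂ) * tab4 j 0 = 6 * tab4 j 2 := by exact_mod_cast (om_ok j hj).2
  have e4 : (tab4 j 0 : ℂ) ≠ 0 := by exact_mod_cast (t4_row j hj).1.ne'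
  rw [Cox.om, sum_refls h hn, sum_congr rfl e1, sum_ite, sum_const, sum_const, ty_card.1, ty_card.2,
    ← Cox.el4_zero, e 0 (by omega), div_eq_iff e4]
  push_cast
  simp only [nsmul_eq_mul, Nat.cast_ofNat]
  linear_combination (-a) * e2 - b * e3

theorem rel_par (A : CA X κ) {ψ : ℕ → X.W → ℂ} (hψ : ∀ j < 25, IsCh (ψ j) ∧ Cox.IsChi (ψ j) j)
    {μ : ℕ} (hμ : μ < 4) (hv : μ = 0 ∨ mq μ * a = mp μ * b) {j : ℕ} (hj : j < 25) :
    par μ j < 25 ∧ A.rel (ψ j) (ψ (par μ j)) := by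
  rcases par_ok μ hμ j hj with c | ⟨c1, ⟨c2, c3⟩, c4, c5, c6⟩
  · rw [c]
    exact ⟨hj, A.rel_refl _⟩
  obtain ⟨i1, i2⟩ := hψ j hj
  obtain ⟨k1, k2⟩ := hψ _ c1
  refine ⟨c1, A.link (i2.irr h hn i1 hj) (k2.irr h hn k1 c1) ?_ c4 ?_⟩
  · rw [om_chi h hn hκ i1.isCl hj i2, om_chi h hn hκ k1.isCl c1 k2, Complex.ofReal_inj]
    have e : (mp μ : ℝ) * (oa4 j - oa4 (par μ j)) + mq μ * (ob4 j - ob4 (par μ j)) = 0 := by
      exact_mod_cast c2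
    rcases hv with rfl | hv
    · rw [c3 rfl] at e ⊢
      simp only [mp, mq] at e
      norm_num at e
      rw [sub_eq_zero.1 e]
    · have hq : (mq μ : ℝ) ≠ 0 := by
        unfold mq
        split_ifs <;> norm_num
      refine mul_left_cancel₀ hq ?_
      linear_combination (oa4 j - oa4 (par μ j) : ℝ) * hv + b * e
  · have e : ∀ c ∈ range 25, (sz4 c : ℂ) * ((X.σK ℂ (X.el4 c ^ lk μ j)).trace * ψ j (X.el4 c) *
        ψ (par μ j) (X.el4 c)) =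
          ((sz4 c * (trN (pw (lk μ j) c) * tab4 j c * tab4 (par μ j) c) : ℤ) : ℂ) := fun c hc => by
      obtain ⟨p1, p2⟩ := el_pw h hn (mem_range.1 hc) c5
      rw [i2 c (mem_range.1 hc), k2 c (mem_range.1 hc), p2, Cox.σK_apply,
        ← AddMonoidHom.map_trace, trace_el h hn p1]
      simp
    rw [Cox.ip4 h hn (fun w u => ?_) k1.isCl, sum_congr rfl e, ← Int.cast_sum]
    · exact mul_ne_zero (by norm_num) (Int.cast_ne_zero.2 c6)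
    · simp only [conj_pow, i1.isCl w u, map_mul]
      rw [trace_mul_cycle, ← map_mul, inv_mul_cancel, map_one, one_mul]

theorem rel_iff (A : CA X κ) (hex : ∀ j < 25, ∃ χ : X.W → ℂ, IsCh χ ∧ Cox.IsChi χ j) (h0 : 0 ≤ a)
    (hab : a ≤ b) (hb : 0 < b) {χ χ' : X.W → ℂ} (hχ : IsIrr χ) (hχ' : IsIrr χ') {j j' : ℕ}
    (hj : j < 25) (hj' : j' < 25) (e : Cox.IsChi χ j) (e' : Cox.IsChi χ' j') :
    A.rel χ χ' ↔ Fam4 a b j j' := by
  have nb : ∀ {χ χ' : X.W → ℂ} {j j' : ℕ}, IsIrr χ → IsIrr χ' → Cox.IsChi χ j → Cox.IsChi χ' j' →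
      A.rel χ χ' → oa4 j * a + ob4 j * b = oa4 j' * a + ob4 j' * b → (j, j') ∉ bad4 := by
    intro χ χ' j j' hχ hχ' e e' r eo hx
    have eo' : ((oa4 j - oa4 j' : ℤ) : ℝ) * a + (ob4 j - ob4 j' : ℤ) * b = 0 := by
      push_cast
      linear_combination eo
    rcases bad_ok _ hx with c | ⟨x, -, -, c1, c2, c3, c4, c5, c6, c7⟩
    · exact no_lt h0 hab hb c eo'
    · exact not_rel h hn A hb (fun t ht => κ_rr h hn hκ ht) hχ hχ' e e' _ c3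
        (ratio (sub_ne_zero.2 c1) c2 eo') c4 c5 c6 c7 r
  constructor
  · intro r
    have eo := r.om_eq hχ.one_ne hχ'.one_ne
    rw [om_chi h hn hκ hχ.isCh.isCl hj e, om_chi h hn hκ hχ'.isCh.isCl hj' e',
      Complex.ofReal_inj] at eo
    exact ⟨eo, nb hχ hχ' e e' r eo, nb hχ' hχ e' e r.symm eo.symm⟩
  · rintro ⟨eo, n1, n2⟩
    have eo' : ((oa4 j - oa4 j' : ℤ) : ℝ) * a + (ob4 j - ob4 j' : ℤ) * b = 0 := by
      push_cast
      linear_combination eo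
    choose! ψ hψ using hex
    rcases pair_ok j hj j' hj' with c | c | c | c | ⟨μ, hμ, c1, c2, c3⟩
    · exact absurd c n1
    · exact absurd c n2
    · have c' : (0 : ℝ) < ((oa4 j - oa4 j' : ℤ) : ℝ) * (ob4 j - ob4 j' : ℤ) := by exact_mod_cast c
      have c0 : ((ob4 j - ob4 j' : ℤ) : ℝ) ≠ 0 := fun z => by simp [z] at c'
      have := mul_pos (mul_self_pos.2 c0) hb
      have := mul_nonneg c'.le h0
      have := congrArg (((ob4 j - ob4 j' : ℤ) : ℝ) * ·) eo'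
      exfalso
      nlinarith
    · exact absurd eo' (no_lt h0 hab hb c)
    have hv : μ = 0 ∨ mq μ * a = mp μ * b :=
      c2.imp_right fun c => ratio (sub_ne_zero.2 c) c1.1 eo'
    have two : ∀ {j}, j < 25 → A.rel (ψ j) (ψ (par μ (par μ j))) := fun hj => by
      obtain ⟨p1, p2⟩ := rel_par h hn hκ A hψ hμ hv hj
      exact p2.trans (rel_par h hn hκ A hψ hμ hv p1).2
        ((hψ _ p1).2.irr h hn (hψ _ p1).1 p1).one_ne
    have p1 := (rel_par h hn hκ A hψ hμ hv (rel_par h hn hκ A hψ hμ hv hj).1).1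
    rw [e.unique h hn hχ.isCh.isCl (hψ j hj).1.isCl (hψ j hj).2,
      e'.unique h hn hχ'.isCh.isCl (hψ j' hj').1.isCl (hψ j' hj').2]
    exact (two hj).trans (c3 ▸ (two hj').symm) ((hψ _ p1).2.irr h hn (hψ _ p1).1 p1).one_ne

end F4

/-- the statement for one weight function -/
def Cox.GoodAt (X : Cox) (L : Fin X.n → ℝ) : Prop :=
  ∀ (κ : Wt X), (∀ i, κ (X.s i) = (L i : ℂ) / 2) →
    ∀ (D : KL X ℝ L) (A : CA X κ) (χ χ' : X.W → ℂ), IsIrr χ → IsIrr χ' →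
      (A.rel χ χ' ↔ D.Rel χ χ')

theorem Prd.goodAt {Y Y' X : Cox} (Q : Prd Y Y' X) {L : Fin X.n → ℝ}
    (h : Y.GoodAt fun i => L (Q.P.e i)) (h' : Y'.GoodAt fun i => L (Q.P'.e i)) : X.GoodAt L := by
  intro κ hκ D A χ χ₁ hχ hχ₁
  obtain ⟨ψ, ψ', f⟩ := Q.exists_fac hχ
  obtain ⟨ψ₁, ψ₁', f₁⟩ := Q.exists_fac hχ₁
  have k : ∀ i, κ.res Q.P (Y.s i) = (L (Q.P.e i) : ℂ) / 2 := fun i =>
    (congrArg κ (Q.P.ι_s i)).trans (hκ _)
  have k' : ∀ i, κ.res Q.P' (Y'.s i) = (L (Q.P'.e i) : ℂ) / 2 := fun i =>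
    (congrArg κ (Q.P'.ι_s i)).trans (hκ _)
  obtain ⟨E⟩ := exists_KL (L := fun i => L (Q.P.e i)) (p4_conj k)
  obtain ⟨E'⟩ := exists_KL (L := fun i => L (Q.P'.e i)) (p4_conj k')
  obtain ⟨B⟩ := exists_CA' Y (κ.res Q.P)
  obtain ⟨B'⟩ := exists_CA' Y' (κ.res Q.P')
  rw [Q.rel_KL D E E' f f₁, ← h _ k E B _ _ f.1 f₁.1, ← h' _ k' E' B' _ _ f.2.1 f₁.2.1]
  refine ⟨fun r => ⟨Q.rel_left A B f f₁ r, Q.symm.rel_left A B' f.symm f₁.symm r⟩, fun r => ?_⟩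
  obtain ⟨χ₂, hχ₂, f₂⟩ := Q.exists_prod f₁.1 f.2.1
  exact (Q.rel_of_left A B f f₂ r.1).trans (Q.symm.rel_of_left A B' f₂.symm f₁.symm r.2)
    hχ₂.one_ne

theorem Cox.goodF_le {X : Cox} (h : X.Is (pathM 1 4)) (hn : X.n = 4) (hK : X.KLF)
    {L : Fin X.n → ℝ} (hL : ∀ i, 0 ≤ L i) (hab : L ⟨0, by omega⟩ ≤ L ⟨2, by omega⟩) :
    X.GoodAt L := by
  intro κ hκ D A χ χ' hχ hχ'
  have e : ∀ i j : Fin X.n, Odd (pathM 1 4 i j) → L i = L j := fun i j o =>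
    p4_conj hκ i j (X.isConj_of_odd (h i j ▸ o))
  obtain ⟨a, ha⟩ : ∃ a, a = L ⟨0, by omega⟩ := ⟨_, rfl⟩
  obtain ⟨b, hb⟩ : ∃ b, b = L ⟨2, by omega⟩ := ⟨_, rfl⟩
  have h0 : 0 ≤ a := ha ▸ hL _
  rw [← ha, ← hb] at hab
  obtain rfl : L = fun i : Fin X.n => if (i : ℕ) < 2 then a else b := by
    funext ⟨i, hi⟩
    have hi' : i < 4 := hn ▸ hi
    rw [ha, hb]
    interval_cases i
    · rfl
    · exact e _ _ (by decide : Odd (pathM 1 4 1 0))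
    · rfl
    · exact e _ _ (by decide : Odd (pathM 1 4 3 2))
  rcases (h0.trans hab).eq_or_lt with b0 | b0
  · have z : ∀ i : Fin X.n, (if (i : ℕ) < 2 then a else b) = 0 := fun i => by
      split_ifs
      exacts [le_antisymm (b0 ▸ hab) h0, b0.symm]
    refine iff_of_true (A.rel_of_zero ?_ _ _) (D.rel_of_zero z hχ hχ')
    rintro _ ⟨w, i, rfl⟩
    rw [κ.cl _ w (X.cs.isReflection_simple i), hκ]
    simp only [z]
    simp
  obtain ⟨hex, hr⟩ := hK h hn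
  obtain ⟨j, hj, c⟩ := Cox.all4 h hn hex hχ
  obtain ⟨j', hj', c'⟩ := Cox.all4 h hn hex hχ'
  rw [hr a b h0 hab b0 D χ χ' hχ hχ' j hj j' hj' c c']
  exact F4.rel_iff h hn hκ A hex h0 hab b0 hχ hχ' hj hj' c c'

theorem goodF (hK : ∀ X : Cox, X.KLF) (X : Cox) (h : X.Is (pathM 1 4)) (hn : X.n = 4) :
    X.Good := by
  intro L hL
  rcases le_total (L ⟨0, by omega⟩) (L ⟨2, by omega⟩) with c | c
  · exact Cox.goodF_le h hn (hK X) hL c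
  intro κ hκ
  have e : ∀ i j : Fin X.n, Odd (pathM 1 4 i j) → L i = L j := fun i j o =>
    p4_conj hκ i j (X.isConj_of_odd (h i j ▸ o))
  obtain ⟨_, Y', -, -, h1, ⟨Q⟩⟩ := exists_prd_shape X ⟨1, h⟩
  obtain ⟨W', _, _, cs', h', P, hP⟩ := exists_par X ⟨fun i j => X.M (Fin.rev i) (Fin.rev j),
    Matrix.IsSymm.ext fun i j => X.M.symmetric _ _, fun i => X.M.diagonal _,
    fun i j hij => X.M.off_diagonal _ _ (Fin.rev_injective.ne hij)⟩ Fin.rev Fin.rev_injective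
      fun _ _ => rfl
  let Y : Cox := { W := W', cs := cs', hM := h', .. }
  let Q' : Prd Y Y' X := ⟨P, Q.P', fun i => Or.inl ⟨Fin.rev i, by rw [hP, Fin.rev_rev]⟩,
    fun _ j' => absurd (j'.2.trans_eq h1) (Nat.not_lt_zero _)⟩
  refine Q'.goodAt (Cox.goodF_le (X := Y) (fun i j => ?_) hn (hK Y) (fun _ => hL _) ?_)
    (good_zero Y' h1 _ fun _ => hL _) κ hκ
  · refine (h (Fin.rev i) (Fin.rev j)).trans ?_
    have d : ∀ i < 4, ∀ j < 4, pathM 1 4 (4 - (i + 1)) (4 - (j + 1)) = pathM 1 4 i j := by decide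
    rw [Fin.val_rev, Fin.val_rev, ← d i (hn ▸ i.2) j (hn ▸ j.2)]
    congr 2
  · have e0 : P.e ⟨0, (by omega : 0 < X.n)⟩ = ⟨3, by omega⟩ := by
      rw [hP]; exact Fin.ext (by rw [Fin.val_rev]; simp only; omega)
    have e2 : P.e ⟨2, (by omega : 2 < X.n)⟩ = ⟨1, by omega⟩ := by
      rw [hP]; exact Fin.ext (by rw [Fin.val_rev]; simp only; omega)
    show L (P.e _) ≤ L (P.e _)
    rw [e0, e2, e ⟨3, _⟩ ⟨2, by omega⟩ (by decide : Odd (pathM 1 4 3 2)),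
      e ⟨1, _⟩ ⟨0, by omega⟩ (by decide : Odd (pathM 1 4 1 0))]
    exact c

end

end Pool.Agent.P.MP_1a0ecf_al.F
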