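import Pool.Agent.P.MP_1a0ecf_al.F.P4
import Pool.Agent.P.MP_1a0ecf_al.F.Fr6
import Pool.Agent.P.MP_1a0ecf_al.F.I2
import Pool.Agent.P.MP_1a0ecf_al.F.CL1
import Pool.Agent.P.MP_1a0ecf_al.F.CL2

/-! Package Top: assembly. -/

namespace Pool.Agent.P.MP_1a0ecf_al.F

open Matrix MvPolynomial
open scoped Classical TensorProduct

noncomputable section

theorem good_all (hA : ∀ X : Cox, X.KLA) (hB : ∀ X : Cox, X.KLB) (hD : ∀ X : Cox, X.KLD)
    (hI : ∀ X : Cox, X.KLI) (hF : ∀ X : Cox, X.Is (pathM 1 4) → X.n = 4 → X.Good) (X : Cox) :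
    X.Good := by
  induction hn : X.n using Nat.strong_induction_on generalizing X with
  | _ n ih =>
    rcases Nat.eq_zero_or_pos X.n with h0 | h0
    · exact good_zero X h0
    by_cases hc : Conn X.M
    swap
    · obtain ⟨Y, Y', h1, h2, ⟨Q⟩⟩ := exists_prd X hc
      exact Q.good (ih _ (hn ▸ h1) Y rfl) (ih _ (hn ▸ h2) Y' rfl)
    have hp : (gram X.M).PosDef := X.K_posDef
    have hl : Listed X.M := by
      rcases shape X.M X.hM hp h0 hc with ⟨k, m, hm, h⟩ | ⟨p, q, h1, h2, h3, h⟩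
      · exact listed_path X.M hp hm h
      · exact listed_star X.M hp h1 h2 h3 h
    have sh : ∀ f, Shape X.M f → (∀ Y : Cox, Y.n = X.n → Y.Is f → Y.Good) → X.Good := by
      intro f h hg
      obtain ⟨Y, Y', h1, h2, h3, ⟨Q⟩⟩ := exists_prd_shape X h
      exact Q.good (hg Y h1 h2) (good_zero Y' h3)
    have iso : ∀ {m : ℕ} (M' : CoxeterMatrix (Fin m)), Iso M' X.M → GordonMartino M' → X.Good := by
      intro m M' h hg
      obtain ⟨W', _, _, cs', h', Y', h3, ⟨Q⟩⟩ := exists_prd_iso X h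
      exact Q.good (good_of_gm _ hg) (good_zero Y' h3)
    rcases hl with h | ⟨h1, h⟩ | ⟨h1, h⟩ | ⟨h1, m, hm, h⟩ | ⟨h1, h⟩ | h | h | h | h | h
    · exact sh _ h fun Y _ e => Cox.goodA e (hA Y)
    · exact sh _ h fun Y e1 e => Cox.goodB e (e1 ▸ h1) (hB Y)
    · exact sh _ h fun Y e1 e => Cox.goodD e (e1 ▸ h1) (hD Y)
    · exact sh _ h fun Y e1 e => Cox.goodI hm e (e1.trans h1) (hI Y)
    · exact sh _ h fun Y e1 e => hF Y e (e1.trans h1)
    · exact iso _ h gm_E6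
    · exact iso _ h gm_E7
    · exact iso _ h gm_E8
    · exact iso _ h gm_H3
    · exact iso _ h gm_H4

theorem gm_all (hA : ∀ X : Cox, X.KLA) (hB : ∀ X : Cox, X.KLB) (hD : ∀ X : Cox, X.KLD)
    (hI : ∀ X : Cox, X.KLI) (hF : ∀ X : Cox, X.Is (pathM 1 4) → X.n = 4 → X.Good) (n : ℕ)
    (M : CoxeterMatrix (Fin n)) : S.GordonMartino M :=
  spec_of (gm_of_good M (good_all hA hB hD hI hF))

end

end Pool.Agent.P.MP_1a0ecf_al.F
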